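import Mathlib

-- part Ho
section

/-! Hoelder type inequalities for continuous functions on a compact space; Moser iteration. -/

open MeasureTheory Filter Topology Set

namespace Pool.Agent.MP_9bd639_gt.H88

variable {M : Type} [TopologicalSpace M] [CompactSpace M] [MeasurableSpace M] [BorelSpace M]
  (ν : Measure M) [IsFiniteMeasure ν] {f g h u V : M → ℝ}

theorem cint (hf : Continuous f) : Integrable f ν :=
  hf.integrable_of_hasCompactSupport (HasCompactSupport.of_compactSpace f)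

theorem Ho_memLp (hf : Continuous f) (p : ENNReal) : MemLp f p ν :=
  hf.memLp_of_hasCompactSupport (HasCompactSupport.of_compactSpace f)

theorem holder (hf : Continuous f) (hg : Continuous g) (f0 : ∀ x, 0 ≤ f x) (g0 : ∀ x, 0 ≤ g x)
    {p q : ℝ} (hp : 1 < p) (hpq : 1 / p + 1 / q = 1) :
    ∫ x, f x * g x ∂ν ≤ (∫ x, f x ^ p ∂ν) ^ (1 / p) * (∫ x, g x ^ q ∂ν) ^ (1 / q) := by
  have hc : p.HolderConjugate q := by
    rw [Real.holderConjugate_iff]
    exact ⟨hp, by simpa only [one_div] using hpq⟩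
  exact integral_mul_le_Lp_mul_Lq_of_nonneg hc (Eventually.of_forall f0) (Eventually.of_forall g0)
    (Ho_memLp ν hf _) (Ho_memLp ν hg _)

theorem Ho_cs_abs (hf : Continuous f) (hg : Continuous g) :
    ∫ x, |f x * g x| ∂ν ≤ Real.sqrt (∫ x, f x ^ 2 ∂ν) * Real.sqrt (∫ x, g x ^ 2 ∂ν) := by
  have h := holder ν hf.abs hg.abs (fun x => abs_nonneg _) (fun x => abs_nonneg _)
    (p := 2) (q := 2) (by norm_num) (by norm_num)
  simp only [Real.rpow_two, sq_abs] at h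
  simp only [abs_mul, Real.sqrt_eq_rpow]
  exact h

theorem cs (hf : Continuous f) (hg : Continuous g) :
    |∫ x, f x * g x ∂ν| ≤ Real.sqrt (∫ x, f x ^ 2 ∂ν) * Real.sqrt (∫ x, g x ^ 2 ∂ν) :=
  abs_integral_le_integral_abs.trans (Ho_cs_abs ν hf hg)

theorem holder236 (hf : Continuous f) (hg : Continuous g) (hh : Continuous h) :
    ∫ x, |f x * g x * h x| ∂ν ≤ Real.sqrt (∫ x, f x ^ 2 ∂ν) * (∫ x, |g x| ^ 3 ∂ν) ^ (1 / 3 : ℝ) *
      (∫ x, h x ^ 6 ∂ν) ^ (1 / 6 : ℝ) := by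
  have h1 := Ho_cs_abs ν (g := fun x => g x * h x) hf (hg.mul hh)
  have h2 := holder ν (f := fun x => g x ^ 2) (g := fun x => h x ^ 2) (hg.pow 2) (hh.pow 2)
    (fun x => sq_nonneg _) (fun x => sq_nonneg _)
    (p := 3 / 2) (q := 3) (by norm_num) (by norm_num)
  have e1 : ∀ x, (g x ^ 2) ^ (3 / 2 : ℝ) = |g x| ^ 3 := fun x => by
    rw [← sq_abs, ← Real.rpow_natCast, ← Real.rpow_mul (abs_nonneg _), ← Real.rpow_natCast]
    norm_num
  have e2 : ∀ x, (h x ^ 2) ^ (3 : ℝ) = h x ^ 6 := fun x => by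
    rw [show (3 : ℝ) = ((3 : ℕ) : ℝ) by norm_num, Real.rpow_natCast]
    ring
  simp only [e1, e2] at h2
  have a0 : 0 ≤ ∫ x, |g x| ^ 3 ∂ν := integral_nonneg fun x => by positivity
  have b0 : 0 ≤ ∫ x, h x ^ 6 ∂ν := integral_nonneg fun x => by positivity
  have h3 : Real.sqrt (∫ x, (g x * h x) ^ 2 ∂ν) ≤
      (∫ x, |g x| ^ 3 ∂ν) ^ (1 / 3 : ℝ) * (∫ x, h x ^ 6 ∂ν) ^ (1 / 6 : ℝ) := by
    refine Real.sqrt_le_iff.2 ⟨by positivity, ?_⟩
    simp only [mul_pow]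
    refine h2.trans (le_of_eq ?_)
    rw [← Real.rpow_natCast, ← Real.rpow_natCast, ← Real.rpow_mul a0, ← Real.rpow_mul b0]
    norm_num
  simp only [mul_assoc]
  exact h1.trans (mul_le_mul_of_nonneg_left h3 (Real.sqrt_nonneg _))

theorem logconv (hu : Continuous u) (u0 : ∀ x, 0 ≤ u x) {a b θ : ℝ} (ha : 0 < a) (hb : 0 < b)
    (h0 : 0 ≤ θ) (h1 : θ ≤ 1) : ∫ x, u x ^ (θ * a + (1 - θ) * b) ∂ν ≤
      (∫ x, u x ^ a ∂ν) ^ θ * (∫ x, u x ^ b ∂ν) ^ (1 - θ) := by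
  rcases h0.eq_or_lt with rfl | h0'
  · simp
  rcases h1.eq_or_lt with rfl | h1'
  · simp
  have h1'' : 0 < 1 - θ := by linarith
  have c1 : Continuous fun x => u x ^ (θ * a) :=
    hu.rpow_const fun x => Or.inr (by positivity)
  have c2 : Continuous fun x => u x ^ ((1 - θ) * b) :=
    hu.rpow_const fun x => Or.inr (by positivity)
  have h := holder ν c1 c2 (fun x => Real.rpow_nonneg (u0 x) _)
    (fun x => Real.rpow_nonneg (u0 x) _) (p := 1 / θ) (q := 1 / (1 - θ))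
    (by rw [lt_div_iff₀ h0']; linarith) (by simp)
  have e1 : ∀ x, (u x ^ (θ * a)) ^ (1 / θ) = u x ^ a := fun x => by
    rw [← Real.rpow_mul (u0 x)]
    congr 1
    field_simp
  have e2 : ∀ x, (u x ^ ((1 - θ) * b)) ^ (1 / (1 - θ)) = u x ^ b := fun x => by
    rw [← Real.rpow_mul (u0 x)]
    congr 1
    field_simp
  have e3 : ∀ x, u x ^ (θ * a + (1 - θ) * b) = u x ^ (θ * a) * u x ^ ((1 - θ) * b) := fun x =>
    Real.rpow_add' (u0 x) (by positivity)
  simp only [e1, e2, one_div_one_div] at h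
  simp only [e3]
  exact h

theorem int_pos [ν.IsOpenPosMeasure] (hf : Continuous f) (f0 : ∀ x, 0 ≤ f x) {y : M}
    (hy : 0 < f y) : 0 < ∫ x, f x ∂ν :=
  hf.integral_pos_of_hasCompactSupport_nonneg_nonzero (HasCompactSupport.of_compactSpace f) f0
    hy.ne'

theorem sup_of_Lp [ν.IsOpenPosMeasure] (hu : Continuous u) (u0 : ∀ x, 0 ≤ u x) {p : ℕ → ℝ}
    (hp : Tendsto p atTop atTop) {C : ℝ} (h : ∀ j, (∫ x, u x ^ p j ∂ν) ^ (1 / p j) ≤ C) (x : M) :
    u x ≤ C := by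
  by_contra hx
  obtain ⟨c, hc1, hc2⟩ := exists_between (not_le.1 hx)
  have hev : ∀ᶠ j in atTop, 0 < p j := hp.eventually_gt_atTop 0
  have hC : 0 ≤ C := le_trans (Real.rpow_nonneg
    (integral_nonneg fun y => Real.rpow_nonneg (u0 y) _) _) (h 0)
  have c0 : 0 < c := lt_of_le_of_lt hC hc1
  have hU : IsOpen {y | c < u y} := isOpen_lt continuous_const hu
  have hm : 0 < ν.real {y | c < u y} :=
    ENNReal.toReal_pos (hU.measure_pos ν ⟨x, hc2⟩).ne' (measure_ne_top _ _)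
  set m := ν.real {y | c < u y} with hmdef
  have key : ∀ᶠ j in atTop, c * m ^ (1 / p j) ≤ C := by
    filter_upwards [hev] with j hj
    have cj : Continuous fun y => u y ^ p j := hu.rpow_const fun y => Or.inr hj.le
    have h1 := mul_meas_ge_le_integral_of_nonneg (μ := ν) (f := fun y => u y ^ p j)
      (Eventually.of_forall fun y => Real.rpow_nonneg (u0 y) _) (cint ν cj) (c ^ p j)
    have h2 : m ≤ ν.real {y | c ^ p j ≤ u y ^ p j} :=
      measureReal_mono fun y hy => Real.rpow_le_rpow c0.le (le_of_lt hy) hj.le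
    have h3 : c ^ p j * m ≤ ∫ y, u y ^ p j ∂ν :=
      (mul_le_mul_of_nonneg_left h2 (by positivity)).trans h1
    have h4 := Real.rpow_le_rpow (by positivity) h3 (z := 1 / p j) (by positivity)
    rw [Real.mul_rpow (by positivity) hm.le, ← Real.rpow_mul c0.le, mul_one_div_cancel hj.ne',
      Real.rpow_one] at h4
    exact h4.trans (h j)
  have t1 : Tendsto (fun j => 1 / p j) atTop (𝓝 0) := by
    simpa only [one_div, Function.comp_def] using tendsto_inv_atTop_zero.comp hp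
  have t2 : Tendsto (fun j => c * m ^ (1 / p j)) atTop (𝓝 (c * m ^ (0 : ℝ))) :=
    ((Real.continuousAt_const_rpow hm.ne').tendsto.comp t1).const_mul c
  rw [Real.rpow_zero, mul_one] at t2
  exact absurd (le_of_tendsto t2 key) (not_le.2 hc1)

theorem Ho_absorb {J I K α : ℝ} (hJ : 0 ≤ J) (hI : 0 ≤ I) (hK : 0 ≤ K) (hα : 0 < α)
    (h : J ≤ K * (I ^ α * J ^ (1 - α))) : J ≤ K ^ (1 / α) * I := by
  rcases hJ.eq_or_lt with rfl | hJ'
  · positivity
  have h1 : J ^ α ≤ K * I ^ α := by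
    have e : J = J ^ α * J ^ (1 - α) := by
      rw [← Real.rpow_add hJ']; simp
    have p : 0 < J ^ (1 - α) := Real.rpow_pos_of_pos hJ' _
    refine le_of_mul_le_mul_right ?_ p
    rw [← e, mul_assoc]
    exact h
  have h2 := Real.rpow_le_rpow (by positivity) h1 (z := 1 / α) (by positivity)
  rwa [Real.mul_rpow hK (by positivity), ← Real.rpow_mul hJ, ← Real.rpow_mul hI,
    mul_one_div_cancel hα.ne', Real.rpow_one, Real.rpow_one] at h2

theorem Ho_fac {b κ : ℝ} (hb : 1 ≤ b) (hκ : 0 ≤ κ) (i : ℕ) :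
    (b * (2 * 3 ^ i : ℝ) ^ κ) ^ (1 / (2 * 3 ^ i : ℝ)) ≤
      Real.exp ((Real.log b + 2 * κ) * (2 / 3) ^ i) := by
  have p0 : (0 : ℝ) < 2 * 3 ^ i := by positivity
  have b0 : 0 < b := by linarith
  have lb : 0 ≤ Real.log b := Real.log_nonneg hb
  rw [Real.rpow_def_of_pos (by positivity), Real.exp_le_exp,
    Real.log_mul b0.ne' (by positivity), Real.log_rpow p0, mul_one_div, div_le_iff₀ p0]
  have e : (2 / 3 : ℝ) ^ i * (2 * 3 ^ i) = 2 * 2 ^ i := by
    rw [div_pow]; field_simp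
  rw [mul_assoc, e]
  have h2 : (1 : ℝ) ≤ 2 ^ i := one_le_pow₀ (by norm_num)
  have hi : (i : ℝ) ≤ 2 ^ i := by exact_mod_cast (Nat.lt_two_pow_self (n := i)).le
  have l2 : Real.log 2 ≤ 1 := by
    have := Real.log_le_sub_one_of_pos (x := 2) (by norm_num); linarith
  have l3 : Real.log 3 ≤ 2 := by
    have := Real.log_le_sub_one_of_pos (x := 3) (by norm_num); linarith
  have hl : Real.log (2 * 3 ^ i) ≤ 4 * 2 ^ i := by
    rw [Real.log_mul (by norm_num) (by positivity), Real.log_pow]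
    have : (i : ℝ) * Real.log 3 ≤ i * 2 := mul_le_mul_of_nonneg_left l3 (by positivity)
    linarith
  have := mul_le_mul_of_nonneg_left hl hκ
  have := mul_le_mul_of_nonneg_left h2 lb
  nlinarith

/-- Hoelder with `s` and `s' = s / (s - 1) < 3`, then `logconv` between `p` and `3 p`, absorb:
`I (3 p) ^ (1 / 3) ≤ b p ^ κ I p`. Iterate with `p = 2 * 3 ^ j`. -/
theorem moser {s : ℝ} (hs : 3 / 2 < s) (C Λ : ℝ) : ∃ C' : ℝ, 0 < C' ∧
    ∀ (M : Type) [TopologicalSpace M] [CompactSpace M] [MeasurableSpace M] [BorelSpace M]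
      (ν : Measure M) [IsFiniteMeasure ν] [ν.IsOpenPosMeasure] (u V : M → ℝ),
      Continuous u → Continuous V → (∀ x, 0 < u x) → (∀ x, 0 ≤ V x) → ∫ x, V x ^ s ∂ν ≤ Λ →
      (∀ p : ℝ, 2 ≤ p → (∫ x, u x ^ (3 * p) ∂ν) ^ (1 / 3 : ℝ) ≤
        C * p ^ 2 * ∫ x, V x * u x ^ p ∂ν) →
      ∀ x, u x ≤ C' * Real.sqrt (∫ x, u x ^ 2 ∂ν) := by
  have s1 : 0 < s - 1 := by linarith
  have s0 : 0 < s := by linarith
  obtain ⟨t, ht⟩ : ∃ t : ℝ, t = s / (s - 1) := ⟨_, rfl⟩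
  have t1 : 1 < t := by rw [ht, lt_div_iff₀ s1]; linarith
  have t3 : t < 3 := by rw [ht, div_lt_iff₀ s1]; linarith
  have t0 : 0 < t := by linarith
  have hst : 1 / s + 1 / t = 1 := by rw [ht]; field_simp; ring
  obtain ⟨θ, hθ⟩ : ∃ θ : ℝ, θ = (3 - t) / 2 := ⟨_, rfl⟩
  have θ0 : 0 < θ := by rw [hθ]; linarith
  have θ1 : θ ≤ 1 := by rw [hθ]; linarith
  obtain ⟨α, hα⟩ : ∃ α : ℝ, α = θ / t := ⟨_, rfl⟩
  have α0 : 0 < α := by rw [hα]; positivity
  obtain ⟨K, hK⟩ : ∃ K : ℝ, K = |C| * |Λ| ^ (1 / s) := ⟨_, rfl⟩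
  have K0 : 0 ≤ K := by rw [hK]; positivity
  obtain ⟨b, hb⟩ : ∃ b : ℝ, b = K ^ (1 / α) + 1 := ⟨_, rfl⟩
  have b1 : 1 ≤ b := by
    have : 0 ≤ K ^ (1 / α) := by positivity
    rw [hb]; linarith
  obtain ⟨κ, hκ⟩ : ∃ κ : ℝ, κ = 2 / α := ⟨_, rfl⟩
  have κ0 : 0 ≤ κ := by rw [hκ]; positivity
  obtain ⟨D, hD⟩ : ∃ D : ℝ, D = Real.log b + 2 * κ := ⟨_, rfl⟩
  have D0 : 0 ≤ D := by
    have := Real.log_nonneg b1
    rw [hD]; linarith
  refine ⟨Real.exp (3 * D), Real.exp_pos _, ?_⟩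
  intro M _ _ _ _ ν _ _ u V hu hV u0 V0 hΛ hyp x
  have I0 : ∀ p : ℝ, 0 ≤ ∫ x, u x ^ p ∂ν := fun p =>
    integral_nonneg fun y => Real.rpow_nonneg (u0 y).le _
  have step : ∀ p : ℝ, 2 ≤ p → (∫ x, u x ^ (3 * p) ∂ν) ^ (1 / 3 : ℝ) ≤
      b * p ^ κ * ∫ x, u x ^ p ∂ν := by
    intro p hp
    have p0 : 0 < p := by linarith
    have cp : Continuous fun y => u y ^ p := hu.rpow_const fun y => Or.inr p0.le
    have h1 := holder ν hV cp V0 (fun y => Real.rpow_nonneg (u0 y).le _) (p := s) (q := t)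
      (by linarith) hst
    have e1 : ∀ y, (u y ^ p) ^ t = u y ^ (θ * p + (1 - θ) * (3 * p)) := fun y => by
      rw [← Real.rpow_mul (u0 y).le]
      congr 1
      rw [hθ]; ring
    simp only [e1] at h1
    have h2 := logconv ν hu (fun y => (u0 y).le) p0 (by positivity : 0 < 3 * p) θ0.le θ1
    have h3 := Real.rpow_le_rpow (I0 _) h2 (z := 1 / t) (by positivity)
    have h4 : (∫ x, V x ^ s ∂ν) ^ (1 / s) ≤ |Λ| ^ (1 / s) :=
      Real.rpow_le_rpow (integral_nonneg fun y => Real.rpow_nonneg (V0 y) _)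
        (hΛ.trans (le_abs_self _)) (by positivity)
    have W0 : 0 ≤ ∫ x, V x * u x ^ p ∂ν :=
      integral_nonneg fun y => mul_nonneg (V0 y) (Real.rpow_nonneg (u0 y).le _)
    have a0 := I0 p
    have a1 := I0 (3 * p)
    have e2 : ((∫ x, u x ^ p ∂ν) ^ θ * (∫ x, u x ^ (3 * p) ∂ν) ^ (1 - θ)) ^ (1 / t) =
        (∫ x, u x ^ p ∂ν) ^ α * ((∫ x, u x ^ (3 * p) ∂ν) ^ (1 / 3 : ℝ)) ^ (1 - α) := by
      rw [Real.mul_rpow (by positivity) (by positivity), ← Real.rpow_mul a0, ← Real.rpow_mul a1,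
        ← Real.rpow_mul a1]
      congr 2
      · rw [hα]; field_simp
      · rw [hα, hθ]; field_simp; ring
    rw [e2] at h3
    have h5 := h1.trans (mul_le_mul h4 h3 (Real.rpow_nonneg (I0 _) _) (by positivity))
    have h6 : (∫ x, u x ^ (3 * p) ∂ν) ^ (1 / 3 : ℝ) ≤ (K * p ^ 2) *
        ((∫ x, u x ^ p ∂ν) ^ α * ((∫ x, u x ^ (3 * p) ∂ν) ^ (1 / 3 : ℝ)) ^ (1 - α)) := by
      refine (hyp p hp).trans ?_
      have c1 : C * p ^ 2 ≤ |C| * p ^ 2 := mul_le_mul_of_nonneg_right (le_abs_self _) (by positivity)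
      refine (mul_le_mul c1 h5 W0 (by positivity)).trans (le_of_eq ?_)
      rw [hK]; ring
    refine (Ho_absorb (by positivity) a0 (by positivity) α0 h6).trans ?_
    refine mul_le_mul_of_nonneg_right ?_ a0
    rw [Real.mul_rpow K0 (by positivity), ← Real.rpow_natCast, ← Real.rpow_mul p0.le]
    have e3 : ((2 : ℕ) : ℝ) * (1 / α) = κ := by rw [hκ]; push_cast; ring
    rw [e3]
    exact mul_le_mul_of_nonneg_right (by rw [hb]; linarith) (by positivity)
  have iter : ∀ j : ℕ, (∫ x, u x ^ (2 * 3 ^ j : ℝ) ∂ν) ^ (1 / (2 * 3 ^ j : ℝ)) ≤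
      Real.exp (3 * D * (1 - (2 / 3) ^ j)) * Real.sqrt (∫ x, u x ^ 2 ∂ν) := by
    intro j
    induction j with
    | zero => simp [Real.sqrt_eq_rpow]
    | succ j ih =>
      have h3 : (1 : ℝ) ≤ 3 ^ j := one_le_pow₀ (by norm_num)
      have h1 := step (2 * 3 ^ j) (by linarith)
      have h2 := Real.rpow_le_rpow (Real.rpow_nonneg (I0 _) _) h1 (z := 1 / (2 * 3 ^ j : ℝ))
        (by positivity)
      rw [← Real.rpow_mul (I0 _), Real.mul_rpow (by positivity) (I0 _)] at h2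
      have e1 : (2 * 3 ^ (j + 1) : ℝ) = 3 * (2 * 3 ^ j) := by ring
      have e2 : (1 / (3 * (2 * 3 ^ j)) : ℝ) = 1 / 3 * (1 / (2 * 3 ^ j)) := by field_simp
      rw [e1, e2]
      refine h2.trans ((mul_le_mul (Ho_fac b1 κ0 j) ih (Real.rpow_nonneg (I0 _) _)
        (Real.exp_pos _).le).trans (le_of_eq ?_))
      rw [← mul_assoc, ← Real.exp_add, ← hD]
      congr 2
      ring
  refine sup_of_Lp ν hu (fun y => (u0 y).le) (p := fun j => 2 * 3 ^ j)
    ((tendsto_pow_atTop_atTop_of_one_lt (by norm_num)).const_mul_atTop (by norm_num))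
    (fun j => (iter j).trans ?_) x
  refine mul_le_mul_of_nonneg_right (Real.exp_le_exp.2 ?_) (Real.sqrt_nonneg _)
  have : (0 : ℝ) ≤ (2 / 3) ^ j := by positivity
  nlinarith

end Pool.Agent.MP_9bd639_gt.H88

end

-- part TReal
section

/-! Real-variable lemmas for parabolic arguments: barriers, Gronwall, the maximum principle on a
compact space, differentiation of integrals, and the iteration of Nash. -/

open Set Filter Topology MeasureTheory

namespace Pool.Agent.MP_9bd639_gt.H88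

theorem hdw_Ici {y : ℝ → ℝ} {y' a b t : ℝ} (ht : t ∈ Ico a b)
    (h : HasDerivWithinAt y y' (Icc a b) t) : HasDerivWithinAt y y' (Ici t) t :=
  h.mono_of_mem_nhdsWithin (Icc_mem_nhdsGE_of_mem ht)

theorem hdw_cont {y y' : ℝ → ℝ} {a b : ℝ}
    (hy : ∀ t ∈ Icc a b, HasDerivWithinAt y (y' t) (Icc a b) t) : ContinuousOn y (Icc a b) :=
  fun t ht => (hy t ht).continuousWithinAt

/-- A strict upper barrier. -/
theorem barrier {y y' B B' : ℝ → ℝ} {a b : ℝ}
    (hy : ∀ t ∈ Icc a b, HasDerivWithinAt y (y' t) (Icc a b) t)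
    (hB : ∀ t ∈ Icc a b, HasDerivWithinAt B (B' t) (Icc a b) t) (h0 : y a ≤ B a)
    (h : ∀ t ∈ Ico a b, y t = B t → y' t < B' t) : ∀ t ∈ Icc a b, y t ≤ B t := fun _ ht =>
  image_le_of_deriv_right_lt_deriv_boundary' (hdw_cont hy)
    (fun s hs => hdw_Ici hs (hy s (Ico_subset_Icc_self hs))) h0 (hdw_cont hB)
    (fun s hs => hdw_Ici hs (hB s (Ico_subset_Icc_self hs))) h ht

/-- Comparison of derivatives. -/
theorem le_of_deriv_le {y y' B B' : ℝ → ℝ} {a b : ℝ}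
    (hy : ∀ t ∈ Icc a b, HasDerivWithinAt y (y' t) (Icc a b) t)
    (hB : ∀ t ∈ Icc a b, HasDerivWithinAt B (B' t) (Icc a b) t) (h0 : y a ≤ B a)
    (h : ∀ t ∈ Ico a b, y' t ≤ B' t) : ∀ t ∈ Icc a b, y t ≤ B t := fun _ ht =>
  image_le_of_deriv_right_le_deriv_boundary (hdw_cont hy)
    (fun s hs => hdw_Ici hs (hy s (Ico_subset_Icc_self hs))) h0 (hdw_cont hB)
    (fun s hs => hdw_Ici hs (hB s (Ico_subset_Icc_self hs))) h ht

theorem hdw_sub {y y' : ℝ → ℝ} {a b s t : ℝ}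
    (hy : ∀ t ∈ Icc a b, HasDerivWithinAt y (y' t) (Icc a b) t) (hs : a ≤ s) (ht : t ≤ b) :
    ∀ r ∈ Icc s t, HasDerivWithinAt y (y' r) (Icc s t) r := fun r hr =>
  (hy r (Icc_subset_Icc hs ht hr)).mono (Icc_subset_Icc hs ht)

/-- A bound on the derivative bounds the increments. -/
theorem le_add_of_deriv_le {y y' : ℝ → ℝ} {a b C : ℝ}
    (hy : ∀ t ∈ Icc a b, HasDerivWithinAt y (y' t) (Icc a b) t)
    (h : ∀ t ∈ Ico a b, y' t ≤ C) : ∀ t ∈ Icc a b, y t ≤ y a + C * (t - a) :=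
  le_of_deriv_le (B := fun t => y a + C * (t - a)) (B' := fun _ => C) hy
    (fun t _ => by
      simpa using (((hasDerivAt_id t).sub_const a).const_mul C).const_add (y a)
        |>.hasDerivWithinAt) (by simp) h

theorem sub_le_of_le_deriv {y y' : ℝ → ℝ} {a b C : ℝ}
    (hy : ∀ t ∈ Icc a b, HasDerivWithinAt y (y' t) (Icc a b) t)
    (h : ∀ t ∈ Ico a b, -C ≤ y' t) : ∀ t ∈ Icc a b, y a - C * (t - a) ≤ y t := fun t ht => by
  have := le_add_of_deriv_le (y := fun t => -y t) (y' := fun t => -y' t) (C := C)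
    (fun t ht => (hy t ht).neg) (fun t ht => by linarith [h t ht]) t ht
  linarith

/-- The inequality of Gronwall. -/
theorem gronwall {y y' : ℝ → ℝ} {a b C : ℝ}
    (hy : ∀ t ∈ Icc a b, HasDerivWithinAt y (y' t) (Icc a b) t)
    (h : ∀ t ∈ Ico a b, y' t ≤ C * y t) : ∀ t ∈ Icc a b, y t ≤ y a * Real.exp (C * (t - a)) := by
  intro t ht
  have hd : ∀ s ∈ Icc a b, HasDerivWithinAt (fun s => y s * Real.exp (-(C * (s - a))))
      ((y' s - C * y s) * Real.exp (-(C * (s - a)))) (Icc a b) s := fun s hs => by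
    have := (hy s hs).mul
      ((((hasDerivAt_id s).sub_const a).const_mul C).neg.exp.hasDerivWithinAt (s := Icc a b))
    refine this.congr_deriv ?_
    simp only [id, Pi.neg_apply]
    ring
  have := le_add_of_deriv_le (C := 0) hd (fun s hs =>
    mul_nonpos_of_nonpos_of_nonneg (by linarith [h s hs]) (Real.exp_pos _).le) t ht
  simp only [sub_self, mul_zero, neg_zero, Real.exp_zero, mul_one, zero_mul, add_zero] at this
  rwa [Real.exp_neg, ← div_eq_mul_inv, div_le_iff₀ (Real.exp_pos _)] at this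

/-- Gronwall with a constant term. -/
theorem gronwall_add {y y' : ℝ → ℝ} {a b C : ℝ}
    (hy : ∀ t ∈ Icc a b, HasDerivWithinAt y (y' t) (Icc a b) t)
    (h : ∀ t ∈ Ico a b, y' t ≤ C * (y t + 1)) :
    ∀ t ∈ Icc a b, y t + 1 ≤ (y a + 1) * Real.exp (C * (t - a)) :=
  gronwall (y := fun t => y t + 1) (fun t ht => (hy t ht).add_const 1) h

theorem gronwall_zero {y y' : ℝ → ℝ} {a b C : ℝ}
    (hy : ∀ t ∈ Icc a b, HasDerivWithinAt y (y' t) (Icc a b) t)
    (h : ∀ t ∈ Ico a b, y' t ≤ C * y t) (h0 : y a ≤ 0) : ∀ t ∈ Icc a b, y t ≤ 0 := fun t ht =>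
  (gronwall hy h t ht).trans (mul_nonpos_of_nonpos_of_nonneg h0 (Real.exp_pos _).le)

/-- At a minimum from the left the derivative is not positive. -/
theorem deriv_nonpos_of_left {v : ℝ → ℝ} {v' a b t : ℝ} (hat : a < t) (htb : t ≤ b)
    (hd : HasDerivWithinAt v v' (Icc a b) t) (h : ∀ s ∈ Ico a t, v t ≤ v s) : v' ≤ 0 := by
  have h1 : HasDerivWithinAt v v' (Ico a t) t :=
    hd.mono fun s hs => ⟨hs.1, hs.2.le.trans htb⟩
  rw [hasDerivWithinAt_iff_tendsto_slope' (by simp)] at h1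
  have : (𝓝[Ico a t] t).NeBot := right_nhdsWithin_Ico_neBot hat
  refine le_of_tendsto h1 (eventually_nhdsWithin_of_forall fun s hs => ?_)
  rw [slope_def_field]
  exact div_nonpos_of_nonneg_of_nonpos (by linarith [h s hs]) (by linarith [hs.2])

/-- The parabolic minimum principle. -/
theorem maxp_abs {M : Type} [TopologicalSpace M] [CompactSpace M] {a b C δ : ℝ}
    {u u' : ℝ → M → ℝ} (hδ : 0 < δ) (hc : Continuous fun p : Icc a b × M => u p.1 p.2)
    (hd : ∀ x, ∀ t ∈ Icc a b, HasDerivWithinAt (fun s => u s x) (u' t x) (Icc a b) t)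
    (h0 : ∀ x, 0 ≤ u a x)
    (h : ∀ t ∈ Icc a b, ∀ x, (∀ y, u t x ≤ u t y) → -δ ≤ u t x → u t x < 0 →
      C * u t x ≤ u' t x) : ∀ t ∈ Icc a b, ∀ x, 0 ≤ u t x := by
  intro t ht x
  set L := |C| + 1 with hL
  have hL0 : 0 < L := by positivity
  have key : ∀ ε > 0, ε * Real.exp (L * (b - a)) ≤ δ →
      ∀ p : Icc a b × M, 0 < u p.1 p.2 + ε * Real.exp (L * (p.1 - a)) := by
    intro ε hε hεδ
    by_contra hcon
    push Not at hcon
    have hK : IsClosed {p : Icc a b × M | u p.1 p.2 + ε * Real.exp (L * (p.1 - a)) ≤ 0} :=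
      isClosed_le (hc.add (by fun_prop)) continuous_const
    obtain ⟨p, hp, hmin⟩ := hK.isCompact.exists_isMinOn (f := fun p => (p.1 : ℝ)) hcon
      (by fun_prop)
    simp only [mem_ofPred_eq] at hp
    have hpos : ∀ s ∈ Ico a (p.1 : ℝ), ∀ y, 0 < u s y + ε * Real.exp (L * (s - a)) := by
      intro s hs y
      by_contra hn
      have := hmin (a := (⟨s, hs.1, hs.2.le.trans p.1.2.2⟩, y)) (not_lt.1 hn)
      simp only [mem_ofPred_eq] at this
      linarith [hs.2]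
    have hat : a < p.1 := by
      refine lt_of_le_of_ne p.1.2.1 fun e => ?_
      rw [← e] at hp
      have := h0 p.2
      have : 0 < ε * Real.exp (L * (a - a)) := by positivity
      linarith
    have hv : ∀ y, HasDerivWithinAt (fun s => u s y + ε * Real.exp (L * (s - a)))
        (u' p.1 y + L * (ε * Real.exp (L * (p.1 - a)))) (Icc a b) p.1 := fun y => by
      have := (hd y p.1 p.1.2).add
        (((((hasDerivAt_id (p.1 : ℝ)).sub_const a).const_mul L).exp.const_mul ε).hasDerivWithinAt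
          (s := Icc a b))
      refine this.congr_deriv ?_
      simp only [id]
      ring
    have hge : ∀ y, 0 ≤ u p.1 y + ε * Real.exp (L * (p.1 - a)) := fun y => by
      have : (𝓝[Ico a p.1] (p.1 : ℝ)).NeBot := right_nhdsWithin_Ico_neBot hat
      exact ge_of_tendsto (((hv y).continuousWithinAt).mono
        (fun s (hs : s ∈ Ico a (p.1 : ℝ)) => ⟨hs.1, hs.2.le.trans p.1.2.2⟩))
        (eventually_nhdsWithin_of_forall fun s hs => (hpos s hs y).le)
    have hβ : 0 < ε * Real.exp (L * (p.1 - a)) := by positivity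
    have hβδ : ε * Real.exp (L * (p.1 - a)) ≤ δ := by
      refine le_trans ?_ hεδ
      gcongr
      exact p.1.2.2
    have h1 := h p.1 p.1.2 p.2 (fun y => by linarith [hge y]) (by linarith [hge p.2])
      (by linarith)
    have h2 := deriv_nonpos_of_left hat p.1.2.2 (hv p.2) fun s hs => hp.trans (hpos s hs p.2).le
    have h3 : u p.1 p.2 = -(ε * Real.exp (L * (p.1 - a))) := by linarith [hge p.2]
    rw [h3] at h1
    nlinarith [le_abs_self C]
  by_contra hn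
  push Not at hn
  have hE : 0 < Real.exp (L * (b - a)) := Real.exp_pos _
  set ε := min δ (-u t x) / Real.exp (L * (b - a)) with hε
  have hm : 0 < min δ (-u t x) := lt_min hδ (by linarith)
  have e1 : ε * Real.exp (L * (b - a)) = min δ (-u t x) := div_mul_cancel₀ _ hE.ne'
  have hε0 : 0 < ε := div_pos hm hE
  have h1 := key ε hε0 (e1 ▸ min_le_left _ _) (⟨t, ht⟩, x)
  have h2 : ε * Real.exp (L * (t - a)) ≤ ε * Real.exp (L * (b - a)) := by
    gcongr
    exact ht.2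
  have := min_le_right δ (-u t x)
  simp only at h1
  linarith

/-- Joint continuity on a compact space gives continuity in time uniformly in space. -/
theorem unif_time {I M : Type} [PseudoMetricSpace I] [TopologicalSpace M] [CompactSpace M]
    {u : I × M → ℝ} (hc : Continuous u) (t : I) {ε : ℝ} (hε : 0 < ε) :
    ∃ δ > 0, ∀ s, dist s t < δ → ∀ x, |u (s, x) - u (t, x)| ≤ ε := by
  have := (isCompact_univ (X := M)).eventually_forall_of_forall_eventually (x₀ := t)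
    (P := fun s x => |u (s, x) - u (t, x)| ≤ ε) fun x _ => by
      have h1 : Continuous fun p : I × M => |u p - u (t, p.2)| := by fun_prop
      exact (h1.continuousAt.eventually (gt_mem_nhds (by simpa using hε))).mono fun _ h => h.le
  obtain ⟨δ, hδ, h⟩ := Metric.eventually_nhds_iff.1 this
  exact ⟨δ, hδ, fun s hs x => h hs x trivial⟩

/-- Differentiability in time, uniformly in space. -/
theorem unif_deriv {M : Type} [TopologicalSpace M] [CompactSpace M] {a b : ℝ}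
    {u u' : ℝ → M → ℝ} (hc : Continuous fun p : Icc a b × M => u' p.1 p.2)
    (hd : ∀ x, ∀ t ∈ Icc a b, HasDerivWithinAt (fun s => u s x) (u' t x) (Icc a b) t)
    {t : ℝ} (ht : t ∈ Icc a b) {ε : ℝ} (hε : 0 < ε) :
    ∃ δ > 0, ∀ s ∈ Icc a b, |s - t| < δ → ∀ x,
      |u s x - u t x - (s - t) * u' t x| ≤ ε * |s - t| := by
  obtain ⟨δ, hδ, h⟩ := unif_time hc ⟨t, ht⟩ hε
  refine ⟨δ, hδ, fun s hs hst x => ?_⟩
  have := ((convex_Icc a b).inter (convex_ball t δ)).norm_image_sub_le_of_norm_hasDerivWithin_le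
    (f := fun r => u r x - r * u' t x) (f' := fun r => u' r x - u' t x) (C := ε)
    (fun r hr => by
      simpa using ((hd x r hr.1).mono inter_subset_left).fun_sub
        ((hasDerivAt_id r).mul_const (u' t x)).hasDerivWithinAt)
    (fun r hr => h ⟨r, hr.1⟩ hr.2 x) ⟨ht, Metric.mem_ball_self hδ⟩ ⟨hs, hst⟩
  simp only [Real.norm_eq_abs] at this
  convert this using 2
  ring

theorem cont_integrable {M : Type} [TopologicalSpace M] [CompactSpace M] [MeasurableSpace M]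
    [OpensMeasurableSpace M] (μ : Measure M) [IsFiniteMeasure μ] {f : M → ℝ}
    (hf : Continuous f) : Integrable f μ :=
  hf.integrable_of_hasCompactSupport (HasCompactSupport.of_compactSpace f)

/-- Differentiation under the integral. -/
theorem hdw_integral {M : Type} [TopologicalSpace M] [CompactSpace M] [MeasurableSpace M]
    [OpensMeasurableSpace M] (μ : Measure M) [IsFiniteMeasure μ] {a b : ℝ}
    {u u' : ℝ → M → ℝ} (hu : ∀ t ∈ Icc a b, Continuous (u t))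
    (hc : Continuous fun p : Icc a b × M => u' p.1 p.2)
    (hd : ∀ x, ∀ t ∈ Icc a b, HasDerivWithinAt (fun s => u s x) (u' t x) (Icc a b) t) :
    ∀ t ∈ Icc a b, HasDerivWithinAt (fun s => ∫ x, u s x ∂μ) (∫ x, u' t x ∂μ) (Icc a b) t := by
  intro t ht
  rw [hasDerivWithinAt_iff_isLittleO, Asymptotics.isLittleO_iff]
  intro c hc0
  have hm : 0 < μ.real univ + 1 := by positivity
  obtain ⟨δ, hδ, h⟩ := unif_deriv hc hd ht (div_pos hc0 hm)
  filter_upwards [self_mem_nhdsWithin, nhdsWithin_le_nhds (Metric.ball_mem_nhds t hδ)]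
    with s hs hst
  have h1 : Continuous (u' t) := hc.comp (Continuous.prodMk_right (⟨t, ht⟩ : Icc a b))
  have i1 := cont_integrable μ (hu s hs)
  have i2 := cont_integrable μ (hu t ht)
  have i3 : Integrable (fun x => u s x - u t x) μ := i1.sub i2
  rw [smul_eq_mul, ← integral_const_mul, ← integral_sub i1 i2,
    ← integral_sub i3 ((cont_integrable μ h1).const_mul _)]
  refine (norm_integral_le_of_norm_le_const (C := c / (μ.real univ + 1) * |s - t|)
    (Eventually.of_forall fun x => h s hs hst x)).trans ?_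
  rw [Real.norm_eq_abs, mul_right_comm]
  gcongr
  rw [div_mul_eq_mul_div, div_le_iff₀ hm]
  nlinarith

/-- The differential inequality of Nash. -/
theorem nash_ode {y y' : ℝ → ℝ} {a b κ L : ℝ} (hκ : 0 < κ) (hL : 0 ≤ L)
    (hy : ∀ t ∈ Icc a b, HasDerivWithinAt y (y' t) (Icc a b) t) (hpos : ∀ t ∈ Icc a b, 0 < y t)
    (h : ∀ t ∈ Icc a b, y' t ≤ -κ * (y t * √(y t)) + L * y t) :
    ∀ t ∈ Ioc a b, √(y t) ≤ (4 / (t - a) + L) / κ := by
  intro t ht
  have hs : ∀ s ∈ Icc a b, 0 < √(y s) := fun s hs => Real.sqrt_pos.2 (hpos s hs)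
  have hq : ∀ s ∈ Icc a b, 0 < 4 + L * (s - a) := fun s hs => by
    have := mul_nonneg hL (sub_nonneg.2 hs.1)
    linarith
  have := barrier (y := fun s => κ * (s - a) / (4 + L * (s - a)))
    (y' := fun s => 4 * κ / (4 + L * (s - a)) ^ 2) (B := fun s => (√(y s))⁻¹)
    (B' := fun s => -(y' s / (2 * √(y s))) / √(y s) ^ 2) (a := a) (b := b)
    (fun s hs => by
      have := ((((hasDerivAt_id s).sub_const a).const_mul κ).div
        ((((hasDerivAt_id s).sub_const a).const_mul L).const_add 4) (hq s hs).ne').hasDerivWithinAt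
        (s := Icc a b)
      refine this.congr_deriv ?_
      simp only [id]
      ring)
    (fun s hs => ((hy s hs).sqrt (hpos s hs).ne').inv (Real.sqrt_pos.2 (hpos s hs)).ne')
    (by simp) (fun s hs' e => by
      have hs' := Ico_subset_Icc_self hs'
      have h1 := h s hs'
      have h2 := hs s hs'
      have h3 := hq s hs'
      have h4 : y s = √(y s) ^ 2 := (Real.sq_sqrt (hpos s hs').le).symm
      set r := √(y s)
      set q := 4 + L * (s - a) with hq'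
      have h5 : κ * (s - a) * r = q := by
        field_simp at e
        linarith
      have h6 : 4 ≤ q := by
        have := mul_nonneg hL (sub_nonneg.2 hs'.1)
        linarith
      have h7 : 2 * κ / q ≤ -(y' s / (2 * r)) / r ^ 2 := by
        rw [div_le_div_iff₀ h3 (by positivity), neg_mul, div_mul_eq_mul_div, ← neg_div,
          le_div_iff₀ (by positivity)]
        rw [h4] at h1
        have e1 : L * q = κ * r * (q - 4) := by linear_combination (-L) * h5 - κ * r * hq'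
        have := mul_le_mul_of_nonneg_right h1 h3.le
        have e2 : (-κ * (r ^ 2 * r) + L * r ^ 2) * q = -(2 * κ * r ^ 2 * (2 * r)) := by
          linear_combination r ^ 2 * e1
        linarith
      refine lt_of_lt_of_le ?_ h7
      rw [div_lt_div_iff₀ (by positivity) h3]
      nlinarith [mul_pos hκ h3]) t (Ioc_subset_Icc_self ht)
  have h2 := hs t (Ioc_subset_Icc_self ht)
  have h3 := hq t (Ioc_subset_Icc_self ht)
  have h4 : 0 < t - a := sub_pos.2 ht.1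
  rw [div_le_iff₀ h3, inv_mul_eq_div, le_div_iff₀ h2] at this
  rw [le_div_iff₀ hκ, div_add' _ _ _ h4.ne', le_div_iff₀ h4]
  linarith

/-- The iteration of Nash; `J k` stands for the integral of the power `p * 2 ^ k`. -/
theorem nash_abs {J J' : ℕ → ℝ → ℝ} {a b κ Λ τ M0 : ℝ} (hκ : 0 < κ) (hΛ : 0 ≤ Λ) (hτ : 0 < τ)
    (hM : 0 < M0) (hd : ∀ k, ∀ t ∈ Icc a b, HasDerivWithinAt (J k) (J' k t) (Icc a b) t)
    (hpos : ∀ k, ∀ t ∈ Icc a b, 0 < J k t)
    (hen : ∀ k, ∀ t ∈ Icc a b, J' (k + 1) t ≤ -κ * √(J (k + 2) t) + Λ * 8 ^ k * J (k + 1) t)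
    (hint : ∀ k, ∀ t ∈ Icc a b, J (k + 1) t ^ 3 ≤ J k t ^ 2 * J (k + 2) t)
    (h0 : ∀ t ∈ Icc a b, J 0 t ≤ M0) (k : ℕ) : ∀ t ∈ Icc (a + τ) b,
      J k t ≤ (64 * ((8 / τ + Λ) / κ) ^ 2 * M0) ^ 2 ^ k / (64 * ((8 / τ + Λ) / κ) ^ 2) := by
  set c := (8 / τ + Λ) / κ with hc
  have hc0 : 0 < c := by positivity
  have key : ∀ k : ℕ, ∀ t ∈ Icc (a + τ * (1 - 1 / 2 ^ k)) b,
      J k t ≤ (64 * c ^ 2 * M0) ^ 2 ^ k / (c ^ 2 * 64 ^ (k + 1)) := by
    intro k
    induction k with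
    | zero =>
      intro t ht
      refine (h0 t (by simpa using ht)).trans (le_of_eq ?_)
      field_simp
      ring
    | succ k ih =>
      intro t ht
      set Mk := (64 * c ^ 2 * M0) ^ 2 ^ k / (c ^ 2 * 64 ^ (k + 1)) with hMk
      have hMk0 : 0 < Mk := by positivity
      set s := a + τ * (1 - 1 / 2 ^ k) with hs
      have h2k : (0 : ℝ) < 2 ^ k := by positivity
      have has : a ≤ s := by
        have : (1 : ℝ) / 2 ^ k ≤ 1 := by
          rw [div_le_one h2k]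
          exact one_le_pow₀ one_le_two
        nlinarith
      have hts : τ / (2 * 2 ^ k) ≤ t - s := by
        have h1 := ht.1
        have e : a + τ * (1 - 1 / 2 ^ (k + 1)) = s + τ / (2 * 2 ^ k) := by
          rw [hs]
          field_simp
          ring
        linarith
      have hts0 : 0 < t - s := lt_of_lt_of_le (by positivity) hts
      have sub : ∀ r ∈ Icc s b, r ∈ Icc a b := fun r hr => ⟨has.trans hr.1, hr.2⟩
      have h1 := nash_ode (κ := κ / Mk) (L := Λ * 8 ^ k) (by positivity) (by positivity)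
        (hdw_sub (hd (k + 1)) has le_rfl) (fun r hr => hpos _ r (sub r hr)) (fun r hr => by
          have e1 := hen k r (sub r hr)
          have e2 := hint k r (sub r hr)
          have p1 := hpos (k + 1) r (sub r hr)
          have p0 := hpos k r (sub r hr)
          have p2 := hpos (k + 2) r (sub r hr)
          have e3 : J (k + 1) r * √(J (k + 1) r) / Mk ≤ √(J (k + 2) r) := by
            refine Real.le_sqrt_of_sq_le ?_
            rw [div_pow, mul_pow, Real.sq_sqrt p1.le, div_le_iff₀ (by positivity)]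
            have : J k r ^ 2 * J (k + 2) r ≤ Mk ^ 2 * J (k + 2) r := by
              gcongr
              exact ih r hr
            nlinarith
          have := mul_le_mul_of_nonneg_left e3 hκ.le
          have e4 : -(κ / Mk) * (J (k + 1) r * √(J (k + 1) r)) =
              -(κ * (J (k + 1) r * √(J (k + 1) r) / Mk)) := by ring
          rw [e4]
          linarith) t ⟨by linarith, ht.2⟩
      have h2 : (4 / (t - s) + Λ * 8 ^ k) / (κ / Mk) ≤ c * 8 ^ k * Mk := by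
        have h3 : 4 / (t - s) ≤ 8 / τ * 8 ^ k := by
          have h4 : (2 : ℝ) ^ k ≤ 8 ^ k := by gcongr; norm_num
          calc 4 / (t - s) ≤ 4 / (τ / (2 * 2 ^ k)) := by gcongr
            _ = 8 / τ * 2 ^ k := by field_simp; ring
            _ ≤ _ := by gcongr
        calc (4 / (t - s) + Λ * 8 ^ k) / (κ / Mk) ≤ (8 / τ * 8 ^ k + Λ * 8 ^ k) / (κ / Mk) := by
              gcongr
          _ = _ := by rw [hc]; field_simp
      have h5 := (Real.sqrt_le_iff.1 (h1.trans h2)).2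
      refine h5.trans (le_of_eq ?_)
      have e8 : ((8 : ℝ) ^ k) ^ 2 = 64 ^ k := by rw [← pow_mul, mul_comm, pow_mul]; norm_num
      rw [mul_pow, mul_pow, e8, hMk, pow_succ 2 k, pow_mul]
      field_simp
      ring
  intro t ht
  have h2k : (0 : ℝ) < 1 / 2 ^ k := by positivity
  refine (key k t ⟨by nlinarith [ht.1], ht.2⟩).trans ?_
  rw [mul_comm (c ^ 2)]
  gcongr
  exact le_self_pow₀ (by norm_num) (by simp)

/-- From bounds for the integrals of all dyadic powers to a bound for the supremum. -/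
theorem le_of_pow_integral {M : Type} [TopologicalSpace M] [CompactSpace M] [MeasurableSpace M]
    [OpensMeasurableSpace M] (μ : Measure M) [IsFiniteMeasure μ] [μ.IsOpenPosMeasure]
    {u ρ : M → ℝ} {N C : ℝ} (hu : Continuous u) (hρ : Continuous ρ) (hu0 : ∀ x, 0 ≤ u x)
    (hρ0 : ∀ x, 0 < ρ x) (hN : 0 < N)
    (h : ∀ k : ℕ, ∫ x, u x ^ 2 ^ k * ρ x ∂μ ≤ N ^ 2 ^ k * C) (x : M) : u x ≤ N := by
  by_contra hn
  obtain ⟨θ, h1, h2⟩ := exists_between (not_le.1 hn)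
  have hθ : 0 < θ := hN.trans h1
  obtain ⟨S, hS⟩ := (isCompact_range hu).bddAbove
  have hS' : ∀ y, u y ≤ S := fun y => hS (mem_range_self y)
  have hψ : Continuous fun y => max (u y - θ) 0 * ρ y := by fun_prop
  have hI : 0 < ∫ y, max (u y - θ) 0 * ρ y ∂μ :=
    hψ.integral_pos_of_hasCompactSupport_nonneg_nonzero (HasCompactSupport.of_compactSpace _)
      (fun y => mul_nonneg (le_max_right _ _) (hρ0 y).le) (x := x)
      (mul_pos (lt_max_of_lt_left (by linarith)) (hρ0 x)).ne'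
  set W := ∫ y, max (u y - θ) 0 * ρ y ∂μ with hW
  have hS0 : 0 ≤ S := (hu0 x).trans (hS' x)
  have key : ∀ k : ℕ, (θ / N) ^ 2 ^ k ≤ S * C / W := fun k => by
    have h3 : θ ^ 2 ^ k * W ≤ S * ∫ y, u y ^ 2 ^ k * ρ y ∂μ := by
      rw [hW, ← integral_const_mul, ← integral_const_mul]
      refine integral_mono ((cont_integrable μ hψ).const_mul _)
        ((cont_integrable μ (by fun_prop)).const_mul _) fun y => ?_
      simp only [← mul_assoc]
      refine mul_le_mul_of_nonneg_right ?_ (hρ0 y).le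
      rcases le_total (u y - θ) 0 with h4 | h4
      · rw [max_eq_right h4, mul_zero]
        exact mul_nonneg hS0 (pow_nonneg (hu0 y) _)
      · rw [max_eq_left h4, mul_comm]
        have := hS' y
        gcongr <;> linarith
    rw [div_pow, div_le_div_iff₀ (by positivity) hI]
    nlinarith [mul_le_mul_of_nonneg_left (h k) hS0]
  have h5 : Tendsto (fun k : ℕ => (θ / N) ^ 2 ^ k) atTop atTop :=
    (tendsto_pow_atTop_atTop_of_one_lt ((one_lt_div hN).2 h1)).comp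
      (tendsto_pow_atTop_atTop_of_one_lt one_lt_two)
  obtain ⟨k, hk⟩ := (h5.eventually_gt_atTop (S * C / W)).exists
  exact absurd (key k) (not_le.2 hk)

end Pool.Agent.MP_9bd639_gt.H88

end

-- part CF1
section

/-! Real inequalities and the expansion calculus used in the conformal step. -/

open Set

namespace Pool.Agent.MP_9bd639_gt.H88

/-- The difference of the two sides of the tangent inequality is
`(x - a) ^ 2 * (2 * x + a) / (a ^ 3 * x ^ 2)`. -/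
theorem CF_inv_sq {x a : ℝ} (ha : 0 < a) (h : a / 4 ≤ x) :
    1 / x ^ 2 ≤ 1 / a ^ 2 - 2 * (x - a) / a ^ 3 + 24 * (x - a) ^ 2 / a ^ 4 := by
  have hx : 0 < x := by linarith
  have e : 1 / a ^ 2 - 2 * (x - a) / a ^ 3 + 24 * (x - a) ^ 2 / a ^ 4 - 1 / x ^ 2 =
      (x - a) ^ 2 * ((4 * x - a) * (6 * x + a)) / (a ^ 4 * x ^ 2) := by
    field_simp
    ring
  have h1 : 0 ≤ 4 * x - a := by linarith
  have h2 : 0 ≤ (x - a) ^ 2 * ((4 * x - a) * (6 * x + a)) / (a ^ 4 * x ^ 2) := by positivity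
  linarith

/-- Concavity of the logarithm and `log (h / T) ≤ h / T - 1`. -/
theorem CF_log {h T θ : ℝ} (hh : 0 < h) (hT : 0 < T) (h0 : 0 ≤ θ) (h1 : θ ≤ 1) :
    Real.log h + θ * (1 - h / T) ≤ Real.log (h + θ * (T - h)) := by
  have c := strictConcaveOn_log_Ioi.concaveOn.2 (mem_Ioi.2 hh) (mem_Ioi.2 hT)
    (sub_nonneg.2 h1) h0 (by ring)
  simp only [smul_eq_mul] at c
  have l := Real.log_le_sub_one_of_pos (div_pos hh hT)
  rw [Real.log_div hh.ne' hT.ne'] at l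
  rw [show h + θ * (T - h) = (1 - θ) * h + θ * T by ring]
  nlinarith [mul_le_mul_of_nonneg_left l h0]

theorem CF_dg_rec {μ : ℕ → ℝ} {K : ℝ} (h0 : ∀ j, 0 ≤ μ j) (hK : 0 ≤ K)
    (hr : ∀ j, μ (j + 1) ^ 2 ≤ K * 4096 ^ j * μ j ^ 3) (hs : K * μ 0 ≤ (1 / 4096) ^ 2) (j : ℕ) :
    μ j ≤ μ 0 * (1 / 4096) ^ j := by
  induction j with
  | zero => simp
  | succ j ih =>
    have hp : (0 : ℝ) < (1 / 4096) ^ j := by positivity
    have h00 := h0 0
    refine le_of_sq_le_sq ((hr j).trans ?_) (by positivity)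
    have e : (4096 : ℝ) ^ j * (1 / 4096) ^ j = 1 := by rw [← mul_pow]; norm_num
    calc K * 4096 ^ j * μ j ^ 3 ≤ K * 4096 ^ j * (μ 0 * (1 / 4096) ^ j) ^ 3 :=
          mul_le_mul_of_nonneg_left (pow_le_pow_left₀ (h0 j) ih 3) (by positivity)
      _ = K * μ 0 * (4096 ^ j * (1 / 4096) ^ j) * (μ 0 * (1 / 4096) ^ j) ^ 2 := by ring
      _ ≤ (1 / 4096) ^ 2 * (μ 0 * (1 / 4096) ^ j) ^ 2 := by
          rw [e, mul_one]
          exact mul_le_mul_of_nonneg_right hs (sq_nonneg _)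
      _ = (μ 0 * (1 / 4096) ^ (j + 1)) ^ 2 := by rw [pow_succ (1 / 4096 : ℝ) j]; ring

theorem CF_dyadic {v : ℝ} (hv : 0 < v) (n : ℕ) :
    ∑ j ∈ Finset.range n, (if (2 : ℝ) ^ j < v then (8 : ℝ) ^ j else 0) ≤ 2 * v ^ 3 := by
  have aux : ∀ n : ℕ, ∑ j ∈ Finset.range n, (if (2 : ℝ) ^ j < v then (8 : ℝ) ^ j else 0) ≤
      8 ^ n := fun n => by
    induction n with
    | zero => simp
    | succ n ih =>
      have : (0 : ℝ) < 8 ^ n := by positivity
      rw [Finset.sum_range_succ, pow_succ]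
      split_ifs <;> linarith
  induction n with
  | zero => simpa using pow_nonneg hv.le 3
  | succ n ih =>
    rw [Finset.sum_range_succ]
    split_ifs with h
    · have h3 := pow_le_pow_left₀ (by positivity) h.le 3
      rw [← pow_mul, mul_comm, pow_mul, show (2 : ℝ) ^ 3 = 8 by norm_num] at h3
      linarith [aux n]
    · linarith

/-- If the defect `D` were bounded below, a fixed step would increase `F` by a fixed amount. -/
theorem CF_sup {κ : Type} {K : Set κ} {F D : κ → ℝ} {C U : ℝ} (hne : K.Nonempty)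
    (hU : ∀ p ∈ K, F p ≤ U)
    (hs : ∀ p ∈ K, ∀ θ, 0 < θ → θ ≤ 1 / 2 →
      ∃ q, (F p ≤ F q → q ∈ K) ∧ F p + θ * D p - C * θ ^ 2 ≤ F q)
    {η : ℝ} (hη : 0 < η) : ∃ p ∈ K, D p ≤ η := by
  by_contra hc
  push Not at hc
  obtain ⟨p0, hp0⟩ := hne
  have hC : 0 < |C| + 1 := by positivity
  set θ := min (1 / 2) (η / (2 * (|C| + 1))) with hθ
  have t0 : 0 < θ := lt_min (by norm_num) (by positivity)
  have t1 : θ * (2 * (|C| + 1)) ≤ η := (le_div_iff₀ (by positivity)).1 (min_le_right _ _)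
  have t2 : C * θ ≤ η / 2 := by nlinarith [le_abs_self C]
  have step : ∀ p ∈ K, ∃ q ∈ K, F p + θ * η / 2 ≤ F q := fun p hp => by
    obtain ⟨q, hq, hq'⟩ := hs p hp θ t0 (min_le_left _ _)
    have h1 : F p + θ * η / 2 ≤ F q := by
      nlinarith [mul_le_mul_of_nonneg_left (hc p hp).le t0.le,
        mul_le_mul_of_nonneg_left t2 t0.le]
    exact ⟨q, hq (by nlinarith [mul_pos t0 hη]), h1⟩
  have iter : ∀ n : ℕ, ∃ q ∈ K, F p0 + n * (θ * η / 2) ≤ F q := fun n => by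
    induction n with
    | zero => exact ⟨p0, hp0, by simp⟩
    | succ n ih =>
      obtain ⟨q, hq, h⟩ := ih
      obtain ⟨r, hr, h'⟩ := step q hq
      exact ⟨r, hr, by push_cast; linarith⟩
  have hd : 0 < θ * η / 2 := by positivity
  obtain ⟨n, hn⟩ := exists_nat_gt ((U - F p0) / (θ * η / 2))
  obtain ⟨q, hq, h⟩ := iter n
  have := (div_lt_iff₀ hd).1 hn
  linarith [hU q hq]

/-- The positive root `t` of `t (t - y) = ν z ^ 2`. -/
theorem CF_root {y D ν z : ℝ} (hD : 0 < D) (h : D * D = y ^ 2 + 4 * ν * z ^ 2) (h0 : 0 < ν)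
    (h1 : ν ≤ 1) (hz : 0 < z) :
    0 < (y + D) / 2 ∧ y < (y + D) / 2 ∧ (y + D) / 2 < D ∧ |y| ≤ D ∧ D ≤ |y| + 2 * z ∧
      2 * ν * z ≤ D := by
  have hp : 0 < ν * z ^ 2 := by positivity
  have h2 : |y| < D := abs_lt_of_sq_lt_sq (by nlinarith) hD.le
  obtain ⟨l, r⟩ := abs_lt.1 h2
  have hz2 : ν * z ^ 2 ≤ z ^ 2 := by nlinarith [sq_nonneg z]
  refine ⟨by linarith, by linarith, by linarith, h2.le, ?_, ?_⟩
  · refine le_of_sq_le_sq ?_ (by positivity)
    nlinarith [sq_abs y, mul_nonneg (abs_nonneg y) hz.le]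
  · refine le_of_sq_le_sq ?_ hD.le
    nlinarith [mul_le_mul_of_nonneg_left h1 hp.le, sq_nonneg y]

/-- The pointwise part of the minimum principle: at the minimum of `σ`. -/
theorem CF_minpt {c d s σ β t ν u Λ : ℝ} (hΛ : 1 ≤ Λ) (hc : Λ⁻¹ ≤ c) (d0 : 0 < d) (d1 : d ≤ 1)
    (hs : 0 < s) (hβ : 0 ≤ β) (hβ' : 10 * β ≤ c) (hν : 0 ≤ ν) (hν' : 2 * ν * Λ ^ 8 ≤ 1)
    (u0 : 0 < u) (u1 : u ≤ Λ)
    (e1 : c * s + 2 * d * s ^ 2 - s ^ 2 / 3 ≤ d * σ * s) (e2 : σ ≤ s + β) (e3 : s - β ≤ t * u)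
    (e4 : t * (t * u - σ) ≤ ν * u ^ 5) : 2 * c + β ≤ σ := by
  by_contra hn
  push Not at hn
  have L0 : 0 < Λ := by linarith
  have c0 : 0 < c := (inv_pos.2 L0).trans_le hc
  have cL : 1 ≤ c * Λ := by
    have := mul_le_mul_of_nonneg_right hc L0.le
    rwa [inv_mul_cancel₀ L0.ne'] at this
  have a1 : c + 2 * d * s - s / 3 ≤ d * σ := le_of_mul_le_mul_right (by nlinarith) hs
  have a2 : 3 * c - 3 * β ≤ s := by
    nlinarith [mul_le_mul_of_nonneg_left e2 d0.le, mul_pos d0 hs,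
      mul_le_mul_of_nonneg_right d1 hβ]
  have a3 : 2 * c ≤ t * u := by linarith
  have a4 : c / 2 ≤ t * u - σ := by linarith
  have a5 : c ^ 2 ≤ ν * u ^ 6 := by
    have := mul_le_mul a3 a4 (by positivity) (by linarith)
    nlinarith [mul_le_mul_of_nonneg_right e4 u0.le]
  have a6 : ν * u ^ 6 ≤ ν * Λ ^ 6 := mul_le_mul_of_nonneg_left (pow_le_pow_left₀ u0.le u1 6) hν
  have a7 := mul_le_mul_of_nonneg_right (a5.trans a6) (sq_nonneg Λ)
  nlinarith

/-- An expansion up to second order in `θ`. -/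
def Ex {R : Type} [CommRing R] (θ f f0 f1 : R) : Prop := ∃ r, f = f0 + θ * f1 + θ ^ 2 * r

namespace Ex

variable {R : Type} [CommRing R] {θ f f0 f1 g g0 g1 : R}

theorem const (θ a : R) : Ex θ a a 0 := ⟨0, by ring⟩
theorem lin (θ a b : R) : Ex θ (a + θ * b) a b := ⟨0, by ring⟩

theorem mul (hf : Ex θ f f0 f1) (hg : Ex θ g g0 g1) :
    Ex θ (f * g) (f0 * g0) (f0 * g1 + f1 * g0) := by
  obtain ⟨r, rfl⟩ := hf
  obtain ⟨s, rfl⟩ := hg
  exact ⟨f1 * g1 + r * (g0 + θ * g1 + θ ^ 2 * s) + (f0 + θ * f1) * s, by ring⟩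

theorem inv {φ u ζ u' : R} (h : u * φ = 1) (h' : u' * (φ + θ * ζ) = 1) :
    Ex θ u' u (-(ζ * u ^ 2)) :=
  ⟨ζ ^ 2 * u ^ 2 * u', by
    linear_combination (-u' * (1 + u * φ) + θ * ζ * u * u' + u * u' * φ) * h +
      (u - θ * ζ * u ^ 2) * h'⟩

theorem congr (h : Ex θ f f0 f1) (e : f = g) (e0 : f0 = g0) (e1 : f1 = g1) : Ex θ g g0 g1 :=
  e ▸ e0 ▸ e1 ▸ h

end Ex

end Pool.Agent.MP_9bd639_gt.H88

end

-- part Alg17
section

/-! Pointwise algebra for the elementary symmetric functions of three real numbers. -/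

set_option autoImplicit false

namespace Pool.Agent.MP_9bd639_gt.H88

/-- `s1, s2, s3` are the elementary symmetric functions of three real numbers. -/
def Inv3 (s1 s2 s3 : ℝ) : Prop :=
  ∃ a b c : ℝ, s1 = a + b + c ∧ s2 = a * b + a * c + b * c ∧ s3 = a * b * c

/-- the invariants of a symmetric matrix -/
theorem inv3_of_symm {S : Matrix (Fin 3) (Fin 3) ℝ} (h : S.IsSymm) :
    Inv3 S.trace ((S.trace ^ 2 - (S * S).trace) / 2) S.det := by
  have hH : S.IsHermitian := by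
    rw [Matrix.IsHermitian, Matrix.conjTranspose_eq_transpose_of_trivial]; exact h
  refine ⟨hH.eigenvalues 0, hH.eigenvalues 1, hH.eigenvalues 2, ?_, ?_, ?_⟩
  · simpa [Fin.sum_univ_three] using hH.trace_eq_sum_eigenvalues
  · have h1 : S.trace = hH.eigenvalues 0 + hH.eigenvalues 1 + hH.eigenvalues 2 := by
      simpa [Fin.sum_univ_three] using hH.trace_eq_sum_eigenvalues
    have h2 : (S * S).trace =
        hH.eigenvalues 0 ^ 2 + hH.eigenvalues 1 ^ 2 + hH.eigenvalues 2 ^ 2 := by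
      have hs := hH.spectral_theorem
      set U := hH.eigenvectorUnitary
      set D : Matrix (Fin 3) (Fin 3) ℝ := Matrix.diagonal (RCLike.ofReal ∘ hH.eigenvalues) with hD
      have hU : (star (U : Matrix (Fin 3) (Fin 3) ℝ)) * (U : Matrix (Fin 3) (Fin 3) ℝ) = 1 :=
        Unitary.coe_star_mul_self U
      have e : S = (U : Matrix (Fin 3) (Fin 3) ℝ) * D * star (U : Matrix (Fin 3) (Fin 3) ℝ) := by
        simpa [Unitary.conjStarAlgAut_apply] using hs
      have e2 : S * S = (U : Matrix (Fin 3) (Fin 3) ℝ) * (D * D) *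
          star (U : Matrix (Fin 3) (Fin 3) ℝ) := by
        conv_lhs => rw [e]
        simp only [Matrix.mul_assoc]
        rw [← Matrix.mul_assoc (star (U : Matrix (Fin 3) (Fin 3) ℝ)), hU, Matrix.one_mul]
      rw [e2, Matrix.trace_mul_comm, ← Matrix.mul_assoc, hU, Matrix.one_mul, hD,
        Matrix.diagonal_mul_diagonal, Matrix.trace_diagonal]
      simp [Fin.sum_univ_three, sq]
    rw [h1, h2]; ring
  · simpa [Fin.prod_univ_three] using hH.det_eq_prod_eigenvalues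

/-- Newton's identity in dimension three -/
theorem trace_cube (S : Matrix (Fin 3) (Fin 3) ℝ) :
    (S * S * S).trace = S.trace ^ 3 - 3 * S.trace * ((S.trace ^ 2 - (S * S).trace) / 2) +
      3 * S.det := by
  simp only [Matrix.trace_fin_three, Matrix.det_fin_three, Matrix.mul_apply, Fin.sum_univ_three]
  ring

variable {s1 s2 s3 : ℝ}

/-- the discriminant inequality -/
theorem Inv3.exists_r (h : Inv3 s1 s2 s3) : ∃ r : ℝ, 0 ≤ r ∧ r ^ 2 = s1 ^ 2 - 3 * s2 ∧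
    |2 * s1 ^ 3 - 9 * s1 * s2 + 27 * s3| ≤ 2 * r ^ 3 := by
  obtain ⟨a, b, c, rfl, rfl, rfl⟩ := h
  have h0 : 0 ≤ (a + b + c) ^ 2 - 3 * (a * b + a * c + b * c) := by
    nlinarith [sq_nonneg (a - b), sq_nonneg (b - c), sq_nonneg (a - c)]
  refine ⟨√((a + b + c) ^ 2 - 3 * (a * b + a * c + b * c)), Real.sqrt_nonneg _, Real.sq_sqrt h0, ?_⟩
  refine abs_le_of_sq_le_sq' ?_ (by positivity) |> abs_le.2
  have e : (2 * √((a + b + c) ^ 2 - 3 * (a * b + a * c + b * c)) ^ 3) ^ 2 =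
      4 * ((a + b + c) ^ 2 - 3 * (a * b + a * c + b * c)) ^ 3 := by
    conv_rhs => rw [← Real.sq_sqrt h0]
    ring
  rw [e]
  nlinarith [sq_nonneg ((a - b) * (b - c) * (a - c))]

theorem Inv3.three_le (h : Inv3 s1 s2 s3) : 3 * s2 ≤ s1 ^ 2 := by
  obtain ⟨r, -, h1, -⟩ := h.exists_r
  nlinarith [sq_nonneg r]

/-- normal form: `s2 / s1 = s1 (1 - t ^ 2) / 3` and the two bounds for `s3 / s1` -/
theorem Inv3.exists_t (h : Inv3 s1 s2 s3) (h1 : 0 < s1) : ∃ t u : ℝ, 0 ≤ t ∧ |u| ≤ 2 * t ^ 3 ∧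
    s2 = s1 ^ 2 * (1 - t ^ 2) / 3 ∧ s3 = s1 ^ 3 * (1 - 3 * t ^ 2 + u) / 27 := by
  obtain ⟨r, r0, hr, hb⟩ := h.exists_r
  refine ⟨r / s1, (2 * s1 ^ 3 - 9 * s1 * s2 + 27 * s3) / s1 ^ 3, by positivity, ?_, ?_, ?_⟩
  · rw [abs_div, abs_of_pos (by positivity : 0 < s1 ^ 3), div_pow, ← mul_div_assoc]
    gcongr
  · rw [div_pow, hr]; field_simp; ring
  · rw [div_pow, hr]; field_simp; ring

/-- the reaction term of `q = s2 / s1` under Ricci flow -/
noncomputable def QQ (s1 s2 s3 : ℝ) : ℝ := 2 * s1 ^ 2 - 5 * s2 + 12 * s3 / s1 + (s2 / s1) ^ 2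

/-- the defect -/
noncomputable def PP (s1 s2 s3 : ℝ) : ℝ :=
  2 * s1 ^ 3 - 7 * s1 * s2 + 12 * s3 - (s2 / s1) ^ 2 * s1

theorem mul_QQ (h1 : s1 ≠ 0) : s1 * QQ s1 s2 s3 =
    PP s1 s2 s3 + 2 * (s2 / s1) * s1 ^ 2 + 2 * (s2 / s1) ^ 2 * s1 := by
  rw [QQ, PP]; field_simp; ring

theorem alg_forms (h1 : 0 < s1) (t u : ℝ) :
    s1 ^ 2 * (1 - t ^ 2) / 3 / s1 = s1 * ((1 - t ^ 2) / 3) ∧
    QQ s1 (s1 ^ 2 * (1 - t ^ 2) / 3) (s1 ^ 3 * (1 - 3 * t ^ 2 + u) / 27) =
      s1 ^ 2 * ((8 + t ^ 2 + 4 * u + t ^ 4) / 9) ∧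
    PP s1 (s1 ^ 2 * (1 - t ^ 2) / 3) (s1 ^ 3 * (1 - 3 * t ^ 2 + u) / 27) =
      s1 ^ 3 * ((11 * t ^ 2 + 4 * u - t ^ 4) / 9) := by
  refine ⟨?_, ?_, ?_⟩
  · field_simp
  · rw [QQ]; field_simp; ring
  · rw [PP]; field_simp; ring

theorem alg_t_le (h1 : 0 < s1) {t : ℝ} (t0 : 0 ≤ t) (h2 : 0 ≤ s1 ^ 2 * (1 - t ^ 2) / 3) :
    t ≤ 1 := by
  have : 0 ≤ 1 - t ^ 2 := by
    have h := (div_nonneg_iff.1 h2).resolve_right (by norm_num)
    exact (mul_nonneg_iff_of_pos_left (by positivity)).1 h.1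
  nlinarith

/-- `P ≥ s1 |E|² / 3` with `|E|² = 2 s1 z`, `z = s1 / 3 - q` -/
theorem Inv3.PP_ge (h : Inv3 s1 s2 s3) (h1 : 0 < s1) (h2 : 0 ≤ s2) :
    2 / 3 * s1 ^ 2 * (s1 / 3 - s2 / s1) ≤ PP s1 s2 s3 := by
  obtain ⟨t, u, t0, hu, rfl, rfl⟩ := h.exists_t h1
  obtain ⟨e1, -, e3⟩ := alg_forms h1 t u
  have t1 := alg_t_le h1 t0 h2
  rw [e1, e3]
  have : 2 * t ^ 2 / 9 ≤ (11 * t ^ 2 + 4 * u - t ^ 4) / 9 := by
    nlinarith [(abs_le.1 hu).1, mul_nonneg (mul_nonneg (sq_nonneg t) (sub_nonneg.2 t1))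
      (by linarith : 0 ≤ 9 + t)]
  calc _ = s1 ^ 3 * (2 * t ^ 2 / 9) := by ring
    _ ≤ _ := by gcongr

theorem Inv3.z_nonneg (h : Inv3 s1 s2 s3) (h1 : 0 < s1) : 0 ≤ s1 / 3 - s2 / s1 := by
  rw [sub_nonneg, div_le_div_iff₀ h1 (by norm_num)]
  nlinarith [h.three_le]

theorem Inv3.PP_nonneg (h : Inv3 s1 s2 s3) (h1 : 0 < s1) (h2 : 0 ≤ s2) : 0 ≤ PP s1 s2 s3 :=
  le_trans (mul_nonneg (by positivity) (h.z_nonneg h1)) (h.PP_ge h1 h2)

theorem Inv3.QQ_ge_sq (h : Inv3 s1 s2 s3) (h1 : 0 < s1) (h2 : 0 ≤ s2) :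
    8 * (s2 / s1) ^ 2 ≤ QQ s1 s2 s3 := by
  refine le_of_mul_le_mul_left ?_ h1
  rw [mul_QQ h1.ne']
  have q0 : 0 ≤ s2 / s1 := by positivity
  nlinarith [h.PP_nonneg h1 h2, mul_nonneg (mul_nonneg q0 h1.le) (h.z_nonneg h1)]

theorem Inv3.QQ_ge (h : Inv3 s1 s2 s3) (h1 : 0 < s1) (h2 : 0 ≤ s2) :
    2 / 9 * s1 ^ 2 ≤ QQ s1 s2 s3 := by
  obtain ⟨t, u, t0, hu, rfl, rfl⟩ := h.exists_t h1
  obtain ⟨-, e2, -⟩ := alg_forms h1 t u
  have t1 := alg_t_le h1 t0 h2
  rw [e2, mul_comm]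
  have : 2 / 9 ≤ (8 + t ^ 2 + 4 * u + t ^ 4) / 9 := by
    have : 0 ≤ 6 + 6 * t + 7 * t ^ 2 - t ^ 3 := by nlinarith [mul_nonneg (sq_nonneg t) (sub_nonneg.2 t1)]
    nlinarith [(abs_le.1 hu).1, mul_nonneg (sub_nonneg.2 t1) this]
  gcongr

theorem Inv3.QQ_le (h : Inv3 s1 s2 s3) (h1 : 0 < s1) (h2 : 0 ≤ s2) :
    QQ s1 s2 s3 ≤ 3 * s1 ^ 2 := by
  obtain ⟨t, u, t0, hu, rfl, rfl⟩ := h.exists_t h1
  obtain ⟨-, e2, -⟩ := alg_forms h1 t u
  have t1 := alg_t_le h1 t0 h2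
  rw [e2, mul_comm]
  have : (8 + t ^ 2 + 4 * u + t ^ 4) / 9 ≤ 3 := by
    have a2 : t ^ 2 ≤ 1 := pow_le_one₀ t0 t1
    have a3 : t ^ 3 ≤ 1 := pow_le_one₀ t0 t1
    have a4 : t ^ 4 ≤ 1 := pow_le_one₀ t0 t1
    linarith [(abs_le.1 hu).2]
  gcongr

/-- the reaction term of `z = s1 / 3 - q` -/
theorem Inv3.z_react (h : Inv3 s1 s2 s3) (h1 : 0 < s1) :
    s1 ^ 2 - s2 / 3 - QQ s1 s2 s3 ≤ 6 * s1 * (s1 / 3 - s2 / s1) := by
  obtain ⟨t, u, t0, hu, rfl, rfl⟩ := h.exists_t h1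
  obtain ⟨e1, e2, -⟩ := alg_forms h1 t u
  rw [e1, e2]
  have : (-4 * u - t ^ 4) / 9 ≤ 2 * t ^ 2 := by
    nlinarith [(abs_le.1 hu).1, sq_nonneg (t * (t - 4)), sq_nonneg t]
  calc _ = s1 ^ 2 * ((-4 * u - t ^ 4) / 9) := by ring
    _ ≤ s1 ^ 2 * (2 * t ^ 2) := by gcongr
    _ = _ := by ring

/-- `Q ≥ - 6 s1 |q|` where `q ≤ 0` -/
theorem Inv3.QQ_ge_neg (h : Inv3 s1 s2 s3) (h1 : 0 < s1) (h2 : s2 ≤ 0) :
    6 * s1 * (s2 / s1) ≤ QQ s1 s2 s3 := by
  obtain ⟨t, u, t0, hu, rfl, rfl⟩ := h.exists_t h1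
  obtain ⟨e1, e2, -⟩ := alg_forms h1 t u
  have t1 : 1 ≤ t := by
    by_contra hc
    have : 0 < 1 - t ^ 2 := by nlinarith
    have : 0 < s1 ^ 2 * (1 - t ^ 2) / 3 := by positivity
    linarith
  rw [e1, e2]
  have : 2 * (1 - t ^ 2) ≤ (8 + t ^ 2 + 4 * u + t ^ 4) / 9 := by
    nlinarith [(abs_le.1 hu).1, sq_nonneg (t ^ 2 - 4 * t + 3), mul_nonneg t0 (sub_nonneg.2 t1),
      sq_nonneg (t - 3), sq_nonneg (t * (t - 4))]
  calc _ = s1 ^ 2 * (2 * (1 - t ^ 2)) := by ring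
    _ ≤ _ := by gcongr

/-- `- Q ≤ 6 s1 (c - q)₊` for every `c ≥ 0` -/
theorem Inv3.neg_QQ_le (h : Inv3 s1 s2 s3) (h1 : 0 < s1) {c : ℝ} (hc : 0 ≤ c) :
    -QQ s1 s2 s3 ≤ 6 * s1 * max (c - s2 / s1) 0 := by
  rcases le_total 0 s2 with h2 | h2
  · have : 0 ≤ 6 * s1 * max (c - s2 / s1) 0 := mul_nonneg (by positivity) (le_max_right _ _)
    nlinarith [h.QQ_ge h1 h2, sq_nonneg s1]
  · have : 6 * s1 * (c - s2 / s1) ≤ 6 * s1 * max (c - s2 / s1) 0 := by gcongr; exact le_max_left _ _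
    nlinarith [h.QQ_ge_neg h1 h2, mul_nonneg h1.le hc]

/-- the inequality behind the monotone quantity of stage three -/
theorem Inv3.stage3 (h1 : 0 < s1) {c : ℝ} (hc : 0 ≤ c) (hq : c ≤ s2 / s1) :
    PP s1 s2 s3 ≤ s1 * (QQ s1 s2 s3 - 8 * c ^ 2) - 2 * c * (s1 ^ 2 + s2 - 4 * c * s1) := by
  have e : s2 = s2 / s1 * s1 := by field_simp
  have h := mul_QQ (s2 := s2) (s3 := s3) h1.ne'
  set q := s2 / s1
  rw [mul_sub, h]
  nlinarith [mul_nonneg (sub_nonneg.2 hq) (sq_nonneg s1),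
    mul_nonneg (mul_nonneg (hc.trans hq) (sub_nonneg.2 hq)) h1.le]

/-- The pointwise estimate behind the uniform cubic curvature bound; `m = |S|`. -/
theorem Inv3.cotton (h : Inv3 s1 s2 s3) (h1 : 0 < s1) {c d m : ℝ} (d0 : 0 < d) (d1 : d ≤ 1 / 36)
    (m0 : 0 ≤ m) (hm : m ^ 2 = s1 ^ 2 - 2 * s2) :
    m ^ 3 / 10 - 18 * c ^ 2 * s1 ≤ (2 * s1 ^ 3 - 7 * s1 * s2 + 9 * s3) +
      s1 * (s2 / s1 - c - d * s1) ^ 2 / (2 * d) + s1 ^ 2 * (s2 / s1 - c - d * s1) := by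
  obtain ⟨t, u, t0, hu, rfl, rfl⟩ := h.exists_t h1
  obtain ⟨e1, -, -⟩ := alg_forms h1 t u
  rw [e1]
  set q := s1 * ((1 - t ^ 2) / 3) with hq
  have a1 : s1 * (q - c - d * s1) ^ 2 / (2 * d) + s1 ^ 2 * (q - c - d * s1) =
      s1 * ((q - c) ^ 2 / (2 * d)) - d * s1 ^ 3 / 2 := by field_simp; ring
  have a2 : 18 * (q - c) ^ 2 ≤ (q - c) ^ 2 / (2 * d) := by
    rw [le_div_iff₀ (by positivity)]
    nlinarith [sq_nonneg (q - c)]
  have a3 : 9 * q ^ 2 - 18 * c ^ 2 ≤ (q - c) ^ 2 / (2 * d) := by nlinarith [sq_nonneg (q - 2 * c)]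
  have a4 : m ^ 3 ≤ s1 ^ 3 * (1 + t ^ 3) := by
    have hm' : m ^ 2 = s1 ^ 2 * ((1 + 2 * t ^ 2) / 3) := by rw [hm]; ring
    rcases le_total t 1 with t1 | t1
    · have : m ≤ s1 := by
        refine abs_le_of_sq_le_sq' ?_ h1.le |>.2
        rw [hm']
        have : (1 + 2 * t ^ 2) / 3 ≤ 1 := by nlinarith
        nlinarith [sq_nonneg s1]
      calc m ^ 3 ≤ s1 ^ 3 := by gcongr
        _ ≤ _ := le_mul_of_one_le_right (by positivity) (by nlinarith [pow_nonneg t0 3])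
    · have : m ≤ s1 * t := by
        refine abs_le_of_sq_le_sq' ?_ (by positivity) |>.2
        rw [hm', mul_pow]
        have : (1 + 2 * t ^ 2) / 3 ≤ t ^ 2 := by nlinarith
        gcongr
      calc m ^ 3 ≤ (s1 * t) ^ 3 := by gcongr
        _ ≤ _ := by rw [mul_pow]; gcongr; linarith
  have a5 : (1 + t ^ 3) / 10 + 1 / 72 ≤ (4 * t ^ 2 + u) / 3 + (1 - t ^ 2) ^ 2 := by
    nlinarith [(abs_le.1 hu).1, sq_nonneg (t ^ 2 - 2 / 5 * t - 1 / 2), sq_nonneg (t - 1),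
      sq_nonneg t]
  have a6 : s1 ^ 3 * ((1 + t ^ 3) / 10 + 1 / 72) ≤
      s1 ^ 3 * ((4 * t ^ 2 + u) / 3 + (1 - t ^ 2) ^ 2) := by gcongr
  have a7 : s1 * (9 * q ^ 2 - 18 * c ^ 2) ≤ s1 * ((q - c) ^ 2 / (2 * d)) := by gcongr
  have a8 : d * s1 ^ 3 ≤ 1 / 36 * s1 ^ 3 := by gcongr
  have a9 : s1 * (9 * q ^ 2) = s1 ^ 3 * (1 - t ^ 2) ^ 2 := by rw [hq]; ring
  rw [add_assoc, a1]
  nlinarith

/-- the quadratic form of the rigidity argument; `x = |H0|²`, `y = ⟨H0, M0⟩`, `w = |M0|²` -/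
theorem bvv_form {p x y w : ℝ} (p1 : 9 / 4 ≤ p) (p2 : p < 6) (x0 : 0 ≤ x) (w0 : 0 ≤ w)
    (cs : y ^ 2 ≤ x * w) {b : ℝ} (hb : b = 5 / (12 - 2 * p)) :
    0 ≤ 3 / 2 * x - 6 / 5 * b * (p - 1) * y +
      3 / 2 * (3 / 5 * b * (p - 1) + (1 + b * (p - 2)) * (b - 1)) * w := by
  have hb' : b * (12 - 2 * p) = 5 := by
    have : 12 - 2 * p ≠ 0 := by linarith
    rw [hb]; field_simp
  set β := 2 / 5 * b * (p - 1) with hβ
  have h1 : β ^ 2 ≤ 3 / 5 * b * (p - 1) + (1 + b * (p - 2)) * (b - 1) := by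
    have : 0 ≤ b ^ 2 * ((4 * p - 9) * (6 - p)) :=
      mul_nonneg (sq_nonneg _) (mul_nonneg (by linarith) (by linarith))
    rw [hβ]; nlinarith
  have h2 : 2 * β * y ≤ x + β ^ 2 * w := by
    refine abs_le_of_sq_le_sq' ?_ (by positivity) |>.2
    nlinarith [sq_nonneg (x - β ^ 2 * w), mul_le_mul_of_nonneg_left cs (sq_nonneg β)]
  have h3 := mul_le_mul_of_nonneg_right h1 w0
  have e : 6 / 5 * b * (p - 1) * y = 3 / 2 * (2 * β * y) := by rw [hβ]; ring
  rw [e]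
  nlinarith

end Pool.Agent.MP_9bd639_gt.H88

end
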