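import Pool.Agent.MP_9bd639_gt.G.Tens1
import Pool.Agent.MP_9bd639_gt.G.Real

-- part Base
section

/-! The abstract compact manifold with a frame, metrics on it, volume, and the facts imported
from the library of Riemannian manifolds (`Good`). -/

open Matrix MeasureTheory Filter Topology Set
open scoped ContDiff

namespace Pool.Agent.MP_9bd639_gt.H88

/-- A compact connected three-manifold with its algebra of smooth functions, a frame coming from
an immersion and the volume `μ` of the induced metric. -/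
structure Base where
  M : Type
  [metric : MetricSpace M]
  [compact : CompactSpace M]
  [nonempty : Nonempty M]
  [meas : MeasurableSpace M]
  [borel : BorelSpace M]
  μ : Measure M
  [fin : IsFiniteMeasure μ]
  [pos : μ.IsOpenPosMeasure]
  A : Subalgebra ℝ (M → ℝ)
  N : ℕ
  F : Fr (Fin N) A
  cont : ∀ a : A, Continuous a.1
  comp : ∀ (a : A) (Φ : ℝ → ℝ), (∀ x, ContDiffAt ℝ ∞ Φ (a.1 x)) → (fun x => Φ (a.1 x)) ∈ A
  X_comp : ∀ (a b : A) (Φ : ℝ → ℝ), (∀ x, ContDiffAt ℝ ∞ Φ (a.1 x)) → (∀ x, b.1 x = Φ (a.1 x)) →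
    ∀ i x, (F.X i b).1 x = deriv Φ (a.1 x) * (F.X i a).1 x
  rank : ∀ x, ∃ e : Matrix (Fin 3) (Fin N) ℝ, e * eᵀ = 1 ∧ ∀ i j, (F.π i j).1 x = (eᵀ * e) i j
  ibp : ∀ v : Fin N → A, F.π *ᵥ v = v → ∫ x, (∑ l, F.X l (v l)).1 x ∂μ = 0
  sob : ∃ C : ℝ, ∀ a : A, (∫ x, a.1 x ^ 6 ∂μ) ^ (1 / 3 : ℝ) ≤
    C * ∫ x, (∑ i, (F.X i a).1 x ^ 2 + a.1 x ^ 2) ∂μ
  maxpt : ∀ (a : A) (x : M), (∀ y, a.1 y ≤ a.1 x) → (∀ i, (F.X i a).1 x = 0) ∧
    ∀ ξ : Fin N → ℝ, ∑ i, ∑ j, ξ i * ξ j * (F.X i (F.X j a)).1 x ≤ 0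
  const : ∀ a : A, (∀ i, F.X i a = 0) → ∀ x y, a.1 x = a.1 y
  lim : ∀ (κ : Type) (𝒰 : Ultrafilter κ) (u : κ → A),
    (∀ w, ∃ C : ℝ, ∀ᶠ n in (𝒰 : Filter κ), ∀ x, |(F.Xw w (u n)).1 x| ≤ C) →
    ∃ v : A, ∀ w, TendstoUniformly (fun n => (F.Xw w (u n)).1) (F.Xw w v).1 (𝒰 : Filter κ)

attribute [instance] Base.metric Base.compact Base.nonempty Base.meas Base.borel Base.fin Base.pos

namespace Base

variable (B : Base)

/-- Metrics on the manifold. -/
abbrev Me : Type := Met B.F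

/-- Matrices of smooth functions. -/
abbrev Mat : Type := Matrix (Fin B.N) (Fin B.N) B.A

/-- Evaluation at a point. -/
def ev (x : B.M) : B.A →ₐ[ℝ] ℝ := (Pi.evalAlgHom ℝ (fun _ : B.M => ℝ) x).comp B.A.val

theorem ev_apply (x : B.M) (a : B.A) : B.ev x a = a.1 x := rfl

/-- The constant function. -/
def cst (c : ℝ) : B.A := algebraMap ℝ B.A c

/-- The composition with a smooth function. -/
def cmp (a : B.A) (Φ : ℝ → ℝ) (h : ∀ x, ContDiffAt ℝ ∞ Φ (a.1 x)) : B.A :=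
  ⟨fun x => Φ (a.1 x), B.comp a Φ h⟩

variable {B}

/-- The quadratic form of the matrix `T` at `x`. -/
def qf (T : B.Mat) (x : B.M) (ξ : Fin B.N → ℝ) : ℝ := ξ ⬝ᵥ (T.map (B.ev x) *ᵥ ξ)

/-- Uniform equivalence with the induced metric. -/
def Ell (c : ℝ) (m : B.Me) : Prop :=
  ∀ x ξ, c * qf B.F.π x ξ ≤ qf m.G x ξ ∧ qf m.G x ξ ≤ c⁻¹ * qf B.F.π x ξ

/-- The metric is positive definite. -/
def Pos (m : B.Me) : Prop := ∃ c, 0 < c ∧ Ell c m

/-- The volume density with respect to `μ`. -/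
noncomputable def rho (m : B.Me) (x : B.M) : ℝ := Real.sqrt (m.ext.det.1 x)

/-- The Riemannian volume. -/
noncomputable def vol (m : B.Me) : Measure B.M :=
  B.μ.withDensity fun x => ENNReal.ofReal (rho m x)

/-- The integral of a smooth function. -/
noncomputable def I (m : B.Me) (a : B.A) : ℝ := ∫ x, a.1 x ∂vol m

/-- The quadratic form of `-2 Δ + V`. -/
noncomputable def Q (m : B.Me) (V φ : B.A) : ℝ := I m (2 * m.gam φ φ + V * φ ^ 2)

/-- The Sobolev inequality with exponent four. -/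
def Sob4 (m : B.Me) (K : ℝ) : Prop := ∀ φ : B.A, K * Real.sqrt (I m (φ ^ 4)) ≤ Q m m.s1 φ

/-- Pointwise positivity. -/
def Gt0 (a : B.A) : Prop := ∀ x, 0 < a.1 x
def Ge0 (a : B.A) : Prop := ∀ x, 0 ≤ a.1 x

/-- The functional of the problem. -/
noncomputable def J (m : B.Me) : ℝ := I m m.s1 * I m m.s2

variable (B)

/-- Facts that hold for every metric and are imported from the library. -/
structure Good : Prop where
  res : ∀ m : B.Me, Pos m → ∀ C : ℝ, 0 < C → ∀ e : B.A, ∃ v : B.A, C • v - 2 * m.lap v = e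
  harn : ∀ m : B.Me, Pos m → ∀ C : ℝ, 0 < C → ∃ α : ℝ, 0 < α ∧ ∀ u : B.A, Ge0 u →
    Ge0 (C • u - 2 * m.lap u) → ∀ x, α * I m u ≤ u.1 x
  univ : ∃ C : ℝ, 0 < C ∧ ∀ m : B.Me, Pos m → Gt0 m.s1 → J m ≤ C ∧ (0 < I m m.s2 →
    Sob4 m (Real.sqrt (I m m.s2) / 6))
  bishop : ∀ m : B.Me, Pos m → ∀ κ : ℝ, 0 < κ →
    (∀ (a : B.A) x, 2 * κ * (m.gam a a).1 x ≤ (m.quad m.Ric a a).1 x) →
    (vol m).real Set.univ ≤ 2 * Real.pi ^ 2 / κ ^ (3 / 2 : ℝ)

/-! Sobolev norms with respect to the frame and `μ`. -/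

/-- The inner product of `H ^ k`. -/
noncomputable def ipk : ℕ → B.A → B.A → ℝ
  | 0, a, b => ∫ x, a.1 x * b.1 x ∂B.μ
  | k + 1, a, b => (∫ x, a.1 x * b.1 x ∂B.μ) + ∑ i, ipk k (B.F.X i a) (B.F.X i b)

/-- The norm of `H ^ k`. -/
noncomputable def nrm (k : ℕ) (a : B.A) : ℝ := Real.sqrt (B.ipk k a a)

/-- The norm of a matrix of functions (sum of the norms of the entries). -/
noncomputable def nrmM (k : ℕ) (T : B.Mat) : ℝ := ∑ i, ∑ j, B.nrm k (T i j)

/-- All derivatives of order at most `k` are bounded by `K`. -/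
def Bd : ℕ → ℝ → B.A → Prop
  | 0, K, a => ∀ x, |a.1 x| ≤ K
  | k + 1, K, a => (∀ x, |a.1 x| ≤ K) ∧ ∀ i, Bd k K (B.F.X i a)

/-- Multiplication by `a` has norm at most `K` on `H ^ j` for `j ≤ k`. -/
def Mult (k : ℕ) (K : ℝ) (a : B.A) : Prop := ∀ j ≤ k, ∀ b, B.nrm j (a * b) ≤ K * B.nrm j b

/-- A family that is uniformly bounded in `C ^ k`. -/
def UB {κ : Type} (k : ℕ) (a : κ → B.A) : Prop := ∃ K, ∀ n, B.Bd k K (a n)

/-- A family whose `H ^ k` norms are at most a constant times the weight `W`. -/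
def Tm {κ : Type} (W : κ → ℝ) (k : ℕ) (a : κ → B.A) : Prop :=
  ∃ K, 0 ≤ K ∧ ∀ n, B.nrm k (a n) ≤ K * W n

/-- A family that is bounded in `H ^ k`. -/
def HB {κ : Type} (k : ℕ) (a : κ → B.A) : Prop := B.Tm (fun _ => 1) k a

/-- Smooth convergence along a filter. -/
def SmC {κ : Type} (l : Filter κ) (u : κ → B.A) (v : B.A) : Prop :=
  ∀ w, TendstoUniformly (fun n => (B.F.Xw w (u n)).1) (B.F.Xw w v).1 l

/-! The time dependent algebra. -/

/-- Paths of smooth functions. -/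
abbrev Pth (T : ℝ) : Type := Icc (0 : ℝ) T → B.A

variable {B} {T : ℝ}

/-- All space derivatives are jointly continuous. -/
def C0 (u : B.Pth T) : Prop :=
  ∀ w, Continuous fun p : Icc (0 : ℝ) T × B.M => (B.F.Xw w (u p.1)).1 p.2

variable [hT : Fact (0 < T)]

/-- The projection of the line onto the time interval. -/
noncomputable def pj (T : ℝ) [hT : Fact (0 < T)] (s : ℝ) : Icc (0 : ℝ) T := projIcc 0 T hT.out.le s

/-- `u'` is the time derivative of `u`, together with all space derivatives. -/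
def TD (u u' : B.Pth T) : Prop :=
  C0 u ∧ C0 u' ∧ ∀ w (t : Icc (0 : ℝ) T) x,
    HasDerivWithinAt (fun s => (B.F.Xw w (u (pj T s))).1 x) ((B.F.Xw w (u' t)).1 x) (Icc 0 T) t

/-- `k` time derivatives. -/
def Ck : ℕ → B.Pth T → Prop
  | 0, u => C0 u
  | k + 1, u => ∃ u', TD u u' ∧ Ck k u'

end Base

end Pool.Agent.MP_9bd639_gt.H88

end

-- part Hk
section

/-! Sobolev norms: elementary properties, integration by parts, interpolation. -/

open Matrix MeasureTheory Filter Topology Set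
open scoped ContDiff

namespace Pool.Agent.MP_9bd639_gt.H88

namespace Base

variable (B : Base)

theorem intg {f : B.M → ℝ} (hf : Continuous f) (ν : Measure B.M) [IsFiniteMeasure ν] :
    Integrable f ν := hf.integrable_of_hasCompactSupport (HasCompactSupport.of_compactSpace f)
theorem exists_bd {f : B.M → ℝ} (hf : Continuous f) : ∃ C, 0 < C ∧ ∀ x, |f x| ≤ C := by
  obtain ⟨C, hC⟩ := isCompact_univ.exists_bound_of_continuousOn hf.continuousOn
  exact ⟨max C 1, lt_max_of_lt_right one_pos, fun x =>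
    (hC x (mem_univ x)).trans (le_max_left _ _)⟩
theorem Hk_Bd0 {B : Base} {k : ℕ} {K : ℝ} {a : B.A} (h : B.Bd k K a) (x : B.M) : |a.1 x| ≤ K := by
  cases k with
  | zero => exact h x
  | succ k => exact h.1 x
theorem Hk_Bd_nonneg {B : Base} {k : ℕ} {K : ℝ} {a : B.A} (h : B.Bd k K a) : 0 ≤ K :=
  (abs_nonneg _).trans (Hk_Bd0 h (Classical.arbitrary _))
theorem Hk_mono {B : Base} {j k : ℕ} {K K' : ℝ} {a : B.A} (h : B.Bd k K a) (hj : j ≤ k)
    (hK : K ≤ K') : B.Bd j K' a := by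
  induction j generalizing k a with
  | zero => exact fun x => (Hk_Bd0 h x).trans hK
  | succ j ih =>
    obtain ⟨k, rfl⟩ : ∃ k', k = k' + 1 := ⟨k - 1, by omega⟩
    exact ⟨fun x => (h.1 x).trans hK, fun i => ih (h.2 i) (by omega)⟩
theorem exists_Bd (k : ℕ) (a : B.A) : ∃ K, 0 < K ∧ B.Bd k K a := by
  induction k generalizing a with
  | zero => exact B.exists_bd (B.cont a)
  | succ k ih =>
    obtain ⟨C, hC, h⟩ := B.exists_bd (B.cont a)
    choose K hK hK' using fun i => ih (B.F.X i a)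
    have hs : 0 ≤ ∑ i, K i := Finset.sum_nonneg fun i _ => (hK i).le
    refine ⟨C + ∑ i, K i, by positivity, fun x => (h x).trans (by linarith), fun i => ?_⟩
    have := Finset.single_le_sum (f := K) (fun i _ => (hK i).le) (Finset.mem_univ i)
    exact Hk_mono (hK' i) le_rfl (by linarith)
theorem Bd.mono {B : Base} {j k : ℕ} {K K' : ℝ} {a : B.A} (h : B.Bd k K a) (hj : j ≤ k)
    (hK : K ≤ K') : B.Bd j K' a := Hk_mono h hj hK
theorem Bd_iff (k : ℕ) (K : ℝ) (a : B.A) :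
    B.Bd k K a ↔ ∀ w : List (Fin B.N), w.length ≤ k → ∀ x, |(B.F.Xw w a).1 x| ≤ K := by
  induction k generalizing a with
  | zero =>
    refine ⟨fun h w hw => ?_, fun h => h [] le_rfl⟩
    obtain rfl : w = [] := List.length_eq_zero_iff.1 (by omega)
    exact h
  | succ k ih =>
    refine ⟨fun h w hw => ?_, fun h => ⟨h [] (by simp), fun i => (ih _).2 fun w hw =>
      h (i :: w) (by simpa using hw)⟩⟩
    cases w with
    | nil => exact h.1
    | cons i w => exact (ih _).1 (h.2 i) w (by simpa using hw)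
theorem Hk_int (a b : B.A) : Integrable (fun x => a.1 x * b.1 x) B.μ :=
  B.intg ((B.cont a).mul (B.cont b)) _
/-- Apply `ibp` to `v l = π l j * a`. -/
theorem ibpX (j : Fin B.N) (a : B.A) : ∫ x, (B.F.X j a).1 x ∂B.μ =
    -∫ x, (∑ l, B.F.X l (B.F.π l j)).1 x * a.1 x ∂B.μ := by
  have h := B.ibp (fun l => B.F.π l j * a) (by
    funext i
    have h1 := congrFun (congrFun B.F.π_idem i) j
    rw [Matrix.mul_apply] at h1
    simp only [mulVec, dotProduct, ← mul_assoc, ← Finset.sum_mul, h1])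
  have e : ∑ l, B.F.X l (B.F.π l j * a) = B.F.X j a + (∑ l, B.F.X l (B.F.π l j)) * a := by
    simp only [B.F.X_mul, Finset.sum_add_distrib, Finset.sum_mul]
    rw [add_comm, B.F.X_tan j a]
    congr 1
    exact Finset.sum_congr rfl fun l _ => by rw [B.F.π_apply, B.F.π_apply, B.F.symm]
  rw [e] at h
  have h2 := integral_add (B.intg (B.cont (B.F.X j a)) B.μ)
    (B.Hk_int (∑ l, B.F.X l (B.F.π l j)) a)
  have h3 : ∫ x, (B.F.X j a + (∑ l, B.F.X l (B.F.π l j)) * a).1 x ∂B.μ =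
      ∫ x, ((B.F.X j a).1 x + (∑ l, B.F.X l (B.F.π l j)).1 x * a.1 x) ∂B.μ := rfl
  linarith
theorem Hk_succ (k : ℕ) (a b : B.A) :
    B.ipk (k + 1) a b = B.ipk 0 a b + ∑ i, B.ipk k (B.F.X i a) (B.F.X i b) := rfl
theorem Hk_zero (a b : B.A) : B.ipk 0 a b = ∫ x, a.1 x * b.1 x ∂B.μ := rfl
theorem ipk_comm (k : ℕ) (a b : B.A) : B.ipk k a b = B.ipk k b a := by
  have h0 : ∀ a b : B.A, B.ipk 0 a b = B.ipk 0 b a := fun a b => by
    simp only [Hk_zero, mul_comm]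
  induction k generalizing a b with
  | zero => exact h0 a b
  | succ k ih => rw [Hk_succ, Hk_succ, h0, Finset.sum_congr rfl fun i _ => ih _ _]
theorem ipk_add (k : ℕ) (a b c : B.A) : B.ipk k (a + b) c = B.ipk k a c + B.ipk k b c := by
  have h0 : ∀ a b c : B.A, B.ipk 0 (a + b) c = B.ipk 0 a c + B.ipk 0 b c := fun a b c => by
    rw [Hk_zero, Hk_zero, Hk_zero, ← integral_add (B.Hk_int a c) (B.Hk_int b c)]
    exact integral_congr_ae (Eventually.of_forall fun x => add_mul _ _ _)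
  induction k generalizing a b c with
  | zero => exact h0 a b c
  | succ k ih =>
    simp only [Hk_succ, h0, map_add, ih, Finset.sum_add_distrib]
    ring
theorem Hk_smul (k : ℕ) (r : ℝ) (a c : B.A) : B.ipk k (r • a) c = r * B.ipk k a c := by
  have h0 : ∀ a c : B.A, B.ipk 0 (r • a) c = r * B.ipk 0 a c := fun a c => by
    rw [Hk_zero, Hk_zero, ← integral_const_mul]
    exact integral_congr_ae (Eventually.of_forall fun x => mul_assoc _ _ _)
  induction k generalizing a c with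
  | zero => exact h0 a c
  | succ k ih => simp only [Hk_succ, h0, Derivation.map_smul, ih, mul_add, Finset.mul_sum]
theorem ipk_sub (k : ℕ) (a b c : B.A) : B.ipk k (a - b) c = B.ipk k a c - B.ipk k b c := by
  rw [show a - b = a + (-1 : ℝ) • b by rw [neg_one_smul, sub_eq_add_neg], ipk_add, Hk_smul]
  ring
theorem ipk_smul (k : ℕ) (r : ℝ) (a c : B.A) : B.ipk k (r • a) c = r * B.ipk k a c :=
  B.Hk_smul k r a c
theorem ipk_sum {κ : Type} (s : Finset κ) (k : ℕ) (a : κ → B.A) (c : B.A) :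
    B.ipk k (∑ n ∈ s, a n) c = ∑ n ∈ s, B.ipk k (a n) c := by
  classical
  induction s using Finset.induction_on with
  | empty => simpa using B.ipk_smul k 0 0 c
  | insert n s hn ih => rw [Finset.sum_insert hn, Finset.sum_insert hn, ipk_add, ih]
theorem ipk_nonneg (k : ℕ) (a : B.A) : 0 ≤ B.ipk k a a := by
  have h0 : ∀ a : B.A, 0 ≤ B.ipk 0 a a := fun a => integral_nonneg fun x => mul_self_nonneg _
  induction k generalizing a with
  | zero => exact h0 a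
  | succ k ih => exact add_nonneg (h0 a) (Finset.sum_nonneg fun i _ => ih _)
theorem nrm_nonneg (k : ℕ) (a : B.A) : 0 ≤ B.nrm k a := Real.sqrt_nonneg _
theorem nrm_sq (k : ℕ) (a : B.A) : B.nrm k a ^ 2 = B.ipk k a a := Real.sq_sqrt (B.ipk_nonneg k a)
theorem nrm_zero_sq (a : B.A) : B.nrm 0 a ^ 2 = ∫ x, a.1 x ^ 2 ∂B.μ := by
  rw [nrm_sq, Hk_zero]
  simp only [sq]
theorem nrm_succ_sq (k : ℕ) (a : B.A) :
    B.nrm (k + 1) a ^ 2 = B.nrm 0 a ^ 2 + ∑ i, B.nrm k (B.F.X i a) ^ 2 := by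
  simp only [nrm_sq, Hk_succ]
theorem Hk_expand (k : ℕ) (t : ℝ) (a b : B.A) : B.ipk k (t • a + b) (t • a + b) =
    B.ipk k a a * (t * t) + 2 * B.ipk k a b * t + B.ipk k b b := by
  rw [ipk_add, ipk_smul, ipk_comm _ k a, ipk_comm _ k b, ipk_add, ipk_add, ipk_smul, ipk_smul,
    ipk_comm _ k b a]
  ring
theorem ipk_le (k : ℕ) (a b : B.A) : |B.ipk k a b| ≤ B.nrm k a * B.nrm k b := by
  have h := discrim_le_zero (a := B.ipk k a a) (b := 2 * B.ipk k a b) (c := B.ipk k b b)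
    fun t => by rw [← Hk_expand]; exact B.ipk_nonneg k _
  refine abs_le_of_sq_le_sq ?_ (mul_nonneg (B.nrm_nonneg k a) (B.nrm_nonneg k b))
  rw [mul_pow, nrm_sq, nrm_sq]
  rw [discrim] at h
  nlinarith
theorem nrm_add (k : ℕ) (a b : B.A) : B.nrm k (a + b) ≤ B.nrm k a + B.nrm k b := by
  refine le_of_sq_le_sq ?_ (add_nonneg (B.nrm_nonneg k a) (B.nrm_nonneg k b))
  have h := B.Hk_expand k 1 a b
  rw [one_smul] at h
  rw [add_sq, nrm_sq, nrm_sq, nrm_sq, h]
  linarith [(le_abs_self _).trans (B.ipk_le k a b)]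
theorem Hk_nrm_smul (k : ℕ) (r : ℝ) (a : B.A) : B.nrm k (r • a) = |r| * B.nrm k a := by
  rw [nrm, nrm, ipk_smul, ipk_comm, ipk_smul, ← mul_assoc, Real.sqrt_mul (mul_self_nonneg r),
    Real.sqrt_mul_self_eq_abs]
theorem Hk_nrm_neg (k : ℕ) (a : B.A) : B.nrm k (-a) = B.nrm k a := by
  simpa using B.Hk_nrm_smul k (-1) a
theorem nrm_sub (k : ℕ) (a b : B.A) : B.nrm k (a - b) ≤ B.nrm k a + B.nrm k b := by
  rw [sub_eq_add_neg, ← B.Hk_nrm_neg k b]
  exact B.nrm_add k a _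
theorem nrm_neg (k : ℕ) (a : B.A) : B.nrm k (-a) = B.nrm k a := B.Hk_nrm_neg k a
theorem nrm_smul (k : ℕ) (r : ℝ) (a : B.A) : B.nrm k (r • a) = |r| * B.nrm k a :=
  B.Hk_nrm_smul k r a
theorem nrm_zero (k : ℕ) : B.nrm k 0 = 0 := by simpa using B.nrm_smul k 0 0
theorem nrm_sum {κ : Type} (s : Finset κ) (k : ℕ) (a : κ → B.A) :
    B.nrm k (∑ n ∈ s, a n) ≤ ∑ n ∈ s, B.nrm k (a n) := by
  classical
  induction s using Finset.induction_on with
  | empty => simp [nrm_zero]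
  | insert n s hn ih =>
    rw [Finset.sum_insert hn, Finset.sum_insert hn]
    exact (B.nrm_add k _ _).trans (by linarith)
theorem nrm_mono {j k : ℕ} (h : j ≤ k) (a : B.A) : B.nrm j a ≤ B.nrm k a := by
  refine le_of_sq_le_sq ?_ (B.nrm_nonneg k a)
  induction j generalizing k a with
  | zero =>
    cases k with
    | zero => exact le_rfl
    | succ k =>
      rw [nrm_succ_sq]
      exact le_add_of_nonneg_right (Finset.sum_nonneg fun i _ => sq_nonneg _)
  | succ j ih =>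
    obtain ⟨k, rfl⟩ : ∃ k', k = k' + 1 := ⟨k - 1, by omega⟩
    rw [nrm_succ_sq, nrm_succ_sq]
    exact add_le_add le_rfl (Finset.sum_le_sum fun i _ => ih (by omega) _)
theorem nrm_X (k : ℕ) (i : Fin B.N) (a : B.A) : B.nrm k (B.F.X i a) ≤ B.nrm (k + 1) a := by
  refine le_of_sq_le_sq ?_ (B.nrm_nonneg _ a)
  rw [nrm_succ_sq]
  have := Finset.single_le_sum (f := fun i => B.nrm k (B.F.X i a) ^ 2)
    (fun i _ => sq_nonneg _) (Finset.mem_univ i)
  linarith [sq_nonneg (B.nrm 0 a)]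
theorem nrm_succ_le (k : ℕ) (a : B.A) :
    B.nrm (k + 1) a ≤ B.nrm 0 a + ∑ i, B.nrm k (B.F.X i a) := by
  have hs : 0 ≤ ∑ i, B.nrm k (B.F.X i a) := Finset.sum_nonneg fun i _ => B.nrm_nonneg _ _
  refine le_of_sq_le_sq ?_ (add_nonneg (B.nrm_nonneg _ a) hs)
  rw [nrm_succ_sq]
  have := Finset.sum_sq_le_sq_sum_of_nonneg (s := Finset.univ)
    (f := fun i => B.nrm k (B.F.X i a)) fun i _ => B.nrm_nonneg _ _
  nlinarith [mul_nonneg (B.nrm_nonneg 0 a) hs]
theorem nrm_zero_le {a b : B.A} {K : ℝ} (hK : 0 ≤ K) (h : ∀ x, |a.1 x| ≤ K * |b.1 x|) :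
    B.nrm 0 a ≤ K * B.nrm 0 b := by
  refine le_of_sq_le_sq ?_ (mul_nonneg hK (B.nrm_nonneg _ b))
  rw [mul_pow, nrm_zero_sq, nrm_zero_sq, ← integral_const_mul]
  refine integral_mono (B.intg ((B.cont a).pow 2) _)
    (B.intg (continuous_const.mul ((B.cont b).pow 2)) _) fun x => ?_
  have := pow_le_pow_left₀ (abs_nonneg _) (h x) 2
  rwa [mul_pow, sq_abs, sq_abs] at this
theorem eq_zero_of_nrm {a : B.A} (h : B.nrm 0 a = 0) : a = 0 := by
  have h1 := B.nrm_zero_sq a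
  rw [h, zero_pow two_ne_zero] at h1
  have h2 := (integral_eq_zero_iff_of_nonneg (fun x => sq_nonneg (a.1 x))
    (B.intg ((B.cont a).pow 2) B.μ)).1 h1.symm
  have h3 := (((B.cont a).pow 2).ae_eq_iff_eq B.μ continuous_const).1 h2
  exact Subtype.ext (funext fun x => pow_eq_zero_iff two_ne_zero |>.1 (congrFun h3 x))
theorem Hk_mult (k : ℕ) : ∃ C, 0 < C ∧ ∀ K a, B.Bd k K a → ∀ b,
    B.nrm k (a * b) ≤ C * K * B.nrm k b := by
  have h0 : ∀ {k K} {a : B.A}, B.Bd k K a → ∀ b, B.nrm 0 (a * b) ≤ K * B.nrm 0 b :=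
    fun {k K a} h b => B.nrm_zero_le (Hk_Bd_nonneg h) fun x => by
      rw [show (a * b).1 x = a.1 x * b.1 x from rfl, abs_mul]
      exact mul_le_mul_of_nonneg_right (Hk_Bd0 h x) (abs_nonneg _)
  induction k with
  | zero => exact ⟨1, one_pos, fun K a h b => by rw [one_mul]; exact h0 h b⟩
  | succ k ih =>
    obtain ⟨C, hC, ih⟩ := ih
    refine ⟨1 + B.N * (2 * C), by positivity, fun K a h b => (B.nrm_succ_le k _).trans ?_⟩
    have hK := Hk_Bd_nonneg h
    have h1 : B.nrm 0 (a * b) ≤ K * B.nrm (k + 1) b :=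
      (h0 h b).trans (mul_le_mul_of_nonneg_left (B.nrm_mono (by omega) b) hK)
    have h2 : ∀ i, B.nrm k (B.F.X i (a * b)) ≤ 2 * C * K * B.nrm (k + 1) b := fun i => by
      rw [B.F.X_mul]
      have e1 := (ih K _ (h.2 i) b).trans
        (mul_le_mul_of_nonneg_left (B.nrm_mono (Nat.le_succ k) b) (by positivity))
      have e2 := (ih K a (h.mono (Nat.le_succ k) le_rfl) (B.F.X i b)).trans
        (mul_le_mul_of_nonneg_left (B.nrm_X k i b) (by positivity))
      linarith [B.nrm_add k (B.F.X i a * b) (a * B.F.X i b)]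
    have h3 := Finset.sum_le_sum fun i (_ : i ∈ Finset.univ) => h2 i
    rw [Finset.sum_const, Finset.card_univ, Fintype.card_fin, nsmul_eq_mul] at h3
    linarith
theorem nrm_of_Bd (k : ℕ) : ∃ C, 0 < C ∧ ∀ K a, B.Bd k K a → B.nrm k a ≤ C * K := by
  obtain ⟨C, hC, h⟩ := B.Hk_mult k
  have h1 := B.nrm_nonneg k 1
  refine ⟨C * (B.nrm k 1 + 1), by positivity, fun K a ha => ?_⟩
  have h2 := h K a ha 1
  rw [mul_one] at h2
  nlinarith [mul_nonneg hC.le (Hk_Bd_nonneg ha)]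
/-- Induction on `k` with the Leibniz rule. -/
theorem mult_of_Bd (k : ℕ) : ∃ C, 0 < C ∧ ∀ K a, B.Bd k K a → B.Mult k (C * K) a := by
  choose C hC h using B.Hk_mult
  have hs : ∀ j ≤ k, C j ≤ ∑ j ∈ Finset.range (k + 1), C j := fun j hj =>
    Finset.single_le_sum (f := C) (fun i _ => (hC i).le) (Finset.mem_range.2 (by omega))
  refine ⟨∑ j ∈ Finset.range (k + 1), C j, (hC 0).trans_le (hs 0 (Nat.zero_le k)),
    fun K a ha j hj b => (h j K a (ha.mono hj le_rfl) b).trans ?_⟩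
  exact mul_le_mul_of_nonneg_right (mul_le_mul_of_nonneg_right (hs j hj) (Hk_Bd_nonneg ha))
    (B.nrm_nonneg _ _)
theorem exists_mult (k : ℕ) (a : B.A) : ∃ K, 0 < K ∧ B.Mult k K a := by
  obtain ⟨C, hC, h⟩ := B.mult_of_Bd k
  obtain ⟨K, hK, ha⟩ := B.exists_Bd k a
  exact ⟨C * K, mul_pos hC hK, h K a ha⟩
theorem Hk_ibp0 (i : Fin B.N) (a c : B.A) : B.ipk 0 (B.F.X i a) c =
    -B.ipk 0 a ((∑ l, B.F.X l (B.F.π l i)) * c) - B.ipk 0 a (B.F.X i c) := by
  have h := B.ibpX i (a * c)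
  rw [B.F.X_mul] at h
  have h1 := integral_add (B.Hk_int (B.F.X i a) c) (B.Hk_int a (B.F.X i c))
  have h2 : ∫ x, (B.F.X i a * c + a * B.F.X i c).1 x ∂B.μ =
      ∫ x, ((B.F.X i a).1 x * c.1 x + a.1 x * (B.F.X i c).1 x) ∂B.μ := rfl
  have h3 : ∫ x, (∑ l, B.F.X l (B.F.π l i)).1 x * (a * c).1 x ∂B.μ =
      B.ipk 0 a ((∑ l, B.F.X l (B.F.π l i)) * c) :=
    integral_congr_ae (Eventually.of_forall fun x => mul_left_comm _ (a.1 x) (c.1 x))
  rw [Hk_zero _ (B.F.X i a), Hk_zero _ a (B.F.X i c)]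
  linarith
/-- Induction on `k`; the case `k = 0` is `ibpX` applied to `a * X i b`. -/
theorem ibp_k (k : ℕ) : ∃ C, 0 < C ∧ ∀ a b,
    |B.ipk (k + 1) a b| ≤ C * B.nrm k a * B.nrm (k + 2) b := by
  have key : ∀ (k : ℕ) (C : Fin B.N → ℝ), (∀ i, 0 ≤ C i) → (∀ i a b,
      |B.ipk k (B.F.X i a) (B.F.X i b)| ≤ C i * B.nrm k a * B.nrm (k + 2) b) →
      ∃ C, 0 < C ∧ ∀ a b, |B.ipk (k + 1) a b| ≤ C * B.nrm k a * B.nrm (k + 2) b := by
    intro k C hC h
    have hs : 0 ≤ ∑ i, C i := Finset.sum_nonneg fun i _ => hC i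
    refine ⟨1 + ∑ i, C i, by positivity, fun a b => ?_⟩
    rw [Hk_succ]
    have h1 : |B.ipk 0 a b| ≤ B.nrm k a * B.nrm (k + 2) b := (B.ipk_le 0 a b).trans
      (mul_le_mul (B.nrm_mono (by omega) a) (B.nrm_mono (by omega) b) (B.nrm_nonneg _ _)
        (B.nrm_nonneg _ _))
    have h2 := (Finset.abs_sum_le_sum_abs _ _).trans
      (Finset.sum_le_sum fun i (_ : i ∈ Finset.univ) => h i a b)
    rw [← Finset.sum_mul, ← Finset.sum_mul] at h2
    linarith [abs_add_le (B.ipk 0 a b) (∑ i, B.ipk k (B.F.X i a) (B.F.X i b))]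
  induction k with
  | zero =>
    choose D hD h using fun i => B.exists_mult 0 (∑ l, B.F.X l (B.F.π l i))
    refine key 0 (fun i => D i + 1) (fun i => by linarith [hD i]) fun i a b => ?_
    have e0 : B.nrm 1 (B.F.X i b) ≤ B.nrm 2 b := B.nrm_X 1 i b
    have e1 := (h i 0 le_rfl (B.F.X i b)).trans (mul_le_mul_of_nonneg_left
      ((B.nrm_mono (Nat.zero_le 1) _).trans e0) (hD i).le)
    have e2 := (B.nrm_X 0 i (B.F.X i b)).trans e0
    have e3 := (B.ipk_le 0 a _).trans (mul_le_mul_of_nonneg_left e1 (B.nrm_nonneg 0 a))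
    have e4 := (B.ipk_le 0 a _).trans (mul_le_mul_of_nonneg_left e2 (B.nrm_nonneg 0 a))
    rw [Hk_ibp0]
    refine (abs_sub _ _).trans ?_
    rw [abs_neg]
    linarith
  | succ k ih =>
    obtain ⟨C, hC, ih⟩ := ih
    refine key (k + 1) (fun _ => C) (fun _ => hC.le) fun i a b => (ih _ _).trans ?_
    exact mul_le_mul (mul_le_mul_of_nonneg_left (B.nrm_X k i a) hC.le) (B.nrm_X (k + 2) i b)
      (B.nrm_nonneg _ _) (mul_nonneg hC.le (B.nrm_nonneg _ _))
theorem interp (k : ℕ) : ∃ C, 0 < C ∧ ∀ a,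
    B.nrm (k + 1) a ^ 2 ≤ C * B.nrm k a * B.nrm (k + 2) a := by
  obtain ⟨C, hC, h⟩ := B.ibp_k k
  exact ⟨C, hC, fun a => by rw [nrm_sq]; exact (le_abs_self _).trans (h a a)⟩
theorem interp0 (k : ℕ) {η : ℝ} (hη : 0 < η) : ∃ C, 0 < C ∧ ∀ a,
    B.nrm k a ≤ η * B.nrm (k + 1) a + C * B.nrm 0 a := by
  induction k generalizing η with
  | zero =>
    exact ⟨1, one_pos, fun a => by nlinarith [mul_nonneg hη.le (B.nrm_nonneg (0 + 1) a)]⟩
  | succ k ih =>
    obtain ⟨C, hC, h⟩ := B.interp k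
    obtain ⟨D, hD, h'⟩ := ih (div_pos hη hC)
    refine ⟨C / η * D, by positivity, fun a => ?_⟩
    have hy := B.nrm_nonneg k a
    have hz := B.nrm_nonneg (k + 2) a
    have h1 : B.nrm (k + 1) a ≤ η / 2 * B.nrm (k + 2) a + C / η / 2 * B.nrm k a := by
      refine le_of_sq_le_sq ((h a).trans ?_) (by positivity)
      have e : C = 4 * (η / 2) * (C / η / 2) := by field_simp; ring
      have e2 : C * B.nrm k a * B.nrm (k + 2) a =
          4 * (η / 2 * B.nrm (k + 2) a) * (C / η / 2 * B.nrm k a) := by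
        conv_lhs => rw [e]
        ring
      rw [e2]
      nlinarith [sq_nonneg (η / 2 * B.nrm (k + 2) a - C / η / 2 * B.nrm k a)]
    have h2 := mul_le_mul_of_nonneg_left (h' a) (show 0 ≤ C / η / 2 by positivity)
    have e3 : C / η / 2 * (η / C * B.nrm (k + 1) a + D * B.nrm 0 a) =
        B.nrm (k + 1) a / 2 + C / η * D * B.nrm 0 a / 2 := by field_simp
    linarith

end Base

end Pool.Agent.MP_9bd639_gt.H88

end

-- part Hk2
section

/-! Sobolev embeddings, products and multipliers. -/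

open Matrix MeasureTheory Filter Topology Set
open scoped ContDiff

namespace Pool.Agent.MP_9bd639_gt.H88

namespace Base

variable (B : Base)

theorem Hk2_one (a : B.A) :
    ∫ x, (∑ i, (B.F.X i a).1 x ^ 2 + a.1 x ^ 2) ∂B.μ = B.nrm 1 a ^ 2 := by
  have h1 : ∀ i, Integrable (fun x => (B.F.X i a).1 x ^ 2) B.μ := fun i =>
    B.intg ((B.cont _).pow 2) _
  have h2 : Integrable (fun x => a.1 x ^ 2) B.μ := B.intg ((B.cont _).pow 2) _
  rw [integral_add (integrable_finsetSum _ fun i _ => h1 i) h2,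
    integral_finsetSum _ fun i _ => h1 i, B.nrm_succ_sq, B.nrm_zero_sq, add_comm]
  simp only [B.nrm_zero_sq]

theorem Hk2_sob : ∃ C, 0 < C ∧ ∀ a : B.A, (∫ x, a.1 x ^ 6 ∂B.μ) ^ (1 / 3 : ℝ) ≤
    C * ∫ x, (∑ i, (B.F.X i a).1 x ^ 2 + a.1 x ^ 2) ∂B.μ := by
  obtain ⟨C, hC⟩ := B.sob
  refine ⟨max C 1, lt_max_of_lt_right one_pos, fun a => (hC a).trans ?_⟩
  exact mul_le_mul_of_nonneg_right (le_max_left _ _) (by rw [B.Hk2_one]; positivity)

theorem Hk2_i6 (a : B.A) : 0 ≤ ∫ x, a.1 x ^ 6 ∂B.μ := integral_nonneg fun x => by positivity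

theorem l6 : ∃ C, 0 < C ∧ ∀ a : B.A, (∫ x, a.1 x ^ 6 ∂B.μ) ^ (1 / 6 : ℝ) ≤ C * B.nrm 1 a := by
  obtain ⟨C, C0, hC⟩ := B.Hk2_sob
  refine ⟨Real.sqrt C, Real.sqrt_pos.2 C0, fun a => ?_⟩
  have h := hC a
  rw [B.Hk2_one] at h
  refine le_of_pow_le_pow_left₀ (n := 2) (by norm_num)
    (mul_nonneg (Real.sqrt_nonneg _) (B.nrm_nonneg _ _)) ?_
  rw [mul_pow, Real.sq_sqrt C0.le, ← Real.rpow_natCast, ← Real.rpow_mul (B.Hk2_i6 a)]
  norm_num
  simpa using h

theorem Hk2_l6 : ∃ C, 0 < C ∧ ∀ a : B.A, ∫ x, a.1 x ^ 6 ∂B.μ ≤ (C * B.nrm 1 a) ^ 6 := by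
  obtain ⟨C, C0, hC⟩ := B.l6
  refine ⟨C, C0, fun a => ?_⟩
  have h := pow_le_pow_left₀ (Real.rpow_nonneg (B.Hk2_i6 a) _) (hC a) 6
  rwa [← Real.rpow_natCast, ← Real.rpow_mul (B.Hk2_i6 a), show (1 / 6 : ℝ) * (6 : ℕ) = 1 by norm_num,
    Real.rpow_one] at h

theorem Hk2_l4 : ∃ C, 0 < C ∧ ∀ a : B.A,
    ∫ x, a.1 x ^ 4 ∂B.μ ≤ B.nrm 0 a * (C * B.nrm 1 a) ^ 3 := by
  obtain ⟨C, C0, hC⟩ := B.Hk2_l6
  refine ⟨C, C0, fun a => ?_⟩
  have h := cs B.μ (B.cont a) ((B.cont a).pow 3)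
  have e1 : ∀ x, a.1 x * a.1 x ^ 3 = a.1 x ^ 4 := fun x => by ring
  have e2 : ∀ x, (a.1 x ^ 3) ^ 2 = a.1 x ^ 6 := fun x => by ring
  simp only [Pi.pow_apply, e1, e2] at h
  rw [← B.nrm_zero_sq, Real.sqrt_sq (B.nrm_nonneg _ _)] at h
  refine (le_abs_self _).trans (h.trans (mul_le_mul_of_nonneg_left ?_ (B.nrm_nonneg _ _)))
  have := B.nrm_nonneg 1 a
  exact Real.sqrt_le_iff.2 ⟨by positivity, (hC a).trans (le_of_eq (by ring))⟩

theorem l3 : ∃ C, 0 < C ∧ ∀ a : B.A,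
    (∫ x, |a.1 x| ^ 3 ∂B.μ) ^ (1 / 3 : ℝ) ≤ C * Real.sqrt (B.nrm 1 a * B.nrm 0 a) := by
  obtain ⟨C, C0, hC⟩ := B.Hk2_l4
  refine ⟨Real.sqrt C, Real.sqrt_pos.2 C0, fun a => ?_⟩
  have h := cs B.μ (B.cont a).abs ((B.cont a).pow 2)
  have e1 : ∀ x, |a.1 x| * a.1 x ^ 2 = |a.1 x| ^ 3 := fun x => by rw [← sq_abs]; ring
  have e2 : ∀ x, (a.1 x ^ 2) ^ 2 = a.1 x ^ 4 := fun x => by ring
  simp only [Pi.pow_apply, e1, e2, sq_abs] at h
  rw [← B.nrm_zero_sq, Real.sqrt_sq (B.nrm_nonneg _ _)] at h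
  have n0 := B.nrm_nonneg 0 a
  have n1 := B.nrm_nonneg 1 a
  have i3 : 0 ≤ ∫ x, |a.1 x| ^ 3 ∂B.μ := integral_nonneg fun x => by positivity
  have i4 : 0 ≤ ∫ x, a.1 x ^ 4 ∂B.μ := integral_nonneg fun x => by positivity
  refine le_of_pow_le_pow_left₀ (n := 6) (by norm_num) (by positivity) ?_
  rw [← Real.rpow_natCast, ← Real.rpow_mul i3, show (1 / 3 : ℝ) * (6 : ℕ) = (2 : ℕ) by norm_num,
    Real.rpow_natCast, ← Real.sqrt_mul C0.le, show 6 = 2 * 3 by rfl, pow_mul,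
    Real.sq_sqrt (by positivity)]
  have h2 := pow_le_pow_left₀ i3 ((le_abs_self _).trans h) 2
  rw [mul_pow, Real.sq_sqrt i4] at h2
  exact h2.trans ((mul_le_mul_of_nonneg_left (hC a) (by positivity)).trans (le_of_eq (by ring)))

theorem l4 : ∃ C, 0 < C ∧ ∀ a : B.A, Real.sqrt (∫ x, a.1 x ^ 4 ∂B.μ) ≤ C * B.nrm 1 a ^ 2 := by
  obtain ⟨C, C0, hC⟩ := B.Hk2_l4
  refine ⟨Real.sqrt (C ^ 3), Real.sqrt_pos.2 (by positivity), fun a => ?_⟩
  have n1 := B.nrm_nonneg 1 a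
  refine Real.sqrt_le_iff.2 ⟨by positivity, (hC a).trans ?_⟩
  rw [mul_pow (Real.sqrt _), Real.sq_sqrt (by positivity)]
  exact (mul_le_mul_of_nonneg_right (B.nrm_mono zero_le_one a) (by positivity)).trans
    (le_of_eq (by ring))

theorem prod_b : ∃ C, 0 < C ∧ ∀ a b : B.A,
    B.nrm 0 (a * b) ≤ C * B.nrm 1 a * Real.sqrt (B.nrm 1 b * B.nrm 0 b) := by
  obtain ⟨C, C0, hC⟩ := B.l6
  obtain ⟨D, D0, hD⟩ := B.l3
  refine ⟨C * D, mul_pos C0 D0, fun a b => ?_⟩
  have h := holder236 B.μ (B.cont (a * b)) (B.cont b) (B.cont a)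
  have e : ∀ x, |(a * b).1 x * b.1 x * a.1 x| = (a * b).1 x ^ 2 := fun x => by
    rw [show (a * b).1 x * b.1 x * a.1 x = (a * b).1 x ^ 2 by
      show a.1 x * b.1 x * b.1 x * a.1 x = (a.1 x * b.1 x) ^ 2; ring, abs_sq]
  simp only [e] at h
  rw [← B.nrm_zero_sq, Real.sqrt_sq (B.nrm_nonneg _ _)] at h
  have n1 := B.nrm_nonneg 1 a
  have n0 := B.nrm_nonneg 0 (a * b)
  rcases n0.eq_or_lt with h0 | h0
  · rw [← h0]; positivity
  have i3 : 0 ≤ ∫ x, |b.1 x| ^ 3 ∂B.μ := integral_nonneg fun x => by positivity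
  rw [sq, mul_assoc] at h
  refine (le_of_mul_le_mul_left h h0).trans ((mul_le_mul (hD b) (hC a)
    (Real.rpow_nonneg (B.Hk2_i6 a) _) (by positivity)).trans (le_of_eq (by ring)))

theorem Hk2_rev : ∃ C : ℝ, ∀ (a : B.A) (p : ℝ), 2 ≤ p →
    (∫ x, Real.sqrt (a.1 x ^ 2 + 1) ^ (3 * p) ∂B.μ) ^ (1 / 3 : ℝ) ≤ C * p ^ 2 *
      ∫ x, (1 + ∑ i, (B.F.X i a).1 x ^ 2) * Real.sqrt (a.1 x ^ 2 + 1) ^ p ∂B.μ := by
  obtain ⟨C, C0, hC⟩ := B.Hk2_sob
  refine ⟨C, fun a p hp => ?_⟩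
  have pos : ∀ t : ℝ, 0 < t ^ 2 + 1 := fun t => by positivity
  have hΦ : ∀ x, ContDiffAt ℝ ∞ (fun t : ℝ => (t ^ 2 + 1) ^ (p / 4)) (a.1 x) := fun x =>
    ContDiffAt.rpow_const_of_ne (by fun_prop) (pos _).ne'
  have hd : ∀ t : ℝ, deriv (fun t : ℝ => (t ^ 2 + 1) ^ (p / 4)) t =
      2 * t * (p / 4) * (t ^ 2 + 1) ^ (p / 4 - 1) := fun t => by
    have h1 : HasDerivAt (fun t : ℝ => t ^ 2 + 1) (2 * t) t := by
      simpa using (hasDerivAt_pow 2 t).add_const 1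
    exact (h1.rpow_const (Or.inl (pos t).ne')).deriv
  have h := hC (B.cmp a _ hΦ)
  have hX := B.X_comp a (B.cmp a _ hΦ) _ hΦ fun _ => rfl
  have hv : ∀ x, (B.cmp a _ hΦ).1 x = (a.1 x ^ 2 + 1) ^ (p / 4) := fun _ => rfl
  have e1 : ∀ t : ℝ, ((t ^ 2 + 1) ^ (p / 4)) ^ 6 = Real.sqrt (t ^ 2 + 1) ^ (3 * p) := fun t => by
    rw [Real.sqrt_eq_rpow, ← Real.rpow_natCast, ← Real.rpow_mul (pos t).le,
      ← Real.rpow_mul (pos t).le]
    congr 1
    push_cast
    ring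
  have e2 : ∀ t : ℝ, Real.sqrt (t ^ 2 + 1) ^ p = ((t ^ 2 + 1) ^ (p / 4)) ^ 2 := fun t => by
    rw [Real.sqrt_eq_rpow, ← Real.rpow_natCast (_ ^ (p / 4)), ← Real.rpow_mul (pos t).le,
      ← Real.rpow_mul (pos t).le]
    congr 1
    push_cast
    ring
  simp only [hv, e1] at h
  refine h.trans ?_
  rw [mul_assoc, ← integral_const_mul (p ^ 2)]
  have c1 : Continuous fun x => (a.1 x ^ 2 + 1) ^ (p / 4) := B.cont (B.cmp a _ hΦ)
  have c2 := fun i => B.cont (B.F.X i a)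
  have c3 := fun i => B.cont (B.F.X i (B.cmp a _ hΦ))
  simp only [e2]
  refine mul_le_mul_of_nonneg_left (integral_mono ?_ ?_ fun x => ?_) C0.le
  · exact B.intg (by fun_prop) _
  · exact B.intg (by fun_prop) _
  simp only [hX, hd, mul_pow, ← Finset.mul_sum]
  rw [Real.rpow_sub_one (pos _).ne']
  generalize (a.1 x ^ 2 + 1) ^ (p / 4) = w
  have hS : 0 ≤ ∑ i, (B.F.X i a).1 x ^ 2 := Finset.sum_nonneg fun i _ => sq_nonneg _
  generalize ∑ i, (B.F.X i a).1 x ^ 2 = S at hS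
  generalize a.1 x = t
  have h1 : t ^ 2 * (w / (t ^ 2 + 1)) ^ 2 ≤ w ^ 2 := by
    rw [div_pow, ← mul_div_assoc, div_le_iff₀ (by positivity)]
    have : t ^ 2 ≤ (t ^ 2 + 1) ^ 2 := by nlinarith [sq_nonneg t, sq_nonneg (t ^ 2)]
    nlinarith [mul_le_mul_of_nonneg_left this (sq_nonneg w)]
  have h2 : 1 ≤ p ^ 2 := by nlinarith
  have h3 := mul_le_mul_of_nonneg_left h1 (mul_nonneg (sq_nonneg p) hS)
  have h4 := mul_le_mul_of_nonneg_right h2 (sq_nonneg w)
  have h5 := mul_nonneg (mul_nonneg (sq_nonneg p) hS) (sq_nonneg w)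
  nlinarith

theorem Hk2_V : ∃ Λ : ℝ, ∀ a : B.A, B.nrm 2 a ≤ 1 →
    ∫ x, (1 + ∑ i, (B.F.X i a).1 x ^ 2) ^ (3 : ℝ) ∂B.μ ≤ Λ := by
  obtain ⟨C, C0, hC⟩ := B.Hk2_l6
  refine ⟨4 * (B.μ.real univ + (B.N : ℝ) ^ 2 * (B.N * C ^ 6)), fun a ha => ?_⟩
  have c2 := fun i => B.cont (B.F.X i a)
  have h1 : ∀ i, Integrable (fun x => (B.F.X i a).1 x ^ 6) B.μ := fun i =>
    B.intg ((B.cont _).pow 6) _
  have h2 : ∫ x, (1 + ∑ i, (B.F.X i a).1 x ^ 2) ^ (3 : ℝ) ∂B.μ ≤
      ∫ x, 4 * (1 + (B.N : ℝ) ^ 2 * ∑ i, (B.F.X i a).1 x ^ 6) ∂B.μ := by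
    simp only [Real.rpow_ofNat]
    refine integral_mono (B.intg (by fun_prop) _) (B.intg (by fun_prop) _) fun x => ?_
    have h3 := add_pow_le (zero_le_one' ℝ)
      (Finset.sum_nonneg fun i (_ : i ∈ Finset.univ) => sq_nonneg ((B.F.X i a).1 x)) 3
    have h4 := pow_sum_le_card_mul_sum_pow
      (fun i (_ : i ∈ Finset.univ) => sq_nonneg ((B.F.X i a).1 x)) 2
    simp only [← pow_mul, Finset.card_univ, Fintype.card_fin] at h4
    norm_num at h3 h4 ⊢
    linarith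
  refine h2.trans ?_
  rw [integral_const_mul, integral_add (integrable_const _)
    ((integrable_finsetSum _ fun i _ => h1 i).const_mul _), integral_const_mul,
    integral_finsetSum _ fun i _ => h1 i, integral_const, smul_eq_mul, mul_one]
  have h5 : ∑ i, ∫ x, (B.F.X i a).1 x ^ 6 ∂B.μ ≤ ∑ _i : Fin B.N, C ^ 6 :=
    Finset.sum_le_sum fun i _ => (hC _).trans (pow_le_pow_left₀
      (mul_nonneg C0.le (B.nrm_nonneg _ _))
      (mul_le_of_le_one_right C0.le ((B.nrm_X 1 i a).trans ha)) 6)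
  rw [Finset.sum_const, Finset.card_univ, Fintype.card_fin, nsmul_eq_mul] at h5
  gcongr

/-- `moser` with `s = 3`, `u = sqrt (a ^ 2 + k ^ 2)`, `k = nrm 2 a`,
`V = 1 + ∑ i, (X i a) ^ 2 / u ^ 2`; `sob` is applied to `u ^ (p / 2)`. -/
theorem sup_le : ∃ C, 0 < C ∧ ∀ (a : B.A) x, |a.1 x| ≤ C * B.nrm 2 a := by
  obtain ⟨C, hC⟩ := B.Hk2_rev
  obtain ⟨Λ, hΛ⟩ := B.Hk2_V
  obtain ⟨D, D0, hD⟩ := moser (s := 3) (by norm_num) C Λ
  have m0 : 0 ≤ B.μ.real univ := measureReal_nonneg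
  have key : ∀ a : B.A, B.nrm 2 a ≤ 1 → ∀ x, |a.1 x| ≤ D * Real.sqrt (1 + B.μ.real univ) := by
    intro a ha x
    have c1 := B.cont a
    have c2 := fun i => B.cont (B.F.X i a)
    have h := hD B.M B.μ (fun x => Real.sqrt (a.1 x ^ 2 + 1))
      (fun x => 1 + ∑ i, (B.F.X i a).1 x ^ 2) (by fun_prop) (by fun_prop)
      (fun x => by positivity) (fun x => by positivity) (hΛ a ha) (hC a) x
    refine (Real.abs_le_sqrt (by linarith)).trans (h.trans
      (mul_le_mul_of_nonneg_left (Real.sqrt_le_sqrt ?_) D0.le))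
    have e : ∀ x, Real.sqrt (a.1 x ^ 2 + 1) ^ 2 = a.1 x ^ 2 + 1 := fun x =>
      Real.sq_sqrt (by positivity)
    simp only [e]
    rw [integral_add (B.intg (by fun_prop) _) (integrable_const _), integral_const, smul_eq_mul,
      mul_one, ← B.nrm_zero_sq]
    have := pow_le_one₀ (n := 2) (B.nrm_nonneg 0 a) ((B.nrm_mono (by norm_num) a).trans ha)
    linarith
  refine ⟨D * Real.sqrt (1 + B.μ.real univ), by positivity, fun a x => ?_⟩
  rcases (B.nrm_nonneg 2 a).eq_or_lt with h0 | h0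
  · have : a = 0 := B.eq_zero_of_nrm (le_antisymm
      ((B.nrm_mono (by norm_num) a).trans h0.symm.le) (B.nrm_nonneg _ _))
    rw [← h0, this]
    simp
  have h := key ((B.nrm 2 a)⁻¹ • a) (by
    rw [B.nrm_smul, abs_of_pos (inv_pos.2 h0), inv_mul_cancel₀ h0.ne']) x
  have e : ((B.nrm 2 a)⁻¹ • a).1 x = (B.nrm 2 a)⁻¹ * a.1 x := rfl
  rwa [e, abs_mul, abs_of_pos (inv_pos.2 h0), inv_mul_le_iff₀ h0, mul_comm] at h

theorem Bd_of_nrm (k : ℕ) : ∃ C, 0 < C ∧ ∀ a, B.Bd k (C * B.nrm (k + 2) a) a := by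
  obtain ⟨C, C0, hC⟩ := B.sup_le
  refine ⟨C, C0, ?_⟩
  induction k with
  | zero => exact hC
  | succ k ih =>
    exact fun a => ⟨fun x => (hC a x).trans
      (mul_le_mul_of_nonneg_left (B.nrm_mono (by omega) a) C0.le),
      fun i => (ih _).mono le_rfl (mul_le_mul_of_nonneg_left (B.nrm_X _ i a) C0.le)⟩

theorem Hk2_step (j : ℕ) (a b : B.A) {K : ℝ} (h0 : B.nrm 0 (a * b) ≤ K)
    (h1 : ∀ i, B.nrm j (B.F.X i a * b) + B.nrm j (a * B.F.X i b) ≤ K) :
    B.nrm (j + 1) (a * b) ≤ (B.N + 1) * K := by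
  have h : ∑ i, B.nrm j (B.F.X i (a * b)) ≤ ∑ _i : Fin B.N, K := by
    refine Finset.sum_le_sum fun i _ => le_trans ?_ (h1 i)
    rw [Derivation.leibniz, smul_eq_mul, smul_eq_mul, add_comm, mul_comm b]
    exact B.nrm_add _ _ _
  rw [Finset.sum_const, Finset.card_univ, Fintype.card_fin, nsmul_eq_mul] at h
  have := B.nrm_succ_le j (a * b)
  linarith

theorem Hk2_m0 : ∃ C, 0 < C ∧ ∀ a b, B.nrm 0 (a * b) ≤ C * B.nrm 2 a * B.nrm 0 b := by
  obtain ⟨C, C0, hC⟩ := B.sup_le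
  refine ⟨C, C0, fun a b => B.nrm_zero_le (mul_nonneg C0.le (B.nrm_nonneg _ _)) fun x => ?_⟩
  rw [show (a * b).1 x = a.1 x * b.1 x from rfl, abs_mul]
  exact mul_le_mul_of_nonneg_right (hC a x) (abs_nonneg _)

theorem Hk2_m1 : ∃ C, 0 < C ∧ ∀ a b, B.nrm 1 (a * b) ≤ C * B.nrm 2 a * B.nrm 1 b := by
  obtain ⟨C, C0, hC⟩ := B.Hk2_m0
  obtain ⟨D, D0, hD⟩ := B.prod_b
  refine ⟨(B.N + 1) * (C + D), by positivity, fun a b => ?_⟩
  have n2 := B.nrm_nonneg 2 a
  have n1 := B.nrm_nonneg 1 b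
  have n0 := B.nrm_nonneg 0 b
  have hb := B.nrm_mono zero_le_one b
  rw [mul_assoc, mul_assoc]
  refine B.Hk2_step 0 a b ((hC a b).trans ?_) fun i => ?_
  · rw [mul_assoc]
    gcongr
    linarith
  · have h1 : Real.sqrt (B.nrm 1 b * B.nrm 0 b) ≤ B.nrm 1 b :=
      Real.sqrt_le_iff.2 ⟨n1, by rw [sq]; gcongr⟩
    have h2 : D * B.nrm 1 (B.F.X i a) * Real.sqrt (B.nrm 1 b * B.nrm 0 b) ≤
        D * B.nrm 2 a * B.nrm 1 b := by
      gcongr
      exact B.nrm_X 1 i a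
    have h3 : C * B.nrm 2 a * B.nrm 0 (B.F.X i b) ≤ C * B.nrm 2 a * B.nrm 1 b := by
      gcongr
      exact B.nrm_X 0 i b
    linarith [hD (B.F.X i a) b, hC a (B.F.X i b)]

theorem Hk2_m2 : ∃ C, 0 < C ∧ ∀ a b, B.nrm 2 (a * b) ≤ C * B.nrm 2 a * B.nrm 2 b := by
  obtain ⟨C, C0, hC⟩ := B.Hk2_m0
  obtain ⟨D, D0, hD⟩ := B.Hk2_m1
  refine ⟨(B.N + 1) * (C + 2 * D), by positivity, fun a b => ?_⟩
  have n2 := B.nrm_nonneg 2 a
  have n1 := B.nrm_nonneg 2 b
  have n0 := B.nrm_nonneg 0 b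
  have hb := B.nrm_mono (show 0 ≤ 2 by norm_num) b
  rw [mul_assoc, mul_assoc]
  refine B.Hk2_step 1 a b ((hC a b).trans ?_) fun i => ?_
  · rw [mul_assoc]
    gcongr
    linarith
  · have h2 : D * B.nrm 2 b * B.nrm 1 (B.F.X i a) ≤ D * B.nrm 2 b * B.nrm 2 a := by
      gcongr
      exact B.nrm_X 1 i a
    have h3 : D * B.nrm 2 a * B.nrm 1 (B.F.X i b) ≤ D * B.nrm 2 a * B.nrm 2 b := by
      gcongr
      exact B.nrm_X 1 i b
    have h4 := hD b (B.F.X i a)
    rw [mul_comm b] at h4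
    have h5 : 0 ≤ C * (B.nrm 2 a * B.nrm 2 b) := by positivity
    linarith [hD a (B.F.X i b)]

theorem Hk2_tame (k : ℕ) (h : ∃ C, 0 < C ∧ ∀ a b,
    B.nrm (k + 2) (a * b) ≤ C * B.nrm (k + 2) a * B.nrm (k + 2) b) :
    ∃ C, 0 < C ∧ ∀ a b, B.nrm (k + 3) (a * b) ≤
      C * (B.nrm (k + 3) a * B.nrm (k + 2) b + B.nrm (k + 2) a * B.nrm (k + 3) b) := by
  obtain ⟨C, C0, hC⟩ := B.Hk2_m0
  obtain ⟨D, D0, hD⟩ := h
  refine ⟨(B.N + 1) * (C + D), by positivity, fun a b => ?_⟩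
  have a2 := B.nrm_nonneg (k + 2) a
  have a3 := B.nrm_nonneg (k + 3) a
  have b2 := B.nrm_nonneg (k + 2) b
  have b3 := B.nrm_nonneg (k + 3) b
  have p1 := mul_nonneg a3 b2
  have p2 := mul_nonneg a2 b3
  rw [mul_assoc]
  refine B.Hk2_step (k + 2) a b ((hC a b).trans ?_) fun i => ?_
  · have h1 : C * B.nrm 2 a * B.nrm 0 b ≤ C * B.nrm (k + 3) a * B.nrm (k + 2) b := by
      have := B.nrm_nonneg 0 b
      gcongr
      · exact B.nrm_mono (by omega) a
      · exact B.nrm_mono (by omega) b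
    nlinarith [mul_nonneg C0.le p2, mul_nonneg D0.le p1, mul_nonneg D0.le p2]
  · have h2 : D * B.nrm (k + 2) (B.F.X i a) * B.nrm (k + 2) b ≤
        D * B.nrm (k + 3) a * B.nrm (k + 2) b := by
      gcongr
      exact B.nrm_X _ i a
    have h3 : D * B.nrm (k + 2) a * B.nrm (k + 2) (B.F.X i b) ≤
        D * B.nrm (k + 2) a * B.nrm (k + 3) b := by
      gcongr
      exact B.nrm_X _ i b
    linarith [hD (B.F.X i a) b, hD a (B.F.X i b), mul_nonneg C0.le p2, mul_nonneg C0.le p1]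

theorem Hk2_mul (k : ℕ) : ∃ C, 0 < C ∧ ∀ a b,
    B.nrm (k + 2) (a * b) ≤ C * B.nrm (k + 2) a * B.nrm (k + 2) b := by
  induction k with
  | zero => exact B.Hk2_m2
  | succ k ih =>
    obtain ⟨C, C0, hC⟩ := B.Hk2_tame k ih
    refine ⟨2 * C, by positivity, fun a b => (hC a b).trans ?_⟩
    have a3 := B.nrm_nonneg (k + 3) a
    have b3 := B.nrm_nonneg (k + 3) b
    have h1 := mul_le_mul_of_nonneg_left (B.nrm_mono (show k + 2 ≤ k + 3 by omega) b) a3
    have h2 := mul_le_mul_of_nonneg_right (B.nrm_mono (show k + 2 ≤ k + 3 by omega) a) b3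
    exact (mul_le_mul_of_nonneg_left (add_le_add h1 h2) C0.le).trans (le_of_eq (by ring))

theorem Hk2_join (k m m' : ℕ) (hm : m ≤ m')
    (h1 : ∃ C, 0 < C ∧ ∀ a, B.Mult k (C * B.nrm m a) a)
    (h2 : ∃ C, 0 < C ∧ ∀ a b, B.nrm (k + 1) (a * b) ≤ C * B.nrm m' a * B.nrm (k + 1) b) :
    ∃ C, 0 < C ∧ ∀ a, B.Mult (k + 1) (C * B.nrm m' a) a := by
  obtain ⟨C, C0, hC⟩ := h1
  obtain ⟨D, D0, hD⟩ := h2
  refine ⟨C + D, by positivity, fun a j hj b => ?_⟩
  have n1 := B.nrm_nonneg m a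
  have n2 := B.nrm_nonneg m' a
  have n3 := B.nrm_nonneg j b
  rcases hj.eq_or_lt with rfl | hj
  · refine (hD a b).trans ?_
    gcongr
    linarith
  · refine (hC a j (by omega) b).trans ?_
    gcongr
    · linarith
    · exact B.nrm_mono hm a

/-- Levels `j = 0, 1, 2` directly (`sup_le`, `prod_b`), then induction with the Leibniz rule. -/
theorem mult_of_nrm (k : ℕ) : ∃ C, 0 < C ∧ ∀ a, B.Mult (k + 2) (C * B.nrm (k + 2) a) a := by
  induction k with
  | zero =>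
    refine B.Hk2_join 1 2 2 le_rfl (B.Hk2_join 0 2 2 le_rfl ?_ B.Hk2_m1) B.Hk2_m2
    obtain ⟨C, C0, hC⟩ := B.Hk2_m0
    exact ⟨C, C0, fun a j hj b => by obtain rfl := Nat.le_zero.1 hj; exact hC a b⟩
  | succ k ih => exact B.Hk2_join (k + 2) (k + 2) (k + 3) (by omega) ih (B.Hk2_mul (k + 1))

theorem nrm_mul (k : ℕ) : ∃ C, 0 < C ∧ ∀ a b,
    B.nrm (k + 2) (a * b) ≤ C * B.nrm (k + 2) a * B.nrm (k + 2) b := B.Hk2_mul k
theorem nrm_mul_tame (k : ℕ) : ∃ C, 0 < C ∧ ∀ a b, B.nrm (k + 3) (a * b) ≤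
    C * (B.nrm (k + 3) a * B.nrm (k + 2) b + B.nrm (k + 2) a * B.nrm (k + 3) b) :=
  B.Hk2_tame k (B.Hk2_mul k)
theorem Mult.mono {B : Base} {j k : ℕ} {K K' : ℝ} {a : B.A} (h : B.Mult k K a) (hj : j ≤ k)
    (hK : K ≤ K') : B.Mult j K' a := fun i hi b =>
  (h i (hi.trans hj) b).trans (mul_le_mul_of_nonneg_right hK (B.nrm_nonneg _ _))

end Base

end Pool.Agent.MP_9bd639_gt.H88

end

-- part Hk3
section

/-! Families of functions: closure properties of the classes `UB`, `Tm`, `HB`, `SmC`. -/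

open Matrix MeasureTheory Filter Topology Set
open scoped ContDiff

namespace Pool.Agent.MP_9bd639_gt.H88

namespace Base

variable {B : Base} {κ : Type} {k : ℕ} {W : κ → ℝ} {a b : κ → B.A}

theorem Hk3_nonneg {K : ℝ} {c : B.A} (h : B.Bd k K c) : 0 ≤ K := by
  obtain ⟨x⟩ := B.nonempty
  cases k with
  | zero => exact (abs_nonneg _).trans (h x)
  | succ k => exact (abs_nonneg _).trans (h.1 x)

theorem Hk3_add : ∀ (k : ℕ) {K K' : ℝ} {c d : B.A}, B.Bd k K c → B.Bd k K' d →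
    B.Bd k (K + K') (c + d)
  | 0, _, _, _, _, hc, hd => fun x => (abs_add_le _ _).trans (add_le_add (hc x) (hd x))
  | k + 1, _, _, _, _, hc, hd =>
    ⟨fun x => (abs_add_le _ _).trans (add_le_add (hc.1 x) (hd.1 x)), fun i => by
      rw [map_add]; exact Hk3_add k (hc.2 i) (hd.2 i)⟩

theorem Hk3_mul : ∀ (k : ℕ) {K K' : ℝ} {c d : B.A}, B.Bd k K c → B.Bd k K' d →
    B.Bd k (2 ^ k * (K * K')) (c * d)
  | 0, K, K', c, d, hc, hd => fun x => by
    have h : |c.1 x * d.1 x| ≤ K * K' := by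
      rw [abs_mul]; exact mul_le_mul (hc x) (hd x) (abs_nonneg _) (Hk3_nonneg hc)
    simpa using h
  | k + 1, K, K', c, d, hc, hd => by
    have hK := Hk3_nonneg hc
    have hK' := Hk3_nonneg hd
    refine ⟨fun x => ?_, fun i => ?_⟩
    · have h : |c.1 x * d.1 x| ≤ K * K' := by
        rw [abs_mul]; exact mul_le_mul (hc.1 x) (hd.1 x) (abs_nonneg _) hK
      exact h.trans (le_mul_of_one_le_left (mul_nonneg hK hK') (one_le_pow₀ one_le_two))
    · have h1 := Hk3_mul k (hc.mono (Nat.le_succ k) le_rfl) (hd.2 i)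
      have h2 := Hk3_mul k (hd.mono (Nat.le_succ k) le_rfl) (hc.2 i)
      rw [Derivation.leibniz, smul_eq_mul, smul_eq_mul]
      exact (Hk3_add k h1 h2).mono le_rfl (le_of_eq (by ring))

theorem UB.add (ha : B.UB k a) (hb : B.UB k b) : B.UB k (a + b) :=
  let ⟨_, h⟩ := ha
  let ⟨_, h'⟩ := hb
  ⟨_, fun n => Hk3_add k (h n) (h' n)⟩
theorem UB.mul (ha : B.UB k a) (hb : B.UB k b) : B.UB k (a * b) :=
  let ⟨_, h⟩ := ha
  let ⟨_, h'⟩ := hb
  ⟨_, fun n => Hk3_mul k (h n) (h' n)⟩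
theorem UB.const (k : ℕ) (c : B.A) : B.UB k fun _ : κ => c :=
  let ⟨K, _, h⟩ := B.exists_Bd k c
  ⟨K, fun _ => h⟩
theorem UB.X (ha : B.UB (k + 1) a) (i : Fin B.N) : B.UB k fun n => B.F.X i (a n) :=
  let ⟨K, h⟩ := ha
  ⟨K, fun n => (h n).2 i⟩
theorem UB.succ (h0 : B.UB 0 a) (h : ∀ i, B.UB k fun n => B.F.X i (a n)) : B.UB (k + 1) a := by
  obtain ⟨K0, h0⟩ := h0
  choose K hK using h
  have hs : 0 ≤ ∑ i, |K i| := Finset.sum_nonneg fun i _ => abs_nonneg _
  refine ⟨|K0| + ∑ i, |K i|, fun n => ⟨fun x => ?_, fun i => (hK i n).mono le_rfl ?_⟩⟩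
  · have := h0 n x
    have := le_abs_self K0
    linarith
  · have h1 : |K i| ≤ ∑ i, |K i| :=
      Finset.single_le_sum (f := fun i => |K i|) (fun i _ => abs_nonneg _) (Finset.mem_univ i)
    have := le_abs_self (K i)
    have := abs_nonneg K0
    linarith
theorem UB.mono {j : ℕ} (ha : B.UB k a) (h : j ≤ k) : B.UB j a :=
  let ⟨K, hK⟩ := ha
  ⟨K, fun n => (hK n).mono h le_rfl⟩
theorem UB.HB (ha : B.UB k a) : B.HB k a := by
  obtain ⟨K, hK⟩ := ha
  obtain ⟨C, hC, h⟩ := B.nrm_of_Bd k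
  refine ⟨C * |K|, by positivity, fun n => ?_⟩
  rw [mul_one]
  exact h _ _ ((hK n).mono le_rfl (le_abs_self K))
theorem HB.UB (ha : B.HB (k + 2) a) : B.UB k a := by
  obtain ⟨K, _, hK⟩ := ha
  obtain ⟨C, hC, h⟩ := B.Bd_of_nrm k
  refine ⟨C * K, fun n => (h (a n)).mono le_rfl ?_⟩
  exact mul_le_mul_of_nonneg_left (by simpa using hK n) hC.le
theorem Tm.add (ha : B.Tm W k a) (hb : B.Tm W k b) (hW : ∀ n, 0 ≤ W n) : B.Tm W k (a + b) := by
  obtain ⟨K, h0, hK⟩ := ha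
  obtain ⟨K', h0', hK'⟩ := hb
  refine ⟨K + K', add_nonneg h0 h0', fun n => (B.nrm_add k (a n) (b n)).trans ?_⟩
  rw [add_mul]
  exact add_le_add (hK n) (hK' n)
theorem Tm.smul (ha : B.Tm W k a) (r : ℝ) : B.Tm W k (r • a) := by
  obtain ⟨K, h0, hK⟩ := ha
  refine ⟨|r| * K, by positivity, fun n => ?_⟩
  rw [Pi.smul_apply, B.nrm_smul, mul_assoc]
  exact mul_le_mul_of_nonneg_left (hK n) (abs_nonneg r)
theorem Tm.zero (hW : ∀ n, 0 ≤ W n) (k : ℕ) : B.Tm W k (0 : κ → B.A) :=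
  ⟨0, le_rfl, fun n => by rw [Pi.zero_apply, B.nrm_zero, zero_mul]⟩
theorem Tm.X (ha : B.Tm W (k + 1) a) (i : Fin B.N) : B.Tm W k fun n => B.F.X i (a n) :=
  let ⟨K, h0, hK⟩ := ha
  ⟨K, h0, fun n => (B.nrm_X k i (a n)).trans (hK n)⟩
theorem Tm.succ (h0 : B.Tm W 0 a) (h : ∀ i, B.Tm W k fun n => B.F.X i (a n))
    (hW : ∀ n, 0 ≤ W n) : B.Tm W (k + 1) a := by
  obtain ⟨K0, h00, h0⟩ := h0
  choose K hK0 hK using h
  refine ⟨K0 + ∑ i, K i, add_nonneg h00 (Finset.sum_nonneg fun i _ => hK0 i), fun n => ?_⟩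
  refine (B.nrm_succ_le k (a n)).trans ?_
  rw [add_mul, Finset.sum_mul]
  exact add_le_add (h0 n) (Finset.sum_le_sum fun i _ => hK i n)
theorem Tm.mono {j : ℕ} (ha : B.Tm W k a) (h : j ≤ k) : B.Tm W j a :=
  let ⟨K, h0, hK⟩ := ha
  ⟨K, h0, fun n => (B.nrm_mono h (a n)).trans (hK n)⟩
theorem Tm.weight {W' : κ → ℝ} (ha : B.Tm W k a) {C : ℝ} (hC : 0 ≤ C) (h : ∀ n, W n ≤ C * W' n) :
    B.Tm W' k a := by
  obtain ⟨K, h0, hK⟩ := ha
  refine ⟨K * C, mul_nonneg h0 hC, fun n => (hK n).trans ?_⟩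
  rw [mul_assoc]
  exact mul_le_mul_of_nonneg_left (h n) h0
theorem UB.mul_Tm (ha : B.UB k a) (hb : B.Tm W k b) : B.Tm W k (a * b) := by
  obtain ⟨K, hK⟩ := ha
  obtain ⟨K', h0', hK'⟩ := hb
  obtain ⟨C, hC, h⟩ := B.mult_of_Bd k
  refine ⟨C * |K| * K', by positivity, fun n => ?_⟩
  refine (h |K| (a n) ((hK n).mono le_rfl (le_abs_self K)) k le_rfl (b n)).trans ?_
  rw [mul_assoc (C * |K|)]
  exact mul_le_mul_of_nonneg_left (hK' n) (by positivity)
theorem HB.mul_Tm {j : ℕ} (ha : B.HB (k + 2) a) (hb : B.Tm W j b) (hj : j ≤ k + 2) :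
    B.Tm W j (a * b) := by
  obtain ⟨K, h0, hK⟩ := ha
  obtain ⟨K', h0', hK'⟩ := hb
  obtain ⟨C, hC, h⟩ := B.mult_of_nrm k
  refine ⟨C * K * K', by positivity, fun n => ?_⟩
  refine (h (a n) j hj (b n)).trans ?_
  rw [mul_assoc (C * K)]
  exact mul_le_mul (mul_le_mul_of_nonneg_left (by simpa using hK n) hC.le) (hK' n)
    (B.nrm_nonneg _ _) (by positivity)
theorem HB.const (k : ℕ) (c : B.A) : B.HB k fun _ : κ => c :=
  ⟨B.nrm k c, B.nrm_nonneg _ _, fun _ => by simp⟩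

theorem Hk3_deriv {Φ : ℝ → ℝ} {U : Set ℝ} (hU : IsOpen U) (hΦ : ContDiffOn ℝ ∞ Φ U) :
    ContDiffOn ℝ ∞ (deriv Φ) U := hΦ.deriv_of_isOpen hU (by simp)

theorem Hk3_X_comp {c d d' : B.A} {Φ : ℝ → ℝ} {U : Set ℝ} (hU : IsOpen U)
    (hΦ : ContDiffOn ℝ ∞ Φ U) (hr : ∀ x, c.1 x ∈ U) (hd : ∀ x, d.1 x = Φ (c.1 x))
    (hd' : ∀ x, d'.1 x = deriv Φ (c.1 x)) (i : Fin B.N) : B.F.X i d = d' * B.F.X i c := by
  refine Subtype.ext (funext fun x => ?_)
  rw [B.X_comp c d Φ (fun x => hΦ.contDiffAt (hU.mem_nhds (hr x))) hd i x, ← hd' x]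
  rfl

theorem Hk3_exists {c : B.A} {Φ : ℝ → ℝ} {U : Set ℝ} (hU : IsOpen U)
    (hΦ : ContDiffOn ℝ ∞ Φ U) (hr : ∀ x, c.1 x ∈ U) : ∃ d : B.A, ∀ x, d.1 x = Φ (c.1 x) :=
  ⟨B.cmp c Φ fun x => hΦ.contDiffAt (hU.mem_nhds (hr x)), fun _ => rfl⟩

theorem Hk3_prod (ha : B.HB 1 a) (hb : B.HB 1 b) : B.HB 0 (a * b) := by
  obtain ⟨K, h0, hK⟩ := ha
  obtain ⟨K', h0', hK'⟩ := hb
  obtain ⟨C, hC, h⟩ := B.prod_b
  refine ⟨C * K * K', by positivity, fun n => (h (a n) (b n)).trans ?_⟩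
  have h1 : B.nrm 1 (a n) ≤ K := by simpa using hK n
  have h2 : B.nrm 1 (b n) ≤ K' := by simpa using hK' n
  have h3 : B.nrm 0 (b n) ≤ K' := (B.nrm_mono zero_le_one _).trans h2
  have h4 : Real.sqrt (B.nrm 1 (b n) * B.nrm 0 (b n)) ≤ K' := by
    rw [Real.sqrt_le_left h0', sq]
    exact mul_le_mul h2 h3 (B.nrm_nonneg _ _) h0'
  rw [mul_one]
  exact mul_le_mul (mul_le_mul_of_nonneg_left h1 hC.le) h4 (Real.sqrt_nonneg _) (by positivity)

/-- Induction on `k` for all `Φ` at once: `X (Φ a) = Φ' a * X a`. -/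
theorem UB.comp (ha : B.UB k a) {Φ : ℝ → ℝ} {U K : Set ℝ} (hU : IsOpen U) (hK : IsCompact K)
    (hKU : K ⊆ U) (hΦ : ContDiffOn ℝ ∞ Φ U) (hr : ∀ n x, (a n).1 x ∈ K)
    (hb : ∀ n x, (b n).1 x = Φ ((a n).1 x)) : B.UB k b := by
  have h0 : ∀ {Φ : ℝ → ℝ} {b : κ → B.A}, ContDiffOn ℝ ∞ Φ U →
      (∀ n x, (b n).1 x = Φ ((a n).1 x)) → B.UB 0 b := by
    intro Φ b hΦ hb
    obtain ⟨C, hC⟩ := hK.exists_bound_of_continuousOn (hΦ.continuousOn.mono hKU)
    exact ⟨C, fun n x => by rw [hb]; exact hC _ (hr n x)⟩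
  induction k generalizing Φ b with
  | zero => exact h0 hΦ hb
  | succ k ih =>
    choose b' hb' using fun n => Hk3_exists hU (Hk3_deriv hU hΦ) fun x => hKU (hr n x)
    refine UB.succ (h0 hΦ hb) fun i => ?_
    have e : (fun n => B.F.X i (b n)) = b' * fun n => B.F.X i (a n) :=
      funext fun n => Hk3_X_comp hU hΦ (fun x => hKU (hr n x)) (hb n) (hb' n) i
    rw [e]
    exact (ih (ha.mono (Nat.le_succ k)) (Hk3_deriv hU hΦ) hb').mul (ha.X i)
theorem HB.comp (ha : B.HB (k + 2) a) {Φ : ℝ → ℝ} {U K : Set ℝ} (hU : IsOpen U) (hK : IsCompact K)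
    (hKU : K ⊆ U) (hΦ : ContDiffOn ℝ ∞ Φ U) (hr : ∀ n x, (a n).1 x ∈ K)
    (hb : ∀ n x, (b n).1 x = Φ ((a n).1 x)) : B.HB (k + 2) b := by
  have h1 : ∀ _ : κ, (0 : ℝ) ≤ 1 := fun _ => zero_le_one
  have ha0 : B.UB 0 a := ha.UB.mono (Nat.zero_le k)
  induction k generalizing Φ b with
  | zero =>
    choose b' hb' using fun n => Hk3_exists hU (Hk3_deriv hU hΦ) fun x => hKU (hr n x)
    choose b'' hb'' using fun n =>
      Hk3_exists hU (Hk3_deriv hU (Hk3_deriv hU hΦ)) fun x => hKU (hr n x)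
    have u1 : B.UB 0 b' := ha0.comp hU hK hKU (Hk3_deriv hU hΦ) hr hb'
    have u2 : B.UB 0 b'' := ha0.comp hU hK hKU (Hk3_deriv hU (Hk3_deriv hU hΦ)) hr hb''
    refine Tm.succ (ha0.comp hU hK hKU hΦ hr hb).HB (fun i => ?_) h1
    have e : (fun n => B.F.X i (b n)) = b' * fun n => B.F.X i (a n) :=
      funext fun n => Hk3_X_comp hU hΦ (fun x => hKU (hr n x)) (hb n) (hb' n) i
    rw [e]
    refine Tm.succ (u1.mul_Tm ((Tm.X ha i).mono zero_le_one)) (fun j => ?_) h1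
    have e2 : (fun n => B.F.X j ((b' * fun n => B.F.X i (a n)) n)) =
        (b' * fun n => B.F.X j (B.F.X i (a n))) +
          b'' * ((fun n => B.F.X i (a n)) * fun n => B.F.X j (a n)) := by
      funext n
      simp only [Pi.mul_apply, Pi.add_apply, Derivation.leibniz, smul_eq_mul]
      rw [Hk3_X_comp hU (Hk3_deriv hU hΦ) (fun x => hKU (hr n x)) (hb' n) (hb'' n) j]
      ring
    rw [e2]
    exact (u1.mul_Tm (Tm.X (Tm.X ha i) j)).add
      (u2.mul_Tm (Hk3_prod (Tm.X ha i) (Tm.X ha j))) h1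
  | succ k ih =>
    choose b' hb' using fun n => Hk3_exists hU (Hk3_deriv hU hΦ) fun x => hKU (hr n x)
    refine Tm.succ (ha0.comp hU hK hKU hΦ hr hb).HB (fun i => ?_) h1
    have e : (fun n => B.F.X i (b n)) = b' * fun n => B.F.X i (a n) :=
      funext fun n => Hk3_X_comp hU hΦ (fun x => hKU (hr n x)) (hb n) (hb' n) i
    rw [e]
    exact HB.mul_Tm (ih (Tm.mono ha (Nat.le_succ _)) (Hk3_deriv hU hΦ) hb') (Tm.X ha i) le_rfl

variable (B κ)

/-- The algebra of families bounded in `C ^ k`. -/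
def UBa (k : ℕ) : Subalgebra ℝ (κ → B.A) where
  carrier := {a | B.UB k a}
  mul_mem' ha hb := ha.mul hb
  add_mem' ha hb := ha.add hb
  algebraMap_mem' c := UB.const k (algebraMap ℝ B.A c)

/-- The algebra of families bounded in `H ^ (k + 2)`. -/
def HBa (k : ℕ) : Subalgebra ℝ (κ → B.A) where
  carrier := {a | B.HB (k + 2) a}
  mul_mem' ha hb := HB.mul_Tm ha hb le_rfl
  add_mem' ha hb := Tm.add ha hb fun _ => zero_le_one
  algebraMap_mem' c := HB.const (k + 2) (algebraMap ℝ B.A c)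

variable {B κ} {l : Filter κ} {u v : B.A}

/-- A smooth function as a continuous map. -/
def Hk3_toC (c : B.A) : C(B.M, ℝ) := ⟨c.1, B.cont c⟩

theorem Hk3_tend : TendstoUniformly (fun n => (a n).1) u.1 l ↔
    Tendsto (fun n => Hk3_toC (a n)) l (𝓝 (Hk3_toC u)) :=
  (ContinuousMap.tendsto_iff_tendstoUniformly (F := fun n => Hk3_toC (a n))
    (f := Hk3_toC u)).symm

/-- Convergence in `C ^ k`. -/
def Hk3_SmK (l : Filter κ) : ℕ → (κ → B.A) → B.A → Prop
  | 0, a, u => Tendsto (fun n => Hk3_toC (a n)) l (𝓝 (Hk3_toC u))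
  | k + 1, a, u => Tendsto (fun n => Hk3_toC (a n)) l (𝓝 (Hk3_toC u)) ∧
      ∀ i, Hk3_SmK l k (fun n => B.F.X i (a n)) (B.F.X i u)

theorem Hk3_SmK_iff : B.SmC l a u ↔ ∀ k, Hk3_SmK l k a u := by
  constructor
  · intro h k
    induction k generalizing a u with
    | zero => exact Hk3_tend.1 (h [])
    | succ k ih => exact ⟨Hk3_tend.1 (h []), fun i => ih fun w => h (i :: w)⟩
  · intro h w
    have h' := h w.length
    clear h
    induction w generalizing a u with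
    | nil => exact Hk3_tend.2 h'
    | cons i w ih => exact ih (h'.2 i)

theorem Hk3_SmK_zero (h : Hk3_SmK l k a u) : Hk3_SmK l 0 a u := by
  cases k with
  | zero => exact h
  | succ k => exact h.1

theorem Hk3_SmK_pred (h : Hk3_SmK l (k + 1) a u) : Hk3_SmK l k a u := by
  induction k generalizing a u with
  | zero => exact h.1
  | succ k ih => exact ⟨h.1, fun i => ih (h.2 i)⟩

theorem Hk3_SmK_congr (h : Hk3_SmK l k a u) (e : ∀ᶠ n in l, a n = b n) : Hk3_SmK l k b u := by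
  induction k generalizing a b u with
  | zero => exact Tendsto.congr' (e.mono fun n hn => by simp only [hn]) h
  | succ k ih =>
    exact ⟨Tendsto.congr' (e.mono fun n hn => by simp only [hn]) h.1,
      fun i => ih (h.2 i) (e.mono fun n hn => by simp only [hn])⟩

theorem Hk3_SmK_add (ha : Hk3_SmK l k a u) (hb : Hk3_SmK l k b v) :
    Hk3_SmK l k (a + b) (u + v) := by
  induction k generalizing a b u v with
  | zero => exact Tendsto.add ha hb
  | succ k ih =>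
    refine ⟨Tendsto.add ha.1 hb.1, fun i => ?_⟩
    rw [map_add]
    exact Hk3_SmK_congr (ih (ha.2 i) (hb.2 i)) (Eventually.of_forall fun n => by simp)

theorem Hk3_SmK_mul (ha : Hk3_SmK l k a u) (hb : Hk3_SmK l k b v) :
    Hk3_SmK l k (a * b) (u * v) := by
  induction k generalizing a b u v with
  | zero => exact Tendsto.mul ha hb
  | succ k ih =>
    refine ⟨Tendsto.mul ha.1 hb.1, fun i => ?_⟩
    rw [Derivation.leibniz, smul_eq_mul, smul_eq_mul]
    exact Hk3_SmK_congr (Hk3_SmK_add (ih (Hk3_SmK_pred ha) (hb.2 i))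
      (ih (Hk3_SmK_pred hb) (ha.2 i))) (Eventually.of_forall fun n => by simp)

theorem SmC.add (ha : B.SmC l a u) (hb : B.SmC l b v) : B.SmC l (a + b) (u + v) :=
  Hk3_SmK_iff.2 fun k => Hk3_SmK_add (Hk3_SmK_iff.1 ha k) (Hk3_SmK_iff.1 hb k)
theorem SmC.mul (ha : B.SmC l a u) (hb : B.SmC l b v) : B.SmC l (a * b) (u * v) :=
  Hk3_SmK_iff.2 fun k => Hk3_SmK_mul (Hk3_SmK_iff.1 ha k) (Hk3_SmK_iff.1 hb k)
theorem SmC.const (l : Filter κ) (c : B.A) : B.SmC l (fun _ => c) c :=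
  fun w => (Hk3_tend (a := fun _ => B.F.Xw w c)).2 tendsto_const_nhds
theorem SmC.smul {r : κ → ℝ} {s : ℝ} (hr : Tendsto r l (𝓝 s)) (ha : B.SmC l a u) :
    B.SmC l (fun n => r n • a n) (s • u) := by
  intro w
  simp only [Fr.Xw_rsmul]
  exact (Hk3_tend (a := fun n => r n • B.F.Xw w (a n))).2
    (hr.smul ((Hk3_tend (a := fun n => B.F.Xw w (a n))).1 (ha w)))
theorem SmC.X (ha : B.SmC l a u) (i : Fin B.N) :
    B.SmC l (fun n => B.F.X i (a n)) (B.F.X i u) := fun w => ha (i :: w)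
theorem SmC.unique [l.NeBot] (ha : B.SmC l a u) (hb : B.SmC l a v) : u = v := by
  have h := tendsto_nhds_unique (Hk3_tend.1 (ha [])) (Hk3_tend.1 (hb []))
  exact Subtype.ext (funext fun x => congrArg (fun f : C(B.M, ℝ) => f x) h)
theorem SmC.nrm (ha : B.SmC l a u) (k : ℕ) : Tendsto (fun n => B.nrm k (a n - u)) l (𝓝 0) := by
  have h0 : ∀ {a : κ → B.A} {u : B.A}, B.SmC l a u →
      Tendsto (fun n => B.nrm 0 (a n - u)) l (𝓝 0) := by
    intro a u ha
    obtain ⟨C, hC, h⟩ := B.nrm_of_Bd 0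
    have h1 := (tendsto_iff_norm_sub_tendsto_zero.1 (Hk3_tend.1 (ha []))).const_mul C
    rw [mul_zero] at h1
    refine squeeze_zero (fun n => B.nrm_nonneg _ _) (fun n => h _ _ fun x => ?_) h1
    exact (Hk3_toC (a n) - Hk3_toC u).norm_coe_le_norm x
  induction k generalizing a u with
  | zero => exact h0 ha
  | succ k ih =>
    have h1 := (h0 ha).add (tendsto_finsetSum Finset.univ fun i _ => ih (ha.X i))
    rw [Finset.sum_const_zero, add_zero] at h1
    refine squeeze_zero (fun n => B.nrm_nonneg _ _) (fun n => ?_) h1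
    simpa only [map_sub] using B.nrm_succ_le k (a n - u)
theorem SmC.of_nrm (h : ∀ k, Tendsto (fun n => B.nrm k (a n - u)) l (𝓝 0)) : B.SmC l a u := by
  intro w
  obtain ⟨C, hC, hb⟩ := B.Bd_of_nrm w.length
  have h1 := (h (w.length + 2)).const_mul C
  rw [mul_zero] at h1
  refine Metric.tendstoUniformly_iff.2 fun ε hε => ?_
  filter_upwards [h1.eventually (gt_mem_nhds hε)] with n hn x
  have h2 := (B.Bd_iff _ _ _).1 (hb (a n - u)) w le_rfl x
  rw [Fr.Xw_sub] at h2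
  rw [dist_comm, Real.dist_eq]
  exact lt_of_le_of_lt h2 hn
theorem SmC.eq_of_nrm [l.NeBot] (ha : B.SmC l a u) (hb : B.SmC l b v)
    (h : Tendsto (fun n => B.nrm 0 (a n - b n)) l (𝓝 0)) : u = v := by
  have h1 := (h.add (hb.nrm 0)).add (ha.nrm 0)
  rw [add_zero, add_zero] at h1
  have h2 : B.nrm 0 (u - v) ≤ 0 := by
    refine ge_of_tendsto' h1 fun n => ?_
    have e : u - v = a n - b n + (b n - v) - (a n - u) := by ring
    rw [e]
    exact (B.nrm_sub 0 _ _).trans (add_le_add (B.nrm_add 0 _ _) le_rfl)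
  exact sub_eq_zero.1 (B.eq_zero_of_nrm (le_antisymm h2 (B.nrm_nonneg _ _)))
theorem SmC.comp (ha : B.SmC l a u) {Φ : ℝ → ℝ} {U : Set ℝ} (hU : IsOpen U)
    (hΦ : ContDiffOn ℝ ∞ Φ U) (hr : ∀ x, u.1 x ∈ U)
    (hb : ∀ᶠ n in l, ∀ x, (b n).1 x = Φ ((a n).1 x)) (hv : ∀ x, v.1 x = Φ (u.1 x)) :
    B.SmC l b v := by
  have hc : IsCompact (range u.1) := isCompact_range (B.cont u)
  obtain ⟨δ, hδ, hδU⟩ := hc.exists_cthickening_subset_open hU (range_subset_iff.2 hr)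
  have hK : IsCompact (Metric.cthickening δ (range u.1)) := hc.cthickening
  have hu : ∀ x, u.1 x ∈ Metric.cthickening δ (range u.1) := fun x =>
    Metric.self_subset_cthickening _ (mem_range_self x)
  have hev : ∀ᶠ n in l, ∀ x, (a n).1 x ∈ Metric.cthickening δ (range u.1) := by
    filter_upwards [Metric.tendstoUniformly_iff.1 (ha []) δ hδ] with n hn x
    exact Metric.mem_cthickening_of_dist_le _ (u.1 x) δ _ (mem_range_self x)
      (by rw [dist_comm]; exact (hn x).le)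
  have h0 : ∀ {Φ : ℝ → ℝ} {b : κ → B.A} {v : B.A}, ContDiffOn ℝ ∞ Φ U →
      (∀ᶠ n in l, ∀ x, (b n).1 x = Φ ((a n).1 x)) → (∀ x, v.1 x = Φ (u.1 x)) →
      Hk3_SmK l 0 b v := by
    intro Φ b v hΦ hb hv
    have h1 := UniformContinuousOn.comp_tendstoUniformly_eventually hev hu
      (hK.uniformContinuousOn_of_continuous (hΦ.continuousOn.mono hδU)) (ha [])
    refine Hk3_tend.1 ?_
    rw [show v.1 = fun x => Φ (u.1 x) from funext hv]
    exact (tendstoUniformly_congr (hb.mono fun n hn => funext fun x => (hn x).symm)).1 h1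
  refine Hk3_SmK_iff.2 fun k => ?_
  induction k generalizing Φ b v with
  | zero => exact h0 hΦ hb hv
  | succ k ih =>
    refine ⟨h0 hΦ hb hv, fun i => ?_⟩
    have hex : ∀ n, ∃ d : B.A, (∀ x, (a n).1 x ∈ U) → ∀ x, d.1 x = deriv Φ ((a n).1 x) := by
      intro n
      by_cases hn : ∀ x, (a n).1 x ∈ U
      · obtain ⟨d, hd⟩ := Hk3_exists hU (Hk3_deriv hU hΦ) hn
        exact ⟨d, fun _ => hd⟩
      · exact ⟨0, fun h => absurd h hn⟩
    choose b' hb' using hex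
    obtain ⟨v', hv'⟩ := Hk3_exists hU (Hk3_deriv hU hΦ) hr
    have h1 : Hk3_SmK l k b' v' :=
      ih (Hk3_deriv hU hΦ) (hev.mono fun n hn => hb' n fun x => hδU (hn x)) hv'
    rw [Hk3_X_comp hU hΦ hr hv hv' i]
    refine Hk3_SmK_congr (Hk3_SmK_mul h1 (Hk3_SmK_iff.1 (ha.X i) k)) ?_
    filter_upwards [hev, hb] with n hn hn'
    exact (Hk3_X_comp hU hΦ (fun x => hδU (hn x)) hn' (hb' n fun x => hδU (hn x)) i).symm
theorem SmC.integral (ha : B.SmC l a u) (ν : Measure B.M) [IsFiniteMeasure ν] :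
    Tendsto (fun n => ∫ x, (a n).1 x ∂ν) l (𝓝 (∫ x, u.1 x ∂ν)) := by
  have h1 := (tendsto_iff_norm_sub_tendsto_zero.1 (Hk3_tend.1 (ha []))).mul_const (ν.real univ)
  rw [zero_mul] at h1
  refine tendsto_iff_norm_sub_tendsto_zero.2
    (squeeze_zero (fun n => norm_nonneg _) (fun n => ?_) h1)
  rw [← integral_sub (B.intg (B.cont _) ν) (B.intg (B.cont _) ν)]
  exact norm_integral_le_of_norm_le_const
    (Eventually.of_forall fun x => (Hk3_toC (a n) - Hk3_toC u).norm_coe_le_norm x)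
/-- `lim` together with `Bd_of_nrm`. -/
theorem exists_SmC (𝒰 : Ultrafilter κ) (h : ∀ k, ∃ C, ∀ᶠ n in (𝒰 : Filter κ), B.nrm k (a n) ≤ C) :
    ∃ u, B.SmC (𝒰 : Filter κ) a u := by
  refine B.lim κ 𝒰 a fun w => ?_
  obtain ⟨C, hC, hb⟩ := B.Bd_of_nrm w.length
  obtain ⟨K, hK⟩ := h (w.length + 2)
  refine ⟨C * K, hK.mono fun n hn x => ?_⟩
  exact ((B.Bd_iff _ _ _).1 (hb (a n)) w le_rfl x).trans (mul_le_mul_of_nonneg_left hn hC.le)

variable (B)

/-- Families (index `some n`) that converge smoothly to their last member (index `none`). -/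
def SmCa (l : Filter κ) : Subalgebra ℝ (Option κ → B.A) where
  carrier := {a | B.SmC l (fun n => a (some n)) (a none)}
  mul_mem' ha hb := SmC.mul ha hb
  add_mem' ha hb := SmC.add ha hb
  algebraMap_mem' c := SmC.const l (algebraMap ℝ B.A c)

end Base

end Pool.Agent.MP_9bd639_gt.H88

end

-- part Time
section

/-! The algebra of functions that are smooth in space and time, families of metrics, flows. -/

open Matrix MeasureTheory Filter Topology Set
open scoped ContDiff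

namespace Pool.Agent.MP_9bd639_gt.H88

namespace Base

variable {B : Base} {T : ℝ} [hT : Fact (0 < T)]

section Levels

variable {J : Type}

/-- `v` is the composition of the family `u` with the smooth function `Φ`. -/
def IsC (Φ : ℝ → ℝ) (u v : J → B.A) : Prop :=
  ∀ t x, ContDiffAt ℝ ∞ Φ ((u t).1 x) ∧ (v t).1 x = Φ ((u t).1 x)

theorem contDiffAt_deriv {Φ : ℝ → ℝ} {y : ℝ} (h : ContDiffAt ℝ ∞ Φ y) :
    ContDiffAt ℝ ∞ (deriv Φ) y :=
  (h.fderiv_right (m := ∞) (by simp)).clm_apply contDiffAt_const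

theorem IsC.ex {Φ : ℝ → ℝ} {u : J → B.A} (h : ∀ t x, ContDiffAt ℝ ∞ Φ ((u t).1 x)) :
    ∃ v, IsC Φ u v := ⟨fun t => B.cmp (u t) Φ (h t), fun t x => ⟨h t x, rfl⟩⟩

theorem IsC.der {Φ : ℝ → ℝ} {u v : J → B.A} (h : IsC Φ u v) : ∃ v', IsC (deriv Φ) u v' :=
  IsC.ex fun t x => contDiffAt_deriv (h t x).1

theorem IsC.X {Φ : ℝ → ℝ} {u v v' : J → B.A} (h : IsC Φ u v) (h' : IsC (deriv Φ) u v')
    (i : Fin B.N) : (fun t => B.F.X i (v t)) = v' * fun t => B.F.X i (u t) := by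
  ext t x
  rw [B.X_comp (u t) (v t) Φ (fun x => (h t x).1) (fun x => (h t x).2), ← (h' t x).2]
  rfl

/-- A relation between a family and its derivative that obeys the rules of calculus. -/
structure Cl (P : (J → B.A) → (J → B.A) → Prop) : Prop where
  add : ∀ {u u' v v'}, P u u' → P v v' → P (u + v) (u' + v')
  mul : ∀ {u u' v v'}, P u u' → P v v' → P (u * v) (u * v' + v * u')
  comp : ∀ {Φ u u' v v'}, P u u' → IsC Φ u v → IsC (deriv Φ) u v' → P v (v' * u')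

/-- The relation holds for all space derivatives of order at most `n`. -/
def Lv (P : (J → B.A) → (J → B.A) → Prop) (n : ℕ) (u u' : J → B.A) : Prop :=
  ∀ w : List (Fin B.N), w.length ≤ n → P (fun t => B.F.Xw w (u t)) fun t => B.F.Xw w (u' t)

variable {P : (J → B.A) → (J → B.A) → Prop} {n : ℕ} {u u' v v' : J → B.A}

theorem Lv.zero (h : Lv P n u u') : P u u' := h [] (by simp)

theorem Lv.mono (h : Lv P (n + 1) u u') : Lv P n u u' := fun w hw => h w (by omega)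

theorem Lv.X (h : Lv P (n + 1) u u') (i : Fin B.N) :
    Lv P n (fun t => B.F.X i (u t)) fun t => B.F.X i (u' t) :=
  fun w hw => h (i :: w) (by simpa using hw)

theorem Lv.of_zero (h : P u u') : Lv P 0 u u' := fun w hw => by
  obtain rfl : w = [] := List.length_eq_zero_iff.1 (by omega)
  exact h

theorem Lv.succ (h : P u u')
    (hX : ∀ i, Lv P n (fun t => B.F.X i (u t)) fun t => B.F.X i (u' t)) : Lv P (n + 1) u u'
  | [], _ => h
  | i :: w, hw => hX i w (by simpa using hw)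

theorem Lv.add (hP : Cl P) (h : Lv P n u u') (h' : Lv P n v v') : Lv P n (u + v) (u' + v') :=
  fun w hw => by
    simp only [Pi.add_apply, Fr.Xw_add]
    exact hP.add (h w hw) (h' w hw)

theorem Lv.mul (hP : Cl P) (h : Lv P n u u') (h' : Lv P n v v') :
    Lv P n (u * v) (u * v' + v * u') := by
  induction n generalizing u u' v v' with
  | zero => exact .of_zero (hP.mul h.zero h'.zero)
  | succ n ih =>
    refine .succ (hP.mul h.zero h'.zero) fun i => ?_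
    convert (ih (h.X i) h'.mono).add hP (ih h.mono (h'.X i)) using 1 <;> funext t <;>
      simp only [Pi.add_apply, Pi.mul_apply, map_add, Fr.X_mul]
    ring

theorem Lv.comp (hP : Cl P) {Φ : ℝ → ℝ} (h : Lv P n u u') (hv : IsC Φ u v)
    (hv' : IsC (deriv Φ) u v') : Lv P n v (v' * u') := by
  induction n generalizing Φ v v' with
  | zero => exact .of_zero (hP.comp h.zero hv hv')
  | succ n ih =>
    refine .succ (hP.comp h.zero hv hv') fun i => ?_
    obtain ⟨v'', hv''⟩ := hv'.der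
    convert (ih h.mono hv' hv'').mul hP (h.X i) using 1
    · exact hv.X hv' i
    · funext t
      simp only [Pi.add_apply, Pi.mul_apply, Fr.X_mul, congrFun (hv'.X hv'' i) t]
      ring

end Levels

omit hT in
theorem clC : Cl fun u _ : B.Pth T => Continuous fun p : Icc (0 : ℝ) T × B.M => (u p.1).1 p.2 where
  add h h' := h.add h'
  mul h h' := h.mul h'
  comp {Φ u _ v _} h hv _ := by
    rw [show (fun p : Icc (0 : ℝ) T × B.M => (v p.1).1 p.2) = fun p => Φ ((u p.1).1 p.2) from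
      funext fun p => (hv p.1 p.2).2]
    exact continuous_iff_continuousAt.2 fun p =>
      ContinuousAt.comp (g := Φ) (hv p.1 p.2).1.continuousAt h.continuousAt

theorem pj_coe (t : Icc (0 : ℝ) T) : pj T t = t := projIcc_val _ t

theorem pj_of_mem {t : ℝ} (ht : t ∈ Icc 0 T) : pj T t = ⟨t, ht⟩ := projIcc_of_mem _ ht

theorem clD : Cl fun u u' : B.Pth T => ∀ (t : Icc (0 : ℝ) T) x,
    HasDerivWithinAt (fun s => (u (pj T s)).1 x) ((u' t).1 x) (Icc 0 T) t where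
  add h h' t x := (h t x).add (h' t x)
  mul {u u' v v'} h h' t x := by
    refine ((h t x).mul (h' t x)).congr_deriv ?_
    rw [pj_coe]
    change _ = (u t).1 x * (v' t).1 x + (v t).1 x * (u' t).1 x
    ring
  comp {Φ u u' v v'} h hv hv' t x := by
    rw [show (fun s => (v (pj T s)).1 x) = fun s => Φ ((u (pj T s)).1 x) from
      funext fun s => (hv _ x).2]
    have h1 : HasDerivAt Φ ((v' t).1 x) ((u (pj T t)).1 x) := by
      rw [pj_coe, (hv' t x).2]
      exact ((hv t x).1.differentiableAt (by simp)).hasDerivAt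
    exact h1.comp_hasDerivWithinAt (t : ℝ) (h t x)

section
omit hT

theorem C0.add {u v : B.Pth T} (hu : C0 u) (hv : C0 v) : C0 (u + v) := fun w =>
  Lv.add (u' := 0) (v' := 0) clC (fun w _ => hu w) (fun w _ => hv w) w le_rfl

theorem C0.mul {u v : B.Pth T} (hu : C0 u) (hv : C0 v) : C0 (u * v) := fun w =>
  Lv.mul (u' := 0) (v' := 0) clC (fun w _ => hu w) (fun w _ => hv w) w le_rfl

theorem C0.comp {Φ : ℝ → ℝ} {u v : B.Pth T} (hu : C0 u) (hv : IsC Φ u v) : C0 v := fun w =>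
  Lv.comp (u' := 0) clC (fun w _ => hu w) hv hv.der.choose_spec w le_rfl

theorem C0.const (a : B.A) : C0 (fun _ : Icc (0 : ℝ) T => a) := fun _ =>
  (B.cont _).comp continuous_snd

theorem C0.X {u : B.Pth T} (hu : C0 u) (i : Fin B.N) : C0 fun t => B.F.X i (u t) :=
  fun w => hu (i :: w)

theorem C0.cont {u : B.Pth T} (hu : C0 u) :
    Continuous fun p : Icc (0 : ℝ) T × B.M => (u p.1).1 p.2 := hu []

theorem Xw_zero (w : List (Fin B.N)) : B.F.Xw w 0 = 0 := by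
  simpa using B.F.Xw_sub w 0 0

end

theorem TD.unique {u v w : B.Pth T} (h : TD u v) (h' : TD u w) : v = w := by
  ext t x
  exact (uniqueDiffOn_Icc hT.out t t.2).eq_deriv _ (h.2.2 [] t x) (h'.2.2 [] t x)

theorem TD.add {u u' v v' : B.Pth T} (h : TD u u') (h' : TD v v') : TD (u + v) (u' + v') :=
  ⟨h.1.add h'.1, h.2.1.add h'.2.1, fun w =>
    Lv.add clD (fun w _ => h.2.2 w) (fun w _ => h'.2.2 w) w le_rfl⟩

theorem TD.mul {u u' v v' : B.Pth T} (h : TD u u') (h' : TD v v') :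
    TD (u * v) (u * v' + v * u') :=
  ⟨h.1.mul h'.1, (h.1.mul h'.2.1).add (h'.1.mul h.2.1), fun w =>
    Lv.mul clD (fun w _ => h.2.2 w) (fun w _ => h'.2.2 w) w le_rfl⟩

theorem TD.comp {Φ : ℝ → ℝ} {u u' v v' : B.Pth T} (h : TD u u') (hv : IsC Φ u v)
    (hv' : IsC (deriv Φ) u v') : TD v (v' * u') :=
  ⟨h.1.comp hv, (h.1.comp hv').mul h.2.1, fun w =>
    Lv.comp clD (fun w _ => h.2.2 w) hv hv' w le_rfl⟩

theorem TD.const (a : B.A) : TD (fun _ : Icc (0 : ℝ) T => a) 0 :=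
  ⟨C0.const a, C0.const 0, fun w t x => by
    rw [Pi.zero_apply, Xw_zero]
    exact hasDerivWithinAt_const _ _ _⟩

theorem TD.X {u u' : B.Pth T} (h : TD u u') (i : Fin B.N) :
    TD (fun t => B.F.X i (u t)) fun t => B.F.X i (u' t) :=
  ⟨h.1.X i, h.2.1.X i, fun w => h.2.2 (i :: w)⟩

theorem Ck.c0 {k : ℕ} {u : B.Pth T} (hu : Ck k u) : C0 u := by
  cases k with
  | zero => exact hu
  | succ k => exact hu.choose_spec.1.1

theorem Ck.mono {k : ℕ} {u : B.Pth T} (hu : Ck (k + 1) u) : Ck k u := by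
  induction k generalizing u with
  | zero => exact hu.c0
  | succ k ih =>
    obtain ⟨u', h, h'⟩ := hu
    exact ⟨u', h, ih h'⟩

theorem Ck.add {k : ℕ} {u v : B.Pth T} (hu : Ck k u) (hv : Ck k v) : Ck k (u + v) := by
  induction k generalizing u v with
  | zero => exact C0.add hu hv
  | succ k ih =>
    obtain ⟨u', h, h'⟩ := hu
    obtain ⟨v', g, g'⟩ := hv
    exact ⟨_, h.add g, ih h' g'⟩

theorem Ck.mul {k : ℕ} {u v : B.Pth T} (hu : Ck k u) (hv : Ck k v) : Ck k (u * v) := by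
  induction k generalizing u v with
  | zero => exact C0.mul hu hv
  | succ k ih =>
    have hu0 := hu.mono
    have hv0 := hv.mono
    obtain ⟨u', h, h'⟩ := hu
    obtain ⟨v', g, g'⟩ := hv
    exact ⟨_, h.mul g, (ih hu0 g').add (ih hv0 h')⟩

theorem Ck.comp {k : ℕ} {Φ : ℝ → ℝ} {u v : B.Pth T} (hu : Ck k u) (hv : IsC Φ u v) : Ck k v := by
  induction k generalizing Φ v with
  | zero => exact C0.comp hu hv
  | succ k ih =>
    have hu0 := hu.mono
    obtain ⟨u', h, h'⟩ := hu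
    obtain ⟨v', hv'⟩ := hv.der
    exact ⟨_, h.comp hv hv', (ih hu0 hv').mul h'⟩

theorem Ck.const (k : ℕ) (a : B.A) : Ck k (fun _ : Icc (0 : ℝ) T => a) := by
  induction k generalizing a with
  | zero => exact C0.const a
  | succ k ih => exact ⟨0, TD.const a, ih 0⟩

theorem Ck.X {k : ℕ} {u : B.Pth T} (hu : Ck k u) (i : Fin B.N) :
    Ck k fun t => B.F.X i (u t) := by
  induction k generalizing u with
  | zero => exact C0.X hu i
  | succ k ih =>
    obtain ⟨u', h, h'⟩ := hu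
    exact ⟨_, h.X i, ih h'⟩

variable (B T)

/-- Functions on `[0, T] × M` that are smooth in space and time. -/
def AT : Subalgebra ℝ (B.Pth T) where
  carrier := {u | ∀ k, Ck k u}
  mul_mem' hu hv k := (hu k).mul (hv k)
  add_mem' hu hv k := (hu k).add (hv k)
  algebraMap_mem' c k := Ck.const k (algebraMap ℝ B.A c)

/-- A function that does not depend on time. -/
def cT : B.A →ₐ[ℝ] B.AT T where
  toFun a := ⟨fun _ => a, fun k => Ck.const k a⟩
  map_one' := rfl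
  map_mul' _ _ := rfl
  map_zero' := rfl
  map_add' _ _ := rfl
  commutes' _ := rfl

/-- The space derivatives. -/
def XT (i : Fin B.N) : Derivation ℝ (B.AT T) (B.AT T) where
  toFun u := ⟨fun t => B.F.X i (u.1 t), fun k => (u.2 k).X i⟩
  map_add' u v := Subtype.ext (funext fun t => map_add (B.F.X i) (u.1 t) (v.1 t))
  map_smul' c u := Subtype.ext (funext fun t => (B.F.X i).map_smul c (u.1 t))
  map_one_eq_zero' := Subtype.ext (funext fun _ => (B.F.X i).map_one_eq_zero)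
  leibniz' u v := Subtype.ext (funext fun t => (B.F.X i).leibniz (u.1 t) (v.1 t))

/-- The frame of the time dependent algebra. -/
def FT : Fr (Fin B.N) (B.AT T) where
  X := B.XT T
  f j := B.cT T (B.F.f j)
  symm i j := Subtype.ext (funext fun _ => B.F.symm i j)
  tang i a := Subtype.ext (funext fun t => by
    rw [AddSubmonoidClass.coe_finsetSum, Finset.sum_apply]
    exact B.F.tang i (a.1 t))
  brk i j a := Subtype.ext (funext fun t => by
    rw [AddSubmonoidClass.coe_finsetSum, Finset.sum_apply]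
    exact B.F.brk i j (a.1 t))
  tr3 := Subtype.ext (funext fun t => by
    rw [AddSubmonoidClass.coe_finsetSum, Finset.sum_apply]
    exact B.F.tr3)

/-- Evaluation at a time. -/
def evT (t : Icc (0 : ℝ) T) : Hom (B.FT T) B.F where
  φ := (Pi.evalAlgHom ℝ (fun _ : Icc (0 : ℝ) T => B.A) t).comp (B.AT T).val
  comm _ _ := rfl
  map_f _ := rfl

/-- The inclusion of the functions that do not depend on time. -/
def cH : Hom B.F (B.FT T) where
  φ := B.cT T
  comm _ _ := rfl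
  map_f _ := rfl

variable {B T}

theorem AT_deriv (u : B.AT T) : ∃ u' : B.AT T, TD u.1 u'.1 := by
  obtain ⟨u', h, -⟩ := u.2 1
  refine ⟨⟨u', fun k => ?_⟩, h⟩
  obtain ⟨v, g, g'⟩ := u.2 (k + 1)
  rwa [h.unique g]

theorem AT_deriv_eq {u v : B.AT T} (h : TD u.1 v.1) : (AT_deriv u).choose = v :=
  Subtype.ext ((AT_deriv u).choose_spec.unique h)

variable (B T)

/-- The time derivative. -/
noncomputable def DT : Dt (B.FT T) where
  D :=
    { toFun := fun u => (AT_deriv u).choose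
      map_add' := fun u v => AT_deriv_eq ((AT_deriv u).choose_spec.add (AT_deriv v).choose_spec)
      map_smul' := fun c u => AT_deriv_eq (by
        convert (TD.const (algebraMap ℝ B.A c)).mul (AT_deriv u).choose_spec using 1 <;>
          funext t <;> simp [Algebra.smul_def])
      map_one_eq_zero' := AT_deriv_eq (TD.const 1)
      leibniz' := fun u v => AT_deriv_eq ((AT_deriv u).choose_spec.mul (AT_deriv v).choose_spec) }
  comm i u := AT_deriv_eq ((AT_deriv u).choose_spec.X i)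
  Df j := AT_deriv_eq (TD.const (B.F.f j))

/-- A smooth family of metrics. -/
structure Fam where
  m : Met (B.FT T)
  pos : ∀ t, Pos (B := B) (m.map (B.evT T t))

/-- A Ricci flow. -/
structure Flow extends Fam B T where
  eq : (B.DT T).M m.G = m.kf m.S

variable {B T}

/-- The time derivative of an element of the time dependent algebra. -/
noncomputable def D (u : B.AT T) : B.AT T := (B.DT T).D u

/-- The value at the time `s` (projected to the interval) and the point `x`. -/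
noncomputable def vl (u : B.AT T) (s : ℝ) (x : B.M) : ℝ := (u.1 (pj T s)).1 x

/-- The metric at the time `s`. -/
noncomputable def Fam.at (Φ : Fam B T) (s : ℝ) : B.Me := Φ.m.map (B.evT T (pj T s))

/-- The integral at the time `s`. -/
noncomputable def Fam.I (Φ : Fam B T) (u : B.AT T) (s : ℝ) : ℝ := Base.I (Φ.at s) (u.1 (pj T s))

end Base

end Pool.Agent.MP_9bd639_gt.H88

end

-- part Tm2
section

/-! Paths of smooth functions: closure properties, criteria for differentiability, the bootstrap,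
restriction and gluing, construction of flows. -/

open Matrix MeasureTheory Filter Topology Set
open scoped ContDiff

namespace Pool.Agent.MP_9bd639_gt.H88

theorem Tm2_det_mem {ι : Type} [Fintype ι] [DecidableEq ι] {A : Type} [CommRing A] [Algebra ℝ A]
    (S : Subalgebra ℝ A) {T : Matrix ι ι A} (h : ∀ i j, T i j ∈ S) :
    T.det ∈ S ∧ ∀ i j, T.adjugate i j ∈ S := by
  have e : T = S.val.mapMatrix (of fun i j => ⟨T i j, h i j⟩) := rfl
  rw [e, ← AlgHom.map_det, ← AlgHom.map_adjugate]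
  exact ⟨Subtype.property _, fun i j => Subtype.property _⟩

/-- If the subalgebra contains the metric and the inverse of its determinant, it contains the
inverse metric. -/
theorem Met.γ_mem {ι : Type} [Fintype ι] [DecidableEq ι] {A : Type} [CommRing A] [Algebra ℝ A]
    {F : Fr ι A} (m : Met F) {S : Subalgebra ℝ A} (hπ : ∀ i j, F.π i j ∈ S)
    (hG : ∀ i j, m.G i j ∈ S) (hinv : ∀ b, m.ext.det ∈ S → m.ext.det * b = 1 → b ∈ S) (i j : ι) :
    m.γ i j ∈ S := by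
  have h1 : ∀ i j, (1 : Matrix ι ι A) i j ∈ S := fun i j => by
    rw [one_apply]
    split_ifs
    exacts [S.one_mem, S.zero_mem]
  obtain ⟨hd, ha⟩ := Tm2_det_mem S (T := m.ext)
    fun i j => S.sub_mem (S.add_mem (hG i j) (h1 i j)) (hπ i j)
  have e1 : m.ext.det * (m.γ + 1 - F.π).det = 1 := by rw [← det_mul, m.ext_inv, det_one]
  have e2 : m.γ + 1 - F.π = (m.γ + 1 - F.π).det • m.ext.adjugate := by
    calc m.γ + 1 - F.π = (m.γ + 1 - F.π).det • (m.ext.adjugate * m.ext * (m.γ + 1 - F.π)) := by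
          rw [adjugate_mul, smul_mul_assoc, smul_smul, mul_comm, e1, one_smul, Matrix.one_mul]
      _ = _ := by rw [Matrix.mul_assoc, m.ext_inv, Matrix.mul_one]
  have e3 : m.γ i j =
      (m.γ + 1 - F.π).det * m.ext.adjugate i j - (1 : Matrix ι ι A) i j + F.π i j := by
    have : m.γ i j + (1 : Matrix ι ι A) i j - F.π i j = _ * m.ext.adjugate i j :=
      congrFun (congrFun e2 i) j
    rw [← this]
    ring
  rw [e3]
  exact S.add_mem (S.sub_mem (S.mul_mem (hinv _ hd e1) (ha i j)) (h1 i j)) (hπ i j)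

namespace Base

variable {B : Base} {T : ℝ} [hT : Fact (0 < T)]

variable (B T) in
/-- Paths with `k` time derivatives. -/
def CkS (k : ℕ) : Subalgebra ℝ (B.Pth T) where
  carrier := {u | Ck k u}
  mul_mem' hu hv := hu.mul hv
  add_mem' hu hv := hu.add hv
  algebraMap_mem' c := Ck.const k (algebraMap ℝ B.A c)

theorem mem_CkS {k : ℕ} {u : B.Pth T} : u ∈ B.CkS T k ↔ Ck k u := Iff.rfl

theorem mem_AT {u : B.Pth T} : u ∈ B.AT T ↔ ∀ k, Ck k u := Iff.rfl

theorem isC_inv {J : Type} {u v : J → B.A} (h : u * v = 1) : IsC (fun y => y⁻¹) u v := fun t x => by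
  have e : (u t).1 x * (v t).1 x = 1 := congrFun (congrArg Subtype.val (congrFun h t)) x
  exact ⟨contDiffAt_inv ℝ (left_ne_zero_of_mul_eq_one e), eq_inv_of_mul_eq_one_right e⟩

theorem Ck.inv {k : ℕ} {u v : B.Pth T} (hu : Ck k u) (h : u * v = 1) : Ck k v :=
  hu.comp (isC_inv h)

theorem TD.smul {u u' : B.Pth T} (h : TD u u') (c : ℝ) : TD (c • u) (c • u') := by
  convert (TD.const (algebraMap ℝ B.A c)).mul h using 1 <;> funext t <;> simp [Algebra.smul_def]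

theorem TD.neg {u u' : B.Pth T} (h : TD u u') : TD (-u) (-u') := by
  convert h.smul (-1) using 1 <;> exact (neg_one_smul ℝ _).symm

theorem TD.sub {u u' v v' : B.Pth T} (h : TD u u') (h' : TD v v') : TD (u - v) (u' - v') := by
  simpa only [sub_eq_add_neg] using h.add h'.neg

/-- A family of metrics whose coefficients have `k` time derivatives. -/
theorem stab_CkS {k : ℕ} (mm : Icc (0 : ℝ) T → B.Me) (hG : ∀ i j, Ck k fun t => (mm t).G i j) :
    (Met.pi mm).Stab (B.CkS T k) where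
  X i _ ha := Ck.X ha i
  f _ := Ck.const k _
  G := hG
  γ := (Met.pi mm).γ_mem (fun i j => Ck.const k (B.F.π i j)) hG fun _ hd h => Ck.inv hd h

/-- The bootstrap in time for a system of evolution equations. -/
theorem boot {κ : Type} {u Φ : κ → B.Pth T} (hd : ∀ j, TD (u j) (Φ j))
    (hΦ : ∀ k, (∀ j, Ck k (u j)) → ∀ j, Ck k (Φ j)) (k : ℕ) : ∀ j, Ck k (u j) := by
  induction k with
  | zero => exact fun j => (hd j).1
  | succ k ih => exact fun j => ⟨Φ j, hd j, hΦ k ih j⟩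

omit hT in
/-- Paths that are Lipschitz in time, with all space derivatives. -/
theorem C0.of_lip {u : B.Pth T} (h : ∀ w, ∃ C : ℝ, ∀ (s t : Icc (0 : ℝ) T) x, s ≤ t →
    |(B.F.Xw w (u t - u s)).1 x| ≤ C * (t - s)) : C0 u := fun w => by
  obtain ⟨C, hC⟩ := h w
  have hC' : ∀ (s t : Icc (0 : ℝ) T) x,
      |(B.F.Xw w (u s)).1 x - (B.F.Xw w (u t)).1 x| ≤ C * |(s : ℝ) - t| := fun s t x => by
    rcases le_total s t with hst | hst
    · have := hC s t x hst
      rw [Fr.Xw_sub] at this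
      rw [abs_sub_comm, abs_sub_comm (s : ℝ), abs_of_nonneg (a := (t : ℝ) - s) (sub_nonneg.2 hst)]
      exact this
    · have := hC t s x hst
      rw [Fr.Xw_sub] at this
      rw [abs_of_nonneg (a := (s : ℝ) - t) (sub_nonneg.2 hst)]
      exact this
  refine continuous_iff_continuousAt.2 fun p => ?_
  have h1 : Tendsto (fun q : Icc (0 : ℝ) T × B.M =>
      (B.F.Xw w (u q.1)).1 q.2 - (B.F.Xw w (u p.1)).1 q.2) (𝓝 p) (𝓝 0) := by
    refine squeeze_zero_norm (fun q => hC' q.1 p.1 q.2) ?_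
    have : Continuous fun q : Icc (0 : ℝ) T × B.M => C * |(q.1 : ℝ) - p.1| := by fun_prop
    simpa using this.tendsto p
  simpa [ContinuousAt] using h1.add (((B.cont (B.F.Xw w (u p.1))).comp continuous_snd).tendsto p)

/-- A quadratic remainder gives the time derivative. -/
theorem TD.of_quad {u u' : B.Pth T}
    (h' : ∀ w, ∃ C : ℝ, ∀ (s t : Icc (0 : ℝ) T) x, s ≤ t →
      |(B.F.Xw w (u' t - u' s)).1 x| ≤ C * (t - s))
    (h : ∀ w, ∃ C : ℝ, ∀ (s t : Icc (0 : ℝ) T) x, s ≤ t →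
      |(B.F.Xw w (u t - u s - ((t : ℝ) - s) • u' s)).1 x| ≤ C * (t - s) ^ 2) : TD u u' := by
  have c' := C0.of_lip h'
  have e : ∀ w (s t : Icc (0 : ℝ) T) x, (B.F.Xw w (u t - u s - ((t : ℝ) - s) • u' s)).1 x =
      (B.F.Xw w (u t)).1 x - (B.F.Xw w (u s)).1 x - ((t : ℝ) - s) * (B.F.Xw w (u' s)).1 x :=
    fun w s t x => by rw [Fr.Xw_sub, Fr.Xw_sub, Fr.Xw_rsmul]; rfl
  refine ⟨C0.of_lip fun w => ?_, c', fun w t x => ?_⟩
  · obtain ⟨C, hC⟩ := h w
    obtain ⟨K, hK⟩ := (isCompact_range (c' w).abs).bddAbove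
    refine ⟨|C| * T + K, fun s t x hst => ?_⟩
    have h1 := hC s t x hst
    have h2 : |(B.F.Xw w (u' s)).1 x| ≤ K := hK ⟨(s, x), rfl⟩
    have h3 : (0 : ℝ) ≤ t - s := sub_nonneg.2 hst
    have h4 : (t : ℝ) - s ≤ T := by linarith [t.2.2, s.2.1]
    rw [e] at h1
    rw [Fr.Xw_sub]
    change |(B.F.Xw w (u t)).1 x - (B.F.Xw w (u s)).1 x| ≤ _
    have h5 : C * (t - s) ^ 2 ≤ |C| * T * (t - s) := by
      rw [sq, ← mul_assoc]
      gcongr
      exact le_abs_self C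
    have h6 : |((t : ℝ) - s) * (B.F.Xw w (u' s)).1 x| ≤ K * (t - s) := by
      rw [abs_mul, abs_of_nonneg h3, mul_comm]
      gcongr
    have := abs_add_le ((B.F.Xw w (u t)).1 x - (B.F.Xw w (u s)).1 x -
      ((t : ℝ) - s) * (B.F.Xw w (u' s)).1 x) (((t : ℝ) - s) * (B.F.Xw w (u' s)).1 x)
    rw [sub_add_cancel] at this
    linarith
  · obtain ⟨C, hC⟩ := h w
    obtain ⟨C', hC'⟩ := h' w
    rw [hasDerivWithinAt_iff_isLittleO]
    refine (Asymptotics.IsBigO.of_bound (g := fun s : ℝ => ‖s - t‖ ^ 2) (|C| + |C'|) ?_).trans_isLittleO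
      ((Asymptotics.isLittleO_pow_sub_sub (t : ℝ) one_lt_two).mono nhdsWithin_le_nhds)
    refine eventually_nhdsWithin_of_forall fun s hs => ?_
    rw [pj_coe, pj_of_mem hs, smul_eq_mul, Real.norm_eq_abs, Real.norm_eq_abs, Real.norm_eq_abs,
      sq_abs, abs_sq]
    have a1 := mul_le_mul_of_nonneg_right (le_abs_self C) (sq_nonneg (s - t))
    have a2 := mul_le_mul_of_nonneg_right (le_abs_self C') (sq_nonneg (s - t))
    have a3 := mul_nonneg (abs_nonneg C') (sq_nonneg (s - t))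
    rcases le_total t ⟨s, hs⟩ with hst | hst
    · have h1 := hC t _ x hst
      rw [e] at h1
      linarith
    · have h1 := hC _ t x hst
      have h2 := hC' _ t x hst
      have h3 : (0 : ℝ) ≤ t - s := sub_nonneg.2 hst
      rw [e] at h1
      rw [Fr.Xw_sub] at h2
      change |(B.F.Xw w (u' t)).1 x - (B.F.Xw w (u' ⟨s, hs⟩)).1 x| ≤ C' * (t - s) at h2
      have h4 := mul_le_mul_of_nonneg_left h2 h3
      rw [← abs_of_nonneg h3, ← abs_mul, abs_of_nonneg h3] at h4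
      rw [abs_le] at h1 h4 ⊢
      constructor <;> nlinarith [h1.1, h1.2, h4.1, h4.2]

/-! Restriction and gluing. -/

omit hT in
/-- A continuous change of the time variable. -/
theorem C0.reparam {T' : ℝ} {u : B.Pth T} (hu : C0 u) {f : Icc (0 : ℝ) T' → Icc (0 : ℝ) T}
    (hf : Continuous f) : C0 fun t => u (f t) := fun w =>
  (hu w).comp ((hf.comp continuous_fst).prodMk continuous_snd)

theorem cont_pj : Continuous (pj T) := continuous_projIcc (h := hT.out.le)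

omit hT in
theorem C0.restrict {T' : ℝ} (h : T' ≤ T) {u : B.Pth T} (hu : C0 u) :
    C0 fun t : Icc (0 : ℝ) T' => u (inclusion (Icc_subset_Icc_right h) t) :=
  hu.reparam (continuous_inclusion _)

theorem TD.restrict {T' : ℝ} [Fact (0 < T')] (h : T' ≤ T) {u u' : B.Pth T} (hu : TD u u') :
    TD (fun t : Icc (0 : ℝ) T' => u (inclusion (Icc_subset_Icc_right h) t))
      fun t => u' (inclusion (Icc_subset_Icc_right h) t) :=
  ⟨hu.1.restrict h, hu.2.1.restrict h, fun w t x =>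
    ((hu.2.2 w (inclusion (Icc_subset_Icc_right h) t) x).mono (Icc_subset_Icc_right h)).congr_of_mem
      (fun s hs => by rw [pj_of_mem hs, pj_of_mem (Icc_subset_Icc_right h hs)]) t.2⟩

section Glue

variable {T₁ T₂ : ℝ} [h₁ : Fact (0 < T₁)] [h₂ : Fact (0 < T₂)]

/-- One path followed by another one. -/
noncomputable def glue {α : Type} (u : Icc (0 : ℝ) T₁ → α) (v : Icc (0 : ℝ) T₂ → α) (s : ℝ) : α :=
  if s ≤ T₁ then u (pj T₁ s) else v (pj T₂ (s - T₁))

theorem glue_left {α : Type} (u : Icc (0 : ℝ) T₁ → α) (v : Icc (0 : ℝ) T₂ → α) {s : ℝ}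
    (hs : s ≤ T₁) : glue u v s = u (pj T₁ s) := if_pos hs

theorem glue_right {α : Type} {u : Icc (0 : ℝ) T₁ → α} {v : Icc (0 : ℝ) T₂ → α}
    (h : u (pj T₁ T₁) = v (pj T₂ 0)) {s : ℝ} (hs : T₁ ≤ s) : glue u v s = v (pj T₂ (s - T₁)) := by
  rcases hs.eq_or_lt with rfl | hs
  · rw [glue_left _ _ le_rfl, h, sub_self]
  · exact if_neg hs.not_ge

theorem glue_comp {α β : Type} (f : α → β) (u : Icc (0 : ℝ) T₁ → α) (v : Icc (0 : ℝ) T₂ → α)
    (s : ℝ) : f (glue u v s) = glue (fun t => f (u t)) (fun t => f (v t)) s := apply_ite f _ _ _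

omit hT in
theorem C0.glue {u : B.Pth T₁} {v : B.Pth T₂} (hu : C0 u) (hv : C0 v)
    (h : u (pj T₁ T₁) = v (pj T₂ 0)) : C0 fun t : Icc (0 : ℝ) T => glue u v t := fun w => by
  have e : (fun p : Icc (0 : ℝ) T × B.M => (B.F.Xw w (Base.glue u v p.1)).1 p.2) = fun p =>
      if (p.1 : ℝ) ≤ T₁ then (B.F.Xw w (u (pj T₁ p.1))).1 p.2
      else (B.F.Xw w (v (pj T₂ (p.1 - T₁)))).1 p.2 :=
    funext fun p => glue_comp (fun a => (B.F.Xw w a).1 p.2) u v p.1
  rw [e]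
  refine Continuous.if_le
    (hu.reparam (f := fun t : Icc (0 : ℝ) T => pj T₁ t) (cont_pj.comp (by fun_prop)) w)
    (hv.reparam (f := fun t : Icc (0 : ℝ) T => pj T₂ (t - T₁)) (cont_pj.comp (by fun_prop)) w)
    (by fun_prop) continuous_const fun p hp => ?_
  rw [hp, h, sub_self]

theorem TD.glue {u u' : B.Pth T₁} {v v' : B.Pth T₂} (hu : TD u u') (hv : TD v v')
    (h : u (pj T₁ T₁) = v (pj T₂ 0)) (h' : u' (pj T₁ T₁) = v' (pj T₂ 0)) (hle : T ≤ T₁ + T₂) :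
    TD (fun t : Icc (0 : ℝ) T => glue u v t) fun t => glue u' v' t := by
  refine ⟨hu.1.glue hv.1 h, hu.2.1.glue hv.2.1 h', fun w t x => ?_⟩
  have e1 : HasDerivWithinAt (fun s => (B.F.Xw w (Base.glue u v s)).1 x)
      ((B.F.Xw w (Base.glue u' v' t)).1 x) (Icc 0 T₁) t := by
    by_cases ht : (t : ℝ) ∈ Icc 0 T₁
    · rw [glue_left _ _ ht.2, pj_of_mem ht]
      exact (hu.2.2 w ⟨t, ht⟩ x).congr_of_mem (fun s hs => by rw [glue_left _ _ hs.2]) ht
    · exact HasFDerivWithinAt.of_notMem_closure (by rwa [closure_Icc])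
  have e2 : HasDerivWithinAt (fun s => (B.F.Xw w (Base.glue u v s)).1 x)
      ((B.F.Xw w (Base.glue u' v' t)).1 x) (Icc T₁ (T₁ + T₂)) t := by
    by_cases ht : (t : ℝ) ∈ Icc T₁ (T₁ + T₂)
    · have ht' : (t : ℝ) - T₁ ∈ Icc 0 T₂ := ⟨by linarith [ht.1], by linarith [ht.2]⟩
      rw [glue_right h' ht.1, pj_of_mem ht']
      have := HasDerivWithinAt.comp (t : ℝ) (h := fun s => s - T₁) (hv.2.2 w ⟨_, ht'⟩ x)
        ((hasDerivAt_id (t : ℝ)).sub_const T₁).hasDerivWithinAt (s := Icc T₁ (T₁ + T₂))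
        (fun s hs => ⟨by linarith [hs.1], by linarith [hs.2]⟩)
      rw [mul_one] at this
      exact this.congr_of_mem (fun s hs => by rw [glue_right h hs.1]; rfl) ht
    · exact HasFDerivWithinAt.of_notMem_closure (by rwa [closure_Icc])
  refine ((e1.union e2).mono fun s hs => ?_).congr_of_mem (fun s hs => by rw [pj_of_mem hs]) t.2
  rcases le_total s T₁ with h3 | h3
  exacts [Or.inl ⟨hs.1, h3⟩, Or.inr ⟨h3, hs.2.trans hle⟩]

end Glue

/-! The time derivative on the algebra `AT`. -/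

theorem TD_D (u : B.AT T) : TD u.1 (D u).1 := (AT_deriv u).choose_spec

theorem D_eq {u v : B.AT T} (h : TD u.1 v.1) : D u = v := AT_deriv_eq h

theorem D_def (u : B.AT T) : (B.DT T).D u = D u := rfl

theorem vl_coe (u : B.AT T) (t : Icc (0 : ℝ) T) (x : B.M) : vl u t x = (u.1 t).1 x := by
  rw [vl, pj_coe]

theorem hd_vl (u : B.AT T) (x : B.M) :
    ∀ t ∈ Icc 0 T, HasDerivWithinAt (fun s => vl u s x) (vl (D u) t x) (Icc 0 T) t := fun t ht => by
  rw [vl, pj_of_mem ht]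
  exact (TD_D u).2.2 [] ⟨t, ht⟩ x

theorem cont_vl (u : B.AT T) : Continuous fun p : Icc (0 : ℝ) T × B.M => vl u p.1 p.2 := by
  simp only [vl_coe]
  exact C0.cont (u.2 0)

theorem AT_bdd (u : B.AT T) : ∃ C, 0 < C ∧ ∀ t x, |(u.1 t).1 x| ≤ C := by
  obtain ⟨K, hK⟩ := (isCompact_range (C0.cont (u.2 0)).abs).bddAbove
  exact ⟨|K| + 1, by positivity, fun t x =>
    (hK ⟨(t, x), rfl⟩).trans (by linarith [le_abs_self K])⟩

theorem AT_pos {u : B.AT T} (h : ∀ t x, 0 < (u.1 t).1 x) : ∃ c, 0 < c ∧ ∀ t x, c ≤ (u.1 t).1 x := by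
  have : Nonempty (Icc (0 : ℝ) T) := ⟨pj T 0⟩
  obtain ⟨p, -, hp⟩ := isCompact_univ.exists_isMinOn univ_nonempty (C0.cont (u.2 0)).continuousOn
  exact ⟨_, h p.1 p.2, fun t x => hp (mem_univ (t, x))⟩

theorem AT_comp (u : B.AT T) {Φ : ℝ → ℝ} (h : ∀ t x, ContDiffAt ℝ ∞ Φ ((u.1 t).1 x)) :
    ∃ v : B.AT T, IsC Φ u.1 v.1 := by
  obtain ⟨v, hv⟩ := IsC.ex h
  exact ⟨⟨v, fun k => (u.2 k).comp hv⟩, hv⟩

theorem AT_ext {u v : B.AT T} (h : ∀ t x, (u.1 t).1 x = (v.1 t).1 x) : u = v :=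
  Subtype.ext (funext fun t => Subtype.ext (funext (h t)))

theorem AT_inv {u : B.AT T} (h : ∀ t x, (u.1 t).1 x ≠ 0) : ∃ v, u * v = 1 := by
  obtain ⟨v, hv⟩ := AT_comp u (Φ := fun y => y⁻¹) fun t x => contDiffAt_inv ℝ (h t x)
  refine ⟨v, AT_ext fun t x => ?_⟩
  change (u.1 t).1 x * (v.1 t).1 x = 1
  rw [(hv t x).2, mul_inv_cancel₀ (h t x)]

theorem AT_sqrt {u : B.AT T} (h : ∀ t x, 0 < (u.1 t).1 x) :
    ∃ v : B.AT T, v * v = u ∧ ∀ t x, (v.1 t).1 x = √((u.1 t).1 x) := by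
  obtain ⟨v, hv⟩ := AT_comp u (Φ := fun y => √y) fun t x => Real.contDiffAt_sqrt (h t x).ne'
  refine ⟨v, AT_ext fun t x => ?_, fun t x => (hv t x).2⟩
  change (v.1 t).1 x * (v.1 t).1 x = _
  rw [(hv t x).2, Real.mul_self_sqrt (h t x).le]

theorem Xw_cst (w : List (Fin B.N)) (c : ℝ) : B.F.Xw w (B.cst c) = c • B.F.Xw w 1 := by
  rw [← Fr.Xw_rsmul, cst, Algebra.algebraMap_eq_smul_one]

theorem TD_time : TD (fun t : Icc (0 : ℝ) T => B.cst t) 1 :=
  TD.of_quad (fun w => ⟨0, fun s t x _ => by simp [Xw_zero]⟩) fun w => ⟨0, fun s t x _ => by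
    have : B.cst t - B.cst s - ((t : ℝ) - s) • (1 : B.Pth T) s = 0 := by
      simp only [cst, Algebra.algebraMap_eq_smul_one, Pi.one_apply, sub_smul, sub_self]
    rw [this, Xw_zero]
    simp⟩

variable (B T) in
/-- The time as a function. -/
def τ : B.AT T := ⟨fun t => B.cst t, fun k => by
  cases k with
  | zero => exact TD_time.1
  | succ k => exact ⟨1, TD_time, Ck.const k 1⟩⟩

theorem D_τ : D (B.τ T) = 1 := D_eq TD_time

theorem X_τ (i : Fin B.N) : (B.FT T).X i (B.τ T) = 0 :=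
  Subtype.ext (funext fun t => (B.F.X i).map_algebraMap t)

theorem vl_τ {t : ℝ} (ht : t ∈ Icc 0 T) (x : B.M) : vl (B.τ T) t x = t := by
  rw [vl, pj_of_mem ht]
  rfl

theorem D_cT (a : B.A) : D (B.cT T a) = 0 := D_eq (TD.const a)

/-- Differentiation of the integral for the fixed measure. -/
theorem hd_int (u : B.AT T) : ∀ t ∈ Icc 0 T,
    HasDerivWithinAt (fun s => ∫ x, vl u s x ∂B.μ) (∫ x, vl (D u) t x ∂B.μ) (Icc 0 T) t :=
  hdw_integral B.μ (fun _ _ => B.cont _) (cont_vl (D u)) (hd_vl u)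

theorem hd_ipk (k : ℕ) (u v : B.AT T) : ∀ t ∈ Icc 0 T,
    HasDerivWithinAt (fun s => B.ipk k (u.1 (pj T s)) (v.1 (pj T s)))
      (B.ipk k ((D u).1 (pj T t)) (v.1 (pj T t)) + B.ipk k (u.1 (pj T t)) ((D v).1 (pj T t)))
      (Icc 0 T) t := by
  have h0 : ∀ u v : B.AT T, ∀ t ∈ Icc 0 T,
      HasDerivWithinAt (fun s => ∫ x, vl u s x * vl v s x ∂B.μ)
        (∫ x, vl (D u) t x * vl v t x ∂B.μ + ∫ x, vl u t x * vl (D v) t x ∂B.μ) (Icc 0 T) t :=
    fun u v t ht => by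
      refine (hd_int (u * v) t ht).congr_deriv ?_
      have hi : ∀ a b : B.AT T, Integrable (fun x => vl a t x * vl b t x) B.μ := fun a b =>
        cont_integrable _ ((B.cont _).mul (B.cont _))
      rw [← integral_add (hi _ _) (hi _ _), D_eq (v := u * D v + v * D u) ((TD_D u).mul (TD_D v))]
      refine integral_congr_ae (Eventually.of_forall fun x => ?_)
      change vl u t x * vl (D v) t x + vl v t x * vl (D u) t x = _
      simp only [vl]
      ring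
  induction k generalizing u v with
  | zero => exact h0 u v
  | succ k ih =>
    intro t ht
    refine ((h0 u v t ht).add (HasDerivWithinAt.fun_sum fun i (_ : i ∈ Finset.univ) =>
      ih ((B.FT T).X i u) ((B.FT T).X i v) t ht)).congr_deriv ?_
    simp only [← D_def, (B.DT T).comm, Finset.sum_add_distrib, ipk, vl]
    exact add_add_add_comm _ _ _ _

end Base

end Pool.Agent.MP_9bd639_gt.H88

end
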