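import Pool.Agent.MP_9bd639_gt.G.Tens2
import Pool.Agent.MP_9bd639_gt.G.An1
import Pool.Agent.MP_9bd639_gt.G.Real

-- part St
section

/-! Positive metrics on the manifold: orthonormal bases, comparison with the induced metric,
construction of metrics. -/

open Matrix MeasureTheory Filter Topology Set
open scoped ContDiff

namespace Pool.Agent.MP_9bd639_gt.H88

section real

variable {n k : Type} [Fintype n] [Fintype k]

theorem St_sq (ξ : n → ℝ) : ξ ⬝ᵥ ξ = ∑ i, ξ i ^ 2 := by simp [dotProduct, sq]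

theorem St_sq_nonneg (ξ : n → ℝ) : 0 ≤ ξ ⬝ᵥ ξ := by
  rw [St_sq]
  positivity

theorem St_tr (e : Matrix k n ℝ) (v : k → ℝ) (ξ : n → ℝ) : v ⬝ᵥ (e *ᵥ ξ) = (eᵀ *ᵥ v) ⬝ᵥ ξ := by
  rw [dotProduct_mulVec, mulVec_transpose]

theorem St_symm {T : Matrix n n ℝ} (h : Tᵀ = T) (ξ η : n → ℝ) :
    ξ ⬝ᵥ (T *ᵥ η) = η ⬝ᵥ (T *ᵥ ξ) := by
  rw [St_tr, h, dotProduct_comm]

theorem St_conj (e : Matrix k n ℝ) (T : Matrix n n ℝ) (v : k → ℝ) :
    v ⬝ᵥ ((e * T * eᵀ) *ᵥ v) = (eᵀ *ᵥ v) ⬝ᵥ (T *ᵥ (eᵀ *ᵥ v)) := by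
  rw [← mulVec_mulVec, ← mulVec_mulVec, St_tr]

theorem St_proj {P : Matrix n n ℝ} (h : Pᵀ = P) (h2 : P * P = P) (ξ : n → ℝ) :
    ξ ⬝ᵥ (P *ᵥ ξ) = (P *ᵥ ξ) ⬝ᵥ (P *ᵥ ξ) := by
  conv_lhs => rw [← h2, ← mulVec_mulVec, St_tr, h]

theorem St_proj_le {P : Matrix n n ℝ} (h : Pᵀ = P) (h2 : P * P = P) (ξ : n → ℝ) :
    ξ ⬝ᵥ (P *ᵥ ξ) ≤ ξ ⬝ᵥ ξ := by
  have h1 := St_sq_nonneg (ξ - P *ᵥ ξ)
  rw [sub_dotProduct, dotProduct_sub, dotProduct_sub, ← St_proj h h2,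
    dotProduct_comm (P *ᵥ ξ) ξ] at h1
  linarith

theorem St_tan {P T : Matrix n n ℝ} (h : Pᵀ = P) (h1 : P * T = T) (h2 : T * P = T) (ξ : n → ℝ) :
    ξ ⬝ᵥ (T *ᵥ ξ) = (P *ᵥ ξ) ⬝ᵥ (T *ᵥ (P *ᵥ ξ)) := by
  have := St_conj P T ξ
  rwa [h, h1, h2] at this

theorem St_entry [DecidableEq n] {T : Matrix n n ℝ} (h : Tᵀ = T) {K : ℝ}
    (h0 : ∀ ξ, 0 ≤ ξ ⬝ᵥ (T *ᵥ ξ)) (h1 : ∀ ξ, ξ ⬝ᵥ (T *ᵥ ξ) ≤ K * (ξ ⬝ᵥ ξ)) (i j : n) :
    |T i j| ≤ K := by
  have a1 := h1 (Pi.single i 1)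
  have a2 := h1 (Pi.single j 1)
  have a3 := h0 (Pi.single i 1 + Pi.single j 1)
  have a4 := h0 (Pi.single i 1 - Pi.single j 1)
  have a5 : T j i = T i j := congrFun (congrFun h i) j
  simp only [mulVec_add, mulVec_sub, add_dotProduct, sub_dotProduct, dotProduct_add,
    dotProduct_sub, single_one_dotProduct, mulVec_single_one, col_apply, Pi.single_eq_same,
    mul_one] at a1 a2 a3 a4
  rw [abs_le]
  constructor <;> linarith

theorem St_small {T : Matrix n n ℝ} {ε : ℝ} (h : ∀ i j, |T i j| ≤ ε) (hε : 0 ≤ ε) (ξ : n → ℝ) :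
    |ξ ⬝ᵥ (T *ᵥ ξ)| ≤ ε * Fintype.card n * (ξ ⬝ᵥ ξ) := by
  have h1 : |ξ ⬝ᵥ (T *ᵥ ξ)| ≤ ε * (∑ i, |ξ i|) ^ 2 := by
    simp only [dotProduct, mulVec, Finset.mul_sum, sq, Finset.sum_mul]
    refine (Finset.abs_sum_le_sum_abs _ _).trans (Finset.sum_le_sum fun i _ =>
      (Finset.abs_sum_le_sum_abs _ _).trans (Finset.sum_le_sum fun j _ => ?_))
    rw [abs_mul, abs_mul]
    have := mul_le_mul_of_nonneg_right (h i j) (mul_nonneg (abs_nonneg (ξ i)) (abs_nonneg (ξ j)))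
    linarith
  have h2 := sq_sum_le_card_mul_sum_sq (s := Finset.univ) (f := fun i => |ξ i|)
  simp only [sq_abs, Finset.card_univ] at h2
  rw [St_sq, mul_assoc]
  exact h1.trans (mul_le_mul_of_nonneg_left h2 hε)

open scoped MatrixOrder in
theorem St_factor [DecidableEq n] {T : Matrix n n ℝ} (h : Tᵀ = T)
    (h0 : ∀ ξ, 0 ≤ ξ ⬝ᵥ (T *ᵥ ξ)) : ∃ Q : Matrix n n ℝ, T = Qᵀ * Q := by
  have hp : T.PosSemidef := PosSemidef.of_dotProduct_mulVec_nonneg
    (by rwa [IsHermitian, conjTranspose_eq_transpose_of_trivial]) (by simpa using h0)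
  obtain ⟨Q, hQ⟩ := CStarAlgebra.nonneg_iff_eq_star_mul_self.mp hp.nonneg
  exact ⟨Q, by rwa [star_eq_conjTranspose, conjTranspose_eq_transpose_of_trivial] at hQ⟩

theorem St_det {T : Matrix (Fin 3) (Fin 3) ℝ} (h : Tᵀ = T) {a b : ℝ} (ha : 0 ≤ a)
    (h0 : ∀ ξ, a * (ξ ⬝ᵥ ξ) ≤ ξ ⬝ᵥ (T *ᵥ ξ) ∧ ξ ⬝ᵥ (T *ᵥ ξ) ≤ b * (ξ ⬝ᵥ ξ)) :
    a ^ 3 ≤ T.det ∧ T.det ≤ b ^ 3 := by
  have hH : T.IsHermitian := by rwa [IsHermitian, conjTranspose_eq_transpose_of_trivial]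
  have key : ∀ i, a ≤ hH.eigenvalues i ∧ hH.eigenvalues i ≤ b := fun i => by
    have h1 := h0 (hH.eigenvectorBasis i).ofLp
    have h2 := hH.eigenvalues_eq i
    have h3 : (hH.eigenvectorBasis i).ofLp ⬝ᵥ (hH.eigenvectorBasis i).ofLp = 1 := by
      have := EuclideanSpace.inner_eq_star_dotProduct (hH.eigenvectorBasis i)
        (hH.eigenvectorBasis i)
      rw [real_inner_self_eq_norm_sq, hH.eigenvectorBasis.orthonormal.1 i] at this
      simpa using this.symm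
    simp only [star_trivial, RCLike.re_to_real] at h2
    rwa [h3, mul_one, mul_one, ← h2] at h1
  rw [hH.det_eq_prod_eigenvalues]
  simp only [RCLike.ofReal_real_eq_id, id]
  constructor
  · simpa using Finset.prod_le_prod (s := Finset.univ) (f := fun _ : Fin 3 => a)
      (fun _ _ => ha) fun i _ => (key i).1
  · simpa using Finset.prod_le_prod (s := Finset.univ) (g := fun _ : Fin 3 => b)
      (fun i _ => ha.trans (key i).1) fun i _ => (key i).2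

theorem St_det_ext [DecidableEq n] [DecidableEq k] {e : Matrix k n ℝ} (he : e * eᵀ = 1)
    {g : Matrix n n ℝ} (h1 : eᵀ * e * g = g) (h2 : g * (eᵀ * e) = g) :
    (g + 1 - eᵀ * e).det = (e * g * eᵀ).det := by
  have h3 : g + 1 - eᵀ * e = 1 + eᵀ * ((e * g * eᵀ - 1) * e) := by
    rw [Matrix.sub_mul, Matrix.mul_sub, Matrix.one_mul, Matrix.mul_assoc (e * g),
      Matrix.mul_assoc e, h2, ← Matrix.mul_assoc, h1]
    abel
  rw [h3, det_one_add_mul_comm, Matrix.mul_assoc _ e, he, Matrix.mul_one, add_sub_cancel]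

theorem St_ext_pos [DecidableEq n] {P g : Matrix n n ℝ} (h : Pᵀ = P) (h2 : P * P = P)
    (h3 : P * g = g) (h4 : g * P = g) (h0 : ∀ ξ, 0 < ξ ⬝ᵥ (P *ᵥ ξ) → 0 < ξ ⬝ᵥ (g *ᵥ ξ))
    {ξ : n → ℝ} (hξ : ξ ≠ 0) : 0 < ξ ⬝ᵥ ((g + 1 - P) *ᵥ ξ) := by
  rw [sub_mulVec, add_mulVec, one_mulVec, dotProduct_sub, dotProduct_add]
  have a1 := St_proj_le h h2 ξ
  by_cases hP : P *ᵥ ξ = 0
  · rw [St_tan h h3 h4, hP, zero_dotProduct, dotProduct_zero]
    have : ξ ⬝ᵥ ξ ≠ 0 := fun e => hξ (dotProduct_self_eq_zero.1 e)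
    have := lt_of_le_of_ne (St_sq_nonneg ξ) this.symm
    linarith
  · have : P *ᵥ ξ ⬝ᵥ P *ᵥ ξ ≠ 0 := fun e => hP (dotProduct_self_eq_zero.1 e)
    have := h0 ξ (by
      rw [St_proj h h2]
      exact lt_of_le_of_ne (St_sq_nonneg _) this.symm)
    linarith

end real

namespace Base

variable {B : Base} {m : B.Me} {c : ℝ}

theorem St_mul (T U : B.Mat) (x : B.M) :
    (T * U).map (B.ev x) = T.map (B.ev x) * U.map (B.ev x) := Matrix.map_mul

theorem St_mul_eq {T U V : B.Mat} (h : T * U = V) (x : B.M) :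
    T.map (B.ev x) * U.map (B.ev x) = V.map (B.ev x) := by rw [← St_mul, h]

theorem St_t {T : B.Mat} (h : Tᵀ = T) (x : B.M) : (T.map (B.ev x))ᵀ = T.map (B.ev x) := by
  rw [← transpose_map, h]

theorem St_rank (x : B.M) : ∃ e : Matrix (Fin 3) (Fin B.N) ℝ,
    e * eᵀ = 1 ∧ B.F.π.map (B.ev x) = eᵀ * e := by
  obtain ⟨e, h1, h2⟩ := B.rank x
  exact ⟨e, h1, Matrix.ext h2⟩

theorem St_ext (G : B.Mat) (x : B.M) :
    (G + 1 - B.F.π).map (B.ev x) = G.map (B.ev x) + 1 - B.F.π.map (B.ev x) := by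
  ext i j
  by_cases h : i = j <;> simp [h]

theorem St_evdet (T : B.Mat) (x : B.M) : T.det.1 x = (T.map (B.ev x)).det :=
  AlgHom.map_det (B.ev x) T

theorem St_qπ {e : Matrix (Fin 3) (Fin B.N) ℝ} {x : B.M} (h1 : e * eᵀ = 1)
    (h2 : B.F.π.map (B.ev x) = eᵀ * e) (v : Fin 3 → ℝ) : qf B.F.π x (eᵀ *ᵥ v) = v ⬝ᵥ v := by
  rw [qf, ← St_conj, h2, ← Matrix.mul_assoc, h1, Matrix.one_mul, h1, one_mulVec]

theorem qf_π_nonneg (x : B.M) (ξ : Fin B.N → ℝ) : 0 ≤ qf B.F.π x ξ := by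
  rw [qf, St_proj (St_t B.F.π_symm x) (St_mul_eq B.F.π_idem x)]
  exact St_sq_nonneg _

theorem St_qπ_le (x : B.M) (ξ : Fin B.N → ℝ) : qf B.F.π x ξ ≤ ξ ⬝ᵥ ξ :=
  St_proj_le (St_t B.F.π_symm x) (St_mul_eq B.F.π_idem x) ξ

theorem Ell.inv (h : Ell c m) (hc : 0 < c) (x : B.M) (ξ : Fin B.N → ℝ) :
    c * qf B.F.π x ξ ≤ qf m.γ x ξ ∧ qf m.γ x ξ ≤ c⁻¹ * qf B.F.π x ξ := by
  have g1 : m.G.map (B.ev x) *ᵥ (m.γ.map (B.ev x) *ᵥ ξ) = B.F.π.map (B.ev x) *ᵥ ξ := by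
    rw [mulVec_mulVec, St_mul_eq m.Gγ]
  have g2 : B.F.π.map (B.ev x) *ᵥ (m.γ.map (B.ev x) *ᵥ ξ) = m.γ.map (B.ev x) *ᵥ ξ := by
    rw [mulVec_mulVec, St_mul_eq m.πγ]
  have g3 := St_symm (St_t B.F.π_symm x) (m.γ.map (B.ev x) *ᵥ ξ) ξ
  have g4 := St_symm (St_t m.G_symm x) (m.γ.map (B.ev x) *ᵥ ξ) ξ
  have a1 := (mul_nonneg hc.le (qf_π_nonneg x _)).trans (h x (m.γ.map (B.ev x) *ᵥ ξ - c • ξ)).1
  have a2 := qf_π_nonneg x (c • (m.γ.map (B.ev x) *ᵥ ξ) - ξ)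
  have a3 := (h x ξ).2
  have a4 := (h x (m.γ.map (B.ev x) *ᵥ ξ)).1
  simp only [qf, mulVec_sub, mulVec_smul, sub_dotProduct, dotProduct_sub, smul_dotProduct,
    dotProduct_smul, smul_eq_mul, g1, g2, g3, g4] at a1 a2 a3 a4 ⊢
  rw [le_inv_mul_iff₀ hc] at a3 ⊢
  constructor <;> nlinarith

/-- With `e` from `rank`, the matrix `e G eᵀ` is positive definite; multiply `e` by the inverse of
a square root (`Matrix.PosDef`, `bochner_factor` type factorisation). -/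
theorem Pos.pt (h : Pos m) (x : B.M) : ∃ p : Pt m, p.ev = B.ev x := by
  obtain ⟨c, hc, h⟩ := h
  obtain ⟨e, h1, h2⟩ := St_rank x
  obtain ⟨Q, hQ⟩ := St_factor (T := e * m.γ.map (B.ev x) * eᵀ)
    (by rw [transpose_mul, transpose_mul, transpose_transpose, St_t m.γ_symm, Matrix.mul_assoc])
    fun v => by
      rw [St_conj]
      exact (mul_nonneg hc.le (qf_π_nonneg x _)).trans (h.inv hc x _).1
  have h3 : Qᵀ * (Q * (e * m.G.map (B.ev x) * eᵀ)) = 1 := by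
    have : e * m.γ.map (B.ev x) * eᵀ * (e * m.G.map (B.ev x) * eᵀ) =
        e * (m.γ.map (B.ev x) * (eᵀ * e) * m.G.map (B.ev x)) * eᵀ := by
      simp only [Matrix.mul_assoc]
    rw [← Matrix.mul_assoc, ← hQ, this, ← h2, St_mul_eq m.γπ, St_mul_eq m.γG, h2,
      ← Matrix.mul_assoc, h1, Matrix.one_mul, h1]
  refine ⟨⟨B.ev x, Q * e, ?_, ?_⟩, rfl⟩
  · have : (Q * e)ᵀ * (Q * e) = eᵀ * (Qᵀ * Q) * e := by
      simp only [transpose_mul, Matrix.mul_assoc]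
    rw [this, ← hQ]
    have : eᵀ * (e * m.γ.map (B.ev x) * eᵀ) * e = eᵀ * e * m.γ.map (B.ev x) * (eᵀ * e) := by
      simp only [Matrix.mul_assoc]
    rw [this, ← h2, St_mul_eq m.πγ, St_mul_eq m.γπ]
  · rw [← mul_eq_one_comm.1 h3]
    simp only [transpose_mul, Matrix.mul_assoc]

theorem Pos.KN (h : Pos m) : m.KN := fun i j k l => Subtype.ext (funext fun x => by
  obtain ⟨p, hp⟩ := h.pt x
  have := p.KN i j k l
  rwa [hp] at this)

theorem Ell.le_one (h : Ell c m) (hc : 0 < c) : c ≤ 1 := by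
  obtain ⟨x⟩ := B.nonempty
  obtain ⟨e, h1, h2⟩ := St_rank x
  have h3 := (h x (eᵀ *ᵥ Pi.single 0 1)).1.trans (h x _).2
  rw [St_qπ h1 h2, le_inv_mul_iff₀ hc] at h3
  simp only [single_one_dotProduct, Pi.single_eq_same] at h3
  nlinarith

theorem Ell.mono {c' : ℝ} (h : Ell c m) (hc' : 0 < c') (hc : c' ≤ c) : Ell c' m := fun x ξ =>
  ⟨(mul_le_mul_of_nonneg_right hc (qf_π_nonneg x ξ)).trans (h x ξ).1, (h x ξ).2.trans
    (mul_le_mul_of_nonneg_right (inv_anti₀ hc' hc) (qf_π_nonneg x ξ))⟩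

theorem Ell.G_le (h : Ell c m) (hc : 0 < c) (i j : Fin B.N) (x : B.M) :
    |(m.G i j).1 x| ≤ c⁻¹ :=
  St_entry (St_t m.G_symm x) (fun ξ => (mul_nonneg hc.le (qf_π_nonneg x ξ)).trans (h x ξ).1)
    (fun ξ => (h x ξ).2.trans (mul_le_mul_of_nonneg_left (St_qπ_le x ξ) (inv_pos.2 hc).le)) i j

theorem Ell.γ_le (h : Ell c m) (hc : 0 < c) (i j : Fin B.N) (x : B.M) :
    |(m.γ i j).1 x| ≤ c⁻¹ :=
  St_entry (St_t m.γ_symm x)
    (fun ξ => (mul_nonneg hc.le (qf_π_nonneg x ξ)).trans (h.inv hc x ξ).1)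
    (fun ξ => (h.inv hc x ξ).2.trans
      (mul_le_mul_of_nonneg_left (St_qπ_le x ξ) (inv_pos.2 hc).le)) i j

theorem St_det_eq (m : B.Me) {e : Matrix (Fin 3) (Fin B.N) ℝ} {x : B.M} (h1 : e * eᵀ = 1)
    (h2 : B.F.π.map (B.ev x) = eᵀ * e) :
    m.ext.det.1 x = (e * m.G.map (B.ev x) * eᵀ).det := by
  rw [St_evdet, Met.ext, St_ext, h2]
  exact St_det_ext h1 (h2 ▸ St_mul_eq m.πG x) (h2 ▸ St_mul_eq m.Gπ x)

theorem Ell.det (h : Ell c m) (hc : 0 < c) (x : B.M) :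
    c ^ 3 ≤ m.ext.det.1 x ∧ m.ext.det.1 x ≤ c⁻¹ ^ 3 := by
  obtain ⟨e, h1, h2⟩ := St_rank x
  rw [St_det_eq m h1 h2]
  refine St_det
    (by rw [transpose_mul, transpose_mul, transpose_transpose, St_t m.G_symm, Matrix.mul_assoc])
    hc.le fun v => ?_
  rw [St_conj, ← St_qπ h1 h2]
  exact h x _

theorem St_mulVec (T : B.Mat) (η : Fin B.N → B.A) (x : B.M) :
    T.map (B.ev x) *ᵥ (fun i => (η i).1 x) = fun i => ((T *ᵥ η) i).1 x := by
  funext i
  simp only [mulVec, dotProduct, ← B.ev_apply, map_sum, map_mul, map_apply]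

theorem St_ip1 (m : B.Me) (η ζ : Fin B.N → B.A) (x : B.M) : (m.ip1 η ζ).1 x =
    (fun i => (η i).1 x) ⬝ᵥ (m.γ.map (B.ev x) *ᵥ fun i => (ζ i).1 x) := by
  rw [St_mulVec]
  simp only [Met.ip1, dotProduct, ← B.ev_apply, map_sum, map_mul]

theorem Ell.ip1 (h : Ell c m) (hc : 0 < c) {η : Fin B.N → B.A} (hη : B.F.π *ᵥ η = η) (x : B.M) :
    c * ∑ i, (η i).1 x ^ 2 ≤ (m.ip1 η η).1 x ∧ (m.ip1 η η).1 x ≤ c⁻¹ * ∑ i, (η i).1 x ^ 2 := by
  have := h.inv hc x fun i => (η i).1 x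
  rwa [qf, qf, St_mulVec, hη, St_sq, ← St_ip1] at this

theorem Ell.gam (h : Ell c m) (hc : 0 < c) (a : B.A) (x : B.M) :
    c * ∑ i, (B.F.X i a).1 x ^ 2 ≤ (m.gam a a).1 x ∧
      (m.gam a a).1 x ≤ c⁻¹ * ∑ i, (B.F.X i a).1 x ^ 2 := h.ip1 hc (B.F.π_d0 a) x

theorem Ell.ip2_le (h : Ell c m) (hc : 0 < c) (T : B.Mat) (x : B.M) :
    (m.ip2 T T).1 x ≤ c⁻¹ ^ 2 * ∑ i, ∑ j, (T i j).1 x ^ 2 := by
  obtain ⟨p, hp⟩ := Pos.pt ⟨c, hc, h⟩ x
  have key : ∀ v : Fin B.N → ℝ, ∑ a, (p.e *ᵥ v) a ^ 2 ≤ c⁻¹ * ∑ i, v i ^ 2 := fun v => by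
    have h1 := (h.inv hc x v).2.trans
      (mul_le_mul_of_nonneg_left (St_qπ_le x v) (inv_pos.2 hc).le)
    rwa [qf, ← hp, p.γ_eq, ← mulVec_mulVec, St_tr, transpose_transpose, St_sq, St_sq] at h1
  have h2 := p.ev_ip2 T T
  rw [hp] at h2
  rw [← B.ev_apply, h2, Finset.sum_comm]
  calc ∑ b, ∑ a, p.h2 T a b * p.h2 T a b
      = ∑ b, ∑ a, (p.e *ᵥ fun i => (p.e *ᵥ fun j => (T i j).1 x) b) a ^ 2 := by
        refine Finset.sum_congr rfl fun b _ => Finset.sum_congr rfl fun a _ => ?_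
        rw [← sq, Pt.h2, hp, Matrix.mul_assoc]
        simp only [mul_apply, mulVec, dotProduct, map_apply, transpose_apply, B.ev_apply, mul_comm]
    _ ≤ ∑ b, c⁻¹ * ∑ i, (p.e *ᵥ fun j => (T i j).1 x) b ^ 2 := Finset.sum_le_sum fun b _ => key _
    _ = c⁻¹ * ∑ i, ∑ b, (p.e *ᵥ fun j => (T i j).1 x) b ^ 2 := by
        rw [← Finset.mul_sum, Finset.sum_comm]
    _ ≤ c⁻¹ * ∑ i, c⁻¹ * ∑ j, (T i j).1 x ^ 2 :=
        mul_le_mul_of_nonneg_left (Finset.sum_le_sum fun i _ => key _) (inv_pos.2 hc).le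
    _ = _ := by rw [← Finset.mul_sum, sq, mul_assoc]

theorem π_le (i j : Fin B.N) (x : B.M) : |(B.F.π i j).1 x| ≤ 1 :=
  St_entry (St_t B.F.π_symm x) (qf_π_nonneg x)
    (fun ξ => (St_qπ_le x ξ).trans_eq (one_mul _).symm) i j

theorem St_qtan (m : B.Me) (x : B.M) (ξ : Fin B.N → ℝ) :
    qf m.G x ξ = qf m.G x (B.F.π.map (B.ev x) *ᵥ ξ) :=
  St_tan (St_t B.F.π_symm x) (St_mul_eq m.πG x) (St_mul_eq m.Gπ x) ξ

theorem St_qπ_eq (x : B.M) (ξ : Fin B.N → ℝ) :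
    qf B.F.π x ξ = (B.F.π.map (B.ev x) *ᵥ ξ) ⬝ᵥ (B.F.π.map (B.ev x) *ᵥ ξ) :=
  St_proj (St_t B.F.π_symm x) (St_mul_eq B.F.π_idem x) ξ

/-- A tangent perturbation with small entries keeps the ellipticity. -/
theorem Ell.perturb (h : Ell c m) (hc : 0 < c) {m' : B.Me}
    (hd : ∀ i j x, |(m'.G i j).1 x - (m.G i j).1 x| ≤ c / (2 * (B.N + 1))) : Ell (c / 2) m' := by
  intro x ξ
  have h1 := St_small (T := m'.G.map (B.ev x) - m.G.map (B.ev x)) (fun i j => hd i j x)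
    (by positivity) (B.F.π.map (B.ev x) *ᵥ ξ)
  rw [sub_mulVec, dotProduct_sub, ← St_qπ_eq, ← qf, ← qf, ← St_qtan, ← St_qtan,
    Fintype.card_fin] at h1
  have h2 : c / (2 * (B.N + 1)) * B.N ≤ c / 2 := by
    rw [div_mul_eq_mul_div, div_le_div_iff₀ (by positivity) (by positivity)]
    nlinarith
  have h3 := abs_le.1 (h1.trans (mul_le_mul_of_nonneg_right h2 (qf_π_nonneg x ξ)))
  have h4 : c / 2 ≤ c⁻¹ := by
    have := h.le_one hc
    have := one_le_inv_iff₀.2 ⟨hc, this⟩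
    linarith
  have h5 := mul_le_mul_of_nonneg_right h4 (qf_π_nonneg x ξ)
  have h6 := h x ξ
  rw [show (c / 2)⁻¹ = 2 * c⁻¹ by field_simp]
  constructor <;> linarith [h3.1, h3.2, h6.1, h6.2]

theorem St_pos {G : B.Mat} (hG : B.F.ST G) (h : ∀ x ξ, 0 < qf B.F.π x ξ → 0 < qf G x ξ)
    (x : B.M) {ξ : Fin B.N → ℝ} (hξ : ξ ≠ 0) : 0 < qf (G + 1 - B.F.π) x ξ := by
  rw [qf, St_ext]
  exact St_ext_pos (St_t B.F.π_symm x) (St_mul_eq B.F.π_idem x) (St_mul_eq hG.tan x)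
    (St_mul_eq (Fr.ST.tan' _ hG) x) (h x) hξ

/-- Compactness of `M` times the unit sphere. -/
theorem pos_of_forall (h : ∀ x ξ, 0 < qf B.F.π x ξ → 0 < qf m.G x ξ) : Pos m := by
  have c1 : Continuous fun p : B.M × (Fin B.N → ℝ) => qf m.ext p.1 p.2 := by
    simp only [qf, dotProduct, mulVec, map_apply, B.ev_apply]
    exact continuous_finsetSum _ fun i _ => ((continuous_apply i).comp continuous_snd).mul
      (continuous_finsetSum _ fun j _ => ((B.cont _).comp continuous_fst).mul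
        ((continuous_apply j).comp continuous_snd))
  have c2 : Continuous fun p : B.M × (Fin B.N → ℝ) => p.2 ⬝ᵥ p.2 :=
    continuous_snd.dotProduct continuous_snd
  have hK : IsCompact ((univ : Set B.M) ×ˢ Metric.sphere (0 : Fin B.N → ℝ) 1) :=
    isCompact_univ.prod (isCompact_sphere _ _)
  have n0 : ∀ p ∈ (univ : Set B.M) ×ˢ Metric.sphere (0 : Fin B.N → ℝ) 1, p.2 ≠ 0 :=
    fun p hp e => by simpa [e] using hp.2
  have p1 : ∀ p ∈ (univ : Set B.M) ×ˢ Metric.sphere (0 : Fin B.N → ℝ) 1, 0 < qf m.ext p.1 p.2 :=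
    fun p hp => St_pos m.ST_G h _ (n0 p hp)
  have p2 : ∀ p ∈ (univ : Set B.M) ×ˢ Metric.sphere (0 : Fin B.N → ℝ) 1, 0 < p.2 ⬝ᵥ p.2 :=
    fun p hp => lt_of_le_of_ne (St_sq_nonneg _) fun e =>
      n0 p hp (dotProduct_self_eq_zero.1 e.symm)
  obtain ⟨a, ha, h1⟩ := hK.exists_forall_le' (c1.continuousOn.div c2.continuousOn
    fun p hp => (p2 p hp).ne') fun p hp => div_pos (p1 p hp) (p2 p hp)
  obtain ⟨b, hb, h2⟩ := hK.exists_forall_le' (c2.continuousOn.div c1.continuousOn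
    fun p hp => (p1 p hp).ne') fun p hp => div_pos (p2 p hp) (p1 p hp)
  have key : ∀ x η, a * (η ⬝ᵥ η) ≤ qf m.ext x η ∧ b * qf m.ext x η ≤ η ⬝ᵥ η := fun x η => by
    rcases eq_or_ne η 0 with rfl | hη
    · simp [qf]
    have hn := norm_pos_iff.2 hη
    have hu : (x, ‖η‖⁻¹ • η) ∈ (univ : Set B.M) ×ˢ Metric.sphere (0 : Fin B.N → ℝ) 1 :=
      ⟨trivial, by simp [norm_smul, hn.ne']⟩
    have a1 := (le_div_iff₀ (p2 _ hu)).1 (h1 _ hu)
    have a2 := (le_div_iff₀ (p1 _ hu)).1 (h2 _ hu)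
    simp only [qf, mulVec_smul, smul_dotProduct, dotProduct_smul, smul_eq_mul] at a1 a2 ⊢
    have hi := mul_pos (inv_pos.2 hn) (inv_pos.2 hn)
    exact ⟨le_of_mul_le_mul_left (by linarith) hi, le_of_mul_le_mul_left (by linarith) hi⟩
  refine ⟨min a b, lt_min ha hb, fun x ξ => ?_⟩
  have h3 := key x (B.F.π.map (B.ev x) *ᵥ ξ)
  have h4 : qf m.ext x (B.F.π.map (B.ev x) *ᵥ ξ) = qf m.G x ξ := by
    rw [St_qtan, qf, qf, Met.ext, St_ext, sub_mulVec, add_mulVec, one_mulVec, mulVec_mulVec ξ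
      (B.F.π.map (B.ev x)), St_mul_eq B.F.π_idem, add_sub_cancel_right]
  rw [h4, ← St_qπ_eq] at h3
  have h5 := mul_le_mul_of_nonneg_right (min_le_left a b) (qf_π_nonneg x ξ)
  have h6 := (mul_nonneg ha.le (qf_π_nonneg x ξ)).trans h3.1
  rw [le_inv_mul_iff₀ (lt_min ha hb)]
  exact ⟨h5.trans h3.1, (mul_le_mul_of_nonneg_right (min_le_right a b) h6).trans h3.2⟩

theorem exists_inv {a : B.A} (h : ∀ x, a.1 x ≠ 0) : ∃ b : B.A, a * b = 1 :=
  ⟨B.cmp a Inv.inv fun x => contDiffAt_inv ℝ (h x),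
    Subtype.ext (funext fun x => mul_inv_cancel₀ (h x))⟩

/-- `γ = π (G + 1 - π)⁻¹`, with the inverse given by the adjugate and `exists_inv`. -/
theorem exists_met {G : B.Mat} (hG : B.F.ST G)
    (h : ∀ x ξ, 0 < qf B.F.π x ξ → 0 < qf G x ξ) : ∃ m : B.Me, m.G = G ∧ Pos m := by
  obtain ⟨d, hd⟩ := exists_inv (a := (G + 1 - B.F.π).det) fun x e => by
    rw [St_evdet] at e
    obtain ⟨v, h1, h2⟩ := exists_mulVec_eq_zero_iff.2 e
    have := St_pos hG h x h1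
    rw [qf, h2, dotProduct_zero] at this
    exact this.false
  obtain ⟨E, e1⟩ : ∃ E, (G + 1 - B.F.π) * E = 1 := ⟨d • (G + 1 - B.F.π).adjugate, by
    rw [mul_smul_comm, mul_adjugate, smul_smul, mul_comm, hd, one_smul]⟩
  have e2 := mul_eq_one_comm.1 e1
  have e3 : B.F.π * (G + 1 - B.F.π) = G := by
    rw [mul_sub, mul_add, hG.tan, mul_one, B.F.π_idem, add_sub_cancel_right]
  have e4 : (G + 1 - B.F.π) * B.F.π = G := by
    rw [sub_mul, add_mul, Fr.ST.tan' _ hG, one_mul, B.F.π_idem, add_sub_cancel_right]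
  have e5 : Eᵀ = E := by
    have := congrArg transpose e1
    rw [transpose_mul, transpose_sub, transpose_add, hG.symm, B.F.π_symm, transpose_one] at this
    rw [← mul_one Eᵀ, ← e1, ← mul_assoc, this, one_mul]
  have e6 : E * B.F.π = B.F.π * E := by
    rw [← mul_one (E * B.F.π), ← e1, ← mul_assoc, mul_assoc E, e3, ← e4, ← mul_assoc, e2, one_mul]
  refine ⟨⟨G, B.F.π * E, hG.symm, by rw [transpose_mul, e5, B.F.π_symm, e6], ?_, hG.tan,
    by rw [← mul_assoc, B.F.π_idem]⟩, rfl, pos_of_forall h⟩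
  rw [← e4, mul_assoc, ← mul_assoc E, e2, one_mul, B.F.π_idem]

theorem γ_formula (m : B.Me) {d : B.A} (hd : m.ext.det * d = 1) :
    m.γ = d • (B.F.π * m.ext.adjugate) := by
  have h : d • m.ext.adjugate = m.γ + 1 - B.F.π := by
    have h1 : d • m.ext.adjugate * m.ext = 1 := by
      rw [smul_mul_assoc, adjugate_mul, smul_smul, mul_comm d, hd, one_smul]
    exact left_inv_eq_right_inv h1 m.ext_inv
  rw [← mul_smul_comm, h, mul_sub, mul_add, m.πγ, mul_one, B.F.π_idem, add_sub_cancel_right]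

theorem St_smul (a : B.A) (T : B.Mat) (x : B.M) :
    (a • T).map (B.ev x) = a.1 x • T.map (B.ev x) := rfl

theorem Pos.conf (h : Pos m) {w v : B.A} (hw : w * v = 1) : Pos (m.conf w v hw) := by
  obtain ⟨c, hc, h⟩ := h
  refine pos_of_forall fun x ξ hξ => ?_
  have h1 : w.1 x * v.1 x = 1 := congrFun (congrArg Subtype.val hw) x
  have h2 := (mul_pos hc hξ).trans_le (h x ξ).1
  rw [qf, Met.conf, St_smul, smul_mulVec, dotProduct_smul]
  exact mul_pos (mul_self_pos.2 (right_ne_zero_of_mul_eq_one h1)) h2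

theorem rho_conf (h : Pos m) {w v : B.A} (hw : w * v = 1) (hv : Gt0 v) (x : B.M) :
    rho (m.conf w v hw) x = v.1 x ^ 3 * rho m x := by
  obtain ⟨e, h1, h2⟩ := St_rank x
  rw [rho, rho, St_det_eq _ h1 h2, St_det_eq _ h1 h2, Met.conf, St_smul, Matrix.mul_smul,
    Matrix.smul_mul, det_smul, Fintype.card_fin,
    show (v * v).1 x ^ 3 = (v.1 x ^ 3) ^ 2 by rw [show (v * v).1 x = v.1 x * v.1 x from rfl]; ring,
    Real.sqrt_mul (sq_nonneg _), Real.sqrt_sq (pow_pos (hv x) 3).le]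

theorem Pos.gam_nonneg (h : Pos m) (a : B.A) : Ge0 (m.gam a a) := fun x => by
  obtain ⟨p, hp⟩ := h.pt x
  have := p.ip1_nonneg (B.F.d0 a)
  rwa [hp] at this

theorem Pos.ip2_nonneg (h : Pos m) (T : B.Mat) : Ge0 (m.ip2 T T) := fun x => by
  obtain ⟨p, hp⟩ := h.pt x
  have := p.ip2_nonneg T
  rwa [hp] at this

theorem Pos.ip3_nonneg (h : Pos m) (Θ : Fin B.N → B.Mat) : Ge0 (m.ip3 Θ Θ) := fun x => by
  obtain ⟨p, hp⟩ := h.pt x
  have := p.ip3_nonneg Θ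
  rwa [hp] at this

theorem Pos.eq_const (h : Pos m) {a : B.A} (ha : m.gam a a = 0) (x y : B.M) : a.1 x = a.1 y := by
  obtain ⟨c, hc, h⟩ := h
  refine B.const a (fun i => Subtype.ext (funext fun z => ?_)) x y
  have h1 := (h.gam hc a z).1
  rw [ha] at h1
  have h2 : ∑ i, (B.F.X i a).1 z ^ 2 ≤ 0 := le_of_mul_le_mul_left (by simpa using h1) hc
  have h3 := Finset.single_le_sum (f := fun i => (B.F.X i a).1 z ^ 2) (fun _ _ => sq_nonneg _)
    (Finset.mem_univ i)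
  exact pow_eq_zero_iff two_ne_zero |>.1 (le_antisymm (h3.trans h2) (sq_nonneg _))

theorem Pos.maxpt (h : Pos m) {a : B.A} {x : B.M} (hx : ∀ y, a.1 y ≤ a.1 x) :
    (m.lap a).1 x ≤ 0 ∧ ∀ b, (m.gam a b).1 x = 0 := by
  obtain ⟨h1, h2⟩ := B.maxpt a x hx
  obtain ⟨p, hp⟩ := h.pt x
  have h3 : ∀ i j, B.ev x (m.γ i j) = ∑ n, p.e n i * p.e n j := fun i j => by
    rw [← hp]
    exact congrFun (congrFun p.γ_eq i) j
  simp only [← B.ev_apply] at h1 h2 ⊢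
  constructor
  · simp only [m.lap_eq, Met.L0, map_sub, map_sum, map_mul, h1, h3, mul_zero,
      Finset.sum_const_zero, sub_zero, Finset.sum_mul]
    rw [show ∑ i, ∑ j, ∑ n, p.e n i * p.e n j * B.ev x (B.F.X i (B.F.X j a)) =
        ∑ n, ∑ i, ∑ j, p.e n i * p.e n j * B.ev x (B.F.X i (B.F.X j a)) from
      (Finset.sum_congr rfl fun _ _ => Finset.sum_comm).trans Finset.sum_comm]
    exact Finset.sum_nonpos fun n _ => h2 _
  · intro b
    simp only [Met.gam, m.ip1_eq, Fr.d0, map_sum, map_mul, h1, zero_mul, mul_zero,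
      Finset.sum_const_zero]

theorem gam_comp (m : B.Me) {a b : B.A} {Φ : ℝ → ℝ} (hΦ : ∀ x, ContDiffAt ℝ ∞ Φ (a.1 x))
    (hb : ∀ x, b.1 x = Φ (a.1 x)) (e : B.A) (x : B.M) :
    (m.gam b e).1 x = deriv Φ (a.1 x) * (m.gam a e).1 x := by
  have h1 : ∀ i, B.ev x (B.F.X i b) = deriv Φ (a.1 x) * B.ev x (B.F.X i a) :=
    fun i => B.X_comp a b Φ hΦ hb i x
  rw [← B.ev_apply x (m.gam b e), ← B.ev_apply x (m.gam a e)]
  simp only [Met.gam, m.ip1_eq, Fr.d0, map_sum, map_mul, h1, Finset.mul_sum]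
  exact Finset.sum_congr rfl fun i _ => Finset.sum_congr rfl fun j _ => by ring

theorem hess_comp (m : B.Me) {a b : B.A} {Φ : ℝ → ℝ} (hΦ : ∀ x, ContDiffAt ℝ ∞ Φ (a.1 x))
    (hb : ∀ x, b.1 x = Φ (a.1 x)) (i j : Fin B.N) (x : B.M) :
    (m.hess b i j).1 x = deriv Φ (a.1 x) * (m.hess a i j).1 x +
      deriv (deriv Φ) (a.1 x) * ((B.F.X i a).1 x * (B.F.X j a).1 x) := by
  have h0 : ∀ x, ContDiffAt ℝ ∞ (deriv Φ) (a.1 x) := fun x =>
    ((hΦ x).fderiv_right (m := ∞) le_rfl).clm_apply contDiffAt_const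
  have h1 : ∀ l, B.F.X l b = B.cmp a _ h0 * B.F.X l a := fun l =>
    Subtype.ext (funext (B.X_comp a b Φ hΦ hb l))
  have h2 : B.ev x (B.F.X i (B.cmp a _ h0)) = deriv (deriv Φ) (a.1 x) * B.ev x (B.F.X i a) :=
    B.X_comp a _ _ h0 (fun _ => rfl) i x
  have h3 : B.ev x (B.cmp a _ h0) = deriv Φ (a.1 x) := rfl
  rw [← B.ev_apply x (m.hess b i j), ← B.ev_apply x (m.hess a i j), ← B.ev_apply x (B.F.X i a),
    ← B.ev_apply x (B.F.X j a)]
  simp only [m.hess_apply, h1, B.F.X_mul, map_sub, map_add, map_sum, map_mul, h2, h3, mul_sub,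
    Finset.mul_sum, mul_left_comm (deriv Φ (a.1 x))]
  ring

theorem lap_comp (m : B.Me) {a b : B.A} {Φ : ℝ → ℝ} (hΦ : ∀ x, ContDiffAt ℝ ∞ Φ (a.1 x))
    (hb : ∀ x, b.1 x = Φ (a.1 x)) (x : B.M) :
    (m.lap b).1 x = deriv Φ (a.1 x) * (m.lap a).1 x +
      deriv (deriv Φ) (a.1 x) * (m.gam a a).1 x := by
  have h1 : ∀ i j, B.ev x (m.hess b i j) = deriv Φ (a.1 x) * B.ev x (m.hess a i j) +
      deriv (deriv Φ) (a.1 x) * (B.ev x (B.F.X i a) * B.ev x (B.F.X j a)) :=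
    fun i j => hess_comp m hΦ hb i j x
  rw [← B.ev_apply x (m.lap b), ← B.ev_apply x (m.lap a), ← B.ev_apply x (m.gam a a)]
  simp only [Met.lap, m.tr_eq, Met.gam, m.ip1_eq, Fr.d0, map_sum, map_mul, h1, Finset.mul_sum,
    ← Finset.sum_add_distrib]
  exact Finset.sum_congr rfl fun i _ => Finset.sum_congr rfl fun j _ => by ring

end Base

end Pool.Agent.MP_9bd639_gt.H88

end

-- part St2
section

/-! The Riemannian volume and integration by parts. -/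

open Matrix MeasureTheory Filter Topology Set
open scoped ContDiff

namespace Pool.Agent.MP_9bd639_gt.H88

namespace Base

variable {B : Base} {m : B.Me} {c : ℝ}

theorem cont_rho (m : B.Me) : Continuous (rho m) :=
  Real.continuous_sqrt.comp (B.cont _)
theorem Pos.rho_pos (h : Pos m) (x : B.M) : 0 < rho m x := by
  obtain ⟨c, hc, h⟩ := h
  exact Real.sqrt_pos.2 (lt_of_lt_of_le (pow_pos hc 3) (h.det hc x).1)
theorem Pos.rho_mem (h : Pos m) : ∃ r : B.A, r.1 = rho m ∧ r * r = m.ext.det := by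
  have hp : ∀ x, 0 < m.ext.det.1 x := fun x => Real.sqrt_pos.1 (h.rho_pos x)
  refine ⟨B.cmp m.ext.det Real.sqrt fun x => Real.contDiffAt_sqrt (hp x).ne', rfl, ?_⟩
  apply Subtype.ext
  funext x
  exact Real.mul_self_sqrt (hp x).le
instance vol_fin (m : B.Me) : IsFiniteMeasure (vol m) :=
  isFiniteMeasure_withDensity_ofReal (B.intg (cont_rho m) B.μ).2
theorem Pos.vol_pos (h : Pos m) : (vol m).IsOpenPosMeasure := by
  have : B.μ ≪ vol m := by
    refine withDensity_absolutelyContinuous' ?_ (Eventually.of_forall fun x => ?_)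
    · exact (cont_rho m).measurable.ennreal_ofReal.aemeasurable
    · exact (ENNReal.ofReal_pos.2 (h.rho_pos x)).ne'
  exact this.isOpenPosMeasure
theorem integral_vol (m : B.Me) {f : B.M → ℝ} (hf : Continuous f) :
    ∫ x, f x ∂vol m = ∫ x, f x * rho m x ∂B.μ := by
  rw [vol, integral_withDensity_eq_integral_toReal_smul
    (cont_rho m).measurable.ennreal_ofReal (Eventually.of_forall fun x => ENNReal.ofReal_lt_top)]
  refine integral_congr_ae (Eventually.of_forall fun x => ?_)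
  have : 0 ≤ rho m x := Real.sqrt_nonneg _
  simp only [ENNReal.toReal_ofReal this, smul_eq_mul, mul_comm]
theorem Ell.integral (h : Ell c m) (hc : 0 < c) {f : B.M → ℝ} (hf : Continuous f)
    (f0 : ∀ x, 0 ≤ f x) :
    c ^ 2 * ∫ x, f x ∂B.μ ≤ ∫ x, f x ∂vol m ∧ ∫ x, f x ∂vol m ≤ c⁻¹ ^ 2 * ∫ x, f x ∂B.μ := by
  have h1 := h.le_one hc
  have hi : 1 ≤ c⁻¹ := (one_le_inv₀ hc).2 h1
  have lo : ∀ x, c ^ 2 ≤ rho m x := fun x => by
    refine Real.le_sqrt_of_sq_le (le_trans ?_ (h.det hc x).1)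
    rw [← pow_mul]
    exact pow_le_pow_of_le_one hc.le h1 (by norm_num)
  have hi' : ∀ x, rho m x ≤ c⁻¹ ^ 2 := fun x => by
    refine Real.sqrt_le_iff.2 ⟨by positivity, le_trans (h.det hc x).2 ?_⟩
    rw [← pow_mul]
    exact pow_le_pow_right₀ hi (by norm_num)
  rw [integral_vol m hf, ← integral_const_mul, ← integral_const_mul]
  have i1 := B.intg (hf.mul (cont_rho m)) B.μ
  have i2 := fun r : ℝ => (B.intg hf B.μ).const_mul r
  refine ⟨integral_mono (i2 _) i1 fun x => ?_, integral_mono i1 (i2 _) fun x => ?_⟩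
  · show c ^ 2 * f x ≤ f x * rho m x
    rw [mul_comm]
    exact mul_le_mul_of_nonneg_left (lo x) (f0 x)
  · show f x * rho m x ≤ c⁻¹ ^ 2 * f x
    rw [mul_comm]
    exact mul_le_mul_of_nonneg_right (hi' x) (f0 x)
theorem integral_conf (h : Pos m) {w v : B.A} (hw : w * v = 1) (hv : Gt0 v) {f : B.M → ℝ}
    (hf : Continuous f) : ∫ x, f x ∂vol (m.conf w v hw) = ∫ x, f x * v.1 x ^ 3 ∂vol m := by
  rw [integral_vol _ hf, integral_vol m (f := fun x => f x * v.1 x ^ 3)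
    (hf.mul ((B.cont v).pow 3))]
  refine integral_congr_ae (Eventually.of_forall fun x => ?_)
  simp only [rho_conf h hw hv x, mul_assoc]
theorem I_conf (h : Pos m) {w v : B.A} (hw : w * v = 1) (hv : Gt0 v) (a : B.A) :
    I (m.conf w v hw) a = I m (a * v ^ 3) :=
  integral_conf h hw hv (B.cont a)
theorem I_add (m : B.Me) (a b : B.A) : I m (a + b) = I m a + I m b :=
  integral_add (B.intg (B.cont a) _) (B.intg (B.cont b) _)
theorem I_sub (m : B.Me) (a b : B.A) : I m (a - b) = I m a - I m b :=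
  integral_sub (B.intg (B.cont a) _) (B.intg (B.cont b) _)
theorem I_neg (m : B.Me) (a : B.A) : I m (-a) = -I m a :=
  integral_neg _
theorem I_zero (m : B.Me) : I m 0 = 0 :=
  integral_zero _ _
theorem I_smul (m : B.Me) (r : ℝ) (a : B.A) : I m (r • a) = r * I m a :=
  integral_const_mul r a.1
theorem I_cst_mul (m : B.Me) (r : ℝ) (a : B.A) : I m (B.cst r * a) = r * I m a :=
  integral_const_mul r a.1
theorem I_ofNat_mul (m : B.Me) (n : ℕ) [n.AtLeastTwo] (a : B.A) :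
    I m (OfNat.ofNat n * a) = OfNat.ofNat n * I m a := by
  rw [← map_ofNat (algebraMap ℝ B.A) n]
  exact I_cst_mul m _ a
theorem I_hf_mul (m : B.Me) (a : B.A) : I m (hf B.A * a) = I m a / 2 := by
  rw [show I m (hf B.A * a) = 1 / 2 * I m a from I_cst_mul m _ a]
  ring
theorem I_one (m : B.Me) : I m 1 = (vol m).real univ := by
  have : I m 1 = ∫ _, (1 : ℝ) ∂vol m := rfl
  rw [this, integral_const, smul_eq_mul, mul_one]
theorem I_mono (m : B.Me) {a b : B.A} (h : ∀ x, a.1 x ≤ b.1 x) : I m a ≤ I m b :=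
  integral_mono (B.intg (B.cont a) _) (B.intg (B.cont b) _) h
theorem I_nonneg (m : B.Me) {a : B.A} (h : Ge0 a) : 0 ≤ I m a :=
  integral_nonneg h
theorem Pos.I_pos (h : Pos m) {a : B.A} (ha : Gt0 a) : 0 < I m a := by
  have := h.vol_pos
  obtain ⟨y⟩ := B.nonempty
  exact int_pos (vol m) (B.cont a) (fun x => (ha x).le) (ha y)
theorem Pos.eq_zero (h : Pos m) {a : B.A} (ha : Ge0 a) (h0 : I m a ≤ 0) : a = 0 := by
  have := h.vol_pos
  apply Subtype.ext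
  funext y
  by_contra hy
  exact absurd (int_pos (vol m) (B.cont a) ha (lt_of_le_of_ne (ha y) (Ne.symm hy))) (not_lt.2 h0)
theorem hf_val (x : B.M) : (hf B.A).1 x = 1 / 2 := rfl
theorem ofNat_val (n : ℕ) [n.AtLeastTwo] (x : B.M) :
    (OfNat.ofNat n : B.A).1 x = OfNat.ofNat n := by
  rw [← map_ofNat (algebraMap ℝ B.A) n]
  rfl
theorem cst_val (r : ℝ) (x : B.M) : (B.cst r).1 x = r := rfl
/-- `div1_eq`, `X_det` and `ibp` for the vector field `rho • γ η`. -/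
theorem Pos.I_div1 (h : Pos m) (η : Fin B.N → B.A) : I m (m.div1 η) = 0 := by
  obtain ⟨r, hr, hrr⟩ := h.rho_mem
  obtain ⟨b, hb⟩ := exists_inv (a := r) fun x => by rw [hr]; exact (h.rho_pos x).ne'
  have hX : ∀ l, B.F.X l r = hf B.A * r * m.tr (B.F.XM l m.G) := fun l => by
    have E := m.X_det l
    rw [← hrr, B.F.X_mul] at E
    linear_combination (hf B.A * b) * E - B.F.X l r * two_hf (A := B.A) +
      (hf B.A * r * m.tr (B.F.XM l m.G) - 2 * hf B.A * B.F.X l r) * hb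
  have hv : B.F.π *ᵥ (r • (m.γ *ᵥ η)) = r • (m.γ *ᵥ η) := by
    rw [mulVec_smul, mulVec_mulVec, m.πγ]
  have key : ∑ l, B.F.X l ((r • (m.γ *ᵥ η)) l) = m.div1 η * r := by
    rw [m.div1_eq, add_mul, Finset.mul_sum, Finset.sum_mul, Finset.sum_mul,
      ← Finset.sum_add_distrib]
    refine Finset.sum_congr rfl fun l _ => ?_
    rw [Pi.smul_apply, smul_eq_mul, B.F.X_mul, hX]
    ring
  have := B.ibp _ hv
  rw [key] at this
  rw [I, integral_vol m (B.cont _), ← hr]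
  exact this
theorem Pos.I_lap (h : Pos m) (a : B.A) : I m (m.lap a) = 0 :=
  h.I_div1 (B.F.d0 a)
theorem Pos.ibp (h : Pos m) (a b : B.A) : I m (a * m.lap b) = -I m (m.gam a b) := by
  have := h.I_div1 (a • B.F.d0 b)
  rw [m.div1_smul, I_add] at this
  exact eq_neg_of_add_eq_zero_left this
theorem Pos.ibp_symm (h : Pos m) (a b : B.A) : I m (a * m.lap b) = I m (b * m.lap a) := by
  rw [h.ibp, h.ibp, m.gam_comm]
theorem Pos.ibp1 (h : Pos m) (a : B.A) (η : Fin B.N → B.A) :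
    I m (a * m.div1 η) = -I m (m.ip1 (B.F.d0 a) η) := by
  have := h.I_div1 (a • η)
  rw [m.div1_smul, I_add] at this
  exact eq_neg_of_add_eq_zero_left this
theorem Pos.ibp2 (h : Pos m) (T : B.Mat) (η : Fin B.N → B.A) :
    I m (m.ip2 T (m.d1 η)) = -I m (m.ip1 (m.div2 T) η) := by
  have := h.I_div1 (T *ᵥ (m.γ *ᵥ η))
  rw [m.div1_mulVec, I_add] at this
  exact eq_neg_of_add_eq_zero_right this
theorem Pos.ibp3 (h : Pos m) (Θ : Fin B.N → B.Mat) (T : B.Mat) :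
    I m (m.ip3 Θ (m.d2 T)) = -I m (m.ip2 (m.div3 Θ) T) := by
  have := h.I_div1 fun j => m.ip2 (Θ j) T
  rw [m.div_pair m.isPair2, I_add] at this
  exact eq_neg_of_add_eq_zero_right this
theorem Pos.I_bochner (h : Pos m) (a : B.A) :
    I m (m.lap a ^ 2) = I m (m.ip2 (m.hess a) (m.hess a)) + I m (m.quad m.Ric a a) := by
  have e := congrArg (I m) (m.bochner a)
  rw [I_hf_mul, h.I_lap, I_add, I_add, m.gam_comm] at e
  rw [pow_two, h.ibp]
  linarith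
theorem St2_aux (h : Pos m) : ∃ C, 0 < C ∧ ∀ a : B.A,
    ∫ x, (∑ i, (B.F.X i a).1 x ^ 2 + a.1 x ^ 2) ∂B.μ ≤ C * (I m (m.gam a a) + I m (a ^ 2)) ∧
      I m (m.gam a a) + I m (a ^ 2) ≤
        C * ∫ x, (∑ i, (B.F.X i a).1 x ^ 2 + a.1 x ^ 2) ∂B.μ := by
  obtain ⟨c, hc, he⟩ := h
  have h1 := he.le_one hc
  have hi : 1 ≤ c⁻¹ := (one_le_inv₀ hc).2 h1
  refine ⟨c⁻¹ ^ 3, by positivity, fun a => ?_⟩
  have cS : Continuous fun x => ∑ i, (B.F.X i a).1 x ^ 2 + a.1 x ^ 2 :=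
    (continuous_finsetSum _ fun i _ => (B.cont _).pow 2).add ((B.cont a).pow 2)
  have e := he.integral hc cS fun x => by positivity
  have iS := fun r : ℝ => (B.intg cS (vol m)).const_mul r
  have iG := B.intg (B.cont (m.gam a a + a ^ 2)) (vol m)
  have lo : c * ∫ x, (∑ i, (B.F.X i a).1 x ^ 2 + a.1 x ^ 2) ∂vol m ≤ I m (m.gam a a + a ^ 2) := by
    rw [← integral_const_mul]
    refine integral_mono (iS c) iG fun x => ?_
    show c * (∑ i, (B.F.X i a).1 x ^ 2 + a.1 x ^ 2) ≤ (m.gam a a).1 x + a.1 x ^ 2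
    have := (he.gam hc a x).1
    nlinarith [sq_nonneg (a.1 x)]
  have up : I m (m.gam a a + a ^ 2) ≤
      c⁻¹ * ∫ x, (∑ i, (B.F.X i a).1 x ^ 2 + a.1 x ^ 2) ∂vol m := by
    rw [← integral_const_mul]
    refine integral_mono iG (iS _) fun x => ?_
    show (m.gam a a).1 x + a.1 x ^ 2 ≤ c⁻¹ * (∑ i, (B.F.X i a).1 x ^ 2 + a.1 x ^ 2)
    have := (he.gam hc a x).2
    nlinarith [sq_nonneg (a.1 x)]
  rw [← I_add]
  constructor
  · rw [inv_pow, le_inv_mul_iff₀ (by positivity)]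
    refine le_trans ?_ lo
    rw [pow_succ', mul_assoc]
    exact mul_le_mul_of_nonneg_left e.1 hc.le
  · refine up.trans ?_
    rw [pow_succ', mul_assoc]
    exact mul_le_mul_of_nonneg_left e.2 (by positivity)
theorem Pos.sob6 (h : Pos m) : ∃ C, 0 < C ∧ ∀ a : B.A,
    I m (a ^ 6) ^ (1 / 3 : ℝ) ≤ C * (I m (m.gam a a) + I m (a ^ 2)) := by
  obtain ⟨C₁, hC₁, h1⟩ := St2_aux h
  obtain ⟨c, hc, he⟩ := h
  obtain ⟨C₀, hC₀⟩ := B.sob
  refine ⟨(c⁻¹ ^ 2) ^ (1 / 3 : ℝ) * ((|C₀| + 1) * C₁), by positivity, fun a => ?_⟩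
  have p6 : ∀ x, 0 ≤ a.1 x ^ 6 := fun x => by positivity
  have e1 : I m (a ^ 6) ≤ c⁻¹ ^ 2 * ∫ x, a.1 x ^ 6 ∂B.μ :=
    (he.integral hc ((B.cont a).pow 6) p6).2
  have e2 : I m (a ^ 6) ^ (1 / 3 : ℝ) ≤
      (c⁻¹ ^ 2) ^ (1 / 3 : ℝ) * (∫ x, a.1 x ^ 6 ∂B.μ) ^ (1 / 3 : ℝ) := by
    rw [← Real.mul_rpow (by positivity) (integral_nonneg p6)]
    exact Real.rpow_le_rpow (I_nonneg m p6) e1 (by norm_num)
  refine e2.trans ?_
  rw [mul_assoc]
  refine mul_le_mul_of_nonneg_left ((hC₀ a).trans ?_) (by positivity)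
  have s0 : 0 ≤ ∫ x, (∑ i, (B.F.X i a).1 x ^ 2 + a.1 x ^ 2) ∂B.μ :=
    integral_nonneg fun x => by positivity
  rw [mul_assoc]
  refine (mul_le_mul_of_nonneg_right (show C₀ ≤ |C₀| + 1 by linarith [le_abs_self C₀]) s0).trans ?_
  exact mul_le_mul_of_nonneg_left (h1 a).1 (by positivity)
theorem Pos.nrm0 (h : Pos m) : ∃ C, 0 < C ∧ ∀ a : B.A,
    B.nrm 0 a ^ 2 ≤ C * I m (a ^ 2) ∧ I m (a ^ 2) ≤ C * B.nrm 0 a ^ 2 := by
  obtain ⟨c, hc, he⟩ := h
  refine ⟨c⁻¹ ^ 2, by positivity, fun a => ?_⟩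
  have e := he.integral hc ((B.cont a).pow 2) fun x => sq_nonneg (a.1 x)
  rw [B.nrm_zero_sq]
  refine ⟨?_, e.2⟩
  rw [inv_pow, le_inv_mul_iff₀ (by positivity)]
  exact e.1
theorem Pos.nrm1 (h : Pos m) : ∃ C, 0 < C ∧ ∀ a : B.A,
    B.nrm 1 a ^ 2 ≤ C * (I m (m.gam a a) + I m (a ^ 2)) ∧
      I m (m.gam a a) + I m (a ^ 2) ≤ C * B.nrm 1 a ^ 2 := by
  obtain ⟨C, hC, h1⟩ := St2_aux h
  refine ⟨C, hC, fun a => ?_⟩
  have e : B.nrm 1 a ^ 2 = ∫ x, (∑ i, (B.F.X i a).1 x ^ 2 + a.1 x ^ 2) ∂B.μ := by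
    have i1 : ∀ i, Integrable (fun x => (B.F.X i a).1 x ^ 2) B.μ :=
      fun i => B.intg ((B.cont _).pow 2) _
    have i2 : Integrable (fun x => a.1 x ^ 2) B.μ := B.intg ((B.cont _).pow 2) _
    rw [B.nrm_succ_sq 0, integral_add (integrable_finsetSum _ fun i _ => i1 i) i2,
      integral_finsetSum _ fun i _ => i1 i, add_comm]
    simp only [B.nrm_zero_sq]
  rw [e]
  exact h1 a

end Base

end Pool.Agent.MP_9bd639_gt.H88

end

-- part Ell
section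

/-! Elliptic theory of the operator `V - 2 Δ` for a fixed metric. -/

open Matrix MeasureTheory Filter Topology Set
open scoped ContDiff

namespace Pool.Agent.MP_9bd639_gt.H88

namespace Base

variable {B : Base} {m : B.Me} {V : B.A}

/-- Operators of order two without a term of order zero. -/
def Ell_Op (B : Base) (L : B.A → B.A) : Prop :=
  ∃ (a : B.Mat) (b : Fin B.N → B.A), ∀ u : B.A,
    L u = ∑ j, ∑ l, a j l * B.F.X j (B.F.X l u) + ∑ l, b l * B.F.X l u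

theorem Ell_Op_add {L L' : B.A → B.A} (h : Ell_Op B L) (h' : Ell_Op B L') :
    Ell_Op B fun u => L u + L' u := by
  obtain ⟨a, b, h⟩ := h
  obtain ⟨a', b', h'⟩ := h'
  refine ⟨a + a', b + b', fun u => ?_⟩
  simp only [h, h', Matrix.add_apply, Pi.add_apply, add_mul, Finset.sum_add_distrib]
  ring

theorem Ell_Op_mul (c : B.A) {L : B.A → B.A} (h : Ell_Op B L) : Ell_Op B fun u => c * L u := by
  obtain ⟨a, b, h⟩ := h
  refine ⟨of fun j l => c * a j l, fun l => c * b l, fun u => ?_⟩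
  simp only [h, of_apply, mul_add, Finset.mul_sum, mul_assoc]

theorem Ell_Op_sub {L L' : B.A → B.A} (h : Ell_Op B L) (h' : Ell_Op B L') :
    Ell_Op B fun u => L u - L' u := by
  have e : (fun u => L u - L' u) = fun u => L u + (-1) * L' u := funext fun u => by ring
  rw [e]
  exact Ell_Op_add h (Ell_Op_mul _ h')

theorem Ell_Op_sum {κ : Type} (s : Finset κ) {L : κ → B.A → B.A} (h : ∀ n, Ell_Op B (L n)) :
    Ell_Op B fun u => ∑ n ∈ s, L n u := by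
  classical
  induction s using Finset.induction_on with
  | empty => exact ⟨0, 0, fun u => by simp⟩
  | insert n s hn ih =>
    simp only [Finset.sum_insert hn]
    exact Ell_Op_add (h n) ih

theorem Ell_Op_XX (j l : Fin B.N) : Ell_Op B fun u => B.F.X j (B.F.X l u) := by
  refine ⟨of fun j' l' => if j' = j then if l' = l then 1 else 0 else 0, 0, fun u => ?_⟩
  simp [ite_mul, Finset.sum_ite_eq']

theorem Ell_Op_X (l : Fin B.N) : Ell_Op B fun u => B.F.X l u := by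
  refine ⟨0, fun l' => if l' = l then 1 else 0, fun u => ?_⟩
  simp [ite_mul, Finset.sum_ite_eq']

theorem Ell_Op_lap (m : B.Me) : Ell_Op B fun u => m.lap u := by
  simp only [m.lap_eq, Met.L0]
  exact Ell_Op_sub (Ell_Op_sum _ fun i => Ell_Op_sum _ fun j => Ell_Op_mul _ (Ell_Op_XX i j))
    (Ell_Op_sum _ fun l => Ell_Op_mul _ (Ell_Op_X l))

theorem Ell_sum_bd {κ : Type} [Fintype κ] {W : B.A → ℝ} (k : ℕ) {L : κ → B.A → B.A}
    (hW : ∀ u, 0 ≤ W u) (h : ∀ n, ∃ C, 0 < C ∧ ∀ u, B.nrm k (L n u) ≤ C * W u) :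
    ∃ C, 0 < C ∧ ∀ u, ∑ n, B.nrm k (L n u) ≤ C * W u := by
  choose C C0 hC using h
  have h0 : 0 ≤ ∑ n, C n := Finset.sum_nonneg fun n _ => (C0 n).le
  refine ⟨∑ n, C n + 1, by positivity, fun u => ?_⟩
  have h1 : ∑ n, B.nrm k (L n u) ≤ ∑ n, C n * W u := Finset.sum_le_sum fun n _ => hC n u
  rw [← Finset.sum_mul] at h1
  have := hW u
  nlinarith

theorem Ell_mul_bd (k : ℕ) (a : B.A) : ∃ C, 0 < C ∧ ∀ u, B.nrm k (a * u) ≤ C * B.nrm k u := by
  obtain ⟨K, K0, hK⟩ := B.exists_mult k a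
  exact ⟨K, K0, hK k le_rfl⟩

theorem Ell_first_bd (k : ℕ) (b : Fin B.N → B.A) : ∃ C, 0 < C ∧ ∀ u,
    B.nrm k (∑ l, b l * B.F.X l u) ≤ C * B.nrm (k + 1) u := by
  obtain ⟨C, C0, hC⟩ := Ell_sum_bd (W := B.nrm (k + 1)) k (L := fun l u => b l * B.F.X l u)
    (B.nrm_nonneg _) fun l => by
      obtain ⟨K, K0, hK⟩ := Ell_mul_bd k (b l)
      exact ⟨K, K0, fun u => (hK _).trans (mul_le_mul_of_nonneg_left (B.nrm_X k l u) K0.le)⟩
  exact ⟨C, C0, fun u => (B.nrm_sum _ k _).trans (hC u)⟩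

theorem Ell_Op_bd {L : B.A → B.A} (h : Ell_Op B L) (k : ℕ) : ∃ C, 0 < C ∧ ∀ u,
    B.nrm k (L u) ≤ C * B.nrm (k + 2) u := by
  obtain ⟨a, b, h⟩ := h
  obtain ⟨C, C0, hC⟩ := Ell_sum_bd (W := B.nrm (k + 2)) k
    (L := fun l u => ∑ j, a j l * B.F.X j (B.F.X l u)) (B.nrm_nonneg _) fun l => by
      obtain ⟨K, K0, hK⟩ := Ell_first_bd k fun j => a j l
      exact ⟨K, K0, fun u => (hK _).trans (mul_le_mul_of_nonneg_left (B.nrm_X (k + 1) l u) K0.le)⟩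
  obtain ⟨D, D0, hD⟩ := Ell_first_bd k b
  refine ⟨C + D, by positivity, fun u => ?_⟩
  rw [h, Finset.sum_comm]
  have h1 := (B.nrm_sum _ k _).trans (hC u)
  have h2 := (hD u).trans (mul_le_mul_of_nonneg_left (B.nrm_mono (Nat.le_succ (k + 1)) u) D0.le)
  refine (B.nrm_add k _ _).trans ?_
  linarith

theorem Ell_val (m : B.Me) (V u : B.A) (x : B.M) :
    (V * u - 2 * m.lap u).1 x = V.1 x * u.1 x - 2 * (m.lap u).1 x := by
  rw [← ofNat_val (B := B) 2 x]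
  rfl

/-- The commutator of `X i` with the Laplacian is an operator of order two (`lap_eq`, `tors`). -/
theorem X_lap (m : B.Me) (i : Fin B.N) : ∃ (a : B.Mat) (b : Fin B.N → B.A), ∀ u : B.A,
    B.F.X i (m.lap u) = m.lap (B.F.X i u) + ∑ j, ∑ l, a j l * B.F.X j (B.F.X l u) +
      ∑ l, b l * B.F.X l u := by
  have h3 : ∀ j l, Ell_Op B fun u =>
      B.F.X i (B.F.X j (B.F.X l u)) - B.F.X j (B.F.X l (B.F.X i u)) := fun j l => by
    have e : (fun u => B.F.X i (B.F.X j (B.F.X l u)) - B.F.X j (B.F.X l (B.F.X i u))) = fun u =>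
        ∑ n, (m.Γ i j n - m.Γ j i n) * B.F.X n (B.F.X l u) +
        ∑ n, (B.F.X j (m.Γ i l n - m.Γ l i n) * B.F.X n u +
          (m.Γ i l n - m.Γ l i n) * B.F.X j (B.F.X n u)) := funext fun u => by
      simp only [← B.F.X_mul]
      rw [← map_sum, ← m.tors, ← m.tors, map_sub]
      ring
    rw [e]
    exact Ell_Op_add (Ell_Op_sum _ fun n => Ell_Op_mul _ (Ell_Op_XX n l))
      (Ell_Op_sum _ fun n => Ell_Op_add (Ell_Op_mul _ (Ell_Op_X n)) (Ell_Op_mul _ (Ell_Op_XX j n)))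
  have h : Ell_Op B fun u => B.F.X i (m.lap u) - m.lap (B.F.X i u) := by
    have e : (fun u => B.F.X i (m.lap u) - m.lap (B.F.X i u)) = fun u =>
        ∑ j, ∑ l, (B.F.X i (m.γ j l) * B.F.X j (B.F.X l u) + m.γ j l *
          (B.F.X i (B.F.X j (B.F.X l u)) - B.F.X j (B.F.X l (B.F.X i u)))) -
        ∑ l, (B.F.X i (m.b0 l) * B.F.X l u +
          m.b0 l * (B.F.X i (B.F.X l u) - B.F.X l (B.F.X i u))) := funext fun u => by
      simp only [m.lap_eq, Met.L0, map_sub, map_sum, B.F.X_mul, mul_sub, Finset.sum_add_distrib,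
        Finset.sum_sub_distrib]
      ring
    rw [e]
    exact Ell_Op_sub (Ell_Op_sum _ fun j => Ell_Op_sum _ fun l =>
        Ell_Op_add (Ell_Op_mul _ (Ell_Op_XX j l)) (Ell_Op_mul _ (h3 j l)))
      (Ell_Op_sum _ fun l => Ell_Op_add (Ell_Op_mul _ (Ell_Op_X l))
        (Ell_Op_mul _ (Ell_Op_sub (Ell_Op_XX i l) (Ell_Op_XX l i))))
  obtain ⟨a, b, h⟩ := h
  exact ⟨a, b, fun u => by linear_combination h u⟩

theorem Ell_hess (h : Pos m) (i j : Fin B.N) : ∃ C, 0 < C ∧ ∀ u : B.A,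
    B.nrm 0 (m.hess u i j) ≤ C * (B.nrm 0 (m.lap u) + B.nrm 1 u) := by
  obtain ⟨C0, p0, h0⟩ := h.nrm0
  obtain ⟨C1, p1, h1⟩ := h.nrm1
  obtain ⟨K, pK, hK⟩ := B.exists_bd (B.cont (m.ip2 m.Ric m.Ric))
  obtain ⟨c, hc, he⟩ := id h
  have hq : ∀ u : B.A, I m (-m.quad m.Ric u u) ≤ I m ((K + 1) • m.gam u u) := fun u =>
    I_mono m fun x => by
      obtain ⟨p, hp⟩ := h.pt x
      have a1 := p.quad_sq_le m.Ric u u
      simp only [hp, ev_apply] at a1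
      have a2 := h.gam_nonneg u x
      have a3 := (abs_le.1 (hK x)).2
      have a4 : (m.quad m.Ric u u).1 x ^ 2 ≤ ((K + 1) * (m.gam u u).1 x) ^ 2 := by
        have b1 := mul_self_nonneg ((m.gam u u).1 x)
        have b2 := mul_le_mul_of_nonneg_right (a3.trans (show K ≤ (K + 1) ^ 2 by nlinarith)) b1
        linarith
      exact neg_le.1 (abs_le.1 (abs_le_of_sq_le_sq a4 (by positivity))).1
  have hh : ∀ u : B.A, I m (m.hess u i j ^ 2) ≤
      I m (c⁻¹ ^ 2 • m.ip2 (m.hess u) (m.hess u)) := fun u =>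
    I_mono m fun x => by
      obtain ⟨p, hp⟩ := h.pt x
      have a1 := p.entry2_sq_le (m.ST_hess u).tan (m.ST_hess u).tan' i j
      simp only [hp, ev_apply] at a1
      have a2 := h.ip2_nonneg (m.hess u) x
      have a3 : (m.G i i).1 x * (m.G j j).1 x ≤ c⁻¹ ^ 2 := by
        have b1 := he.G_le hc i i x
        have b2 := he.G_le hc j j x
        calc _ ≤ |(m.G i i).1 x| * |(m.G j j).1 x| := by rw [← abs_mul]; exact le_abs_self _
          _ ≤ c⁻¹ * c⁻¹ := mul_le_mul b1 b2 (abs_nonneg _) (by positivity)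
          _ = _ := by ring
      exact a1.trans (mul_le_mul_of_nonneg_right a3 a2)
  refine ⟨Real.sqrt (C0 * c⁻¹ ^ 2 * (C0 + (K + 1) * C1)), by positivity, fun u => ?_⟩
  have n0 := B.nrm_nonneg 0 (m.lap u)
  have n1 := B.nrm_nonneg 1 u
  refine abs_le_of_sq_le_sq' ?_ (by positivity) |>.2
  rw [mul_pow, Real.sq_sqrt (by positivity)]
  have b1 := (h0 (m.hess u i j)).1
  have b2 := hh u
  have b3 := hq u
  have b4 := h.I_bochner u
  have b5 := (h0 (m.lap u)).2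
  have b6 := (h1 u).2
  have b7 : 0 ≤ I m (u ^ 2) := I_nonneg m fun x => sq_nonneg (u.1 x)
  rw [I_smul] at b2 b3
  rw [I_neg] at b3
  have b8 : I m (m.ip2 (m.hess u) (m.hess u)) ≤
      (C0 + (K + 1) * C1) * (B.nrm 0 (m.lap u) + B.nrm 1 u) ^ 2 := by
    have c1 : (K + 1) * I m (m.gam u u) ≤ (K + 1) * (C1 * B.nrm 1 u ^ 2) :=
      mul_le_mul_of_nonneg_left (by linarith) (by positivity)
    have c2 : C0 * B.nrm 0 (m.lap u) ^ 2 ≤ C0 * (B.nrm 0 (m.lap u) + B.nrm 1 u) ^ 2 := by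
      gcongr; linarith
    have c3 : (K + 1) * (C1 * B.nrm 1 u ^ 2) ≤
        (K + 1) * (C1 * (B.nrm 0 (m.lap u) + B.nrm 1 u) ^ 2) := by
      gcongr; linarith
    linarith
  calc _ ≤ C0 * (c⁻¹ ^ 2 * I m (m.ip2 (m.hess u) (m.hess u))) :=
        b1.trans (mul_le_mul_of_nonneg_left b2 p0.le)
    _ ≤ C0 * (c⁻¹ ^ 2 * ((C0 + (K + 1) * C1) * (B.nrm 0 (m.lap u) + B.nrm 1 u) ^ 2)) := by gcongr
    _ = _ := by ring

theorem Ell_garding0 (h : Pos m) : ∃ C, 0 < C ∧ ∀ u : B.A,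
    B.nrm 2 u ≤ C * (B.nrm 0 (m.lap u) + B.nrm 0 u) := by
  have hW : ∀ u : B.A, 0 ≤ B.nrm 0 (m.lap u) + B.nrm 1 u := fun u =>
    add_nonneg (B.nrm_nonneg _ _) (B.nrm_nonneg _ _)
  obtain ⟨C, C0, hC⟩ := Ell_sum_bd 1 (L := fun j u => B.F.X j u) hW fun j => by
    obtain ⟨D, D0, hD⟩ := Ell_sum_bd 0 (L := fun i u => B.F.X i (B.F.X j u)) hW fun i => by
      obtain ⟨E, E0, hE⟩ := Ell_hess h i j
      obtain ⟨G, G0, hG⟩ := Ell_first_bd 0 fun l => m.Γ i j l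
      refine ⟨E + G, by positivity, fun u => ?_⟩
      have e : B.F.X i (B.F.X j u) = m.hess u i j + ∑ l, m.Γ i j l * B.F.X l u := by
        rw [m.hess_apply]; ring
      have h1 := B.nrm_add 0 (m.hess u i j) (∑ l, m.Γ i j l * B.F.X l u)
      have h2 := mul_nonneg G0.le (B.nrm_nonneg 0 (m.lap u))
      have h3 := hE u
      have h4 := hG u
      rw [e]
      linarith
    refine ⟨D + 1, by positivity, fun u => ?_⟩
    have h1 := B.nrm_succ_le 0 (B.F.X j u)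
    have h2 := B.nrm_X 0 j u
    have h3 := hD u
    have h4 := B.nrm_nonneg 0 (m.lap u)
    linarith
  obtain ⟨D, D0, hD⟩ := B.interp0 1 (η := 1 / (2 * C)) (by positivity)
  refine ⟨2 * (1 + C + C * D), by positivity, fun u => ?_⟩
  have h1 := B.nrm_succ_le 1 u
  have h2 := hC u
  have h3 := mul_le_mul_of_nonneg_left (hD u) C0.le
  have h4 : C * (1 / (2 * C) * B.nrm (1 + 1) u + D * B.nrm 0 u) =
      B.nrm 2 u / 2 + C * D * B.nrm 0 u := by
    field_simp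
  have n0 := B.nrm_nonneg 0 (m.lap u)
  have n1 := B.nrm_nonneg 0 u
  have h5 := mul_nonneg C0.le n1
  have h6 := mul_nonneg (mul_pos C0 D0).le n0
  rw [h4] at h3
  linarith

/-- The case `k = 0` is `I_bochner` with `hess_apply` and `entry2_sq_le`; then induction with
`X_lap`, `exists_mult`, `interp0`. -/
theorem Pos.garding (h : Pos m) (k : ℕ) : ∃ C, 0 < C ∧ ∀ u : B.A,
    B.nrm (k + 2) u ≤ C * (B.nrm k (m.lap u) + B.nrm 0 u) := by
  induction k with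
  | zero => exact Ell_garding0 h
  | succ k ih =>
    obtain ⟨C, C0, hC⟩ := ih
    have hW : ∀ u : B.A, 0 ≤ B.nrm (k + 1) (m.lap u) + B.nrm 0 u := fun u =>
      add_nonneg (B.nrm_nonneg _ _) (B.nrm_nonneg _ _)
    obtain ⟨D, D0, hD⟩ := Ell_sum_bd (k + 2) (L := fun i u => B.F.X i u) hW fun i => by
      obtain ⟨a, b, hab⟩ := X_lap m i
      obtain ⟨E, E0, hE⟩ := Ell_Op_bd (L := fun u => B.F.X i (m.lap u) - m.lap (B.F.X i u))
        ⟨a, b, fun u => by linear_combination hab u⟩ k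
      refine ⟨C * (1 + (E + 1) * C), by positivity, fun u => ?_⟩
      have h1 := B.nrm_sub k (B.F.X i (m.lap u)) (B.F.X i (m.lap u) - m.lap (B.F.X i u))
      rw [sub_sub_cancel] at h1
      have h2 := B.nrm_X k i (m.lap u)
      have h3 := (B.nrm_X 0 i u).trans (B.nrm_mono (show 0 + 1 ≤ k + 2 by omega) u)
      have h4 := (hC u).trans (mul_le_mul_of_nonneg_left
        (add_le_add_left (B.nrm_mono (Nat.le_succ k) (m.lap u)) _) C0.le)
      have h5 := mul_le_mul_of_nonneg_left h4 (show 0 ≤ E + 1 by positivity)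
      have h6 := hE u
      have h7 := B.nrm_nonneg 0 u
      refine (hC _).trans ?_
      rw [mul_assoc]
      refine mul_le_mul_of_nonneg_left ?_ C0.le
      linarith
    refine ⟨D + 1, by positivity, fun u => ?_⟩
    have h1 := B.nrm_succ_le (k + 2) u
    have h2 := hD u
    have h3 := B.nrm_nonneg (k + 1) (m.lap u)
    linarith

theorem Ell_min (h : Pos m) (u : B.A) : ∃ y, (∀ x, u.1 y ≤ u.1 x) ∧ 0 ≤ (m.lap u).1 y := by
  obtain ⟨y, -, hy⟩ := isCompact_univ.exists_isMinOn univ_nonempty (B.cont u).continuousOn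
  have h1 : ∀ x, u.1 y ≤ u.1 x := fun x => hy (mem_univ x)
  have h2 := (h.maxpt (a := -u) (x := y) fun x => neg_le_neg (h1 x)).1
  rw [m.lap_neg] at h2
  exact ⟨y, h1, neg_nonpos.1 h2⟩

theorem Pos.mp (h : Pos m) (hV : Gt0 V) {u : B.A} (hu : Ge0 (V * u - 2 * m.lap u)) : Ge0 u := by
  obtain ⟨y, h1, h2⟩ := Ell_min h u
  have h3 := hu y
  rw [Ell_val] at h3
  exact fun x => (nonneg_of_mul_nonneg_right (by linarith) (hV y)).trans (h1 x)

theorem Pos.mp' (h : Pos m) (hV : Gt0 V) {u : B.A} (hu : Gt0 (V * u - 2 * m.lap u)) :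
    Gt0 u := by
  obtain ⟨y, h1, h2⟩ := Ell_min h u
  have h3 := hu y
  rw [Ell_val] at h3
  exact fun x => ((mul_pos_iff_of_pos_left (hV y)).1 (by linarith)).trans_le (h1 x)

theorem Pos.L_inj (h : Pos m) (hV : Gt0 V) {u : B.A} (hu : V * u - 2 * m.lap u = 0) :
    u = 0 := by
  have h1 : Ge0 u := h.mp hV (by rw [hu]; exact fun x => le_rfl)
  have h2 : Ge0 (-u) := h.mp hV (by
    rw [m.lap_neg, show V * -u - 2 * -m.lap u = -(V * u - 2 * m.lap u) by ring, hu, neg_zero]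
    exact fun x => le_rfl)
  exact Subtype.ext (funext fun x => le_antisymm (neg_nonneg.1 (h2 x)) (h1 x))

theorem Pos.L_symm (h : Pos m) (V u v : B.A) :
    I m ((V * u - 2 * m.lap u) * v) = I m (u * (V * v - 2 * m.lap v)) := by
  rw [show (V * u - 2 * m.lap u) * v = V * u * v - 2 * (v * m.lap u) by ring,
    show u * (V * v - 2 * m.lap v) = V * u * v - 2 * (u * m.lap v) by ring,
    I_sub, I_sub, I_ofNat_mul, I_ofNat_mul, h.ibp_symm]

theorem Pos.L_Q (h : Pos m) (V u : B.A) : I m ((V * u - 2 * m.lap u) * u) = Q m V u := by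
  rw [show (V * u - 2 * m.lap u) * u = V * u ^ 2 - 2 * (u * m.lap u) by ring, Q, I_sub, I_add,
    I_ofNat_mul, I_ofNat_mul, h.ibp]
  ring

theorem Ell_low (hV : Gt0 V) : ∃ v, 0 < v ∧ ∀ x, v ≤ V.1 x := by
  obtain ⟨y, -, hy⟩ := isCompact_univ.exists_isMinOn univ_nonempty (B.cont V).continuousOn
  exact ⟨V.1 y, hV y, fun x => hy (mem_univ x)⟩

theorem Pos.Q_coer (h : Pos m) (hV : Gt0 V) : ∃ C, 0 < C ∧ ∀ u : B.A,
    B.nrm 1 u ^ 2 ≤ C * Q m V u := by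
  obtain ⟨v, v0, hv⟩ := Ell_low hV
  obtain ⟨C, C0, hC⟩ := h.nrm1
  refine ⟨C * (1 + v⁻¹), by positivity, fun u => (hC u).1.trans ?_⟩
  rw [mul_assoc]
  refine mul_le_mul_of_nonneg_left ?_ C0.le
  have h1 : 0 ≤ I m (m.gam u u) := I_nonneg m (h.gam_nonneg u)
  have h2 : I m (v • u ^ 2) ≤ I m (V * u ^ 2) := I_mono m fun x =>
    mul_le_mul_of_nonneg_right (hv x) (sq_nonneg (u.1 x))
  have h3 : 0 ≤ I m (u ^ 2) := I_nonneg m fun x => sq_nonneg (u.1 x)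
  rw [I_smul] at h2
  have h4 : I m (u ^ 2) ≤ v⁻¹ * I m (V * u ^ 2) := by
    rw [← div_eq_inv_mul, le_div_iff₀ v0]; linarith
  have h5 := mul_nonneg v0.le h3
  have h6 := mul_nonneg (inv_pos.2 v0).le h1
  rw [Q, I_add, I_ofNat_mul]
  linarith

theorem Ell_div {a b : ℝ} (hb : 0 ≤ b) (h : a ^ 2 ≤ b * a) : a ≤ b := by
  by_contra hn
  nlinarith [not_le.1 hn]

theorem Ell_cs (h : Pos m) : ∃ C, 0 < C ∧ ∀ f u : B.A,
    I m (f * u) ≤ C * B.nrm 0 f * B.nrm 0 u := by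
  obtain ⟨C, C0, hC⟩ := h.nrm0
  refine ⟨C, C0, fun f u => ?_⟩
  have h1 := (le_abs_self _).trans (cs (vol m) (B.cont f) (B.cont u))
  have h2 : ∀ a : B.A, Real.sqrt (∫ x, a.1 x ^ 2 ∂vol m) ≤ Real.sqrt C * B.nrm 0 a := fun a => by
    rw [← Real.sqrt_sq (B.nrm_nonneg 0 a), ← Real.sqrt_mul C0.le]
    exact Real.sqrt_le_sqrt (hC a).2
  have h3 := mul_le_mul (h2 f) (h2 u) (Real.sqrt_nonneg _)
    (mul_nonneg (Real.sqrt_nonneg _) (B.nrm_nonneg 0 f))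
  have h4 := Real.mul_self_sqrt C0.le
  calc I m (f * u) ≤ Real.sqrt C * B.nrm 0 f * (Real.sqrt C * B.nrm 0 u) := h1.trans h3
    _ = Real.sqrt C * Real.sqrt C * B.nrm 0 f * B.nrm 0 u := by ring
    _ = _ := by rw [h4]

theorem Ell_est_step (h : Pos m) (k : ℕ) (hk : ∃ C, 0 < C ∧ ∀ u : B.A,
    B.nrm k u ≤ C * B.nrm k (V * u - 2 * m.lap u)) : ∃ C, 0 < C ∧ ∀ u : B.A,
    B.nrm (k + 2) u ≤ C * B.nrm k (V * u - 2 * m.lap u) := by
  obtain ⟨C, C0, hC⟩ := hk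
  obtain ⟨D, D0, hD⟩ := h.garding k
  obtain ⟨K, K0, hK⟩ := Ell_mul_bd k V
  refine ⟨D * ((K + 1) * C + 1), by positivity, fun u => (hD u).trans ?_⟩
  rw [mul_assoc]
  refine mul_le_mul_of_nonneg_left ?_ D0.le
  have h1 := B.nrm_sub k (V * u) (V * u - 2 * m.lap u)
  rw [sub_sub_cancel, two_mul, ← two_smul ℝ (m.lap u), nrm_smul, abs_two, two_smul,
    ← two_mul] at h1
  have h2 := hK u
  have h3 := B.nrm_mono (Nat.zero_le k) u
  have h4 := mul_le_mul_of_nonneg_left (hC u) (show 0 ≤ K + 1 by positivity)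
  have h5 := B.nrm_nonneg k (m.lap u)
  linarith

theorem Pos.L_est (h : Pos m) (hV : Gt0 V) (k : ℕ) : ∃ C, 0 < C ∧ ∀ u : B.A,
    B.nrm (k + 2) u ≤ C * B.nrm k (V * u - 2 * m.lap u) := by
  induction k with
  | zero =>
    refine Ell_est_step h 0 ?_
    obtain ⟨C, C0, hC⟩ := h.Q_coer hV
    obtain ⟨D, D0, hD⟩ := Ell_cs h
    refine ⟨C * D, by positivity, fun u => ?_⟩
    have n0 := B.nrm_nonneg 0 (V * u - 2 * m.lap u)
    refine Ell_div (by positivity) ?_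
    have h1 := hC u
    rw [← h.L_Q] at h1
    have h2 := pow_le_pow_left₀ (B.nrm_nonneg 0 u) (B.nrm_mono zero_le_one u) 2
    have h3 := mul_le_mul_of_nonneg_left (hD (V * u - 2 * m.lap u) u) C0.le
    linarith
  | succ k ih =>
    refine Ell_est_step h (k + 1) ?_
    obtain ⟨C, C0, hC⟩ := ih
    exact ⟨C, C0, fun u => ((B.nrm_mono (Nat.le_succ _) u).trans (hC u)).trans
      (mul_le_mul_of_nonneg_left (B.nrm_mono (Nat.le_succ k) _) C0.le)⟩

theorem L_bound (m : B.Me) (V : B.A) (k : ℕ) : ∃ C, 0 < C ∧ ∀ u : B.A,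
    B.nrm k (V * u - 2 * m.lap u) ≤ C * B.nrm (k + 2) u := by
  obtain ⟨C, C0, hC⟩ := Ell_Op_bd (Ell_Op_mul 2 (Ell_Op_lap m)) k
  obtain ⟨K, K0, hK⟩ := Ell_mul_bd k V
  refine ⟨C + K, by positivity, fun u => (B.nrm_sub k _ _).trans ?_⟩
  have h1 := hC u
  have h2 := (hK u).trans (mul_le_mul_of_nonneg_left (B.nrm_mono (Nat.le_add_right k 2) u) K0.le)
  linarith

theorem Ell_sup (h : Pos m) {C s : ℝ} (C0 : 0 < C) {v : B.A}
    (hv : ∀ x, |(B.cst C * v - 2 * m.lap v).1 x| ≤ C * s) (x : B.M) : |v.1 x| ≤ s := by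
  have hC : Gt0 (B.cst C) := fun _ => C0
  have hs : m.lap (B.cst s) = 0 := m.lap_const s
  have h1 : Ge0 (B.cst s - v) := h.mp hC fun y => by
    have := (abs_le.1 (hv y)).2
    rw [Ell_val] at this ⊢
    rw [m.lap_sub, hs, zero_sub]
    show 0 ≤ C * (s - v.1 y) - 2 * -(m.lap v).1 y
    change C * v.1 y - 2 * (m.lap v).1 y ≤ C * s at this
    linarith
  have h2 : Ge0 (B.cst s + v) := h.mp hC fun y => by
    have := (abs_le.1 (hv y)).1
    rw [Ell_val] at this ⊢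
    rw [m.lap_add, hs, zero_add]
    show 0 ≤ C * (s + v.1 y) - 2 * (m.lap v).1 y
    change -(C * s) ≤ C * v.1 y - 2 * (m.lap v).1 y at this
    linarith
  have h3 : 0 ≤ s - v.1 x := h1 x
  have h4 : 0 ≤ s + v.1 x := h2 x
  exact abs_le.2 ⟨by linarith, by linarith⟩

/-- Iterate `u ↦ (C - 2 Δ)⁻¹ ((C - V) u + e)` with `C = max V` (`res`): a contraction for the
supremum (`mp`), bounded in every `H ^ k` (`L_est`), smooth limit by `exists_SmC`. -/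
theorem Pos.solve (h : Pos m) (hB : B.Good) (hV : Gt0 V) (e : B.A) :
    ∃ u : B.A, V * u - 2 * m.lap u = e := by
  obtain ⟨v, v0, hv⟩ := Ell_low hV
  obtain ⟨C, C0, hC⟩ := B.exists_bd (B.cont V)
  obtain ⟨S, S0, hS⟩ := B.exists_bd (B.cont e)
  have hvC : v ≤ C := (hv (Classical.arbitrary _)).trans (abs_le.1 (hC _)).2
  choose R hR using hB.res m h C C0
  have hR' : ∀ f, B.cst C * R f - 2 * m.lap (R f) = f := fun f => by
    rw [cst, ← Algebra.smul_def, hR]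
  obtain ⟨r, r0, rs⟩ : ∃ r : ℕ → B.A, r 0 = e ∧ ∀ n, r (n + 1) = (B.cst C - V) * R (r n) :=
    ⟨fun n => (fun f => (B.cst C - V) * R f)^[n] e, rfl, fun n => Function.iterate_succ_apply' _ _ _⟩
  have hsup : ∀ n x, |(r n).1 x| ≤ S * ((C - v) / C) ^ n := fun n => by
    induction n with
    | zero => simpa [r0] using hS
    | succ n ih =>
      intro x
      have h1 := Ell_sup h (s := S * ((C - v) / C) ^ n / C) C0 (v := R (r n))
        (fun y => by rw [hR', mul_div_cancel₀ _ C0.ne']; exact ih y) x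
      have h2 : |C - V.1 x| ≤ C - v :=
        abs_le.2 ⟨by linarith [(abs_le.1 (hC x)).2], by linarith [hv x]⟩
      rw [rs]
      change |(C - V.1 x) * (R (r n)).1 x| ≤ _
      rw [abs_mul]
      refine (mul_le_mul h2 h1 (abs_nonneg _) (by linarith)).trans_eq ?_
      ring
  have hr : ∀ k, Tendsto (fun n => B.nrm k (r n)) atTop (𝓝 0) := fun k => by
    induction k with
    | zero =>
      obtain ⟨D, -, hD⟩ := B.nrm_of_Bd 0
      have h1 := ((tendsto_pow_atTop_nhds_zero_of_lt_one (r := (C - v) / C)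
        (div_nonneg (by linarith) C0.le) ((div_lt_one C0).2 (by linarith))).const_mul S).const_mul D
      rw [mul_zero, mul_zero] at h1
      exact squeeze_zero (fun n => B.nrm_nonneg _ _) (fun n => hD _ _ (hsup n)) h1
    | succ k ih =>
      obtain ⟨D, D0, hD⟩ := h.L_est (V := B.cst C) (fun _ => C0) k
      obtain ⟨K, K0, hK⟩ := Ell_mul_bd (k + 1) (B.cst C - V)
      have h1 := (ih.const_mul D).const_mul K
      rw [mul_zero, mul_zero] at h1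
      rw [← tendsto_add_atTop_iff_nat 1]
      refine squeeze_zero (fun n => B.nrm_nonneg _ _) (fun n => ?_) h1
      have h2 := (B.nrm_mono (Nat.le_succ (k + 1)) _).trans (hD (R (r n)))
      rw [hR'] at h2
      rw [rs]
      exact (hK _).trans (mul_le_mul_of_nonneg_left h2 K0.le)
  obtain ⟨u, hu⟩ : ∃ u : ℕ → B.A, ∀ n, V * u n - 2 * m.lap (u n) = e - r n := by
    refine ⟨fun n => ∑ j ∈ Finset.range n, R (r j), fun n => ?_⟩
    induction n with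
    | zero =>
      have := m.lap_const 0
      rw [map_zero] at this
      simp [r0, this]
    | succ n ih =>
      simp only [Finset.sum_range_succ, m.lap_add, rs] at ih ⊢
      linear_combination ih + hR' (r n)
  have hU : ((hyperfilter ℕ : Ultrafilter ℕ) : Filter ℕ) ≤ atTop := Nat.hyperfilter_le_atTop
  obtain ⟨w, hw⟩ := exists_SmC (a := u) (hyperfilter ℕ) fun k => by
    obtain ⟨D, D0, hD⟩ := h.L_est hV k
    refine ⟨D * (B.nrm k e + 1), ?_⟩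
    filter_upwards [hU ((hr k).eventually (gt_mem_nhds one_pos))] with n hn
    have h1 := (B.nrm_mono (Nat.le_add_right k 2) _).trans (hD (u n))
    rw [hu] at h1
    exact h1.trans (mul_le_mul_of_nonneg_left ((B.nrm_sub k _ _).trans (by
      have : B.nrm k (r n) < 1 := hn
      linarith)) D0.le)
  obtain ⟨D, D0, hD⟩ := L_bound m V 0
  have h1 := ((hw.nrm 2).const_mul D).add ((hr 0).mono_left hU)
  rw [mul_zero, add_zero] at h1
  refine ⟨w, (sub_eq_zero.1 (B.eq_zero_of_nrm (le_antisymm (ge_of_tendsto' h1 fun n => ?_)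
    (B.nrm_nonneg _ _)))).symm⟩
  have e1 : e - (V * w - 2 * m.lap w) = (V * (u n - w) - 2 * m.lap (u n - w)) + r n := by
    rw [m.lap_sub]
    linear_combination -hu n
  rw [e1]
  exact (B.nrm_add 0 _ _).trans (add_le_add_left (hD _) _)

theorem Ell_abs (h : Pos m) : ∃ C, 0 < C ∧ ∀ f u : B.A,
    I m (f * u) ≤ C * ∫ x, |f.1 x| * |u.1 x| ∂B.μ := by
  obtain ⟨c, hc, he⟩ := h
  refine ⟨c⁻¹ ^ 2, by positivity, fun f u => le_trans ?_ (he.integral hc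
    ((B.cont f).abs.mul (B.cont u).abs) fun x => mul_nonneg (abs_nonneg _) (abs_nonneg _)).2⟩
  refine integral_mono (cint _ (B.cont _)) (cint _ ((B.cont f).abs.mul (B.cont u).abs)) fun x => ?_
  change f.1 x * u.1 x ≤ |f.1 x| * |u.1 x|
  rw [← abs_mul]
  exact le_abs_self _

/-- Duality with `solve`, `L_est 0` and `sup_le`. -/
theorem Pos.L1_L2 (h : Pos m) (hB : B.Good) (hV : Gt0 V) : ∃ C, 0 < C ∧ ∀ u : B.A,
    B.nrm 0 u ≤ C * ∫ x, |(V * u - 2 * m.lap u).1 x| ∂B.μ := by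
  obtain ⟨C, C0, hC⟩ := h.nrm0
  obtain ⟨D, D0, hD⟩ := Ell_abs h
  obtain ⟨E, E0, hE⟩ := B.sup_le
  obtain ⟨G, G0, hG⟩ := h.L_est hV 0
  refine ⟨C * D * E * G, by positivity, fun u => ?_⟩
  obtain ⟨v, hv⟩ := h.solve hB hV u
  have n0 : 0 ≤ ∫ x, |(V * u - 2 * m.lap u).1 x| ∂B.μ := integral_nonneg fun x => abs_nonneg _
  refine Ell_div (by positivity) ?_
  have h1 := h.L_symm V u v
  have h2 := hG v
  rw [hv] at h1 h2
  have h3 : ∫ x, |(V * u - 2 * m.lap u).1 x| * |v.1 x| ∂B.μ ≤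
      ∫ x, |(V * u - 2 * m.lap u).1 x| * (E * (G * B.nrm 0 u)) ∂B.μ :=
    integral_mono (cint _ ((B.cont _).abs.mul (B.cont v).abs))
      (cint _ ((B.cont _).abs.mul continuous_const)) fun x => mul_le_mul_of_nonneg_left
        ((hE v x).trans (mul_le_mul_of_nonneg_left h2 E0.le)) (abs_nonneg _)
  rw [integral_mul_const] at h3
  have h4 := (hD (V * u - 2 * m.lap u) v).trans (mul_le_mul_of_nonneg_left h3 D0.le)
  rw [h1, ← sq] at h4
  refine ((hC u).1.trans (mul_le_mul_of_nonneg_left h4 C0.le)).trans_eq ?_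
  ring

/-- `L_Q`, `holder` with the exponents `6 / 5` and `6`, `l6`. -/
theorem Pos.L65_H1 (h : Pos m) (hV : Gt0 V) : ∃ C, 0 < C ∧ ∀ u : B.A,
    B.nrm 1 u ≤ C * (∫ x, |(V * u - 2 * m.lap u).1 x| ^ (6 / 5 : ℝ) ∂B.μ) ^ (5 / 6 : ℝ) := by
  obtain ⟨C, C0, hC⟩ := h.Q_coer hV
  obtain ⟨D, D0, hD⟩ := Ell_abs h
  obtain ⟨E, E0, hE⟩ := B.l6
  refine ⟨C * D * E, by positivity, fun u => ?_⟩
  have n0 : 0 ≤ (∫ x, |(V * u - 2 * m.lap u).1 x| ^ (6 / 5 : ℝ) ∂B.μ) ^ (5 / 6 : ℝ) :=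
    Real.rpow_nonneg (integral_nonneg fun x => by positivity) _
  refine Ell_div (by positivity) ?_
  have h1 := holder B.μ (B.cont (V * u - 2 * m.lap u)).abs (B.cont u).abs (fun x => abs_nonneg _)
    (fun x => abs_nonneg _) (p := 6 / 5) (q := 6) (by norm_num) (by norm_num)
  have e1 : ∀ x, |u.1 x| ^ (6 : ℝ) = u.1 x ^ 6 := fun x => by
    rw [show (6 : ℝ) = (6 : ℕ) by norm_num, Real.rpow_natCast]
    exact Even.pow_abs (by decide) _
  simp only [e1] at h1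
  rw [show (1 / (6 / 5) : ℝ) = 5 / 6 by norm_num] at h1
  have h2 := (hD (V * u - 2 * m.lap u) u).trans (mul_le_mul_of_nonneg_left
    (h1.trans (mul_le_mul_of_nonneg_left (hE u) n0)) D0.le)
  rw [h.L_Q] at h2
  refine ((hC u).trans (mul_le_mul_of_nonneg_left h2 C0.le)).trans_eq ?_
  ring

/-- The weak Harnack inequality, from `harn`. -/
theorem Pos.harnack (h : Pos m) (hB : B.Good) (V : B.A) : ∃ α, 0 < α ∧ ∀ u : B.A, Ge0 u →
    Ge0 (V * u - 2 * m.lap u) → ∀ x, α * I m u ≤ u.1 x := by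
  obtain ⟨C, C0, hC⟩ := B.exists_bd (B.cont V)
  obtain ⟨α, α0, hα⟩ := hB.harn m h C C0
  refine ⟨α, α0, fun u hu hL => hα u hu fun x => ?_⟩
  have h1 := hL x
  rw [Algebra.smul_def, Ell_val]
  rw [Ell_val] at h1
  have h2 := mul_le_mul_of_nonneg_right (abs_le.1 (hC x)).2 (hu x)
  change 0 ≤ C * u.1 x - 2 * (m.lap u).1 x
  linarith

/-- For a nonnegative supersolution `∫ |L u| = ∫ V u`, so `L1_L2` and `harnack` bound the norm
in `L ^ 2` by the minimum. -/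
theorem Pos.harnack2 (h : Pos m) (hB : B.Good) (hV : Gt0 V) : ∃ C, 0 < C ∧ ∀ u : B.A,
    Ge0 (V * u - 2 * m.lap u) → ∀ x, B.nrm 0 u ≤ C * u.1 x := by
  obtain ⟨C, C0, hC⟩ := h.L1_L2 hB hV
  obtain ⟨α, α0, hα⟩ := h.harnack hB V
  obtain ⟨K, K0, hK⟩ := B.exists_bd (B.cont V)
  obtain ⟨c, hc, he⟩ := id h
  refine ⟨C * (K / (c ^ 2 * α)), by positivity, fun u hL x => (hC u).trans ?_⟩
  rw [mul_assoc]
  refine mul_le_mul_of_nonneg_left ?_ C0.le
  have hu := h.mp hV hL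
  have h1 := (he.integral hc (B.cont _) hL).1
  have h2 : I m (V * u - 2 * m.lap u) ≤ K * I m u := by
    rw [I_sub, I_ofNat_mul, h.I_lap, mul_zero, sub_zero, ← I_smul]
    exact I_mono m fun y => mul_le_mul_of_nonneg_right (abs_le.1 (hK y)).2 (hu y)
  have h3 := mul_le_mul_of_nonneg_left (hα u hu hL x) K0.le
  have h4 := mul_le_mul_of_nonneg_left (h1.trans h2) α0.le
  simp only [abs_of_nonneg (hL _)]
  rw [div_mul_eq_mul_div, le_div_iff₀ (by positivity)]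
  linarith

end Base

end Pool.Agent.MP_9bd639_gt.H88

end
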