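import Pool.Agent.MP_9bd639_gt.Mg.H87_Main

-- part Bishop
section

section

/-! One variable lemmas for the volume comparison: the weight `Th` and the profile of the
regularised fundamental solution. -/

open Set Filter Topology MeasureTheory
open scoped ContDiff

namespace Pool.Agent.MP_9bd639_gt.H88

/-- The weight of the divergence identity. -/
noncomputable def bisTh (t : ℝ) : ℝ :=
  (Real.arccos t - t * (2 * t ^ 2 - 1) * √(1 - t ^ 2)) / √(1 - t ^ 2) ^ 3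

theorem bis_sqrt {t : ℝ} (h0 : -1 < t) (h1 : t < 1) :
    0 < √(1 - t ^ 2) ∧ √(1 - t ^ 2) ^ 2 = 1 - t ^ 2 ∧
      HasDerivAt (fun s => √(1 - s ^ 2)) (-t / √(1 - t ^ 2)) t := by
  have h : 0 < 1 - t ^ 2 := by nlinarith
  have hp := Real.sqrt_pos.2 h
  refine ⟨hp, Real.sq_sqrt h.le, ?_⟩
  have d : HasDerivAt (fun s : ℝ => 1 - s ^ 2) (-(2 * t)) t := by
    simpa using (hasDerivAt_pow 2 t).const_sub 1
  refine (d.sqrt h.ne').congr_deriv ?_
  field_simp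

theorem bisTh_cd {t : ℝ} (h0 : -1 < t) (h1 : t < 1) : ContDiffAt ℝ ∞ bisTh t := by
  have h : 0 < 1 - t ^ 2 := by nlinarith
  have s : ContDiffAt ℝ ∞ (fun s : ℝ => √(1 - s ^ 2)) t :=
    ContDiffAt.sqrt (by fun_prop) h.ne'
  exact ((Real.contDiffAt_arccos h0.ne' h1.ne).sub
    ((by fun_prop : ContDiffAt ℝ ∞ (fun s : ℝ => s * (2 * s ^ 2 - 1)) t).mul s)).div (s.pow 3)
    (pow_ne_zero 3 (Real.sqrt_pos.2 h).ne')

theorem bisTh_deriv {t : ℝ} (h0 : -1 < t) (h1 : t < 1) :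
    (1 - t ^ 2) * deriv bisTh t = 3 * t * bisTh t - 8 * t ^ 2 := by
  obtain ⟨hp, hq, hd⟩ := bis_sqrt h0 h1
  have d1 : HasDerivAt (fun s : ℝ => s * (2 * s ^ 2 - 1)) (6 * t ^ 2 - 1) t := by
    refine ((hasDerivAt_id t).mul (((hasDerivAt_pow 2 t).const_mul 2).sub_const 1)).congr_deriv ?_
    simp
    ring
  have d := ((Real.hasDerivAt_arccos h0.ne' h1.ne).sub (d1.mul hd)).div (hd.pow 3)
    (pow_ne_zero 3 hp.ne')
  have e : deriv bisTh t = _ := d.deriv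
  rw [e, bisTh]
  simp only [Pi.sub_apply, Pi.mul_apply, Pi.pow_apply]
  set q := √(1 - t ^ 2)
  rw [← hq]
  field_simp
  norm_num
  linear_combination (q ^ 3 * (1 + 2 * t ^ 2)) * hq

theorem bisTh_zero : bisTh 0 = Real.pi / 2 := by simp [bisTh]

theorem bisTh_ge {t : ℝ} (h0 : -1 < t) (h1 : t < 1) : 8 * t ≤ 3 * bisTh t := by
  have key : AntitoneOn (fun s : ℝ => Real.arccos s - s * (5 - 2 * s ^ 2) / 3 * √(1 - s ^ 2))
      (Icc t 1) := by
    have hd : ∀ s ∈ interior (Icc t 1), HasDerivAt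
        (fun s : ℝ => Real.arccos s - s * (5 - 2 * s ^ 2) / 3 * √(1 - s ^ 2))
        (-(8 / 3 * √(1 - s ^ 2) ^ 3)) s := fun s hs => by
      rw [interior_Icc] at hs
      have a0 : -1 < s := h0.trans hs.1
      obtain ⟨hp, hq, hd⟩ := bis_sqrt a0 hs.2
      have d1 : HasDerivAt (fun s : ℝ => s * (5 - 2 * s ^ 2) / 3) ((5 - 6 * s ^ 2) / 3) s := by
        refine (((hasDerivAt_id s).mul
          (((hasDerivAt_pow 2 s).const_mul 2).const_sub 5)).div_const 3).congr_deriv ?_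
        simp
        ring
      refine ((Real.hasDerivAt_arccos a0.ne' hs.2.ne).sub (d1.mul hd)).congr_deriv ?_
      set q := √(1 - s ^ 2)
      have e2 : s ^ 2 = 1 - q ^ 2 := by linarith
      have e4 : s ^ 4 = (1 - q ^ 2) ^ 2 := by rw [← e2]; ring
      field_simp
      linear_combination (5 + 6 * q ^ 2) * e2 - 2 * e4
    refine antitoneOn_of_deriv_nonpos (convex_Icc t 1) ?_
      (fun s hs => (hd s hs).differentiableAt.differentiableWithinAt) fun s hs => ?_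
    · exact (Real.continuous_arccos.sub (by fun_prop)).continuousOn
    · rw [(hd s hs).deriv, neg_nonpos]
      positivity
  have h := key (left_mem_Icc.2 h1.le) (right_mem_Icc.2 h1.le) h1.le
  obtain ⟨hp, hq, -⟩ := bis_sqrt h0 h1
  simp only [Real.arccos_one, one_pow, sub_self, Real.sqrt_zero, mul_zero] at h
  rw [bisTh, ← mul_div_assoc, le_div_iff₀ (by positivity)]
  set q := √(1 - t ^ 2)
  have : q ^ 3 = (1 - t ^ 2) * q := by rw [← hq]; ring
  rw [this]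
  linarith

/-- The transition function, zero below one half and one above one. -/
noncomputable def bisχ (s : ℝ) : ℝ := Real.smoothTransition (2 * s - 1)

/-- A convex positive function equal to the identity above one. -/
noncomputable def bisν (s : ℝ) : ℝ := 1 + ∫ x in (1 : ℝ)..s, bisχ x

theorem bisχ_cd : ContDiff ℝ ∞ bisχ := Real.smoothTransition.contDiff.comp (by fun_prop)

theorem bisχ_mem (s : ℝ) : 0 ≤ bisχ s ∧ bisχ s ≤ 1 :=
  ⟨Real.smoothTransition.nonneg _, Real.smoothTransition.le_one _⟩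

theorem bisχ_one {s : ℝ} (h : 1 ≤ s) : bisχ s = 1 :=
  Real.smoothTransition.one_of_one_le (by linarith)

theorem bisχ_deriv (s : ℝ) : 0 ≤ deriv bisχ s :=
  Monotone.deriv_nonneg fun a b h => Real.smoothTransition.monotone (by linarith)

theorem bisχ_deriv_one {s : ℝ} (h : 1 ≤ s) : deriv bisχ s = 0 :=
  IsLocalMax.deriv_eq_zero (Eventually.of_forall fun x => by
    rw [bisχ_one h]; exact (bisχ_mem x).2)

theorem bisν_d (s : ℝ) : HasDerivAt bisν (bisχ s) s :=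
  ((bisχ_cd.continuous.integral_hasStrictDerivAt 1 s).hasDerivAt).const_add 1

theorem bisν_cd : ContDiff ℝ ∞ bisν :=
  contDiff_infty_iff_deriv.2 ⟨fun s => (bisν_d s).differentiableAt, by
    rw [show deriv bisν = bisχ from funext fun s => (bisν_d s).deriv]; exact bisχ_cd⟩

theorem bisν_one {s : ℝ} (h : 1 ≤ s) : bisν s = s := by
  rw [bisν, intervalIntegral.integral_congr (g := fun _ => 1) fun x hx => by
    rw [uIcc_of_le h] at hx; exact bisχ_one hx.1]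
  simp

theorem bisν_le {s : ℝ} (h : s ≤ 1) : bisν s ≤ 1 := by
  rw [bisν, intervalIntegral.integral_symm]
  have := intervalIntegral.integral_nonneg (μ := volume) h fun x _ => (bisχ_mem x).1
  linarith

theorem bisν_ge (s : ℝ) : s ≤ bisν s := by
  rcases le_total 1 s with h | h
  · exact (bisν_one h).ge
  · rw [bisν, intervalIntegral.integral_symm]
    have := intervalIntegral.integral_mono_on (μ := volume) h
      (bisχ_cd.continuous.intervalIntegrable _ _) (continuous_const.intervalIntegrable _ _)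
      fun x _ => (bisχ_mem x).2
    simp only [intervalIntegral.integral_const, smul_eq_mul, mul_one] at this
    linarith

theorem bisν_pos (s : ℝ) : 0 < bisν s := by
  rcases le_total (1 / 2) s with h | h
  · linarith [bisν_ge s]
  · have h1 := bisν_ge (1 / 2)
    have h2 := intervalIntegral.integral_add_adjacent_intervals (μ := volume)
      (bisχ_cd.continuous.intervalIntegrable 1 (1 / 2))
      (bisχ_cd.continuous.intervalIntegrable (1 / 2) s)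
    have h3 : ∫ x in (1 / 2 : ℝ)..s, bisχ x = 0 := by
      rw [intervalIntegral.integral_congr (g := fun _ => 0) fun x hx => by
        rw [uIcc_of_ge h] at hx
        exact Real.smoothTransition.zero_of_nonpos (by linarith [hx.2])]
      simp
    rw [bisν] at h1 ⊢
    linarith

/-- The profile. -/
noncomputable def bisψ (s : ℝ) : ℝ := (√(bisν s))⁻¹

theorem bisβ (s : ℝ) : 0 < √(bisν s) ∧ √(bisν s) ^ 2 = bisν s ∧
    HasDerivAt (fun s => √(bisν s)) (bisχ s / (2 * √(bisν s))) s :=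
  ⟨Real.sqrt_pos.2 (bisν_pos s), Real.sq_sqrt (bisν_pos s).le,
    (bisν_d s).sqrt (bisν_pos s).ne'⟩

theorem bisψ_cd : ContDiff ℝ ∞ bisψ :=
  (bisν_cd.sqrt fun s => (bisν_pos s).ne').inv fun s => (bisβ s).1.ne'

theorem bisψ_d1 : deriv bisψ = fun s => -bisχ s / (2 * √(bisν s) ^ 3) := funext fun s => by
  obtain ⟨hp, -, hd⟩ := bisβ s
  have e : deriv bisψ s = _ := (hd.inv hp.ne').deriv
  rw [e]
  field_simp

theorem bisψ_d2 : deriv (deriv bisψ) = fun s =>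
    -deriv bisχ s / (2 * √(bisν s) ^ 3) + 3 * bisχ s ^ 2 / (4 * √(bisν s) ^ 5) := funext fun s => by
  obtain ⟨hp, -, hd⟩ := bisβ s
  have d1 := (bisχ_cd.differentiable (by simp) s).hasDerivAt
  have d := d1.neg.div ((hd.pow 3).const_mul 2)
    (mul_ne_zero two_ne_zero (pow_ne_zero 3 hp.ne'))
  rw [bisψ_d1]
  have e : deriv (fun s => -bisχ s / (2 * √(bisν s) ^ 3)) s = _ := d.deriv
  rw [e]
  simp only [Pi.neg_apply, Pi.pow_apply]
  field_simp
  ring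

theorem bisψ_d3 {s : ℝ} (h : 1 < s) : deriv (deriv (deriv bisψ)) s = -15 / (8 * √s ^ 7) := by
  have hs : 0 < s := by linarith
  have hp := Real.sqrt_pos.2 hs
  have e : deriv (deriv bisψ) =ᶠ[𝓝 s] fun x => 3 / (4 * √x ^ 5) := by
    filter_upwards [lt_mem_nhds h] with x hx
    rw [bisψ_d2]
    simp [bisχ_one hx.le, bisχ_deriv_one hx.le, bisν_one hx.le]
  have d := (hasDerivAt_const s (3 : ℝ)).div (((Real.hasDerivAt_sqrt hs.ne').pow 5).const_mul 4)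
    (mul_ne_zero four_ne_zero (pow_ne_zero 5 hp.ne'))
  have e2 : deriv (fun x => 3 / (4 * √x ^ 5)) s = _ := d.deriv
  rw [e.deriv_eq, e2]
  simp only [Pi.pow_apply]
  field_simp
  ring

theorem bis_bound {φ : ℝ → ℝ} (hφ : Continuous φ) (n : ℕ) {c : ℝ}
    (h : ∀ s, 1 < s → s ^ n * φ s ^ 2 ≤ c) : ∃ C, ∀ s, 0 ≤ s → (1 + s) ^ n * φ s ^ 2 ≤ C := by
  obtain ⟨K, hK⟩ := (isCompact_Icc (a := (0 : ℝ)) (b := 1)).exists_bound_of_continuousOn
    (f := fun s => (1 + s) ^ n * φ s ^ 2) (by fun_prop)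
  refine ⟨max K (2 ^ n * c), fun s hs => ?_⟩
  rcases le_or_gt s 1 with h1 | h1
  · exact ((le_abs_self _).trans (hK s ⟨hs, h1⟩)).trans (le_max_left _ _)
  · refine le_trans ?_ (le_max_right _ _)
    calc (1 + s) ^ n * φ s ^ 2 ≤ (2 * s) ^ n * φ s ^ 2 := by gcongr; linarith
      _ = 2 ^ n * (s ^ n * φ s ^ 2) := by rw [mul_pow, mul_assoc]
      _ ≤ 2 ^ n * c := by gcongr; exact h s h1

theorem bis_scale {φ : ℝ → ℝ} (hφ : Differentiable ℝ φ) (c d : ℝ) :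
    deriv (fun s => c * φ (s / d)) = fun s => c / d * deriv φ (s / d) := funext fun s => by
  have := (((hφ (s / d)).hasDerivAt.comp s ((hasDerivAt_id s).div_const d)).const_mul c).deriv
  refine Eq.trans this ?_
  ring

/-- The family of profiles `p`, with `-Δ (p (|x|²)) = F (|x|² / ε²) / ε³` in Euclidean space. -/
theorem bis_profile : ∃ (C : ℝ) (F : ℝ → ℝ), Continuous F ∧ (∀ s, 0 ≤ s → 0 ≤ F s) ∧
    (∀ s, 1 ≤ s → F s = 0) ∧ ∫ r in Ioi (0 : ℝ), r ^ 2 * F (r ^ 2) = 1 ∧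
    ∀ ε : ℝ, 0 < ε → ∃ p : ℝ → ℝ, ContDiff ℝ ∞ p ∧ ∀ s, 0 ≤ s →
      (ε ^ 2 + s) * p s ^ 2 ≤ C ∧ (ε ^ 2 + s) ^ 3 * deriv p s ^ 2 ≤ C ∧
      (ε ^ 2 + s) ^ 5 * deriv (deriv p) s ^ 2 ≤ C ∧
      (ε ^ 2 + s) ^ 7 * deriv (deriv (deriv p)) s ^ 2 ≤ C ∧
      4 * s * deriv p s ^ 2 ≤ p s ^ 4 ∧ (s ≤ ε ^ 2 → 1 ≤ ε * p s) ∧
      -6 * deriv p s - 4 * s * deriv (deriv p) s = F (s / ε ^ 2) / ε ^ 3 := by
  have c0 := bisψ_cd
  have c1 : ContDiff ℝ ∞ (deriv bisψ) := (contDiff_infty_iff_deriv.1 c0).2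
  have c2 : ContDiff ℝ ∞ (deriv (deriv bisψ)) := (contDiff_infty_iff_deriv.1 c1).2
  have c3 : ContDiff ℝ ∞ (deriv (deriv (deriv bisψ))) := (contDiff_infty_iff_deriv.1 c2).2
  have sq : ∀ s : ℝ, 1 < s → ∃ q : ℝ, 0 < q ∧ √s = q ∧ s = q ^ 2 := fun s hs =>
    ⟨_, Real.sqrt_pos.2 (by linarith), rfl, (Real.sq_sqrt (by linarith)).symm⟩
  obtain ⟨C0, h0⟩ := bis_bound c0.continuous 1 (c := 1) fun s hs => by
    obtain ⟨q, hq, e1, e2⟩ := sq s hs
    rw [bisψ, bisν_one hs.le, e1, e2]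
    exact le_of_eq (by field_simp)
  obtain ⟨C1, h1⟩ := bis_bound c1.continuous 3 (c := 1 / 4) fun s hs => by
    obtain ⟨q, hq, e1, e2⟩ := sq s hs
    rw [bisψ_d1]
    simp only
    rw [bisν_one hs.le, bisχ_one hs.le, e1, e2]
    exact le_of_eq (by field_simp; norm_num)
  obtain ⟨C2, h2⟩ := bis_bound c2.continuous 5 (c := 9 / 16) fun s hs => by
    obtain ⟨q, hq, e1, e2⟩ := sq s hs
    rw [bisψ_d2]
    simp only
    rw [bisν_one hs.le, bisχ_one hs.le, bisχ_deriv_one hs.le, e1, e2]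
    exact le_of_eq (by field_simp; norm_num)
  obtain ⟨C3, h3⟩ := bis_bound c3.continuous 7 (c := 225 / 64) fun s hs => by
    obtain ⟨q, hq, e1, e2⟩ := sq s hs
    rw [bisψ_d3 hs, e1, e2]
    exact le_of_eq (by field_simp; norm_num)
  have hF : ∀ s, 0 ≤ s → 0 ≤ -6 * deriv bisψ s - 4 * s * deriv (deriv bisψ) s := fun s hs => by
    obtain ⟨hp, hq, -⟩ := bisβ s
    obtain ⟨a0, a1⟩ := bisχ_mem s
    have a2 := bisχ_deriv s
    have a3 := bisν_ge s
    rw [bisψ_d2, bisψ_d1]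
    simp only
    set q := √(bisν s)
    have e : -6 * (-bisχ s / (2 * q ^ 3)) -
        4 * s * (-deriv bisχ s / (2 * q ^ 3) + 3 * bisχ s ^ 2 / (4 * q ^ 5)) =
        (3 * bisχ s * (q ^ 2 - s * bisχ s) + 2 * s * deriv bisχ s * q ^ 2) / q ^ 5 := by
      field_simp
      ring
    have a4 : 0 ≤ q ^ 2 - s * bisχ s := by nlinarith
    rw [e]
    positivity
  refine ⟨max (max C0 C1) (max C2 C3), fun s => -6 * deriv bisψ s - 4 * s * deriv (deriv bisψ) s,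
    ?_, hF, fun s hs => ?_, ?_, fun ε hε => ⟨fun s => ε⁻¹ * bisψ (s / ε ^ 2), ?_, fun s hs => ?_⟩⟩
  · have := c1.continuous
    have := c2.continuous
    fun_prop
  · obtain ⟨hp, hq, -⟩ := bisβ s
    rw [bisψ_d2, bisψ_d1]
    simp only
    rw [bisχ_one hs, bisχ_deriv_one hs]
    rw [bisν_one hs] at hp hq ⊢
    set q := √s
    rw [← hq]
    field_simp
    ring
  · have hd : ∀ r ∈ Ici (0 : ℝ), HasDerivAt (fun r : ℝ => -2 * r ^ 3 * deriv bisψ (r ^ 2))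
        (r ^ 2 * (-6 * deriv bisψ (r ^ 2) - 4 * r ^ 2 * deriv (deriv bisψ) (r ^ 2))) r :=
      fun r _ => by
      refine ((((hasDerivAt_pow 3 r).const_mul (-2)).mul
        ((c1.differentiable (by simp) (r ^ 2)).hasDerivAt.comp r
          (hasDerivAt_pow 2 r))).congr_deriv ?_)
      simp
      ring
    rw [integral_Ioi_of_hasDerivAt_of_nonneg' (l := 1) hd
      (fun r _ => mul_nonneg (sq_nonneg r) (hF _ (sq_nonneg r)))]
    · simp
    · refine tendsto_const_nhds.congr' ?_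
      filter_upwards [eventually_ge_atTop 1] with r hr
      have a : 1 ≤ r ^ 2 := one_le_pow₀ hr
      rw [bisψ_d1]
      simp only
      rw [bisχ_one a, bisν_one a, Real.sqrt_sq (by linarith)]
      field_simp
  · exact contDiff_const.mul (c0.comp (contDiff_id.div_const _))
  · rw [bis_scale (c0.differentiable (by simp)), bis_scale (c1.differentiable (by simp)),
      bis_scale (c2.differentiable (by simp))]
    simp only
    obtain ⟨σ, hσ, rfl⟩ : ∃ σ : ℝ, 0 ≤ σ ∧ s = σ * ε ^ 2 :=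
      ⟨s / ε ^ 2, by positivity, by field_simp⟩
    rw [mul_div_cancel_right₀ σ (by positivity)]
    refine ⟨?_, ?_, ?_, ?_, ?_, fun hle => ?_, ?_⟩
    · refine le_trans (le_of_eq ?_) ((h0 σ hσ).trans ((le_max_left _ _).trans (le_max_left _ _)))
      field_simp
    · refine le_trans (le_of_eq ?_) ((h1 σ hσ).trans ((le_max_right _ _).trans (le_max_left _ _)))
      field_simp
    · refine le_trans (le_of_eq ?_) ((h2 σ hσ).trans ((le_max_left _ _).trans (le_max_right _ _)))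
      field_simp
    · refine le_trans (le_of_eq ?_) ((h3 σ hσ).trans ((le_max_right _ _).trans (le_max_right _ _)))
      field_simp
    · obtain ⟨hp, hq, -⟩ := bisβ σ
      obtain ⟨a0, a1⟩ := bisχ_mem σ
      have a3 := bisν_ge σ
      rw [bisψ_d1, bisψ]
      simp only
      set q := √(bisν σ)
      have a4 : σ * bisχ σ ^ 2 ≤ q ^ 2 := by nlinarith [mul_nonneg hσ a0]
      have e : 4 * (σ * ε ^ 2) * (ε⁻¹ / ε ^ 2 * (-bisχ σ / (2 * q ^ 3))) ^ 2 =
          σ * bisχ σ ^ 2 / (ε ^ 4 * q ^ 6) := by field_simp; ring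
      have e' : (ε⁻¹ * q⁻¹) ^ 4 = q ^ 2 / (ε ^ 4 * q ^ 6) := by field_simp
      rw [e, e']
      gcongr
    · have a : σ ≤ 1 := by
        have : 0 < ε ^ 2 := by positivity
        nlinarith
      rw [mul_inv_cancel_left₀ hε.ne', bisψ]
      exact (one_le_inv₀ (bisβ σ).1).2 (Real.sqrt_le_one.2 (bisν_le a))
    · field_simp

end Pool.Agent.MP_9bd639_gt.H88

end

section

/-! The volume comparison from a sharp gradient estimate for the Green function of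
`-Δ + 3 k / 4`. -/

open MeasureTheory Filter Topology Set
open scoped ContDiff

namespace Pool.Agent.MP_9bd639_gt.H88

open Pool.Agent.MP_3fc7f4_gt Pool.Agent.MP_9bd639_gt.H87

variable {M : Type} [MetricSpace M] [CompactSpace M] [MeasurableSpace M] [BorelSpace M]
  {μ : Measure M} [IsFiniteMeasure μ] [μ.IsOpenPosMeasure] {lam : ℝ} {g : Geo M μ 3 lam}
  {f u w e b ρ : M → ℝ} {k : ℝ}

/-- The curvature-dimension inequality with lower Ricci bound `2 k`. -/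
def CD (g : Geo M μ 3 lam) (k : ℝ) : Prop := ∀ f, g.Sm f → ∀ x,
  g.Δ f x ^ 2 / 3 + 2 * k * g.Γ f f x ≤ g.Δ (g.Γ f f) x / 2 - g.Γ f (g.Δ f) x

theorem bis_Δ_max (hf : g.Sm f) {x : M} (hx : ∀ y, f y ≤ f x) : g.Δ f x ≤ 0 := by
  obtain ⟨h⟩ := exists_heat g
  have s1 := g.sm_Δ hf
  obtain ⟨K, hK, hK'⟩ := exists_bd (g.cont (g.sm_Δ s1))
  refine le_of_forall_pos_le_add fun δ hδ => ?_
  have s2 := g.sm_sub (g.sm_const (f x + δ ^ 2 / K)) hf
  have := res_nonneg h (g.sm_sub s2 (g.sm_smul (δ / K) s1)) (C := 2 * K / δ) (by positivity)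
    (fun y => by
      rw [g.Δ_sub s2 (g.sm_smul _ s1), g.Δ_sub (g.sm_const _) hf, g.Δ_const, g.Δ_smul _ s1]
      have a1 := mul_le_mul_of_nonneg_left (abs_le.1 (hK' y)).1 (by positivity : 0 ≤ δ / K)
      have a2 := mul_nonneg (by positivity : 0 ≤ 2 * K / δ) (sub_nonneg.2 (hx y))
      have e : 2 * K / δ * (f x + δ ^ 2 / K - f y - δ / K * g.Δ f y) =
          2 * K / δ * (f x - f y) + 2 * δ - 2 * g.Δ f y := by field_simp; ring
      have e' : δ / K * -K = -δ := by field_simp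
      rw [e]
      linarith) x
  have e : f x + δ ^ 2 / K - f x - δ / K * g.Δ f x = δ / K * (δ - g.Δ f x) := by ring
  rw [e] at this
  linarith [(mul_nonneg_iff_of_pos_left (by positivity : 0 < δ / K)).1 this]

omit [CompactSpace M] [BorelSpace M] [IsFiniteMeasure μ] [μ.IsOpenPosMeasure] in
theorem bis_Γ_max (hf : g.Sm f) (hu : g.Sm u) {x : M} (hx : ∀ y, f y ≤ f x) : g.Γ u f x = 0 := by
  obtain ⟨c, C, h0, hc⟩ := g.frame x
  have h1 := (hc f hf).2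
  have h2 : ∀ i, deriv (fun s => f (c i s)) 0 = 0 := fun i =>
    IsLocalMax.deriv_eq_zero (Eventually.of_forall fun s => by simp only [h0]; exact hx _)
  simp only [h2] at h1
  have h3 : g.Γ f f x = 0 := le_antisymm (by simpa using h1) (g.Γ_nonneg hf x)
  have h4 := g.Γ_sq_le hu hf x
  rw [h3, mul_zero] at h4
  exact pow_eq_zero_iff two_ne_zero |>.1 (le_antisymm h4 (sq_nonneg _))

theorem bis_pos (hu : g.Sm u) {a : ℝ} (h0 : ∀ x, 0 ≤ u x) (ha : ∀ x, g.Δ u x ≤ a * u x) {p : M}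
    (hp : 0 < u p) (x : M) : 0 < u x := by
  obtain ⟨h⟩ := exists_heat g
  obtain ⟨κ, K, hκ, hk⟩ := kernel_bd h
  have c1 := g.cont hu
  have c2 := g.cont (h.sm_p (t := 3) (by norm_num) x)
  have h1 := cmp h hu ha (t := 3) (by norm_num) x
  have h2 := integral_mono (μ := μ) (f := fun z => κ * u z) (intg (by fun_prop))
    (g := fun z => h.p 3 x z * u z) (intg (by fun_prop)) fun z =>
    mul_le_mul_of_nonneg_right (hk x z).1 (h0 z)
  have h3 : 0 < ∫ z, u z ∂μ := c1.integral_pos_of_hasCompactSupport_nonneg_nonzero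
    (HasCompactSupport.of_compactSpace _) h0 hp.ne'
  rw [integral_const_mul] at h2
  exact (mul_pos_iff_of_pos_left (Real.exp_pos _)).1 ((mul_pos hκ h3).trans_le (h2.trans h1))

omit [CompactSpace M] [BorelSpace M] [IsFiniteMeasure μ] [μ.IsOpenPosMeasure] in
theorem bis_Γ_le (hf : g.Sm f) (hu : g.Sm u) (a c : ℝ) {τ : ℝ} (hτ : 0 < τ) (x : M) :
    a ^ 2 * g.Γ f f x + 2 * a * c * g.Γ f u x + c ^ 2 * g.Γ u u x ≤
      (1 + τ) * (a ^ 2 * g.Γ f f x) + (1 + τ⁻¹) * (c ^ 2 * g.Γ u u x) := by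
  have := g.Γ_nonneg (g.sm_add (g.sm_smul (τ * a) hf) (g.sm_smul (-c) hu)) x
  rw [g.Γ_comb _ _ hf hu] at this
  have h := mul_nonneg (inv_pos.2 hτ).le this
  have e : τ⁻¹ * ((τ * a) ^ 2 * g.Γ f f x + 2 * (τ * a) * -c * g.Γ f u x + (-c) ^ 2 * g.Γ u u x) =
      τ * (a ^ 2 * g.Γ f f x) - 2 * a * c * g.Γ f u x + τ⁻¹ * (c ^ 2 * g.Γ u u x) := by
    field_simp
    ring
  rw [e] at h
  linarith

/-- The Bernstein estimate. -/
theorem bis_bern (hk : 0 ≤ k) (hCD : CD g k) (hw : g.Sm w) (he : g.Sm e) {c W E G l : ℝ}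
    (hc : 0 ≤ c) (hl : 0 < l) (heq : ∀ x, g.Δ w x = c * w x - e x) (hW : ∀ x, |w x| ≤ W)
    (hE : ∀ x, |e x| ≤ E) (hG : ∀ x, g.Γ e e x ≤ G) (x : M) :
    g.Γ w w x ≤ l ^ 2 * G + 2 * (W * E) + W ^ 2 / l := by
  have s1 := g.sm_smul l (g.sm_Γ hw hw)
  have s2 := g.sm_add s1 (g.sm_sq hw)
  obtain ⟨y, -, hy⟩ := isCompact_univ.exists_isMaxOn ⟨x, mem_univ x⟩ (g.cont s2).continuousOn
  have h1 := bis_Δ_max s2 fun z => hy (mem_univ z)
  have h2 := hCD w hw y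
  have h3 := g.Γ_nonneg (g.sm_add (g.sm_smul 1 hw) (g.sm_smul (-l) he)) y
  have h4 := g.Γ_nonneg hw y
  rw [g.Δ_add s1 (g.sm_sq hw), g.Δ_smul _ (g.sm_Γ hw hw), g.Δ_sq hw, heq] at h1
  rw [show g.Δ w = fun z => c * w z - e z from funext heq,
    g.Γ_sub_right (g.sm_smul c hw) he hw, g.Γ_smul_right c hw hw] at h2
  rw [g.Γ_comb _ _ hw he] at h3
  have h5 : w y * e y ≤ W * E := (le_abs_self _).trans (by
    rw [abs_mul]; exact mul_le_mul (hW y) (hE y) (abs_nonneg _) ((abs_nonneg _).trans (hW y)))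
  have h6 : w y ^ 2 ≤ W ^ 2 := sq_le_sq' (abs_le.1 (hW y)).1 (abs_le.1 (hW y)).2
  have h7 : 0 ≤ g.Δ (g.Γ w w) y / 2 + g.Γ w e y := by
    nlinarith [mul_nonneg hk h4, mul_nonneg hc h4, sq_nonneg (c * w y - e y)]
  have h8 : g.Γ w w y ≤ l ^ 2 * G + 2 * (W * E) := by
    nlinarith [mul_nonneg hl.le h7, mul_nonneg hc (sq_nonneg (w y)),
      mul_le_mul_of_nonneg_left (hG y) (sq_nonneg l)]
  have h9 : l * g.Γ w w x + w x ^ 2 ≤ l * g.Γ w w y + w y ^ 2 := hy (mem_univ x)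
  rw [← sub_le_iff_le_add', le_div_iff₀ hl]
  nlinarith [mul_le_mul_of_nonneg_left h8 hl.le, sq_nonneg (w x)]

/-- The sharp gradient estimate propagates from the core `S` to the whole space. -/
theorem bis_grad (hk : 0 < k) (hCD : CD g k) (hb : g.Sm b) (h0 : ∀ x, 0 < b x) {S : Set M} {L : ℝ}
    (hS : ∀ x ∈ S, 4 * g.Γ b b x + k * b x ^ 2 ≤ L)
    (heq : ∀ x ∉ S, ∀ᶠ y in 𝓝 x, b y * g.Δ b y = 2 * g.Γ b b y - 3 * k / 4 * b y ^ 2) (x : M) :
    4 * g.Γ b b x + k * b x ^ 2 ≤ L := by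
  set Φ : M → ℝ := fun y => 4 * g.Γ b b y + k * b y ^ 2 with hΦ
  set v : M → ℝ := fun y => b y ^ 2 with hv
  have sv : g.Sm v := g.sm_sq hb
  have sΦ : g.Sm Φ := g.sm_add (g.sm_smul 4 (g.sm_Γ hb hb)) (g.sm_smul k sv)
  have Γv : ∀ {f}, g.Sm f → ∀ y, g.Γ v f y = 2 * b y * g.Γ b f y := fun hf y => by
    simp only [hv, sq]
    rw [g.Γ_mul hb hb hf]
    ring
  have e1 : g.Γ v v = fun y => v y * Φ y - k * (v y * v y) := funext fun y => by
    rw [Γv sv, g.Γ_symm hb sv, Γv hb]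
    simp only [hv, hΦ]
    ring
  refine le_of_forall_pos_le_add fun δ hδ => ?_
  have hη : 0 < δ / b x := div_pos hδ (h0 x)
  set η := δ / b x with hη'
  have s2 := g.sm_sub sΦ (g.sm_smul η hb)
  obtain ⟨y, -, hy⟩ := isCompact_univ.exists_isMaxOn ⟨x, mem_univ x⟩ (g.cont s2).continuousOn
  by_cases hyS : y ∈ S
  · have a1 : Φ x - η * b x ≤ Φ y - η * b y := hy (mem_univ x)
    have a2 : Φ y ≤ L := hS y hyS
    have a3 : η * b x = δ := div_mul_cancel₀ _ (h0 x).ne'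
    have a4 := mul_pos hη (h0 y)
    change Φ x ≤ L + δ
    linarith
  exfalso
  have h1 := bis_Δ_max s2 fun z => hy (mem_univ z)
  have h2 := bis_Γ_max s2 sv fun z => hy (mem_univ z)
  have e2 : g.Δ v =ᶠ[𝓝 y] fun z => 3 / 2 * Φ z - 3 * k * v z := by
    filter_upwards [heq y hyS] with z hz
    rw [hv, g.Δ_sq hb]
    simp only [hΦ]
    linarith
  have h3 := hCD v sv y
  have h4 := (heq y hyS).self_of_nhds
  have h5 := e2.self_of_nhds
  rw [g.Γ_symm sv (g.sm_Δ sv), g.Γ_congr e2, g.Γ_sub (g.sm_smul _ sΦ) (g.sm_smul _ sv) sv,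
    g.Γ_smul _ sΦ sv, g.Γ_smul _ sv sv, g.Γ_symm sΦ sv] at h3
  have h6 : g.Δ (g.Γ v v) y = v y * g.Δ Φ y + Φ y * g.Δ v y + 2 * g.Γ v Φ y -
      k * (2 * v y * g.Δ v y + 2 * g.Γ v v y) := by
    conv_lhs => rw [e1]
    rw [g.Δ_sub (g.sm_mul sv sΦ) (g.sm_smul k (g.sm_mul sv sv)), g.Δ_mul sv sΦ,
      g.Δ_smul k (g.sm_mul sv sv), g.Δ_mul sv sv]
    ring
  rw [g.Δ_sub sΦ (g.sm_smul η hb), g.Δ_smul η hb] at h1
  rw [g.Γ_sub_right sΦ (g.sm_smul η hb) sv, g.Γ_smul_right η hb sv, Γv hb] at h2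
  have h7 : (Φ y - 2 * k * v y) * g.Δ v y = 2 / 3 * g.Δ v y ^ 2 := by
    rw [h5]
    ring
  have h8 : g.Γ v Φ y ≤ v y * g.Δ Φ y := by
    rw [h6] at h3
    linarith
  have hb0 := h0 y
  have h9 : v y * g.Δ Φ y ≤ v y * (η * g.Δ b y) :=
    mul_le_mul_of_nonneg_left (by linarith) (sq_nonneg _)
  have h10 : v y * (η * g.Δ b y) = η * b y * (2 * g.Γ b b y - 3 * k / 4 * b y ^ 2) := by
    rw [← h4, hv]
    ring
  have h11 : 0 < η * b y * (3 * k / 4 * b y ^ 2) := by positivity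
  nlinarith

omit [μ.IsOpenPosMeasure] in
/-- The divergence identity. -/
theorem bis_vol {κ m : ℝ} (hκ : 0 < κ) (hm : 0 < m) (hu : g.Sm u) (h0 : ∀ x, 0 < u x)
    (hf : Continuous f) (heq : ∀ x, g.Δ u x = 3 * κ ^ 2 / 4 * u x - f x)
    (hb : b = fun x => (u x)⁻¹) {L : ℝ} (hL : L < 4 * m ^ 2)
    (hΦ : ∀ x, 4 * g.Γ b b x + κ ^ 2 * b x ^ 2 ≤ L) :
    κ ^ 3 / m * μ.real univ ≤ ∫ x, bisTh (κ / (2 * m) * b x) * f x ∂μ := by
  have hi : ∀ x, ContDiffAt ℝ ∞ (fun r : ℝ => r⁻¹) (u x) := fun x => contDiffAt_inv ℝ (h0 x).ne'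
  have sb : g.Sm b := hb ▸ g.sm_comp hu hi
  have st := g.sm_smul (κ / (2 * m)) sb
  have b0 : ∀ x, 0 < b x := fun x => by rw [hb]; exact inv_pos.2 (h0 x)
  have t0 : ∀ x, 0 < κ / (2 * m) * b x := fun x => mul_pos (by positivity) (b0 x)
  have t1 : ∀ x, κ / (2 * m) * b x < 1 := fun x => by
    rw [div_mul_eq_mul_div, div_lt_one (by positivity)]
    refine lt_of_pow_lt_pow_left₀ 2 (by positivity) ?_
    nlinarith [hΦ x, g.Γ_nonneg sb x]
  have hT : ∀ x, ContDiffAt ℝ ∞ bisTh (κ / (2 * m) * b x) := fun x =>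
    bisTh_cd (by linarith [t0 x]) (t1 x)
  have sT := g.sm_comp st hT
  have c1 := g.cont sT
  have c2 := g.cont (g.sm_Δ hu)
  have c3 := g.cont (g.sm_Γ sT hu)
  rw [mul_comm, ← smul_eq_mul, ← integral_const]
  refine int_le_of (Z := fun x => bisTh (κ / (2 * m) * b x) * g.Δ u x +
    g.Γ (fun y => bisTh (κ / (2 * m) * b y)) u x) continuous_const (c1.mul hf)
    ((c1.mul c2).add c3) ?_ fun x => ?_
  · rw [integral_add (intg (by fun_prop)) (intg c3), ibp' sT hu, neg_add_cancel]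
  · have e1 : g.Γ b u x = -(u x ^ 2)⁻¹ * g.Γ u u x := by
      rw [hb, g.Γ_comp hu hu hi, deriv_inv]
    have e2 : g.Γ b b x = (-(u x ^ 2)⁻¹) ^ 2 * g.Γ u u x := by
      rw [hb, g.Γ_comp_self hu hi, deriv_inv]
    have e3 : u x = (b x)⁻¹ := by rw [hb, inv_inv]
    have hb0 := b0 x
    have e4 : g.Γ b u x = -(g.Γ b b x / b x ^ 2) := by
      rw [e1, e2, e3]
      field_simp
    rw [g.Γ_comp st hu hT, g.Γ_smul _ sb hu, heq, e4, e3]
    have a1 := bisTh_deriv (by linarith [t0 x]) (t1 x)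
    have a2 := bisTh_ge (by linarith [t0 x]) (t1 x)
    have a3 := hΦ x
    have a4 := t0 x
    have a5 := t1 x
    obtain ⟨t, ht⟩ : ∃ t, t = κ / (2 * m) * b x := ⟨_, rfl⟩
    have e5 : b x = 2 * m / κ * t := by rw [ht]; field_simp
    rw [← ht] at a1 a2 a4 a5 ⊢
    rw [e5] at a3 ⊢
    have a6 : 0 ≤ deriv bisTh t := by
      refine nonneg_of_mul_nonneg_right (a := 1 - t ^ 2) ?_ (by nlinarith)
      rw [a1]
      nlinarith
    have a7 : g.Γ b b x ≤ m ^ 2 * (1 - t ^ 2) := by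
      have : κ ^ 2 * (2 * m / κ * t) ^ 2 = 4 * m ^ 2 * t ^ 2 := by field_simp; ring
      nlinarith
    have a8 := mul_le_mul_of_nonneg_left a7 a6
    have e6 : bisTh t * f x + (bisTh t * (3 * κ ^ 2 / 4 * (2 * m / κ * t)⁻¹ - f x) +
        deriv bisTh t * (κ / (2 * m) * -(g.Γ b b x / (2 * m / κ * t) ^ 2))) =
        κ ^ 3 / (8 * m ^ 3 * t ^ 2) * (m ^ 2 * (3 * t * bisTh t) - deriv bisTh t * g.Γ b b x) := by
      field_simp
      ring
    have e7 : κ ^ 3 / m = κ ^ 3 / (8 * m ^ 3 * t ^ 2) * (m ^ 2 * (8 * t ^ 2)) := by field_simp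
    rw [e6, e7]
    refine mul_le_mul_of_nonneg_left ?_ (by positivity)
    have := congrArg (m ^ 2 * ·) a1
    linarith

/-- A smooth model of the squared distance to a point. -/
structure Pole (g : Geo M μ 3 lam) (ρ : M → ℝ) : Prop where
  sm : g.Sm ρ
  nonneg : ∀ x, 0 ≤ ρ x
  zero : ∃ p, ρ p = 0
  lap : ∃ C, ∀ x, (g.Δ ρ x - 6) ^ 2 ≤ C * ρ x
  gam : ∃ C, ∀ x, (g.Γ ρ ρ x - 4 * ρ x) ^ 2 ≤ C * ρ x ^ 3
  vol : ∀ F : ℝ → ℝ, Continuous F → (∀ s, 0 ≤ s → 0 ≤ F s) → (∀ s, 1 ≤ s → F s = 0) →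
    ∀ η > 0, ∀ᶠ ε in 𝓝[>] (0 : ℝ), ∫ x, F (ρ x / ε ^ 2) ∂μ ≤
      (1 + η) * ε ^ 3 * (4 * Real.pi * ∫ r in Ioi (0 : ℝ), r ^ 2 * F (r ^ 2))

/-- The constants attached to a pole. -/
structure PoleC (g : Geo M μ 3 lam) (ρ a b : M → ℝ) (A : ℝ) : Prop where
  sm : g.Sm ρ
  sa : g.Sm a
  sb : g.Sm b
  nonneg : ∀ x, 0 ≤ ρ x
  pos : 0 < A
  ea : ∀ x, g.Δ ρ x = 6 + a x
  eb : ∀ x, g.Γ ρ ρ x = 4 * ρ x + b x
  bd : ∀ x, 1 + ρ x ≤ A
  ha : ∀ x, a x ^ 2 ≤ A ^ 2 * ρ x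
  hb : ∀ x, b x ^ 2 ≤ A ^ 2 * ρ x ^ 3
  Γρ : ∀ x, g.Γ ρ ρ x ≤ A * ρ x
  Γa : ∀ x, g.Γ a a x ≤ A
  Γb : ∀ x, g.Γ b b x ≤ A * ρ x

omit [BorelSpace M] [IsFiniteMeasure μ] [μ.IsOpenPosMeasure] in
theorem Pole.consts (h : Pole g ρ) : ∃ a b A, PoleC g ρ a b A := by
  obtain ⟨C1, h1⟩ := h.lap
  obtain ⟨C2, h2⟩ := h.gam
  have sρ := h.sm
  have sΓ := g.sm_Γ sρ sρ
  have sa := g.sm_sub (g.sm_Δ sρ) (g.sm_const 6)
  have sb := g.sm_sub sΓ (g.sm_smul 4 sρ)
  obtain ⟨D, hD, hD'⟩ := exists_bd (g.cont sρ)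
  obtain ⟨D1, hD1, hD1'⟩ := exists_bd (g.cont (g.sm_Γ sa sa))
  obtain ⟨D2, hD2, hD2'⟩ := exists_bd (g.cont (g.sm_add (g.sm_sub
    (g.sm_smul (1 / 2) (g.sm_Δ sΓ)) (g.sm_Γ sρ (g.sm_Δ sρ))) (g.sm_smul lam sΓ)))
  have n1 := abs_nonneg C1
  have n2 := abs_nonneg C2
  have h3 : ∀ x, g.Γ ρ ρ x ≤ (5 + |C2| * D) * ρ x := fun x => by
    have r0 := h.nonneg x
    have a1 : (g.Γ ρ ρ x - 4 * ρ x) ^ 2 ≤ ((1 + |C2| * D) * ρ x) ^ 2 := by
      refine (h2 x).trans ?_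
      calc C2 * ρ x ^ 3 ≤ |C2| * ρ x ^ 3 := by gcongr; exact le_abs_self _
        _ = |C2| * ρ x * ρ x ^ 2 := by ring
        _ ≤ |C2| * D * ρ x ^ 2 := by gcongr; exact (abs_le.1 (hD' x)).2
        _ ≤ (1 + |C2| * D) ^ 2 * ρ x ^ 2 := by gcongr; nlinarith [mul_nonneg n2 hD.le]
        _ = _ := by ring
    linarith [(abs_le_of_sq_le_sq' a1 (by positivity)).2]
  obtain ⟨B, hB⟩ : ∃ B, B = 5 + |C2| * D := ⟨_, rfl⟩
  have B0 : 0 < B := by rw [hB]; positivity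
  rw [← hB] at h3
  obtain ⟨A, hA⟩ : ∃ A, A = 1 + D + |C1| + |C2| + B + D1 + (8 * D2 + 32) * B := ⟨_, rfl⟩
  have n3 : 0 ≤ (8 * D2 + 32) * B := by positivity
  have A1 : 1 ≤ A := by linarith
  refine ⟨_, _, A, sρ, sa, sb, h.nonneg, by linarith, fun x => by ring, fun x => by ring,
    fun x => by linarith [(abs_le.1 (hD' x)).2], fun x => (h1 x).trans ?_,
    fun x => (h2 x).trans ?_, fun x => (h3 x).trans ?_,
    fun x => by linarith [(abs_le.1 (hD1' x)).2], fun x => ?_⟩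
  · exact mul_le_mul_of_nonneg_right (by nlinarith [le_abs_self C1]) (h.nonneg x)
  · exact mul_le_mul_of_nonneg_right (by nlinarith [le_abs_self C2]) (pow_nonneg (h.nonneg x) 3)
  · exact mul_le_mul_of_nonneg_right (by linarith) (h.nonneg x)
  · have a1 := bis_Γ_le sΓ sρ 1 (-4) one_pos x
    have a2 := g.kato sρ x
    have a3 := mul_le_mul_of_nonneg_right (abs_le.1 (hD2' x)).2 (g.Γ_nonneg sρ x)
    have a4 := mul_le_mul_of_nonneg_left (h3 x) (by positivity : 0 ≤ 8 * D2 + 32)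
    have a5 : (8 * D2 + 32) * B * ρ x ≤ A * ρ x :=
      mul_le_mul_of_nonneg_right (by linarith) (h.nonneg x)
    rw [show (fun x => g.Γ ρ ρ x - 4 * ρ x) = fun x => 1 * g.Γ ρ ρ x + -4 * ρ x from
      funext fun x => by ring, g.Γ_comb _ _ sΓ sρ]
    norm_num at a1 ⊢
    linarith

variable {a : M → ℝ} {A : ℝ}

/-- The logarithmic barrier. -/
theorem PoleC.barrier (h : PoleC g ρ a b A) {c E δ : ℝ} (hc : 0 < c) (hE : 0 ≤ E) (hδ : 0 < δ)
    (hδ1 : δ ≤ 1) (hw : g.Sm w) (heq : ∀ x, g.Δ w x = c * w x - e x)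
    (he : ∀ x, |e x| * ((δ ^ 2) ^ 2 + ρ x) ≤ E) (x : M) :
    |w x| ≤ (E * A + E * A ^ 2 / c + 4 * E) / δ := by
  obtain ⟨H⟩ := exists_heat g
  have A0 := h.pos
  have R0 : ∀ x, 0 < (δ ^ 2) ^ 2 + ρ x := fun x => by have := h.nonneg x; positivity
  have sR := g.sm_add (g.sm_const ((δ ^ 2) ^ 2)) h.sm
  have hl : ∀ x, ContDiffAt ℝ ∞ Real.log ((δ ^ 2) ^ 2 + ρ x) := fun x =>
    Real.contDiffAt_log.2 (R0 x).ne'
  have sl := g.sm_comp sR hl
  have sB := g.sm_sub (g.sm_const (E * A + E * A ^ 2 / c)) (g.sm_smul E sl)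
  have key : ∀ y, |e y| ≤ c * (E * A + E * A ^ 2 / c - E * Real.log ((δ ^ 2) ^ 2 + ρ y)) -
      g.Δ (fun x => E * A + E * A ^ 2 / c - E * Real.log ((δ ^ 2) ^ 2 + ρ x)) y := fun y => by
    rw [g.Δ_sub (g.sm_const _) (g.sm_smul E sl), g.Δ_const, g.Δ_smul E sl, g.Δ_comp sR hl,
      Real.deriv_log', deriv_inv, g.Δ_add (g.sm_const _) h.sm, g.Δ_const,
      g.Γ_add (g.sm_const _) h.sm sR, g.Γ_const _ sR, g.Γ_add_right (g.sm_const _) h.sm h.sm,
      g.Γ_symm h.sm (g.sm_const _), g.Γ_const _ h.sm, h.ea, h.eb]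
    have a1 := Real.log_le_sub_one_of_pos (R0 y)
    have a2 := h.bd y
    have a3 : (δ ^ 2) ^ 2 ≤ 1 := pow_le_one₀ (by positivity) (pow_le_one₀ hδ.le hδ1)
    have a4 := he y
    have a5 := h.ha y
    have a6 := h.hb y
    have r0 := h.nonneg y
    obtain ⟨r, hr, hr2⟩ : ∃ r : ℝ, 0 < r ∧ (δ ^ 2) ^ 2 + ρ y = r ^ 2 :=
      ⟨_, Real.sqrt_pos.2 (R0 y), (Real.sq_sqrt (R0 y).le).symm⟩
    have a7 : ρ y ≤ r ^ 2 := by rw [← hr2]; linarith [sq_nonneg (δ ^ 2)]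
    have a8 : -(A * r) ≤ a y := (abs_le_of_sq_le_sq' (b := A * r)
      (a5.trans (by rw [mul_pow]; gcongr)) (by positivity)).1
    have a9 : b y ≤ A * r ^ 3 := (abs_le_of_sq_le_sq' (b := A * r ^ 3)
      (a6.trans (by rw [mul_pow, ← pow_mul, mul_comm 3 2, pow_mul]; gcongr)) (by positivity)).2
    have b1 : E * Real.log ((δ ^ 2) ^ 2 + ρ y) ≤ E * A :=
      mul_le_mul_of_nonneg_left (by linarith) hE
    have b2 := mul_le_mul_of_nonneg_left b1 hc.le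
    rw [hr2] at a4 b2 ⊢
    have b3 : |e y| ≤ E / r ^ 2 := by rwa [le_div_iff₀ (by positivity)]
    have b4 : 1 / r ^ 2 - A ^ 2 ≤
        (r ^ 2)⁻¹ * (0 + (6 + a y)) + -((r ^ 2) ^ 2)⁻¹ * (0 + (0 + (4 * ρ y + b y))) := by
      have e : (r ^ 2)⁻¹ * (0 + (6 + a y)) + -((r ^ 2) ^ 2)⁻¹ * (0 + (0 + (4 * ρ y + b y))) -
          (1 / r ^ 2 - A ^ 2) =
          (r ^ 2 * (5 + a y) - (4 * ρ y + b y) + A ^ 2 * r ^ 4) / r ^ 4 := by
        field_simp
        ring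
      rw [← sub_nonneg, e]
      refine div_nonneg ?_ (by positivity)
      nlinarith [mul_le_mul_of_nonneg_left a8 (sq_nonneg r), sq_nonneg (r * (1 - A * r))]
    have b5 := mul_le_mul_of_nonneg_left b4 hE
    have b6 : c * (E * A ^ 2 / c) = E * A ^ 2 := by field_simp
    have b7 : E * (1 / r ^ 2) = E / r ^ 2 := by ring
    linarith
  have k1 := res_nonneg H (g.sm_sub sB hw) (C := 2 * c) (by positivity) (fun y => by
    rw [g.Δ_sub sB hw, heq]
    linarith [key y, (abs_le.1 (le_refl |e y|)).2]) x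
  have k2 := res_nonneg H (g.sm_add sB hw) (C := 2 * c) (by positivity) (fun y => by
    rw [g.Δ_add sB hw, heq]
    linarith [key y, (abs_le.1 (le_refl |e y|)).1]) x
  have a1 : 4 * Real.log δ ≤ Real.log ((δ ^ 2) ^ 2 + ρ x) := by
    have := Real.log_le_log (by positivity : 0 < (δ ^ 2) ^ 2)
      (le_add_of_nonneg_right (h.nonneg x))
    rw [Real.log_pow, Real.log_pow] at this
    push_cast at this
    linarith
  have a2 := Real.one_sub_inv_le_log_of_pos hδ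
  have a3 : 1 ≤ δ⁻¹ := (one_le_inv₀ hδ).2 hδ1
  have a4 := mul_le_mul_of_nonneg_left a3 (by positivity : 0 ≤ E * A + E * A ^ 2 / c)
  have a5 := mul_le_mul_of_nonneg_left (by linarith :
    -(4 * δ⁻¹) ≤ Real.log ((δ ^ 2) ^ 2 + ρ x)) hE
  rw [div_eq_mul_inv _ δ, abs_le]
  constructor <;> linarith

omit [CompactSpace M] [BorelSpace M] [IsFiniteMeasure μ] [μ.IsOpenPosMeasure] in
theorem bis_Γ_mul (hf : g.Sm f) (hu : g.Sm u) (x : M) :
    g.Γ (fun y => f y * u y) (fun y => f y * u y) x ≤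
      2 * (f x ^ 2 * g.Γ u u x) + 2 * (u x ^ 2 * g.Γ f f x) := by
  have := bis_Γ_le hu hf (f x) (u x) one_pos x
  rw [g.Γ_mul hf hu (g.sm_mul hf hu), g.Γ_mul_right hf hu hu, g.Γ_mul_right hf hu hf,
    g.Γ_symm hf hu]
  norm_num at this
  linarith

omit [CompactSpace M] [BorelSpace M] [IsFiniteMeasure μ] [μ.IsOpenPosMeasure] in
theorem bis_Γ_sub (hf : g.Sm f) (hu : g.Sm u) {τ : ℝ} (hτ : 0 < τ) (x : M) :
    g.Γ (fun y => f y - u y) (fun y => f y - u y) x ≤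
      (1 + τ) * g.Γ f f x + (1 + τ⁻¹) * g.Γ u u x := by
  have := bis_Γ_le hf hu 1 (-1) hτ x
  rw [show (fun y => f y - u y) = fun y => 1 * f y + -1 * u y from funext fun x => by ring,
    g.Γ_comb _ _ hf hu]
  linarith

omit [CompactSpace M] [BorelSpace M] [IsFiniteMeasure μ] [μ.IsOpenPosMeasure] in
/-- The error of the parametrix. -/
theorem PoleC.err (h : PoleC g ρ a b A) (c C : ℝ) : ∃ E G : ℝ, 0 ≤ E ∧ 0 ≤ G ∧
    ∀ (t : ℝ) (p : ℝ → ℝ), 0 < t → t ≤ 1 → ContDiff ℝ ∞ p → (∀ s, 0 ≤ s →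
      (t + s) * p s ^ 2 ≤ C ∧ (t + s) ^ 3 * deriv p s ^ 2 ≤ C ∧
      (t + s) ^ 5 * deriv (deriv p) s ^ 2 ≤ C ∧ (t + s) ^ 7 * deriv (deriv (deriv p)) s ^ 2 ≤ C) →
    ∃ e, g.Sm e ∧ ∀ x, e x = c * p (ρ x) - deriv p (ρ x) * a x - deriv (deriv p) (ρ x) * b x ∧
      |e x| * (t + ρ x) ≤ E ∧ g.Γ e e x * (t + ρ x) ^ 4 ≤ G := by
  have A0 := h.pos
  refine ⟨√(3 * (c ^ 2 * |C| * A + 2 * (A ^ 2 * |C|))),
    4 * (c ^ 2 * A ^ 3 * |C|) + 8 * (A ^ 2 * |C|) + 12 * (A ^ 4 * |C|) + 4 * (A * |C|),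
    by positivity, by positivity, fun t p ht ht1 c0 hp => ?_⟩
  have c1 : ContDiff ℝ ∞ (deriv p) := (contDiff_infty_iff_deriv.1 c0).2
  have c2 : ContDiff ℝ ∞ (deriv (deriv p)) := (contDiff_infty_iff_deriv.1 c1).2
  have s0 := g.sm_comp h.sm fun x => c0.contDiffAt
  have s1 := g.sm_comp h.sm fun x => c1.contDiffAt
  have s2 := g.sm_comp h.sm fun x => c2.contDiffAt
  have s3 := g.sm_sub (g.sm_smul c s0) (g.sm_mul s1 h.sa)
  refine ⟨_, g.sm_sub s3 (g.sm_mul s2 h.sb), fun x => ⟨rfl, ?_⟩⟩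
  have r0 := h.nonneg x
  obtain ⟨p0, p1, p2, p3⟩ := hp _ r0
  have hC := le_abs_self C
  have RA : t + ρ x ≤ A := by linarith [h.bd x]
  have rR : ρ x ≤ t + ρ x := by linarith
  have g1 := bis_Γ_sub s3 (g.sm_mul s2 h.sb) one_pos x
  have g2 := bis_Γ_sub (g.sm_smul c s0) (g.sm_mul s1 h.sa) one_pos x
  have g3 := bis_Γ_mul s1 h.sa x
  have g4 := bis_Γ_mul s2 h.sb x
  rw [g.Γ_comp_self h.sm fun x => c1.contDiffAt] at g3
  rw [g.Γ_comp_self h.sm fun x => c2.contDiffAt] at g4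
  rw [g.Γ_smul c s0 (g.sm_smul c s0), g.Γ_smul_right c s0 s0,
    g.Γ_comp_self h.sm fun x => c0.contDiffAt] at g2
  have G0 := g.Γ_nonneg h.sm x
  have ha : a x ^ 2 ≤ A ^ 2 * (t + ρ x) := (h.ha x).trans (by gcongr)
  have hb : b x ^ 2 ≤ A ^ 2 * (t + ρ x) ^ 3 := (h.hb x).trans (by gcongr)
  have hρ : g.Γ ρ ρ x ≤ A * (t + ρ x) := (h.Γρ x).trans (by gcongr)
  have hb' : g.Γ b b x ≤ A * (t + ρ x) := (h.Γb x).trans (by gcongr)
  have ha' := h.Γa x
  have R0 : 0 < t + ρ x := by positivity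
  generalize t + ρ x = R at *
  generalize p (ρ x) = P0 at *
  generalize deriv p (ρ x) = P1 at *
  generalize deriv (deriv p) (ρ x) = P2 at *
  generalize deriv (deriv (deriv p)) (ρ x) = P3 at *
  constructor
  · refine Real.le_sqrt_of_sq_le ?_
    have a1 : (c * P0 * R) ^ 2 ≤ c ^ 2 * |C| * A :=
      calc (c * P0 * R) ^ 2 = c ^ 2 * (R * P0 ^ 2) * R := by ring
        _ ≤ c ^ 2 * |C| * A := by gcongr; linarith
    have a2 : (P1 * a x * R) ^ 2 ≤ A ^ 2 * |C| :=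
      calc (P1 * a x * R) ^ 2 = a x ^ 2 * (R ^ 2 * P1 ^ 2) := by ring
        _ ≤ A ^ 2 * R * (R ^ 2 * P1 ^ 2) := by gcongr
        _ = A ^ 2 * (R ^ 3 * P1 ^ 2) := by ring
        _ ≤ A ^ 2 * |C| := by gcongr; linarith
    have a3 : (P2 * b x * R) ^ 2 ≤ A ^ 2 * |C| :=
      calc (P2 * b x * R) ^ 2 = b x ^ 2 * (R ^ 2 * P2 ^ 2) := by ring
        _ ≤ A ^ 2 * R ^ 3 * (R ^ 2 * P2 ^ 2) := by gcongr
        _ = A ^ 2 * (R ^ 5 * P2 ^ 2) := by ring
        _ ≤ A ^ 2 * |C| := by gcongr; linarith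
    rw [mul_pow, sq_abs]
    nlinarith [sq_nonneg (c * P0 * R + P1 * a x * R), sq_nonneg (c * P0 * R + P2 * b x * R),
      sq_nonneg (P1 * a x * R - P2 * b x * R)]
  · have a1 : c * (c * (P1 ^ 2 * g.Γ ρ ρ x)) * R ^ 4 ≤ c ^ 2 * A ^ 3 * |C| :=
      calc c * (c * (P1 ^ 2 * g.Γ ρ ρ x)) * R ^ 4 = c ^ 2 * g.Γ ρ ρ x * R * (R ^ 3 * P1 ^ 2) := by
            ring
        _ ≤ c ^ 2 * (A * A) * A * |C| := by
            gcongr
            · exact hρ.trans (by gcongr)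
            · linarith
        _ = _ := by ring
    have a2 : P1 ^ 2 * g.Γ a a x * R ^ 4 ≤ A ^ 2 * |C| :=
      calc P1 ^ 2 * g.Γ a a x * R ^ 4 = g.Γ a a x * (R * (R ^ 3 * P1 ^ 2)) := by ring
        _ ≤ A * (A * |C|) := by gcongr; linarith
        _ = _ := by ring
    have a3 : a x ^ 2 * (P2 ^ 2 * g.Γ ρ ρ x) * R ^ 4 ≤ A ^ 4 * |C| :=
      calc a x ^ 2 * (P2 ^ 2 * g.Γ ρ ρ x) * R ^ 4 ≤ A ^ 2 * R * (P2 ^ 2 * (A * R)) * R ^ 4 := by
            gcongr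
        _ = A ^ 3 * R * (R ^ 5 * P2 ^ 2) := by ring
        _ ≤ A ^ 3 * A * |C| := by gcongr; linarith
        _ = _ := by ring
    have a4 : P2 ^ 2 * g.Γ b b x * R ^ 4 ≤ A * |C| :=
      calc P2 ^ 2 * g.Γ b b x * R ^ 4 ≤ P2 ^ 2 * (A * R) * R ^ 4 := by gcongr
        _ = A * (R ^ 5 * P2 ^ 2) := by ring
        _ ≤ A * |C| := by gcongr; linarith
    have a5 : b x ^ 2 * (P3 ^ 2 * g.Γ ρ ρ x) * R ^ 4 ≤ A ^ 4 * |C| :=
      calc b x ^ 2 * (P3 ^ 2 * g.Γ ρ ρ x) * R ^ 4 ≤ A ^ 2 * R ^ 3 * (P3 ^ 2 * (A * R)) * R ^ 4 := by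
            gcongr
        _ = A ^ 3 * R * (R ^ 7 * P3 ^ 2) := by ring
        _ ≤ A ^ 3 * A * |C| := by gcongr; linarith
        _ = _ := by ring
    have R4 : 0 ≤ R ^ 4 := by positivity
    norm_num at g1 g2
    linarith [mul_le_mul_of_nonneg_right g1 R4, mul_le_mul_of_nonneg_right g2 R4,
      mul_le_mul_of_nonneg_right g3 R4, mul_le_mul_of_nonneg_right g4 R4]

end Pool.Agent.MP_9bd639_gt.H88

end

section

/-! The abstract volume comparison. -/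

open MeasureTheory Filter Topology Set
open scoped ContDiff

namespace Pool.Agent.MP_9bd639_gt.H88

open Pool.Agent.MP_3fc7f4_gt Pool.Agent.MP_9bd639_gt.H87

variable {M : Type} [MetricSpace M] [CompactSpace M] [MeasurableSpace M] [BorelSpace M]
  {μ : Measure M} [IsFiniteMeasure μ] [μ.IsOpenPosMeasure] {lam : ℝ} {g : Geo M μ 3 lam}
  {u a b ρ : M → ℝ} {k A : ℝ}

/-- The regularised Green function and its behaviour in the core. -/
theorem PoleC.green (h : PoleC g ρ a b A) (hk : 0 < k) (hCD : CD g k) (hz : ∃ p, ρ p = 0)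
    {C : ℝ} {F : ℝ → ℝ} (hF : ∀ s, 0 ≤ s → 0 ≤ F s)
    (hp : ∀ ε : ℝ, 0 < ε → ∃ p : ℝ → ℝ, ContDiff ℝ ∞ p ∧ ∀ s, 0 ≤ s →
      (ε ^ 2 + s) * p s ^ 2 ≤ C ∧ (ε ^ 2 + s) ^ 3 * deriv p s ^ 2 ≤ C ∧
      (ε ^ 2 + s) ^ 5 * deriv (deriv p) s ^ 2 ≤ C ∧
      (ε ^ 2 + s) ^ 7 * deriv (deriv (deriv p)) s ^ 2 ≤ C ∧
      4 * s * deriv p s ^ 2 ≤ p s ^ 4 ∧ (s ≤ ε ^ 2 → 1 ≤ ε * p s) ∧
      -6 * deriv p s - 4 * s * deriv (deriv p) s = F (s / ε ^ 2) / ε ^ 3) :
    ∃ W G : ℝ, ∀ δ τ : ℝ, 0 < δ → δ ≤ 1 → W * δ < 1 → 0 < τ → ∃ u, g.Sm u ∧ ∀ x, 0 < u x ∧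
      g.Δ u x = 3 * k / 4 * u x - F (ρ x / (δ ^ 2) ^ 2) / (δ ^ 2) ^ 3 ∧
      (ρ x ≤ (δ ^ 2) ^ 2 → 1 - W * δ ≤ δ ^ 2 * u x ∧ g.Γ u u x * (1 - W * δ) ^ 4 ≤
        ((1 + τ) * (1 + A * δ ^ 2) + (1 + τ⁻¹) * (G * δ)) * u x ^ 4) := by
  obtain ⟨H⟩ := exists_heat g
  have A0 := h.pos
  obtain ⟨c, hc⟩ : ∃ c, c = 3 * k / 4 := ⟨_, rfl⟩
  have c0 : 0 < c := by rw [hc]; positivity
  rw [← hc]
  obtain ⟨E, G, E0, G0, herr⟩ := h.err c C
  obtain ⟨W, hW⟩ : ∃ W, W = E * A + E * A ^ 2 / c + 4 * E := ⟨_, rfl⟩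
  have W0 : 0 ≤ W := by rw [hW]; positivity
  refine ⟨W, G + 2 * (W * E) + W ^ 2, fun δ τ hδ hδ1 hWδ hτ => ?_⟩
  obtain ⟨p, sp, hp⟩ := hp (δ ^ 2) (by positivity)
  obtain ⟨e, se, he⟩ := herr ((δ ^ 2) ^ 2) p (by positivity)
    (pow_le_one₀ (by positivity) (pow_le_one₀ hδ.le hδ1)) sp fun s hs =>
    ⟨(hp s hs).1, (hp s hs).2.1, (hp s hs).2.2.1, (hp s hs).2.2.2.1⟩
  obtain ⟨w, sw, hw⟩ := exists_res g (C := 2 * c) (by positivity) (g.sm_smul 2 se)
  have hw' : ∀ x, g.Δ w x = c * w x - e x := fun x => by linarith [hw x]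
  have b1 := h.barrier c0 E0 hδ hδ1 sw hw' fun x => (he x).2.1
  rw [← hW] at b1
  have b2 : ∀ x, |e x| ≤ E / δ ^ 4 := fun x => by
    rw [le_div_iff₀ (by positivity)]
    refine le_trans (mul_le_mul_of_nonneg_left ?_ (abs_nonneg _)) (he x).2.1
    linarith [h.nonneg x]
  have b3 : ∀ x, g.Γ e e x ≤ G / δ ^ 16 := fun x => by
    rw [le_div_iff₀ (by positivity)]
    refine le_trans (mul_le_mul_of_nonneg_left ?_ (g.Γ_nonneg se x)) (he x).2.2
    rw [show δ ^ 16 = ((δ ^ 2) ^ 2) ^ 4 by ring]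
    gcongr
    linarith [h.nonneg x]
  have b4 : ∀ x, g.Γ w w x * δ ^ 8 ≤ (G + 2 * (W * E) + W ^ 2) * δ := fun x => by
    refine (mul_le_mul_of_nonneg_right (bis_bern hk.le hCD sw se c0.le (l := δ ^ 5)
      (by positivity) hw' b1 b2 b3 x) (by positivity)).trans ?_
    have e1 : ((δ ^ 5) ^ 2 * (G / δ ^ 16) + 2 * (W / δ * (E / δ ^ 4)) + (W / δ) ^ 2 / δ ^ 5) * δ ^ 8 =
        (G * δ + 2 * (W * E) * δ ^ 2 + W ^ 2) * δ := by field_simp
    rw [e1]
    refine mul_le_mul_of_nonneg_right ?_ hδ.le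
    linarith [mul_le_of_le_one_right G0 hδ1, mul_le_of_le_one_right
      (by positivity : 0 ≤ 2 * (W * E)) (pow_le_one₀ (n := 2) hδ.le hδ1)]
  have s0 := g.sm_comp h.sm fun x => sp.contDiffAt
  have su := g.sm_sub s0 sw
  have q1 : ∀ x, g.Δ (fun x => p (ρ x) - w x) x =
      c * (p (ρ x) - w x) - F (ρ x / (δ ^ 2) ^ 2) / (δ ^ 2) ^ 3 := fun x => by
    rw [g.Δ_sub s0 sw, g.Δ_comp h.sm fun x => sp.contDiffAt, hw', (he x).1, h.ea, h.eb,
      ← (hp _ (h.nonneg x)).2.2.2.2.2.2]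
    ring
  have q2 : ∀ x, 0 ≤ F (ρ x / (δ ^ 2) ^ 2) / (δ ^ 2) ^ 3 := fun x =>
    div_nonneg (hF _ (div_nonneg (h.nonneg x) (by positivity))) (by positivity)
  have q3 : ∀ x, ρ x ≤ (δ ^ 2) ^ 2 → 1 ≤ δ ^ 2 * p (ρ x) ∧ 0 < p (ρ x) ∧
      (1 - W * δ) * p (ρ x) ≤ p (ρ x) - w x := fun x hx => by
    have a1 := (hp _ (h.nonneg x)).2.2.2.2.2.1 hx
    have a2 : W / δ ≤ W * δ * p (ρ x) := by
      rw [div_le_iff₀ hδ]
      nlinarith [mul_le_mul_of_nonneg_left a1 W0]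
    exact ⟨a1, (mul_pos_iff_of_pos_left (by positivity : 0 < δ ^ 2)).1 (by linarith),
      by linarith [(abs_le.1 (b1 x)).2]⟩
  obtain ⟨x₀, hx₀⟩ := hz
  have q4 := bis_pos su (a := c) (res_nonneg H su (C := 2 * c) (by positivity) fun x => by
    rw [q1]; linarith [q2 x]) (fun x => by rw [q1]; linarith [q2 x]) (p := x₀) (by
    obtain ⟨-, a2, a3⟩ := q3 x₀ (by rw [hx₀]; positivity)
    exact (mul_pos (by linarith) a2).trans_le a3)
  refine ⟨_, su, fun x => ⟨q4 x, q1 x, fun hx => ?_⟩⟩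
  obtain ⟨a1, a2, a3⟩ := q3 x hx
  have a4 : 0 < 1 - W * δ := by linarith
  refine ⟨by nlinarith [mul_le_mul_of_nonneg_left a3 (sq_nonneg δ)], ?_⟩
  have r0 := h.nonneg x
  have a5 := bis_Γ_sub s0 sw hτ x
  rw [g.Γ_comp_self h.sm fun x => sp.contDiffAt, h.eb] at a5
  have a6 : b x ≤ A * δ ^ 2 * ρ x := (abs_le_of_sq_le_sq' (b := A * δ ^ 2 * ρ x)
    ((h.hb x).trans (by
      rw [mul_pow, mul_pow, mul_assoc, pow_succ' (ρ x) 2]
      gcongr)) (by positivity)).2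
  have a7 : deriv p (ρ x) ^ 2 * (4 * ρ x + b x) ≤ (1 + A * δ ^ 2) * p (ρ x) ^ 4 :=
    calc deriv p (ρ x) ^ 2 * (4 * ρ x + b x)
        ≤ deriv p (ρ x) ^ 2 * ((1 + A * δ ^ 2) * (4 * ρ x)) := by
          gcongr
          nlinarith [mul_nonneg (mul_nonneg A0.le (sq_nonneg δ)) r0]
      _ = (1 + A * δ ^ 2) * (4 * ρ x * deriv p (ρ x) ^ 2) := by ring
      _ ≤ _ := by
          gcongr
          exact (hp _ r0).2.2.2.2.1
  have a8 : g.Γ w w x ≤ (G + 2 * (W * E) + W ^ 2) * δ * p (ρ x) ^ 4 :=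
    calc g.Γ w w x ≤ g.Γ w w x * (δ ^ 2 * p (ρ x)) ^ 4 :=
          le_mul_of_one_le_right (g.Γ_nonneg sw x) (one_le_pow₀ a1)
      _ = g.Γ w w x * δ ^ 8 * p (ρ x) ^ 4 := by ring
      _ ≤ _ := mul_le_mul_of_nonneg_right (b4 x) (by positivity)
  calc _ ≤ ((1 + τ) * ((1 + A * δ ^ 2) * p (ρ x) ^ 4) +
        (1 + τ⁻¹) * ((G + 2 * (W * E) + W ^ 2) * δ * p (ρ x) ^ 4)) * (1 - W * δ) ^ 4 := by
        gcongr
        refine a5.trans ?_
        gcongr
    _ = ((1 + τ) * (1 + A * δ ^ 2) + (1 + τ⁻¹) * ((G + 2 * (W * E) + W ^ 2) * δ)) *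
        ((1 - W * δ) * p (ρ x)) ^ 4 := by ring
    _ ≤ _ := by gcongr

omit [CompactSpace M] [BorelSpace M] [IsFiniteMeasure μ] [μ.IsOpenPosMeasure] in
theorem bis_inv (hu : g.Sm u) (h0 : ∀ x, 0 < u x) (hb : b = fun x => (u x)⁻¹) :
    g.Sm b ∧ ∀ x, g.Γ b b x = g.Γ u u x / u x ^ 4 ∧
      b x * g.Δ b x = 2 * g.Γ b b x - b x ^ 3 * g.Δ u x := by
  have hi : ∀ x, ContDiffAt ℝ ∞ (fun r : ℝ => r⁻¹) (u x) := fun x => contDiffAt_inv ℝ (h0 x).ne'
  have sb : g.Sm b := hb ▸ g.sm_comp hu hi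
  refine ⟨sb, fun x => ?_⟩
  have hx := (h0 x).ne'
  have e1 : g.Γ b u x = -(u x ^ 2)⁻¹ * g.Γ u u x := by rw [hb, g.Γ_comp hu hu hi, deriv_inv]
  have e2 : g.Γ b b x = g.Γ u u x / u x ^ 4 := by
    rw [hb, g.Γ_comp_self hu hi, deriv_inv]
    field_simp
  have e3 := g.Δ_mul sb hu x
  rw [show (fun y => b y * u y) = fun _ => 1 from funext fun y => by
    rw [hb]; exact inv_mul_cancel₀ (h0 y).ne', g.Δ_const, e1] at e3
  have e4 : b x = (u x)⁻¹ := by rw [hb]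
  refine ⟨e2, ?_⟩
  rw [e4] at e3
  rw [e2, e4]
  field_simp at e3 ⊢
  linarith

theorem bis_abstract {κ : ℝ} (hκ : 0 < κ) (hCD : CD g (κ ^ 2)) (hρ : Pole g ρ) :
    κ ^ 3 * μ.real univ ≤ 2 * Real.pi ^ 2 := by
  obtain ⟨a, b, A, h⟩ := hρ.consts
  obtain ⟨C, F, cF, F0, F1, iF, hp⟩ := bis_profile
  obtain ⟨W, G, hg⟩ := h.green (by positivity) hCD hρ.zero F0 hp
  have key : ∀ η : ℝ, 0 < η →
      κ ^ 3 * μ.real univ ≤ (1 + η) * ((Real.pi / 2 + η) * ((1 + η) * (4 * Real.pi))) := by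
    intro η hη
    have T0 : ∀ {φ : ℝ → ℝ}, ContinuousAt φ 0 → ∀ {r}, φ 0 < r → ∀ᶠ δ in 𝓝[>] 0, φ δ < r :=
      fun hφ r hr => (hφ.eventually_lt continuousAt_const hr).filter_mono nhdsWithin_le_nhds
    obtain ⟨t₀, ht₀, hT⟩ := Metric.eventually_nhds_iff.1
      ((bisTh_cd (t := 0) (by norm_num) (by norm_num)).continuousAt.eventually_lt
        continuousAt_const (by rw [bisTh_zero]; linarith : bisTh 0 < Real.pi / 2 + η))
    have v1 : ∀ᶠ δ in 𝓝[>] (0 : ℝ), δ < 1 := T0 continuousAt_id one_pos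
    have v2 : ∀ᶠ δ in 𝓝[>] (0 : ℝ), W * δ < 1 := T0 (by fun_prop) (by simp)
    have v3 : ∀ᶠ δ in 𝓝[>] (0 : ℝ),
        4 * (((1 + η) * (1 + A * δ ^ 2) + (1 + η⁻¹) * (G * δ)) / (1 - W * δ) ^ 4) +
          κ ^ 2 * (δ ^ 2 / (1 - W * δ)) ^ 2 < 4 * (1 + η) ^ 2 :=
      T0 (by fun_prop (disch := simp)) (by simp; nlinarith)
    have v4 : ∀ᶠ δ in 𝓝[>] (0 : ℝ), κ / (2 * (1 + η)) * (δ ^ 2 / (1 - W * δ)) < t₀ :=
      T0 (by fun_prop (disch := simp)) (by simpa using ht₀)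
    have v5 := (show Tendsto (fun δ : ℝ => δ ^ 2) (𝓝[>] 0) (𝓝[>] 0) from
      tendsto_nhdsWithin_iff.2 ⟨by
        simpa using ((continuous_pow 2).tendsto (0 : ℝ)).mono_left nhdsWithin_le_nhds,
        eventually_mem_nhdsWithin.mono fun δ hδ => (pow_pos (show 0 < δ from hδ) 2 :)⟩).eventually
      (hρ.vol F cF F0 F1 η hη)
    obtain ⟨δ, hδ, w1, w2, w3, w4, w5⟩ :=
      (eventually_mem_nhdsWithin.and (v1.and (v2.and (v3.and (v4.and v5))))).exists
    have hδ : 0 < δ := hδ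
    obtain ⟨u, su, hu⟩ := hg δ η hδ w1.le w2 hη
    have u0 := fun x => (hu x).1
    obtain ⟨sb, hb⟩ := bis_inv su u0 rfl
    have a4 : 0 < 1 - W * δ := by linarith
    have core : ∀ x, ρ x ≤ (δ ^ 2) ^ 2 → (u x)⁻¹ ≤ δ ^ 2 / (1 - W * δ) := fun x hx => by
      rw [inv_eq_one_div, div_le_div_iff₀ (u0 x) a4, one_mul]
      exact ((hu x).2.2 hx).1
    have out : ∀ x, (δ ^ 2) ^ 2 < ρ x → F (ρ x / (δ ^ 2) ^ 2) = 0 := fun x hx =>
      F1 _ ((one_le_div (by positivity)).2 hx.le)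
    have cρ := g.cont h.sm
    have hΦ := bis_grad (by positivity) hCD sb (fun x => inv_pos.2 (u0 x))
      (S := {x | ρ x ≤ (δ ^ 2) ^ 2})
      (L := 4 * (((1 + η) * (1 + A * δ ^ 2) + (1 + η⁻¹) * (G * δ)) / (1 - W * δ) ^ 4) +
          κ ^ 2 * (δ ^ 2 / (1 - W * δ)) ^ 2) (fun x hx => by
        have a1 := core x hx
        have a2 := (inv_pos.2 (u0 x)).le
        have a3 := (div_le_div_iff₀ (pow_pos (u0 x) 4) (pow_pos a4 4)).2 ((hu x).2.2 hx).2
        have a5 := mul_le_mul_of_nonneg_left (pow_le_pow_left₀ a2 a1 2) (sq_nonneg κ)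
        rw [(hb x).1]
        linarith) fun x hx => by
        filter_upwards [cρ.continuousAt.eventually (lt_mem_nhds (not_le.1 hx))] with y hy
        rw [(hb y).2, (hu y).2.1, out y hy]
        have := (u0 y).ne'
        field_simp
        ring
    have cf : Continuous fun x => F (ρ x / (δ ^ 2) ^ 2) / (δ ^ 2) ^ 3 := by fun_prop
    have h1 := bis_vol hκ (by linarith : 0 < 1 + η) su u0 cf (fun x => (hu x).2.1) rfl w3 hΦ
    have h2 : ∫ x, bisTh (κ / (2 * (1 + η)) * (u x)⁻¹) * (F (ρ x / (δ ^ 2) ^ 2) / (δ ^ 2) ^ 3) ∂μ ≤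
        ∫ x, (Real.pi / 2 + η) / (δ ^ 2) ^ 3 * F (ρ x / (δ ^ 2) ^ 2) ∂μ := by
      have pw : ∀ x, bisTh (κ / (2 * (1 + η)) * (u x)⁻¹) *
          (F (ρ x / (δ ^ 2) ^ 2) / (δ ^ 2) ^ 3) ≤
          (Real.pi / 2 + η) / (δ ^ 2) ^ 3 * F (ρ x / (δ ^ 2) ^ 2) := fun x => by
        rcases le_or_gt (ρ x) ((δ ^ 2) ^ 2) with hx | hx
        · have a1 := F0 _ (div_nonneg (h.nonneg x) (by positivity : 0 ≤ (δ ^ 2) ^ 2))
          have a2 := (inv_pos.2 (u0 x)).le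
          have a3 := hT (y := κ / (2 * (1 + η)) * (u x)⁻¹) (by
            rw [Real.dist_eq, sub_zero, abs_of_nonneg (by positivity)]
            refine lt_of_le_of_lt ?_ w4
            gcongr
            exact core x hx)
          exact (mul_le_mul_of_nonneg_right a3.le (div_nonneg a1 (by positivity))).trans_eq
            (by ring)
        · simp [out x hx]
      by_cases hi : Integrable (fun x => bisTh (κ / (2 * (1 + η)) * (u x)⁻¹) *
          (F (ρ x / (δ ^ 2) ^ 2) / (δ ^ 2) ^ 3)) μ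
      · exact integral_mono hi (intg (by fun_prop)) pw
      · rw [integral_undef hi]
        refine integral_nonneg fun x => mul_nonneg (by positivity) (F0 _ ?_)
        exact div_nonneg (h.nonneg x) (by positivity)
    rw [integral_const_mul] at h2
    rw [iF, mul_one] at w5
    have h3 := mul_le_mul_of_nonneg_left w5
      (by positivity : 0 ≤ (Real.pi / 2 + η) / (δ ^ 2) ^ 3)
    have e : (Real.pi / 2 + η) / (δ ^ 2) ^ 3 * ((1 + η) * (δ ^ 2) ^ 3 * (4 * Real.pi)) =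
        (Real.pi / 2 + η) * ((1 + η) * (4 * Real.pi)) := by field_simp
    rw [div_mul_eq_mul_div, div_le_iff₀' (by linarith)] at h1
    exact h1.trans (mul_le_mul_of_nonneg_left (by linarith) (by linarith))
  have lim : Tendsto (fun η : ℝ => (1 + η) * ((Real.pi / 2 + η) * ((1 + η) * (4 * Real.pi))))
      (𝓝[>] 0) (𝓝 ((1 + 0) * ((Real.pi / 2 + 0) * ((1 + 0) * (4 * Real.pi))))) :=
    ((by fun_prop : Continuous fun η : ℝ =>
      (1 + η) * ((Real.pi / 2 + η) * ((1 + η) * (4 * Real.pi)))).tendsto 0).mono_left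
      nhdsWithin_le_nhds
  exact (ge_of_tendsto lim (eventually_mem_nhdsWithin.mono fun η hη => key η hη)).trans_eq
    (by ring)

end Pool.Agent.MP_9bd639_gt.H88

end

section

/-! The volume comparison of Bishop for compact three-manifolds. -/

open MeasureTheory Filter Topology Set Metric Asymptotics
open scoped ContDiff

namespace Pool.Agent.MP_9bd639_gt.H88

open Pool.Agent.MP_3fc7f4_gt Pool.Agent.MP_3fc7f4_gt.PointedRiem Pool.Agent.MP_9bd639_gt.H87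

theorem bis_global {M : Type} [MetricSpace M] [CompactSpace M] {h r : M → ℝ} (hh : Continuous h)
    (hr : Continuous r) {p : M} (h0 : ∀ x, 0 ≤ r x) (h1 : ∀ x, x ≠ p → r x ≠ 0)
    (hO : h =O[𝓝 p] r) : ∃ C, ∀ x, h x ≤ C * r x := by
  obtain ⟨C, hC⟩ := hO.bound
  obtain ⟨U, hU, hUo, hp⟩ := _root_.eventually_nhds_iff.1 hC
  have hne : ∀ x ∈ Uᶜ, r x ≠ 0 := fun x hx => h1 x fun e => hx (e ▸ hp)
  obtain ⟨D, hD⟩ := hUo.isClosed_compl.isCompact.exists_bound_of_continuousOn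
    (hh.continuousOn.div hr.continuousOn hne)
  refine ⟨max C D, fun x => ?_⟩
  by_cases hx : x ∈ U
  · have := hU x hx
    rw [Real.norm_of_nonneg (h0 x)] at this
    exact ((le_abs_self _).trans this).trans
      (mul_le_mul_of_nonneg_right (le_max_left _ _) (h0 x))
  · have := (div_le_iff₀ ((h0 x).lt_of_ne' (hne x hx))).1 ((le_abs_self _).trans (hD x hx))
    exact this.trans (mul_le_mul_of_nonneg_right (le_max_right _ _) (h0 x))

section Coord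

variable {U : Set (Euc 3)} {G : Euc 3 → Matrix (Fin 3) (Fin 3) ℝ} {y₀ : Euc 3}

theorem bis_pd_coord (i j : Fin 3) (y : Euc 3) :
    pd i (fun z => (z - y₀) j) y = if j = i then 1 else 0 := by
  have : HasFDerivAt (fun z : Euc 3 => (z - y₀) j) (EuclideanSpace.proj (𝕜 := ℝ) j) y :=
    ((EuclideanSpace.proj (𝕜 := ℝ) j).hasFDerivAt (x := y)).sub_const (y₀ j)
  rw [pd, this.fderiv]
  simp [bas]

theorem bis_cd_coord (j : Fin 3) : ContDiff ℝ ∞ fun z : Euc 3 => (z - y₀) j :=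
  (EuclideanSpace.proj (𝕜 := ℝ) j).contDiff.comp (contDiff_id.sub contDiff_const)

theorem bis_cd_Q (A : Matrix (Fin 3) (Fin 3) ℝ) : ContDiff ℝ ∞ fun z => lip_Q A (z - y₀) :=
  ContDiff.sum fun i _ => ContDiff.sum fun j _ =>
    (contDiff_const.mul (bis_cd_coord i)).mul (bis_cd_coord j)

theorem bis_pd_lin (c : Fin 3 → ℝ) (i : Fin 3) (y : Euc 3) :
    pd i (fun z => ∑ l, c l * (z - y₀) l) y = c i := by
  have d := fun j => (bis_cd_coord (y₀ := y₀) j).differentiable (by simp) y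
  rw [pd_sum i fun l => (d l).const_mul _]
  simp only [fun l => pd_mul i (differentiableAt_const (c l)) (d l), pd_const, bis_pd_coord]
  simp

theorem bis_pd_Q {A : Matrix (Fin 3) (Fin 3) ℝ} (hA : ∀ i j, A i j = A j i) (i : Fin 3) :
    pd i (fun z => lip_Q A (z - y₀)) = fun y => 2 * ∑ l, A i l * (y - y₀) l := funext fun y => by
  have d := fun j => (bis_cd_coord (y₀ := y₀) j).differentiable (by simp) y
  have d' : ∀ j, DifferentiableAt ℝ (fun z : Euc 3 => ∑ l, A l j * (z - y₀) l) y := fun j =>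
    DifferentiableAt.fun_sum fun l _ => (d l).const_mul _
  have e : (fun z => lip_Q A (z - y₀)) = fun z => ∑ j, (∑ l, A l j * (z - y₀) l) * (z - y₀) j :=
    funext fun z => by
      simp only [lip_Q, Finset.sum_mul]
      exact Finset.sum_comm
  rw [e, pd_sum i fun j => (d' j).fun_mul (d j)]
  simp only [fun j => pd_mul i (d' j) (d j), bis_pd_lin, bis_pd_coord, Finset.sum_add_distrib,
    mul_ite, mul_one, mul_zero, Finset.sum_ite_eq', Finset.mem_univ, if_true, hA _ i]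
  rw [two_mul]
  exact congrArg _ (Finset.sum_congr rfl fun l _ => mul_comm _ _)

theorem bis_norm_Q {A : Matrix (Fin 3) (Fin 3) ℝ} (hA : A.PosDef) :
    (fun y => ‖y - y₀‖ ^ 2) =O[𝓝 y₀] fun y => lip_Q A (y - y₀) := by
  obtain ⟨v, hv, hm⟩ := (isCompact_sphere (0 : Euc 3) 1).exists_isMinOn
    (NormedSpace.sphere_nonempty.2 zero_le_one) (f := lip_Q A)
    (Continuous.continuousOn (by unfold lip_Q; fun_prop))
  have h0 : 0 < lip_Q A v := lip_Q_pos hA fun e => by simp [e] at hv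
  refine IsBigO.of_bound (lip_Q A v)⁻¹ (Eventually.of_forall fun y => ?_)
  rw [Real.norm_of_nonneg (sq_nonneg _), Real.norm_of_nonneg (lip_Q_nonneg hA _),
    le_inv_mul_iff₀ h0]
  rcases eq_or_ne (y - y₀) 0 with e | e
  · simp [e, lip_Q]
  have hn : ‖y - y₀‖ ≠ 0 := norm_ne_zero_iff.2 e
  have h1 : lip_Q A v ≤ lip_Q A (‖y - y₀‖⁻¹ • (y - y₀)) := hm (by simp [norm_smul, hn])
  rw [lip_Q_smul, inv_pow, le_inv_mul_iff₀ (by positivity)] at h1
  linarith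

theorem bis_O {φ : Euc 3 → ℝ} (hφ : ContDiffAt ℝ ∞ φ y₀) :
    (fun y => φ y - φ y₀) =O[𝓝 y₀] fun y => ‖y - y₀‖ :=
  (coord_diff hφ).isBigO_sub.norm_right

theorem bis_lap_O (h : MP_3fc7f4_gt.Met U G) (hy : y₀ ∈ U) :
    (fun y => (lap G (fun z => lip_Q (G y₀) (z - y₀)) y - 6) ^ 2) =O[𝓝 y₀]
      fun y => lip_Q (G y₀) (y - y₀) := by
  have e : lap G (fun z => lip_Q (G y₀) (z - y₀)) y₀ = 6 := by
    have d := fun j => (bis_cd_coord (y₀ := y₀) j).differentiable (by simp) y₀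
    have d' : ∀ j, DifferentiableAt ℝ (fun z : Euc 3 => ∑ l, (2 * G y₀ j l) * (z - y₀) l) y₀ :=
      fun j => DifferentiableAt.fun_sum fun l _ => (d l).const_mul _
    have e1 : ∀ i, grad G (fun z => lip_Q (G y₀) (z - y₀)) i =
        fun y => ∑ j, (G y)⁻¹ i j * ∑ l, (2 * G y₀ j l) * (y - y₀) l := fun i => funext fun y => by
      simp only [grad, bis_pd_Q (h.symm hy), Finset.mul_sum, mul_assoc]
    have e2 : ∀ i, ∑ j, (G y₀)⁻¹ i j * G y₀ j i = 1 := fun i => by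
      rw [← Matrix.mul_apply, Matrix.nonsing_inv_mul _ (h.coord_unit hy), Matrix.one_apply_eq]
    simp only [lap, dvg, e1]
    simp only [fun i => pd_sum i fun j => (coord_diff (h.cd_inv hy i j)).fun_mul (d' j),
      fun i j => pd_mul i (coord_diff (h.cd_inv hy i j)) (d' j), bis_pd_lin]
    simp only [sub_self, PiLp.zero_apply, mul_zero, Finset.sum_const_zero, zero_mul, add_zero,
      mul_left_comm _ (2 : ℝ), ← Finset.mul_sum, e2]
    norm_num
  have := (bis_O (h.cd_lap hy (bis_cd_Q (y₀ := y₀) (G y₀)).contDiffAt)).pow 2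
  rw [e] at this
  exact this.trans (bis_norm_Q (h.pos y₀ hy))

theorem bis_gam_O (h : MP_3fc7f4_gt.Met U G) (hy : y₀ ∈ U) :
    (fun y => (gam G (fun z => lip_Q (G y₀) (z - y₀)) (fun z => lip_Q (G y₀) (z - y₀)) y -
      4 * lip_Q (G y₀) (y - y₀)) ^ 2) =O[𝓝 y₀] fun y => lip_Q (G y₀) (y - y₀) ^ 3 := by
  set L : Fin 3 → Euc 3 → ℝ := fun i y => 2 * ∑ l, G y₀ i l * (y - y₀) l with hL
  have hLO : ∀ i, L i =O[𝓝 y₀] fun y => ‖y - y₀‖ := fun i => by
    have := bis_O (y₀ := y₀) (φ := L i) (contDiffAt_const.mul (ContDiffAt.sum fun l _ =>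
      contDiffAt_const.mul (bis_cd_coord l).contDiffAt))
    simpa [hL] using this
  have e : ∀ y, gam G (fun z => lip_Q (G y₀) (z - y₀)) (fun z => lip_Q (G y₀) (z - y₀)) y -
      4 * lip_Q (G y₀) (y - y₀) = ∑ i, ∑ j, ((G y)⁻¹ i j - (G y₀)⁻¹ i j) * L i y * L j y := by
    intro y
    have e1 : ∀ i, ∑ j, (G y₀)⁻¹ i j * L j y = 2 * (y - y₀) i := fun i => by
      have := congrFun (Matrix.mulVec_mulVec (y - y₀).ofLp (G y₀)⁻¹ (G y₀)) i
      rw [Matrix.nonsing_inv_mul _ (h.coord_unit hy), Matrix.one_mulVec] at this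
      rw [← this]
      simp only [hL, Matrix.mulVec, dotProduct, Finset.mul_sum]
      exact Finset.sum_congr rfl fun j _ => Finset.sum_congr rfl fun l _ => by ring
    have e2 : ∑ i, ∑ j, (G y₀)⁻¹ i j * L i y * L j y = 4 * lip_Q (G y₀) (y - y₀) := by
      rw [Finset.sum_congr rfl fun i _ => show ∑ j, (G y₀)⁻¹ i j * L i y * L j y =
        2 * (y - y₀) i * L i y by
          rw [← e1, Finset.sum_mul]
          exact Finset.sum_congr rfl fun j _ => mul_right_comm _ _ _]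
      simp only [hL, lip_Q, Finset.mul_sum]
      exact Finset.sum_congr rfl fun j _ => Finset.sum_congr rfl fun l _ => by ring
    simp only [sub_mul, Finset.sum_sub_distrib, e2]
    simp only [gam, bis_pd_Q (h.symm hy), hL]
  simp only [e]
  have h1 : (fun y => ∑ i, ∑ j, ((G y)⁻¹ i j - (G y₀)⁻¹ i j) * L i y * L j y) =O[𝓝 y₀]
      fun y => ‖y - y₀‖ * ‖y - y₀‖ * ‖y - y₀‖ :=
    IsBigO.fun_sum fun i _ => IsBigO.fun_sum fun j _ =>
      ((bis_O (h.cd_inv hy i j)).mul (hLO i)).mul (hLO j)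
  exact (h1.pow 2).trans (((bis_norm_Q (h.pos y₀ hy)).pow 3).congr_left fun y => by ring)

theorem bis_integral {A : Matrix (Fin 3) (Fin 3) ℝ} (hA : A.PosDef) {F : ℝ → ℝ}
    (hF : Continuous F) {ε : ℝ} (hε : 0 < ε) :
    √A.det * ∫ y, F (lip_Q A (y - y₀) / ε ^ 2) =
      ε ^ 3 * (4 * Real.pi * ∫ r in Ioi (0 : ℝ), r ^ 2 * F (r ^ 2)) := by
  obtain ⟨Q, hQd, hQ⟩ := regm_sqrt hA
  have hd : 0 < |Q.det| := by rw [hQd]; exact Real.sqrt_pos.2 hA.det_pos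
  set L : Euc 3 →ₗ[ℝ] Euc 3 := Matrix.toLpLin 2 2 (ε⁻¹ • Q) with hL
  have dL : LinearMap.det L = ε⁻¹ ^ 3 * Q.det := by
    rw [hL, LinearMap.det_toLpLin, Matrix.det_smul, Fintype.card_fin]
  have dL0 : LinearMap.det L ≠ 0 := by
    rw [dL]
    exact mul_ne_zero (by positivity) (abs_pos.1 hd)
  have e : ∀ z : Euc 3, lip_Q A z / ε ^ 2 = ‖L z‖ ^ 2 := fun z => by
    rw [lip_Q, hQ, EuclideanSpace.real_norm_sq_eq, Finset.sum_div]
    refine Finset.sum_congr rfl fun i _ => ?_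
    rw [hL, Matrix.toLpLin_apply, Matrix.smul_mulVec]
    simp only [Pi.smul_apply, smul_eq_mul, Matrix.mulVec, dotProduct]
    field_simp
  have h1 := integral_map (μ := volume) (φ := L) (f := fun z : Euc 3 => F (‖z‖ ^ 2))
    L.continuous_of_finiteDimensional.aemeasurable (Continuous.aestronglyMeasurable (by fun_prop))
  rw [Measure.map_linearMap_addHaar_eq_smul_addHaar _ dL0, integral_smul_measure,
    integral_fun_norm_addHaar volume fun r => F (r ^ 2), ENNReal.toReal_ofReal (abs_nonneg _),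
    Measure.real, EuclideanSpace.volume_ball_fin_three] at h1
  rw [integral_sub_right_eq_self (fun z => F (lip_Q A z / ε ^ 2)) y₀]
  simp only [e]
  rw [← h1, dL, ← hQd, abs_inv, abs_mul, abs_of_pos (by positivity : 0 < ε⁻¹ ^ 3)]
  simp only [finrank_euclideanSpace, Fintype.card_fin, ENNReal.ofReal_one, one_pow, one_mul,
    ENNReal.toReal_ofReal (by positivity : 0 ≤ Real.pi * 4 / 3), smul_eq_mul, nsmul_eq_mul]
  push_cast
  field_simp

end Coord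

theorem exists_pole (N : PointedRiem 3) [CompactSpace N.M] {lam : ℝ} (hl : 0 ≤ lam)
    (hR : RicciGe 3 N.M (-lam)) : ∃ ρ, Pole (N.geo (by norm_num) hl hR) ρ := by
  set p := N.pt
  have hm := met (N := N) p
  have hp : p ∈ (N.ch p).source := mem_chart_source _ p
  set y₀ := N.ch p p with hy₀
  have hy : y₀ ∈ (N.ch p).target := mem_target p
  have hA := hm.pos y₀ hy
  obtain ⟨r, hr, hB⟩ := Metric.nhds_basis_closedBall.eventually_iff.1
    ((N.ch p).open_target.eventually_mem hy)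
  let b : ContDiffBump y₀ := ⟨r / 2, r, half_pos hr, half_lt_self hr⟩
  let φ : Euc 3 → ℝ := fun y => b y * (lip_Q (coef p y₀) (y - y₀) - 1)
  have sφ : N.Sm (N.ext p φ) := by
    refine (ext_test p (φ := φ) ?_ b.hasCompactSupport.mul_right ?_).1
    · exact (b.contDiff.mul ((bis_cd_Q _).sub contDiff_const)).contDiffOn
    · refine (tsupport_mul_subset_left (f := b)).trans ?_
      rw [b.tsupport_eq]
      exact fun y hy => hB hy
  set ρ : N.M → ℝ := fun z => 1 + N.ext p φ z with hρ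
  have sρ : N.Sm ρ := ContMDiff.add contMDiff_const sφ
  have cρ := sρ.continuous
  have e1 : ∀ z ∈ (N.ch p).source, ρ z =
      1 - b (N.ch p z) + b (N.ch p z) * lip_Q (coef p y₀) (N.ch p z - y₀) := fun z hz => by
    simp only [hρ, PointedRiem.ext, if_pos hz, φ]
    ring
  have e2 : ∀ z ∉ (N.ch p).source, ρ z = 1 := fun z hz => by
    simp only [hρ, PointedRiem.ext, if_neg hz, add_zero]
  have r0 : ∀ z, 0 ≤ ρ z := fun z => by
    by_cases hz : z ∈ (N.ch p).source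
    · rw [e1 z hz]
      exact add_nonneg (sub_nonneg.2 b.le_one) (mul_nonneg b.nonneg (lip_Q_nonneg hA _))
    · rw [e2 z hz]
      exact zero_le_one
  have r1 : ∀ z, z ≠ p → ρ z ≠ 0 := fun z hzp => by
    by_cases hz : z ∈ (N.ch p).source
    · have h1 := lip_Q_pos hA (v := N.ch p z - y₀) fun e =>
        hzp ((N.ch p).injOn hz hp (sub_eq_zero.1 e))
      have h2 : 0 ≤ b (N.ch p z) := b.nonneg
      have h3 : b (N.ch p z) ≤ 1 := b.le_one
      rw [e1 z hz]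
      rcases h2.eq_or_lt with h | h
      · rw [← h]
        norm_num
      · exact (add_pos_of_nonneg_of_pos (sub_nonneg.2 h3) (mul_pos h h1)).ne'
    · rw [e2 z hz]
      exact one_ne_zero
  have e3 : ∀ y ∈ ball y₀ (r / 2), y ∈ (N.ch p).target ∧
      N.loc p ρ y = lip_Q (coef p y₀) (y - y₀) := fun y hy' => by
    have h1 : y ∈ (N.ch p).target :=
      hB (closedBall_subset_closedBall (half_le_self hr.le) (ball_subset_closedBall hy'))
    rw [loc, e1 _ ((N.ch p).map_target h1), (N.ch p).right_inv h1,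
      b.one_of_mem_closedBall (ball_subset_closedBall hy')]
    exact ⟨h1, by ring⟩
  have e4 : ∀ y ∈ ball y₀ (r / 2), N.loc p ρ =ᶠ[𝓝 y] fun y => lip_Q (coef p y₀) (y - y₀) :=
    fun y hy' => (isOpen_ball.eventually_mem hy').mono fun z hz => (e3 z hz).2
  have tp : Tendsto (N.ch p) (𝓝 p) (𝓝 y₀) := (N.ch p).continuousAt hp
  have ev : ∀ᶠ z in 𝓝 p, z ∈ (N.ch p).source ∧ N.ch p z ∈ ball y₀ (r / 2) :=
    ((N.ch p).open_source.eventually_mem hp).and (tp.eventually (ball_mem_nhds y₀ (half_pos hr)))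
  have e5 : ∀ z ∈ (N.ch p).source, N.ch p z ∈ ball y₀ (r / 2) →
      lip_Q (coef p y₀) (N.ch p z - y₀) = ρ z := fun z h1 h2 => by
    rw [← (e3 _ h2).2, loc, (N.ch p).left_inv h1]
  refine ⟨ρ, sρ, r0, ⟨p, ?_⟩, ?_, ?_, fun F cF F0 F1 η hη => ?_⟩
  · rw [← e5 p hp (mem_ball_self (half_pos hr))]
    simp [lip_Q, ← hy₀]
  · refine bis_global (((sm_Δ sρ).continuous.sub continuous_const).pow 2) cρ r0 r1
      (((bis_lap_O hm hy).comp_tendsto tp).congr' ?_ ?_)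
    · filter_upwards [ev] with z hz
      change _ = (N.Δ ρ z - 6) ^ 2
      rw [Δ_chart sρ hz.1, lap_congr (e4 _ hz.2), Function.comp_apply]
    · filter_upwards [ev] with z hz using e5 z hz.1 hz.2
  · refine bis_global (((sm_Γ sρ sρ).continuous.sub (cρ.const_mul 4)).pow 2) (cρ.pow 3)
      (fun x => pow_nonneg (r0 x) 3) (fun x hx => pow_ne_zero 3 (r1 x hx))
      (((bis_gam_O hm hy).comp_tendsto tp).congr' ?_ ?_)
    · filter_upwards [ev] with z hz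
      change _ = (N.Γ ρ ρ z - 4 * ρ z) ^ 2
      rw [Γ_chart sρ sρ hz.1, gam_congr (e4 _ hz.2) (e4 _ hz.2), Function.comp_apply,
        e5 z hz.1 hz.2]
    · filter_upwards [ev] with z hz
      rw [Function.comp_apply, e5 z hz.1 hz.2]
  · have hd0 : 0 < dens (coef p) y₀ := hm.dens_pos hy
    have hd : ∀ᶠ y in 𝓝 y₀, dens (coef p) y < (1 + η) * dens (coef p) y₀ :=
      (hm.cd_dens hy).continuousAt.eventually_lt continuousAt_const (by nlinarith)
    obtain ⟨V, hV, hVo, hpV⟩ := _root_.eventually_nhds_iff.1 (ev.and (tp.eventually hd))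
    obtain ⟨c, hc, hc'⟩ := hVo.isClosed_compl.isCompact.exists_forall_le' cρ.continuousOn
      fun z hz => (r0 z).lt_of_ne' (r1 z fun e => hz (e ▸ hpV))
    have small : ∀ᶠ ε in 𝓝[>] (0 : ℝ), ε ^ 2 < c :=
      (((continuous_pow 2).continuousAt (x := (0 : ℝ))).eventually_lt continuousAt_const
        (by simpa using hc)).filter_mono nhdsWithin_le_nhds
    filter_upwards [small, eventually_mem_nhdsWithin] with ε h1 hε
    have hε : 0 < ε := hε
    have out : ∀ z ∉ V, F (ρ z / ε ^ 2) = 0 := fun z hz =>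
      F1 _ ((one_le_div (by positivity)).2 (h1.le.trans (hc' z hz)))
    have cI : Continuous fun z => F (ρ z / ε ^ 2) := by fun_prop
    have nn : ∀ y, 0 ≤ F (lip_Q (coef p y₀) (y - y₀) / ε ^ 2) := fun y =>
      F0 _ (div_nonneg (lip_Q_nonneg hA _) (sq_nonneg _))
    have hi : Integrable fun y => F (lip_Q (coef p y₀) (y - y₀) / ε ^ 2) := by
      have cQ := (bis_cd_Q (y₀ := y₀) (coef p y₀)).continuous
      obtain ⟨v, hv, hmin⟩ := (isCompact_sphere (0 : Euc 3) 1).exists_isMinOn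
        (NormedSpace.sphere_nonempty.2 zero_le_one) (f := lip_Q (coef p y₀))
        (Continuous.continuousOn (by unfold lip_Q; fun_prop))
      have h0 : 0 < lip_Q (coef p y₀) v := lip_Q_pos hA fun e => by simp [e] at hv
      refine Continuous.integrable_of_hasCompactSupport (by fun_prop) (HasCompactSupport.intro
        (isCompact_closedBall y₀ (1 + ε ^ 2 / lip_Q (coef p y₀) v)) fun y hy => F1 _ ?_)
      rw [mem_closedBall, dist_eq_norm, not_le] at hy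
      have h2 : 0 < ε ^ 2 / lip_Q (coef p y₀) v := by positivity
      have hn : 0 < ‖y - y₀‖ := by linarith
      have h3 : lip_Q (coef p y₀) v ≤ lip_Q (coef p y₀) (‖y - y₀‖⁻¹ • (y - y₀)) :=
        hmin (by simp [norm_smul, hn.ne'])
      rw [lip_Q_smul, inv_pow, le_inv_mul_iff₀ (by positivity)] at h3
      rw [one_le_div (by positivity)]
      refine le_trans ((div_le_iff₀ h0).1 ?_) h3
      nlinarith
    rw [mul_assoc, ← bis_integral (y₀ := y₀) hA cF hε, ← mul_assoc, ← integral_const_mul,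
      ← setIntegral_eq_integral_of_forall_compl_eq_zero (s := (N.ch p).source)
        fun z hz => out z fun h => hz (hV z h).1.1,
      integral_chart p cI.aestronglyMeasurable]
    refine le_trans (integral_mono_of_nonneg (g := fun y => (1 + η) * √(coef p y₀).det *
      F (lip_Q (coef p y₀) (y - y₀) / ε ^ 2)) (Eventually.of_forall fun y => ?_)
      (hi.const_mul _).integrableOn ?_)
      (setIntegral_le_integral (hi.const_mul _) (Eventually.of_forall fun y =>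
        mul_nonneg (by positivity) (nn y)))
    · exact mul_nonneg (int_dens_nonneg p y) (F0 _ (div_nonneg (r0 _) (sq_nonneg _)))
    · refine (ae_restrict_iff' (N.ch p).open_target.measurableSet).2
        (Eventually.of_forall fun y hy' => ?_)
      simp only [loc]
      by_cases hz : (N.ch p).symm y ∈ V
      · obtain ⟨⟨a1, a2⟩, a3⟩ := hV _ hz
        rw [← e5 _ a1 a2]
        rw [(N.ch p).right_inv hy'] at a3 ⊢
        exact mul_le_mul_of_nonneg_right a3.le (nn y)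
      · rw [out _ hz, mul_zero]
        exact mul_nonneg (by positivity) (nn y)

/-- The volume comparison under the curvature-dimension inequality. -/
theorem bishop_cd (N : PointedRiem 3) [CompactSpace N.M] {k : ℝ} (hk : 0 < k)
    (h : ∀ f, N.Sm f → ∀ x, N.Δ f x ^ 2 / 3 + 2 * k * N.Γ f f x ≤
      N.Δ (N.Γ f f) x / 2 - N.Γ f (N.Δ f) x) :
    N.vol.real univ ≤ 2 * Real.pi ^ 2 / k ^ (3 / 2 : ℝ) := by
  obtain ⟨lam, hl, hR⟩ := exists_ricciGe (N := N)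
  obtain ⟨ρ, hρ⟩ := exists_pole N hl hR
  have := bis_abstract (κ := √k) (Real.sqrt_pos.2 hk) (by rw [Real.sq_sqrt hk.le]; exact h) hρ
  rw [le_div_iff₀' (by positivity)]
  rwa [Real.sqrt_eq_rpow, ← Real.rpow_natCast, ← Real.rpow_mul hk.le,
    show (1 / 2 * (3 : ℕ) : ℝ) = 3 / 2 by norm_num] at this

/-- The volume comparison under a lower bound of the Ricci curvature. -/
theorem bishop_ric (N : PointedRiem 3) [CompactSpace N.M] {k : ℝ} (hk : 0 < k)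
    (h : RicciGe 3 N.M (2 * k)) : N.vol.real univ ≤ 2 * Real.pi ^ 2 / k ^ (3 / 2 : ℝ) :=
  bishop_cd N hk fun f hf x => by
    have := (bochner (lam := -(2 * k)) (by rwa [neg_neg]) hf x).1
    push_cast at this
    linarith

end Pool.Agent.MP_9bd639_gt.H88

end

end

-- part GoodR
section

/-! Resolvent, weak Harnack inequality and Sobolev inequality on a closed Riemannian manifold. -/

open MeasureTheory Filter Topology Set

namespace Pool.Agent.MP_9bd639_gt.H88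

open Pool.Agent.MP_3fc7f4_gt Pool.Agent.MP_9bd639_gt.H87

variable (N : PointedRiem 3) [CompactSpace N.M]

theorem riem_res {C : ℝ} (hC : 0 < C) {e : N.M → ℝ} (he : N.Sm e) :
    ∃ v, N.Sm v ∧ ∀ x, C * v x - 2 * N.Δ v x = e x := by
  obtain ⟨lam, hl, hR⟩ := exists_ricciGe (N := N)
  exact exists_res (N.geo (by norm_num) hl hR) hC he

theorem riem_harn {C : ℝ} : ∃ α : ℝ, 0 < α ∧ ∀ u, N.Sm u → (∀ x, 0 ≤ u x) →
    (∀ x, 0 ≤ C * u x - 2 * N.Δ u x) → ∀ x, α * ∫ y, u y ∂N.vol ≤ u x := by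
  obtain ⟨lam, hl, hR⟩ := exists_ricciGe (N := N)
  obtain ⟨h⟩ := exists_heat (N.geo (by norm_num) hl hR)
  obtain ⟨κ, K, hκ, hp⟩ := kernel_bd h
  refine ⟨κ / Real.exp (C / 2 * 3), by positivity, fun u hu u0 h0 x => ?_⟩
  have h1 := cmp h hu (a := C / 2) (t := 3) (fun y => by
    have := h0 y
    change N.Δ u y ≤ _
    linarith) (by norm_num) x
  have c1 : Continuous u := hu.continuous
  have c2 : Continuous (h.p 3 x) := (N.geo (by norm_num) hl hR).cont (h.sm_U 0 (by norm_num) _)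
  rw [div_mul_eq_mul_div, div_le_iff₀' (Real.exp_pos _), ← integral_const_mul]
  exact (integral_mono (intg (continuous_const.mul c1)) (intg (c2.mul c1)) fun y =>
    mul_le_mul_of_nonneg_right (hp x y).1 (u0 y)).trans h1

theorem riem_sob4 (h0 : ∀ x, 0 ≤ scal N x) (hB : 0 < ∫ x, sigma2 N x ∂N.vol) {φ : N.M → ℝ}
    (hφ : N.Sm φ) : Real.sqrt (∫ x, sigma2 N x ∂N.vol) / 6 * Real.sqrt (∫ x, φ x ^ 4 ∂N.vol) ≤
      ∫ x, (2 * N.Γ φ φ x + sigma1 N x * φ x ^ 2) ∂N.vol := by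
  obtain ⟨lam, hl, hR⟩ := exists_ricciGe (N := N)
  have : Nonempty N.M := ⟨N.pt⟩
  obtain ⟨h⟩ := exists_heat (N.geo (by norm_num) hl hR)
  have e : sigma2 N = fun x => (6 * sigma1 N x ^ 2 - ricSq N x) / 2 := funext fun x => by
    rw [sigma2, sigma1]
    ring
  have h1 : ∀ x, 0 ≤ (curv hl hR).σ x := fun x => div_nonneg (h0 x) (by norm_num)
  by_contra hn
  obtain ⟨f, hf, hs⟩ := ground h (curv hl hR).sm_σ h1 hφ
    (div_pos (Real.sqrt_pos.2 hB) (by norm_num : (0 : ℝ) < 6)) (not_le.1 hn)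
  rw [div_pow, Real.sq_sqrt hB.le] at hs
  rw [e] at hB hs
  have h2 : ∫ x, (6 * sigma1 N x ^ 2 - ricSq N x) / 2 ∂N.vol ≤ _ :=
    ((curv hl hR).star h1 hf hs hB.le).1
  linarith

end Pool.Agent.MP_9bd639_gt.H88

end
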