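import Pool.Agent.MP_9bd639_gt.G.Tens1

-- part A3
section

/-! Symmetries of the curvature tensor, Bianchi identities, commutation formulas. -/

open Matrix

namespace Pool.Agent.MP_9bd639_gt.H88

set_option linter.unusedSectionVars false

variable {ι : Type} [Fintype ι] [DecidableEq ι] {A : Type} [CommRing A] [Algebra ℝ A]
  {F : Fr ι A}

theorem A3_two {x y : A} (h : 2 * x = 2 * y) : x = y := by
  linear_combination hf A * h - (x - y) * two_hf (A := A)

theorem A3_tan {V : Type} [AddCommGroup V] [Module A V] {c : ι → V → V} (h : F.IsCn c)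
    (M : Matrix ι ι A) (i : ι) (v : V) : ∑ l, (M * F.π) i l • c l v = ∑ l, M i l • c l v := by
  simp only [mul_apply, Finset.sum_smul]
  rw [Finset.sum_comm]
  refine Finset.sum_congr rfl fun n _ => ?_
  rw [h.tan n v, Finset.smul_sum]
  exact Finset.sum_congr rfl fun l _ => mul_smul _ _ _

namespace Met

variable (m : Met F)

theorem R_anti (i j : ι) : m.R i j = -m.R j i := by
  have : ∑ l, (m.Γ j i l - m.Γ i j l) • m.Γ l = -∑ l, (m.Γ i j l - m.Γ j i l) • m.Γ l := by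
    rw [← Finset.sum_neg_distrib]
    exact Finset.sum_congr rfl fun l _ => by rw [← neg_smul, neg_sub]
  rw [R, R, this]
  abel
/-- Compare `curv1 (π ω)` with `π (curv1 ω)` (`c1_π`), or compute with `Γ_π` and `tors`. -/
theorem R_π (i j : ι) : m.R i j * F.π = F.π * m.R i j := by
  have h : m.curv m.c2 i j (F.π * 1) = F.π * m.curv m.c2 i j 1 := by
    simp only [curv, m.c2_π, Matrix.mul_sub, Matrix.mul_sum, Matrix.mul_smul]
  rw [curv2, curv2] at h
  simp only [mul_one, one_mul, mul_neg, mul_add, neg_inj, add_left_inj] at h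
  exact h

theorem A3_curv_tan {V : Type} [AddCommGroup V] [Module A V] {c : ι → V → V} (h : F.IsCn c)
    (i j : ι) (v : V) : m.curv c i j v = ∑ n, F.π i n • m.curv c n j v := by
  have h1 : c j (c i v) = ∑ n, F.XM j F.π i n • c n v + ∑ n, F.π i n • c j (c n v) := by
    rw [h.tan i v, h.sum, ← Finset.sum_add_distrib]
    exact Finset.sum_congr rfl fun n _ => h.smul _ _ _
  have h2 : ∑ n, F.π i n • ∑ l, (m.Γ n j l - m.Γ j n l) • c l v =
      ∑ l, m.Γ i j l • c l v - ∑ l, (F.π * m.Γ j) i l • c l v := by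
    simp only [Finset.smul_sum]
    rw [Finset.sum_comm, ← Finset.sum_sub_distrib]
    refine Finset.sum_congr rfl fun l _ => ?_
    rw [m.Γ_tan i, mul_apply, Matrix.sum_apply, ← sub_smul, ← Finset.sum_sub_distrib,
      Finset.sum_smul]
    refine Finset.sum_congr rfl fun n _ => ?_
    rw [smul_smul, Matrix.smul_apply, smul_eq_mul, mul_sub]
  have h3 : ∑ n, F.XM j F.π i n • c n v =
      ∑ l, m.Γ j i l • c l v - ∑ l, (F.π * m.Γ j) i l • c l v := by
    rw [m.Γ_π j, ← A3_tan h (m.Γ j), ← Finset.sum_sub_distrib]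
    exact Finset.sum_congr rfl fun l _ => by rw [Matrix.sub_apply, sub_smul]
  simp only [curv, smul_sub, Finset.sum_sub_distrib]
  rw [← h.tan, h2, h1, h3]
  simp only [sub_smul, Finset.sum_sub_distrib]
  abel

theorem R_tan (i j : ι) : m.R i j = ∑ n, F.π i n • m.R n j := by
  refine ext_iff_mulVec.2 fun ω => neg_injective ?_
  rw [← curv1, m.A3_curv_tan m.isCn1, sum_mulVec, ← Finset.sum_neg_distrib]
  exact Finset.sum_congr rfl fun n _ => by rw [curv1, smul_mulVec, smul_neg]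
theorem Riem_γ (i j : ι) : m.Riem i j * m.γ = m.R i j * F.π := by
  rw [Riem, mul_assoc, m.Gγ]
theorem Riem_π (i j : ι) : F.π * m.Riem i j = m.Riem i j ∧ m.Riem i j * F.π = m.Riem i j :=
  ⟨by rw [Riem, ← mul_assoc, ← R_π, mul_assoc, m.πG], by rw [Riem, mul_assoc, m.Gπ]⟩
theorem Riem_tan (i j : ι) : m.Riem i j = ∑ n, F.π i n • m.Riem n j := by
  rw [Riem, R_tan, Finset.sum_mul]
  exact Finset.sum_congr rfl fun n _ => smul_mul_assoc _ _ _

theorem A3_anti (i j : ι) : m.Riem i j = -m.Riem j i := by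
  rw [Riem, R_anti, neg_mul, Riem]

theorem A3_transpose (i j : ι) : (m.Riem i j)ᵀ = -m.Riem i j := by
  have h : m.curv m.c2 i j m.G = 0 := by
    simp only [curv, m.c2_G, m.isCn2.zero, smul_zero, Finset.sum_const_zero, sub_zero]
  rw [curv2, neg_eq_zero] at h
  rw [Riem, transpose_mul, m.G_symm]
  exact eq_neg_of_add_eq_zero_right h

theorem Riem_anti (i j k l : ι) : m.Riem i j k l = -m.Riem j i k l :=
  congrFun (congrFun (m.A3_anti i j) k) l
/-- `curv2` applied to `G`. -/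
theorem Riem_anti' (i j k l : ι) : m.Riem i j k l = -m.Riem i j l k :=
  congrFun (congrFun (m.A3_transpose i j) l) k

theorem A3_comm1 (ω : ι → A) (i j k : ι) :
    m.c2 i (m.d1 ω) j k - m.c2 j (m.d1 ω) i k = -(m.R i j *ᵥ ω) k := by
  rw [c2_eq, c2_eq]
  exact congrFun ((m.ricci_id m.c1 ω i j).trans (m.curv1 i j ω)) k

theorem A3_bianchi (i j k p : ι) :
    (m.R i j * F.π) k p + (m.R j k * F.π) i p + (m.R k i * F.π) j p = 0 := by
  have s : ∀ a b c, m.c2 a (m.d1 (F.d0 (F.f p))) b c = m.c2 a (m.d1 (F.d0 (F.f p))) c b :=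
    fun a b c => congrFun (congrFun (m.ST_c2 (m.ST_hess (F.f p)) a).symm c) b
  have e : ∀ a b c, (m.R a b * F.π) c p = (m.R a b *ᵥ F.d0 (F.f p)) c := fun _ _ _ => rfl
  rw [e, e, e]
  linear_combination m.A3_comm1 (F.d0 (F.f p)) i j k + m.A3_comm1 (F.d0 (F.f p)) j k i +
    m.A3_comm1 (F.d0 (F.f p)) k i j - s i j k - s j k i - s k i j

/-- The Ricci identity for `d0 a` and the symmetry of the Hessian give the cyclic identity
against `X n a`; take `a = f p` and multiply with `G`. -/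
theorem bianchi1 (i j k l : ι) : m.Riem i j k l + m.Riem j k i l + m.Riem k i j l = 0 := by
  have e : ∀ a b c, m.Riem a b c l = ∑ p, (m.R a b * F.π) c p * m.G p l := fun a b c => by
    rw [← mul_apply, mul_assoc, m.πG, Riem]
  rw [e, e, e, ← Finset.sum_add_distrib, ← Finset.sum_add_distrib]
  exact Finset.sum_eq_zero fun p _ => by rw [← add_mul, ← add_mul, A3_bianchi, zero_mul]
theorem Riem_pair (i j k l : ι) : m.Riem i j k l = m.Riem k l i j := by
  refine A3_two ?_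
  linear_combination m.bianchi1 i j k l + m.bianchi1 j k l i - m.bianchi1 k l i j -
    m.bianchi1 l i j k - m.Riem_anti' j k i l + m.Riem_anti' l i k j + m.Riem_anti i k l j -
    m.Riem_anti' k i j l + m.Riem_anti j l i k - m.Riem_anti' l j k i + m.Riem_anti' i j l k -
    m.Riem_anti' k l j i

theorem A3_Ric (j k : ι) : m.Ric j k = ∑ i, (m.Riem i j * m.γ) k i :=
  Finset.sum_congr rfl fun i _ => Finset.sum_congr rfl fun l _ => by
    rw [mul_comm, m.γ_apply_symm]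

theorem A3_Ric_symm (j k : ι) : m.Ric j k = m.Ric k j := by
  change ∑ i, ∑ l, _ = ∑ i, ∑ l, _
  rw [Finset.sum_comm]
  refine Finset.sum_congr rfl fun i _ => Finset.sum_congr rfl fun l _ => ?_
  rw [m.γ_apply_symm, m.Riem_pair i k j l, m.Riem_anti j l, m.Riem_anti' l j i k, neg_neg]

theorem ST_Ric : F.ST m.Ric := by
  refine ⟨Matrix.ext fun j k => m.A3_Ric_symm k j, Matrix.ext fun k j => ?_⟩
  rw [mul_apply, A3_Ric_symm, A3_Ric]
  simp only [m.A3_Ric_symm _ j, A3_Ric, Finset.mul_sum]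
  rw [Finset.sum_comm]
  refine Finset.sum_congr rfl fun i _ => ?_
  rw [← mul_apply, ← mul_assoc, (m.Riem_π i j).1]
theorem ST_S : F.ST m.S := Fr.ST.sub F m.ST_Ric (Fr.ST.smul F m.ST_G _)
theorem tr_Ric : m.tr m.Ric = 4 * m.s1 := by
  rw [s1]
  linear_combination (-(m.tr m.Ric) * (2 * hf A + 1)) * two_hf (A := A)
theorem tr_S : m.tr m.S = m.s1 := by
  rw [S, tr_sub, tr_smul, tr_G, tr_Ric]
  ring
theorem Ric_eq : m.Ric = m.S + m.s1 • m.G := (sub_add_cancel _ _).symm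

theorem A3_R_mulVec {ω : ι → A} (h : F.π *ᵥ ω = ω) (i j : ι) :
    m.R i j *ᵥ ω = m.Riem i j *ᵥ (m.γ *ᵥ ω) := by
  rw [mulVec_mulVec, Riem_γ, ← mulVec_mulVec, h]

theorem comm1 {ω : ι → A} (h : F.π *ᵥ ω = ω) (i j k : ι) :
    m.c2 i (m.d1 ω) j k - m.c2 j (m.d1 ω) i k = -(m.Riem i j *ᵥ (m.γ *ᵥ ω)) k := by
  rw [A3_comm1, m.A3_R_mulVec h]
theorem comm2 {T : Matrix ι ι A} (h : F.π * T = T) (h' : T * F.π = T) (i j : ι) :
    m.d3 (m.d2 T) i j - m.d3 (m.d2 T) j i =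
      -(m.Riem i j * m.γ * T - T * m.γ * m.Riem i j) := by
  refine ((m.ricci_id m.c2 T i j).trans (m.curv2 i j T)).trans ?_
  have e : T * (m.R i j)ᵀ = -(T * m.γ * m.Riem i j) := by
    rw [← mul_neg, ← A3_transpose, mul_assoc, ← m.γ_symm, ← transpose_mul, Riem_γ, transpose_mul,
      F.π_symm, ← mul_assoc, h']
  rw [e, Riem_γ, mul_assoc (m.R i j), h, sub_eq_add_neg]

theorem A3_jacobi {V : Type} [AddCommGroup V] [Module A V] {c : ι → V → V} (hc : F.IsCn c)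
    (v : V) (h i j : ι) :
    covPi m.Γ (covPi m.Γ c) h (fun a b => m.curv c a b v) i j +
      covPi m.Γ (covPi m.Γ c) i (fun a b => m.curv c a b v) j h +
      covPi m.Γ (covPi m.Γ c) j (fun a b => m.curv c a b v) h i =
    m.curv c h i (c j v) + m.curv c i j (c h v) + m.curv c j h (c i v) := by
  let D : ι → ι → V := fun a => covPi m.Γ c a fun k => c k v
  have e1 : ∀ h i j, covPi m.Γ (covPi m.Γ c) h (fun a b => m.curv c a b v) i j =
      covPi m.Γ (covPi m.Γ c) h D i j - covPi m.Γ (covPi m.Γ c) h D j i := fun h i j => by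
    have : (fun a b => m.curv c a b v) = D - fun a b => D b a :=
      funext fun a => funext fun b => (m.ricci_id c v a b).symm
    rw [this, (m.isCn_pi (m.isCn_pi hc)).sub, Pi.sub_apply, Pi.sub_apply, m.cov_swap hc h D i j]
  have e2 : ∀ h i j, covPi m.Γ (covPi m.Γ c) h D i j - covPi m.Γ (covPi m.Γ c) i D h j =
      m.curv c h i (c j v) - ∑ n, (m.R h i * F.π) j n • c n v := fun h i j => by
    rw [A3_tan hc]
    exact (congrFun (m.ricci_id (covPi m.Γ c) (fun k => c k v) h i) j).trans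
      (m.curv_pi hc h i _ j)
  have e3 : ∑ n, (m.R h i * F.π) j n • c n v + ∑ n, (m.R i j * F.π) h n • c n v +
      ∑ n, (m.R j h * F.π) i n • c n v = 0 := by
    rw [← Finset.sum_add_distrib, ← Finset.sum_add_distrib]
    exact Finset.sum_eq_zero fun n _ => by rw [← add_smul, ← add_smul, A3_bianchi, zero_smul]
  rw [e1, e1, e1]
  linear_combination (norm := abel1) e2 h i j + e2 i j h + e2 j h i - e3

theorem A3_c4 (h : ι) (Θ : ι → ι → Matrix ι ι A) (i j : ι) :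
    m.c4 h Θ i j = m.c2 h (Θ i j) - ∑ n, m.Γ h j n • Θ i n - ∑ n, m.Γ h i n • Θ n j := by
  simp only [c4, c3, covPi, Pi.sub_apply, Finset.sum_apply, Pi.smul_apply]

theorem A3_leib (Θ : ι → ι → Matrix ι ι A) (ω : ι → A) (h i j : ι) :
    covPi m.Γ (covPi m.Γ m.c1) h (fun a b => Θ a b *ᵥ (m.γ *ᵥ ω)) i j =
      m.c4 h Θ i j *ᵥ (m.γ *ᵥ ω) + Θ i j *ᵥ (m.γ *ᵥ m.c1 h ω) := by
  rw [A3_c4]
  simp only [covPi, Pi.sub_apply, Finset.sum_apply, Pi.smul_apply, sub_mulVec, sum_mulVec,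
    smul_mulVec, c1_mulVec]
  abel

/-- The second Bianchi identity. Take `ω` tangent, compute the cyclic sum of
`∇³ (h, i, j) ω - ∇³ (h, j, i) ω` (derivative of `comm1`) and of
`∇³ (h, i, j) ω - ∇³ (i, h, j) ω` (`comm2` for `d1 ω`); they agree after relabelling, the terms
with the derivative index cancel by `bianchi1`. Then take `ω = G` applied to a basis vector. -/
theorem bianchi2 (h i j : ι) : m.c4 h m.Riem i j + m.c4 i m.Riem j h + m.c4 j m.Riem h i = 0 := by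
  have hπ : ∀ h i j, m.c4 h m.Riem i j * F.π = m.c4 h m.Riem i j := fun h i j => by
    simp only [A3_c4, Matrix.sub_mul, Matrix.sum_mul, Matrix.smul_mul, ← c2_π',
      fun a b => (m.Riem_π a b).2]
  rw [← hπ, ← hπ i, ← hπ j, ← add_mul, ← add_mul]
  refine ext_iff_mulVec.2 fun η => ?_
  have ht : F.π *ᵥ (m.G *ᵥ η) = m.G *ᵥ η := by rw [mulVec_mulVec, m.πG]
  have key := m.A3_jacobi m.isCn1 (m.G *ᵥ η) h i j
  have e : (fun a b => m.curv m.c1 a b (m.G *ᵥ η)) =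
      -fun a b => m.Riem a b *ᵥ (m.γ *ᵥ (m.G *ᵥ η)) :=
    funext fun a => funext fun b => by rw [curv1, m.A3_R_mulVec ht]; rfl
  have ht' : ∀ a, F.π *ᵥ m.c1 a (m.G *ᵥ η) = m.c1 a (m.G *ᵥ η) := fun a => by rw [← c1_π, ht]
  rw [e] at key
  simp only [(m.isCn_pi (m.isCn_pi m.isCn1)).neg, Pi.neg_apply, A3_leib, curv1,
    m.A3_R_mulVec (ht' _)] at key
  rw [← mulVec_mulVec, ← m.γG, ← mulVec_mulVec, add_mulVec, add_mulVec, zero_mulVec]
  linear_combination (norm := abel1) -key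

theorem A3_c4_apply (h : ι) (Θ : ι → ι → Matrix ι ι A) (i j k l : ι) :
    m.c4 h Θ i j k l = F.X h (Θ i j k l) - ∑ n, m.Γ h k n * Θ i j n l -
      ∑ n, m.Γ h l n * Θ i j k n - ∑ n, m.Γ h j n * Θ i n k l - ∑ n, m.Γ h i n * Θ n j k l := by
  simp only [A3_c4, c2, Fr.cM, Matrix.sub_apply, Matrix.sum_apply, Matrix.smul_apply, mul_apply,
    transpose_apply, Fr.XM_apply, smul_eq_mul, mul_comm (Θ i j k _)]

theorem A3_c4_anti (h i j k l : ι) : m.c4 h m.Riem i j k l = -m.c4 h m.Riem j i k l := by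
  have e : m.Riem = -fun a b => m.Riem b a := funext fun a => funext fun b => m.A3_anti a b
  have := m.cov_swap m.isCn2 h m.Riem i j
  conv_lhs => rw [e, m.isCn4.neg]
  exact congrArg Neg.neg (congrFun (congrFun this k) l)

theorem A3_c4_anti' (h i j k l : ι) : m.c4 h m.Riem i j k l = -m.c4 h m.Riem i j l k := by
  have e : m.Riem = -fun a b => (m.Riem a b)ᵀ :=
    funext fun a => funext fun b => neg_eq_iff_eq_neg.1 (m.A3_transpose a b).symm
  conv_lhs => rw [e, m.isCn4.neg]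
  refine congrArg Neg.neg ?_
  simp only [A3_c4_apply, transpose_apply]
  ring

theorem A3_c2_Ric (h j k : ι) :
    m.c2 h m.Ric j k = ∑ i, ∑ l, m.γ i l * m.c4 h m.Riem i j k l := by
  have e : m.Ric = m.trV fun i l => (of fun j k => m.Riem i j k l : Matrix ι ι A) := by
    ext j k
    simp only [Ric, trV, of_apply, Matrix.sum_apply, Matrix.smul_apply, smul_eq_mul]
  rw [e, m.cov_trV m.isCn2]
  simp only [trV, Matrix.sum_apply, Matrix.smul_apply, smul_eq_mul]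
  refine Finset.sum_congr rfl fun i _ => Finset.sum_congr rfl fun l _ => congrArg _ ?_
  change m.c4 h _ i l j k = _
  simp only [A3_c4_apply, of_apply]
  ring

theorem A3_div2 (T : Matrix ι ι A) (k : ι) : m.div2 T k = ∑ i, ∑ j, m.γ i j * m.c2 i T j k := by
  simp only [div2, trV, Finset.sum_apply, Pi.smul_apply, smul_eq_mul]

/-- The contracted second Bianchi identity. -/
theorem div2_Ric : m.div2 m.Ric = (2 : A) • F.d0 m.s1 := by
  funext h
  have s : ∀ a b c, m.c2 a m.Ric b c = m.c2 a m.Ric c b :=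
    fun a b c => congrFun (congrFun (m.ST_c2 m.ST_Ric a).symm c) b
  have h1 : ∑ j, ∑ k, m.γ j k * ∑ i, ∑ l, m.γ i l * m.c4 h m.Riem i j k l =
      4 * F.X h m.s1 := by
    simp only [← A3_c2_Ric]
    rw [← tr_eq, ← X_tr, tr_Ric, F.X_mul, F.X_ofNat, zero_mul, zero_add]
  have h2 : ∑ j, ∑ k, m.γ j k * ∑ i, ∑ l, m.γ i l * m.c4 j m.Riem h i k l = -m.div2 m.Ric h := by
    rw [A3_div2, ← Finset.sum_neg_distrib]
    refine Finset.sum_congr rfl fun j _ => ?_
    rw [← Finset.sum_neg_distrib]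
    refine Finset.sum_congr rfl fun k _ => ?_
    rw [s, A3_c2_Ric, ← mul_neg, ← Finset.sum_neg_distrib]
    refine congrArg _ (Finset.sum_congr rfl fun i _ => ?_)
    rw [← Finset.sum_neg_distrib]
    exact Finset.sum_congr rfl fun l _ => by rw [A3_c4_anti, mul_neg]
  have h3 : ∑ j, ∑ k, m.γ j k * ∑ i, ∑ l, m.γ i l * m.c4 i m.Riem j h k l = -m.div2 m.Ric h := by
    rw [← h2]
    simp only [Finset.mul_sum]
    rw [Finset.sum_comm_cycle]
    refine Finset.sum_congr rfl fun i _ => ?_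
    rw [Finset.sum_comm_cycle]
    refine Finset.sum_congr rfl fun l _ => Finset.sum_congr rfl fun j _ =>
      Finset.sum_congr rfl fun k _ => ?_
    rw [m.A3_c4_anti i j h, m.A3_c4_anti' i h j k l, neg_neg, mul_left_comm]
  have h4 : ∑ j, ∑ k, m.γ j k * ∑ i, ∑ l, m.γ i l * (m.c4 h m.Riem i j k l +
      m.c4 i m.Riem j h k l + m.c4 j m.Riem h i k l) = 0 :=
    Finset.sum_eq_zero fun j _ => Finset.sum_eq_zero fun k _ => mul_eq_zero_of_right _
      (Finset.sum_eq_zero fun i _ => Finset.sum_eq_zero fun l _ => mul_eq_zero_of_right _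
        (congrFun (congrFun (m.bianchi2 h i j) k) l))
  simp only [mul_add, Finset.sum_add_distrib] at h4
  refine A3_two ?_
  change _ = 2 * (2 * F.X h m.s1)
  linear_combination h1 + h2 + h3 - h4
theorem div2_S : m.div2 m.S = F.d0 m.s1 := by
  rw [S, div2_sub, div2_smul_G, div2_Ric, two_smul, add_sub_cancel_right]
theorem bia_S : m.bia m.S = 0 := by
  rw [bia, div2_S, tr_S, sub_self]
theorem div2_d1T {ω : ι → A} (h : F.π *ᵥ ω = ω) :
    m.div2 (m.d1 ω)ᵀ = F.d0 (m.div1 ω) + m.Ric *ᵥ (m.γ *ᵥ ω) := by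
  funext k
  have e : ∀ i j, m.c2 i (m.d1 ω)ᵀ j k =
      m.c2 k (m.d1 ω) i j + ∑ l, m.Riem i k l j * (m.γ *ᵥ ω) l := fun i j => by
    rw [c2_transpose, transpose_apply, sub_eq_iff_eq_add'.1 (m.comm1 h i k j), mulVec,
      dotProduct, ← Finset.sum_neg_distrib]
    exact congrArg _ (Finset.sum_congr rfl fun l _ => by rw [m.Riem_anti' i k l j, neg_mul])
  rw [A3_div2, Pi.add_apply, Fr.d0, div1, X_tr, tr_eq, mulVec, dotProduct]
  simp only [e, mul_add, Finset.sum_add_distrib, Ric, of_apply, Finset.mul_sum, Finset.sum_mul,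
    mul_assoc]
  rw [add_right_inj]
  exact Finset.sum_comm_cycle
theorem lap1_d0 (a : A) : m.lap1 (F.d0 a) = F.d0 (m.lap a) + m.Ric *ᵥ (m.γ *ᵥ F.d0 a) := by
  rw [← div2_d1, ← div1_d0, ← m.div2_d1T (F.π_d0 a)]
  exact congrArg _ (m.ST_hess a).symm.symm
theorem bochner (a : A) : hf A * m.lap (m.gam a a) =
    m.ip2 (m.hess a) (m.hess a) + m.gam a (m.lap a) + m.quad m.Ric a a := by
  have h1 := m.lap_pair m.isPair1 (F.d0 a) (F.d0 a)
  have h2 : m.ipPi m.ip1 (fun i => m.c1 i (F.d0 a)) (fun i => m.c1 i (F.d0 a)) =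
      m.ip2 (m.hess a) (m.hess a) := (m.ip2_eq (m.hess a) (m.hess a)).symm
  have h3 : m.ip1 (m.lapV m.c1 (F.d0 a)) (F.d0 a) = m.gam a (m.lap a) + m.quad m.Ric a a := by
    rw [gam_comm, quad, dotProduct_comm, gam, ip1, ip1, ← add_dotProduct, ← lap1_d0]
    rfl
  rw [h2, m.ip1_comm (F.d0 a) (m.lapV m.c1 (F.d0 a)), h3] at h1
  rw [gam, h1]
  linear_combination (m.ip2 (m.hess a) (m.hess a) + m.gam a (m.lap a) + m.quad m.Ric a a) * two_hf (A := A)

end Met

end Pool.Agent.MP_9bd639_gt.H88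

end

-- part P1
section

/-! Components in an orthonormal basis at a point. -/

open Matrix

namespace Pool.Agent.MP_9bd639_gt.H88

set_option linter.unusedSectionVars false

variable {ι : Type} [Fintype ι] [DecidableEq ι] {A : Type} [CommRing A] [Algebra ℝ A]
  {F : Fr ι A} {m : Met F}

namespace Pt

variable (p : Pt m)

theorem P1_mul (T U : Matrix ι ι A) : (T * U).map p.ev = T.map p.ev * U.map p.ev :=
  Matrix.map_mul

theorem P1_mulVec (T : Matrix ι ι A) (ω : ι → A) :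
    (fun i => p.ev ((T *ᵥ ω) i)) = T.map p.ev *ᵥ fun i => p.ev (ω i) := by
  funext i
  simp [mulVec, dotProduct, map_sum]

theorem P1_trace (T : Matrix ι ι A) : p.ev T.trace = (T.map p.ev).trace := by
  simp [Matrix.trace, map_sum]

theorem P1_dot (ω η : ι → A) :
    p.ev (ω ⬝ᵥ η) = (fun i => p.ev (ω i)) ⬝ᵥ fun i => p.ev (η i) := by
  simp [dotProduct, map_sum]

theorem P1_Gt : (m.G.map p.ev)ᵀ = m.G.map p.ev := by
  rw [← transpose_map, m.G_symm]

theorem P1_πt : F.πᵀ = F.π := by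
  ext i j
  exact F.symm j i

theorem P1_π1 : F.π.map p.ev = p.eᵀ * (p.e * m.G.map p.ev) := by
  rw [← m.γG, P1_mul, p.γ_eq, Matrix.mul_assoc]

theorem P1_π2 : F.π.map p.ev = (p.e * m.G.map p.ev)ᵀ * p.e := by
  rw [← P1_πt, transpose_map, P1_π1, transpose_mul, transpose_transpose]

theorem P1_BB : (p.e * m.G.map p.ev)ᵀ * (p.e * m.G.map p.ev) = m.G.map p.ev := by
  rw [← Matrix.mul_assoc, ← P1_π2, ← P1_mul, m.πG]

theorem P1_Bsq (i : ι) : ∑ a, (p.e * m.G.map p.ev) a i ^ 2 = p.ev (m.G i i) := by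
  have h := congrFun (congrFun p.P1_BB i) i
  rw [Matrix.mul_apply] at h
  simp only [transpose_apply, map_apply] at h
  rw [← h]
  exact Finset.sum_congr rfl fun a _ => sq _

theorem ev_hf : p.ev (hf A) = 1 / 2 := by
  rw [hf, AlgHom.commutes]
  rfl
theorem h2_G : p.h2 m.G = 1 := p.on
theorem h2_add (T U : Matrix ι ι A) : p.h2 (T + U) = p.h2 T + p.h2 U := by
  have : (T + U).map p.ev = T.map p.ev + U.map p.ev := by
    ext i j
    simp
  rw [h2, this, Matrix.mul_add, Matrix.add_mul, h2, h2]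
theorem h2_sub (T U : Matrix ι ι A) : p.h2 (T - U) = p.h2 T - p.h2 U := by
  have : (T - U).map p.ev = T.map p.ev - U.map p.ev := by
    ext i j
    simp
  rw [h2, this, Matrix.mul_sub, Matrix.sub_mul, h2, h2]
theorem h2_smul (a : A) (T : Matrix ι ι A) : p.h2 (a • T) = p.ev a • p.h2 T := by
  have : (a • T).map p.ev = p.ev a • T.map p.ev := by
    ext i j
    simp
  rw [h2, this, Matrix.mul_smul, Matrix.smul_mul, h2]
theorem h2_rsmul (r : ℝ) (T : Matrix ι ι A) : p.h2 (r • T) = r • p.h2 T := by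
  have : (r • T).map p.ev = r • T.map p.ev := by
    ext i j
    simp
  rw [h2, this, Matrix.mul_smul, Matrix.smul_mul, h2]
theorem h2_transpose (T : Matrix ι ι A) : p.h2 Tᵀ = (p.h2 T)ᵀ := by
  rw [h2, h2, transpose_map, transpose_mul, transpose_mul, transpose_transpose, Matrix.mul_assoc]
theorem h2_mul (T U : Matrix ι ι A) : p.h2 (T * m.γ * U) = p.h2 T * p.h2 U := by
  simp only [h2, P1_mul, p.γ_eq, Matrix.mul_assoc]
theorem h2_vec (ω η : ι → A) : p.h2 (vecMulVec ω η) = vecMulVec (p.h1 ω) (p.h1 η) := by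
  have : (vecMulVec ω η).map p.ev = vecMulVec (fun i => p.ev (ω i)) fun i => p.ev (η i) := by
    ext i j
    simp [vecMulVec_apply]
  rw [h2, this, mul_vecMulVec, vecMulVec_mul, vecMul_transpose, h1, h1]
theorem h1_mulVec (T : Matrix ι ι A) (ω : ι → A) :
    p.h1 (T *ᵥ (m.γ *ᵥ ω)) = p.h2 T *ᵥ p.h1 ω := by
  simp only [h1, h2, P1_mulVec, P1_mul, p.γ_eq, mulVec_mulVec, Matrix.mul_assoc]
theorem h1_add (ω η : ι → A) : p.h1 (ω + η) = p.h1 ω + p.h1 η := by
  rw [h1, h1, h1, ← mulVec_add]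
  congr 1
  funext i
  simp
theorem h1_smul (a : A) (ω : ι → A) : p.h1 (a • ω) = p.ev a • p.h1 ω := by
  rw [h1, h1, ← mulVec_smul]
  congr 1
  funext i
  simp
theorem ev_tr (T : Matrix ι ι A) : p.ev (m.tr T) = (p.h2 T).trace := by
  rw [Met.tr, P1_trace, P1_mul, p.γ_eq, h2, Matrix.mul_assoc, trace_mul_comm]
theorem ev_ip1 (ω η : ι → A) : p.ev (m.ip1 ω η) = p.h1 ω ⬝ᵥ p.h1 η := by
  rw [Met.ip1, P1_dot, P1_mulVec, p.γ_eq, ← mulVec_mulVec, dotProduct_mulVec, vecMul_transpose,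
    h1, h1]
theorem ev_ip2 (T U : Matrix ι ι A) :
    p.ev (m.ip2 T U) = ∑ a, ∑ b, p.h2 T a b * p.h2 U a b := by
  have h : m.ip2 T U = m.tr (T * m.γ * Uᵀ) := by
    simp only [Met.ip2, Met.tr, Matrix.mul_assoc]
  rw [h, ev_tr, h2_mul, h2_transpose]
  simp only [Matrix.trace, diag_apply, Matrix.mul_apply, transpose_apply]

theorem P1_ipPi {V W κ : Type} [Fintype κ] (ip : V → W → A) (Θ : ι → V) (Ξ : ι → W)
    (u v : ι → κ → ℝ) (h : ∀ i j, p.ev (ip (Θ i) (Ξ j)) = ∑ k, u i k * v j k) :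
    p.ev (m.ipPi ip Θ Ξ) = ∑ a, ∑ k, (∑ i, p.e a i * u i k) * ∑ j, p.e a j * v j k := by
  have hγ : ∀ i j, p.ev (m.γ i j) = ∑ a, p.e a i * p.e a j := fun i j => by
    have := congrFun (congrFun p.γ_eq i) j
    simpa only [map_apply, Matrix.mul_apply, transpose_apply] using this
  simp only [Met.ipPi, map_sum, map_mul, h, hγ, Finset.sum_mul_sum]
  calc ∑ i, ∑ j, ∑ a, ∑ k, p.e a i * p.e a j * (u i k * v j k)
      = ∑ i, ∑ a, ∑ k, ∑ j, p.e a i * p.e a j * (u i k * v j k) := by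
        refine Finset.sum_congr rfl fun i _ => ?_
        rw [Finset.sum_comm]
        exact Finset.sum_congr rfl fun a _ => Finset.sum_comm
    _ = ∑ a, ∑ k, ∑ i, ∑ j, p.e a i * p.e a j * (u i k * v j k) := by
        rw [Finset.sum_comm]
        exact Finset.sum_congr rfl fun a _ => Finset.sum_comm
    _ = _ := by
        refine Finset.sum_congr rfl fun a _ => Finset.sum_congr rfl fun k _ =>
          Finset.sum_congr rfl fun i _ => Finset.sum_congr rfl fun j _ => ?_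
        ring

theorem P1_h3 (Θ : ι → Matrix ι ι A) (a b c : Fin 3) :
    p.h3 Θ a b c = ∑ i, p.e a i * p.h2 (Θ i) b c := by
  simp only [h3, Matrix.sum_apply, Matrix.smul_apply, smul_eq_mul]

theorem ev_ip3 (Θ Ξ : ι → Matrix ι ι A) :
    p.ev (m.ip3 Θ Ξ) = ∑ a, ∑ b, ∑ c, p.h3 Θ a b c * p.h3 Ξ a b c := by
  rw [Met.ip3, p.P1_ipPi m.ip2 Θ Ξ (fun i (k : Fin 3 × Fin 3) => p.h2 (Θ i) k.1 k.2)
    (fun i (k : Fin 3 × Fin 3) => p.h2 (Ξ i) k.1 k.2)
    fun i j => by rw [ev_ip2, Fintype.sum_prod_type]]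
  simp only [Fintype.sum_prod_type, P1_h3]
theorem ev_quad (T : Matrix ι ι A) (a b : A) :
    p.ev (m.quad T a b) = p.h1 (F.d0 a) ⬝ᵥ (p.h2 T *ᵥ p.h1 (F.d0 b)) := by
  have h : m.quad T a b = m.ip1 (F.d0 a) (T *ᵥ (m.γ *ᵥ F.d0 b)) := by
    rw [Met.quad, Met.ip1, dotProduct_mulVec (F.d0 a), ← vecMul_transpose m.γ, m.γ_symm]
  rw [h, ev_ip1, h1_mulVec]
theorem ev_p3 : p.ev m.p3 = (p.h2 m.S * p.h2 m.S * p.h2 m.S).trace := by
  have h : m.p3 = m.tr (m.S * m.γ * m.S * m.γ * m.S) := by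
    simp only [Met.p3, Met.tr, Matrix.mul_assoc]
  rw [h, ev_tr, h2_mul, h2_mul]
theorem ip1_nonneg (ω : ι → A) : 0 ≤ p.ev (m.ip1 ω ω) := by
  rw [ev_ip1]
  exact Finset.sum_nonneg fun a _ => mul_self_nonneg _
theorem ip2_nonneg (T : Matrix ι ι A) : 0 ≤ p.ev (m.ip2 T T) := by
  rw [ev_ip2]
  exact Finset.sum_nonneg fun a _ => Finset.sum_nonneg fun b _ => mul_self_nonneg _
theorem ip3_nonneg (Θ : ι → Matrix ι ι A) : 0 ≤ p.ev (m.ip3 Θ Θ) := by
  rw [ev_ip3]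
  exact Finset.sum_nonneg fun a _ => Finset.sum_nonneg fun b _ =>
    Finset.sum_nonneg fun c _ => mul_self_nonneg _
theorem ip4_nonneg (Θ : ι → ι → Matrix ι ι A) : 0 ≤ p.ev (m.ip4 Θ Θ) := by
  rw [Met.ip4, p.P1_ipPi m.ip3 Θ Θ
    (fun i (k : Fin 3 × Fin 3 × Fin 3) => p.h3 (Θ i) k.1 k.2.1 k.2.2)
    (fun i (k : Fin 3 × Fin 3 × Fin 3) => p.h3 (Θ i) k.1 k.2.1 k.2.2)
    fun i j => by simp only [ev_ip3, Fintype.sum_prod_type]]
  exact Finset.sum_nonneg fun a _ => Finset.sum_nonneg fun b _ => mul_self_nonneg _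

theorem P1_cs {κ : Type} [Fintype κ] (u v : κ → ℝ) :
    (∑ k, u k * v k) ^ 2 ≤ (∑ k, u k * u k) * ∑ k, v k * v k := by
  simpa only [sq] using Finset.sum_mul_sq_le_sq_mul_sq Finset.univ u v

theorem P1_cs2 {κ μ : Type} [Fintype κ] [Fintype μ] (u v : κ → μ → ℝ) :
    (∑ k, ∑ l, u k l * v k l) ^ 2 ≤ (∑ k, ∑ l, u k l * u k l) * ∑ k, ∑ l, v k l * v k l := by
  simpa only [Fintype.sum_prod_type] using
    P1_cs (fun k : κ × μ => u k.1 k.2) fun k : κ × μ => v k.1 k.2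

theorem P1_bil (x y : Fin 3 → ℝ) (M : Matrix (Fin 3) (Fin 3) ℝ) :
    (∑ a, ∑ b, x a * y b * M a b) ^ 2 ≤
      (∑ a, x a * x a) * (∑ a, y a * y a) * ∑ a, ∑ b, M a b * M a b := by
  refine (P1_cs2 (fun a b => x a * y b) fun a b => M a b).trans_eq ?_
  congr 1
  rw [Finset.sum_mul_sum]
  exact Finset.sum_congr rfl fun a _ => Finset.sum_congr rfl fun b _ => by ring

theorem ip1_sq_le (ω η : ι → A) :
    p.ev (m.ip1 ω η) ^ 2 ≤ p.ev (m.ip1 ω ω) * p.ev (m.ip1 η η) := by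
  simp only [ev_ip1]
  exact P1_cs _ _
theorem ip2_sq_le (T U : Matrix ι ι A) :
    p.ev (m.ip2 T U) ^ 2 ≤ p.ev (m.ip2 T T) * p.ev (m.ip2 U U) := by
  simp only [ev_ip2]
  exact P1_cs2 _ _
theorem quad_sq_le (T : Matrix ι ι A) (a b : A) :
    p.ev (m.quad T a b) ^ 2 ≤ p.ev (m.ip2 T T) * p.ev (m.gam a a) * p.ev (m.gam b b) := by
  simp only [ev_quad, ev_ip2, Met.gam, ev_ip1]
  have h := P1_bil (p.h1 (F.d0 a)) (p.h1 (F.d0 b)) (p.h2 T)
  have e : p.h1 (F.d0 a) ⬝ᵥ (p.h2 T *ᵥ p.h1 (F.d0 b)) =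
      ∑ c, ∑ d, p.h1 (F.d0 a) c * p.h1 (F.d0 b) d * p.h2 T c d := by
    simp only [dotProduct, mulVec, Finset.mul_sum]
    exact Finset.sum_congr rfl fun c _ => Finset.sum_congr rfl fun d _ => by ring
  rw [e]
  refine h.trans_eq ?_
  simp only [dotProduct]
  ring
/-- A tangent tensor is recovered from its components: `π = (G eᵀ) e` at the point. -/
theorem ev_eq_of_h2 {T : Matrix ι ι A} (h : F.π * T = T) (h' : T * F.π = T) : T.map p.ev =
    (p.e * m.G.map p.ev)ᵀ * p.h2 T * (p.e * m.G.map p.ev) := by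
  have e : T.map p.ev = F.π.map p.ev * T.map p.ev * F.π.map p.ev := by
    rw [← P1_mul, ← P1_mul, h, h']
  rw [e]
  conv_lhs => enter [1, 1]; rw [P1_π2]
  conv_lhs => enter [2]; rw [P1_π1]
  simp only [h2, Matrix.mul_assoc]
theorem ev_eq_of_h1 {ω : ι → A} (h : F.π *ᵥ ω = ω) :
    (fun i => p.ev (ω i)) = (p.e * m.G.map p.ev)ᵀ *ᵥ p.h1 ω := by
  rw [h1, mulVec_mulVec, ← P1_π2, ← P1_mulVec, h]
theorem entry1_sq_le {ω : ι → A} (h : F.π *ᵥ ω = ω) (i : ι) :
    p.ev (ω i) ^ 2 ≤ p.ev (m.G i i) * p.ev (m.ip1 ω ω) := by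
  rw [congrFun (p.ev_eq_of_h1 h) i, ← P1_Bsq, ev_ip1]
  simp only [sq (_ : ℝ)]
  simpa only [sq, mulVec, dotProduct, transpose_apply] using
    P1_cs (fun a => (p.e * m.G.map p.ev) a i) (p.h1 ω)

theorem P1_entry (B : Matrix (Fin 3) ι ℝ) (M : Matrix (Fin 3) (Fin 3) ℝ) (i j : ι) :
    (Bᵀ * M * B) i j = ∑ a, ∑ b, B a i * B b j * M a b := by
  simp only [Matrix.mul_apply, transpose_apply, Finset.sum_mul]
  rw [Finset.sum_comm]
  exact Finset.sum_congr rfl fun a _ => Finset.sum_congr rfl fun b _ => by ring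

theorem entry2_sq_le {T : Matrix ι ι A} (h : F.π * T = T) (h' : T * F.π = T) (i j : ι) :
    p.ev (T i j) ^ 2 ≤ p.ev (m.G i i) * p.ev (m.G j j) * p.ev (m.ip2 T T) := by
  have e := congrFun (congrFun (p.ev_eq_of_h2 h h') i) j
  rw [map_apply, P1_entry] at e
  rw [e, ← P1_Bsq, ← P1_Bsq, ev_ip2]
  simpa only [sq] using P1_bil (fun a => (p.e * m.G.map p.ev) a i)
    (fun a => (p.e * m.G.map p.ev) a j) (p.h2 T)
theorem entry3_sq_le {Θ : ι → Matrix ι ι A} (h : ∀ i, F.ST (Θ i))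
    (h' : ∀ i, Θ i = ∑ n, F.π i n • Θ n) (i j k : ι) : p.ev (Θ i j k) ^ 2 ≤
      p.ev (m.G i i) * p.ev (m.G j j) * p.ev (m.G k k) * p.ev (m.ip3 Θ Θ) := by
  have hr : Θ i * F.π = Θ i := by
    have := congrArg transpose (h i).tan
    rwa [transpose_mul, (h i).symm, P1_πt] at this
  have e := congrFun (congrFun (p.ev_eq_of_h2 (h i).tan hr) j) k
  rw [map_apply, P1_entry] at e
  rw [e, ← P1_Bsq, ← P1_Bsq, ← P1_Bsq, ev_ip3]
  have hπ : ∀ n, p.ev (F.π i n) = ∑ a, (p.e * m.G.map p.ev) a i * p.e a n := fun n => by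
    have := congrFun (congrFun p.P1_π2 i) n
    rwa [map_apply, Matrix.mul_apply] at this
  generalize p.e * m.G.map p.ev = B at hπ ⊢
  have h0 : p.h2 (∑ n, F.π i n • Θ n) = ∑ n, p.ev (F.π i n) • p.h2 (Θ n) := by
    induction (Finset.univ : Finset ι) using Finset.induction_on with
    | empty => simp [h2]
    | insert n s hn ih => rw [Finset.sum_insert hn, Finset.sum_insert hn, h2_add, h2_smul, ih]
  have hh : ∀ b c, p.h2 (Θ i) b c = ∑ a, B a i * p.h3 Θ a b c := fun b c => by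
    rw [h' i, h0]
    simp only [Matrix.sum_apply, Matrix.smul_apply, smul_eq_mul, hπ, P1_h3, Finset.sum_mul,
      Finset.mul_sum]
    rw [Finset.sum_comm]
    exact Finset.sum_congr rfl fun a _ => Finset.sum_congr rfl fun n _ => by ring
  have hb : ∑ b, ∑ c, p.h2 (Θ i) b c * p.h2 (Θ i) b c ≤
      (∑ a, B a i ^ 2) * ∑ a, ∑ b, ∑ c, p.h3 Θ a b c * p.h3 Θ a b c := by
    rw [Finset.sum_comm (f := fun a b => ∑ c, p.h3 Θ a b c * p.h3 Θ a b c), Finset.mul_sum]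
    refine Finset.sum_le_sum fun b _ => ?_
    rw [Finset.sum_comm, Finset.mul_sum]
    refine Finset.sum_le_sum fun c _ => ?_
    rw [hh]
    simpa only [sq] using P1_cs (fun a => B a i) fun a => p.h3 Θ a b c
  refine (P1_bil (fun a => B a j) (fun a => B a k) (p.h2 (Θ i))).trans ?_
  have h1 : 0 ≤ (∑ a, B a j * B a j) * ∑ a, B a k * B a k :=
    mul_nonneg (Finset.sum_nonneg fun a _ => mul_self_nonneg _)
      (Finset.sum_nonneg fun a _ => mul_self_nonneg _)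
  refine (mul_le_mul_of_nonneg_left hb h1).trans_eq ?_
  simp only [sq]
  ring
/-- For every covector there is a function with this differential that vanishes at the point. -/
theorem exists_fun (ξ : Fin 3 → ℝ) : ∃ a : A, p.ev a = 0 ∧ p.h1 (F.d0 a) = ξ := by
  refine ⟨∑ j, ((p.e * m.G.map p.ev)ᵀ *ᵥ ξ) j • (F.f j - algebraMap ℝ A (p.ev (F.f j))), ?_, ?_⟩
  · simp [map_sum]
  · have hon : p.e * (p.e * m.G.map p.ev)ᵀ = 1 := by
      rw [transpose_mul, P1_Gt, ← Matrix.mul_assoc, p.on]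
    have e : (fun i => p.ev (F.d0 (∑ j, ((p.e * m.G.map p.ev)ᵀ *ᵥ ξ) j •
        (F.f j - algebraMap ℝ A (p.ev (F.f j)))) i)) =
        F.π.map p.ev *ᵥ ((p.e * m.G.map p.ev)ᵀ *ᵥ ξ) := by
      generalize (p.e * m.G.map p.ev)ᵀ *ᵥ ξ = c
      funext i
      simp [Fr.d0, map_sum, mulVec, dotProduct, Fr.π, mul_comm]
    rw [h1, e, P1_π2, mulVec_mulVec, mulVec_mulVec, ← Matrix.mul_assoc, hon, Matrix.one_mul, hon,
      one_mulVec]

end Pt

end Pool.Agent.MP_9bd639_gt.H88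

end

-- part P2
section

/-! Dimension three: the Weyl tensor vanishes; eigenvalues of the Schouten tensor. -/

open Matrix

namespace Pool.Agent.MP_9bd639_gt.H88

set_option linter.unusedSectionVars false

variable {ι : Type} [Fintype ι] [DecidableEq ι] {A : Type} [CommRing A] [Algebra ℝ A]
  {F : Fr ι A} {m : Met F}

theorem P2_hA (c x : ι → ℝ) (y : ℝ) : ∑ l, c l * (x l * y) = (∑ l, c l * x l) * y := by
  rw [Finset.sum_mul]
  exact Finset.sum_congr rfl fun _ _ => by ring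

theorem P2_hB (c x : ι → ℝ) (y : ℝ) : ∑ l, c l * (y * x l) = y * ∑ l, c l * x l := by
  rw [Finset.mul_sum]
  exact Finset.sum_congr rfl fun _ _ => by ring

theorem P2_hS (c c' : ι → ℝ) (X : ι → ι → ℝ) :
    ∑ j, c j * ∑ i, c' i * X i j = ∑ i, c' i * ∑ j, c j * X i j := by
  simp only [Finset.mul_sum]
  rw [Finset.sum_comm]
  exact Finset.sum_congr rfl fun _ _ => Finset.sum_congr rfl fun _ _ => by ring

theorem P2_hT (c : ι → ℝ) (X : Fin 3 → ι → ℝ) :
    ∑ j, c j * ∑ a, X a j = ∑ a, ∑ j, c j * X a j := by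
  simp only [Finset.mul_sum]
  rw [Finset.sum_comm]

theorem P2_alg (r : Fin 3 → Fin 3 → Fin 3 → Fin 3 → ℝ) (h1 : ∀ a b c d, r a b c d = -r b a c d)
    (h2 : ∀ a b c d, r a b c d = -r a b d c) (s g : Matrix (Fin 3) (Fin 3) ℝ) (t : ℝ) (hg : g = 1)
    (hs : ∀ a b, s a b = ∑ x, r x a b x - t * g a b) (ht : 4 * t = ∑ y, ∑ x, r x y y x)
    (a b c d : Fin 3) :
    r a b c d = s a d * g b c + g a d * s b c - s a c * g b d - g a c * s b d := by
  have e1 : ∀ a c d, r a a c d = 0 := fun a c d => by linarith [h1 a a c d]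
  have e2 : ∀ a b c, r a b c c = 0 := fun a b c => by linarith [h2 a b c c]
  have e3 : ∀ c d, r 1 0 c d = -r 0 1 c d := fun c d => h1 _ _ _ _
  have e4 : ∀ c d, r 2 0 c d = -r 0 2 c d := fun c d => h1 _ _ _ _
  have e5 : ∀ c d, r 2 1 c d = -r 1 2 c d := fun c d => h1 _ _ _ _
  have e6 : ∀ a b, r a b 1 0 = -r a b 0 1 := fun a b => h2 _ _ _ _
  have e7 : ∀ a b, r a b 2 0 = -r a b 0 2 := fun a b => h2 _ _ _ _
  have e8 : ∀ a b, r a b 2 1 = -r a b 1 2 := fun a b => h2 _ _ _ _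
  have ht' : t = -(r 0 1 0 1 + r 0 2 0 2 + r 1 2 1 2) / 2 := by
    simp only [Fin.sum_univ_three, e1, e3, e4, e5, e6, e7, e8] at ht
    linarith
  subst hg
  simp only [hs, Fin.sum_univ_three, ht']
  fin_cases a <;> fin_cases b <;> fin_cases c <;> fin_cases d <;>
    simp [e1, e2, e3, e4, e5, e6, e7, e8] <;> ring

theorem P2_spec {M : Matrix (Fin 3) (Fin 3) ℝ} (h : Mᵀ = M) :
    ∃ (U : Matrix (Fin 3) (Fin 3) ℝ) (d : Fin 3 → ℝ),
      M = U * diagonal d * Uᵀ ∧ Uᵀ * U = 1 ∧ U * Uᵀ = 1 := by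
  have hM : M.IsHermitian := by
    rw [IsHermitian, conjTranspose_eq_transpose_of_trivial, h]
  have h1 := hM.spectral_theorem
  rw [Unitary.conjStarAlgAut_apply] at h1
  refine ⟨hM.eigenvectorUnitary, hM.eigenvalues, ?_, ?_, ?_⟩
  · simpa [star_eq_conjTranspose] using h1
  · simpa [star_eq_conjTranspose] using Unitary.coe_star_mul_self hM.eigenvectorUnitary
  · simpa [star_eq_conjTranspose] using Unitary.coe_mul_star_self hM.eigenvectorUnitary

theorem P2_eig {M : Matrix (Fin 3) (Fin 3) ℝ} (h : Mᵀ = M) : ∃ x y z : ℝ, M.trace = x + y + z ∧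
    (M * M).trace = x ^ 2 + y ^ 2 + z ^ 2 ∧ (M * M * M).trace = x ^ 3 + y ^ 3 + z ^ 3 ∧
    ∀ r : ℝ, r ≤ x → r ≤ y → r ≤ z → ∀ v : Fin 3 → ℝ, r * (v ⬝ᵥ v) ≤ v ⬝ᵥ (M *ᵥ v) := by
  obtain ⟨U, d, h1, h2, h3⟩ := P2_spec h
  have k : ∀ D D' : Matrix (Fin 3) (Fin 3) ℝ, U * D * Uᵀ * (U * D' * Uᵀ) = U * (D * D') * Uᵀ := by
    intro D D'
    calc U * D * Uᵀ * (U * D' * Uᵀ) = U * D * (Uᵀ * U) * D' * Uᵀ := by simp only [mul_assoc]
      _ = U * (D * D') * Uᵀ := by rw [h2]; simp only [mul_assoc, one_mul]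
  have t : ∀ D : Matrix (Fin 3) (Fin 3) ℝ, (U * D * Uᵀ).trace = D.trace := fun D => by
    rw [trace_mul_comm, ← mul_assoc, h2, one_mul]
  have q : ∀ (D : Matrix (Fin 3) (Fin 3) ℝ) (v : Fin 3 → ℝ),
      v ⬝ᵥ ((U * D * Uᵀ) *ᵥ v) = (Uᵀ *ᵥ v) ⬝ᵥ (D *ᵥ (Uᵀ *ᵥ v)) := fun D v => by
    rw [← mulVec_mulVec, ← mulVec_mulVec, dotProduct_mulVec, ← mulVec_transpose]
  refine ⟨d 0, d 1, d 2, ?_, ?_, ?_, fun r h4 h5 h6 v => ?_⟩
  · rw [h1, t, trace_diagonal, Fin.sum_univ_three]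
  · rw [h1, k, t, diagonal_mul_diagonal, trace_diagonal, Fin.sum_univ_three]
    ring
  · rw [h1, k, k, t, diagonal_mul_diagonal, diagonal_mul_diagonal, trace_diagonal,
      Fin.sum_univ_three]
    ring
  · have q1 := q 1 v
    rw [mul_one, h3, one_mulVec, one_mulVec] at q1
    rw [h1, q, q1]
    generalize Uᵀ *ᵥ v = w
    simp only [dotProduct, Fin.sum_univ_three, mulVec_diagonal]
    nlinarith [mul_nonneg (sub_nonneg.2 h4) (mul_self_nonneg (w 0)),
      mul_nonneg (sub_nonneg.2 h5) (mul_self_nonneg (w 1)),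
      mul_nonneg (sub_nonneg.2 h6) (mul_self_nonneg (w 2))]

theorem P2_H (m : Met F) {q : A} (hq : m.s2 = m.s1 * q) :
    m.ip3 (fun i => m.s1 • m.c2 i m.S - F.X i m.s1 • m.S)
      (fun i => m.s1 • m.c2 i m.S - F.X i m.s1 • m.S) =
      m.s1 ^ 2 * (m.gS - m.gam m.s1 m.s1 + 2 * m.gam q m.s1) := by
  have hp : m.p2 = m.s1 * m.s1 - (m.s1 * q + m.s1 * q) := by
    rw [Met.s2] at hq
    linear_combination (-2) * hq + (m.s1 ^ 2 - m.p2) * (two_hf (A := A))
  have hX : ∀ i, F.X i m.p2 = 2 * m.ip2 (m.c2 i m.S) m.S := fun i => by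
    rw [Met.p2, m.isPair2.leib, m.ip2_comm m.S]
    ring
  have h1 : m.gam m.p2 m.s1 = ∑ i, ∑ j, m.γ i j * (2 * m.ip2 (m.c2 i m.S) m.S * F.X j m.s1) := by
    simp only [Met.gam, m.ip1_eq, Fr.d0, hX]
  have h2 : m.gam m.s1 m.p2 = ∑ i, ∑ j, m.γ i j * (F.X i m.s1 * (2 * m.ip2 (m.c2 j m.S) m.S)) := by
    simp only [Met.gam, m.ip1_eq, Fr.d0, hX]
  have h3 : m.gam m.s1 m.s1 = ∑ i, ∑ j, m.γ i j * (F.X i m.s1 * F.X j m.s1) := by
    simp only [Met.gam, m.ip1_eq, Fr.d0]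
  have h4 : m.gS = ∑ i, ∑ j, m.γ i j * m.ip2 (m.c2 i m.S) (m.c2 j m.S) := rfl
  have h5 : ∀ (a b : A) (T U : Matrix ι ι A), m.ip2 (m.s1 • T - a • m.S) (m.s1 • U - b • m.S) =
      m.s1 ^ 2 * m.ip2 T U - m.s1 * (m.ip2 T m.S * b) - m.s1 * (a * m.ip2 U m.S) +
        a * b * m.p2 := fun a b T U => by
    rw [m.ip2_sub, m.ip2_smul, m.ip2_smul, m.ip2_comm T, m.ip2_comm m.S, m.ip2_sub, m.ip2_sub,
      m.ip2_smul, m.ip2_smul, m.ip2_smul, m.ip2_smul, m.ip2_comm U T, m.ip2_comm m.S T, Met.p2]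
    ring
  have h6 : m.ip3 (fun i => m.s1 • m.c2 i m.S - F.X i m.s1 • m.S)
      (fun i => m.s1 • m.c2 i m.S - F.X i m.s1 • m.S) = m.s1 ^ 2 * m.gS -
        hf A * m.s1 * m.gam m.p2 m.s1 - hf A * m.s1 * m.gam m.s1 m.p2 +
          m.p2 * m.gam m.s1 m.s1 := by
    rw [h1, h2, h3, h4, Met.ip3, Met.ipPi]
    simp only [h5, Finset.mul_sum, ← Finset.sum_sub_distrib, ← Finset.sum_add_distrib]
    refine Finset.sum_congr rfl fun i _ => Finset.sum_congr rfl fun j _ => ?_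
    linear_combination (m.γ i j * m.s1 * (m.ip2 (m.c2 i m.S) m.S * F.X j m.s1 +
      F.X i m.s1 * m.ip2 (m.c2 j m.S) m.S)) * (two_hf (A := A))
  have h7 : m.gam m.p2 m.s1 = 2 * m.s1 * m.gam m.s1 m.s1 -
      2 * (m.s1 * m.gam q m.s1 + q * m.gam m.s1 m.s1) := by
    rw [hp, m.gam_sub, m.gam_add, m.gam_mul, m.gam_mul]
    ring
  rw [h6, m.gam_comm m.s1 m.p2, h7]
  linear_combination (m.gam m.s1 m.s1) * hp - (m.s1 * (2 * m.s1 * m.gam m.s1 m.s1 -
      2 * (m.s1 * m.gam q m.s1 + q * m.gam m.s1 m.s1))) * (two_hf (A := A))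

namespace Pt

variable (p : Pt m)

/-- A tangent covector at the point. -/
def P2_Tan (v : ι → ℝ) : Prop := ∀ i, v i = ∑ n, p.ev (F.π i n) * v n

theorem P2_sum {T : ι → ι → ℝ} (c : ι → ℝ) (h : ∀ j, p.P2_Tan fun i => T i j) :
    p.P2_Tan fun i => ∑ j, c j * T i j := fun i => by
  rw [← P2_hS]
  exact Finset.sum_congr rfl fun j _ => by rw [← h j i]

theorem P2_zero {v : ι → ℝ} (h : p.P2_Tan v) (h0 : ∀ a, ∑ i, p.e a i * v i = 0) (i : ι) :
    v i = 0 := by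
  have h1 : F.π.map p.ev = m.G.map p.ev * p.eᵀ * p.e := by
    rw [← m.Gγ, Matrix.map_mul, p.γ_eq, Matrix.mul_assoc]
  have h2 : p.e *ᵥ v = 0 := funext h0
  have h3 : v i = (F.π.map p.ev *ᵥ v) i := h i
  rw [h3, h1, ← mulVec_mulVec, h2, mulVec_zero, Pi.zero_apply]

theorem P2_zero4 {D : ι → ι → ι → ι → ℝ} (h1 : ∀ j k l, p.P2_Tan fun i => D i j k l)
    (h2 : ∀ i k l, p.P2_Tan fun j => D i j k l) (h3 : ∀ i j l, p.P2_Tan fun k => D i j k l)
    (h4 : ∀ i j k, p.P2_Tan fun l => D i j k l)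
    (h0 : ∀ a b c d, ∑ i, p.e a i * ∑ j, p.e b j * ∑ k, p.e c k * ∑ l, p.e d l * D i j k l = 0)
    (i j k l : ι) : D i j k l = 0 :=
  p.P2_zero (h4 i j k) (fun d => p.P2_zero (p.P2_sum _ fun l => h3 i j l) (fun c =>
    p.P2_zero (p.P2_sum _ fun k => p.P2_sum _ fun l => h2 i k l) (fun b =>
      p.P2_zero (p.P2_sum _ fun j => p.P2_sum _ fun k => p.P2_sum _ fun l => h1 j k l)
        (fun a => h0 a b c d) i) j) k) l

theorem P2_tan_of {ω : ι → A} (h : ∀ i, ω i = ∑ n, F.π i n * ω n) :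
    p.P2_Tan fun i => p.ev (ω i) := fun i =>
  (congrArg p.ev (h i)).trans
    ((map_sum _ _ _).trans (Finset.sum_congr rfl fun _ _ => map_mul _ _ _))

theorem P2_h2 (T : Matrix ι ι A) (a b : Fin 3) :
    p.h2 T a b = ∑ i, p.e a i * ∑ j, p.e b j * p.ev (T i j) := by
  rw [← P2_hS]
  simp only [h2, mul_apply, transpose_apply, map_apply]
  exact Finset.sum_congr rfl fun _ _ => mul_comm _ _

theorem P2_trace (M : ι → ι → ℝ) :
    ∑ i, ∑ l, p.ev (m.γ i l) * M i l = ∑ a, ∑ i, p.e a i * ∑ l, p.e a l * M i l := by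
  have h : ∀ i l, p.ev (m.γ i l) = ∑ a, p.e a i * p.e a l := fun i l =>
    congrFun (congrFun p.γ_eq i) l
  simp only [h, Finset.sum_mul, Finset.mul_sum]
  rw [Finset.sum_comm_cycle]
  exact Finset.sum_congr rfl fun _ _ => Finset.sum_congr rfl fun _ _ =>
    Finset.sum_congr rfl fun _ _ => by ring

/-- The components of the curvature tensor. -/
noncomputable def P2_r (a b c d : Fin 3) : ℝ :=
  ∑ i, p.e a i * ∑ j, p.e b j * ∑ k, p.e c k * ∑ l, p.e d l * p.ev (m.Riem i j k l)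

theorem P2_r1 (a b c d : Fin 3) : p.P2_r a b c d = -p.P2_r b a c d := by
  rw [P2_r, P2_r, P2_hS]
  simp only [← Finset.sum_neg_distrib, ← mul_neg, ← map_neg, ← m.Riem_anti]

theorem P2_r2 (a b c d : Fin 3) : p.P2_r a b c d = -p.P2_r a b d c := by
  rw [P2_r, P2_r]
  simp only [← Finset.sum_neg_distrib, ← mul_neg, ← map_neg, ← m.Riem_anti']
  exact Finset.sum_congr rfl fun i _ => congrArg _ <| Finset.sum_congr rfl fun j _ =>
    congrArg _ (P2_hS _ _ _)

theorem P2_ric (b c : Fin 3) : p.h2 m.Ric b c = ∑ x, p.P2_r x b c x := by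
  rw [P2_h2]
  simp only [Met.Ric, of_apply, map_sum, map_mul, P2_trace, P2_hT, P2_r]
  refine Finset.sum_congr rfl fun a _ => ?_
  exact (Finset.sum_congr rfl fun j _ => congrArg _ (P2_hS _ _ _)).trans (P2_hS _ _ _)

/-- Both sides are tangent in all four indices; compare the components
`r a b c d = ∑ e a i * e b j * e c k * e d l * Riem i j k l` on `Fin 3`, where the symmetries
`Riem_anti`, `Riem_anti'`, `Riem_pair` leave six unknowns. -/
theorem KN (i j k l : ι) : p.ev (m.Riem i j k l) = p.ev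
    (m.S i l * m.G j k + m.S j k * m.G i l - m.S i k * m.G j l - m.S j l * m.G i k) := by
  have c1 : ∀ {T : Matrix ι ι A}, F.π * T = T → ∀ i l, T i l = ∑ n, F.π i n * T n l :=
    fun h i l => (congrFun (congrFun h i) l).symm
  have c2 : ∀ {T : Matrix ι ι A}, T * F.π = T → ∀ i l, T i l = ∑ n, F.π l n * T i n :=
    fun {T} h i l => (congrFun (congrFun h i) l).symm.trans
      (Finset.sum_congr rfl fun n _ => (mul_comm _ _).trans (congrArg (· * T i n) (F.symm n l)))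
  have c3 : ∀ i j k l, m.Riem i j k l = ∑ n, F.π i n * m.Riem n j k l := fun i j k l => by
    rw [m.Riem_tan i j, Matrix.sum_apply]
    rfl
  have c4 : ∀ i j k l, m.Riem i j k l = ∑ n, F.π j n * m.Riem i n k l := fun i j k l => by
    rw [m.Riem_anti, c3, ← Finset.sum_neg_distrib]
    exact Finset.sum_congr rfl fun n _ => by rw [m.Riem_anti i n, mul_neg]
  have c5 : ∀ (u v w z t : ι → A) (a b c d : A) (i : ι), u i = ∑ n, F.π i n * u n →
      v i = ∑ n, F.π i n * v n → w i = ∑ n, F.π i n * w n → z i = ∑ n, F.π i n * z n →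
      t i = ∑ n, F.π i n * t n → u i - (v i * a + w i * b - z i * c - t i * d) =
        ∑ n, F.π i n * (u n - (v n * a + w n * b - z n * c - t n * d)) := by
    intro u v w z t a b c d i h1 h2 h3 h4 h5
    simp only [mul_sub, mul_add, ← mul_assoc, Finset.sum_sub_distrib, Finset.sum_add_distrib,
      ← Finset.sum_mul, ← h1, ← h2, ← h3, ← h4, ← h5]
  have s1 := c1 m.ST_S.tan
  have s2 := c2 m.ST_S.tan'
  have g1 := c1 m.πG
  have g2 := c2 m.Gπ
  rw [← sub_eq_zero, ← map_sub]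
  refine p.P2_zero4 (D := fun i j k l => p.ev (m.Riem i j k l -
    (m.S i l * m.G j k + m.S j k * m.G i l - m.S i k * m.G j l - m.S j l * m.G i k)))
    (fun j k l => p.P2_tan_of fun i => ?_) (fun i k l => p.P2_tan_of fun j => ?_)
    (fun i j l => p.P2_tan_of fun k => ?_) (fun i j k => p.P2_tan_of fun l => ?_)
    (fun a b c d => ?_) i j k l
  · simpa only [mul_comm] using c5 (fun i => m.Riem i j k l) (fun i => m.S i l) (fun i => m.G i l)
      (fun i => m.S i k) (fun i => m.G i k) (m.G j k) (m.S j k) (m.G j l) (m.S j l) i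
      (c3 i j k l) (s1 i l) (g1 i l) (s1 i k) (g1 i k)
  · simpa only [mul_comm] using c5 (fun j => m.Riem i j k l) (fun j => m.G j k) (fun j => m.S j k)
      (fun j => m.G j l) (fun j => m.S j l) (m.S i l) (m.G i l) (m.S i k) (m.G i k) j
      (c4 i j k l) (g1 j k) (s1 j k) (g1 j l) (s1 j l)
  · simpa only [mul_comm] using c5 (fun k => m.Riem i j k l) (fun k => m.G j k) (fun k => m.S j k)
      (fun k => m.S i k) (fun k => m.G i k) (m.S i l) (m.G i l) (m.G j l) (m.S j l) k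
      (c1 (m.Riem_π i j).1 k l) (g2 j k) (s2 j k) (s2 i k) (g2 i k)
  · simpa only [mul_comm] using c5 (fun l => m.Riem i j k l) (fun l => m.S i l) (fun l => m.G i l)
      (fun l => m.G j l) (fun l => m.S j l) (m.G j k) (m.S j k) (m.S i k) (m.G i k) l
      (c2 (m.Riem_π i j).2 k l) (s2 i l) (g2 i l) (g2 j l) (s2 j l)
  · have h := P2_alg p.P2_r p.P2_r1 p.P2_r2 (p.h2 m.S) (p.h2 m.G) (p.ev m.s1) p.h2_G
      (fun a b => by rw [Met.S, p.h2_sub, p.h2_smul, ← p.P2_ric]; rfl) (by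
        have := p.ev_tr m.Ric
        rw [m.tr_Ric, map_mul, map_ofNat] at this
        rw [this]
        exact Finset.sum_congr rfl fun y _ => p.P2_ric y y) a b c d
    simp only [P2_h2, P2_r] at h
    simp only [map_sub, map_add, map_mul, mul_sub, mul_add, Finset.sum_sub_distrib,
      Finset.sum_add_distrib, P2_hA, P2_hB]
    linarith

/-- The spectral theorem for the symmetric matrix `h2 S`. -/
theorem eig : ∃ x y z : ℝ, p.ev m.s1 = x + y + z ∧ p.ev m.s2 = x * y + x * z + y * z ∧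
    p.ev m.s3 = x * y * z ∧ p.ev m.p2 = x ^ 2 + y ^ 2 + z ^ 2 ∧ p.ev m.p3 = x ^ 3 + y ^ 3 + z ^ 3 ∧
    ∀ r : ℝ, r ≤ x → r ≤ y → r ≤ z → ∀ a, r * p.ev (m.gam a a) ≤ p.ev (m.quad m.S a a) := by
  have hs : (p.h2 m.S)ᵀ = p.h2 m.S := by rw [← p.h2_transpose, m.ST_S.symm]
  obtain ⟨x, y, z, h1, h2, h3, h4⟩ := P2_eig hs
  have e1 : p.ev m.s1 = x + y + z := by rw [← m.tr_S, p.ev_tr, h1]
  have e2 : p.ev m.p2 = x ^ 2 + y ^ 2 + z ^ 2 := by
    rw [Met.p2, p.ev_ip2, ← h2]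
    refine Finset.sum_congr rfl fun a _ => ?_
    rw [diag_apply, mul_apply]
    refine Finset.sum_congr rfl fun b _ => ?_
    rw [show p.h2 m.S b a = p.h2 m.S a b from congrFun (congrFun hs a) b]
  have e3 : p.ev m.p3 = x ^ 3 + y ^ 3 + z ^ 3 := by rw [p.ev_p3, h3]
  refine ⟨x, y, z, e1, ?_, ?_, e2, e3, fun r k1 k2 k3 a => ?_⟩
  · rw [Met.s2, map_mul, map_sub, map_pow, p.ev_hf, e1, e2]
    ring
  · simp only [Met.s3, map_smul, map_add, map_sub, map_mul, map_pow, map_ofNat, e1, e2, e3,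
      smul_eq_mul]
    ring
  · rw [Met.gam, p.ev_ip1, p.ev_quad]
    exact h4 r k1 k2 k3 _

theorem ip2_tl_S : p.ev (m.ip2 (m.tl m.S) (m.tl m.S)) = 2 / 3 * p.ev m.s1 ^ 2 - 2 * p.ev m.s2 := by
  simp only [m.ip2_tl, m.tr_S, Met.s2, Met.p2, map_sub, map_smul, map_mul, map_pow, p.ev_hf,
    smul_eq_mul]
  ring

/-- The squared norm of `s1 • ∇ S - d s1 ⊗ S` is nonnegative; `s2 = s1 * q`. -/
theorem H_nonneg {q : A} (hq : m.s2 = m.s1 * q) (h0 : p.ev m.s1 ≠ 0) :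
    0 ≤ p.ev (m.gS - m.gam m.s1 m.s1 + 2 * m.gam q m.s1) := by
  have h := p.ip3_nonneg fun i => m.s1 • m.c2 i m.S - F.X i m.s1 • m.S
  rw [P2_H m hq, map_mul, map_pow] at h
  exact nonneg_of_mul_nonneg_right h (by positivity)

end Pt

end Pool.Agent.MP_9bd639_gt.H88

end

-- part Var
section

/-! Time derivatives of the connection and of the curvature; the evolution equations under the
Ricci flow. -/

open Matrix

namespace Pool.Agent.MP_9bd639_gt.H88

set_option linter.unusedSectionVars false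

variable {ι : Type} [Fintype ι] [DecidableEq ι] {A : Type} [CommRing A] [Algebra ℝ A]
  {F : Fr ι A}

namespace Met

variable (m : Met F)

theorem Var_c3 (i : ι) (Θ : ι → Matrix ι ι A) (j k p : ι) : m.c3 i Θ j k p =
    F.X i (Θ j k p) - ∑ l, m.Γ i j l * Θ l k p - ∑ l, m.Γ i k l * Θ j l p -
      ∑ l, m.Γ i p l * Θ j k l := by
  simp only [c3, covPi, c2, Fr.cM, Matrix.sub_apply, Matrix.sum_apply, Matrix.smul_apply,
    smul_eq_mul, Matrix.mul_apply, transpose_apply, Fr.XM_apply, mul_comm (Θ j k _)]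
  ring

theorem Var_c3_kos (i : ι) (Θ : ι → Matrix ι ι A) (j k p : ι) : m.c3 i (kos Θ) j k p =
    hf A * (m.c3 i Θ j k p + m.c3 i Θ k j p - m.c3 i Θ p j k) := by
  simp only [Var_c3, kos, of_apply, F.X_mul, F.X_hf, map_add, map_sub,
    mul_left_comm _ (hf A), ← Finset.mul_sum]
  simp only [mul_add, mul_sub, Finset.sum_add_distrib, Finset.sum_sub_distrib]
  ring

theorem Var_c3_symm {Θ : ι → Matrix ι ι A} (h : ∀ n, (Θ n)ᵀ = Θ n) (i j k p : ι) :
    m.c3 i Θ j k p = m.c3 i Θ j p k := by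
  have e : ∀ n a b, Θ n a b = Θ n b a := fun n a b => congrFun (congrFun (h n) b) a
  simp only [Var_c3, e _ p k, e j p, e j _ k]
  ring

theorem Var_c2_γ (i : ι) (T : Matrix ι ι A) :
    m.c2 i T * m.γ = F.XM i (T * m.γ) - m.Γ i * (T * m.γ) + T * m.γ * m.Γ i := by
  rw [c2, Fr.cM, F.XM_mul, m.XM_γ]
  noncomm_ring

theorem Var_tr_sum {κ : Type} (s : Finset κ) (T : κ → Matrix ι ι A) :
    m.tr (∑ n ∈ s, T n) = ∑ n ∈ s, m.tr (T n) := by
  simp only [tr, Matrix.mul_sum, trace_sum]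

theorem Var_tr_neg (T : Matrix ι ι A) : m.tr (-T) = -m.tr T := by
  simp only [tr, Matrix.mul_neg, trace_neg]

theorem Var_ip2_add (T U V : Matrix ι ι A) : m.ip2 T (U + V) = m.ip2 T U + m.ip2 T V := by
  rw [ip2_comm, ip2_add, ip2_comm m U, ip2_comm m V]

theorem Var_ip2_smul (a : A) (T U : Matrix ι ι A) : m.ip2 T (a • U) = a * m.ip2 T U := by
  rw [ip2_comm, ip2_smul, ip2_comm]

theorem Var_tr_mul (T : Matrix ι ι A) {U : Matrix ι ι A} (h : Uᵀ = U) :
    m.tr (T * m.γ * U) = m.ip2 T U := by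
  simp only [tr, ip2, h, Matrix.mul_assoc]

theorem Var_Ric (j k : ι) : m.Ric j k = ∑ i, (m.R i j * F.π) k i := by
  simp only [Ric, of_apply, ← Riem_γ, Matrix.mul_apply (M := m.Riem _ _)]
  refine Finset.sum_congr rfl fun i _ => Finset.sum_congr rfl fun l _ => ?_
  rw [m.γ_apply_symm, mul_comm]

theorem Var_tr_dd (T : Matrix ι ι A) (j k : ι) :
    m.tr (m.d3 (m.d2 T) j k) = m.hess (m.tr T) j k := by
  simp only [d3, c3, covPi, d2, hess_apply, X_tr, tr_sub, Var_tr_sum, tr_smul]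

theorem Var_lap2 (T : Matrix ι ι A) (j k : ι) :
    m.lap2 T j k = ∑ i, ∑ p, m.γ i p * m.d3 (m.d2 T) i p j k := by
  simp only [lap2, lapV, trV, Matrix.sum_apply, Matrix.smul_apply, smul_eq_mul]
  rfl

theorem Var_d1_div2 (T : Matrix ι ι A) (j k : ι) :
    m.d1 (m.div2 T) j k = ∑ i, ∑ p, m.γ i p * m.d3 (m.d2 T) j i p k := by
  rw [d1, of_apply, div2, m.cov_trV m.isCn1]
  simp only [trV, Finset.sum_apply, Pi.smul_apply, smul_eq_mul]
  refine Finset.sum_congr rfl fun i _ => Finset.sum_congr rfl fun p _ => ?_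
  rw [d3, c3, covPi, covPi, Matrix.sub_apply, d2, m.c2_eq]
  simp only [Pi.sub_apply, Finset.sum_apply, Pi.smul_apply, Matrix.sum_apply, Matrix.smul_apply]
  rfl

theorem KN.Var_contr {m : Met F} (h : m.KN) (M : Matrix ι ι A) (j k : ι) :
    ∑ i, ∑ q, m.Riem i j k q * M q i =
      ((m.S * M).trace • m.G + (m.G * M).trace • m.S - m.G * M * m.S - m.S * M * m.G) j k := by
  have e : ∀ T U : Matrix ι ι A, (T * M * U) j k = ∑ i, ∑ q, U i k * T j q * M q i := by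
    intro T U
    simp only [Matrix.mul_apply, Finset.sum_mul]
    exact Finset.sum_congr rfl fun i _ => Finset.sum_congr rfl fun q _ => by ring
  simp only [h _ j k, Matrix.sub_apply, Matrix.add_apply, Matrix.smul_apply, smul_eq_mul, e]
  simp only [trace, diag_apply, Matrix.mul_apply, Finset.sum_mul, ← Finset.sum_add_distrib,
    ← Finset.sum_sub_distrib]
  exact Finset.sum_congr rfl fun i _ => Finset.sum_congr rfl fun q _ => by ring

/-- The trace of the Ricci identity for a symmetric two-tensor. -/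
theorem KN.Var_comm {m : Met F} (h : m.KN) {T : Matrix ι ι A} (hT : F.ST T) (j k : ι) :
    ∑ i, ∑ p, m.γ i p * m.d3 (m.d2 T) i j k p = (m.d1 (m.div2 T) +
      ((2 : A) • (m.S * m.γ * T) + T * m.γ * m.S + m.s1 • T - m.ip2 m.S T • m.G -
        m.tr T • m.S)) j k := by
  have hs : ∀ n, (m.d2 T n)ᵀ = m.d2 T n := fun n => (m.ST_c2 hT n).symm
  have e1 : ∀ i p, m.d3 (m.d2 T) i j k p = m.d3 (m.d2 T) j i p k -
      (m.Riem i j * m.γ * T) k p + (T * m.γ * m.Riem i j) k p := fun i p => by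
    have := congrFun (congrFun (m.comm2 hT.tan (Fr.ST.tan' F hT) i j) k) p
    simp only [Matrix.sub_apply, Matrix.neg_apply] at this
    rw [show m.d3 (m.d2 T) j i p k = m.d3 (m.d2 T) j i k p from m.Var_c3_symm hs j i p k]
    linear_combination this
  have e2 : ∑ i, ∑ p, m.γ i p * (m.Riem i j * m.γ * T) k p =
      ∑ i, ∑ q, m.Riem i j k q * (m.γ * T * m.γ) q i := by
    refine Finset.sum_congr rfl fun i _ => ?_
    rw [← Matrix.mul_apply, ← Matrix.mul_assoc, ← Matrix.mul_assoc, Matrix.mul_apply (N := m.γ)]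
    exact Finset.sum_congr rfl fun p _ => by rw [m.γ_apply_symm, mul_comm]
  have e3 : ∑ i, ∑ p, m.γ i p * (T * m.γ * m.Riem i j) k p = (m.Ric * m.γ * T) j k := by
    have : (m.Ric * m.γ * T) j k = ∑ q, (T * m.γ) k q * m.Ric j q := by
      rw [Matrix.mul_assoc, Matrix.mul_apply]
      refine Finset.sum_congr rfl fun q _ => ?_
      rw [mul_comm, ← transpose_apply (m.γ * T), transpose_mul, hT.symm, m.γ_symm]
    rw [this]
    simp only [Matrix.mul_apply (M := T * m.γ), Ric, of_apply, Finset.mul_sum]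
    rw [Finset.sum_comm (f := fun q i => ∑ p, (T * m.γ) k q * (m.γ i p * m.Riem i j q p))]
    refine Finset.sum_congr rfl fun i _ => ?_
    rw [Finset.sum_comm]
    exact Finset.sum_congr rfl fun q _ => Finset.sum_congr rfl fun p _ => by ring
  have e4 : (m.S * (m.γ * T * m.γ)).trace = m.ip2 m.S T := by
    rw [ip2, hT.symm, ← Matrix.mul_assoc, trace_mul_comm]
    simp only [Matrix.mul_assoc]
  have e5 : m.G * (m.γ * T * m.γ) = T * m.γ := by
    rw [← Matrix.mul_assoc, ← Matrix.mul_assoc, m.Gγ, hT.tan]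
  have e6 : m.S * (m.γ * T * m.γ) * m.G = m.S * m.γ * T := by
    simp only [Matrix.mul_assoc, m.γG, Fr.ST.tan' F hT]
  have e7 : m.Ric * m.γ * T = m.S * m.γ * T + m.s1 • T := by
    rw [m.Ric_eq, Matrix.add_mul, Matrix.add_mul, smul_mul_assoc, smul_mul_assoc, m.Gγ, hT.tan]
  simp only [e1, mul_add, mul_sub, Finset.sum_add_distrib, Finset.sum_sub_distrib]
  rw [e2, e3, h.Var_contr, ← Var_d1_div2, e4, e5, e6, e7, trace_mul_comm]
  simp only [Matrix.sub_apply, Matrix.add_apply, Matrix.smul_apply, smul_eq_mul, tr]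
  ring

end Met

namespace Dt

variable (d : Dt F)

theorem M_apply (T : Matrix ι ι A) (i j : ι) : d.M T i j = d.D (T i j) := rfl
theorem D_mul (a b : A) : d.D (a * b) = d.D a * b + a * d.D b := by
  rw [Derivation.leibniz, smul_eq_mul, smul_eq_mul]; ring
theorem D_hf : d.D (hf A) = 0 := d.D.map_algebraMap _
theorem D_ofNat (n : ℕ) [n.AtLeastTwo] : d.D (OfNat.ofNat n : A) = 0 := by
  rw [← map_ofNat (algebraMap ℝ A) n]; exact d.D.map_algebraMap _
theorem M_add (T U : Matrix ι ι A) : d.M (T + U) = d.M T + d.M U := by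
  ext i j; simp only [M_apply, Matrix.add_apply, map_add]
theorem M_sub (T U : Matrix ι ι A) : d.M (T - U) = d.M T - d.M U := by
  ext i j; simp only [M_apply, Matrix.sub_apply, map_sub]
theorem M_neg (T : Matrix ι ι A) : d.M (-T) = -d.M T := by
  ext i j; simp only [M_apply, Matrix.neg_apply, map_neg]
theorem M_zero : d.M (0 : Matrix ι ι A) = 0 := by
  ext i j; simp only [M_apply, Matrix.zero_apply, map_zero]
theorem M_one : d.M (1 : Matrix ι ι A) = 0 := by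
  ext i j
  by_cases h : i = j <;> simp [M_apply, h]
theorem M_mul (T U : Matrix ι ι A) : d.M (T * U) = d.M T * U + T * d.M U := by
  ext i j
  simp only [M_apply, Matrix.add_apply, Matrix.mul_apply, map_sum, D_mul, Finset.sum_add_distrib]
theorem M_smul (a : A) (T : Matrix ι ι A) : d.M (a • T) = d.D a • T + a • d.M T := by
  ext i j; simp only [M_apply, Matrix.add_apply, Matrix.smul_apply, smul_eq_mul, D_mul]
theorem M_rsmul (r : ℝ) (T : Matrix ι ι A) : d.M (r • T) = r • d.M T := by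
  ext i j; simp only [M_apply, Matrix.smul_apply, Derivation.map_smul]
theorem M_transpose (T : Matrix ι ι A) : d.M Tᵀ = (d.M T)ᵀ := rfl
theorem M_sum {κ : Type} (s : Finset κ) (T : κ → Matrix ι ι A) :
    d.M (∑ n ∈ s, T n) = ∑ n ∈ s, d.M (T n) := by
  ext i j; simp only [M_apply, Matrix.sum_apply, map_sum]
theorem D_trace (T : Matrix ι ι A) : d.D T.trace = (d.M T).trace := by
  simp only [trace, diag_apply, map_sum, M_apply]
theorem M_π : d.M F.π = 0 := by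
  ext i j; rw [M_apply, F.π_apply, d.comm, d.Df, map_zero, Matrix.zero_apply]
theorem M_XM (i : ι) (T : Matrix ι ι A) : d.M (F.XM i T) = F.XM i (d.M T) := by
  ext j k; exact d.comm i _
theorem M_Γ0 (i : ι) : d.M (F.Γ0 i) = 0 := by
  simp only [Fr.Γ0, M_sub, M_mul, M_XM, M_π, F.XM_zero, Matrix.mul_zero, Matrix.zero_mul,
    add_zero, sub_zero]
theorem D_Xw (w : List ι) (a : A) : d.D (F.Xw w a) = F.Xw w (d.D a) := by
  induction w generalizing a with
  | nil => rfl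
  | cons i w ih => rw [Fr.Xw, ih, d.comm, Fr.Xw]
theorem M_cM0 (i : ι) (T : Matrix ι ι A) : d.M (F.cM F.Γ0 i T) = F.cM F.Γ0 i (d.M T) := by
  simp only [Fr.cM, M_sub, M_mul, M_XM, M_transpose, M_Γ0, transpose_zero, Matrix.mul_zero,
    Matrix.zero_mul, add_zero, zero_add]
theorem M_kos (Θ : ι → Matrix ι ι A) (i : ι) :
    d.M (Met.kos Θ i) = Met.kos (fun n => d.M (Θ n)) i := by
  ext j k
  simp only [M_apply, Met.kos, of_apply, D_mul, D_hf, map_add, map_sub, zero_mul, zero_add]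
theorem ST_M {T : Matrix ι ι A} (h : F.ST T) : F.ST (d.M T) :=
  ⟨by rw [← M_transpose, h.symm], by
    have := d.M_mul F.π T
    rw [h.tan, M_π, Matrix.zero_mul, zero_add] at this
    exact this.symm⟩
theorem M_sym (U : Matrix ι ι A) : d.M (F.sym U) = F.sym (d.M U) := by
  simp only [Fr.sym, M_smul, M_mul, M_add, M_transpose, M_π, D_hf, zero_smul, zero_add,
    Matrix.mul_zero, Matrix.zero_mul, add_zero]

variable (m : Met F)

theorem ST_k : F.ST (d.M m.G) := d.ST_M m.ST_G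

theorem M_γ : d.M m.γ = -(m.γ * d.M m.G * m.γ) := by
  have h1 := d.M_mul m.γ m.G
  have h2 := d.M_mul m.γ F.π
  rw [m.γG, M_π] at h1
  rw [m.γπ, M_π, Matrix.mul_zero, add_zero, ← m.Gγ, ← Matrix.mul_assoc] at h2
  rw [h2, eq_neg_iff_add_eq_zero, ← Matrix.add_mul, ← h1, Matrix.zero_mul]

theorem D_det : d.D m.ext.det = m.ext.det * m.tr (d.M m.G) := by
  rw [der_det d.D m.ext_inv]
  congr 1
  have : m.ext.map d.D = d.M m.G := by
    change d.M m.ext = _
    rw [Met.ext, M_sub, M_add, M_one, M_π, add_zero, sub_zero]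
  rw [this, Matrix.sub_mul, Matrix.add_mul, Matrix.one_mul, (d.ST_k m).tan, add_sub_cancel_right,
    Met.tr]

theorem M_Γ (i : ι) : d.M (m.Γ i) = m.adot (d.M m.G) i := by
  have hk := d.ST_k m
  set k := d.M m.G with hk'
  set a := Met.kos fun n => F.cM F.Γ0 n m.G with ha
  have hs : ∀ i j n, a i j n = a j i n := Met.kos_symm fun n => (m.ST_cM0 n).symm
  have e1 : ∀ n, m.d2 k n = F.cM F.Γ0 n k - (a n * m.γ * k + (a n * m.γ * k)ᵀ) := fun n => by
    rw [Met.d2, Met.c2, Fr.cM, Fr.cM, Met.Γ, ← ha, transpose_add, transpose_mul _ k, hk.symm]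
    noncomm_ring
  have e2 : ∀ i j n, (a i * m.γ * k) j n = (a j * m.γ * k) i n := fun i j n => by
    simp only [Matrix.mul_apply, hs i j]
  have e3 : Met.kos (m.d2 k) i = Met.kos (fun n => F.cM F.Γ0 n k) i - a i * m.γ * k := by
    ext j n
    simp only [Met.kos, of_apply, e1, Matrix.sub_apply, Matrix.add_apply, transpose_apply]
    rw [e2 j i n, e2 n i j, e2 n j i]
    linear_combination (-(a i * m.γ * k) j n) * two_hf (A := A)
  rw [Met.Γ, M_add, M_Γ0, zero_add, M_mul, M_kos, M_γ, Met.adot, e3]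
  simp only [M_cM0, ← hk', ← ha]
  noncomm_ring

theorem adot_symm (k : Matrix ι ι A) (hk : kᵀ = k) (i j l : ι) :
    m.adot k i j l = m.adot k j i l := by
  have : ∀ n, (m.d2 k n)ᵀ = m.d2 k n := fun n => by rw [Met.d2, ← m.c2_transpose, hk]
  simp only [Met.adot, Matrix.mul_apply, Met.kos_symm this i j]

theorem D_tr (T : Matrix ι ι A) : d.D (m.tr T) = m.tr (d.M T) - m.ip2 T (d.M m.G) := by
  rw [Met.tr, D_trace, M_mul, M_γ, trace_add, Met.tr, Met.ip2, (d.ST_k m).symm, Matrix.neg_mul,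
    trace_neg, Matrix.mul_assoc (m.γ * d.M m.G), trace_mul_comm (m.γ * d.M m.G)]
  simp only [Matrix.mul_assoc]
  ring

theorem D_ip1 (ω η : ι → A) : d.D (m.ip1 ω η) = m.ip1 (fun i => d.D (ω i)) η +
    m.ip1 ω (fun i => d.D (η i)) - (m.γ *ᵥ ω) ⬝ᵥ (d.M m.G *ᵥ (m.γ *ᵥ η)) := by
  have e : (m.γ *ᵥ ω) ⬝ᵥ (d.M m.G *ᵥ (m.γ *ᵥ η)) = -(ω ⬝ᵥ (d.M m.γ *ᵥ η)) := by
    rw [M_γ, neg_mulVec, dotProduct_neg, neg_neg, ← mulVec_mulVec, ← mulVec_mulVec,
      dotProduct_mulVec ω m.γ, ← mulVec_transpose, m.γ_symm]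
  rw [e]
  simp only [Met.ip1, dotProduct, mulVec, map_sum, D_mul, M_apply, mul_add, Finset.mul_sum,
    Finset.sum_add_distrib]
  ring

theorem D_gam (a b : A) : d.D (m.gam a b) =
    m.gam (d.D a) b + m.gam a (d.D b) - m.quad (d.M m.G) a b := by
  rw [Met.gam, D_ip1]
  simp only [Fr.d0, d.comm]
  rfl

theorem D_ip2 (T U : Matrix ι ι A) : d.D (m.ip2 T U) = m.ip2 (d.M T) U + m.ip2 T (d.M U) -
    m.ip2 (d.M m.G * m.γ * T + T * m.γ * d.M m.G) U := by
  rw [m.ip2_add]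
  simp only [Met.ip2, D_trace, M_mul, M_γ, M_transpose, Matrix.mul_add, trace_add,
    Matrix.neg_mul, Matrix.mul_neg, trace_neg, Matrix.mul_assoc]
  ring

theorem D_c1 (i : ι) (ω : ι → A) : (fun j => d.D (m.c1 i ω j)) =
    m.c1 i (fun j => d.D (ω j)) - m.adot (d.M m.G) i *ᵥ ω := by
  ext j
  simp only [Met.c1, covPi, map_sub, map_sum, smul_eq_mul, D_mul, d.comm, ← M_Γ, M_apply,
    Pi.sub_apply, mulVec, dotProduct, Finset.sum_add_distrib]
  ring

theorem M_c2 (i : ι) (T : Matrix ι ι A) : d.M (m.c2 i T) = m.c2 i (d.M T) -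
    (m.adot (d.M m.G) i * T + T * (m.adot (d.M m.G) i)ᵀ) := by
  simp only [Met.c2, Fr.cM, M_sub, M_mul, M_XM, M_transpose, M_Γ]
  abel

theorem M_hess (a : A) : d.M (m.hess a) =
    m.hess (d.D a) - of fun i j => (m.adot (d.M m.G) i *ᵥ F.d0 a) j := by
  ext i j
  have := congrFun (d.D_c1 m i (F.d0 a)) j
  simp only [Fr.d0, d.comm] at this
  exact this

theorem D_lap (a : A) : d.D (m.lap a) = m.lap (d.D a) - m.ip2 (d.M m.G) (m.hess a) -
    m.ip1 (m.div2 (d.M m.G) - hf A • F.d0 (m.tr (d.M m.G))) (F.d0 a) := by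
  have e : ∀ n, (m.div2 (d.M m.G) - hf A • F.d0 (m.tr (d.M m.G))) n =
      ∑ i, ∑ j, m.γ i j * Met.kos (m.d2 (d.M m.G)) i j n := fun n => by
    have e1 : ∑ i, ∑ j, m.γ i j * m.c2 j (d.M m.G) i n =
        ∑ i, ∑ j, m.γ i j * m.c2 i (d.M m.G) j n := by
      rw [Finset.sum_comm]
      exact Finset.sum_congr rfl fun i _ => Finset.sum_congr rfl fun j _ => by
        rw [m.γ_apply_symm]
    simp only [Met.kos, of_apply, mul_left_comm _ (hf A), ← Finset.mul_sum, Met.d2]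
    simp only [mul_add, mul_sub, Finset.sum_add_distrib, Finset.sum_sub_distrib, e1, Met.div2,
      Met.trV, Pi.sub_apply, Pi.smul_apply, Finset.sum_apply, smul_eq_mul, Fr.d0, m.X_tr]
    rw [m.tr_eq]
    linear_combination (-∑ i, ∑ j, m.γ i j * m.c2 i (d.M m.G) j n) * two_hf (A := A)
  rw [Met.lap, D_tr, M_hess, m.tr_sub, m.ip2_comm, Met.lap, sub_right_comm]
  congr 1
  rw [m.tr_eq, Met.ip1, dotProduct]
  simp only [e, of_apply, Met.adot, ← mulVec_mulVec, Finset.sum_mul]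
  generalize m.γ *ᵥ F.d0 a = v
  simp only [mulVec, dotProduct, Finset.mul_sum]
  rw [Finset.sum_comm (f := fun n i => ∑ j, m.γ i j * Met.kos (m.d2 (d.M m.G)) i j n * v n)]
  refine Finset.sum_congr rfl fun i _ => ?_
  rw [Finset.sum_comm]
  exact Finset.sum_congr rfl fun n _ => Finset.sum_congr rfl fun j _ => by ring

theorem M_R (i j : ι) : d.M (m.R i j) =
    (m.c3 i (Met.kos (m.d2 (d.M m.G))) j - m.c3 j (Met.kos (m.d2 (d.M m.G))) i) * m.γ := by
  have e : ∀ l, d.D (m.Γ i j l - m.Γ j i l) = 0 := fun l => by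
    rw [map_sub, ← M_apply, ← M_apply, M_Γ, M_Γ, adot_symm m _ (d.ST_k m).symm, sub_self]
  simp only [Met.R, M_sub, M_add, M_mul, M_XM, M_sum, M_smul, e, M_Γ, zero_smul, zero_add]
  simp only [Met.c3, covPi, Matrix.sub_mul, m.Var_c2_γ, Matrix.sum_mul, smul_mul_assoc, Met.adot,
    sub_smul, Finset.sum_sub_distrib]
  abel

/-- The variation of the Ricci tensor before the derivatives are commuted. -/
theorem D_Ric (j k : ι) : 2 * d.D (m.Ric j k) =
    ∑ i, ∑ p, m.γ i p * m.d3 (m.d2 (d.M m.G)) i j k p +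
      ∑ i, ∑ p, m.γ i p * m.d3 (m.d2 (d.M m.G)) i k j p - m.lap2 (d.M m.G) j k -
        m.hess (m.tr (d.M m.G)) j k := by
  have hs : ∀ n, (m.d2 (d.M m.G) n)ᵀ = m.d2 (d.M m.G) n :=
    fun n => (m.ST_c2 (d.ST_k m) n).symm
  have e1 : ∀ i, d.D ((m.R i j * F.π) k i) = ∑ p, m.γ i p *
      (m.c3 i (Met.kos (m.d2 (d.M m.G))) j k p - m.c3 j (Met.kos (m.d2 (d.M m.G))) i k p) :=
    fun i => by
    rw [← M_apply, M_mul, M_π, Matrix.mul_zero, add_zero, M_R, Matrix.mul_assoc, m.γπ,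
      Matrix.mul_apply]
    exact Finset.sum_congr rfl fun p _ => by rw [m.γ_apply_symm, mul_comm, Matrix.sub_apply]
  have e2 : ∑ i, ∑ p, m.γ i p * m.c3 j (m.d2 (d.M m.G)) p i k =
      ∑ i, ∑ p, m.γ i p * m.c3 j (m.d2 (d.M m.G)) i k p := by
    rw [Finset.sum_comm]
    exact Finset.sum_congr rfl fun i _ => Finset.sum_congr rfl fun p _ => by
      rw [m.γ_apply_symm, m.Var_c3_symm hs]
  rw [m.Var_Ric, map_sum, m.Var_lap2, ← m.Var_tr_dd, m.tr_eq]
  simp only [e1, m.Var_c3_kos, ← mul_sub, mul_left_comm _ (hf A), ← Finset.mul_sum]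
  rw [← mul_assoc, mul_comm (hf A), two_hf, one_mul]
  simp only [Met.d3, mul_add, mul_sub, Finset.sum_add_distrib, Finset.sum_sub_distrib, e2]
  ring

theorem M_Ric (h : m.KN) : (2 : A) • d.M m.Ric =
    m.d1 (m.div2 (d.M m.G)) + (m.d1 (m.div2 (d.M m.G)))ᵀ - m.lap2 (d.M m.G) -
      m.hess (m.tr (d.M m.G)) +
      ((3 : A) • (m.S * m.γ * d.M m.G + d.M m.G * m.γ * m.S) + (2 * m.s1) • d.M m.G -
        (2 * m.ip2 m.S (d.M m.G)) • m.G - (2 * m.tr (d.M m.G)) • m.S) := by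
  have hk := d.ST_k m
  have e : ∀ T U : Matrix ι ι A, Tᵀ = T → Uᵀ = U → ∀ j k,
      (T * m.γ * U) k j = (U * m.γ * T) j k := fun T U hT hU j k => by
    rw [← transpose_apply (T * m.γ * U), transpose_mul, transpose_mul, hT, hU, m.γ_symm,
      Matrix.mul_assoc]
  ext j k
  rw [Matrix.smul_apply, smul_eq_mul, M_apply, D_Ric, h.Var_comm hk, h.Var_comm hk]
  simp only [Matrix.sub_apply, Matrix.add_apply, Matrix.smul_apply, smul_eq_mul, transpose_apply]
  rw [e _ _ m.ST_S.symm hk.symm j k, e _ _ hk.symm m.ST_S.symm j k, m.G_apply_symm k j,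
    show m.S k j = m.S j k from congrFun (congrFun m.ST_S.symm j) k,
    show d.M m.G k j = d.M m.G j k from congrFun (congrFun hk.symm j) k]
  ring

theorem D_s1 (h : m.KN) : 4 * d.D m.s1 = m.div1 (m.div2 (d.M m.G)) - m.lap (m.tr (d.M m.G)) -
    m.ip2 m.S (d.M m.G) - m.s1 * m.tr (d.M m.G) := by
  have hk := d.ST_k m
  have h1 := congrArg m.tr (d.M_Ric m h)
  have h2 := d.D_tr m m.Ric
  rw [m.tr_Ric, D_mul, D_ofNat, zero_mul, zero_add, m.Ric_eq, m.ip2_add, m.ip2_smul,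
    m.ip2_comm m.G, m.ip2_G, ← m.Ric_eq] at h2
  simp only [m.tr_add, m.tr_sub, m.tr_smul, m.tr_transpose, m.tr_lap2, m.tr_G, m.tr_S,
    m.Var_tr_mul _ hk.symm, m.Var_tr_mul _ m.ST_S.symm, m.ip2_comm (d.M m.G)] at h1
  rw [h2, Met.div1, Met.lap]
  rw [Met.lap] at h1
  linear_combination hf A * h1 - (m.tr (d.M m.Ric) - m.tr (m.d1 (m.div2 (d.M m.G))) +
    m.tr (m.hess (m.tr (d.M m.G)))) * two_hf (A := A)

/-- The variation formula for the Schouten tensor. -/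
theorem M_S (hK : m.KN) : d.M m.S = m.varS (d.M m.G) := by
  have h1 := d.M_Ric m hK
  have h2 := d.D_s1 m hK
  ext j k
  have h3 := congrFun (congrFun h1 j) k
  rw [Met.S, M_sub, M_smul]
  simp only [Met.varS, Met.alg, Matrix.sub_apply, Matrix.add_apply, Matrix.smul_apply,
    smul_eq_mul] at h3 ⊢
  linear_combination hf A * h3 - hf A * hf A * m.G j k * h2 +
    (-d.M m.Ric j k + (2 * hf A + 1) * d.D m.s1 * m.G j k + m.s1 * d.M m.G j k +
      2 * hf A * m.ip2 m.S (d.M m.G) * m.G j k) * two_hf (A := A)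

end Dt

namespace Met

variable (m : Met F)

theorem Var_d0_ofNat (n : ℕ) [n.AtLeastTwo] : F.d0 (OfNat.ofNat n : A) = 0 :=
  funext fun i => F.X_ofNat i n

theorem Var_vec0 (ω : ι → A) : vecMulVec (0 : ι → A) ω = 0 := by
  ext i j; simp only [vecMulVec_apply, Pi.zero_apply, zero_mul, Matrix.zero_apply]

theorem Var_d1_const (n : ℕ) [n.AtLeastTwo] (ω : ι → A) :
    m.d1 ((OfNat.ofNat n : A) • ω) = (OfNat.ofNat n : A) • m.d1 ω := by
  rw [d1_smul, Var_d0_ofNat, Var_vec0, zero_add]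

theorem Var_d1_neg (ω : ι → A) : m.d1 (-ω) = -m.d1 ω := by
  ext i j; exact congrFun (m.isCn1.neg i ω) j

theorem Var_d0_const (n : ℕ) [n.AtLeastTwo] (a : A) :
    F.d0 (OfNat.ofNat n * a) = (OfNat.ofNat n : A) • F.d0 a := by
  ext i; simp only [Fr.d0, F.X_mul, F.X_ofNat, zero_mul, zero_add, Pi.smul_apply, smul_eq_mul]

theorem Var_hess_const (n : ℕ) [n.AtLeastTwo] (a : A) :
    m.hess (OfNat.ofNat n * a) = (OfNat.ofNat n : A) • m.hess a := by
  rw [hess, Var_d0_const, Var_d1_const, hess]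

theorem Var_hess_neg (a : A) : m.hess (-a) = -m.hess a := by
  rw [hess, hess, ← Var_d1_neg]
  congr 1
  exact funext fun i => map_neg (F.X i) a

theorem alg_kf {T : Matrix ι ι A} (_h : F.ST T) : hf A • m.alg (m.kf T) =
    (-3 : A) • (m.S * m.γ * T + T * m.γ * m.S) + (2 * m.tr T) • m.S +
      (hf A * (3 * m.ip2 m.S T - m.s1 * m.tr T)) • m.G := by
  have e1 : m.S * m.γ * m.G = m.S := by rw [Matrix.mul_assoc, m.γG, Fr.ST.tan' F m.ST_S]
  have e2 : m.G * m.γ * m.S = m.S := by rw [m.Gγ, m.ST_S.tan]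
  rw [alg, tr_kf, kf, Var_ip2_smul, Var_ip2_add, Var_ip2_smul, ip2_G, tr_S]
  simp only [Matrix.mul_smul, smul_mul_assoc, Matrix.mul_add, Matrix.add_mul, e1, e2]
  ext i j
  simp only [Matrix.sub_apply, Matrix.add_apply, Matrix.smul_apply, smul_eq_mul]
  linear_combination (-3 * ((m.S * m.γ * T) i j + (T * m.γ * m.S) i j) + 2 * m.tr T * m.S i j +
    hf A * (3 * m.ip2 m.S T - m.s1 * m.tr T) * m.G i j) * two_hf (A := A)

theorem varS_kf {T : Matrix ι ι A} (_h : F.ST T) : m.varS (m.kf T) =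
    m.lap2 T - (m.d1 (m.bia T) + (m.d1 (m.bia T))ᵀ) + (hf A * m.div1 (m.bia T)) • m.G +
      hf A • m.alg (m.kf T) := by
  have e1 : m.div2 (m.kf T) = -((2 : A) • (m.bia T + (2 : A) • F.d0 (m.tr T))) := by
    have : F.d0 (-2 : A) = 0 := funext fun i => by
      rw [Fr.d0, map_neg, F.X_ofNat, neg_zero, Pi.zero_apply]
    rw [kf, div2_smul, this, mulVec_zero, mulVec_zero, add_zero, div2_add, div2_smul_G, bia]
    ext i
    simp only [Pi.add_apply, Pi.sub_apply, Pi.neg_apply, Pi.smul_apply, smul_eq_mul]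
    ring
  have e2 : m.d1 (m.div2 (m.kf T)) =
      -((2 : A) • (m.d1 (m.bia T) + (2 : A) • m.hess (m.tr T))) := by
    rw [e1, Var_d1_neg, Var_d1_const, d1_add, Var_d1_const, hess]
  have e3 : m.lap2 (m.kf T) = (-2 : A) • (m.lap2 T + m.lap (m.tr T) • m.G) := by
    have := m.lap2_const (-2) (T + m.tr T • m.G)
    rw [lap2_add, lap2_smul_G] at this
    rw [kf]
    exact_mod_cast this
  have e4 : m.hess (m.tr (m.kf T)) = -((8 : A) • m.hess (m.tr T)) := by
    rw [tr_kf, neg_mul, Var_hess_neg, Var_hess_const]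
  have e5 : ∀ i j, m.hess (m.tr T) j i = m.hess (m.tr T) i j :=
    fun i j => congrFun (congrFun (m.ST_hess _).symm i) j
  rw [varS, div1, lap, e2, e3, e4, Var_tr_neg, Var_tr_neg, tr_smul, tr_smul, tr_add, tr_smul,
    ← div1, ← lap]
  ext i j
  simp only [Matrix.sub_apply, Matrix.add_apply, Matrix.neg_apply, Matrix.smul_apply, smul_eq_mul,
    transpose_apply, e5 i j]
  linear_combination (m.lap2 T i j - m.d1 (m.bia T) i j - m.d1 (m.bia T) j i +
    hf A * m.div1 (m.bia T) * m.G i j - 2 * hf A * m.lap (m.tr T) * m.G i j) * two_hf (A := A)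

theorem varS_kf_S : m.varS (m.kf m.S) = m.lap2 m.S + m.Qf m.S := by
  have e : m.d1 0 = 0 := by ext i j; exact congrFun (m.isCn1.zero i) j
  rw [varS_kf m m.ST_S, alg_kf m m.ST_S, bia_S, div1, e, Qf, tr_S]
  ext i j
  simp only [Matrix.sub_apply, Matrix.add_apply, Matrix.smul_apply, smul_eq_mul, transpose_apply,
    Matrix.zero_apply, tr, Matrix.mul_zero, trace_zero]
  ring

theorem varS_conf (ψ : A) : m.varS ((2 * ψ) • m.G) = -m.hess ψ := by
  have e1 : m.S * m.γ * m.G = m.S := by rw [Matrix.mul_assoc, m.γG, Fr.ST.tan' F m.ST_S]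
  have e2 : m.G * m.γ * m.S = m.S := by rw [m.Gγ, m.ST_S.tan]
  have e3 : m.tr ((2 * ψ) • m.G) = 6 * ψ := by rw [tr_smul, tr_G]; ring
  have e5 : ∀ i j, m.hess ψ j i = m.hess ψ i j :=
    fun i j => congrFun (congrFun (m.ST_hess _).symm i) j
  rw [varS, alg, div2_smul_G, div1_d0, lap2_smul_G, ← hess, e3, Var_ip2_smul, ip2_G, tr_S]
  simp only [lap, m.Var_hess_const 2, m.Var_hess_const 6, tr_smul, Matrix.mul_smul,
    smul_mul_assoc, e1, e2]
  ext i j
  simp only [Matrix.sub_apply, Matrix.add_apply, Matrix.neg_apply, Matrix.smul_apply, smul_eq_mul,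
    transpose_apply, e5 i j]
  linear_combination (-m.hess ψ i j + 2 * hf A * m.tr (m.hess ψ) * m.G i j) * two_hf (A := A)

end Met

end Pool.Agent.MP_9bd639_gt.H88

end

-- part Evo
section

/-! Evolution equations of the Ricci flow; the Cotton identity. -/

open Matrix

namespace Pool.Agent.MP_9bd639_gt.H88

set_option linter.unusedSectionVars false

variable {ι : Type} [Fintype ι] [DecidableEq ι] {A : Type} [CommRing A] [Algebra ℝ A]
  {F : Fr ι A}

namespace Met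

variable (m : Met F)

theorem p2_eq : m.p2 = m.s1 ^ 2 - 2 * m.s2 := by
  rw [s2]
  linear_combination (m.s1 ^ 2 - m.p2) * two_hf (A := A)
theorem Evo_six (a : A) : 3 * ((1 / 6 : ℝ) • a) = hf A * a := by
  rw [hf, ← Algebra.smul_def, ← map_ofNat (algebraMap ℝ A) 3, ← Algebra.smul_def, smul_smul]
  norm_num
theorem Evo_third (a : A) : 3 * ((1 / 3 : ℝ) • a) = a := by
  rw [← map_ofNat (algebraMap ℝ A) 3, ← Algebra.smul_def, smul_smul]
  norm_num
theorem p3_eq : m.p3 = m.s1 ^ 3 - 3 * m.s1 * m.s2 + 3 * m.s3 := by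
  rw [s3, Evo_six, s2]
  linear_combination (m.s1 ^ 3 - m.p3) * two_hf (A := A)
theorem ip2_SS : m.ip2 (m.S * m.γ * m.S) m.S = m.p3 := by
  simp only [ip2, p3, m.ST_S.symm, Matrix.mul_assoc]
theorem tr_Qf {T : Matrix ι ι A} (h : F.ST T) :
    m.tr (m.Qf T) = hf A * (m.tr T ^ 2 - 3 * m.ip2 T T) := by
  rw [Qf, tr_add, tr_add, tr_smul, tr_smul, tr_smul, tr_G, m.Var_tr_mul T h.symm]
  linear_combination (6 * m.ip2 T T - 2 * m.tr T ^ 2) * two_hf (A := A)
theorem X_p2 (i : ι) : F.X i m.p2 = 2 * m.ip2 (m.c2 i m.S) m.S := by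
  rw [p2, m.isPair2.leib, m.ip2_comm m.S, two_mul]
theorem lap_p2 : m.lap m.p2 = 2 * m.ip2 (m.lap2 m.S) m.S + 2 * m.gS := by
  rw [p2, m.lap_pair m.isPair2, m.ip2_comm m.S, two_mul (m.ip2 _ _)]
  rfl
theorem ip2_tl_S : m.ip2 (m.tl m.S) (m.tl m.S) = (2 / 3 : ℝ) • m.s1 ^ 2 - 2 * m.s2 := by
  have e : (2 / 3 : ℝ) • m.s1 ^ 2 = m.s1 ^ 2 - (1 / 3 : ℝ) • m.s1 ^ 2 := by
    conv_rhs => rw [← one_smul ℝ (m.s1 ^ 2), smul_smul, ← sub_smul]
    norm_num
  rw [ip2_tl, tr_S, ← p2, p2_eq, e, sq]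
  ring
theorem Evo_gam_eq (a b : A) : m.gam a b = ∑ i, ∑ j, m.γ i j * (F.X i a * F.X j b) :=
  m.ip1_eq _ _
theorem Evo_X_S (i : ι) : m.ip2 (m.c2 i m.S) m.S = m.s1 * F.X i m.s1 - F.X i m.s2 := by
  have h := m.X_p2 i
  rw [p2_eq, map_sub, sq, F.X_mul, F.X_mul, F.X_ofNat] at h
  linear_combination (-hf A) * h -
    (m.ip2 (m.c2 i m.S) m.S - m.s1 * F.X i m.s1 + F.X i m.s2) * two_hf (A := A)
/-- The squared norm of `s1 • ∇ S - d s1 ⊗ S`. -/
theorem H_eq : m.ip3 (fun i => m.s1 • m.c2 i m.S - F.X i m.s1 • m.S)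
    (fun i => m.s1 • m.c2 i m.S - F.X i m.s1 • m.S) =
    m.s1 ^ 2 * (m.gS - m.gam m.s1 m.s1) +
      2 * (m.s1 * m.gam m.s2 m.s1 - m.s2 * m.gam m.s1 m.s1) := by
  have e : ∀ i j, m.ip2 (m.s1 • m.c2 i m.S - F.X i m.s1 • m.S)
      (m.s1 • m.c2 j m.S - F.X j m.s1 • m.S) = m.s1 ^ 2 * m.ip2 (m.c2 i m.S) (m.c2 j m.S) -
      (m.s1 ^ 2 + 2 * m.s2) * (F.X i m.s1 * F.X j m.s1) + m.s1 * (F.X i m.s2 * F.X j m.s1) +
      m.s1 * (F.X i m.s1 * F.X j m.s2) := fun i j => by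
    rw [ip2_sub, ip2_smul, ip2_smul, m.ip2_comm _ (_ - _), m.ip2_comm _ (_ - _), ip2_sub, ip2_sub,
      ip2_smul, ip2_smul, ip2_smul, ip2_smul, m.ip2_comm m.S (m.c2 i m.S), Evo_X_S, Evo_X_S, ← p2,
      p2_eq, m.ip2_comm (m.c2 j m.S)]
    ring
  have e2 : m.s1 * m.gam m.s2 m.s1 = m.s1 * m.gam m.s1 m.s2 := by rw [gam_comm]
  have e3 : m.ip3 (fun i => m.s1 • m.c2 i m.S - F.X i m.s1 • m.S)
      (fun i => m.s1 • m.c2 i m.S - F.X i m.s1 • m.S) = m.s1 ^ 2 * m.gS -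
      (m.s1 ^ 2 + 2 * m.s2) * m.gam m.s1 m.s1 + m.s1 * m.gam m.s2 m.s1 +
      m.s1 * m.gam m.s1 m.s2 := by
    simp only [gS, ip3, ipPi, d2, e, Evo_gam_eq, Finset.mul_sum, ← Finset.sum_add_distrib,
      ← Finset.sum_sub_distrib]
    exact Finset.sum_congr rfl fun i _ => Finset.sum_congr rfl fun j _ => by ring
  rw [e3, ← e2]
  ring
/-- The exchange of the first two indices. -/
def Evo_sw (Θ : ι → Matrix ι ι A) : ι → Matrix ι ι A := fun i => of fun j k => Θ j i k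
theorem Evo_ip3_sw (Θ Ξ : ι → Matrix ι ι A) : m.ip3 (Evo_sw Θ) (Evo_sw Ξ) = m.ip3 Θ Ξ := by
  simp only [ip3, ip2_eq, ipPi, Finset.mul_sum]
  calc ∑ i, ∑ j, ∑ a, ∑ b, m.γ i j * (m.γ a b * m.ip1 (Evo_sw Θ i a) (Evo_sw Ξ j b))
      = ∑ i, ∑ a, ∑ j, ∑ b, m.γ i j * (m.γ a b * m.ip1 (Θ a i) (Ξ b j)) :=
        Finset.sum_congr rfl fun i _ => Finset.sum_comm
    _ = ∑ a, ∑ i, ∑ b, ∑ j, m.γ i j * (m.γ a b * m.ip1 (Θ a i) (Ξ b j)) := by
        rw [Finset.sum_comm]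
        exact Finset.sum_congr rfl fun a _ => Finset.sum_congr rfl fun i _ => Finset.sum_comm
    _ = _ := Finset.sum_congr rfl fun a _ => by
        rw [Finset.sum_comm]
        exact Finset.sum_congr rfl fun b _ => Finset.sum_congr rfl fun i _ =>
          Finset.sum_congr rfl fun j _ => by ring
theorem Evo_c3_sw (Θ : ι → Matrix ι ι A) (i p j k : ι) :
    m.c3 i (Evo_sw Θ) p j k = m.c3 i Θ j p k := by
  simp only [Var_c3, Evo_sw, of_apply]
  ring
theorem Evo_cc : hf A * m.cc = m.gS - m.ip3 (Evo_sw (m.d2 m.S)) (m.d2 m.S) := by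
  have e : m.Cot = m.d2 m.S + (-1 : A) • Evo_sw (m.d2 m.S) := by
    funext i
    ext j k
    simp only [Cot, curl, d2, Evo_sw, of_apply, Pi.add_apply, Pi.smul_apply, Matrix.add_apply,
      Matrix.smul_apply, smul_eq_mul]
    ring
  rw [cc, e, m.isPair3.add, m.isPair3.add', m.isPair3.add', m.isPair3.smul, m.isPair3.smul,
    m.isPair3.smul', m.isPair3.smul', Evo_ip3_sw, m.ip3_comm (m.d2 m.S) (Evo_sw _), ← gS]
  linear_combination (m.gS - m.ip3 (Evo_sw (m.d2 m.S)) (m.d2 m.S)) * two_hf (A := A)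
/-- `|C| ^ 2 / 2 = |∇ S| ^ 2 - ∇_i S_jk ∇_j S_ik`; move `∇_i` to the other factor (`div_pair`),
commute (`comm2`, `KN`), use `div2_S` and `div1_mulVec`. -/
theorem cot_id (hK : m.KN) : ∃ η : ι → A, hf A * m.cc = m.gS - m.gam m.s1 m.s1 +
    (2 * m.s1 ^ 3 - 7 * m.s1 * m.s2 + 9 * m.s3) + m.div1 η := by
  have h1 := m.div_pair m.isPair2 (Evo_sw (m.d2 m.S)) m.S
  have h2 : (m.trV fun i => covPi m.Γ m.c2 i (Evo_sw (m.d2 m.S))) = m.hess m.s1 +
      ((3 : A) • (m.S * m.γ * m.S) - m.p2 • m.G) := by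
    ext j k
    have h := hK.Var_comm m.ST_S j k
    have hs : ∀ n, (m.d2 m.S n)ᵀ = m.d2 m.S n := fun n => (m.ST_c2 m.ST_S n).symm
    have e : (m.trV fun i => covPi m.Γ m.c2 i (Evo_sw (m.d2 m.S))) j k =
        ∑ i, ∑ p, m.γ i p * m.d3 (m.d2 m.S) i j k p := by
      simp only [trV, Matrix.sum_apply, Matrix.smul_apply, smul_eq_mul]
      refine Finset.sum_congr rfl fun i _ => Finset.sum_congr rfl fun p _ => ?_
      rw [show covPi m.Γ m.c2 i (Evo_sw (m.d2 m.S)) p j k = _ from m.Evo_c3_sw _ i p j k,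
        m.Var_c3_symm hs i j p k]
      rfl
    rw [e, h, div2_S, tr_S, ← p2, hess]
    simp only [Matrix.sub_apply, Matrix.add_apply, Matrix.smul_apply, smul_eq_mul]
    ring
  have h3 := m.div1_mulVec m.S (F.d0 m.s1)
  rw [div2_S] at h3
  rw [h2, ip2_add, ip2_sub, ip2_smul, ip2_smul, ip2_SS, m.ip2_comm m.G, ip2_G, tr_S,
    m.ip2_comm (m.hess _)] at h1
  refine ⟨m.S *ᵥ (m.γ *ᵥ F.d0 m.s1) - fun j => m.ip2 (Evo_sw (m.d2 m.S) j) m.S, ?_⟩
  have h4 : (m.ipPi m.ip2 (Evo_sw (m.d2 m.S)) fun i => m.c2 i m.S) =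
      m.ip3 (Evo_sw (m.d2 m.S)) (m.d2 m.S) := rfl
  rw [div1_sub, h1, h3, h4, Evo_cc, p3_eq, p2_eq, gam, hess]
  ring
/-- The Newton tensor `s1 • G - S` is divergence free. -/
theorem newton (a : A) : ∃ η : ι → A,
    m.s1 * m.lap a - m.ip2 m.S (m.hess a) = m.div1 η := by
  refine ⟨m.s1 • F.d0 a - m.S *ᵥ (m.γ *ᵥ F.d0 a), ?_⟩
  rw [div1_sub, div1_smul, div1_mulVec, div2_S, div1_d0, hess]
  ring

end Met

namespace Dt

variable (d : Dt F) {m : Met F} (hK : m.KN) (hk : d.M m.G = m.kf m.S)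
include hk

theorem flow_tr : m.tr (d.M m.G) = -8 * m.s1 := by rw [hk, m.tr_kf, m.tr_S]

include hK

theorem flow_S : d.M m.S = m.lap2 m.S + m.Qf m.S := by rw [d.M_S m hK, hk, m.varS_kf_S]
theorem flow_s1 : d.D m.s1 = m.lap m.s1 + (3 * m.s1 ^ 2 - m.s2) := by
  have h := d.D_tr m m.S
  rw [d.flow_S hK hk, hk, m.tr_add, m.tr_lap2, m.tr_Qf m.ST_S, Met.kf, m.Var_ip2_smul,
    m.Var_ip2_add, m.Var_ip2_smul, m.ip2_G, m.tr_S, ← Met.p2, m.p2_eq] at h
  rw [h]
  linear_combination (3 * m.s2 - m.s1 ^ 2) * two_hf (A := A)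
theorem flow_p2 : d.D m.p2 =
    m.lap m.p2 - 2 * m.gS - 8 * m.p3 + 11 * m.s1 * m.p2 - m.s1 ^ 3 := by
  have e1 : m.S * m.γ * m.G = m.S := by rw [Matrix.mul_assoc, m.γG, Fr.ST.tan' F m.ST_S]
  have e2 : m.G * m.γ * m.S = m.S := by rw [m.Gγ, m.ST_S.tan]
  have h := d.D_ip2 m m.S m.S
  rw [m.ip2_comm m.S (d.M m.S), d.flow_S hK hk, hk, Met.kf, Met.Qf] at h
  simp only [smul_mul_assoc, mul_smul_comm, Matrix.add_mul, Matrix.mul_add, e1, e2, m.ip2_add,
    m.ip2_smul, m.ip2_SS, m.ip2_comm m.G, m.ip2_G, m.tr_S] at h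
  rw [m.lap_p2, Met.p2, h]
  linear_combination (3 * m.s1 * m.ip2 m.S m.S - m.s1 ^ 3) * two_hf (A := A)
theorem flow_s2 : d.D m.s2 = m.lap m.s2 +
    (m.gS - m.gam m.s1 m.s1 + 2 * m.s1 ^ 3 - 2 * m.s1 * m.s2 + 12 * m.s3) := by
  have h1 := d.flow_s1 hK hk
  have h2 := d.flow_p2 hK hk
  have h3 : m.lap (2 * m.s2) = 2 * m.lap m.s2 := by rw [two_mul, m.lap_add, two_mul]
  rw [m.p3_eq, m.p2_eq, map_sub, m.lap_sub, h3, sq, d.D_mul, d.D_mul, d.D_ofNat, m.lap_mul,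
    h1] at h2
  linear_combination (-hf A) * h2 - (d.D m.s2 - m.lap m.s2 - (m.gS - m.gam m.s1 m.s1 +
    2 * m.s1 ^ 3 - 2 * m.s1 * m.s2 + 12 * m.s3)) * two_hf (A := A)

end Dt

end Pool.Agent.MP_9bd639_gt.H88

end

-- part Conf
section

/-! Conformal transformation laws for `w⁻² g` (`v` is the inverse of `w`). -/

open Matrix

namespace Pool.Agent.MP_9bd639_gt.H88

set_option linter.unusedSectionVars false

variable {ι : Type} [Fintype ι] [DecidableEq ι] {A : Type} [CommRing A] [Algebra ℝ A]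
  {F : Fr ι A}

namespace Met

variable (m : Met F) {w v : A} (h : w * v = 1)

theorem conf_G : (m.conf w v h).G = (v * v) • m.G := rfl
theorem conf_γ : (m.conf w v h).γ = (w * w) • m.γ := rfl
theorem X_inv (h : w * v = 1) (i : ι) : F.X i v = -(v ^ 2 * F.X i w) := by
  have h1 := F.X_mul i w v
  rw [h, Derivation.map_one_eq_zero] at h1
  linear_combination (-F.X i v) * h - v * h1
theorem Conf_ext {m m' : Met F} (h1 : m.G = m'.G) (h2 : m.γ = m'.γ) : m = m' := by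
  cases m; cases m'; cases h1; cases h2; rfl
theorem conf_conf {w' v' : A} (h' : w' * v' = 1) (h'' : w * w' * (v * v') = 1) :
    (m.conf w v h).conf w' v' h' = m.conf (w * w') (v * v') h'' :=
  Conf_ext (by rw [conf_G, conf_G, conf_G, smul_smul]; congr 1; ring)
    (by rw [conf_γ, conf_γ, conf_γ, smul_smul]; congr 1; ring)
theorem conf_one (h1 : (1 : A) * 1 = 1) : m.conf 1 1 h1 = m :=
  Conf_ext (by rw [conf_G, h1, one_smul]) (by rw [conf_γ, h1, one_smul])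
theorem conf_tr (T : Matrix ι ι A) : (m.conf w v h).tr T = w ^ 2 * m.tr T := by
  simp only [tr, conf_γ, smul_mul_assoc, trace_smul, smul_eq_mul]; ring
theorem conf_tl (T : Matrix ι ι A) : (m.conf w v h).tl T = m.tl T := by
  simp only [tl, conf_tr, conf_G, smul_smul]
  congr 3
  linear_combination (m.tr T * (w * v + 1)) * h
theorem conf_ip1 (ω η : ι → A) : (m.conf w v h).ip1 ω η = w ^ 2 * m.ip1 ω η := by
  simp only [ip1, conf_γ, smul_mulVec, dotProduct_smul, smul_eq_mul]; ring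
theorem conf_ip2 (T U : Matrix ι ι A) : (m.conf w v h).ip2 T U = w ^ 4 * m.ip2 T U := by
  simp only [ip2, conf_γ, smul_mul_assoc, mul_smul_comm, trace_smul, smul_eq_mul]; ring
theorem conf_ip3 (Θ Ξ : ι → Matrix ι ι A) : (m.conf w v h).ip3 Θ Ξ = w ^ 6 * m.ip3 Θ Ξ := by
  simp only [ip3, ipPi, conf_ip2, conf_γ, Matrix.smul_apply, smul_eq_mul, Finset.mul_sum]
  exact Finset.sum_congr rfl fun i _ => Finset.sum_congr rfl fun j _ => by ring
theorem conf_gam (a b : A) : (m.conf w v h).gam a b = w ^ 2 * m.gam a b := m.conf_ip1 h _ _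
theorem conf_quad (T : Matrix ι ι A) (a b : A) :
    (m.conf w v h).quad T a b = w ^ 4 * m.quad T a b := by
  simp only [quad, conf_γ, smul_mulVec, mulVec_smul, dotProduct_smul, smul_dotProduct, smul_eq_mul]
  ring

/-- The change of the connection, with lower indices. -/
def Conf_C (θ : ι → A) (i : ι) : Matrix ι ι A :=
  of fun j n => m.G i n * θ j + m.G j n * θ i - m.G i j * θ n
/-- The change of the connection matrices. -/
def Conf_B (θ : ι → A) (i : ι) : Matrix ι ι A :=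
  of fun j l => F.π i l * θ j + F.π j l * θ i - m.G i j * (m.γ *ᵥ θ) l

theorem Conf_B_symm (θ : ι → A) (i j l : ι) : m.Conf_B θ i j l = m.Conf_B θ j i l := by
  simp only [Conf_B, of_apply, m.G_apply_symm i j]; ring
theorem Conf_B_sum (θ η : ι → A) (i j : ι) : ∑ l, m.Conf_B θ i j l * η l =
    θ j * (F.π *ᵥ η) i + θ i * (F.π *ᵥ η) j - m.G i j * m.ip1 η θ := by
  simp only [Conf_B, of_apply, ip1, mulVec_apply_eq_sum F.π, dotProduct, Finset.mul_sum,
    ← Finset.sum_add_distrib, ← Finset.sum_sub_distrib]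
  exact Finset.sum_congr rfl fun l _ => by ring
theorem Conf_C_sum (θ η : ι → A) (i j : ι) : ∑ l, m.Conf_C θ i j l * η l =
    θ j * (m.G *ᵥ η) i + θ i * (m.G *ᵥ η) j - m.G i j * (θ ⬝ᵥ η) := by
  simp only [Conf_C, of_apply, mulVec_apply_eq_sum m.G, dotProduct, Finset.mul_sum,
    ← Finset.sum_add_distrib, ← Finset.sum_sub_distrib]
  exact Finset.sum_congr rfl fun l _ => by ring
theorem Conf_Cγ (θ : ι → A) (i : ι) : m.Conf_C θ i * m.γ = m.Conf_B θ i := by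
  ext j l
  have e : ∀ a, (m.G *ᵥ fun n => m.γ n l) a = F.π a l := fun a => congrFun₂ m.Gγ a l
  have e' : (θ ⬝ᵥ fun n => m.γ n l) = (m.γ *ᵥ θ) l :=
    Finset.sum_congr rfl fun n _ => by
      rw [mul_comm]; exact congrArg (· * θ n) (m.γ_apply_symm n l)
  rw [Matrix.mul_apply, Conf_C_sum, e, e, e', Conf_B, of_apply]; ring
theorem Conf_Cπ {θ : ι → A} (hθ : F.π *ᵥ θ = θ) (i : ι) : m.Conf_C θ i * F.π = m.Conf_C θ i := by
  ext j l
  have e : ∀ a, (m.G *ᵥ fun n => F.π n l) a = m.G a l := fun a => congrFun₂ m.Gπ a l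
  have e' : (θ ⬝ᵥ fun n => F.π n l) = θ l := by
    conv_rhs => rw [← hθ]
    exact Finset.sum_congr rfl fun n _ => by
      rw [mul_comm]; exact congrArg (· * θ n) (congrFun₂ F.π_symm l n)
  rw [Matrix.mul_apply, Conf_C_sum, e, e, e', Conf_C, of_apply]; ring
theorem Conf_BG {θ : ι → A} (hθ : F.π *ᵥ θ = θ) (i : ι) : m.Conf_B θ i * m.G = m.Conf_C θ i := by
  rw [← Conf_Cγ, Matrix.mul_assoc, m.γG, m.Conf_Cπ hθ]
theorem Conf_Bπ (θ : ι → A) (i : ι) : m.Conf_B θ i * F.π = m.Conf_B θ i := by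
  rw [← Conf_Cγ, Matrix.mul_assoc, m.γπ]
theorem Conf_C_add (θ : ι → A) (i : ι) : m.Conf_C θ i + (m.Conf_C θ i)ᵀ = (2 * θ i) • m.G := by
  ext j n
  simp only [Conf_C, Matrix.add_apply, transpose_apply, of_apply, Matrix.smul_apply, smul_eq_mul,
    m.G_apply_symm n j]
  ring
theorem Conf_tan (w v : A) : F.π *ᵥ (v • F.d0 w) = v • F.d0 w := by rw [mulVec_smul, F.π_d0]

theorem Conf_Γ (i : ι) : (m.conf w v h).Γ i = m.Γ i - m.Conf_B (v • F.d0 w) i := by
  have hθ := Conf_tan (F := F) w v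
  let a : ι → Matrix ι ι A := fun n =>
    (v * v) • (kos (fun n => F.cM F.Γ0 n m.G) n - m.Conf_C (v • F.d0 w) n)
  have e : ∀ n, F.Γ0 n + a n * (m.conf w v h).γ = m.Γ n - m.Conf_B (v • F.d0 w) n := fun n => by
    rw [conf_γ, smul_mul_assoc, mul_smul_comm, smul_smul,
      show v * v * (w * w) = (w * v) * (w * v) by ring, h, one_mul, one_smul, Matrix.sub_mul,
      Conf_Cγ, Γ, add_sub_assoc]
  rw [← e]
  refine (m.conf w v h).Γ_unique a (fun i j n => ?_) (fun i => ?_) (fun i => ?_) i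
  · simp only [a, Matrix.smul_apply, Matrix.sub_apply, Conf_C, of_apply, m.G_apply_symm i j,
      kos_symm (fun n => (m.ST_cM0 n).symm) i j n, add_comm]
  · rw [smul_mul_assoc, Matrix.sub_mul, (m.kos0_tan i).2.1, m.Conf_Cπ hθ]
  · have h1 := m.c2_G i
    have h2 := m.Conf_BG hθ i
    have h3 : m.G * (m.Conf_B (v • F.d0 w) i)ᵀ = (m.Conf_C (v • F.d0 w) i)ᵀ := by
      rw [← h2, transpose_mul, m.G_symm]
    have h4 := m.Conf_C_add (v • F.d0 w) i
    have h5 : F.X i (v * v) = -(v * v * (2 * (v • F.d0 w) i)) := by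
      rw [F.X_mul, X_inv h]; simp only [Pi.smul_apply, smul_eq_mul, Fr.d0]; ring
    simp only [c2, Fr.cM] at h1
    simp only [Fr.cM, e, conf_G, F.XM_smul, transpose_sub, Matrix.sub_mul, Matrix.mul_sub,
      smul_mul_assoc, mul_smul_comm, h2, h3, h5, neg_smul, mul_smul (v * v), ← h4]
    linear_combination (norm := module) (v * v) • h1

/-- `Γ_unique`. -/
theorem conf_Γ (i : ι) : (m.conf w v h).Γ i = m.Γ i - v • of fun j l =>
    F.π i l * F.X j w + F.π j l * F.X i w - m.G i j * (m.γ *ᵥ F.d0 w) l := by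
  rw [Conf_Γ]
  congr 1
  ext j l
  simp only [Conf_B, of_apply, Matrix.smul_apply, mulVec_smul, Pi.smul_apply, smul_eq_mul, Fr.d0]
  ring
theorem conf_hess (a : A) : (m.conf w v h).hess a = m.hess a +
    v • (vecMulVec (F.d0 w) (F.d0 a) + vecMulVec (F.d0 a) (F.d0 w)) - (v * m.gam w a) • m.G := by
  ext i j
  have h1 := m.Conf_B_sum (v • F.d0 w) (F.d0 a) i j
  rw [F.π_d0, ip1_comm] at h1
  have h2 : m.ip1 (v • F.d0 w) (F.d0 a) = v * m.gam w a := by
    simp only [gam, ip1, smul_dotProduct, smul_eq_mul]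
  simp only [hess_apply, Conf_Γ, Matrix.sub_apply, Matrix.add_apply, Matrix.smul_apply,
    vecMulVec_apply, sub_mul, Finset.sum_sub_distrib, smul_eq_mul]
  simp only [h2, Pi.smul_apply, smul_eq_mul, Fr.d0] at h1 ⊢
  linear_combination h1
theorem conf_lap (a : A) : (m.conf w v h).lap a = w ^ 2 * m.lap a - w * m.gam w a := by
  rw [lap, conf_tr, conf_hess, tr_sub, tr_add, tr_smul, tr_smul, tr_add, tr_vec, tr_vec, tr_G,
    ip1_comm m (F.d0 a)]
  simp only [lap, gam]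
  linear_combination (-w * m.ip1 (F.d0 w) (F.d0 a)) * h

theorem Conf_c3 (θ : ι → A) (i j : ι) : m.c3 i (m.Conf_C θ) j = m.Conf_C (m.c1 i θ) j := by
  ext k n
  have g : ∀ a b, F.X i (m.G a b) = ∑ l, m.Γ i a l * m.G l b + ∑ l, m.Γ i b l * m.G a l :=
    fun a b => by
      have := congrFun₂ (m.c2_G i) a b
      simp only [c2, Fr.cM, Matrix.sub_apply, Fr.XM_apply, Matrix.mul_apply, transpose_apply,
        Matrix.zero_apply, mul_comm (m.G a _)] at this
      linear_combination this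
  simp only [c3, c2, c1, covPi, Fr.cM, Conf_C, Matrix.sub_apply, Fr.XM_apply, Matrix.mul_apply,
    transpose_apply, Matrix.sum_apply, Matrix.smul_apply, of_apply, smul_eq_mul, map_sub, map_add,
    F.X_mul, g, mul_sub, sub_mul, mul_add, add_mul, Finset.mul_sum, Finset.sum_mul,
    Finset.sum_add_distrib, Finset.sum_sub_distrib]
  simp only [mul_comm, mul_left_comm]
  ring_nf

theorem Conf_R {m m' : Met F} {C : ι → Matrix ι ι A} (hΓ : ∀ i, m'.Γ i = m.Γ i - C i * m.γ)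
    (i j : ι) : m'.R i j = m.R i j - (m.c3 i C j - m.c3 j C i) * m.γ +
      (C j * m.γ * (C i * m.γ) - C i * m.γ * (C j * m.γ)) := by
  have e : ∑ l, (m'.Γ i j l - m'.Γ j i l) • m'.Γ l = ∑ l, (m.Γ i j l - m.Γ j i l) • m.Γ l -
      (∑ l, m.Γ i j l • C l - ∑ l, m.Γ j i l • C l) * m.γ := by
    simp only [m'.tors_eq, ← m.tors_eq]
    simp only [hΓ, smul_sub, sub_smul, Finset.sum_sub_distrib, Matrix.sub_mul, Finset.sum_mul,
      smul_mul_assoc]
  simp only [R, e]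
  simp only [hΓ, c3, covPi, c2, Fr.cM, F.XM_sub, F.XM_mul, m.XM_γ]
  noncomm_ring

theorem Conf_Ric_eq (j k : ι) : m.Ric j k = ∑ i, (m.R i j * F.π) k i :=
  Finset.sum_congr rfl fun i _ => by
    rw [← Riem_γ, Matrix.mul_apply]
    exact Finset.sum_congr rfl fun l _ => by rw [m.γ_apply_symm i l, mul_comm]

theorem Conf_B_tr (η : ι → A) (k : ι) : ∑ i, m.Conf_B η i k i = 3 * η k := by
  have h1 : ∑ i, F.π i i = 3 := F.π_trace
  have h2 : ∑ i, m.G i k * (m.γ *ᵥ η) i = ∑ i, F.π k i * η i := by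
    have := congrFun (mulVec_mulVec η m.G m.γ) k
    rw [m.Gγ] at this
    simpa only [mulVec_apply_eq_sum m.G, mulVec_apply_eq_sum F.π, m.G_apply_symm k] using this
  simp only [Conf_B, of_apply, Finset.sum_add_distrib, Finset.sum_sub_distrib, ← Finset.sum_mul,
    h1, h2]
  ring

theorem Conf_B_div {N : Matrix ι ι A} (hN : F.ST N) (j k : ι) :
    ∑ i, m.Conf_B (N i) j k i = 2 * N j k - m.G j k * m.tr N := by
  have h1 : ∀ a b, ∑ i, F.π a i * N i b = N a b := fun a b => congrFun₂ hN.tan a b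
  have h2 : ∑ i, (m.γ *ᵥ N i) i = m.tr N := by rw [tr_eq]; rfl
  have h3 : N k j = N j k := congrFun₂ hN.symm j k
  simp only [Conf_B, of_apply, Finset.sum_add_distrib, Finset.sum_sub_distrib, ← Finset.mul_sum,
    h1, h2, h3]
  ring

/-- The action of the change of the connection on a tangent matrix. -/
theorem Conf_B_mul (θ : ι → A) {T : Matrix ι ι A} (hT : F.π * T = T) (i j k : ι) :
    (m.Conf_B θ i * T) j k = θ j * T i k + θ i * T j k - m.G i j * (Tᵀ *ᵥ (m.γ *ᵥ θ)) k := by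
  have e : ∀ a, (F.π *ᵥ fun l => T l k) a = T a k := fun a => congrFun₂ hT a k
  rw [Matrix.mul_apply, Conf_B_sum, e, e]; rfl

theorem Conf_πB {θ : ι → A} (hθ : F.π *ᵥ θ = θ) (j : ι) : F.π * m.Conf_B θ j = m.Conf_B θ j := by
  ext k l
  have h1 : ∑ a, F.π k a * θ a = θ k := congrFun hθ k
  have h2 : ∑ a, F.π k a * F.π a l = F.π k l := congrFun₂ F.π_idem k l
  have h3 : ∑ a, F.π k a * m.G a j = m.G k j := congrFun₂ m.πG k j
  simp only [Matrix.mul_apply, Conf_B, of_apply, m.G_apply_symm j]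
  conv_rhs => rw [← h1, ← h2, ← h3]
  simp only [Finset.mul_sum, Finset.sum_mul, ← Finset.sum_add_distrib, ← Finset.sum_sub_distrib]
  exact Finset.sum_congr rfl fun a _ => by ring

theorem Conf_BB {θ : ι → A} (hθ : F.π *ᵥ θ = θ) (j k : ι) :
    ∑ i, (m.Conf_B θ j * m.Conf_B θ i - m.Conf_B θ i * m.Conf_B θ j) k i =
      θ j * θ k - m.G j k * m.ip1 θ θ := by
  have h0 := m.Conf_B_sum θ θ j k
  rw [hθ] at h0
  have h1 : ∑ i, (m.Conf_B θ j * m.Conf_B θ i) k i = 3 * ∑ l, m.Conf_B θ j k l * θ l := by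
    simp only [Matrix.mul_apply]
    rw [Finset.sum_comm, Finset.mul_sum]
    exact Finset.sum_congr rfl fun p _ => by rw [← Finset.mul_sum, Conf_B_tr]; ring
  have h2 : ∑ i, m.Conf_B θ j i i = 3 * θ j := by simpa only [m.Conf_B_symm θ j] using m.Conf_B_tr θ j
  have h3 : ∑ i, m.G i k * ((m.Conf_B θ j)ᵀ *ᵥ (m.γ *ᵥ θ)) i = m.G j k * m.ip1 θ θ := by
    have e1 : ∑ i, m.G i k * ((m.Conf_B θ j)ᵀ *ᵥ (m.γ *ᵥ θ)) i =
        ((m.Conf_B θ j * m.G)ᵀ *ᵥ (m.γ *ᵥ θ)) k := by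
      rw [transpose_mul, ← mulVec_mulVec]; rfl
    have e2 : (m.Conf_C θ j)ᵀ = (2 * θ j) • m.G - m.Conf_C θ j := by rw [← Conf_C_add]; abel
    have e3 : m.G *ᵥ (m.γ *ᵥ θ) = θ := by rw [mulVec_mulVec, m.Gγ, hθ]
    have e4 := m.Conf_C_sum θ (m.γ *ᵥ θ) j k
    rw [e3] at e4
    rw [e1, m.Conf_BG hθ, e2, sub_mulVec, smul_mulVec, e3, Pi.sub_apply, mulVec_apply_eq_sum, e4]
    simp only [Pi.smul_apply, smul_eq_mul, ip1]
    ring
  simp only [Matrix.sub_apply, Finset.sum_sub_distrib, h1]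
  simp only [m.Conf_B_mul θ (m.Conf_πB hθ j), Finset.sum_sub_distrib, Finset.sum_add_distrib,
    ← Finset.mul_sum, h2, h3, mul_comm (θ _) (m.Conf_B θ j k _), h0]
  ring

include h in
theorem Conf_N : m.d1 (v • F.d0 w) = v • m.hess w - vecMulVec (v • F.d0 w) (v • F.d0 w) := by
  rw [d1_smul, hess]
  ext i j
  simp only [Matrix.add_apply, Matrix.sub_apply, vecMulVec_apply, Fr.d0, X_inv h, Pi.smul_apply,
    smul_eq_mul]
  ring

include h in
theorem Conf_ST_N : F.ST (m.d1 (v • F.d0 w)) := by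
  rw [m.Conf_N h, smul_vecMulVec, vecMulVec_smul]
  exact ((m.ST_hess w).smul F v).sub F (((F.ST_dd w).smul F v).smul F v)

theorem Conf_ip (w v : A) : m.ip1 (v • F.d0 w) (v • F.d0 w) = v ^ 2 * m.gam w w := by
  simp only [gam, ip1, smul_dotProduct, mulVec_smul, dotProduct_smul, smul_eq_mul]; ring

theorem conf_Ric : (m.conf w v h).Ric =
    m.Ric + v • m.hess w + (v * m.lap w - 2 * v ^ 2 * m.gam w w) • m.G := by
  ext j k
  have hθ := Conf_tan (F := F) w v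
  have hR := Conf_R (m := m) (m' := m.conf w v h) (C := m.Conf_C (v • F.d0 w))
    fun i => by rw [Conf_Γ, Conf_Cγ]
  have h1 := m.Conf_B_div (m.Conf_ST_N h) j k
  have h2 := m.Conf_B_tr (m.d1 (v • F.d0 w) j) k
  have h3 := m.Conf_BB hθ j k
  have h4 := congrFun₂ (m.Conf_N h) j k
  have h5 := congrArg m.tr (m.Conf_N h)
  rw [tr_sub, tr_smul, tr_vec, Conf_ip] at h5
  rw [Conf_ip] at h3
  have e : ∀ i, m.c1 i (v • F.d0 w) = m.d1 (v • F.d0 w) i := fun _ => rfl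
  simp only [Conf_Ric_eq, hR, Conf_c3, Matrix.sub_mul, Matrix.add_mul, Conf_Cγ, Conf_Bπ,
    Matrix.mul_assoc, e, Matrix.add_apply, Matrix.smul_apply, Finset.sum_add_distrib, h3]
  simp only [Matrix.sub_apply, Matrix.smul_apply, vecMulVec_apply, Finset.sum_sub_distrib, h1, h2,
    h5, smul_eq_mul, lap] at h4 ⊢
  linear_combination h4
theorem conf_s1 : (m.conf w v h).s1 = w ^ 2 * m.s1 + w * m.lap w - 3 * hf A * m.gam w w := by
  rw [s1, conf_tr, conf_Ric, tr_add, tr_add, tr_smul, tr_smul, tr_G, tr_Ric]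
  simp only [lap]
  linear_combination (w ^ 2 * m.s1 + w * m.tr (m.hess w)) * (2 * hf A + 1) * two_hf (A := A) -
    3 * hf A * m.gam w w * two_hf (A := A) +
    hf A * hf A * (4 * w * m.tr (m.hess w) - 6 * (w * v + 1) * m.gam w w) * h
theorem conf_S : (m.conf w v h).S =
    m.S + v • m.hess w - (hf A * v ^ 2 * m.gam w w) • m.G := by
  rw [S, conf_s1, conf_Ric, conf_G, S]
  ext j k
  simp only [Matrix.add_apply, Matrix.sub_apply, Matrix.smul_apply, smul_eq_mul]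
  linear_combination (-(m.s1 * (w * v + 1) + v * m.lap w) * m.G j k) * h +
    2 * v ^ 2 * m.gam w w * m.G j k * two_hf (A := A)
theorem Conf_tl_add (T U : Matrix ι ι A) : m.tl (T + U) = m.tl T + m.tl U := by
  simp only [tl, tr_add, add_smul, smul_add]; abel
theorem Conf_tl_smul (a : A) (T : Matrix ι ι A) : m.tl (a • T) = a • m.tl T := by
  simp only [tl, tr_smul, smul_sub, mul_smul, smul_comm a (1 / 3 : ℝ)]
theorem Conf_tl_G : m.tl m.G = 0 := by
  rw [tl, tr_G, ← map_ofNat (algebraMap ℝ A) 3, algebraMap_smul, smul_smul]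
  norm_num
theorem conf_tl_S : (m.conf w v h).tl (m.conf w v h).S = m.tl m.S + v • m.tl (m.hess w) := by
  rw [conf_tl, conf_S, sub_eq_add_neg, ← neg_smul, Conf_tl_add, Conf_tl_add, Conf_tl_smul,
    Conf_tl_smul, Conf_tl_G, smul_zero, add_zero]
theorem conf_s2 : (m.conf w v h).s2 = (1 / 3 : ℝ) • (m.conf w v h).s1 ^ 2 - hf A * w ^ 4 *
    m.ip2 (m.tl m.S + v • m.tl (m.hess w)) (m.tl m.S + v • m.tl (m.hess w)) := by
  have h1 := (m.conf w v h).ip2_tl_S
  rw [conf_ip2, conf_tl_S, show (2 / 3 : ℝ) = 1 / 3 + 1 / 3 by norm_num, add_smul] at h1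
  linear_combination hf A * h1 +
    ((1 / 3 : ℝ) • (m.conf w v h).s1 ^ 2 - (m.conf w v h).s2) * two_hf (A := A)

theorem Conf_curl {θ : ι → A} {m' : Met F} (hΓ : ∀ i, m'.Γ i = m.Γ i - m.Conf_B θ i)
    {T : Matrix ι ι A} (hT : F.ST T) (i j k : ι) : m'.curl T i j k = m.curl T i j k +
      (θ i * T j k - θ j * T i k - m.G i k * (T *ᵥ (m.γ *ᵥ θ)) j +
        m.G j k * (T *ᵥ (m.γ *ᵥ θ)) i) := by
  have e : ∀ i, m'.c2 i T = m.c2 i T + m.Conf_B θ i * T + (m.Conf_B θ i * T)ᵀ := fun i => by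
    simp only [c2, Fr.cM, hΓ, transpose_mul, hT.symm, transpose_sub, Matrix.sub_mul, Matrix.mul_sub]
    abel
  have s : ∀ a b, T a b = T b a := fun a b => congrFun₂ hT.symm b a
  simp only [curl, of_apply, e, Matrix.add_apply, transpose_apply, m.Conf_B_mul θ hT.tan, hT.symm,
    s k, s j i, m.G_apply_symm j i]
  ring

/-- Conformal invariance of the Cotton tensor (`comm1` for `d0 w` and `KN`). -/
theorem conf_Cot (hK : m.KN) : (m.conf w v h).Cot = m.Cot := by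
  funext i
  ext j k
  have hθ := Conf_tan (F := F) w v
  have hN := m.Conf_ST_N h
  have hS : (m.conf w v h).S = m.S + m.d1 (v • F.d0 w) + vecMulVec (v • F.d0 w) (v • F.d0 w) -
      (hf A * m.ip1 (v • F.d0 w) (v • F.d0 w)) • m.G := by
    rw [conf_S, m.Conf_N h, Conf_ip, mul_assoc]; abel
  rw [Cot, m.Conf_curl (m.Conf_Γ h) (m.conf w v h).ST_S, hS]
  generalize v • F.d0 w = θ at hθ hN
  have e : ∀ a b, m.c1 a θ b = m.d1 θ a b := fun _ _ => rfl
  have e3 : m.G *ᵥ (m.γ *ᵥ θ) = θ := by rw [mulVec_mulVec, m.Gγ, hθ]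
  have h1 := m.comm1 hθ i j k
  have h2 : (m.Riem i j *ᵥ (m.γ *ᵥ θ)) k = (m.S *ᵥ (m.γ *ᵥ θ)) i * m.G j k + m.S j k * θ i -
      m.S i k * θ j - (m.S *ᵥ (m.γ *ᵥ θ)) j * m.G i k := by
    conv_rhs => rw [← congrFun e3 i, ← congrFun e3 j]
    generalize m.γ *ᵥ θ = Θ
    simp only [mulVec_apply_eq_sum, hK i j k, Finset.mul_sum, Finset.sum_mul,
      ← Finset.sum_add_distrib, ← Finset.sum_sub_distrib]
    exact Finset.sum_congr rfl fun a _ => by ring
  have h3 : ∀ a, F.X a (m.ip1 θ θ) = 2 * (m.d1 θ *ᵥ (m.γ *ᵥ θ)) a := fun a => by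
    rw [m.isPair1.leib, m.ip1_comm θ, two_mul]; rfl
  have h4 : m.d1 θ j i = m.d1 θ i j := congrFun₂ hN.symm i j
  have h5 : ∀ a, (vecMulVec θ θ *ᵥ (m.γ *ᵥ θ)) a = θ a * m.ip1 θ θ := fun a => by
    rw [vecMulVec_mulVec]; simp [ip1]
  simp only [Cot, curl, of_apply, m.isCn2.sub, m.isCn2.add, c2_vec, c2_smul_G, F.X_mul, F.X_hf, h3,
    Matrix.add_apply, Matrix.sub_apply, Matrix.smul_apply, vecMulVec_apply, e, h4, add_mulVec,
    sub_mulVec, smul_mulVec, e3, Pi.add_apply, Pi.sub_apply, Pi.smul_apply, h5, smul_eq_mul]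
  linear_combination h1 - h2 + (m.G i k * ((m.d1 θ *ᵥ (m.γ *ᵥ θ)) j + θ j * m.ip1 θ θ) -
    m.G j k * ((m.d1 θ *ᵥ (m.γ *ᵥ θ)) i + θ i * m.ip1 θ θ)) * two_hf (A := A)
theorem conf_cc (hK : m.KN) : (m.conf w v h).cc = w ^ 6 * m.cc := by
  rw [cc, conf_ip3, m.conf_Cot h hK, cc]
/-- Covariance of the conformal Laplacian for the metric `φ ^ 4 g`. -/
theorem conf_L {φ ψ : A} (hφ : ψ * φ = 1) (h2 : ψ * ψ * (φ * φ) = 1) (f : A) :
    φ ^ 5 * ((m.conf (ψ * ψ) (φ * φ) h2).s1 * f - 2 * (m.conf (ψ * ψ) (φ * φ) h2).lap f) =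
      m.s1 * (φ * f) - 2 * m.lap (φ * f) := by
  have h0 : ∀ a, ψ * m.gam φ a + φ * m.gam ψ a = 0 := fun a => by
    rw [← gam_mul, hφ, ← map_one (algebraMap ℝ A), gam_const]
  have g1 : ∀ a, m.gam ψ a = -(ψ ^ 2 * m.gam φ a) := fun a => by
    linear_combination ψ * h0 a - m.gam ψ a * hφ
  have g2 : m.gam ψ ψ = ψ ^ 4 * m.gam φ φ := by rw [g1, m.gam_comm φ, g1]; ring
  have l0 : ψ * m.lap φ + φ * m.lap ψ + 2 * m.gam ψ φ = 0 := by
    rw [← lap_mul, hφ, ← map_one (algebraMap ℝ A), lap_const]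
  have l1 : m.lap ψ = 2 * ψ ^ 3 * m.gam φ φ - ψ ^ 2 * m.lap φ := by
    rw [g1] at l0
    linear_combination ψ * l0 - m.lap ψ * hφ
  have g3 : m.gam (ψ * ψ) (ψ * ψ) = 4 * ψ ^ 6 * m.gam φ φ := by
    rw [gam_mul, m.gam_comm ψ, gam_mul, g2]; ring
  have p4 : ψ ^ 4 * φ ^ 4 = 1 := by rw [← mul_pow, hφ, one_pow]
  have p5 : ψ ^ 5 * φ ^ 5 = 1 := by rw [← mul_pow, hφ, one_pow]
  rw [conf_s1, conf_lap, g3, lap_mul, lap_mul, gam_mul, l1, g2, g1]
  linear_combination (φ * m.s1 * f - 2 * φ * m.lap f) * p4 -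
    (2 * m.lap φ * f + 4 * m.gam φ f) * p5 - 6 * φ ^ 5 * ψ ^ 6 * m.gam φ φ * f * two_hf (A := A)
theorem conf_const {r s : ℝ} (h : algebraMap ℝ A r * algebraMap ℝ A s = 1) :
    (m.conf _ _ h).S = m.S ∧ (m.conf _ _ h).s1 = r ^ 2 • m.s1 ∧ (m.conf _ _ h).s2 = r ^ 4 • m.s2 ∧
      (m.conf _ _ h).p2 = r ^ 4 • m.p2 := by
  have h1 : m.hess (algebraMap ℝ A r) = 0 := by
    have : F.d0 (algebraMap ℝ A r) = 0 := funext fun i => (F.X i).map_algebraMap r
    rw [hess, this]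
    ext i j
    exact congrFun (m.isCn1.zero i) j
  have hS : (m.conf _ _ h).S = m.S := by rw [conf_S, h1, gam_const]; simp
  have h2 : (m.conf _ _ h).s1 = r ^ 2 • m.s1 := by
    rw [← tr_S, conf_tr, hS, tr_S, Algebra.smul_def, map_pow]
  have h3 : (m.conf _ _ h).p2 = r ^ 4 • m.p2 := by
    rw [p2, conf_ip2, hS, p2, Algebra.smul_def, map_pow]
  refine ⟨hS, h2, ?_, h3⟩
  simp only [s2, h2, h3, Algebra.smul_def, map_pow]
  ring

end Met

end Pool.Agent.MP_9bd639_gt.H88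

end
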