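import Pool.Agent.MP_9bd639_gt.G.Real
import Pool.Agent.MP_9bd639_gt.G.Tens2
import Pool.Agent.MP_9bd639_gt.G.An2

-- part CF0
section

/-! The conformal step: definitions and elementary identities. -/

open Matrix MeasureTheory Filter Topology Set
open scoped ContDiff

namespace Pool.Agent.MP_9bd639_gt.H88

namespace Base

variable {B : Base} {m : B.Me}

/-- The conformal Laplacian. -/
noncomputable def Lc (m : B.Me) (a : B.A) : B.A := m.s1 * a - 2 * m.lap a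

theorem Lc_add (m : B.Me) (a b : B.A) : Lc m (a + b) = Lc m a + Lc m b := by
  rw [Lc, Lc, Lc, m.lap_add]; ring

theorem Lc_sub (m : B.Me) (a b : B.A) : Lc m (a - b) = Lc m a - Lc m b := by
  rw [Lc, Lc, Lc, m.lap_sub]; ring

theorem Lc_smul (m : B.Me) (r : ℝ) (a : B.A) : Lc m (r • a) = r • Lc m a := by
  rw [Lc, Lc, m.lap_rsmul, smul_sub, mul_smul_comm, mul_smul_comm]

theorem Lc_one (m : B.Me) : Lc m 1 = m.s1 := by
  have := m.lap_const 1
  rw [map_one] at this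
  rw [Lc, this]; ring

theorem Pos.Lc_symm (hm : Pos m) (a b : B.A) : I m (Lc m a * b) = I m (a * Lc m b) :=
  hm.L_symm m.s1 a b

/-- A positive function with its inverse. -/
structure Cf (B : Base) where
  φ : B.A
  u : B.A
  hu : u * φ = 1
  pos : Gt0 φ

theorem exists_Cf {a : B.A} (h : Gt0 a) : ∃ P : Cf B, P.φ = a := by
  obtain ⟨b, hb⟩ := exists_inv fun x => (h x).ne'
  exact ⟨⟨a, b, by rw [mul_comm, hb], h⟩, rfl⟩

namespace Cf

variable (P : Cf B) (m)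

theorem h2 : P.u * P.u * (P.φ * P.φ) = 1 := by
  linear_combination (P.u * P.φ + 1) * P.hu

theorem hx (x : B.M) : P.u.1 x * P.φ.1 x = 1 := congrFun (congrArg Subtype.val P.hu) x

theorem u_val (x : B.M) : P.u.1 x = (P.φ.1 x)⁻¹ := eq_inv_of_mul_eq_one_left (P.hx x)

theorem u_pos : Gt0 P.u := fun x => by rw [P.u_val]; exact inv_pos.2 (P.pos x)

theorem pos2 : Gt0 (P.φ * P.φ) := fun x => mul_pos (P.pos x) (P.pos x)

/-- The metric `φ ^ 4 m`. -/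
def g : B.Me := m.conf (P.u * P.u) (P.φ * P.φ) P.h2

noncomputable def h : B.A := Lc m P.φ
noncomputable def Aq : ℝ := I m (P.φ * P.h m)
noncomputable def Nq : ℝ := I m (P.h m ^ 2 * P.u ^ 4)
noncomputable def Wq : ℝ := I m (P.u ^ 2)
noncomputable def Bq : ℝ := I (P.g m) (P.g m).s2
/-- The barrier. -/
noncomputable def Gq : ℝ := ∫ x, (Real.log ((P.h m).1 x) - (P.h m).1 x + 1) ∂vol m
/-- The functional without the barrier. -/
noncomputable def Ft (d ε l : ℝ) : ℝ :=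
  P.Bq m - d * P.Nq m - ε * P.Wq m - l / (2 * P.Aq m ^ 2)
/-- The functional that is maximised. -/
noncomputable def Fn (d ε l ν : ℝ) : ℝ := P.Ft m d ε l + 2 * d * ν * P.Gq m
/-- The part of the gradient that does not contain the leading term. -/
noncomputable def GG (d ε c : ℝ) : B.A :=
  c • P.h m + (2 * d) • (P.h m ^ 2 * P.u ^ 5) - (P.g m).s2 * P.φ ^ 5 + ε • P.u ^ 3

theorem cov (f : B.A) : P.φ ^ 5 * ((P.g m).s1 * f - 2 * (P.g m).lap f) = Lc m (P.φ * f) :=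
  m.conf_L P.hu P.h2 f

theorem h_eq : P.h m = P.φ ^ 5 * (P.g m).s1 := by
  have := P.cov m 1
  rw [mul_one, mul_one, show (1 : B.A) = algebraMap ℝ B.A 1 from (map_one _).symm,
    Met.lap_const] at this
  rw [h, ← this]; ring

theorem s1_eq : (P.g m).s1 = P.u ^ 5 * P.h m := by
  rw [P.h_eq, ← mul_assoc, ← mul_pow, P.hu, one_pow, one_mul]

theorem p2_eq : (P.g m).p2 = P.u ^ 8 * m.ip2 (P.g m).S (P.g m).S := by
  rw [Met.p2, g, Met.conf_ip2]; ring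

theorem s2_eq : (P.g m).s2 =
    hf B.A * (P.u ^ 10 * (P.h m * P.h m) - P.u ^ 8 * m.ip2 (P.g m).S (P.g m).S) := by
  rw [Met.s2, P.p2_eq, P.s1_eq]; ring

variable {m}

theorem g_pos (hm : Pos m) : Pos (P.g m) := hm.conf P.h2

theorem s1_pos (h : Gt0 (P.h m)) : Gt0 (P.g m).s1 := fun x => by
  rw [P.s1_eq]
  exact mul_pos (pow_pos (P.u_pos x) 5) (h x)

theorem I_g (hm : Pos m) (a : B.A) : I (P.g m) a = I m (a * P.φ ^ 6) := by
  rw [g, I_conf hm P.h2 P.pos2]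
  congr 1; ring

theorem A_eq (hm : Pos m) : I (P.g m) (P.g m).s1 = P.Aq m := by
  rw [P.I_g hm, Aq, P.h_eq]
  congr 1; ring

theorem N_eq (hm : Pos m) : I (P.g m) ((P.g m).s1 ^ 2) = P.Nq m := by
  rw [P.I_g hm, Nq, P.s1_eq]
  congr 1
  linear_combination (P.h m ^ 2 * P.u ^ 4 * ((P.u * P.φ) ^ 5 + (P.u * P.φ) ^ 4 + (P.u * P.φ) ^ 3 +
    (P.u * P.φ) ^ 2 + P.u * P.φ + 1)) * P.hu

theorem A_Q (hm : Pos m) : P.Aq m = Q m m.s1 P.φ := by
  rw [← hm.L_Q, Aq, mul_comm]; rfl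

theorem N_nonneg : 0 ≤ P.Nq m :=
  I_nonneg m fun x => mul_nonneg (sq_nonneg ((P.h m).1 x)) (pow_pos (P.u_pos x) 4).le

theorem W_nonneg : 0 ≤ P.Wq m := I_nonneg m fun x => sq_nonneg (P.u.1 x)

theorem G_nonpos (h : Gt0 (P.h m)) : P.Gq m ≤ 0 :=
  integral_nonpos fun x => by
    have := Real.log_le_sub_one_of_pos (h x)
    simp only [Pi.zero_apply]
    linarith

/-- The Euler identity. -/
theorem GG_φ (hm : Pos m) (d ε c : ℝ) : I m (P.GG m d ε c * P.φ) =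
    c * P.Aq m + 2 * d * P.Nq m - P.Bq m + ε * P.Wq m := by
  rw [Aq, Nq, Bq, Wq, P.I_g hm, ← I_smul, ← I_smul, ← I_smul, ← I_add, ← I_sub, ← I_add, GG]
  congr 1
  simp only [Algebra.smul_def]
  linear_combination (algebraMap ℝ B.A (2 * d) * P.h m ^ 2 * P.u ^ 4 +
    algebraMap ℝ B.A ε * P.u ^ 2) * P.hu

/-- The constant function. -/
def one (B : Base) : Cf B := ⟨1, 1, mul_one 1, fun _ => one_pos⟩

theorem one_g (m : B.Me) : (one B).g m = m :=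
  Met.eq_of_G (by rw [g, Met.conf_G]; simp [one])

theorem one_h (m : B.Me) : (one B).h m = m.s1 := Lc_one m

variable (m)

/-- Uniform bounds. -/
structure Bx (Λ : ℝ) : Prop where
  one : 1 ≤ Λ
  lo : ∀ x, Λ⁻¹ ≤ P.φ.1 x
  hi : ∀ x, P.φ.1 x ≤ Λ
  h0 : B.nrm 0 (P.h m) ≤ Λ
  hpos : Gt0 (P.h m)
  Alo : Λ⁻¹ ≤ P.Aq m
  Ahi : P.Aq m ≤ Λ

/-- The data that define the direction of ascent. -/
structure Tg (d ε c ν : ℝ) where
  v : B.A
  D : B.A
  hv : d • Lc m v = P.GG m d ε c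
  hD : D * D = (v - B.cst ν) ^ 2 + (4 * ν) • (P.u ^ 2) ^ 2
  D_pos : Gt0 D

variable {m P} {d ε c ν Λ : ℝ}

/-- The target value of `h`. -/
noncomputable def Tg.T (t : P.Tg m d ε c ν) : B.A := P.φ ^ 4 * (hf B.A * (t.v - B.cst ν + t.D))

theorem Bx.u_le (h : P.Bx m Λ) (x : B.M) : P.u.1 x ≤ Λ := by
  rw [P.u_val]
  exact inv_le_of_inv_le₀ (lt_of_lt_of_le one_pos h.one) (h.lo x)

theorem Bx.le_u (h : P.Bx m Λ) (x : B.M) : Λ⁻¹ ≤ P.u.1 x := by
  rw [P.u_val]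
  exact inv_anti₀ (P.pos x) (h.hi x)

theorem Tg.root (t : P.Tg m d ε c ν) (h0 : 0 < ν) (h1 : ν ≤ 1) (x : B.M) :
    0 < (t.v.1 x - ν + t.D.1 x) / 2 ∧ t.v.1 x - ν < (t.v.1 x - ν + t.D.1 x) / 2 ∧
      (t.v.1 x - ν + t.D.1 x) / 2 < t.D.1 x ∧ |t.v.1 x - ν| ≤ t.D.1 x ∧
      t.D.1 x ≤ |t.v.1 x - ν| + 2 * P.u.1 x ^ 2 ∧ 2 * ν * P.u.1 x ^ 2 ≤ t.D.1 x :=
  CF_root (t.D_pos x) (congrFun (congrArg Subtype.val t.hD) x) h0 h1 (pow_pos (P.u_pos x) 2)

theorem Tg.T_val (t : P.Tg m d ε c ν) (x : B.M) :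
    t.T.1 x = P.φ.1 x ^ 4 * ((t.v.1 x - ν + t.D.1 x) / 2) := by
  change P.φ.1 x ^ 4 * ((hf B.A).1 x * (t.v.1 x - ν + t.D.1 x)) = _
  rw [hf_val]; ring

theorem Tg.T_pos (t : P.Tg m d ε c ν) (h0 : 0 < ν) (h1 : ν ≤ 1) : Gt0 t.T := fun x => by
  rw [t.T_val]
  exact mul_pos (pow_pos (P.pos x) 4) (t.root h0 h1 x).1

/-- The equation that defines the target. -/
theorem Tg.T_eq (t : P.Tg m d ε c ν) : t.T * (t.T * P.u ^ 4 - (t.v - B.cst ν)) = B.cst ν := by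
  have h4 : P.u ^ 4 * P.φ ^ 4 = 1 := by rw [← mul_pow, P.hu, one_pow]
  have hD := t.hD
  rw [Algebra.smul_def, map_mul, map_ofNat] at hD
  change _ = _ + 4 * B.cst ν * _ at hD
  have h2 := two_hf (A := B.A)
  rw [Tg.T]
  linear_combination (P.φ ^ 4 * hf B.A ^ 2) * hD +
    (P.φ ^ 4 * hf B.A ^ 2 * (t.v - B.cst ν + t.D) ^ 2 + 4 * hf B.A ^ 2 * B.cst ν) * h4 +
    (P.φ ^ 4 * hf B.A * (t.v - B.cst ν) * (t.v - B.cst ν + t.D) +
      B.cst ν * (2 * hf B.A + 1)) * h2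

theorem exists_Tg (P : Cf B) (hm : Pos m) (hB : B.Good) (h1 : Gt0 m.s1) (hd : 0 < d) (ε c : ℝ)
    (hν : 0 < ν) : Nonempty (P.Tg m d ε c ν) := by
  obtain ⟨v, hv⟩ := hm.solve hB h1 (d⁻¹ • P.GG m d ε c)
  let Z : B.A := (v - B.cst ν) ^ 2 + (4 * ν) • (P.u ^ 2) ^ 2
  have hZ : ∀ x, 0 < Z.1 x := fun x => by
    have := P.u_pos x
    change 0 < (v.1 x - ν) ^ 2 + 4 * ν * (P.u.1 x ^ 2) ^ 2
    positivity
  refine ⟨⟨v, B.cmp Z Real.sqrt fun x => Real.contDiffAt_sqrt (hZ x).ne', ?_, ?_, fun x => ?_⟩⟩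
  · rw [Lc, hv, smul_smul, mul_inv_cancel₀ hd.ne', one_smul]
  · exact Subtype.ext (funext fun x => Real.mul_self_sqrt (hZ x).le)
  · exact Real.sqrt_pos.2 (hZ x)

end Cf

end Base

end Pool.Agent.MP_9bd639_gt.H88

end

-- part CF2
section

/-! The upper bound of the conformal factor: De Giorgi iteration. -/

open Matrix MeasureTheory Filter Topology Set
open scoped ContDiff

namespace Pool.Agent.MP_9bd639_gt.H88

namespace Base

variable {B : Base} {m : B.Me}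

theorem CF2_deriv : ∃ L : ℝ, 0 < L ∧ (∀ t, deriv Real.smoothTransition t ^ 2 ≤ L) ∧
    ∀ t ≤ 0, deriv Real.smoothTransition t = 0 := by
  have h0 : ∀ t ≤ 0, deriv Real.smoothTransition t = 0 := fun t ht =>
    IsLocalMin.deriv_eq_zero (Eventually.of_forall fun s => by
      rw [Real.smoothTransition.zero_of_nonpos ht]
      exact Real.smoothTransition.nonneg s)
  have h1 : ∀ t, 1 ≤ t → deriv Real.smoothTransition t = 0 := fun t ht =>
    IsLocalMax.deriv_eq_zero (Eventually.of_forall fun s => by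
      rw [Real.smoothTransition.one_of_one_le ht]
      exact Real.smoothTransition.le_one s)
  have hc : Continuous fun t => deriv Real.smoothTransition t ^ 2 :=
    ((Real.smoothTransition.contDiff (n := 1)).continuous_deriv le_rfl).pow 2
  obtain ⟨L, hL⟩ := (isCompact_Icc (a := (0 : ℝ)) (b := 1)).bddAbove_image hc.continuousOn
  refine ⟨|L| + 1, by positivity, fun t => ?_, h0⟩
  rcases le_total t 0 with h | h
  · rw [h0 t h, zero_pow two_ne_zero]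
    positivity
  rcases le_total 1 t with h' | h'
  · rw [h1 t h', zero_pow two_ne_zero]
    positivity
  have := hL ⟨t, ⟨h, h'⟩, rfl⟩
  linarith [le_abs_self L]

theorem CF2_meas (f : B.A) (k : ℝ) : MeasurableSet {x | f.1 x < k} :=
  (isOpen_lt (B.cont f) continuous_const).measurableSet

theorem CF2_le_set (m : B.Me) {S : Set B.M} (hS : MeasurableSet S) {f g : B.M → ℝ}
    (hf : Continuous f) (hg : Continuous g) (h1 : ∀ x ∈ S, f x ≤ g x) (h2 : ∀ x ∉ S, f x ≤ 0) :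
    ∫ x, f x ∂vol m ≤ ∫ x in S, g x ∂vol m := by
  rw [← integral_indicator hS]
  refine integral_mono (B.intg hf _) ((B.intg hg _).indicator hS) fun x => ?_
  by_cases hx : x ∈ S
  · rw [indicator_of_mem hx]
    exact h1 x hx
  · rw [indicator_of_notMem hx]
    exact h2 x hx

theorem CF2_set_le (m : B.Me) {S : Set B.M} (hS : MeasurableSet S) {f g : B.M → ℝ}
    (hf : Continuous f) (hg : Continuous g) (h1 : ∀ x ∈ S, f x ≤ g x) (h2 : ∀ x, 0 ≤ g x) :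
    ∫ x in S, f x ∂vol m ≤ ∫ x, g x ∂vol m :=
  (setIntegral_mono_on (B.intg hf _).integrableOn (B.intg hg _).integrableOn hS h1).trans
    (setIntegral_le_integral (B.intg hg _) (Eventually.of_forall h2))

/-- One step of the iteration. -/
theorem CF2_step (hm : Pos m) : ∃ D : ℝ, 0 < D ∧ ∀ (f : B.A) (Y k r : ℝ), 1 ≤ Y → k ≤ 1 → 1 ≤ r →
    ∫ x in {x | f.1 x < 1}, (m.gam f f).1 x ^ 2 ∂vol m ≤ Y → (vol m).real {x | f.1 x < 1} ≤ 1 →
      (vol m).real {x | f.1 x < k - r⁻¹} ^ 2 ≤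
        D * Y ^ 3 * (r ^ 2) ^ 6 * (vol m).real {x | f.1 x < k} ^ 3 := by
  obtain ⟨C, hC, hs⟩ := hm.sob6
  obtain ⟨L, hL, hd, hd0⟩ := CF2_deriv
  refine ⟨(C * (L + 1)) ^ 6, by positivity, fun f Y k r hY hk hr h1 h2 => ?_⟩
  have hr0 : 0 < r := by linarith
  have hΦ : ∀ x, ContDiffAt ℝ ∞ (fun s => Real.smoothTransition (r * (k - s))) (f.1 x) :=
    fun x => Real.smoothTransition.contDiffAt.comp _ (by fun_prop)
  have hder : ∀ s, deriv (fun s => Real.smoothTransition (r * (k - s))) s =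
      deriv Real.smoothTransition (r * (k - s)) * (r * -1) := fun s => by
    have e1 : HasDerivAt (fun s => r * (k - s)) (r * -1) s :=
      ((hasDerivAt_id s).const_sub k).const_mul r
    exact (((Real.smoothTransition.contDiff (n := 1)).differentiable one_ne_zero _).hasDerivAt.comp
      s e1).deriv
  obtain ⟨a, ha⟩ : ∃ a : B.A, ∀ x, a.1 x = Real.smoothTransition (r * (k - f.1 x)) :=
    ⟨B.cmp f _ hΦ, fun _ => rfl⟩
  have hg : ∀ x, (m.gam a a).1 x =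
      deriv Real.smoothTransition (r * (k - f.1 x)) ^ 2 * r ^ 2 * (m.gam f f).1 x := fun x => by
    rw [gam_comp m hΦ ha, m.gam_comm f a, gam_comp m hΦ ha, hder]
    ring
  have hout : ∀ x ∉ {x | f.1 x < k}, r * (k - f.1 x) ≤ 0 := fun x hx =>
    mul_nonpos_of_nonneg_of_nonpos hr0.le (sub_nonpos.2 (not_lt.1 hx))
  have hsub : {x | f.1 x < k} ⊆ {x | f.1 x < 1} := fun x hx => lt_of_lt_of_le hx hk
  set μ := (vol m).real {x | f.1 x < k} with hμ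
  have μ0 : 0 ≤ μ := measureReal_nonneg
  have μ1 : μ ≤ 1 := (measureReal_mono hsub).trans h2
  have e1 : (vol m).real {x | f.1 x < k - r⁻¹} ≤ I m (a ^ 6) := by
    have := CF2_set_le m (CF2_meas f (k - r⁻¹)) (continuous_const (y := (1 : ℝ)))
      (B.cont (a ^ 6)) (fun x hx => ?_) fun x => (by positivity : 0 ≤ a.1 x ^ 6)
    · rwa [setIntegral_const, smul_eq_mul, mul_one] at this
    · show 1 ≤ a.1 x ^ 6
      have h3 : r * r⁻¹ ≤ r * (k - f.1 x) :=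
        mul_le_mul_of_nonneg_left (by have : f.1 x < k - r⁻¹ := hx; linarith) hr0.le
      rw [mul_inv_cancel₀ hr0.ne'] at h3
      rw [ha, Real.smoothTransition.one_of_one_le h3, one_pow]
  have e2 : I m (a ^ 2) ≤ μ := by
    have := CF2_le_set m (CF2_meas f k) (B.cont (a ^ 2)) (continuous_const (y := (1 : ℝ)))
      (fun x _ => ?_) fun x hx => ?_
    · rwa [setIntegral_const, smul_eq_mul, mul_one] at this
    · show a.1 x ^ 2 ≤ 1
      rw [ha]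
      exact pow_le_one₀ (Real.smoothTransition.nonneg _) (Real.smoothTransition.le_one _)
    · show a.1 x ^ 2 ≤ 0
      rw [ha, Real.smoothTransition.zero_of_nonpos (hout x hx)]
      norm_num
  have e3 : I m (m.gam a a) ≤ L * r ^ 2 * ∫ x in {x | f.1 x < k}, (m.gam f f).1 x ∂vol m := by
    rw [← integral_const_mul]
    refine CF2_le_set m (CF2_meas f k) (B.cont _) (continuous_const.mul (B.cont _))
      (fun x _ => ?_) fun x hx => ?_
    · rw [hg]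
      exact mul_le_mul_of_nonneg_right (mul_le_mul_of_nonneg_right (hd _) (sq_nonneg _))
        (hm.gam_nonneg f x)
    · rw [hg, hd0 _ (hout x hx)]
      norm_num
  have e4 : ∫ x in {x | f.1 x < k}, (m.gam f f).1 x ∂vol m ≤ √(Y * μ) := by
    have h3 := cs ((vol m).restrict {x | f.1 x < k}) (B.cont (m.gam f f))
      (continuous_const (y := (1 : ℝ)))
    simp only [mul_one, one_pow] at h3
    rw [setIntegral_const, smul_eq_mul, mul_one] at h3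
    rw [Real.sqrt_mul (by linarith)]
    refine (le_abs_self _).trans (h3.trans (mul_le_mul_of_nonneg_right (Real.sqrt_le_sqrt
      (le_trans ?_ h1)) (Real.sqrt_nonneg _)))
    exact setIntegral_mono_set (B.intg ((B.cont _).pow 2) _).integrableOn
      (Eventually.of_forall fun x => sq_nonneg _) hsub.eventuallyLE
  have e5 : μ ≤ r ^ 2 * √(Y * μ) := by
    have h3 : μ ≤ √(Y * μ) := Real.le_sqrt_of_sq_le (by nlinarith)
    have h4 : 1 ≤ r ^ 2 := one_le_pow₀ hr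
    nlinarith [Real.sqrt_nonneg (Y * μ)]
  have e6 : I m (a ^ 6) ^ (1 / 3 : ℝ) ≤ C * (L + 1) * r ^ 2 * √(Y * μ) := by
    have h3 := mul_le_mul_of_nonneg_left e4 (show 0 ≤ L * r ^ 2 by positivity)
    refine (hs a).trans ?_
    rw [mul_assoc, mul_assoc]
    exact mul_le_mul_of_nonneg_left (by linarith) hC.le
  have p6 : 0 ≤ I m (a ^ 6) := I_nonneg m fun x => (by positivity : 0 ≤ a.1 x ^ 6)
  have e7 := pow_le_pow_left₀ (Real.rpow_nonneg p6 _) e6 6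
  have e8 : (I m (a ^ 6) ^ (1 / 3 : ℝ)) ^ 6 = I m (a ^ 6) ^ 2 := by
    rw [← Real.rpow_natCast, ← Real.rpow_mul p6, ← Real.rpow_natCast]
    norm_num
  have e9 : √(Y * μ) ^ 6 = Y ^ 3 * μ ^ 3 := by
    rw [show 6 = 2 * 3 from rfl, pow_mul, Real.sq_sqrt (by positivity), mul_pow]
  rw [e8, mul_pow, mul_pow, e9] at e7
  refine (pow_le_pow_left₀ measureReal_nonneg e1 2).trans (e7.trans_eq ?_)
  ring

/-- De Giorgi. Levels `k j = (1 / 2) ^ j`, `μ j = vol {f < k j}`, cutoff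
`a j = smoothTransition (2 ^ (j + 1) * (k j - f))` (`B.cmp`), which is `1` on `{f < k (j + 1)}`
and has `a j = 0`, `gam (a j) (a j) = 0` outside `{f < k j}` (`gam_comp`; the derivative of
`smoothTransition` is bounded and vanishes on `Iic 0`). `sob6` and Cauchy-Schwarz give
`μ (j + 1) ^ (1 / 3) ≤ C * 4 ^ j * sqrt (Y * μ j)` (take `e ≤ 1`, so `μ j ≤ 1`); sixth power,
`CF_dg_rec`; so the open set `{f < 0}` has measure zero (`vol_pos`). -/
theorem Pos.CF_dg (hm : Pos m) : ∃ e : ℝ, 0 < e ∧ ∀ (f : B.A) (Y : ℝ), 1 ≤ Y →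
    ∫ x in {x | f.1 x < 1}, (m.gam f f).1 x ^ 2 ∂vol m ≤ Y →
    (vol m).real {x | f.1 x < 1} * Y ^ 3 ≤ e → Ge0 f := by
  obtain ⟨D, hD, hs⟩ := CF2_step hm
  refine ⟨min 1 ((1 / 4096) ^ 2 / (D * 4096)), by positivity, fun f Y hY h1 h2 => ?_⟩
  have hY3 : 1 ≤ Y ^ 3 := one_le_pow₀ hY
  have μ0 : 0 ≤ (vol m).real {x | f.1 x < 1} := measureReal_nonneg
  have h3 : (vol m).real {x | f.1 x < 1} ≤ 1 := by
    have := h2.trans (min_le_left _ _)
    nlinarith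
  have h4 := CF_dg_rec (μ := fun j => (vol m).real {x | f.1 x < (1 / 2) ^ j})
    (K := D * 4096 * Y ^ 3) (fun j => measureReal_nonneg) (by positivity) (fun j => ?_) ?_
  · have h5 : (vol m).real {x | f.1 x < 0} ≤ 0 := by
      have t : Tendsto (fun j : ℕ => (vol m).real {x | f.1 x < (1 / 2) ^ 0} * (1 / 4096 : ℝ) ^ j)
          atTop (𝓝 ((vol m).real {x | f.1 x < (1 / 2) ^ 0} * 0)) :=
        (tendsto_pow_atTop_nhds_zero_of_lt_one (by norm_num) (by norm_num)).const_mul _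
      rw [mul_zero] at t
      refine ge_of_tendsto' t fun j => le_trans (measureReal_mono fun x hx => ?_) (h4 j)
      exact lt_trans (show f.1 x < 0 from hx) (show (0 : ℝ) < (1 / 2) ^ j by positivity)
    have := hm.vol_pos
    have h6 : {x | f.1 x < 0} = ∅ :=
      (isOpen_lt (B.cont f) continuous_const).eq_empty_of_measure_zero (μ := vol m)
        ((measureReal_eq_zero_iff (measure_ne_top _ _)).1 (le_antisymm h5 measureReal_nonneg))
    intro x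
    by_contra hx
    exact (h6 ▸ (not_le.1 hx : x ∈ {x | f.1 x < 0}) : x ∈ (∅ : Set B.M))
  · have h5 := hs f Y ((1 / 2) ^ j) (2 ^ (j + 1)) hY (pow_le_one₀ (by norm_num) (by norm_num))
      (one_le_pow₀ (by norm_num)) h1 h3
    have e1 : (1 / 2 : ℝ) ^ j - (2 ^ (j + 1))⁻¹ = (1 / 2) ^ (j + 1) := by
      rw [← inv_pow, ← one_div]
      ring
    have e2 : (((2 : ℝ) ^ (j + 1)) ^ 2) ^ 6 = 4096 * 4096 ^ j := by
      rw [← pow_mul, ← pow_mul, mul_comm (j + 1), pow_mul, pow_succ']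
      norm_num
    rw [e1, e2] at h5
    exact h5.trans_eq (by ring)
  · have := (le_div_iff₀ (by positivity)).1 (h2.trans (min_le_right _ _))
    simp only [pow_zero]
    linarith

/-- `CF_dyadic` gives `∑ j < n, 8 ^ j * vol {2 ^ j < v} ≤ 2 Λ`, so one term with `j < n` is at
most `2 Λ / n`. Apply `CF_dg` to `f = 2 ^ (j + 1) • w - 1` with `Y = 16 * 2 ^ j * (|Λ| + 1)`
(`{f < 1} = {2 ^ j < v}`, and `w ^ 3 ≤ (1 / 8) ^ j` there); `b = 2 ^ n`. -/
theorem Pos.CF_upper (hm : Pos m) (Λ : ℝ) : ∃ b : ℝ, 0 < b ∧ ∀ w v : B.A, w * v = 1 → Gt0 v →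
    I m (v ^ 3 * m.gam w w ^ 2) ≤ Λ → I m (v ^ 3) ≤ Λ → ∀ x, v.1 x ≤ b := by
  obtain ⟨e, he, hdg⟩ := hm.CF_dg
  obtain ⟨n, hn⟩ := exists_nat_gt (2 * (|Λ| + 1) * (16 * (|Λ| + 1)) ^ 3 / e)
  have hΛ : 0 < |Λ| + 1 := by positivity
  have hn0 : (0 : ℝ) < n := lt_trans (by positivity) hn
  refine ⟨2 ^ n, by positivity, fun w v hw hv h1 h2 x => ?_⟩
  have hwv : ∀ y, w.1 y * v.1 y = 1 := fun y => congrFun (congrArg Subtype.val hw) y
  have hS : ∀ j : ℕ, MeasurableSet {y | (2 : ℝ) ^ j < v.1 y} := fun j =>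
    (isOpen_lt continuous_const (B.cont v)).measurableSet
  have s1 : ∑ j ∈ Finset.range n, (vol m).real {y | (2 : ℝ) ^ j < v.1 y} * 8 ^ j ≤
      ∑ _j ∈ Finset.range n, 2 * (|Λ| + 1) / n := by
    have e1 : ∀ j : ℕ, (vol m).real {y | (2 : ℝ) ^ j < v.1 y} * 8 ^ j =
        ∫ y, indicator {y | (2 : ℝ) ^ j < v.1 y} (fun _ => (8 : ℝ) ^ j) y ∂vol m := fun j => by
      rw [integral_indicator_const _ (hS j), smul_eq_mul]
    have i1 : ∀ j ∈ Finset.range n, Integrable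
        (indicator {y | (2 : ℝ) ^ j < v.1 y} fun _ => (8 : ℝ) ^ j) (vol m) :=
      fun j _ => (integrable_const _).indicator (hS j)
    simp only [e1]
    rw [← integral_finsetSum _ i1, Finset.sum_const, Finset.card_range, nsmul_eq_mul,
      mul_div_cancel₀ _ hn0.ne']
    have e2 : ∫ y, 2 * v.1 y ^ 3 ∂vol m = 2 * I m (v ^ 3) := integral_const_mul _ _
    refine le_trans (integral_mono (integrable_finsetSum _ i1)
      (B.intg (continuous_const.mul ((B.cont v).pow 3)) _) fun y => ?_)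
      (e2.trans_le (by linarith [le_abs_self Λ]))
    refine le_trans (Finset.sum_le_sum fun j _ => le_of_eq ?_) (CF_dyadic (hv y) n)
    simp only [indicator, mem_ofPred_eq]
  obtain ⟨j, hj, h3⟩ := Finset.exists_le_of_sum_le
    (Finset.nonempty_range_iff.2 (Nat.cast_ne_zero.1 hn0.ne')) s1
  have p2 : (0 : ℝ) < 2 ^ j := by positivity
  obtain ⟨f, hf⟩ : ∃ f : B.A, f = ((2 : ℝ) ^ (j + 1)) • w - algebraMap ℝ B.A 1 := ⟨_, rfl⟩
  have fv : ∀ y, f.1 y = 2 ^ (j + 1) * w.1 y - 1 := fun y => by rw [hf]; rfl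
  have hset : {y | f.1 y < 1} = {y | (2 : ℝ) ^ j < v.1 y} := by
    ext y
    have h4 := hwv y
    have h5 := hv y
    have h6 : w.1 y = (v.1 y)⁻¹ := eq_inv_of_mul_eq_one_left h4
    rw [mem_ofPred_eq, mem_ofPred_eq, fv, h6, sub_lt_iff_lt_add, ← div_eq_mul_inv, div_lt_iff₀ h5,
      pow_succ]
    constructor <;> intro h <;> linarith
  have hg : m.gam f f = ((2 : ℝ) ^ (j + 1)) • ((2 : ℝ) ^ (j + 1)) • m.gam w w := by
    have : ∀ c, m.gam f c = ((2 : ℝ) ^ (j + 1)) • m.gam w c := fun c => by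
      rw [hf, m.gam_sub, m.gam_const, sub_zero, m.gam_rsmul]
    rw [this, m.gam_comm, this]
  have e8 : (8 : ℝ) ^ j = (2 ^ j) ^ 3 := by
    rw [← pow_mul, mul_comm, pow_mul]
    norm_num
  have h4 := hdg f (16 * 2 ^ j * (|Λ| + 1)) ?_ ?_ ?_ x
  · rw [fv] at h4
    have h5 := mul_le_mul_of_nonneg_right (sub_nonneg.1 h4) (hv x).le
    rw [one_mul, mul_assoc, hwv, mul_one] at h5
    exact h5.trans (pow_le_pow_right₀ (by norm_num) (Finset.mem_range.1 hj))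
  · have : (1 : ℝ) ≤ 2 ^ j := one_le_pow₀ (by norm_num)
    nlinarith [abs_nonneg Λ]
  · rw [hset]
    have e2 : ∫ y, 16 * 2 ^ j * (v ^ 3 * m.gam w w ^ 2).1 y ∂vol m =
        16 * 2 ^ j * I m (v ^ 3 * m.gam w w ^ 2) := integral_const_mul _ _
    refine le_trans (CF2_set_le m (hS j) ((B.cont _).pow 2) (continuous_const.mul (B.cont _))
      (fun y hy => ?_) fun y => ?_) (e2.trans_le
        (mul_le_mul_of_nonneg_left (by linarith [le_abs_self Λ]) (by positivity)))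
    · rw [hg]
      show (2 ^ (j + 1) * (2 ^ (j + 1) * (m.gam w w).1 y)) ^ 2 ≤
        16 * 2 ^ j * (v.1 y ^ 3 * (m.gam w w).1 y ^ 2)
      have h5 : ((2 : ℝ) ^ j) ^ 3 ≤ v.1 y ^ 3 := pow_le_pow_left₀ p2.le (le_of_lt hy) 3
      have h6 := mul_le_mul_of_nonneg_left
        (mul_le_mul_of_nonneg_right h5 (sq_nonneg ((m.gam w w).1 y)))
        (show (0 : ℝ) ≤ 16 * 2 ^ j by positivity)
      refine le_trans (le_of_eq ?_) h6
      rw [pow_succ (2 : ℝ) j]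
      ring
    · show 0 ≤ 16 * 2 ^ j * (v.1 y ^ 3 * (m.gam w w).1 y ^ 2)
      have := hv y
      positivity
  · rw [hset]
    rw [div_lt_iff₀ he] at hn
    rw [le_div_iff₀ hn0, e8] at h3
    have h5 := mul_le_mul_of_nonneg_right h3 (show 0 ≤ (16 * (|Λ| + 1)) ^ 3 by positivity)
    refine le_of_mul_le_mul_left ?_ hn0
    refine le_trans (le_of_eq ?_) (h5.trans hn.le)
    ring

end Base

end Pool.Agent.MP_9bd639_gt.H88

end

-- part CF2b
section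

/-! The gradient estimate and the finite variation formula for a conformal factor. -/

open Matrix MeasureTheory Filter Topology Set
open scoped ContDiff

namespace Pool.Agent.MP_9bd639_gt.H88

namespace Base

variable {B : Base} {m : B.Me}

theorem CF2b_am {a b c : ℝ} (ha : 0 ≤ a) (hb : 0 ≤ b) (h : c ^ 2 ≤ 4 * a * b) : c ≤ a + b :=
  (abs_le_of_sq_le_sq' (by nlinarith [sq_nonneg (a - b)]) (add_nonneg ha hb)).2

theorem CF2b_real {w v g P K qT qS PS s s' D : ℝ} (h : w * v = 1) (hv : 0 < v) (hg : 0 ≤ g)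
    (hP : 0 ≤ P) (hPS : 0 ≤ PS) (hK : PS + s ^ 2 ≤ K) (h1 : qT ^ 2 ≤ P * g * g)
    (h2 : qS ^ 2 ≤ PS * g * g) (hs : 0 ≤ s')
    (e : v ^ 3 * g ^ 2 = -4 * v * qT + 4 * v * qS - 2 * v ^ 3 * g * s' + 2 * v * g * s + 2 * D) :
    v ^ 3 * g ^ 2 ≤ 32 * (w * P) + 80 * K * w + 4 * D := by
  have hw : 0 < w := pos_of_mul_pos_left (b := v) (by rw [h]; exact one_pos) hv.le
  have hK1 : PS ≤ K := by nlinarith [sq_nonneg s]
  have hK2 : s ^ 2 ≤ K := by linarith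
  have hK0 : 0 ≤ K := hPS.trans hK1
  have hvg : 0 ≤ v ^ 2 * g ^ 2 := by positivity
  have e1 : w * v ^ 3 = v ^ 2 := by linear_combination v ^ 2 * h
  have a1 : -4 * v * qT ≤ 16 * (w * P) + v ^ 3 * g ^ 2 / 4 :=
    CF2b_am (by positivity) (by positivity) (by
      have := mul_le_mul_of_nonneg_left h1 (sq_nonneg v)
      have e2 : 4 * (16 * (w * P)) * (v ^ 3 * g ^ 2 / 4) = 16 * (v ^ 2 * (P * g * g)) := by
        linear_combination 16 * P * g ^ 2 * e1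
      rw [e2]
      linarith)
  have a2 : 4 * v * qS ≤ 32 * K * w + v ^ 3 * g ^ 2 / 8 :=
    CF2b_am (by positivity) (by positivity) (by
      have := mul_le_mul_of_nonneg_left h2 (sq_nonneg v)
      have := mul_le_mul_of_nonneg_left hK1 hvg
      have e2 : 4 * (32 * K * w) * (v ^ 3 * g ^ 2 / 8) = 16 * (v ^ 2 * g ^ 2 * K) := by
        linear_combination 16 * K * g ^ 2 * e1
      rw [e2]
      linarith)
  have a3 : 2 * v * g * s ≤ 8 * K * w + v ^ 3 * g ^ 2 / 8 :=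
    CF2b_am (by positivity) (by positivity) (by
      have := mul_le_mul_of_nonneg_left hK2 hvg
      have e2 : 4 * (8 * K * w) * (v ^ 3 * g ^ 2 / 8) = 4 * (v ^ 2 * g ^ 2 * K) := by
        linear_combination 4 * K * g ^ 2 * e1
      rw [e2]
      linarith)
  have a4 : 0 ≤ v ^ 3 * g * s' := by positivity
  linarith

theorem CF2b_id (m : B.Me) {w v : B.A} (h : w * v = 1) : v ^ 3 * m.gam w w ^ 2 =
    -4 * v * m.quad (m.conf w v h).S w w + 4 * v * m.quad m.S w w -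
      2 * v ^ 3 * m.gam w w * (m.conf w v h).s1 + 2 * v * m.gam w w * m.s1 +
      2 * (v * v * m.gam w w * m.lap w + m.gam (v * v * m.gam w w) w) := by
  have h1 : m.gam v w = -(v ^ 2 * m.gam w w) := by
    have := m.gam_mul w v w
    rw [h, ← map_one (algebraMap ℝ B.A), m.gam_const] at this
    linear_combination (-v) * this - m.gam v w * h
  have h2 : m.quad (m.conf w v h).S w w = m.quad m.S w w + v * m.quad (m.hess w) w w -
      hf B.A * v ^ 2 * m.gam w w * m.gam w w := by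
    rw [m.conf_S h, ← m.ip2_vec, m.ip2_sub, m.ip2_add, m.ip2_smul, m.ip2_smul, m.ip2_vec,
      m.ip2_vec, m.ip2_vec, m.quad_G]
  rw [h2, m.conf_s1 h, m.gam_mul, m.gam_mul, m.gam_gam, h1]
  linear_combination (-5 * v ^ 3 * m.gam w w ^ 2) * (two_hf (A := B.A)) +
    (2 * v * m.gam w w * m.s1 * (1 + w * v) + 2 * v ^ 2 * m.gam w w * m.lap w) * h

theorem CF2b_var (m : B.Me) {w v : B.A} (h : w * v = 1) : (m.conf w v h).s2 * v ^ 3 =
    w * m.s2 - m.s1 * v * m.gam w w -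
      hf B.A * w * m.ip2 ((m.conf w v h).S - m.S) ((m.conf w v h).S - m.S) +
      (m.s1 * m.lap w - m.ip2 m.S (m.hess w)) +
      hf B.A * w * m.tr ((m.conf w v h).S - m.S) ^ 2 := by
  have h1 : (m.conf w v h).s1 = w ^ 2 * m.tr (m.conf w v h).S := by
    rw [← (m.conf w v h).tr_S, m.conf_tr h]
  have h2 : (m.conf w v h).p2 = w ^ 4 * m.ip2 (m.conf w v h).S (m.conf w v h).S := m.conf_ip2 h _ _
  have h3 : m.tr (m.conf w v h).S = m.s1 + v * m.lap w - hf B.A * v ^ 2 * m.gam w w * 3 := by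
    rw [m.conf_S h, m.tr_sub, m.tr_add, m.tr_smul, m.tr_smul, m.tr_S, m.tr_G, Met.lap]
  have h4 : m.ip2 (m.conf w v h).S m.S =
      m.p2 + v * m.ip2 m.S (m.hess w) - hf B.A * v ^ 2 * m.gam w w * m.s1 := by
    rw [m.conf_S h, m.ip2_sub, m.ip2_add, m.ip2_smul, m.ip2_smul, m.ip2_comm m.G, m.ip2_G, m.tr_S,
      m.ip2_comm (m.hess w), Met.p2]
  have h5 : m.ip2 ((m.conf w v h).S - m.S) ((m.conf w v h).S - m.S) =
      m.ip2 (m.conf w v h).S (m.conf w v h).S - 2 * m.ip2 (m.conf w v h).S m.S + m.p2 := by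
    rw [m.ip2_sub, m.ip2_comm _ (_ - _), m.ip2_comm m.S (_ - _), m.ip2_sub, m.ip2_sub,
      m.ip2_comm m.S (m.conf w v h).S, Met.p2]
    ring
  have h6 : w ^ 4 * v ^ 3 = w := by linear_combination w * (w ^ 2 * v ^ 2 + w * v + 1) * h
  have h7 : w * (m.s1 * (m.tr (m.conf w v h).S - m.s1) - (m.ip2 (m.conf w v h).S m.S - m.p2)) =
      (m.s1 * m.lap w - m.ip2 m.S (m.hess w)) - m.s1 * v * m.gam w w := by
    rw [h3, h4]
    linear_combination (m.s1 * m.lap w - m.ip2 m.S (m.hess w) - m.s1 * v * m.gam w w) * h -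
      w * v ^ 2 * m.gam w w * m.s1 * (two_hf (A := B.A))
  rw [Met.s2, Met.s2, h1, h2, h5, m.tr_sub, m.tr_S]
  linear_combination hf B.A * (m.tr (m.conf w v h).S ^ 2 -
    m.ip2 (m.conf w v h).S (m.conf w v h).S) * h6 + h7 + w * (m.s1 * (m.tr (m.conf w v h).S - m.s1)
      - (m.ip2 (m.conf w v h).S m.S - m.p2)) * (two_hf (A := B.A))

/-- Let `T = conf.S` (`conf_S`), `g = gam w w`, `σ = tr T = v ^ 2 * conf.s1 ≥ 0`,
`Y = I (v ^ 3 * g ^ 2)`. By `gam_gam`, `2 * quad (hess w) w w = gam g w`; `ibp` for `v ^ 2 * g`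
and `w`, `X_inv` and `v * lap w = σ - s1 + 3 / 2 * v ^ 2 * g` give
`Y / 4 = - I (v * quad T w w) + I (v * quad S w w) - I (v * g * σ) / 2 + I (v * g * s1) / 2`.
Pointwise (`quad_sq_le` at `Pos.pt`): `v * |quad T w w| ≤ 4 * w * ip2 T T + v ^ 3 * g ^ 2 / 16`
and `K * v * g ≤ v ^ 3 * g ^ 2 / 16 + 4 * K ^ 2 * w`. Finally
`I conf conf.p2 = I (w * ip2 T T)` (`I_conf`, `conf_ip2`). -/
theorem Pos.CF_Y (hm : Pos m) : ∃ C : ℝ, 0 < C ∧ ∀ (w v : B.A) (h : w * v = 1), Gt0 v →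
    Ge0 (m.conf w v h).s1 → I m (v ^ 3 * m.gam w w ^ 2) ≤
      C * (I (m.conf w v h) (m.conf w v h).p2 + I m w) := by
  obtain ⟨K, hK⟩ := (isCompact_range (B.cont (m.ip2 m.S m.S + m.s1 ^ 2))).bddAbove
  have hK' : ∀ x, B.ev x (m.ip2 m.S m.S) + B.ev x m.s1 ^ 2 ≤ K := fun x => hK ⟨x, rfl⟩
  have hK0 : 0 ≤ K := by
    obtain ⟨x⟩ := B.nonempty
    exact (add_nonneg (hm.ip2_nonneg m.S x) (sq_nonneg _)).trans (hK' x)
  refine ⟨32 + 80 * K, by positivity, fun w v h hv hs => ?_⟩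
  have hwv : ∀ x, B.ev x w * B.ev x v = 1 := fun x => by rw [← map_mul, h, map_one]
  have hw : Ge0 w := fun x =>
    (pos_of_mul_pos_left (a := B.ev x w) (one_pos.trans_eq (hwv x).symm) (hv x).le).le
  have e1 : I (m.conf w v h) (m.conf w v h).p2 =
      I m (w * m.ip2 (m.conf w v h).S (m.conf w v h).S) := by
    rw [I_conf hm h hv, Met.p2, m.conf_ip2 h]
    congr 1
    linear_combination m.ip2 (m.conf w v h).S (m.conf w v h).S * w *
      (w ^ 2 * v ^ 2 + w * v + 1) * h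
  have e2 : I m (v ^ 3 * m.gam w w ^ 2) ≤
      I m (32 * (w * m.ip2 (m.conf w v h).S (m.conf w v h).S) + B.cst (80 * K) * w +
        4 * (v * v * m.gam w w * m.lap w + m.gam (v * v * m.gam w w) w)) := by
    refine I_mono m fun x => ?_
    obtain ⟨p, hp⟩ := hm.pt x
    have q1 := p.quad_sq_le (m.conf w v h).S w w
    have q2 := p.quad_sq_le m.S w w
    rw [hp] at q1 q2
    have q3 := congrArg (B.ev x) (CF2b_id m h)
    have q4 : B.ev x (B.cst (80 * K)) = 80 * K := rfl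
    rw [← B.ev_apply, ← B.ev_apply]
    generalize v * v * m.gam w w * m.lap w + m.gam (v * v * m.gam w w) w = D at q3 ⊢
    simp only [map_add, map_sub, map_mul, map_pow, map_neg, map_ofNat, q4] at q3 ⊢
    exact CF2b_real (hwv x) (hv x) (hm.gam_nonneg w x) (hm.ip2_nonneg _ x) (hm.ip2_nonneg _ x)
      (hK' x) q1 q2 (hs x) q3
  rw [I_add, I_add, I_ofNat_mul, I_ofNat_mul, I_cst_mul, I_add, hm.ibp, ← e1] at e2
  have e3 : 0 ≤ I (m.conf w v h) (m.conf w v h).p2 := I_nonneg _ ((hm.conf h).ip2_nonneg _)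
  have e4 := I_nonneg m hw
  nlinarith [mul_nonneg hK0 e3]

/-- The finite variation of the integral of `s2`. With `P = conf.S - S`:
`conf.s2 * v ^ 3 = w * s2 + w * (s1 * tr P - ip2 S P) + hf * w * (tr P ^ 2 - ip2 P P)`
(`conf_tr`, `tr_S`, `conf_ip2`) and
`w * (s1 * tr P - ip2 S P) = (s1 * lap w - ip2 S (hess w)) - s1 * v * gam w w` (`conf_S`);
`newton`, `I_div1`. -/
theorem Pos.CF_var (hm : Pos m) {w v : B.A} (h : w * v = 1) (hv : Gt0 v) :
    I m (w * m.s2) - I m (m.s1 * v * m.gam w w) -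
      I m (hf B.A * w * m.ip2 ((m.conf w v h).S - m.S) ((m.conf w v h).S - m.S)) ≤
      I (m.conf w v h) (m.conf w v h).s2 := by
  obtain ⟨η, hη⟩ := m.newton w
  rw [I_conf hm h hv, CF2b_var m h, hη, I_add, I_add, hm.I_div1, I_sub, I_sub, add_zero]
  refine le_add_of_nonneg_right (I_nonneg m fun x => ?_)
  have hwv : B.ev x w * B.ev x v = 1 := by rw [← map_mul, h, map_one]
  have hw : 0 < B.ev x w := pos_of_mul_pos_left (one_pos.trans_eq hwv.symm) (hv x).le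
  have hh : B.ev x (hf B.A) = 1 / 2 := hf_val x
  rw [← B.ev_apply, map_mul, map_mul, map_pow, hh]
  positivity

end Base

end Pool.Agent.MP_9bd639_gt.H88

end

-- part CF8
section

/-! The Cotton estimate for an approximate solution of the Euler-Lagrange equation. -/

open Matrix MeasureTheory Filter Topology Set
open scoped ContDiff

namespace Pool.Agent.MP_9bd639_gt.H88

theorem CF8_sq {a b g t : ℝ} (ha : 0 ≤ a) (hg : 0 ≤ g) (h : b ^ 2 ≤ g * a) :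
    -g ≤ t ^ 2 * a - 2 * t * b := by
  rcases ha.eq_or_lt with rfl | ha
  · have : b = 0 := by nlinarith [sq_nonneg b]
    rw [this]
    linarith
  · have : 0 ≤ a * (t ^ 2 * a - 2 * t * b + g) := by nlinarith [sq_nonneg (t * a - b)]
    linarith [(mul_nonneg_iff_of_pos_left ha).1 this]

theorem CF8_pt {s s2 s3 L z e c d ε K M r W : ℝ} (hI : Inv3 s s2 s3) (c0 : 0 < c) (d0 : 0 < d)
    (d1 : d ≤ 1 / 36) (ε0 : 0 ≤ ε) (hs : c ≤ s) (hK : ε * z ^ 2 ≤ K) (hr : s * r = 1)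
    (EL : s2 = c * s + d * s ^ 2 + 2 * d * L + ε * z ^ 2 - e) (M0 : 0 ≤ M)
    (hM : M ^ 2 = s ^ 2 - 2 * s2)
    (hW : W = 2 * s ^ 3 - 7 * s * s2 + 9 * s3 + 2 * (s2 * r) * L - 2 * c * L -
      2 * ε * (z ^ 2 * r * L) + 36 * (c + K / c) ^ 2 * s + (36 + 1 / d) / c * e ^ 2) :
    M ^ 3 ≤ 10 * W ∧ max (c - s2 / s) 0 ^ 2 ≤ 8 * d / c * W + 2 / c ^ 2 * e ^ 2 := by
  have s0 : 0 < s := c0.trans_le hs
  obtain rfl : r = 1 / s := by field_simp; linarith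
  obtain ⟨ρ, rfl⟩ : ∃ ρ, L = ρ * s / (2 * d) := ⟨2 * d * L / s, by field_simp⟩
  obtain ⟨u, hu⟩ : ∃ u, ε * z ^ 2 = u * s := ⟨ε * z ^ 2 / s, by field_simp⟩
  obtain ⟨v, rfl⟩ : ∃ v, e = v * s := ⟨e / s, by field_simp⟩
  have u0 : 0 ≤ u := by
    have : 0 ≤ u * s := by rw [← hu]; positivity
    exact nonneg_of_mul_nonneg_left this s0
  have u1 : u ≤ K / c := by
    rw [le_div_iff₀ c0]
    linarith [mul_le_mul_of_nonneg_left hs u0]
  have hq : s2 / s = c + u - v + d * s + ρ := by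
    rw [EL, hu]
    field_simp
    ring
  have h1 := hI.cotton s0 (c := c + u - v) d0 d1 M0 hM
  rw [hq, show c + u - v + d * s + ρ - (c + u - v) - d * s = ρ by ring] at h1
  have h2 : W = 2 * s ^ 3 - 7 * s * s2 + 9 * s3 + s ^ 2 * ρ + s * ρ ^ 2 / d - v * s * ρ / d +
      36 * (c + K / c) ^ 2 * s + (36 + 1 / d) / c * (v * s) ^ 2 := by
    have : 2 * ε * (z ^ 2 * (1 / s) * (ρ * s / (2 * d))) = ε * z ^ 2 * ρ / d := by field_simp
    rw [hW, this, hu, mul_one_div, hq]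
    field_simp
    ring
  have h3 : v ^ 2 * s ≤ (v * s) ^ 2 / c := by
    rw [le_div_iff₀ c0]
    linarith [mul_le_mul_of_nonneg_left hs (mul_nonneg (sq_nonneg v) s0.le)]
  have h4 : (c + u - v) ^ 2 * s ≤ 2 * (c + K / c) ^ 2 * s + 2 * (v ^ 2 * s) := by
    have : (c + u) ^ 2 ≤ (c + K / c) ^ 2 := by gcongr
    have : (c + u - v) ^ 2 ≤ 2 * (c + K / c) ^ 2 + 2 * v ^ 2 := by linarith [sq_nonneg (c + u + v)]
    linarith [mul_le_mul_of_nonneg_right this s0.le]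
  have h5 : v * s * ρ / d ≤ s * ρ ^ 2 / (4 * d) + 1 / d * (v ^ 2 * s) := by
    have : s * ρ ^ 2 / (4 * d) + 1 / d * (v ^ 2 * s) - v * s * ρ / d =
        s * (ρ - 2 * v) ^ 2 / (4 * d) := by field_simp; ring
    have h : 0 ≤ s * (ρ - 2 * v) ^ 2 / (4 * d) := by positivity
    linarith
  have h6 : (36 + 1 / d) * (v ^ 2 * s) ≤ (36 + 1 / d) / c * (v * s) ^ 2 := by
    rw [div_mul_eq_mul_div, mul_div_assoc]
    gcongr
  have h7 : s * ρ ^ 2 / d = 4 * (s * ρ ^ 2 / (4 * d)) := by field_simp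
  have h8 : s * ρ ^ 2 / (2 * d) = 2 * (s * ρ ^ 2 / (4 * d)) := by field_simp; norm_num
  have h9 : M ^ 3 / 10 + s * ρ ^ 2 / (4 * d) ≤ W := by linarith
  have n1 : 0 ≤ s * ρ ^ 2 / (4 * d) := by positivity
  have n2 : 0 ≤ M ^ 3 := by positivity
  refine ⟨by linarith, ?_⟩
  have k1 : 2 * ρ ^ 2 ≤ 8 * d / c * W := by
    have : 8 * d / c * (s * ρ ^ 2 / (4 * d)) = 2 * ρ ^ 2 * (s / c) := by field_simp; ring
    have h : 1 ≤ s / c := (one_le_div c0).2 hs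
    have h' : 8 * d / c * (s * ρ ^ 2 / (4 * d)) ≤ 8 * d / c * W := by gcongr; linarith
    linarith [mul_le_mul_of_nonneg_left h (sq_nonneg ρ)]
  have k2 : 2 * v ^ 2 ≤ 2 / c ^ 2 * (v * s) ^ 2 := by
    have : 2 / c ^ 2 * (v * s) ^ 2 = 2 * v ^ 2 * (s / c) ^ 2 := by field_simp
    have h : 1 ≤ (s / c) ^ 2 := one_le_pow₀ ((one_le_div c0).2 hs)
    linarith [mul_le_mul_of_nonneg_left h (sq_nonneg v)]
  have k3 : max (c - s2 / s) 0 ^ 2 ≤ (v - ρ) ^ 2 := by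
    rw [← sq_abs (v - ρ)]
    refine pow_le_pow_left₀ (le_max_right _ _) (max_le ?_ (abs_nonneg _)) 2
    rw [hq]
    linarith [le_abs_self (v - ρ), mul_pos d0 s0]
  linarith [sq_nonneg (v + ρ)]

namespace Base

variable {B : Base} {m : B.Me}

/-- `cot_id` (`Pos.KN`, `I_div1`), `H_nonneg` at `Pos.pt` and `ibp`. -/
theorem Pos.CF_cot0 (hm : Pos m) (h1 : Gt0 m.s1) {q : B.A} (hq : m.s2 = m.s1 * q) :
    I m (2 * m.s1 ^ 3 - 7 * m.s1 * m.s2 + 9 * m.s3 + 2 * q * m.lap m.s1) ≤ I m m.cc / 2 := by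
  obtain ⟨η, hη⟩ := m.cot_id hm.KN
  have e1 := congrArg (I m) hη
  rw [I_hf_mul, I_add, I_add, hm.I_div1] at e1
  have e2 : 0 ≤ I m (m.gS - m.gam m.s1 m.s1 + 2 * m.gam q m.s1) := I_nonneg m fun x => by
    obtain ⟨p, hp⟩ := hm.pt x
    have := p.H_nonneg hq (by rw [hp]; exact (h1 x).ne')
    rwa [hp] at this
  rw [I_add, I_ofNat_mul] at e2
  rw [I_add, mul_assoc 2 q, I_ofNat_mul, hm.ibp]
  linarith

/-- `ibp`, `gam_mul`, `X_inv`: the integrand becomes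
`gam (z * r • ds - dz) (z * r • ds - dz) - gam z z`, with `gam z s ^ 2 ≤ gam z z * gam s s`
(`ip1_sq_le`). -/
theorem Pos.CF_cot1 (hm : Pos m) {s r : B.A} (h : s * r = 1) (z : B.A) :
    -I m (m.gam z z) ≤ I m (z ^ 2 * r * m.lap s) := by
  have e0 : m.gam 1 s = 0 := by simpa using m.gam_const 1 s
  have e1 : m.gam r s = -(r ^ 2 * m.gam s s) := by
    have := m.gam_mul s r s
    rw [h, e0] at this
    linear_combination (-r) * this - m.gam r s * h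
  have e2 : -m.gam (z ^ 2 * r) s = (z * r) ^ 2 * m.gam s s - 2 * (z * r) * m.gam z s := by
    rw [m.gam_mul, e1, sq z, m.gam_mul]
    ring
  rw [hm.ibp, ← I_neg, ← I_neg, e2]
  refine I_mono m fun x => ?_
  obtain ⟨p, hp⟩ := hm.pt x
  have a1 := p.ip1_sq_le (B.F.d0 z) (B.F.d0 s)
  rw [hp] at a1
  have := CF8_sq (t := B.ev x (z * r)) (hm.gam_nonneg s x) (hm.gam_nonneg z x) a1
  simp only [← B.ev_apply, map_sub, map_mul, map_pow, map_neg, map_ofNat] at this ⊢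
  exact this

/-- Let `r` be the inverse of `s1`, `q = s2 * r`, `ρ = (2 * d) • (lap s1 * r)`,
`c' = c + (ε z ^ 2 - err) * r`, so `q = c' + d s1 + ρ` and
`2 q lap s1 = 2 c lap s1 + 2 ε z ^ 2 r lap s1 - err ρ / d + s1 ^ 2 ρ + s1 ρ ^ 2 / d`.
Use `CF_cot0`, `CF_cot1`, `I_lap`, `Inv3.cotton` at every point with the constant `c' x`
(`Pt.eig`, `p2_eq`), `- err ρ / d ≥ - s1 ρ ^ 2 / (4 d) - err ^ 2 / (d c)` and
`c' ^ 2 s1 ≤ 2 (c + K / c) ^ 2 s1 + 2 err ^ 2 / c`. This gives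
`∫ sqrt p2 ^ 3 / 10 + I (s1 ρ ^ 2) / (4 d) ≤ Λ`. Finally `c - q ≤ |ρ| + |err| / c`. -/
theorem Pos.CF_cot (hm : Pos m) {c d ε K Λ : ℝ} {z err : B.A} (c0 : 0 < c) (d0 : 0 < d)
    (d1 : d ≤ 1 / 36) (ε0 : 0 ≤ ε) (hs : ∀ x, c ≤ m.s1.1 x) (hK : ∀ x, ε * z.1 x ^ 2 ≤ K)
    (EL : m.s2 = c • m.s1 + d • m.s1 ^ 2 + (2 * d) • m.lap m.s1 + ε • z ^ 2 - err)
    (hΛ : I m m.cc / 2 + 2 * ε * I m (m.gam z z) + 36 * (c + K / c) ^ 2 * I m m.s1 +
      (36 + 1 / d) / c * I m (err ^ 2) ≤ Λ) :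
    ∫ x, Real.sqrt (m.p2.1 x) ^ 3 ∂vol m ≤ 10 * Λ ∧
      ∫ x, max (c - m.s2.1 x / m.s1.1 x) 0 ^ 2 ∂vol m ≤
        8 * d * Λ / c + 2 * I m (err ^ 2) / c ^ 2 := by
  have h1 : Gt0 m.s1 := fun x => c0.trans_le (hs x)
  obtain ⟨r, hr⟩ := exists_inv fun x => (h1 x).ne'
  have a0 := hm.CF_cot0 h1 (q := m.s2 * r) (by linear_combination (-m.s2) * hr)
  have a1 := hm.CF_cot1 hr z
  obtain ⟨W, hW⟩ : ∃ W : B.A, W = 2 * m.s1 ^ 3 - 7 * m.s1 * m.s2 + 9 * m.s3 +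
      2 * (m.s2 * r) * m.lap m.s1 - (2 * c) • m.lap m.s1 - (2 * ε) • (z ^ 2 * r * m.lap m.s1) +
      (36 * (c + K / c) ^ 2) • m.s1 + ((36 + 1 / d) / c) • err ^ 2 := ⟨_, rfl⟩
  have a2 : I m W ≤ Λ := by
    rw [hW, I_add, I_add, I_sub, I_sub, I_smul, I_smul, I_smul, I_smul, hm.I_lap]
    linarith [mul_le_mul_of_nonneg_left a1 ε0]
  have key : ∀ x, Real.sqrt (m.p2.1 x) ^ 3 ≤ 10 * W.1 x ∧
      max (c - m.s2.1 x / m.s1.1 x) 0 ^ 2 ≤ 8 * d / c * W.1 x + 2 / c ^ 2 * err.1 x ^ 2 := fun x => by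
    obtain ⟨p, hp⟩ := hm.pt x
    obtain ⟨a, b, g, e1, e2, e3, e4, -⟩ := p.eig
    rw [hp] at e1 e2 e3 e4
    have b1 := congrArg (B.ev x) hr
    have b2 := congrArg (B.ev x) EL
    have b3 := congrArg (B.ev x) hW
    have b4 := congrArg (B.ev x) m.p2_eq
    simp only [map_add, map_sub, map_mul, map_pow, map_smul, map_ofNat, map_one, smul_eq_mul]
      at b1 b2 b3 b4
    exact CF8_pt ⟨a, b, g, e1, e2, e3⟩ c0 d0 d1 ε0 (hs x) (hK x) b1 b2 (Real.sqrt_nonneg _)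
      ((Real.sq_sqrt (by rw [← B.ev_apply, e4]; positivity)).trans b4) b3
  constructor
  · refine le_trans (b := I m ((10 : ℝ) • W)) ?_ (by rw [I_smul]; linarith)
    exact integral_mono_of_nonneg (Eventually.of_forall fun x => by positivity)
      (B.intg (B.cont _) _) (Eventually.of_forall fun x => (key x).1)
  · refine le_trans (b := I m ((8 * d / c) • W + (2 / c ^ 2) • err ^ 2)) ?_ ?_
    · exact integral_mono_of_nonneg (Eventually.of_forall fun x => by positivity)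
        (B.intg (B.cont _) _) (Eventually.of_forall fun x => (key x).2)
    · rw [I_add, I_smul, I_smul]
      have : 8 * d / c * I m W ≤ 8 * d / c * Λ := by gcongr
      calc _ ≤ 8 * d / c * Λ + 2 / c ^ 2 * I m (err ^ 2) := by linarith
        _ = _ := by ring

end Base

end Pool.Agent.MP_9bd639_gt.H88

end

-- part CF3
section

/-! More closure properties of families. -/

open Matrix MeasureTheory Filter Topology Set
open scoped ContDiff

namespace Pool.Agent.MP_9bd639_gt.H88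

namespace Base

variable {B : Base} {m : B.Me} {κ : Type} {j k : ℕ} {W W' : κ → ℝ} {a b : κ → B.A}

/-- `mult_of_nrm`; note `0 ≤ K * W n` because it dominates a norm. -/
theorem Tm.mulW (ha : B.Tm W (k + 2) a) (hb : B.Tm W' j b) (hj : j ≤ k + 2) :
    B.Tm (W * W') j (a * b) := by
  obtain ⟨K, hK, h1⟩ := ha
  obtain ⟨K', hK', h2⟩ := hb
  obtain ⟨C, hC, h⟩ := B.mult_of_nrm k
  refine ⟨C * K * K', by positivity, fun n => (h (a n) j hj (b n)).trans ?_⟩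
  have h3 := mul_le_mul (h1 n) (h2 n) (B.nrm_nonneg _ _) ((B.nrm_nonneg _ _).trans (h1 n))
  calc _ = C * (B.nrm (k + 2) (a n) * B.nrm j (b n)) := by ring
    _ ≤ C * (K * W n * (K' * W' n)) := mul_le_mul_of_nonneg_left h3 hC.le
    _ = _ := by rw [Pi.mul_apply]; ring
/-- `prod_b` and `nrm_mono`. -/
theorem Tm.mul11 (ha : B.Tm W 1 a) (hb : B.Tm W' 1 b) : B.Tm (W * W') 0 (a * b) := by
  obtain ⟨K, hK, h1⟩ := ha
  obtain ⟨K', hK', h2⟩ := hb
  obtain ⟨C, hC, h⟩ := B.prod_b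
  refine ⟨C * K * K', by positivity, fun n => (h (a n) (b n)).trans ?_⟩
  have h4 : Real.sqrt (B.nrm 1 (b n) * B.nrm 0 (b n)) ≤ K' * W' n := by
    refine le_trans ?_ (h2 n)
    rw [← Real.sqrt_mul_self (B.nrm_nonneg 1 (b n)), Real.sqrt_mul_self (B.nrm_nonneg 1 (b n))]
    exact Real.sqrt_le_iff.2 ⟨B.nrm_nonneg _ _, by
      rw [sq]
      exact mul_le_mul_of_nonneg_left (B.nrm_mono zero_le_one _) (B.nrm_nonneg _ _)⟩
  have h3 := mul_le_mul (h1 n) h4 (Real.sqrt_nonneg _) ((B.nrm_nonneg _ _).trans (h1 n))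
  calc _ = C * (B.nrm 1 (a n) * Real.sqrt (B.nrm 1 (b n) * B.nrm 0 (b n))) := by ring
    _ ≤ C * (K * W n * (K' * W' n)) := mul_le_mul_of_nonneg_left h3 hC.le
    _ = _ := by rw [Pi.mul_apply]; ring
theorem Tm.mul_HB (ha : B.Tm W (k + 2) a) (hb : B.HB j b) (hj : j ≤ k + 2) :
    B.Tm W j (a * b) := (Tm.mulW ha hb hj).weight zero_le_one fun n => by simp
theorem Tm.neg (ha : B.Tm W k a) : B.Tm W k (-a) := by
  obtain ⟨K, hK, h1⟩ := ha
  exact ⟨K, hK, fun n => (B.nrm_neg k (a n)).trans_le (h1 n)⟩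
theorem Tm.sub (ha : B.Tm W k a) (hb : B.Tm W k b) : B.Tm W k (a - b) := by
  obtain ⟨K, hK, h1⟩ := ha
  obtain ⟨K', hK', h2⟩ := hb
  refine ⟨K + K', by positivity, fun n => (B.nrm_sub k (a n) (b n)).trans ?_⟩
  rw [add_mul]
  exact add_le_add (h1 n) (h2 n)
theorem Tm.rsmul (ha : B.Tm W k a) {r : κ → ℝ} {K : ℝ} (hr : ∀ n, |r n| ≤ K) :
    B.Tm W k fun n => r n • a n := by
  obtain ⟨K', hK', h1⟩ := ha
  refine ⟨|K| * K', by positivity, fun n => ?_⟩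
  rw [B.nrm_smul, mul_assoc]
  exact mul_le_mul ((hr n).trans (le_abs_self K)) (h1 n) (B.nrm_nonneg _ _) (abs_nonneg K)
theorem HB.scale (ha : B.HB k a) (hW : ∀ n, 0 ≤ W n) : B.Tm W k fun n => W n • a n := by
  obtain ⟨K, hK, h1⟩ := ha
  refine ⟨K, hK, fun n => ?_⟩
  rw [B.nrm_smul, abs_of_nonneg (hW n), mul_comm]
  exact mul_le_mul_of_nonneg_right ((h1 n).trans_eq (mul_one K)) (hW n)
theorem HB.cst {r : κ → ℝ} {K : ℝ} (hr : ∀ n, |r n| ≤ K) (k : ℕ) :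
    B.HB k fun n => B.cst (r n) := by
  have := Tm.rsmul (HB.const (κ := κ) k (1 : B.A)) hr
  simpa only [Base.cst, Base.HB, Algebra.algebraMap_eq_smul_one] using this
theorem HB.of_le {K : ℝ} (h : ∀ n, B.nrm k (a n) ≤ K) : B.HB k a :=
  ⟨|K|, abs_nonneg K, fun n => (h n).trans ((le_abs_self K).trans_eq (mul_one _).symm)⟩
theorem HB.le (h : B.HB k a) : ∃ K, 0 ≤ K ∧ ∀ n, B.nrm k (a n) ≤ K := by
  obtain ⟨K, hK, h1⟩ := h
  exact ⟨K, hK, fun n => (h1 n).trans_eq (mul_one K)⟩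
theorem HB.Tm (h : B.HB k a) (hW : ∀ n, 1 ≤ W n) : B.Tm W k a :=
  Tm.weight h zero_le_one fun n => (hW n).trans_eq (one_mul _).symm
theorem Tm.HB (h : B.Tm W k a) {K : ℝ} (hW : ∀ n, W n ≤ K) : B.HB k a :=
  Tm.weight h (abs_nonneg K) fun n => (hW n).trans ((le_abs_self K).trans_eq (mul_one _).symm)
theorem UB.of_le {K : ℝ} (h : ∀ n x, |(a n).1 x| ≤ K) : B.UB 0 a := ⟨K, h⟩
/-- `cs` and `Pos.nrm0`. -/
theorem Pos.I_mul_le (hm : Pos m) : ∃ C, 0 < C ∧ ∀ a b : B.A,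
    |I m (a * b)| ≤ C * B.nrm 0 a * B.nrm 0 b := by
  obtain ⟨C, hC, h⟩ := hm.nrm0
  refine ⟨C, hC, fun a b => (cs (vol m) (B.cont a) (B.cont b)).trans ?_⟩
  have h1 : ∀ a : B.A, Real.sqrt (∫ x, a.1 x ^ 2 ∂vol m) ≤ Real.sqrt C * B.nrm 0 a := fun a => by
    refine (Real.sqrt_le_sqrt (h a).2).trans_eq ?_
    rw [Real.sqrt_mul hC.le, Real.sqrt_sq (B.nrm_nonneg _ _)]
  refine (mul_le_mul (h1 a) (h1 b) (Real.sqrt_nonneg _)
    ((Real.sqrt_nonneg _).trans (h1 a))).trans_eq ?_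
  rw [mul_mul_mul_comm, Real.mul_self_sqrt hC.le, mul_assoc]
theorem Tm.I_mul (hm : Pos m) (ha : B.Tm W 0 a) (hb : B.Tm W' 0 b) :
    ∃ K, 0 ≤ K ∧ ∀ n, |I m (a n * b n)| ≤ K * (W n * W' n) := by
  obtain ⟨K, hK, h1⟩ := ha
  obtain ⟨K', hK', h2⟩ := hb
  obtain ⟨C, hC, h⟩ := hm.I_mul_le
  refine ⟨C * K * K', by positivity, fun n => (h (a n) (b n)).trans ?_⟩
  have h3 := mul_le_mul (h1 n) (h2 n) (B.nrm_nonneg _ _) ((B.nrm_nonneg _ _).trans (h1 n))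
  calc _ = C * (B.nrm 0 (a n) * B.nrm 0 (b n)) := by ring
    _ ≤ C * (K * W n * (K' * W' n)) := mul_le_mul_of_nonneg_left h3 hC.le
    _ = _ := by ring
theorem UB.I_le (ha : B.UB 0 a) (m : B.Me) : ∃ K, 0 ≤ K ∧ ∀ n, |I m (a n)| ≤ K := by
  obtain ⟨K, h⟩ := ha
  refine ⟨|K| * (vol m).real univ, by positivity, fun n => ?_⟩
  exact norm_integral_le_of_norm_le_const (f := (a n).1) (C := |K|)
    (Eventually.of_forall fun x => (h n x).trans (le_abs_self K))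
/-- `sup_le`. -/
theorem Tm.sup (ha : B.Tm W 2 a) : ∃ K, 0 ≤ K ∧ ∀ n x, |(a n).1 x| ≤ K * W n := by
  obtain ⟨K, hK, h1⟩ := ha
  obtain ⟨C, hC, h⟩ := B.sup_le
  refine ⟨C * K, by positivity, fun n x => (h (a n) x).trans ?_⟩
  rw [mul_assoc]
  exact mul_le_mul_of_nonneg_left (h1 n) hC.le
/-- `HB.comp` with `Φ = inv`, `U = Ioi 0`, `K = Icc τ C`. -/
theorem HB.inv (ha : B.HB (k + 2) a) {τ : ℝ} (hτ : 0 < τ) (h : ∀ n x, τ ≤ (a n).1 x)
    (hb : ∀ n, b n * a n = 1) : B.HB (k + 2) b := by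
  obtain ⟨C, hC⟩ := ha.UB.mono (Nat.zero_le k)
  refine ha.comp (Φ := fun t => t⁻¹) (U := Ioi 0) (K := Icc τ C) isOpen_Ioi isCompact_Icc
    (fun t ht => hτ.trans_le ht.1) (contDiffOn_id.inv fun t ht => ne_of_gt ht)
    (fun n x => ⟨h n x, (le_abs_self _).trans (hC n x)⟩) fun n x => ?_
  exact eq_inv_of_mul_eq_one_left (congrFun (congrArg Subtype.val (hb n)) x)
/-- `HB.comp` with `Φ = sqrt`, `U = Ioi 0`, `K = Icc (τ ^ 2) C`. -/
theorem HB.sqrt (ha : B.HB (k + 2) a) {τ : ℝ} (hτ : 0 < τ) (h : ∀ n x, τ ≤ (b n).1 x)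
    (hb : ∀ n, b n * b n = a n) : B.HB (k + 2) b := by
  obtain ⟨C, hC⟩ := ha.UB.mono (Nat.zero_le k)
  have e : ∀ n x, (b n).1 x * (b n).1 x = (a n).1 x :=
    fun n x => congrFun (congrArg Subtype.val (hb n)) x
  refine ha.comp (Φ := Real.sqrt) (U := Ioi 0) (K := Icc (τ * τ) C) isOpen_Ioi isCompact_Icc
    (fun t ht => (mul_pos hτ hτ).trans_le ht.1)
    (fun t ht => (Real.contDiffAt_sqrt (ne_of_gt ht)).contDiffWithinAt)
    (fun n x => ⟨?_, (le_abs_self _).trans (hC n x)⟩) fun n x => ?_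
  · rw [← e]
    exact mul_self_le_mul_self hτ.le (h n x)
  · rw [← e, Real.sqrt_mul_self (hτ.le.trans (h n x))]
/-- `L_est`. -/
theorem Tm.of_L (hm : Pos m) (h1 : Gt0 m.s1) (h : B.Tm W k fun n => Lc m (a n)) :
    B.Tm W (k + 2) a := by
  obtain ⟨K, hK, h2⟩ := h
  obtain ⟨C, hC, h⟩ := hm.L_est h1 k
  refine ⟨C * K, by positivity, fun n => (h (a n)).trans ?_⟩
  rw [mul_assoc]
  exact mul_le_mul_of_nonneg_left (h2 n) hC.le
/-- `L_bound`. -/
theorem Tm.L (m : B.Me) (h : B.Tm W (k + 2) a) : B.Tm W k fun n => Lc m (a n) := by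
  obtain ⟨K, hK, h2⟩ := h
  obtain ⟨C, hC, h⟩ := L_bound m m.s1 k
  refine ⟨C * K, by positivity, fun n => (h (a n)).trans ?_⟩
  rw [mul_assoc]
  exact mul_le_mul_of_nonneg_left (h2 n) hC.le

theorem CF_ip2_eq (m : B.Me) (T U : B.Mat) :
    m.ip2 T U = ∑ i, ∑ l, (m.γ * T * m.γ) i l * U i l := by
  rw [Met.ip2]
  generalize m.γ * T * m.γ = S
  simp only [Matrix.trace, diag_apply, Matrix.mul_apply, transpose_apply]

/-- A family of size `W` in the dual of `H ^ 1`. -/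
def Du (m : B.Me) (W : κ → ℝ) (a : κ → B.A) : Prop :=
  ∃ K, 0 ≤ K ∧ ∀ n y, |I m (a n * y)| ≤ K * W n * B.nrm 1 y

theorem Du.add (ha : Du m W a) (hb : Du m W b) : Du m W fun n => a n + b n := by
  obtain ⟨K, hK, h1⟩ := ha
  obtain ⟨K', hK', h2⟩ := hb
  refine ⟨K + K', by positivity, fun n y => ?_⟩
  rw [add_mul (a n), I_add, add_mul, add_mul]
  exact (abs_add_le _ _).trans (add_le_add (h1 n y) (h2 n y))
theorem Du.sub (ha : Du m W a) (hb : Du m W b) : Du m W fun n => a n - b n := by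
  obtain ⟨K, hK, h1⟩ := ha
  obtain ⟨K', hK', h2⟩ := hb
  refine ⟨K + K', by positivity, fun n y => ?_⟩
  rw [sub_mul (a n), I_sub, add_mul, add_mul]
  exact (abs_sub _ _).trans (add_le_add (h1 n y) (h2 n y))
theorem Du.smul (ha : Du m W a) (r : ℝ) : Du m W fun n => r • a n := by
  obtain ⟨K, hK, h1⟩ := ha
  refine ⟨|r| * K, by positivity, fun n y => ?_⟩
  rw [smul_mul_assoc, I_smul, abs_mul, mul_assoc, mul_assoc, ← mul_assoc K]
  exact mul_le_mul_of_nonneg_left (h1 n y) (abs_nonneg r)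
theorem Du.sum {σ : Type} (s : Finset σ) {f : σ → κ → B.A} (h : ∀ i ∈ s, Du m W (f i)) :
    Du m W fun n => ∑ i ∈ s, f i n := by
  classical
  induction s using Finset.induction_on with
  | empty => exact ⟨0, le_rfl, fun n y => by simp [I_zero]⟩
  | insert i s hi ih =>
    simp only [Finset.sum_insert hi]
    exact (h i (Finset.mem_insert_self _ _)).add (ih fun l hl => h l (Finset.mem_insert_of_mem hl))
theorem Tm.Du (hm : Pos m) (ha : B.Tm W 0 a) : Du m W a := by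
  obtain ⟨K, hK, h1⟩ := ha
  obtain ⟨C, hC, h⟩ := hm.I_mul_le
  refine ⟨C * K, by positivity, fun n y => (h (a n) y).trans ?_⟩
  have h2 := mul_le_mul_of_nonneg_left (h1 n) hC.le
  rw [mul_assoc C K]
  exact mul_le_mul h2 (B.nrm_mono zero_le_one y) (B.nrm_nonneg _ _)
    ((mul_nonneg hC.le (B.nrm_nonneg _ _)).trans h2)
/-- `|I (a b y)| ≤ C * nrm 0 (y a) * nrm 0 b` and `prod_b` for `y * a`. -/
theorem Du.mul (hm : Pos m) (h0 : B.HB 0 a) (h1 : B.Tm W 1 a) (hb : B.HB 0 b) :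
    Du m (fun n => Real.sqrt (W n)) fun n => a n * b n := by
  obtain ⟨K0, hK0, e0⟩ := h0.le
  obtain ⟨K1, hK1, e1⟩ := h1
  obtain ⟨K2, hK2, e2⟩ := hb.le
  obtain ⟨C, hC, h⟩ := hm.I_mul_le
  obtain ⟨D, hD, h'⟩ := B.prod_b
  refine ⟨C * D * Real.sqrt (K1 * K0) * K2, by positivity, fun n y => ?_⟩
  rw [show a n * b n * y = y * a n * b n by ring]
  refine (h _ _).trans ?_
  have h2 : Real.sqrt (B.nrm 1 (a n) * B.nrm 0 (a n)) ≤ Real.sqrt (K1 * K0) * Real.sqrt (W n) := by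
    rw [← Real.sqrt_mul (mul_nonneg hK1 hK0), mul_right_comm]
    exact Real.sqrt_le_sqrt
      (mul_le_mul (e1 n) (e0 n) (B.nrm_nonneg _ _) ((B.nrm_nonneg _ _).trans (e1 n)))
  have h3 := (h' y (a n)).trans
    (mul_le_mul_of_nonneg_left h2 (mul_nonneg hD.le (B.nrm_nonneg 1 y)))
  have h4 := mul_le_mul h3 (e2 n) (B.nrm_nonneg _ _) ((B.nrm_nonneg _ _).trans h3)
  calc _ = C * (B.nrm 0 (y * a n) * B.nrm 0 (b n)) := by ring
    _ ≤ C * _ := mul_le_mul_of_nonneg_left h4 hC.le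
    _ = _ := by ring
/-- `Q_coer` and `L_Q`: `nrm 1 a ^ 2 ≤ C * K * W * nrm 1 a`. -/
theorem Du.of_L (hm : Pos m) (h1 : Gt0 m.s1) (hW : ∀ n, 0 ≤ W n)
    (h : Du m W fun n => Lc m (a n)) : B.Tm W 1 a := by
  obtain ⟨K, hK, h2⟩ := h
  obtain ⟨C, hC, h3⟩ := hm.Q_coer h1
  refine ⟨C * K, by positivity, fun n => ?_⟩
  have h4 := h3 (a n)
  rw [← hm.L_Q] at h4
  have h5 := h4.trans (mul_le_mul_of_nonneg_left ((le_abs_self _).trans (h2 n (a n))) hC.le)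
  rcases (B.nrm_nonneg 1 (a n)).eq_or_lt with h6 | h6
  · rw [← h6]
    exact mul_nonneg (mul_nonneg hC.le hK) (hW n)
  · refine le_of_mul_le_mul_right ?_ h6
    calc _ = B.nrm 1 (a n) ^ 2 := by ring
      _ ≤ _ := h5
      _ = _ := by ring

end Base

end Pool.Agent.MP_9bd639_gt.H88

end

-- part CF3b
section

/-! Graded classes of families. -/

open Matrix MeasureTheory Filter Topology Set
open scoped ContDiff

namespace Pool.Agent.MP_9bd639_gt.H88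

namespace Base

variable {B : Base} {m : B.Me} {κ : Type} {j k : ℕ} {W W' : κ → ℝ} {a b : κ → B.A}

/-- A graded class of families with the closure properties of Sobolev spaces. -/
structure Gr (C : ℕ → (κ → B.A) → Prop) : Prop where
  add : ∀ {j a b}, C j a → C j b → C j fun n => a n + b n
  const : ∀ j c, C j fun _ => c
  X : ∀ {j a} i, C (j + 1) a → C j fun n => B.F.X i (a n)
  mono : ∀ {j a}, C (j + 1) a → C j a
  mul : ∀ {j k a b}, C (k + 2) a → C j b → j ≤ k + 2 → C j fun n => a n * b n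
  mul11 : ∀ {a b}, C 1 a → C 1 b → C 0 fun n => a n * b n

theorem CF3b_mul11 (ha : B.HB 1 a) (hb : B.Tm W 1 b) : B.Tm W 0 (a * b) :=
  (Tm.mul11 ha hb).weight zero_le_one fun n => by simp

theorem Gr.hb : Gr (κ := κ) B.HB where
  add ha hb := Tm.add ha hb fun _ => zero_le_one
  const := HB.const
  X i ha := Tm.X ha i
  mono ha := Tm.mono ha (Nat.le_succ _)
  mul ha hb h := HB.mul_Tm ha hb h
  mul11 ha hb := CF3b_mul11 ha hb

/-- Bounded at the level `j`, of size `W` at the level `j + 1`. For `mul` use `Tm.succ` and the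
Leibniz rule `X_mul`. -/
theorem Gr.wt (hW : ∀ n, 1 ≤ W n) :
    Gr fun j (a : κ → B.A) => B.HB j a ∧ B.Tm W (j + 1) a := by
  have h0 : ∀ n, 0 ≤ W n := fun n => zero_le_one.trans (hW n)
  refine ⟨fun ha hb => ⟨Gr.hb.add ha.1 hb.1, Tm.add ha.2 hb.2 h0⟩,
    fun j c => ⟨HB.const j c, (HB.const (j + 1) c).Tm hW⟩,
    fun i ha => ⟨Tm.X ha.1 i, Tm.X ha.2 i⟩,
    fun ha => ⟨Gr.hb.mono ha.1, Tm.mono ha.2 (Nat.le_succ _)⟩, ?_,
    fun ha hb => ⟨Gr.hb.mul11 ha.1 hb.1, Tm.mul_HB (k := 0) ha.2 hb.1 one_le_two⟩⟩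
  intro j k a b ha hb h
  have h1 : B.HB j fun n => a n * b n := Gr.hb.mul ha.1 hb.1 h
  refine ⟨h1, Tm.succ (HB.Tm (Tm.mono h1 (Nat.zero_le j)) hW) (fun i => ?_) h0⟩
  simp only [B.F.X_mul]
  exact Tm.add (Tm.mul_HB (Tm.X ha.2 i) hb.1 h) (HB.mul_Tm ha.1 (Tm.X hb.2 i) h) h0

theorem CF3b_res {a : Bool × κ → B.A} (ha : B.HB j a) (t : Bool) : B.HB j fun n => a (t, n) :=
  let ⟨K, h0, hK⟩ := ha
  ⟨K, h0, fun n => hK (t, n)⟩

/-- Pairs of bounded families whose difference is of size `W`;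
`a' b' - a b = a' (b' - b) + (a' - a) b`. -/
theorem Gr.df (hW : ∀ n, 0 ≤ W n) : Gr fun j (a : Bool × κ → B.A) =>
    B.HB j a ∧ B.Tm W j fun n => a (true, n) - a (false, n) := by
  have e : ∀ a b : Bool × κ → B.A,
      (fun n => a (true, n) * b (true, n) - a (false, n) * b (false, n)) =
        ((fun n => a (true, n)) * fun n => b (true, n) - b (false, n)) +
          (fun n => a (true, n) - a (false, n)) * fun n => b (false, n) := by
    intro a b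
    funext n
    simp only [Pi.add_apply, Pi.mul_apply]
    ring
  refine ⟨fun ha hb => ⟨Gr.hb.add ha.1 hb.1, ?_⟩, fun j c => ⟨HB.const j c, ?_⟩,
    fun i ha => ⟨Tm.X ha.1 i, ?_⟩,
    fun ha => ⟨Gr.hb.mono ha.1, Tm.mono ha.2 (Nat.le_succ _)⟩,
    fun ha hb h => ⟨Gr.hb.mul ha.1 hb.1 h, ?_⟩, fun ha hb => ⟨Gr.hb.mul11 ha.1 hb.1, ?_⟩⟩
  · convert Tm.add ha.2 hb.2 hW using 1
    funext n
    simp only [Pi.add_apply]
    ring
  · simp only [sub_self]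
    exact Tm.zero hW j
  · simpa only [map_sub] using Tm.X ha.2 i
  · rw [e]
    exact Tm.add (HB.mul_Tm (CF3b_res ha.1 true) hb.2 h)
      (Tm.mul_HB ha.2 (CF3b_res hb.1 false) h) hW
  · rw [e]
    refine Tm.add (CF3b_mul11 (CF3b_res ha.1 true) hb.2) ?_ hW
    rw [mul_comm]
    exact CF3b_mul11 (CF3b_res hb.1 false) ha.2

namespace Gr

variable {C : ℕ → (κ → B.A) → Prop} (hC : Gr C)
include hC

theorem le (ha : C k a) (h : j ≤ k) : C j a := by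
  induction h with
  | refl => exact ha
  | step _ ih => exact ih (hC.mono ha)
theorem cmul (c : B.A) (ha : C j a) : C j fun n => c * a n :=
  hC.mul (hC.const (j + 2) c) ha (Nat.le_add_right j 2)
theorem mulc (ha : C j a) (c : B.A) : C j fun n => a n * c := by
  simp only [mul_comm _ c]
  exact hC.cmul c ha
theorem smul (r : ℝ) (ha : C j a) : C j fun n => r • a n := by
  simp only [Algebra.smul_def]
  exact hC.cmul _ ha
theorem sub (ha : C j a) (hb : C j b) : C j fun n => a n - b n := by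
  simp only [sub_eq_add_neg, neg_eq_neg_one_mul (b _)]
  exact hC.add ha (hC.cmul _ hb)
theorem sum {σ : Type} (s : Finset σ) {f : σ → κ → B.A} (h : ∀ i ∈ s, C j (f i)) :
    C j fun n => ∑ i ∈ s, f i n := by
  classical
  induction s using Finset.induction_on with
  | empty => exact hC.const j 0
  | insert i s hi ih =>
    simp only [Finset.sum_insert hi]
    exact hC.add (h i (Finset.mem_insert_self i s))
      (ih fun l hl => h l (Finset.mem_insert_of_mem hl))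
/-- `mul11` for `j = 0`, `mul` otherwise. -/
theorem mul' (ha : C (j + 1) a) (hb : C (j + 1) b) : C j fun n => a n * b n := by
  cases j with
  | zero => exact hC.mul11 ha hb
  | succ j => exact hC.mul ha (hC.mono hb) (Nat.le_succ _)
theorem pow (ha : C (k + 2) a) (p : ℕ) : C (k + 2) fun n => a n ^ p := by
  induction p with
  | zero => simpa only [pow_zero] using hC.const (k + 2) 1
  | succ p ih =>
    simp only [pow_succ']
    exact hC.mul ha ih le_rfl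
theorem gam (m : B.Me) (ha : C (j + 2) a) (hb : C (j + 2) b) :
    C j fun n => m.gam (a n) (b n) := by
  simp only [Met.gam, Met.ip1_eq]
  exact hC.sum _ fun i _ => hC.sum _ fun l _ => hC.cmul _ (hC.mul' (hC.X i ha) (hC.X l hb))
theorem gam2 (m : B.Me) (ha : C (k + 3) a) (hb : C (j + 1) b) (h : j ≤ k + 2) :
    C j fun n => m.gam (a n) (b n) := by
  simp only [Met.gam, Met.ip1_eq]
  exact hC.sum _ fun i _ => hC.sum _ fun l _ => hC.cmul _ (hC.mul (hC.X i ha) (hC.X l hb) h)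
theorem hess (m : B.Me) (ha : C (j + 2) a) (i l : Fin B.N) :
    C j fun n => m.hess (a n) i l := by
  simp only [Met.hess_apply]
  exact hC.sub (hC.X i (hC.X l ha)) (hC.sum _ fun r _ => hC.cmul _ (hC.mono (hC.X r ha)))
theorem raise (m : B.Me) {T : κ → B.Mat} (hT : ∀ i l, C j fun n => T n i l) (i l : Fin B.N) :
    C j fun n => (m.γ * T n * m.γ) i l := by
  simp only [Matrix.mul_apply]
  exact hC.sum _ fun r _ => hC.mulc (hC.sum _ fun s _ => hC.cmul _ (hT s r)) _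
theorem ip2 (m : B.Me) {T U : κ → B.Mat} (hT : ∀ i l, C (j + 1) fun n => T n i l)
    (hU : ∀ i l, C (j + 1) fun n => U n i l) : C j fun n => m.ip2 (T n) (U n) := by
  simp only [CF_ip2_eq]
  exact hC.sum _ fun i _ => hC.sum _ fun l _ => hC.mul' (hC.raise m hT i l) (hU i l)
/-- `conf_S`. -/
theorem confS (m : B.Me) {P : κ → Cf B} (hφ : C (j + 2) fun n => (P n).φ)
    (hu : C (j + 2) fun n => (P n).u) (i l : Fin B.N) :
    C j fun n => ((P n).g m).S i l := by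
  have hw := hC.mul hu hu le_rfl
  have hv := hC.mul hφ hφ le_rfl
  have hj : j ≤ j + 2 := Nat.le_add_right j 2
  simp only [Cf.g, Met.conf_S, Matrix.sub_apply, Matrix.add_apply, Matrix.smul_apply,
    smul_eq_mul]
  exact hC.sub (hC.add (hC.const j _) (hC.mul hv (hC.hess m hw i l) hj))
    (hC.mulc (hC.mul (hC.cmul _ (hC.pow hv 2)) (hC.gam m hw hw) hj) _)

end Gr

end Base

end Pool.Agent.MP_9bd639_gt.H88

end

-- part CF4
section

/-! A priori estimates on the superlevel set of the functional. -/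

open Matrix MeasureTheory Filter Topology Set
open scoped ContDiff

namespace Pool.Agent.MP_9bd639_gt.H88

namespace Base

namespace Cf

variable {B : Base} {m : B.Me} {P : Cf B} {Λ Λ' d ε l F0 : ℝ}

theorem Bx.mono (h : P.Bx m Λ) (hΛ : Λ ≤ Λ') : P.Bx m Λ' := by
  have h0 : 0 < Λ := lt_of_lt_of_le one_pos h.one
  have hi : Λ'⁻¹ ≤ Λ⁻¹ := inv_anti₀ h0 hΛ
  exact ⟨h.one.trans hΛ, fun x => hi.trans (h.lo x), fun x => (h.hi x).trans hΛ, h.h0.trans hΛ,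
    h.hpos, hi.trans h.Alo, h.Ahi.trans hΛ⟩

theorem CF4_u_le (hΛ : 0 < Λ) (h : ∀ x, Λ⁻¹ ≤ P.φ.1 x) (x : B.M) : P.u.1 x ≤ Λ := by
  rw [P.u_val]
  exact inv_le_of_inv_le₀ hΛ (h x)

theorem CF4_A_pos (hm : Pos m) (h : Gt0 (P.h m)) : 0 < P.Aq m := by
  rw [← P.A_eq hm]
  exact (P.g_pos hm).I_pos (P.s1_pos h)

theorem CF4_pt {s f u : ℝ} (hs : 1 ≤ s) (hf : 0 < f) (hu : u * f = 1) :
    1 ≤ s * f + s⁻¹ * u ^ 2 * s⁻¹ := by
  have s0 : 0 < s := lt_of_lt_of_le one_pos hs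
  have t0 : 0 < s * f := mul_pos s0 hf
  have e : (s * f) * (s⁻¹ * u) = 1 := by
    rw [show (s * f) * (s⁻¹ * u) = (s * s⁻¹) * (u * f) by ring, mul_inv_cancel₀ s0.ne', hu,
      one_mul]
  rw [show s⁻¹ * u ^ 2 * s⁻¹ = (s⁻¹ * u) ^ 2 by ring]
  generalize s * f = t at t0 e
  generalize s⁻¹ * u = r at e
  rcases le_total 1 t with h | h
  · nlinarith [sq_nonneg r]
  · have r0 : 0 < r := (mul_pos_iff_of_pos_left t0).1 (e ▸ one_pos)
    have r1 : 1 ≤ r := by nlinarith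
    nlinarith

/-- A bound for the integral of `u ^ 2` bounds the integral of `φ` from below. -/
theorem CF4_low (hm : Pos m) {W : ℝ} (hW : 0 ≤ W) :
    ∃ a, 0 < a ∧ ∀ P : Cf B, P.Wq m ≤ W → a ≤ I m P.φ := by
  have V0 : 0 < I m 1 := hm.I_pos fun _ => one_pos
  obtain ⟨s, hs1, hs2⟩ : ∃ s : ℝ, 1 ≤ s ∧ 2 * W ≤ I m 1 * s := by
    refine ⟨2 * W / I m 1 + 1, le_add_of_nonneg_left (by positivity), ?_⟩
    rw [mul_add, mul_div_cancel₀ _ V0.ne']
    linarith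
  have s0 : 0 < s := lt_of_lt_of_le one_pos hs1
  refine ⟨I m 1 / (2 * s), by positivity, fun P hP => ?_⟩
  have h1 : I m 1 ≤ I m (s • P.φ + (s⁻¹ * s⁻¹) • P.u ^ 2) := I_mono m fun x => by
    have := CF4_pt hs1 (P.pos x) (P.hx x)
    change (1 : ℝ) ≤ s * P.φ.1 x + s⁻¹ * s⁻¹ * P.u.1 x ^ 2
    linarith
  rw [I_add, I_smul, I_smul] at h1
  have si : s⁻¹ ≤ 1 := inv_le_one_of_one_le₀ hs1
  have si0 : 0 < s⁻¹ := inv_pos.2 s0
  have h2 : s⁻¹ * W ≤ I m 1 / 2 := by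
    rw [inv_mul_le_iff₀ s0]
    linarith
  have h3 : s⁻¹ * s⁻¹ * I m (P.u ^ 2) ≤ s⁻¹ * W := by
    rw [mul_assoc]
    refine mul_le_mul_of_nonneg_left ?_ si0.le
    exact (mul_le_of_le_one_left P.W_nonneg si).trans hP
  rw [div_le_iff₀ (by positivity)]
  linarith

/-- Bounds that do not depend on `d`. With `J ≤ C` (`Good.univ` for `P.g m`, `A_eq`):
`Bq ≥ F0 + d Nq + ε Wq + l / (2 Aq ^ 2)`, all terms nonnegative, `Aq > 0`, `Aq * Bq ≤ C`. So
`Aq ≤ C / F0`, `l / (2 C) ≤ Aq`, `Bq ≤ 2 C ^ 2 / l`. For the lower bound of `φ` integrate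
`1 ≤ 2 / 3 * (s * φ) + u ^ 2 / (3 * s ^ 2)` with `s` so large that `Wq / (3 s ^ 2) ≤ I 1 / 2`;
then `Pos.harnack` with `V = m.s1`. -/
theorem apriori1 (hB : B.Good) (hm : Pos m) (hε : 0 < ε) (hl : 0 < l) (hF : 0 < F0) :
    ∃ Λ, 1 ≤ Λ ∧ ∀ (d : ℝ) (P : Cf B), 0 ≤ d → Gt0 (P.h m) → F0 ≤ P.Ft m d ε l →
      (∀ x, Λ⁻¹ ≤ P.φ.1 x) ∧ Λ⁻¹ ≤ P.Aq m ∧ P.Aq m ≤ Λ ∧ F0 ≤ P.Bq m ∧ P.Bq m ≤ Λ ∧
        d * P.Nq m ≤ Λ ∧ P.Wq m ≤ Λ := by
  obtain ⟨C, hC, hJ⟩ := hB.univ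
  obtain ⟨α, hα, hH⟩ := hm.harnack hB m.s1
  obtain ⟨a, ha, hL⟩ := CF4_low hm (W := 2 * C ^ 2 / l / ε) (by positivity)
  have q1 : 0 < (α * a)⁻¹ := by positivity
  have q2 : 0 < (l / (2 * C))⁻¹ := by positivity
  have q3 : 0 < C / F0 := by positivity
  have q4 : 0 < 2 * C ^ 2 / l := by positivity
  have q5 : 0 < 2 * C ^ 2 / l / ε := by positivity
  refine ⟨1 + (α * a)⁻¹ + (l / (2 * C))⁻¹ + C / F0 + 2 * C ^ 2 / l + 2 * C ^ 2 / l / ε,
    by linarith, fun d P hd hP hF' => ?_⟩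
  have A0 : 0 < P.Aq m := CF4_A_pos hm hP
  have hAB : P.Aq m * P.Bq m ≤ C := by
    have := (hJ _ (P.g_pos hm) (P.s1_pos hP)).1
    rwa [J, P.A_eq hm] at this
  have n1 : 0 ≤ d * P.Nq m := mul_nonneg hd P.N_nonneg
  have n2 : 0 ≤ ε * P.Wq m := mul_nonneg hε.le P.W_nonneg
  have n3 : 0 < l / (2 * P.Aq m ^ 2) := by positivity
  rw [Ft] at hF'
  have b1 : F0 ≤ P.Bq m := by linarith
  have b2 : P.Aq m ≤ C / F0 := by
    rw [le_div_iff₀ hF]
    exact (mul_le_mul_of_nonneg_left b1 A0.le).trans hAB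
  have b3 : l / (2 * C) ≤ P.Aq m := by
    have h1 : l / (2 * P.Aq m ^ 2) ≤ P.Bq m := by linarith
    rw [div_le_iff₀ (by positivity)] at h1 ⊢
    nlinarith [mul_le_mul_of_nonneg_left hAB A0.le]
  have b4 : P.Bq m ≤ 2 * C ^ 2 / l := by
    have h1 := (mul_le_mul_of_nonneg_right b3 (hF.le.trans b1)).trans hAB
    rw [div_mul_eq_mul_div, div_le_iff₀ (by positivity)] at h1
    rw [le_div_iff₀ hl]
    linarith
  have b5 : P.Wq m ≤ 2 * C ^ 2 / l / ε := by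
    rw [le_div_iff₀ hε]
    linarith
  refine ⟨fun x => ?_, le_trans (inv_le_of_inv_le₀ (by positivity) (by linarith)) b3,
    by linarith, b1, by linarith, by linarith, by linarith⟩
  have h1 := hH P.φ (fun x => (P.pos x).le) (fun x => (hP x).le) x
  refine le_trans (inv_le_of_inv_le₀ (mul_pos hα ha) (by linarith)) (le_trans ?_ h1)
  exact mul_le_mul_of_nonneg_left (hL P b5) hα.le

/-- `A_Q`, `Q_coer`, `Pos.nrm1`, `Pos.sob6`. -/
theorem vol_le (hm : Pos m) (h1 : Gt0 m.s1) :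
    ∃ C, 0 < C ∧ ∀ P : Cf B, I m (P.φ ^ 6) ≤ C * P.Aq m ^ 3 := by
  obtain ⟨C₁, hC₁, a1⟩ := hm.sob6
  obtain ⟨C₂, hC₂, a2⟩ := hm.nrm1
  obtain ⟨C₃, hC₃, a3⟩ := hm.Q_coer h1
  refine ⟨(C₁ * (C₂ * C₃)) ^ 3, by positivity, fun P => ?_⟩
  have n0 : 0 ≤ I m (P.φ ^ 6) := I_nonneg m fun x => (pow_pos (P.pos x) 6).le
  have b : I m (P.φ ^ 6) ^ (1 / 3 : ℝ) ≤ C₁ * (C₂ * C₃) * P.Aq m := by
    rw [P.A_Q hm, mul_assoc, mul_assoc]
    exact (a1 P.φ).trans (mul_le_mul_of_nonneg_left ((a2 P.φ).2.trans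
      (mul_le_mul_of_nonneg_left (a3 P.φ) hC₂.le)) hC₁.le)
  have c := pow_le_pow_left₀ (Real.rpow_nonneg n0 _) b 3
  rw [← Real.rpow_natCast, ← Real.rpow_mul n0, mul_pow] at c
  norm_num at c
  exact c

/-- `CF_Y` and `CF_upper` for `w = u * u`, `v = φ * φ`; `I g p2 = Nq - 2 Bq ≤ Λ / d`
(`Met.p2_eq`, `N_eq`); `vol_le`. Then `h ^ 2 = (h ^ 2 * u ^ 4) * φ ^ 4` and `Pos.nrm0`. -/
theorem apriori2 (hB : B.Good) (hm : Pos m) (h1 : Gt0 m.s1) (hd : 0 < d) (hε : 0 < ε)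
    (hl : 0 < l) (hF : 0 < F0) :
    ∃ Λ, ∀ P : Cf B, Gt0 (P.h m) → F0 ≤ P.Ft m d ε l → P.Bx m Λ := by
  obtain ⟨Λ, hΛ, a1⟩ := apriori1 hB hm hε hl hF
  obtain ⟨Cv, hCv, a2⟩ := vol_le hm h1
  obtain ⟨CY, hCY, a3⟩ := hm.CF_Y
  obtain ⟨b, hb, a4⟩ := hm.CF_upper (CY * (Λ / d + Λ) + Cv * Λ ^ 3)
  obtain ⟨C₀, hC₀, a5⟩ := hm.nrm0
  have L0 : 0 < Λ := lt_of_lt_of_le one_pos hΛ
  have q1 : 0 < CY * (Λ / d + Λ) := by positivity
  have q2 : 0 < Cv * Λ ^ 3 := by positivity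
  have q3 : 0 < C₀ * (b ^ 2 * (Λ / d)) := by positivity
  refine ⟨Λ + (b + 1) + (C₀ * (b ^ 2 * (Λ / d)) + 1), fun P hP hF' => ?_⟩
  obtain ⟨b1, b2, b3, b4, -, b6, b7⟩ := a1 d P hd.le hP hF'
  have hN : P.Nq m ≤ Λ / d := by
    rw [le_div_iff₀ hd]
    linarith
  have hp2 : I (P.g m) (P.g m).p2 ≤ Λ / d := by
    rw [Met.p2_eq, I_sub, I_ofNat_mul, P.N_eq hm]
    have : F0 ≤ I (P.g m) (P.g m).s2 := b4
    linarith
  have hW : I m (P.u * P.u) ≤ Λ := by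
    rw [← sq]
    exact b7
  have hY := (a3 (P.u * P.u) (P.φ * P.φ) P.h2 P.pos2 fun x => (P.s1_pos hP x).le).trans
    (mul_le_mul_of_nonneg_left (add_le_add hp2 hW) hCY.le)
  have hV : I m ((P.φ * P.φ) ^ 3) ≤ Cv * Λ ^ 3 := by
    rw [show (P.φ * P.φ) ^ 3 = P.φ ^ 6 by ring]
    exact (a2 P).trans (mul_le_mul_of_nonneg_left
      (pow_le_pow_left₀ (CF4_A_pos hm hP).le b3 3) hCv.le)
  have hb' : ∀ x, P.φ.1 x * P.φ.1 x ≤ b :=
    a4 (P.u * P.u) (P.φ * P.φ) P.h2 P.pos2 (by linarith) (by linarith)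
  have hh : I m (P.h m ^ 2) ≤ b ^ 2 * (Λ / d) := by
    refine le_trans ?_ (mul_le_mul_of_nonneg_left hN (sq_nonneg b))
    rw [Nq, ← I_smul]
    refine I_mono m fun x => ?_
    change (P.h m).1 x ^ 2 ≤ b ^ 2 * ((P.h m).1 x ^ 2 * P.u.1 x ^ 4)
    have e : (P.h m).1 x ^ 2 =
        (P.φ.1 x * P.φ.1 x) ^ 2 * ((P.h m).1 x ^ 2 * P.u.1 x ^ 4) := by
      rw [show (P.φ.1 x * P.φ.1 x) ^ 2 * ((P.h m).1 x ^ 2 * P.u.1 x ^ 4) =
        (P.u.1 x * P.φ.1 x) ^ 4 * (P.h m).1 x ^ 2 by ring, P.hx x, one_pow, one_mul]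
    refine e.trans_le (mul_le_mul_of_nonneg_right
      (pow_le_pow_left₀ (mul_self_nonneg _) (hb' x) 2) (by positivity))
  have hn := (a5 (P.h m)).1.trans (mul_le_mul_of_nonneg_left hh hC₀.le)
  have hi : (Λ + (b + 1) + (C₀ * (b ^ 2 * (Λ / d)) + 1))⁻¹ ≤ Λ⁻¹ := inv_anti₀ L0 (by linarith)
  refine ⟨by linarith, fun x => hi.trans (b1 x), fun x => ?_, ?_, hP, hi.trans b2, by linarith⟩
  · nlinarith [hb' x, sq_nonneg (P.φ.1 x - 1)]
  · nlinarith [sq_nonneg (B.nrm 0 (P.h m) - 1)]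

/-- `conf_cc` with `Pos.KN`, `I_g`. -/
theorem cc_le (hm : Pos m) (hΛ : 0 < Λ) (h : ∀ x, Λ⁻¹ ≤ P.φ.1 x) :
    I (P.g m) (P.g m).cc ≤ Λ ^ 6 * I m m.cc := by
  have e : (P.g m).cc * P.φ ^ 6 = P.u ^ 6 * m.cc := by
    have h6 : P.u ^ 6 * P.φ ^ 6 = 1 := by rw [← mul_pow, P.hu, one_pow]
    rw [g, m.conf_cc P.h2 hm.KN]
    linear_combination (P.u ^ 6 * m.cc) * h6
  rw [P.I_g hm, e, ← I_smul]
  refine I_mono m fun x => ?_
  change P.u.1 x ^ 6 * m.cc.1 x ≤ Λ ^ 6 * m.cc.1 x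
  exact mul_le_mul_of_nonneg_right (pow_le_pow_left₀ (P.u_pos x).le (CF4_u_le hΛ h x) 6)
    (hm.ip3_nonneg _ x)

theorem CF4_gam (m : B.Me) (P : Cf B) (c : B.A) :
    m.gam (P.u ^ 4) c = -(4 * P.u ^ 5 * m.gam P.φ c) := by
  have e0 : m.gam (P.u * P.φ) c = 0 := by
    rw [P.hu, ← map_one (algebraMap ℝ B.A), m.gam_const]
  rw [m.gam_mul] at e0
  rw [show P.u ^ 4 = P.u * (P.u * (P.u * P.u)) by ring, m.gam_mul, m.gam_mul, m.gam_mul]
  linear_combination (4 * P.u ^ 4) * e0 - (4 * P.u ^ 3 * m.gam P.u c) * P.hu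

/-- `conf_gam`, `gam_mul`, `X_inv`: the integrand is `16 * u ^ 8 * gam φ φ`, and
`2 * I (gam φ φ) ≤ Aq` by `A_Q`. -/
theorem gam_le (hm : Pos m) (h1 : Gt0 m.s1) (hΛ : 0 < Λ) (h : ∀ x, Λ⁻¹ ≤ P.φ.1 x) :
    I (P.g m) ((P.g m).gam (P.u ^ 4) (P.u ^ 4)) ≤ 8 * Λ ^ 8 * P.Aq m := by
  have e : (P.g m).gam (P.u ^ 4) (P.u ^ 4) * P.φ ^ 6 = (16 : ℝ) • (P.u ^ 8 * m.gam P.φ P.φ) := by
    have h6 : P.u ^ 6 * P.φ ^ 6 = 1 := by rw [← mul_pow, P.hu, one_pow]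
    rw [g, m.conf_gam P.h2, CF4_gam, m.gam_comm, CF4_gam, Algebra.smul_def, map_ofNat]
    linear_combination (16 * P.u ^ 8 * m.gam P.φ P.φ) * h6
  rw [P.I_g hm, e, P.A_Q hm, Q, ← I_smul]
  refine I_mono m fun x => ?_
  change 16 * (P.u.1 x ^ 8 * (m.gam P.φ P.φ).1 x) ≤ 8 * Λ ^ 8 *
    ((2 : B.A).1 x * (m.gam P.φ P.φ).1 x + m.s1.1 x * P.φ.1 x ^ 2)
  rw [ofNat_val]
  have a1 := mul_le_mul_of_nonneg_right
    (pow_le_pow_left₀ (P.u_pos x).le (CF4_u_le hΛ h x) 8) (hm.gam_nonneg P.φ x)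
  have a2 : 0 ≤ Λ ^ 8 * (m.s1.1 x * P.φ.1 x ^ 2) :=
    mul_nonneg (by positivity) (mul_nonneg (h1 x).le (sq_nonneg _))
  linarith

end Cf

end Base

end Pool.Agent.MP_9bd639_gt.H88

end
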