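import Pool.Agent.MP_9bd639_gt.G.Cf1

-- part CF5
section

/-! Sobolev bounds of the target. Each statement `∃ K, ∀ data, hypotheses → bound` follows from a
statement about the family indexed by the subtype of all data that satisfy the hypotheses. -/

open Matrix MeasureTheory Filter Topology Set
open scoped ContDiff

namespace Pool.Agent.MP_9bd639_gt.H88

namespace Base

namespace Cf

variable {B : Base} {m : B.Me} {d ε Λ C0 : ℝ} {κ : Type} {P : κ → Cf B} {c ν : κ → ℝ} {j : ℕ}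

theorem CF5_Lv {P : Cf B} {c ν : ℝ} (hd : 0 < d) (t : P.Tg m d ε c ν) :
    Lc m t.v = d⁻¹ • P.GG m d ε c := by
  rw [← t.hv, smul_smul, inv_mul_cancel₀ hd.ne', one_smul]

/-- `Tm.of_L` and `HB.inv`. -/
theorem fam_φ (hm : Pos m) (h1 : Gt0 m.s1) (hP : ∀ n, (P n).Bx m Λ)
    (hh : B.HB j fun n => (P n).h m) :
    B.HB (j + 2) (fun n => (P n).φ) ∧ B.HB (j + 2) fun n => (P n).u := by
  have h : B.HB (j + 2) fun n => (P n).φ := Tm.of_L hm h1 hh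
  refine ⟨h, h.inv (τ := (max Λ 1)⁻¹) (by positivity) (fun n x => ?_) fun n => (P n).hu⟩
  rw [max_eq_left (hP n).one]
  exact (hP n).lo x

/-- `s2_eq`, `Gr.hb`, `Gr.confS`, `Gr.ip2`, `Gr.mul'`. -/
theorem fam_s2 (hm : Pos m) (h1 : Gt0 m.s1) (hP : ∀ n, (P n).Bx m Λ)
    (hh : B.HB (j + 1) fun n => (P n).h m) : B.HB j fun n => ((P n).g m).s2 := by
  obtain ⟨a, b⟩ := fam_φ hm h1 hP hh
  have hS := Gr.hb.confS m (j := j + 1) a b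
  simp only [s2_eq]
  exact Gr.hb.cmul _ (Gr.hb.sub (Gr.hb.mul (Gr.hb.pow b 10) (Gr.hb.mul' hh hh) (by omega))
    (Gr.hb.mul (Gr.hb.pow b 8) (Gr.hb.ip2 m hS hS) (by omega)))

theorem fam_GG (hm : Pos m) (h1 : Gt0 m.s1) (hP : ∀ n, (P n).Bx m Λ) (hc : ∀ n, |c n| ≤ C0)
    (hh : B.HB (j + 1) fun n => (P n).h m) : B.HB j fun n => (P n).GG m d ε (c n) := by
  obtain ⟨a, b⟩ := fam_φ hm h1 hP hh
  have e : ∀ n, (P n).GG m d ε (c n) = c n • (P n).h m +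
      (2 * d) • ((P n).u ^ 5 * ((P n).h m * (P n).h m)) - (P n).φ ^ 5 * ((P n).g m).s2 +
      ε • (P n).u ^ 3 := fun n => by
    rw [GG, sq, mul_comm _ ((P n).u ^ 5), mul_comm _ ((P n).φ ^ 5)]
  simp only [e]
  exact Gr.hb.add (Gr.hb.sub (Gr.hb.add (Tm.rsmul (Gr.hb.mono hh) hc)
    (Gr.hb.smul _ (Gr.hb.mul (Gr.hb.pow b 5) (Gr.hb.mul' hh hh) (by omega))))
    (Gr.hb.mul (Gr.hb.pow a 5) (fam_s2 hm h1 hP hh) (by omega)))
    (Gr.hb.smul _ (Gr.hb.le (Gr.hb.pow b 3) (by omega)))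

theorem fam_v (hm : Pos m) (h1 : Gt0 m.s1) (hd : 0 < d) (hP : ∀ n, (P n).Bx m Λ)
    (hc : ∀ n, |c n| ≤ C0) (hh : B.HB (j + 1) fun n => (P n).h m)
    (t : ∀ n, (P n).Tg m d ε (c n) (ν n)) : B.HB (j + 2) fun n => (t n).v := by
  refine Tm.of_L hm h1 ?_
  simp only [fun n => CF5_Lv hd (t n)]
  exact Gr.hb.smul _ (fam_GG hm h1 hP hc hh)

/-- `HB.sqrt` for `D`. -/
theorem fam_T (hm : Pos m) (h1 : Gt0 m.s1) (hd : 0 < d) (hP : ∀ n, (P n).Bx m Λ)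
    (hc : ∀ n, |c n| ≤ C0) (hν : ∀ n, |ν n| ≤ 1) (hh : B.HB (j + 1) fun n => (P n).h m)
    (t : ∀ n, (P n).Tg m d ε (c n) (ν n)) {τ : ℝ} (hτ : 0 < τ) (hD : ∀ n x, τ ≤ (t n).D.1 x) :
    B.HB (j + 2) fun n => (t n).T := by
  obtain ⟨a, b⟩ := fam_φ hm h1 hP hh
  have y := Gr.hb.sub (fam_v hm h1 hd hP hc hh t) (HB.cst hν (j + 2))
  have z : B.HB (j + 2) fun n => (4 * ν n) • ((P n).u ^ 2) ^ 2 :=
    Tm.rsmul (Gr.hb.pow (Gr.hb.pow (Gr.hb.mono b) 2) 2) (K := 4) fun n => by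
      rw [abs_mul, abs_of_pos four_pos]
      linarith [hν n]
  have hD' := HB.sqrt (Gr.hb.add (Gr.hb.pow y 2) z) hτ hD fun n => (t n).hD
  exact Gr.hb.mul (Gr.hb.pow (Gr.hb.mono a) 4) (Gr.hb.cmul _ (Gr.hb.add y hD')) le_rfl

/-- Use `Gr.wt` with `W n = 1 + nrm 1 h`: `φ` is in the class of level two by `Tm.of_L`, and `u`
because `X u = - u ^ 2 * X φ` (`Met.X_inv`, `Tm.succ`). So `h` and the entries of `γ S γ` are in
the class of level zero (`confS`, `raise`). Expand `GG` with `s2_eq`, `CF_ip2_eq` and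
`u ^ p * φ ^ 5` (bounded in `H ^ 2`), use `Du.mul`, `Tm.Du` (`1 ≤ sqrt W`). -/
theorem fam_GG1 (hm : Pos m) (h1 : Gt0 m.s1) (hP : ∀ n, (P n).Bx m Λ) (hc : ∀ n, |c n| ≤ C0) :
    Du m (fun n => Real.sqrt (1 + B.nrm 1 ((P n).h m))) fun n => (P n).GG m d ε (c n) := by
  have hW : ∀ n, 1 ≤ 1 + B.nrm 1 ((P n).h m) := fun n => le_add_of_nonneg_right (B.nrm_nonneg _ _)
  have hV : ∀ n, 1 ≤ Real.sqrt (1 + B.nrm 1 ((P n).h m)) := fun n => Real.one_le_sqrt.2 (hW n)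
  have h0 : B.HB 0 fun n => (P n).h m := HB.of_le fun n => (hP n).h0
  have h2 : B.Tm (fun n => 1 + B.nrm 1 ((P n).h m)) 1 fun n => (P n).h m :=
    ⟨1, zero_le_one, fun n => by linarith⟩
  obtain ⟨a, b⟩ := fam_φ hm h1 hP h0
  have a' : B.Tm (fun n => 1 + B.nrm 1 ((P n).h m)) 3 fun n => (P n).φ := Tm.of_L hm h1 h2
  have b' : B.Tm (fun n => 1 + B.nrm 1 ((P n).h m)) 3 fun n => (P n).u := by
    refine Tm.succ ((b.Tm hW).mono (by omega)) (fun i => ?_) fun n => zero_le_one.trans (hW n)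
    simp only [fun n => Met.X_inv (F := B.F) ((mul_comm _ _).trans (P n).hu) i]
    exact ((Gr.hb.pow b 2).mul_Tm (a'.X i) le_rfl).neg
  have hS := (Gr.wt hW).confS m (j := 0) (P := P) ⟨a, a'⟩ ⟨b, b'⟩
  have hR := (Gr.wt hW).raise m hS
  have e : ∀ n, (P n).GG m d ε (c n) = c n • (P n).h m +
      (2 * d) • ((P n).h m * ((P n).u ^ 5 * (P n).h m)) - (1 / 2 : ℝ) •
      ((P n).h m * ((P n).u ^ 10 * (P n).φ ^ 5 * (P n).h m) - ∑ i, ∑ l,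
        (m.γ * ((P n).g m).S * m.γ) i l * ((P n).u ^ 8 * (P n).φ ^ 5 * ((P n).g m).S i l)) +
      ε • (P n).u ^ 3 := fun n => by
    simp only [mul_left_comm _ ((P n).u ^ 8 * (P n).φ ^ 5), ← Finset.mul_sum]
    rw [GG, s2_eq, ← CF_ip2_eq, hf]
    simp only [Algebra.smul_def]
    ring
  simp only [e]
  have q : ∀ p, B.HB 2 fun n => (P n).u ^ p * (P n).φ ^ 5 := fun p =>
    Gr.hb.mul (Gr.hb.pow b p) (Gr.hb.pow a 5) le_rfl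
  exact (((Tm.rsmul (h0.Tm hV) hc).Du hm).add
    ((Du.mul hm h0 h2 (Gr.hb.mul (Gr.hb.pow b 5) h0 (by omega))).smul _)).sub
    (((Du.mul hm h0 h2 (Gr.hb.mul (q 10) h0 (by omega))).sub (Du.sum _ fun i _ => Du.sum _
      fun l _ => Du.mul hm (hR i l).1 (hR i l).2 (Gr.hb.mul (q 8) (hS i l).1 (by omega)))).smul _)
    |>.add ((((Gr.hb.smul ε (Gr.hb.pow b 3)).Tm hV).mono (by omega)).Du hm)

/-- `Du.of_L` gives the bound of `v` and `y = v - ν`. With the inverse `e` of `D`, `z = u ^ 2`,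
`α = y * e`, `β = (4 ν) • (z * e)` one has `|α| ≤ 1`, `|β| ≤ 2` (`Tg.root`), `D = α y + β z` and
`X D = α X y + β X z` (differentiate `hD`); `UB.mul_Tm`, `Tm.succ`, `HB.mul_Tm`. -/
theorem fam_T1 (hm : Pos m) (h1 : Gt0 m.s1) (hd : 0 < d) (hP : ∀ n, (P n).Bx m Λ)
    (hc : ∀ n, |c n| ≤ C0) (hν : ∀ n, 0 < ν n ∧ ν n ≤ 1) (t : ∀ n, (P n).Tg m d ε (c n) (ν n)) :
    B.Tm (fun n => Real.sqrt (1 + B.nrm 1 ((P n).h m))) 1 fun n => (t n).T := by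
  obtain ⟨V, hV⟩ : ∃ V : κ → ℝ, V = fun n => Real.sqrt (1 + B.nrm 1 ((P n).h m)) := ⟨_, rfl⟩
  have V1 : ∀ n, 1 ≤ V n := fun n => by
    rw [hV]
    exact Real.one_le_sqrt.2 (le_add_of_nonneg_right (B.nrm_nonneg _ _))
  have V0 : ∀ n, 0 ≤ V n := fun n => zero_le_one.trans (V1 n)
  have hG := fam_GG1 (d := d) (ε := ε) hm h1 hP hc
  rw [← hV] at hG ⊢
  obtain ⟨a, b⟩ := fam_φ (j := 0) hm h1 hP (HB.of_le fun n => (hP n).h0)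
  have v : B.Tm V 1 fun n => (t n).v := Du.of_L hm h1 V0 (by
    simp only [fun n => CF5_Lv hd (t n)]
    exact hG.smul _)
  have y : B.Tm V 1 fun n => (t n).v - B.cst (ν n) :=
    v.sub ((HB.cst (K := 1) (fun n => abs_le.2 ⟨by linarith [(hν n).1], (hν n).2⟩) 1).Tm V1)
  have z : B.Tm V 1 fun n => (P n).u ^ 2 := ((Gr.hb.pow b 2).Tm V1).mono (by omega)
  choose e he using fun n => exists_inv fun x => ((t n).D_pos x).ne'
  have ex : ∀ n x, (e n).1 x = ((t n).D.1 x)⁻¹ := fun n x =>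
    eq_inv_of_mul_eq_one_right (congrFun (congrArg Subtype.val (he n)) x)
  have α : B.UB 0 fun n => ((t n).v - B.cst (ν n)) * e n := UB.of_le (K := 1) fun n x => by
    change |((t n).v.1 x - ν n) * (e n).1 x| ≤ 1
    rw [ex, abs_mul, abs_inv, abs_of_pos ((t n).D_pos x), ← div_eq_mul_inv,
      div_le_one ((t n).D_pos x)]
    exact ((t n).root (hν n).1 (hν n).2 x).2.2.2.1
  have β : B.UB 0 fun n => B.cst (4 * ν n) * ((P n).u ^ 2 * e n) :=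
    UB.of_le (K := 2) fun n x => by
      change |4 * ν n * ((P n).u.1 x ^ 2 * (e n).1 x)| ≤ 2
      have := (hν n).1
      have := (t n).D_pos x
      rw [ex, abs_of_nonneg (by positivity), ← mul_assoc, ← div_eq_mul_inv, div_le_iff₀ this]
      linarith [((t n).root (hν n).1 (hν n).2 x).2.2.2.2.2]
  have hD : ∀ n, (t n).D * (t n).D = ((t n).v - B.cst (ν n)) * ((t n).v - B.cst (ν n)) +
      B.cst (4 * ν n) * ((P n).u ^ 2 * (P n).u ^ 2) := fun n => by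
    rw [(t n).hD, Algebra.smul_def, sq, sq ((P n).u ^ 2)]
    rfl
  have D : B.Tm V 1 fun n => (t n).D := by
    refine Tm.succ ?_ (fun i => ?_) V0
    · have := (α.mul_Tm (y.mono zero_le_one)).add (β.mul_Tm (z.mono zero_le_one)) V0
      convert this using 1
      funext n
      simp only [Pi.add_apply, Pi.mul_apply]
      linear_combination e n * hD n - (t n).D * he n
    · have := (α.mul_Tm (y.X i)).add (β.mul_Tm (z.X i)) V0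
      convert this using 1
      funext n
      simp only [Pi.add_apply, Pi.mul_apply]
      have h := congrArg (B.F.X i) (hD n)
      have h0 : B.F.X i (B.cst (4 * ν n)) = 0 := Derivation.map_algebraMap _ _
      generalize (t n).v - B.cst (ν n) = y, (P n).u ^ 2 = z, B.cst (4 * ν n) = w at h h0 ⊢
      simp only [map_add, B.F.X_mul, h0] at h
      have h2 := two_hf (A := B.A)
      linear_combination hf B.A * e n * h - 2 * hf B.A * B.F.X i (t n).D * he n +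
        (y * e n * B.F.X i y + w * (z * e n) * B.F.X i z - B.F.X i (t n).D) * h2
  exact (Gr.hb.pow a 4).mul_Tm ((HB.const 2 (hf B.A)).mul_Tm (y.add D V0) (by omega)) (by omega)

/-- `fam_T1` gives `nrm 1 T ≤ K * sqrt (1 + nrm 1 h)`; take `R ≥ max R0 (K ^ 2 + 1)`. -/
theorem Tg.H1 (hm : Pos m) (h1 : Gt0 m.s1) (hd : 0 < d) (ε Λ C0 R0 : ℝ) : ∃ R, R0 ≤ R ∧
    ∀ (P : Cf B) (c ν : ℝ) (t : P.Tg m d ε c ν), P.Bx m Λ → |c| ≤ C0 → 0 < ν → ν ≤ 1 →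
      B.nrm 1 (P.h m) ≤ R → B.nrm 1 t.T ≤ R := by
  obtain ⟨K, K0, hK⟩ := fam_T1 (κ := {p : Σ (P : Cf B) (c ν : ℝ), P.Tg m d ε c ν //
      p.1.Bx m Λ ∧ |p.2.1| ≤ C0 ∧ 0 < p.2.2.1 ∧ p.2.2.1 ≤ 1}) hm h1 hd (fun n => n.2.1)
    (fun n => n.2.2.1) (fun n => n.2.2.2) fun n => n.1.2.2.2
  refine ⟨max R0 (K ^ 2 + 1), le_max_left _ _, fun P c ν t a1 a2 a3 a4 a5 =>
    (hK ⟨⟨P, c, ν, t⟩, a1, a2, a3, a4⟩).trans ?_⟩
  have h := le_max_right R0 (K ^ 2 + 1)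
  generalize max R0 (K ^ 2 + 1) = R at *
  have h0 := B.nrm_nonneg 1 (P.h m)
  refine abs_le_of_sq_le_sq' ?_ (by nlinarith) |>.2
  rw [mul_pow, Real.sq_sqrt (by positivity)]
  change K ^ 2 * (1 + B.nrm 1 (P.h m)) ≤ R ^ 2
  nlinarith [mul_le_mul_of_nonneg_left a5 (sq_nonneg K)]

/-- `fam_T` with `τ = 2 ν / Λ ^ 2` (`Tg.root`, `Bx.le_u`). -/
theorem Tg.Hk (hm : Pos m) (h1 : Gt0 m.s1) (hd : 0 < d) (ε Λ C0 R R0 : ℝ) (j : ℕ) {ν : ℝ}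
    (h0 : 0 < ν) (hν : ν ≤ 1) : ∃ K, R0 ≤ K ∧
    ∀ (P : Cf B) (c : ℝ) (t : P.Tg m d ε c ν), P.Bx m Λ → |c| ≤ C0 →
      B.nrm (j + 1) (P.h m) ≤ R → B.nrm (j + 2) t.T ≤ K := by
  obtain ⟨K, -, hK⟩ := (fam_T (κ := {p : Σ (P : Cf B) (c : ℝ), P.Tg m d ε c ν //
      p.1.Bx m Λ ∧ |p.2.1| ≤ C0 ∧ B.nrm (j + 1) (p.1.h m) ≤ R}) (ν := fun _ => ν) hm h1 hd
    (fun n => n.2.1) (fun n => n.2.2.1) (fun _ => abs_le.2 ⟨by linarith, hν⟩)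
    (HB.of_le fun n => n.2.2.2) (fun n => n.1.2.2) (τ := 2 * ν * (max Λ 1)⁻¹ ^ 2) (by positivity)
    fun n x => le_trans (by
      rw [max_eq_left n.2.1.one]
      exact mul_le_mul_of_nonneg_left (pow_le_pow_left₀
        (inv_nonneg.2 (zero_le_one.trans n.2.1.one)) (n.2.1.le_u x) 2) (by positivity))
      (n.1.2.2.root h0 hν x).2.2.2.2.2).le
  exact ⟨max R0 K, le_max_left _ _, fun P c t a1 a2 a3 =>
    (hK ⟨⟨P, c, t⟩, a1, a2, a3⟩).trans (le_max_right _ _)⟩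

end Cf

end Base

end Pool.Agent.MP_9bd639_gt.H88

end

-- part CF6
section

/-! Second order expansions of the parts of the functional. Each statement follows from a statement
about the family indexed by the subtype of all data that satisfy `Step`. -/

open Matrix MeasureTheory Filter Topology Set
open scoped ContDiff

namespace Pool.Agent.MP_9bd639_gt.H88

namespace Base

namespace Cf

variable {B : Base} {m : B.Me} {Λ R : ℝ}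

/-- A step of length `θ` in the direction `ζ`. -/
structure Step (m : B.Me) (Λ R : ℝ) (P Q : Cf B) (ζ : B.A) (θ : ℝ) : Prop where
  bx : P.Bx m Λ
  eq : Q.φ = P.φ + θ • ζ
  pos : 0 < θ
  le : θ ≤ 1
  lo : ∀ x, P.φ.1 x / 2 ≤ Q.φ.1 x
  n1 : B.nrm 4 P.φ ≤ R
  n2 : B.nrm 4 ζ ≤ R

/-- `HB.of_le`, `Tm.rsmul`, `HB.inv`, `Tm.L`. -/
theorem Step.fam {κ : Type} {P Q : κ → Cf B} {ζ : κ → B.A} {θ : κ → ℝ}
    (h : ∀ n, Step m Λ R (P n) (Q n) (ζ n) (θ n)) :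
    B.HB 4 (fun n => (P n).φ) ∧ B.HB 4 (fun n => (P n).u) ∧ B.HB 4 (fun n => (Q n).φ) ∧
      B.HB 4 (fun n => (Q n).u) ∧ B.HB 4 ζ ∧ B.HB 2 (fun n => (P n).h m) ∧
      B.HB 2 fun n => Lc m (ζ n) := by
  have h1 : B.HB 4 fun n => (P n).φ := HB.of_le fun n => (h n).n1
  have h2 : B.HB 4 ζ := HB.of_le fun n => (h n).n2
  have h3 : B.HB 4 fun n => (Q n).φ := by
    have := Tm.add h1 (Tm.rsmul h2 (r := θ) (K := 1) fun n => by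
      rw [abs_of_pos (h n).pos]; exact (h n).le) fun _ => zero_le_one
    rw [show (fun n => (Q n).φ) = (fun n => (P n).φ) + fun n => θ n • ζ n from
      funext fun n => (h n).eq]
    exact this
  have h0 : 0 < (max Λ 1)⁻¹ := inv_pos.2 (lt_max_of_lt_right one_pos)
  have h4 : ∀ n x, (max Λ 1)⁻¹ ≤ (P n).φ.1 x := fun n x => by
    rw [max_eq_left (h n).bx.one]; exact (h n).bx.lo x
  refine ⟨h1, HB.inv (k := 2) h1 h0 h4 fun n => (P n).hu, h3,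
    HB.inv (k := 2) h3 (half_pos h0) (fun n x => ?_) fun n => (Q n).hu, h2,
    Tm.L (k := 2) m h1, Tm.L (k := 2) m h2⟩
  linarith [h4 n x, (h n).lo x]

/-- An expansion in the ring `UBa κ 0` of bounded families can be integrated (`UB.I_le`). -/
theorem Ex_int (m : B.Me) {κ : Type} {θ : κ → ℝ} {t f f0 f1 : B.UBa κ 0}
    (ht : ∀ n, t.1 n = B.cst (θ n)) (h : Ex t f f0 f1) : ∃ C, ∀ n,
      |I m (f.1 n) - I m (f0.1 n) - θ n * I m (f1.1 n)| ≤ C * θ n ^ 2 := by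
  obtain ⟨r, hr⟩ := h
  obtain ⟨K, -, hK⟩ := UB.I_le r.2 m
  refine ⟨K, fun n => ?_⟩
  have e : f.1 n = f0.1 n + t.1 n * f1.1 n + t.1 n ^ 2 * r.1 n := by rw [hr]; rfl
  rw [ht, sq, mul_assoc] at e
  rw [e, I_add, I_add, I_cst_mul, I_cst_mul, I_cst_mul,
    show I m (f0.1 n) + θ n * I m (f1.1 n) + θ n * (θ n * I m (r.1 n)) - I m (f0.1 n) -
      θ n * I m (f1.1 n) = I m (r.1 n) * θ n ^ 2 by ring, abs_mul, abs_of_nonneg (sq_nonneg (θ n))]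
  exact mul_le_mul_of_nonneg_right (hK n) (sq_nonneg _)

/-- All data of steps. -/
abbrev CF6_K (m : B.Me) (Λ R : ℝ) : Type :=
  {p : Cf B × Cf B × B.A × ℝ // Step m Λ R p.1 p.2.1 p.2.2.1 p.2.2.2}

/-- Evaluation of a bounded family. -/
def CF6_ev {κ : Type} (n : κ) : B.UBa κ 0 →ₐ[ℝ] B.A :=
  (Pi.evalAlgHom ℝ (fun _ : κ => B.A) n).comp (B.UBa κ 0).val

theorem CF6_neg {κ : Type} (n : κ) (a : B.UBa κ 0) : CF6_ev n (-a) = -CF6_ev n a := rfl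

theorem CF6_sub {κ : Type} (n : κ) (a b : B.UBa κ 0) :
    CF6_ev n (a - b) = CF6_ev n a - CF6_ev n b := rfl

theorem CF6_fam (m : B.Me) (Λ R : ℝ) : ∃ t p u v z h l : B.UBa (CF6_K m Λ R) 0,
    Ex t v u (-(z * u ^ 2)) ∧ ∀ n, CF6_ev n t = B.cst n.1.2.2.2 ∧ CF6_ev n p = n.1.1.φ ∧
      CF6_ev n u = n.1.1.u ∧ CF6_ev n v = n.1.2.1.u ∧ CF6_ev n z = n.1.2.2.1 ∧
      CF6_ev n h = n.1.1.h m ∧ CF6_ev n l = Lc m n.1.2.2.1 ∧
      CF6_ev n (p + t * z) = n.1.2.1.φ ∧ CF6_ev n (h + t * l) = n.1.2.1.h m := by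
  obtain ⟨h1, h2, -, h4, h5, h6, h7⟩ := Step.fam fun n : CF6_K m Λ R => n.2
  have h0 : B.UB 0 fun n : CF6_K m Λ R => B.cst n.1.2.2.2 := UB.of_le (K := 1) fun n x => by
    change |n.1.2.2.2| ≤ 1
    rw [abs_of_pos n.2.pos]; exact n.2.le
  have e : ∀ n : CF6_K m Λ R, n.1.1.φ + B.cst n.1.2.2.2 * n.1.2.2.1 = n.1.2.1.φ := fun n => by
    rw [n.2.eq, Algebra.smul_def]; rfl
  refine ⟨⟨_, h0⟩, ⟨_, (HB.UB (k := 2) h1).mono (Nat.zero_le 2)⟩,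
    ⟨_, (HB.UB (k := 2) h2).mono (Nat.zero_le 2)⟩, ⟨_, (HB.UB (k := 2) h4).mono (Nat.zero_le 2)⟩,
    ⟨_, (HB.UB (k := 2) h5).mono (Nat.zero_le 2)⟩, ⟨_, HB.UB (k := 0) h6⟩, ⟨_, HB.UB (k := 0) h7⟩,
    Ex.inv (φ := ⟨_, (HB.UB (k := 2) h1).mono (Nat.zero_le 2)⟩)
      (Subtype.ext (funext fun n => n.1.1.hu)) (Subtype.ext (funext fun n => ?_)),
    fun n => ⟨rfl, rfl, rfl, rfl, rfl, rfl, rfl, e n, ?_⟩⟩
  · change n.1.2.1.u * (n.1.1.φ + B.cst n.1.2.2.2 * n.1.2.2.1) = 1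
    rw [e n, n.1.2.1.hu]
  · change n.1.1.h m + B.cst n.1.2.2.2 * Lc m n.1.2.2.1 = _
    rw [Cf.h, Cf.h, n.2.eq, Lc_add, Lc_smul, Algebra.smul_def]; rfl

theorem CF6_int (m : B.Me) {κ : Type} {θ : κ → ℝ} {t f f0 f1 : B.UBa κ 0}
    (ht : ∀ n, CF6_ev n t = B.cst (θ n)) (h : Ex t f f0 f1) : ∃ C, ∀ n,
      |I m (CF6_ev n f) - I m (CF6_ev n f0) - θ n * I m (CF6_ev n f1)| ≤ C * θ n ^ 2 :=
  Ex_int m ht h

/-- `Ex.lin` for `Q.h = P.h + θ • Lc ζ`, `Ex.inv` for `Q.u`, `Ex.mul`, in the ring `UBa κ 0`. -/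
theorem exp_N (m : B.Me) (Λ R : ℝ) : ∃ C, ∀ P Q ζ θ, Step m Λ R P Q ζ θ →
    Q.Nq m ≤ P.Nq m + θ * I m (2 * P.h m * Lc m ζ * P.u ^ 4 - 4 * P.h m ^ 2 * ζ * P.u ^ 5) +
      C * θ ^ 2 := by
  obtain ⟨t, p, u, v, z, h, l, hv, e⟩ := CF6_fam m Λ R
  have h1 : Ex t ((h + t * l) ^ 2 * v ^ 4) (h ^ 2 * u ^ 4)
      (2 * h * l * u ^ 4 - 4 * h ^ 2 * z * u ^ 5) :=
    (((Ex.lin t h l).mul (Ex.lin t h l)).mul ((hv.mul hv).mul (hv.mul hv))).congr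
      (by ring) (by ring) (by ring)
  obtain ⟨C, hC⟩ := CF6_int m (fun n => (e n).1) h1
  refine ⟨C, fun P Q ζ θ hs => ?_⟩
  obtain ⟨-, -, e3, e4, e5, e6, e7, -, e9⟩ := e ⟨(P, Q, ζ, θ), hs⟩
  have := (abs_le.1 (hC ⟨(P, Q, ζ, θ), hs⟩)).2
  simp only [map_mul, map_pow, CF6_sub, map_ofNat, e3, e4, e5, e6, e7, e9] at this
  rw [Nq, Nq]
  linarith

theorem exp_W (m : B.Me) (Λ R : ℝ) : ∃ C, ∀ P Q ζ θ, Step m Λ R P Q ζ θ →
    Q.Wq m ≤ P.Wq m - 2 * θ * I m (ζ * P.u ^ 3) + C * θ ^ 2 := by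
  obtain ⟨t, p, u, v, z, h, l, hv, e⟩ := CF6_fam m Λ R
  have h1 : Ex t (v ^ 2) (u ^ 2) (-(2 * (z * u ^ 3))) :=
    (hv.mul hv).congr (by ring) (by ring) (by ring)
  obtain ⟨C, hC⟩ := CF6_int m (fun n => (e n).1) h1
  refine ⟨C, fun P Q ζ θ hs => ?_⟩
  obtain ⟨-, -, e3, e4, e5, -⟩ := e ⟨(P, Q, ζ, θ), hs⟩
  have := (abs_le.1 (hC ⟨(P, Q, ζ, θ), hs⟩)).2
  simp only [map_mul, map_pow, CF6_neg, map_ofNat, e3, e4, e5] at this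
  rw [I_neg, I_ofNat_mul] at this
  rw [Wq, Wq]
  linarith

theorem CF6_real {x a b θ K C Λ : ℝ} (hΛ : 1 ≤ Λ) (ha : Λ⁻¹ ≤ a) (hx : a / 4 ≤ x) (h0 : 0 < θ)
    (h1 : θ ≤ 1) (hb : |b| ≤ K) (h : |x - a - θ * (2 * b)| ≤ C * θ ^ 2) :
    1 / x ^ 2 ≤ 1 / a ^ 2 - 4 * θ * b / a ^ 3 +
      (2 * C * Λ ^ 3 + 24 * (2 * K + C) ^ 2 * Λ ^ 4) * θ ^ 2 := by
  have L0 : 0 < Λ := by linarith
  have a0 : 0 < a := (inv_pos.2 L0).trans_le ha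
  have a1 : a⁻¹ ≤ Λ := inv_le_of_inv_le₀ L0 ha
  have a2 : 0 < a⁻¹ := inv_pos.2 a0
  have hC : 0 ≤ C * θ ^ 2 := (abs_nonneg _).trans h
  have hC0 : 0 ≤ C := nonneg_of_mul_nonneg_left hC (by positivity)
  obtain ⟨l, r⟩ := abs_le.1 h
  obtain ⟨l', r'⟩ := abs_le.1 hb
  have t2 : C * θ ^ 2 ≤ C * θ := mul_le_mul_of_nonneg_left (by nlinarith) hC0
  have b1 : (x - a) ^ 2 ≤ ((2 * K + C) * θ) ^ 2 :=
    sq_le_sq' (by nlinarith [mul_le_mul_of_nonneg_left l' h0.le])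
      (by nlinarith [mul_le_mul_of_nonneg_left r' h0.le])
  have b2 := mul_le_mul b1 (pow_le_pow_left₀ a2.le a1 4) (by positivity) (by positivity)
  have b3 : -(x - a - θ * (2 * b)) * a⁻¹ ^ 3 ≤ C * θ ^ 2 * Λ ^ 3 :=
    (mul_le_mul_of_nonneg_right (by linarith) (by positivity)).trans
      (mul_le_mul_of_nonneg_left (pow_le_pow_left₀ a2.le a1 3) hC)
  have b4 := CF_inv_sq a0 hx
  simp only [div_eq_mul_inv, ← inv_pow] at b4 ⊢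
  nlinarith

/-- `Q.Aq = P.Aq + 2 θ I (h ζ) + θ ^ 2 I (ζ Lc ζ)` (`Lc_symm`), `CF_inv_sq`. -/
theorem exp_A (hm : Pos m) (Λ R : ℝ) : ∃ C, ∀ P Q ζ θ, Step m Λ R P Q ζ θ →
    P.Aq m / 4 ≤ Q.Aq m →
    1 / Q.Aq m ^ 2 ≤ 1 / P.Aq m ^ 2 - 4 * θ * I m (P.h m * ζ) / P.Aq m ^ 3 + C * θ ^ 2 := by
  obtain ⟨t, p, u, v, z, h, l, -, e⟩ := CF6_fam m Λ R
  obtain ⟨C, hC⟩ := CF6_int m (fun n => (e n).1) ((Ex.lin t p z).mul (Ex.lin t h l))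
  obtain ⟨K, -, hK⟩ := UB.I_le (h * z).2 m
  refine ⟨2 * C * Λ ^ 3 + 24 * (2 * K + C) ^ 2 * Λ ^ 4, fun P Q ζ θ hs hA => ?_⟩
  obtain ⟨-, e2, -, -, e5, e6, e7, e8, e9⟩ := e ⟨(P, Q, ζ, θ), hs⟩
  have h1 := hC ⟨(P, Q, ζ, θ), hs⟩
  have h2 : |I m (CF6_ev ⟨(P, Q, ζ, θ), hs⟩ (h * z))| ≤ K := hK _
  rw [map_mul, e5, e6] at h2
  rw [map_mul, e8, e9, map_mul, map_add, map_mul, map_mul, e2, e5, e6, e7, I_add,
    ← hm.Lc_symm, mul_comm ζ, ← Cf.h, ← two_mul] at h1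
  exact CF6_real hs.bx.one hs.bx.Alo hA hs.pos hs.le h2 h1

/-- The part of the variation of `Bq` without derivatives: `Ex.inv` and `u * φ = 1`; `s2` is
bounded by `s2_eq`, `Gr.confS` (level two), `CF_ip2_eq`, `Gr.raise`, `Gr.mul`, `HB.UB`. -/
theorem exp_B0 (hm : Pos m) (Λ R : ℝ) : ∃ C, ∀ P Q ζ θ, Step m Λ R P Q ζ θ →
    P.Bq m - 2 * θ * I m ((P.g m).s2 * P.φ ^ 5 * ζ) - C * θ ^ 2 ≤
      I m (P.φ ^ 8 * Q.u ^ 2 * (P.g m).s2) := by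
  obtain ⟨t, p, u, v, z, h, l, hv, e⟩ := CF6_fam m Λ R
  obtain ⟨h1, h2, -, -, -, h6, -⟩ := Step.fam fun n : CF6_K m Λ R => n.2
  have hS := fun i j => Gr.hb.confS (j := 2) m h1 h2 i j
  have h3 : B.HB 2 fun n : CF6_K m Λ R => m.ip2 (n.1.1.g m).S (n.1.1.g m).S := by
    simp only [CF_ip2_eq]
    exact Gr.hb.sum _ fun i _ => Gr.hb.sum _ fun j _ =>
      Gr.hb.mul (k := 0) (Gr.hb.raise m hS i j) (hS i j) le_rfl
  have h4 : B.HB 2 fun n : CF6_K m Λ R => n.1.1.u := Gr.hb.le h2 (by norm_num)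
  have h5 : B.HB 2 fun n : CF6_K m Λ R => (n.1.1.g m).s2 := by
    simp only [s2_eq]
    exact Gr.hb.cmul _ (Gr.hb.sub
      (Gr.hb.mul (k := 0) (Gr.hb.pow (k := 0) h4 10) (Gr.hb.mul (k := 0) h6 h6 le_rfl) le_rfl)
      (Gr.hb.mul (k := 0) (Gr.hb.pow (k := 0) h4 8) h3 le_rfl))
  obtain ⟨s, hs'⟩ : ∃ s : B.UBa (CF6_K m Λ R) 0, ∀ n, CF6_ev n s = (n.1.1.g m).s2 :=
    ⟨⟨_, HB.UB (k := 0) h5⟩, fun _ => rfl⟩
  have h7 : Ex t (p ^ 8 * v ^ 2 * s) (p ^ 8 * u ^ 2 * s) (-(2 * (p ^ 8 * u ^ 3 * z * s))) :=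
    (((Ex.const t (p ^ 8)).mul (hv.mul hv)).mul (Ex.const t s)).congr (by ring) (by ring) (by ring)
  obtain ⟨C, hC⟩ := CF6_int m (fun n => (e n).1) h7
  refine ⟨C, fun P Q ζ θ hs => ?_⟩
  obtain ⟨-, e2, e3, e4, e5, -⟩ := e ⟨(P, Q, ζ, θ), hs⟩
  have := (abs_le.1 (hC ⟨(P, Q, ζ, θ), hs⟩)).1
  simp only [map_mul, map_pow, CF6_neg, map_ofNat, e2, e3, e4, e5, hs'] at this
  have f1 : P.φ ^ 8 * P.u ^ 2 * (P.g m).s2 = (P.g m).s2 * P.φ ^ 6 := by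
    linear_combination (P.g m).s2 * P.φ ^ 6 * (P.u * P.φ + 1) * P.hu
  have f2 : P.φ ^ 8 * P.u ^ 3 * ζ * (P.g m).s2 = (P.g m).s2 * P.φ ^ 5 * ζ := by
    linear_combination (P.g m).s2 * P.φ ^ 5 * ζ * ((P.u * P.φ) ^ 2 + P.u * P.φ + 1) * P.hu
  rw [I_neg, I_ofNat_mul, f1, f2] at this
  rw [Bq, P.I_g hm]
  linarith

end Cf

end Base

end Pool.Agent.MP_9bd639_gt.H88

end

-- part CF6b
section

/-! The expansion of the integral of `s2`. -/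

open Matrix MeasureTheory Filter Topology Set
open scoped ContDiff

namespace Pool.Agent.MP_9bd639_gt.H88

namespace Base

namespace Cf

variable {B : Base} {m : B.Me} {Λ R : ℝ}

theorem rel_inv (P Q : Cf B) : (P.φ * Q.u) ^ 2 * (Q.φ * P.u) ^ 2 = 1 := by
  rw [← mul_pow, show P.φ * Q.u * (Q.φ * P.u) = P.u * P.φ * (Q.u * Q.φ) by ring, P.hu, Q.hu,
    one_mul, one_pow]

/-- `Met.eq_of_G`. -/
theorem rel_g (m : B.Me) (P Q : Cf B) : (P.g m).conf _ _ (rel_inv P Q) = Q.g m := by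
  refine Met.eq_of_G ?_
  rw [Met.conf_G, g, g, Met.conf_G, Met.conf_G, smul_smul]
  congr 1
  rw [show (Q.φ * P.u) ^ 2 * (Q.φ * P.u) ^ 2 * (P.φ * P.φ * (P.φ * P.φ)) =
    Q.φ * Q.φ * (Q.φ * Q.φ) * (P.u * P.φ) ^ 4 by ring, P.hu, one_pow, mul_one]

theorem CF6b_pair {κ : Type} {j : ℕ} {a : Bool × κ → B.A} (h1 : B.HB j fun n => a (true, n))
    (h0 : B.HB j fun n => a (false, n)) : B.HB j a := by
  obtain ⟨K, -, hK⟩ := h1.le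
  obtain ⟨K', -, hK'⟩ := h0.le
  refine HB.of_le (K := max K K') fun p => ?_
  obtain ⟨_ | _, n⟩ := p
  · exact (hK' n).trans (le_max_right _ _)
  · exact (hK n).trans (le_max_left _ _)

theorem CF6b_sum {κ σ : Type} {W : κ → ℝ} {j : ℕ} (hW : ∀ n, 0 ≤ W n) (s : Finset σ)
    {f : σ → κ → B.A} (h : ∀ i, B.Tm W j (f i)) : B.Tm W j fun n => ∑ i ∈ s, f i n := by
  classical
  induction s using Finset.induction_on with
  | empty => exact Tm.zero hW j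
  | insert i s hi ih =>
    simp only [Finset.sum_insert hi]
    exact (h i).add ih hW

theorem CF6b_quad (hm : Pos m) {κ σ : Type} {W : κ → ℝ} (s : Finset σ) {a b : σ → κ → B.A}
    (ha : ∀ i, B.Tm W 0 (a i)) (hb : ∀ i, B.Tm W 0 (b i)) :
    ∃ K, ∀ n, |I m (∑ i ∈ s, a i n * b i n)| ≤ K * W n ^ 2 := by
  classical
  induction s using Finset.induction_on with
  | empty => exact ⟨0, fun n => by simp [I_zero]⟩
  | insert i s hi ih =>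
    obtain ⟨K, hK⟩ := ih
    obtain ⟨K', -, hK'⟩ := Tm.I_mul hm (ha i) (hb i)
    refine ⟨K' + K, fun n => ?_⟩
    rw [Finset.sum_insert hi, I_add]
    refine (abs_add_le _ _).trans ?_
    linarith [hK n, hK' n]

theorem CF6b_dφ {κ : Type} {P Q : κ → Cf B} {ζ : κ → B.A} {θ : κ → ℝ}
    (h : ∀ n, Step m Λ R (P n) (Q n) (ζ n) (θ n)) :
    B.Tm θ 2 fun n => (Q n).φ - (P n).φ := by
  have e : (fun n => (Q n).φ - (P n).φ) = fun n => θ n • ζ n :=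
    funext fun n => by rw [(h n).eq, add_sub_cancel_left]
  rw [e]
  exact HB.scale (Tm.mono (Step.fam h).2.2.2.2.1 (by norm_num)) fun n => (h n).pos.le

/-- The pair family `fun p : Bool × κ => if p.1 then Q p.2 else P p.2` lies in the class `Gr.df`
of level two: `Q.φ - P.φ = θ • ζ` (`HB.scale`), `Q.u - P.u = - (P.u * Q.u) * (θ • ζ)`.
Then `Gr.confS`. -/
theorem Step.fam_S {κ : Type} {P Q : κ → Cf B} {ζ : κ → B.A} {θ : κ → ℝ}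
    (h : ∀ n, Step m Λ R (P n) (Q n) (ζ n) (θ n)) (i l : Fin B.N) :
    B.Tm θ 0 fun n => (((Q n).g m).S - ((P n).g m).S) i l := by
  obtain ⟨p1, p2, q1, q2, -⟩ := Step.fam h
  have p2' : B.HB 2 fun n => (P n).u := Tm.mono p2 (by norm_num)
  have q2' : B.HB 2 fun n => (Q n).u := Tm.mono q2 (by norm_num)
  have du : B.Tm θ 2 fun n => (Q n).u - (P n).u := by
    have e : (fun n => (Q n).u - (P n).u) =
        -((fun n => (P n).u * (Q n).u) * fun n => (Q n).φ - (P n).φ) := funext fun n => by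
      simp only [Pi.neg_apply, Pi.mul_apply]
      linear_combination (P n).u * (Q n).hu - (Q n).u * (P n).hu
    rw [e]
    exact (HB.mul_Tm (k := 0) (Gr.hb.mul (k := 0) p2' q2' le_rfl) (CF6b_dφ h) le_rfl).neg
  exact ((Gr.df (W := θ) fun n => (h n).pos.le).confS (j := 0) m
    (P := fun p : Bool × κ => cond p.1 (Q p.2) (P p.2))
    ⟨CF6b_pair (Tm.mono q1 (by norm_num)) (Tm.mono p1 (by norm_num)), CF6b_dφ h⟩
    ⟨CF6b_pair q2' p2', du⟩ i l).2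

/-- `(P.φ * Q.u) ^ 2 - 1 = (θ • ζ) * (- Q.u * (P.φ * Q.u + 1))`. -/
theorem Step.fam_w {κ : Type} {P Q : κ → Cf B} {ζ : κ → B.A} {θ : κ → ℝ}
    (h : ∀ n, Step m Λ R (P n) (Q n) (ζ n) (θ n)) (i : Fin B.N) :
    B.Tm θ 0 fun n => B.F.X i (((P n).φ * (Q n).u) ^ 2) := by
  obtain ⟨p1, -, -, q2, -⟩ := Step.fam h
  have p1' : B.HB 2 fun n => (P n).φ := Tm.mono p1 (by norm_num)
  have q2' : B.HB 2 fun n => (Q n).u := Tm.mono q2 (by norm_num)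
  have c : B.HB 2 fun n => (Q n).u * ((P n).φ * (Q n).u + 1) :=
    Gr.hb.mul (k := 0) q2' (Gr.hb.add (Gr.hb.mul (k := 0) p1' q2' le_rfl) (Gr.hb.const 2 1)) le_rfl
  have t := ((HB.mul_Tm (k := 0) (j := 1) c ((CF6b_dφ h).mono one_le_two) one_le_two).neg).X i
  have e : ∀ n, ((P n).φ * (Q n).u) ^ 2 =
      -((Q n).u * ((P n).φ * (Q n).u + 1) * ((Q n).φ - (P n).φ)) + 1 := fun n => by
    linear_combination ((P n).φ * (Q n).u + 1) * (Q n).hu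
  simp only [e, map_add, Derivation.map_one_eq_zero, add_zero]
  exact t

/-- `CF_var` for the metric `P.g m` with `w = (P.φ * Q.u) ^ 2`, `v = (Q.φ * P.u) ^ 2`, `rel_g`,
`I_g`, `exp_B0`. The two error terms are finite sums of integrals of a bounded family times two
families of size `θ` in `L ^ 2` (`conf_gam`, `ip1_eq`, `conf_ip2`, `CF_ip2_eq`, `UB.mul_Tm`,
`Tm.I_mul`). -/
theorem exp_B (hm : Pos m) (Λ R : ℝ) : ∃ C, ∀ P Q ζ θ, Step m Λ R P Q ζ θ →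
    P.Bq m - 2 * θ * I m ((P.g m).s2 * P.φ ^ 5 * ζ) - C * θ ^ 2 ≤ Q.Bq m := by
  obtain ⟨C0, hC0⟩ := exp_B0 hm Λ R
  let κ : Type := {p : Cf B × Cf B × B.A × ℝ // Step m Λ R p.1 p.2.1 p.2.2.1 p.2.2.2}
  let P : κ → Cf B := fun n => n.1.1
  let Q : κ → Cf B := fun n => n.1.2.1
  let ζ : κ → B.A := fun n => n.1.2.2.1
  let θ : κ → ℝ := fun n => n.1.2.2.2
  have h : ∀ n, Step m Λ R (P n) (Q n) (ζ n) (θ n) := fun n => n.2
  have hW : ∀ n, 0 ≤ θ n := fun n => (h n).pos.le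
  obtain ⟨p1, p2, q1, q2, -, ph, -⟩ := Step.fam h
  have ub : ∀ {a : κ → B.A}, B.HB 4 a → a ∈ B.UBa (κ := κ) 0 := fun ha =>
    HB.UB (Tm.mono ha (by norm_num))
  have uh : (fun n => (P n).h m) ∈ B.UBa (κ := κ) 0 := HB.UB ph
  have c1 : B.UB 0 fun n => (P n).u ^ 5 * (P n).h m * ((Q n).φ * (P n).u) ^ 2 *
      ((P n).u * (P n).u) ^ 2 * (P n).φ ^ 6 :=
    mul_mem (mul_mem (mul_mem (mul_mem (pow_mem (ub p2) 5) uh) (pow_mem (mul_mem (ub q1) (ub p2)) 2))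
      (pow_mem (mul_mem (ub p2) (ub p2)) 2)) (pow_mem (ub p1) 6)
  have c2 : B.UB 0 fun n => hf B.A * ((P n).φ * (Q n).u) ^ 2 * ((P n).u * (P n).u) ^ 4 *
      (P n).φ ^ 6 :=
    mul_mem (mul_mem (mul_mem (show (fun _ => hf B.A) ∈ B.UBa (κ := κ) 0 from UB.const 0 _)
      (pow_mem (mul_mem (ub p1) (ub q2)) 2)) (pow_mem (mul_mem (ub p2) (ub p2)) 4))
      (pow_mem (ub p1) 6)
  have ra : ∀ i l, B.Tm θ 0 fun n => (m.γ * (((Q n).g m).S - ((P n).g m).S) * m.γ) i l := by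
    intro i l
    simp only [Matrix.mul_apply, mul_comm _ (m.γ _ l)]
    exact CF6b_sum hW _ fun b => (UB.const 0 _).mul_Tm
      (CF6b_sum hW _ fun a => (UB.const 0 _).mul_Tm (Step.fam_S h a b))
  obtain ⟨K1, hK1⟩ := CF6b_quad hm (Finset.univ : Finset (Fin B.N × Fin B.N))
    (fun p => (c1.mul (UB.const 0 (m.γ p.1 p.2))).mul_Tm (Step.fam_w h p.1))
    fun p => Step.fam_w h p.2
  obtain ⟨K2, hK2⟩ := CF6b_quad hm (Finset.univ : Finset (Fin B.N × Fin B.N))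
    (fun p => c2.mul_Tm (ra p.1 p.2)) fun p => Step.fam_S h p.1 p.2
  refine ⟨C0 + K1 + K2, fun P' Q' ζ' θ' h' => ?_⟩
  have k1 := (le_abs_self _).trans (hK1 ⟨(P', Q', ζ', θ'), h'⟩)
  have k2 := (le_abs_self _).trans (hK2 ⟨(P', Q', ζ', θ'), h'⟩)
  have k0 := hC0 P' Q' ζ' θ' h'
  have hv := (P'.g_pos hm).CF_var (rel_inv P' Q') fun x =>
    pow_pos (mul_pos (Q'.pos x) (P'.u_pos x)) 2
  rw [rel_g, P'.I_g hm, P'.I_g hm, P'.I_g hm] at hv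
  simp only [Pi.mul_apply, P, Q, θ] at k1 k2
  have e0 : (P'.φ * Q'.u) ^ 2 * (P'.g m).s2 * P'.φ ^ 6 = P'.φ ^ 8 * Q'.u ^ 2 * (P'.g m).s2 := by
    ring
  have e1 : (P'.g m).s1 * (Q'.φ * P'.u) ^ 2 *
      (P'.g m).gam ((P'.φ * Q'.u) ^ 2) ((P'.φ * Q'.u) ^ 2) * P'.φ ^ 6 =
      ∑ p : Fin B.N × Fin B.N, P'.u ^ 5 * P'.h m * (Q'.φ * P'.u) ^ 2 * (P'.u * P'.u) ^ 2 *
        P'.φ ^ 6 * m.γ p.1 p.2 * B.F.X p.1 ((P'.φ * Q'.u) ^ 2) *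
        B.F.X p.2 ((P'.φ * Q'.u) ^ 2) := by
    rw [P'.s1_eq, g, Met.conf_gam, Met.gam, Met.ip1_eq, ← Fintype.sum_prod_type', Finset.mul_sum,
      Finset.mul_sum, Finset.sum_mul]
    exact Finset.sum_congr rfl fun p _ => by simp only [Fr.d0]; ring
  have e2 : ∀ D : B.Mat, hf B.A * (P'.φ * Q'.u) ^ 2 * (P'.g m).ip2 D D * P'.φ ^ 6 =
      ∑ p : Fin B.N × Fin B.N, hf B.A * (P'.φ * Q'.u) ^ 2 * (P'.u * P'.u) ^ 4 * P'.φ ^ 6 *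
        (m.γ * D * m.γ) p.1 p.2 * D p.1 p.2 := fun D => by
    rw [g, Met.conf_ip2, CF_ip2_eq, ← Fintype.sum_prod_type', Finset.mul_sum,
      Finset.mul_sum, Finset.sum_mul]
    exact Finset.sum_congr rfl fun p _ => by ring
  rw [e0, e1, e2] at hv
  have eq : Q'.Bq m = I (Q'.g m) (Q'.g m).s2 := rfl
  linarith

end Cf

end Base

end Pool.Agent.MP_9bd639_gt.H88

end

-- part CF7
section

/-! The ascent step. -/

open Matrix MeasureTheory Filter Topology Set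
open scoped ContDiff

namespace Pool.Agent.MP_9bd639_gt.H88

namespace Base

namespace Cf

variable {B : Base} {m : B.Me} {d ε l c ν F0 : ℝ} {P Q : Cf B}

/-- `CF_log` at every point; `e` is the inverse of `T`. -/
theorem exp_G (hP : Gt0 (P.h m)) {T e : B.A} (hT : Gt0 T) (he : T * e = 1) {θ : ℝ} (h0 : 0 ≤ θ)
    (h1 : θ ≤ 1) (hQ : Q.h m = P.h m + θ • (T - P.h m)) :
    P.Gq m + θ * I m ((T - P.h m) * e - (T - P.h m)) ≤ Q.Gq m := by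
  have val : ∀ x, (Q.h m).1 x = (P.h m).1 x + θ * (T.1 x - (P.h m).1 x) := fun x => by
    rw [hQ]; rfl
  have hQp : Gt0 (Q.h m) := fun x => by
    rw [val]
    rcases eq_or_lt_of_le h1 with h | h
    · rw [h]; linarith [hT x]
    · nlinarith [mul_pos (sub_pos.2 h) (hP x), mul_nonneg h0 (hT x).le]
  have cont : ∀ {a : B.A}, Gt0 a → Continuous fun x => Real.log (a.1 x) - a.1 x + 1 := fun {a} ha =>
    (((B.cont a).log fun x => (ha x).ne').sub (B.cont a)).add continuous_const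
  have i1 := B.intg (cont hP) (vol m)
  have i2 := B.intg (B.cont (θ • ((T - P.h m) * e - (T - P.h m)))) (vol m)
  rw [← I_smul, Gq, Gq, I, ← integral_add i1 i2]
  refine integral_mono (i1.add i2) (B.intg (cont hQp) (vol m)) fun x => ?_
  have hx : T.1 x * e.1 x = 1 := congrFun (congrArg Subtype.val he) x
  have ex : e.1 x = (T.1 x)⁻¹ := eq_inv_of_mul_eq_one_right hx
  have l := CF_log (hP x) (hT x) h0 h1
  change Real.log ((P.h m).1 x) - (P.h m).1 x + 1 +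
    θ * ((T.1 x - (P.h m).1 x) * e.1 x - (T.1 x - (P.h m).1 x)) ≤
    Real.log ((Q.h m).1 x) - (Q.h m).1 x + 1
  rw [val, sub_mul, hx, ex, ← div_eq_mul_inv]
  linarith

/-- The first variation in the direction of the target. With `k = T - h = Lc ζ`:
the first four terms are `2 I (GG ζ) - 2 d I (h u ^ 4 k)`, `I (GG ζ) = d I (v k)` (`hv`,
`Lc_symm`), and `v - ν + ν e = T u ^ 4` by `T_eq`. -/
theorem Tg.first (hm : Pos m) (t : P.Tg m d ε c ν) {ζ e : B.A} (hζ : Lc m ζ = t.T - P.h m)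
    (he : t.T * e = 1) :
    -2 * I m ((P.g m).s2 * P.φ ^ 5 * ζ) -
      d * I m (2 * P.h m * Lc m ζ * P.u ^ 4 - 4 * P.h m ^ 2 * ζ * P.u ^ 5) +
      2 * ε * I m (ζ * P.u ^ 3) + 2 * c * I m (P.h m * ζ) +
      2 * d * ν * I m ((t.T - P.h m) * e - (t.T - P.h m)) =
      2 * d * I m ((t.T - P.h m) ^ 2 * P.u ^ 4) := by
  have e1 : I m (P.GG m d ε c * ζ) = c * I m (P.h m * ζ) + 2 * d * I m (P.h m ^ 2 * ζ * P.u ^ 5) -
      I m ((P.g m).s2 * P.φ ^ 5 * ζ) + ε * I m (ζ * P.u ^ 3) := by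
    rw [← I_smul, ← I_smul, ← I_smul, ← I_add, ← I_sub, ← I_add, GG]
    congr 1
    simp only [Algebra.smul_def]
    ring
  have e2 : I m (P.GG m d ε c * ζ) = d * I m (t.v * (t.T - P.h m)) := by
    rw [← t.hv, smul_mul_assoc, I_smul, hm.Lc_symm, hζ]
  have e3 : I m (2 * P.h m * Lc m ζ * P.u ^ 4 - 4 * P.h m ^ 2 * ζ * P.u ^ 5) =
      2 * I m (P.h m * (t.T - P.h m) * P.u ^ 4) - 4 * I m (P.h m ^ 2 * ζ * P.u ^ 5) := by
    rw [← I_ofNat_mul, ← I_ofNat_mul, ← I_sub, hζ]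
    congr 1
    ring
  have e4 : I m ((t.T - P.h m) ^ 2 * P.u ^ 4) = I m (t.v * (t.T - P.h m)) -
      I m (P.h m * (t.T - P.h m) * P.u ^ 4) + ν * I m ((t.T - P.h m) * e - (t.T - P.h m)) := by
    rw [← I_cst_mul, ← I_sub, ← I_add]
    congr 1
    linear_combination (t.T - P.h m) * e * t.T_eq -
      (t.T - P.h m) * (t.T * P.u ^ 4 - (t.v - B.cst ν)) * he
  rw [e3, e4]
  linear_combination 2 * e2 - 2 * e1

/-- Solve `Lc ψ = T` (`solve`), `ψ > 0` (`mp'`), `ζ = ψ - φ`, `Q.φ = φ + θ • ζ ≥ φ / 2`,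
`Q.h ≥ h / 2`, so `Q.Aq ≥ P.Aq / 4`; `nrm 4` of `φ` and `ψ` by `L_est 2`. Add `exp_B`, `exp_N`,
`exp_W`, `exp_A`, `exp_G` and use `Tg.first`. -/
theorem ascent (hB : B.Good) (hm : Pos m) (h1 : Gt0 m.s1) (hd : 0 < d) (hε : 0 < ε) (hl : 0 < l)
    (Λ R : ℝ) : ∃ C, ∀ (P : Cf B) (ν : ℝ) (t : P.Tg m d ε (l / P.Aq m ^ 3) ν) (θ : ℝ), P.Bx m Λ →
      0 < ν → ν ≤ 1 → B.nrm 2 (P.h m) ≤ R → B.nrm 2 t.T ≤ R → 0 < θ → θ ≤ 1 / 2 →
      ∃ Q : Cf B, Q.h m = P.h m + θ • (t.T - P.h m) ∧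
        P.Fn m d ε l ν + θ * (2 * d * I m ((t.T - P.h m) ^ 2 * P.u ^ 4)) - C * θ ^ 2 ≤
          Q.Fn m d ε l ν := by
  obtain ⟨L, L0, hL⟩ := hm.L_est h1 2
  obtain ⟨C1, k1⟩ := exp_B hm Λ (L * (2 * R))
  obtain ⟨C2, k2⟩ := exp_N m Λ (L * (2 * R))
  obtain ⟨C3, k3⟩ := exp_W m Λ (L * (2 * R))
  obtain ⟨C4, k4⟩ := exp_A hm Λ (L * (2 * R))
  refine ⟨C1 + d * C2 + ε * C3 + l / 2 * C4, fun P ν t θ hP ν0 ν1 n1 n2 θ0 θ1 => ?_⟩
  have hT := t.T_pos ν0 ν1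
  obtain ⟨ψ, hψ⟩ := hm.solve hB h1 t.T
  have ψ0 : Gt0 ψ := hm.mp' h1 (by rw [hψ]; exact hT)
  obtain ⟨e, he⟩ := exists_inv fun x => (hT x).ne'
  have hζ : Lc m (ψ - P.φ) = t.T - P.h m := by rw [Lc_sub, ← hψ]; rfl
  have lo : ∀ x, P.φ.1 x / 2 ≤ (P.φ + θ • (ψ - P.φ)).1 x := fun x => by
    change _ ≤ P.φ.1 x + θ * (ψ.1 x - P.φ.1 x)
    nlinarith [mul_pos θ0 (ψ0 x), mul_nonneg (sub_nonneg.2 θ1) (P.pos x).le]
  obtain ⟨Q, hQ⟩ := exists_Cf (a := P.φ + θ • (ψ - P.φ)) fun x =>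
    lt_of_lt_of_le (half_pos (P.pos x)) (lo x)
  have hh : Q.h m = P.h m + θ • (t.T - P.h m) := by rw [h, hQ, Lc_add, Lc_smul, hζ]; rfl
  have R0 : 0 ≤ R := (B.nrm_nonneg _ _).trans n1
  have st : Step m Λ (L * (2 * R)) P Q (ψ - P.φ) θ := by
    refine ⟨hP, hQ, θ0, by linarith, fun x => by rw [hQ]; exact lo x, (hL _).trans ?_,
      (hL _).trans ?_⟩
    · exact mul_le_mul_of_nonneg_left (n1.trans (by linarith)) L0.le
    · refine mul_le_mul_of_nonneg_left ?_ L0.le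
      change B.nrm 2 (Lc m (ψ - P.φ)) ≤ _
      rw [hζ]
      linarith [B.nrm_sub 2 t.T (P.h m)]
  have hA : P.Aq m / 4 ≤ Q.Aq m := by
    rw [Aq, Aq, div_eq_inv_mul, ← I_smul]
    refine I_mono m fun x => ?_
    have a1 := st.lo x
    have a2 : (P.h m).1 x / 2 ≤ (Q.h m).1 x := by
      rw [hh]
      change _ ≤ (P.h m).1 x + θ * (t.T.1 x - (P.h m).1 x)
      nlinarith [mul_pos θ0 (hT x), mul_nonneg (sub_nonneg.2 θ1) (hP.hpos x).le]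
    have a3 := mul_le_mul a1 a2 (half_pos (hP.hpos x)).le (Q.pos x).le
    change 4⁻¹ * (P.φ.1 x * (P.h m).1 x) ≤ Q.φ.1 x * (Q.h m).1 x
    linarith
  refine ⟨Q, hh, ?_⟩
  have b1 := k1 P Q _ θ st
  have b2 := mul_le_mul_of_nonneg_left (k2 P Q _ θ st) hd.le
  have b3 := mul_le_mul_of_nonneg_left (k3 P Q _ θ st) hε.le
  have b4 := mul_le_mul_of_nonneg_left (k4 P Q _ θ st hA) (half_pos hl).le
  have b5 := mul_le_mul_of_nonneg_left (exp_G hP.hpos hT he θ0.le (by linarith) hh)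
    (mul_pos (mul_pos two_pos hd) ν0).le
  have f := t.first hm hζ he
  rw [← f, Fn, Fn, Ft, Ft]
  have r1 : ∀ a : ℝ, l / (2 * a ^ 2) = l / 2 * (1 / a ^ 2) := fun a => by ring
  rw [r1, r1]
  have r2 : l / 2 * (4 * θ * I m (P.h m * (ψ - P.φ)) / P.Aq m ^ 3) =
      θ * (2 * (l / P.Aq m ^ 3) * I m (P.h m * (ψ - P.φ))) := by ring
  nlinarith [b1, b2, b3, b4, b5, r2]

end Cf

end Base

end Pool.Agent.MP_9bd639_gt.H88

end

-- part CF7b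
section

/-! The existence of approximate critical points. -/

open Matrix MeasureTheory Filter Topology Set
open scoped ContDiff

namespace Pool.Agent.MP_9bd639_gt.H88

namespace Base

namespace Cf

variable {B : Base} {m : B.Me} {d ε l c ν F0 : ℝ} {P Q : Cf B}

theorem CF7b_Fn_le (hd : 0 < d) (hν : 0 < ν) (hP : Gt0 (P.h m)) :
    P.Fn m d ε l ν ≤ P.Ft m d ε l :=
  add_le_of_nonpos_right (mul_nonpos_of_nonneg_of_nonpos (by positivity) (P.G_nonpos hP))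

theorem CF7b_Ft_le (hd : 0 < d) (hε : 0 < ε) (hl : 0 < l) : P.Ft m d ε l ≤ P.Bq m := by
  have n1 : 0 ≤ d * P.Nq m := mul_nonneg hd.le P.N_nonneg
  have n2 : 0 ≤ ε * P.Wq m := mul_nonneg hε.le P.W_nonneg
  have n3 : 0 ≤ l / (2 * P.Aq m ^ 2) := by positivity
  rw [Ft]
  linarith

theorem CF7b_c {Λ : ℝ} (hl : 0 < l) (h : P.Bx m Λ) : |l / P.Aq m ^ 3| ≤ l * Λ ^ 3 := by
  have L0 : 0 < Λ := lt_of_lt_of_le one_pos h.one
  have A0 : 0 < P.Aq m := (inv_pos.2 L0).trans_le h.Alo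
  rw [abs_of_pos (by positivity), div_eq_mul_inv, ← inv_pow]
  exact mul_le_mul_of_nonneg_left
    (pow_le_pow_left₀ (inv_pos.2 A0).le (inv_le_of_inv_le₀ L0 h.Alo) 3) hl.le

theorem CF7b_conv (k : ℕ) {a b : B.A} {θ R : ℝ} (h0 : 0 ≤ θ) (h1 : θ ≤ 1) (ha : B.nrm k a ≤ R)
    (hb : B.nrm k b ≤ R) : B.nrm k (a + θ • (b - a)) ≤ R := by
  rw [show a + θ • (b - a) = (1 - θ) • a + θ • b by rw [smul_sub, sub_smul, one_smul]; abel]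
  refine (B.nrm_add k _ _).trans ?_
  rw [B.nrm_smul, B.nrm_smul, abs_of_nonneg h0, abs_of_nonneg (sub_nonneg.2 h1)]
  nlinarith [mul_le_mul_of_nonneg_left ha (sub_nonneg.2 h1), mul_le_mul_of_nonneg_left hb h0]

theorem CF7b_pos {a b : B.A} {θ : ℝ} (h0 : 0 < θ) (h1 : θ ≤ 1) (ha : Gt0 a) (hb : Gt0 b) :
    Gt0 (a + θ • (b - a)) := fun x => by
  change 0 < a.1 x + θ * (b.1 x - a.1 x)
  nlinarith [mul_nonneg (sub_nonneg.2 h1) (ha x).le, mul_pos h0 (hb x)]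

theorem CF7b_sq {Λ : ℝ} (h : P.Bx m Λ) (a : B.A) :
    I m (a ^ 2) ≤ Λ ^ 4 * I m (a ^ 2 * P.u ^ 4) := by
  have L0 : 0 < Λ := lt_of_lt_of_le one_pos h.one
  rw [← I_smul]
  refine I_mono m fun x => ?_
  change a.1 x ^ 2 ≤ Λ ^ 4 * (a.1 x ^ 2 * P.u.1 x ^ 4)
  have h1 : 1 ≤ Λ * P.u.1 x := by
    have := mul_le_mul_of_nonneg_left (h.le_u x) L0.le
    rwa [mul_inv_cancel₀ L0.ne'] at this
  have h2 := mul_le_mul_of_nonneg_left (one_le_pow₀ (n := 4) h1) (sq_nonneg (a.1 x))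
  rw [mul_pow] at h2
  linarith

/-- Take `Λ` from `apriori2`, `C0 = l * Λ ^ 3`, `R` from `Tg.H1`, `R2`, `R3` from `Tg.Hk` (each at
least the norm of `m.s1 = (one B).h m`). Apply `CF_sup` to the set of all `P` with `h > 0`,
`F0 ≤ Fn`, `nrm 1 h ≤ R`, `nrm 2 h ≤ R2`, `nrm 3 h ≤ R3` (convex conditions in `h`, satisfied by
`T`; `Fn ≤ Ft ≤ Bq` is bounded by `G_nonpos`, `apriori1`), `t P` chosen by `exists_Tg`.
Finally `nrm 0 (T - h)` is small (`le_u`, `Pos.nrm0`), `nrm 3 (T - h) ≤ 2 R3`, `interp0 2`. -/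
theorem near (hB : B.Good) (hm : Pos m) (h1 : Gt0 m.s1) (hd : 0 < d) (hε : 0 < ε) (hl : 0 < l)
    (hF : 0 < F0) : ∃ R, ∀ ν, 0 < ν → ν ≤ 1 → F0 ≤ (one B).Fn m d ε l ν → ∀ η, 0 < η →
      ∃ (P : Cf B) (t : P.Tg m d ε (l / P.Aq m ^ 3) ν), Gt0 (P.h m) ∧ F0 ≤ P.Ft m d ε l ∧
        B.nrm 1 (P.h m) ≤ R ∧ B.nrm 2 (t.T - P.h m) ≤ η := by
  obtain ⟨Λ, hΛ⟩ := apriori2 hB hm h1 hd hε hl hF
  obtain ⟨U, -, hU⟩ := apriori1 hB hm hε hl hF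
  obtain ⟨R, hR0, hR⟩ := Tg.H1 hm h1 hd ε Λ (l * Λ ^ 3) (B.nrm 1 m.s1)
  refine ⟨R, fun ν h0 hν hone η hη => ?_⟩
  obtain ⟨R2, hR20, hR2⟩ := Tg.Hk hm h1 hd ε Λ (l * Λ ^ 3) R (B.nrm 2 m.s1) 0 h0 hν
  obtain ⟨R3, hR30, hR3⟩ := Tg.Hk hm h1 hd ε Λ (l * Λ ^ 3) R2 (B.nrm 3 m.s1) 1 h0 hν
  obtain ⟨C, hC⟩ := ascent hB hm h1 hd hε hl Λ R2
  obtain ⟨C₀, hC₀, hn⟩ := hm.nrm0
  have t : ∀ P : Cf B, P.Tg m d ε (l / P.Aq m ^ 3) ν := fun P =>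
    (exists_Tg P hm hB h1 hd ε _ h0).some
  have r3 : 0 ≤ R3 := (B.nrm_nonneg _ _).trans hR30
  obtain ⟨C₁, hC₁, hi⟩ := B.interp0 2 (η := η / (2 * (2 * R3 + 1))) (by positivity)
  have o1 : Gt0 ((one B).h m) := by rw [one_h]; exact h1
  have L0 : 0 < Λ :=
    lt_of_lt_of_le one_pos (hΛ _ o1 (hone.trans (CF7b_Fn_le hd h0 o1))).one
  obtain ⟨P, ⟨p1, p2, p3, p4, p5⟩, hD⟩ := CF_sup
    (K := {P : Cf B | Gt0 (P.h m) ∧ F0 ≤ P.Fn m d ε l ν ∧ B.nrm 1 (P.h m) ≤ R ∧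
      B.nrm 2 (P.h m) ≤ R2 ∧ B.nrm 3 (P.h m) ≤ R3})
    (F := fun P => P.Fn m d ε l ν)
    (D := fun P => 2 * d * I m (((t P).T - P.h m) ^ 2 * P.u ^ 4)) (C := C) (U := U)
    ⟨one B, o1, hone, by rwa [one_h], by rwa [one_h], by rwa [one_h]⟩
    (fun P hP => (CF7b_Fn_le hd h0 hP.1).trans ((CF7b_Ft_le hd hε hl).trans
      (hU d P hd.le hP.1 (hP.2.1.trans (CF7b_Fn_le hd h0 hP.1))).2.2.2.2.1))
    (fun P ⟨p1, p2, p3, p4, p5⟩ θ t0 t1 => by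
      have bx := hΛ P p1 (p2.trans (CF7b_Fn_le hd h0 p1))
      have hc := CF7b_c hl bx
      have q2 := hR2 P _ (t P) bx hc p3
      have t2 : θ ≤ 1 := t1.trans (by norm_num)
      obtain ⟨Q, hQ, hQ'⟩ := hC P ν (t P) θ bx h0 hν p4 q2 t0 t1
      refine ⟨Q, fun hq => ⟨?_, p2.trans hq, ?_, ?_, ?_⟩, hQ'⟩ <;> rw [hQ]
      · exact CF7b_pos t0 t2 p1 ((t P).T_pos h0 hν)
      · exact CF7b_conv 1 t0.le t2 p3 (hR P _ ν (t P) bx hc h0 hν p3)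
      · exact CF7b_conv 2 t0.le t2 p4 q2
      · exact CF7b_conv 3 t0.le t2 p5 (hR3 P _ (t P) bx hc p4))
    (η := 2 * d * ((η / (2 * C₁)) ^ 2 / (C₀ * Λ ^ 4))) (by positivity)
  have p6 := p2.trans (CF7b_Fn_le hd h0 p1)
  have bx := hΛ P p1 p6
  refine ⟨P, t P, p1, p6, p3, (hi _).trans ?_⟩
  have a1 : B.nrm (2 + 1) ((t P).T - P.h m) ≤ 2 * R3 + 1 := by
    have := hR3 P _ (t P) bx (CF7b_c hl bx) p4
    linarith [B.nrm_sub 3 (t P).T (P.h m)]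
  have a2 : B.nrm 0 ((t P).T - P.h m) ≤ η / (2 * C₁) := by
    refine le_of_sq_le_sq ((hn _).1.trans ?_) (by positivity)
    have b1 := le_of_mul_le_mul_left hD (by positivity)
    rw [le_div_iff₀ (by positivity)] at b1
    have b2 := mul_le_mul_of_nonneg_left (CF7b_sq bx ((t P).T - P.h m)) hC₀.le
    linarith
  have a3 := mul_le_mul_of_nonneg_left a1 (show 0 ≤ η / (2 * (2 * R3 + 1)) by positivity)
  have a4 := mul_le_mul_of_nonneg_left a2 hC₁.le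
  have e1 : η / (2 * (2 * R3 + 1)) * (2 * R3 + 1) = η / 2 := by field_simp
  have e2 : C₁ * (η / (2 * C₁)) = η / 2 := by field_simp
  linarith

end Cf

end Base

end Pool.Agent.MP_9bd639_gt.H88

end

-- part CF9
section

/-! The minimum principle. -/

open Matrix MeasureTheory Filter Topology Set
open scoped ContDiff

namespace Pool.Agent.MP_9bd639_gt.H88

namespace Base

namespace Cf

variable {B : Base} {m : B.Me} {d ε c ν Λ : ℝ} {P : Cf B}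

/-- At a minimum of `σ = v * u`: `v = φ * σ`, `lap_mul`, `Pos.maxpt` for `-σ`. -/
theorem L_at_min (hm : Pos m) (P : Cf B) (v : B.A) {x : B.M}
    (hx : ∀ y, (v * P.u).1 x ≤ (v * P.u).1 y) :
    (Lc m v).1 x ≤ (v * P.u).1 x * (P.h m).1 x := by
  have hv : v = P.φ * (v * P.u) := by linear_combination (-v) * P.hu
  generalize v * P.u = σ at hv hx
  obtain ⟨h1, h2⟩ := hm.maxpt (a := (-1 : ℝ) • σ) (x := x) fun y => by
    change (-1 : ℝ) * σ.1 y ≤ (-1 : ℝ) * σ.1 x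
    linarith [hx y]
  have h3 := h2 P.φ
  rw [m.gam_rsmul] at h3
  rw [m.lap_rsmul] at h1
  change (-1 : ℝ) * (m.lap σ).1 x ≤ 0 at h1
  change (-1 : ℝ) * (m.gam σ P.φ).1 x = 0 at h3
  have e : Lc m v = σ * P.h m - (2 : ℝ) • (P.φ * m.lap σ) - (4 : ℝ) • m.gam σ P.φ := by
    rw [hv, h, Lc, Lc, m.lap_mul, m.gam_comm P.φ σ, Algebra.smul_def, Algebra.smul_def,
      map_ofNat, map_ofNat]
    ring
  rw [e]
  change σ.1 x * (P.h m).1 x - 2 * (P.φ.1 x * (m.lap σ).1 x) - 4 * (m.gam σ P.φ).1 x ≤ _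
  nlinarith [mul_nonneg (P.pos x).le (show 0 ≤ (m.lap σ).1 x by linarith)]

/-- `h_eq` and `s2 ≤ s1 ^ 2 / 3` (`Met.ip2_tl_S`, `ip2_nonneg`). -/
theorem GG_ge (hm : Pos m) (P : Cf B) (hε : 0 ≤ ε) (d c : ℝ) (x : B.M) :
    c * (P.g m).s1.1 x + 2 * d * (P.g m).s1.1 x ^ 2 - (P.g m).s1.1 x ^ 2 / 3 ≤
      (P.GG m d ε c).1 x * P.u.1 x ^ 5 := by
  have h1 := (P.g_pos hm).ip2_nonneg ((P.g m).tl (P.g m).S) x
  have e : (2 / 3 : ℝ) • (P.g m).s1 ^ 2 - 2 * (P.g m).s2 =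
      (2 / 3 : ℝ) • (P.g m).s1 ^ 2 - (2 : ℝ) • (P.g m).s2 := by
    rw [Algebra.smul_def (2 : ℝ), map_ofNat]
  rw [Met.ip2_tl_S, e] at h1
  change 0 ≤ 2 / 3 * (P.g m).s1.1 x ^ 2 - 2 * (P.g m).s2.1 x at h1
  have h2 : (P.g m).s1.1 x = P.u.1 x ^ 5 * (P.h m).1 x := by rw [P.s1_eq]; rfl
  have h3 : P.u.1 x ^ 5 * P.φ.1 x ^ 5 = 1 := by rw [← mul_pow, P.hx, one_pow]
  have h4 : 0 ≤ ε * P.u.1 x ^ 8 := mul_nonneg hε (pow_pos (P.u_pos x) 8).le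
  change _ ≤ (c * (P.h m).1 x + 2 * d * ((P.h m).1 x ^ 2 * P.u.1 x ^ 5) -
    (P.g m).s2.1 x * P.φ.1 x ^ 5 + ε * P.u.1 x ^ 3) * P.u.1 x ^ 5
  have h5 : (c * (P.h m).1 x + 2 * d * ((P.h m).1 x ^ 2 * P.u.1 x ^ 5) -
      (P.g m).s2.1 x * P.φ.1 x ^ 5 + ε * P.u.1 x ^ 3) * P.u.1 x ^ 5 =
      c * (P.g m).s1.1 x + 2 * d * (P.g m).s1.1 x ^ 2 - (P.g m).s2.1 x + ε * P.u.1 x ^ 8 := by
    rw [h2]
    linear_combination (-(P.g m).s2.1 x) * h3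
  rw [h5]
  linarith

theorem CF9_pt (t : P.Tg m d ε c ν) (hb : P.Bx m Λ) (h0 : 0 < ν) (h1 : ν ≤ 1) {K : ℝ}
    (hK : ∀ x, |(t.T - P.h m).1 x| ≤ K) (x : B.M) :
    (t.v * P.u).1 x ≤ (P.g m).s1.1 x + (K * Λ ^ 5 + Λ * ν) ∧
      (P.g m).s1.1 x - (K * Λ ^ 5 + Λ * ν) ≤ (t.v.1 x - ν + t.D.1 x) / 2 * P.u.1 x ∧
      (t.v.1 x - ν + t.D.1 x) / 2 * ((t.v.1 x - ν + t.D.1 x) / 2 * P.u.1 x - (t.v * P.u).1 x) ≤
        ν * P.u.1 x ^ 5 := by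
  obtain ⟨r1, r2, -⟩ := t.root h0 h1 x
  have hD : t.D.1 x * t.D.1 x = (t.v.1 x - ν) ^ 2 + 4 * ν * (P.u.1 x ^ 2) ^ 2 :=
    congrFun (congrArg Subtype.val t.hD) x
  have hk : |t.T.1 x - (P.h m).1 x| ≤ K := hK x
  have hT := t.T_val x
  have h2 : (P.g m).s1.1 x = P.u.1 x ^ 5 * (P.h m).1 x := by rw [P.s1_eq]; rfl
  have h4 : P.u.1 x ^ 4 * P.φ.1 x ^ 4 = 1 := by rw [← mul_pow, P.hx, one_pow]
  have u0 := P.u_pos x
  have u1 := hb.u_le x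
  have hσ : (t.v * P.u).1 x = t.v.1 x * P.u.1 x := rfl
  rw [hσ]
  generalize t.v.1 x = v at *
  generalize t.D.1 x = D at *
  generalize P.u.1 x = u at *
  generalize t.T.1 x = T at *
  generalize (P.h m).1 x = H at *
  generalize (P.g m).s1.1 x = s at *
  generalize P.φ.1 x = φ at *
  have e1 : (v - ν + D) / 2 * u = s + (T - H) * u ^ 5 := by
    rw [h2, hT]
    linear_combination (-((v - ν + D) / 2 * u)) * h4
  have e2 : |(T - H) * u ^ 5| ≤ K * Λ ^ 5 := by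
    rw [abs_mul, abs_of_pos (pow_pos u0 5)]
    exact mul_le_mul hk (pow_le_pow_left₀ u0.le u1 5) (pow_pos u0 5).le
      ((abs_nonneg _).trans hk)
  obtain ⟨l, r⟩ := abs_le.1 e2
  have e3 : ν * u ≤ Λ * ν := by nlinarith
  have e4 : 0 < ν * u := mul_pos h0 u0
  refine ⟨by nlinarith [mul_lt_mul_of_pos_right r2 u0], by linarith, ?_⟩
  have e5 : (v - ν + D) / 2 * ((v - ν + D) / 2 * u - v * u) =
      ν * u ^ 5 - (v - ν + D) / 2 * (ν * u) := by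
    linear_combination (u / 4) * hD
  rw [e5]
  linarith [mul_pos r1 e4]

/-- Let `s = s1`, `σ = v u`, `τ = (v - ν + D) / 2 = T u ^ 4`, `k = T - h`, `|k| ≤ C ν` (`sup_le`),
`β = (C Λ ^ 5 + Λ) ν`. At every point `τ u = s + k u ^ 5` and `v - ν < τ` (`Tg.root`), so
`σ ≤ s + β` and `s - β ≤ τ u`; `T_eq` gives `τ (τ - (v - ν)) = ν u ^ 4`. `CF_minpt` at a minimum
of `σ` (`L_at_min`, `GG_ge`, `hv`) gives `2 c + β ≤ σ`, so `2 c ≤ s` and `c ≤ τ u` everywhere;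
`τ < D`, `T = φ ^ 4 τ`. -/
theorem minp (hm : Pos m) (hd : 0 < d) (hd1 : d ≤ 1) (hε : 0 ≤ ε) (Λ : ℝ) :
    ∃ ν0, 0 < ν0 ∧ ν0 ≤ 1 ∧ ∀ (P : Cf B) (c ν : ℝ) (t : P.Tg m d ε c ν), P.Bx m Λ → Λ⁻¹ ≤ c →
      0 < ν → ν ≤ ν0 → B.nrm 2 (t.T - P.h m) ≤ ν →
      ∀ x, c ≤ (P.g m).s1.1 x ∧ Λ⁻¹ ^ 2 ≤ t.D.1 x ∧ Λ⁻¹ ^ 6 ≤ t.T.1 x := by
  by_cases hΛ : 1 ≤ Λ
  swap
  · exact ⟨1, one_pos, le_rfl, fun P c ν t hb => absurd hb.one hΛ⟩
  obtain ⟨C, C0, hC⟩ := B.sup_le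
  have L0 : 0 < Λ := by linarith
  have Z0 : 0 < 10 * Λ * (C * Λ ^ 5 + Λ) := by positivity
  have Z1 : 0 < 2 * Λ ^ 8 := by positivity
  refine ⟨min 1 (min (1 / (10 * Λ * (C * Λ ^ 5 + Λ))) (1 / (2 * Λ ^ 8))),
    lt_min one_pos (lt_min (by positivity) (by positivity)), min_le_left _ _, ?_⟩
  intro P c ν t hb hc h0 hν hn
  obtain ⟨n1, hν⟩ := le_min_iff.1 hν
  obtain ⟨n2, n3⟩ := le_min_iff.1 hν
  rw [le_div_iff₀ Z0] at n2
  rw [le_div_iff₀ Z1] at n3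
  have hK : ∀ x, |(t.T - P.h m).1 x| ≤ C * ν := fun x =>
    (hC _ x).trans (mul_le_mul_of_nonneg_left hn C0.le)
  have pt := CF9_pt t hb h0 n1 hK
  have Li : 0 < Λ⁻¹ := inv_pos.2 L0
  have LL : Λ * Λ⁻¹ = 1 := mul_inv_cancel₀ L0.ne'
  have b0 : 0 ≤ C * ν * Λ ^ 5 + Λ * ν := by positivity
  have b1 : 10 * (C * ν * Λ ^ 5 + Λ * ν) ≤ c := by
    refine le_trans (le_of_mul_le_mul_left (a := Λ) ?_ L0) hc
    rw [LL]
    linarith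
  generalize C * ν * Λ ^ 5 + Λ * ν = β at pt b0 b1
  obtain ⟨z, -, hz⟩ := isCompact_univ.exists_isMinOn univ_nonempty
    (B.cont (t.v * P.u)).continuousOn
  have hz' : ∀ y, (t.v * P.u).1 z ≤ (t.v * P.u).1 y := fun y => hz (mem_univ y)
  have k1 := L_at_min hm P t.v hz'
  have k2 := GG_ge hm P hε d c z
  have k3 : (P.GG m d ε c).1 z = d * (Lc m t.v).1 z := by rw [← t.hv]; rfl
  have k4 : (P.g m).s1.1 z = P.u.1 z ^ 5 * (P.h m).1 z := by rw [P.s1_eq]; rfl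
  have k5 : (P.GG m d ε c).1 z * P.u.1 z ^ 5 ≤ d * (t.v * P.u).1 z * (P.g m).s1.1 z := by
    have := mul_le_mul_of_nonneg_right (mul_le_mul_of_nonneg_left k1 hd.le)
      (pow_pos (P.u_pos z) 5).le
    rw [k3, k4]
    linarith
  have k6 := CF_minpt hΛ hc hd hd1 (P.s1_pos hb.hpos z) b0 b1 h0.le (by linarith) (P.u_pos z)
    (hb.u_le z) (k2.trans k5) (pt z).1 (pt z).2.1 (pt z).2.2
  intro x
  obtain ⟨p1, p2, -⟩ := pt x
  obtain ⟨r1, -, r3, -⟩ := t.root h0 n1 x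
  have c0 : 0 < c := Li.trans_le hc
  have q1 : 2 * c ≤ (P.g m).s1.1 x := by linarith [hz' x]
  have q2 : Λ⁻¹ ≤ (t.v.1 x - ν + t.D.1 x) / 2 * Λ := by
    linarith [mul_le_mul_of_nonneg_left (hb.u_le x) r1.le]
  have q3 : Λ⁻¹ ^ 2 ≤ (t.v.1 x - ν + t.D.1 x) / 2 := by
    have := mul_le_mul_of_nonneg_right q2 Li.le
    rwa [mul_assoc, LL, mul_one, ← sq] at this
  refine ⟨by linarith, by linarith, ?_⟩
  rw [t.T_val, show Λ⁻¹ ^ 6 = Λ⁻¹ ^ 4 * Λ⁻¹ ^ 2 by ring]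
  exact mul_le_mul (pow_le_pow_left₀ Li.le (hb.lo x) 4) q3 (by positivity)
    (pow_pos (P.pos x) 4).le

end Cf

end Base

end Pool.Agent.MP_9bd639_gt.H88

end

-- part CF9b
section

/-! The error in the Euler-Lagrange equation. -/

open Matrix MeasureTheory Filter Topology Set
open scoped ContDiff

namespace Pool.Agent.MP_9bd639_gt.H88

namespace Base

namespace Cf

variable {B : Base} {m : B.Me} {d ε c ν Λ : ℝ} {P : Cf B}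

theorem CF9b_split (t : P.Tg m d ε c ν) {e : B.A} (he : t.T * e = 1) :
    t.v - P.h m * P.u ^ 4 = P.u ^ 4 * (t.T - P.h m) + ν • (1 - e) := by
  have h := t.T_eq
  rw [Algebra.smul_def]
  change _ = _ + B.cst ν * _
  linear_combination (-e) * h + (t.T * P.u ^ 4 - (t.v - B.cst ν)) * he

theorem CF9b_fam {κ : Type} {P : κ → Cf B} {c ν : κ → ℝ} (hm : Pos m) (h1 : Gt0 m.s1)
    (hd : 0 < d) (t : ∀ n, (P n).Tg m d ε (c n) (ν n)) (hP : ∀ n, (P n).Bx m Λ) {C0 : ℝ}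
    (hc : ∀ n, |c n| ≤ C0) (hν : ∀ n, 0 < ν n ∧ ν n ≤ 1) {R : ℝ}
    (hR : ∀ n, B.nrm 1 ((P n).h m) ≤ R) (hT : ∀ n, B.nrm 2 ((t n).T - (P n).h m) ≤ ν n)
    {τ τ' : ℝ} (hτ : 0 < τ) (hτ' : 0 < τ')
    (hlo : ∀ n x, τ ≤ (t n).D.1 x ∧ τ' ≤ (t n).T.1 x) :
    B.Tm ν 2 fun n => (t n).v - (P n).h m * (P n).u ^ 4 := by
  have hh : B.HB (0 + 1) fun n => (P n).h m := HB.of_le hR
  have hT2 : B.HB (0 + 2) fun n => (t n).T :=
    fam_T hm h1 hd hP hc (fun n => by rw [abs_of_pos (hν n).1]; exact (hν n).2) hh t hτ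
      fun n x => (hlo n x).1
  choose e he using fun n => exists_inv (a := (t n).T) fun x => (hτ'.trans_le (hlo n x).2).ne'
  have hE : B.HB (0 + 2) e :=
    HB.inv hT2 hτ' (fun n x => (hlo n x).2) fun n => by rw [mul_comm, he]
  have hu : B.HB (0 + 2) fun n => (P n).u := (fam_φ hm h1 hP (Tm.mono hh (Nat.zero_le _))).2
  have hu4 : B.HB (0 + 2) fun n => (P n).u ^ 4 := Gr.hb.pow hu 4
  have hk : B.Tm ν 2 fun n => (t n).T - (P n).h m :=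
    ⟨1, zero_le_one, fun n => by rw [one_mul]; exact hT n⟩
  have h1e : B.HB 2 fun n => 1 - e n := Gr.hb.sub (HB.const 2 1) hE
  obtain ⟨K, K0, hK⟩ := (hu4.mul_Tm hk le_rfl).add (h1e.scale fun n => (hν n).1.le)
    fun n => (hν n).1.le
  refine ⟨K, K0, fun n => ?_⟩
  exact (congrArg (B.nrm 2) (CF9b_split (t n) (he n))).trans_le (hK n)

/-- With the inverse `e` of `T`: `v - h u ^ 4 = (T - h) u ^ 4 + ν • (1 - e)` (`T_eq`); on the family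
of all data `T` is bounded in `H ^ 2` (`fam_T` with `minp`), so is `e` (`HB.inv`);
`HB.mul_Tm`, `HB.scale`. -/
theorem post (hm : Pos m) (h1 : Gt0 m.s1) (hd : 0 < d) (hd1 : d ≤ 1) (hε : 0 ≤ ε) (Λ R : ℝ) :
    ∃ ν0 K, 0 < ν0 ∧ ν0 ≤ 1 ∧ 0 ≤ K ∧ ∀ (P : Cf B) (c ν : ℝ) (t : P.Tg m d ε c ν), P.Bx m Λ →
      Λ⁻¹ ≤ c → c ≤ Λ → 0 < ν → ν ≤ ν0 → B.nrm 1 (P.h m) ≤ R → B.nrm 2 (t.T - P.h m) ≤ ν →
      (∀ x, c ≤ (P.g m).s1.1 x) ∧ B.nrm 2 (t.v - P.h m * P.u ^ 4) ≤ K * ν := by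
  obtain ⟨ν0, n0, n1, hmin⟩ := minp hm hd hd1 hε Λ
  by_cases hΛ : 1 ≤ Λ
  swap
  · exact ⟨ν0, 0, n0, n1, le_rfl, fun P c ν t hP => absurd hP.one hΛ⟩
  have L0 : 0 < Λ⁻¹ := inv_pos.2 (lt_of_lt_of_le one_pos hΛ)
  let κ : Type := {z : Σ q : Cf B × ℝ × ℝ, q.1.Tg m d ε q.2.1 q.2.2 //
    z.1.1.Bx m Λ ∧ Λ⁻¹ ≤ z.1.2.1 ∧ z.1.2.1 ≤ Λ ∧ 0 < z.1.2.2 ∧ z.1.2.2 ≤ ν0 ∧
      B.nrm 1 (z.1.1.h m) ≤ R ∧ B.nrm 2 (z.2.T - z.1.1.h m) ≤ z.1.2.2}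
  obtain ⟨K, K0, hK⟩ := CF9b_fam (κ := κ) (P := fun n => n.1.1.1) (c := fun n => n.1.1.2.1)
    (ν := fun n => n.1.1.2.2) (ε := ε) hm h1 hd (fun n => n.1.2) (fun n => n.2.1)
    (C0 := Λ) (fun n => by
      rw [abs_of_pos (L0.trans_le n.2.2.1)]
      exact n.2.2.2.1)
    (fun n => ⟨n.2.2.2.2.1, n.2.2.2.2.2.1.trans n1⟩) (R := R) (fun n => n.2.2.2.2.2.2.1)
    (fun n => n.2.2.2.2.2.2.2) (pow_pos L0 2) (pow_pos L0 6)
    (fun n x => (hmin _ _ _ n.1.2 n.2.1 n.2.2.1 n.2.2.2.2.1 n.2.2.2.2.2.1 n.2.2.2.2.2.2.2 x).2)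
  exact ⟨ν0, K, n0, n1, K0, fun P c ν t hP c1 c2 v1 v2 hR hT =>
    ⟨fun x => (hmin P c ν t hP c1 v1 v2 hT x).1,
      hK ⟨⟨(P, c, ν), t⟩, hP, c1, c2, v1, v2, hR, hT⟩⟩⟩

/-- `hv`, `h u ^ 4 = φ * s1`, `cov`. -/
theorem Tg.EL (t : P.Tg m d ε c ν) : (P.g m).s2 = c • (P.g m).s1 + d • (P.g m).s1 ^ 2 +
    (2 * d) • (P.g m).lap (P.g m).s1 + ε • (P.u ^ 4) ^ 2 -
      d • (P.u ^ 5 * Lc m (t.v - P.h m * P.u ^ 4)) := by
  have h4 : P.u ^ 4 * P.φ ^ 4 = 1 := by rw [← mul_pow, P.hu, one_pow]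
  have h5 : P.u ^ 5 * P.φ ^ 5 = 1 := by rw [← mul_pow, P.hu, one_pow]
  have e1 : P.h m * P.u ^ 4 = P.φ * (P.g m).s1 := by
    rw [P.h_eq m]
    linear_combination (P.φ * (P.g m).s1) * h4
  have hv := t.hv
  have hs := P.s1_eq m
  rw [Lc_sub, e1, ← P.cov m]
  rw [GG] at hv
  simp only [Algebra.smul_def, map_mul, map_ofNat] at hv ⊢
  linear_combination P.u ^ 5 * hv -
    ((P.g m).s2 + algebraMap ℝ B.A d * ((P.g m).s1 * (P.g m).s1 - 2 * (P.g m).lap (P.g m).s1)) *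
      h5 - (algebraMap ℝ B.A c + 2 * algebraMap ℝ B.A d * ((P.g m).s1 + P.u ^ 5 * P.h m)) * hs

/-- `GG_φ`, `hv`, `Lc_symm`. -/
theorem Tg.euler (hm : Pos m) (t : P.Tg m d ε c ν) :
    P.Bq m - d * P.Nq m - ε * P.Wq m =
      c * P.Aq m - d * I m ((t.v - P.h m * P.u ^ 4) * P.h m) := by
  have e1 := P.GG_φ hm d ε c
  rw [← t.hv, smul_mul_assoc, I_smul, hm.Lc_symm] at e1
  have e2 : I m ((t.v - P.h m * P.u ^ 4) * P.h m) = I m (t.v * Lc m P.φ) - P.Nq m := by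
    rw [Nq, ← I_sub]
    congr 1
    rw [h]
    ring
  rw [e2]
  linear_combination e1

/-- `I_g`, `u ^ 10 φ ^ 6 = u ^ 4 ≤ Λ ^ 4`, `Pos.nrm0`, `L_bound 0`, `I_mul_le`, `Bx.h0`. -/
theorem err_le (hm : Pos m) (d Λ : ℝ) : ∃ K, 0 ≤ K ∧ ∀ (P : Cf B) (e : B.A), P.Bx m Λ →
    I (P.g m) ((d • (P.u ^ 5 * Lc m e)) ^ 2) ≤ K * B.nrm 2 e ^ 2 ∧
      |d * I m (e * P.h m)| ≤ K * B.nrm 2 e := by
  obtain ⟨C0, c0, h0⟩ := hm.nrm0
  obtain ⟨C1, c1, h1⟩ := L_bound m m.s1 0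
  obtain ⟨C2, c2, h2⟩ := hm.I_mul_le
  have k1 : 0 ≤ d ^ 2 * Λ ^ 4 * C0 * C1 ^ 2 := by positivity
  have k2 : 0 ≤ |d| * C2 * |Λ| := by positivity
  refine ⟨d ^ 2 * Λ ^ 4 * C0 * C1 ^ 2 + |d| * C2 * |Λ|, add_nonneg k1 k2, fun P e hP => ⟨?_, ?_⟩⟩
  · have h6 : P.u ^ 6 * P.φ ^ 6 = 1 := by rw [← mul_pow, P.hu, one_pow]
    have e1 : (d • (P.u ^ 5 * Lc m e)) ^ 2 * P.φ ^ 6 = (d ^ 2) • (P.u ^ 4 * Lc m e ^ 2) := by
      simp only [Algebra.smul_def, map_pow]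
      linear_combination (algebraMap ℝ B.A d ^ 2 * P.u ^ 4 * Lc m e ^ 2) * h6
    have e2 : I m (P.u ^ 4 * Lc m e ^ 2) ≤ Λ ^ 4 * I m (Lc m e ^ 2) := by
      rw [← I_smul]
      refine I_mono m fun x => ?_
      change P.u.1 x ^ 4 * (Lc m e).1 x ^ 2 ≤ Λ ^ 4 * (Lc m e).1 x ^ 2
      exact mul_le_mul_of_nonneg_right (pow_le_pow_left₀ (P.u_pos x).le (hP.u_le x) 4)
        (sq_nonneg _)
    have e3 : B.nrm 0 (Lc m e) ^ 2 ≤ (C1 * B.nrm 2 e) ^ 2 :=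
      pow_le_pow_left₀ (B.nrm_nonneg _ _) (h1 e) 2
    have e4 : I m (Lc m e ^ 2) ≤ C0 * (C1 * B.nrm 2 e) ^ 2 :=
      (h0 _).2.trans (mul_le_mul_of_nonneg_left e3 c0.le)
    rw [P.I_g hm, e1, I_smul]
    calc d ^ 2 * I m (P.u ^ 4 * Lc m e ^ 2) ≤ d ^ 2 * (Λ ^ 4 * (C0 * (C1 * B.nrm 2 e) ^ 2)) :=
          mul_le_mul_of_nonneg_left (e2.trans (mul_le_mul_of_nonneg_left e4 (by positivity)))
            (sq_nonneg d)
      _ = d ^ 2 * Λ ^ 4 * C0 * C1 ^ 2 * B.nrm 2 e ^ 2 := by ring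
      _ ≤ _ := mul_le_mul_of_nonneg_right (le_add_of_nonneg_right k2) (sq_nonneg _)
  · have n0 := B.nrm_nonneg 2 e
    rw [abs_mul]
    calc |d| * |I m (e * P.h m)| ≤ |d| * (C2 * B.nrm 2 e * |Λ|) :=
          mul_le_mul_of_nonneg_left ((h2 _ _).trans (mul_le_mul
            (mul_le_mul_of_nonneg_left (B.nrm_mono (Nat.zero_le 2) e) c2.le)
            (hP.h0.trans (le_abs_self Λ)) (B.nrm_nonneg _ _) (by positivity))) (abs_nonneg d)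
      _ = |d| * C2 * |Λ| * B.nrm 2 e := by ring
      _ ≤ _ := mul_le_mul_of_nonneg_right (le_add_of_nonneg_left k1) n0

end Cf

end Base

end Pool.Agent.MP_9bd639_gt.H88

end

-- part Cf
section

/-! The conformal step. -/

open Matrix MeasureTheory Filter Topology Set
open scoped ContDiff

namespace Pool.Agent.MP_9bd639_gt.H88

namespace Base

variable {B : Base} {m : B.Me} {d ε l F0 k : ℝ}

namespace Cf

theorem c_bd {A Λ : ℝ} (hl : 0 < l) (hΛ : 0 < Λ) (h1 : Λ⁻¹ ≤ A) (h2 : A ≤ Λ) :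
    l / Λ ^ 3 ≤ l / A ^ 3 ∧ l / A ^ 3 ≤ l * Λ ^ 3 := by
  have hA : 0 < A := lt_of_lt_of_le (inv_pos.2 hΛ) h1
  refine ⟨by gcongr, ?_⟩
  rw [div_eq_mul_inv, ← inv_pow]
  gcongr
  exact inv_le_of_inv_le₀ hΛ h1

theorem start (hm : Pos m) (h1 : Gt0 m.s1) (hJ : k < J m) :
    ∃ k' ε d0 : ℝ, k < k' ∧ 0 < ε ∧ 0 < d0 ∧ d0 ≤ 1 / 36 ∧ ∀ d ν : ℝ, 0 < d → d ≤ d0 → 0 < ν →
      ν ≤ 1 → k' / (2 * I m m.s1) ≤ (one B).Fn m d ε (k' * I m m.s1) ν := by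
  have hA : 0 < I m m.s1 := hm.I_pos h1
  have hN := (one B).N_nonneg (m := m)
  have hW := (one B).W_nonneg (m := m)
  have hG := (one B).G_nonpos (m := m) (by rw [one_h]; exact h1)
  have eA : (one B).Aq m = I m m.s1 := by rw [← (one B).A_eq hm, one_g]
  have eB : (one B).Bq m = I m m.s2 := by rw [Bq, one_g]
  set s := (J m - k) / 2 / I m m.s1 with hs
  have s0 : 0 < s := div_pos (by linarith) hA
  set X := (one B).Nq m - 2 * (one B).Gq m + 1 with hX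
  have X0 : 0 < X := by linarith
  refine ⟨(k + J m) / 2, s / 2 / ((one B).Wq m + 1), min (1 / 36) (s / 2 / X), by linarith,
    by positivity, by positivity, min_le_left _ _, fun d ν d0 d1 ν0 ν1 => ?_⟩
  have e1 : d * X ≤ s / 2 := (le_div_iff₀ X0).1 (d1.trans (min_le_right _ _))
  have e2 : s / 2 / ((one B).Wq m + 1) * (one B).Wq m ≤ s / 2 := by
    rw [div_mul_eq_mul_div, div_le_iff₀ (by positivity)]
    nlinarith
  have e3 : (k + J m) / 2 * I m m.s1 / (2 * I m m.s1 ^ 2) = (k + J m) / 2 / (2 * I m m.s1) := by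
    field_simp
  have e4 : I m m.s2 - s = 2 * ((k + J m) / 2 / (2 * I m m.s1)) := by
    rw [hs, J]; field_simp; ring
  have e5 : d * (one B).Gq m ≤ d * ν * (one B).Gq m := by
    nlinarith [mul_nonneg (mul_nonneg d0.le (sub_nonneg.2 ν1)) (neg_nonneg.2 hG)]
  rw [Fn, Ft, eA, eB, e3]
  nlinarith

theorem fixed (hB : B.Good) (hm : Pos m) (h1 : Gt0 m.s1) (hd : 0 < d) (hd1 : d ≤ 1) (hε : 0 < ε)
    (hl : 0 < l) (hF : 0 < F0) (hs : ∀ ν, 0 < ν → ν ≤ 1 → F0 ≤ (one B).Fn m d ε l ν) {η : ℝ}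
    (hη : 0 < η) : ∃ (P : Cf B) (err : B.A), Gt0 (P.h m) ∧ F0 ≤ P.Ft m d ε l ∧
      (∀ x, l / P.Aq m ^ 3 ≤ (P.g m).s1.1 x) ∧
      (P.g m).s2 = (l / P.Aq m ^ 3) • (P.g m).s1 + d • (P.g m).s1 ^ 2 +
        (2 * d) • (P.g m).lap (P.g m).s1 + ε • (P.u ^ 4) ^ 2 - err ∧
      I (P.g m) (err ^ 2) ≤ η ∧
      P.Bq m - d * P.Nq m - ε * P.Wq m ≤ l / P.Aq m ^ 3 * P.Aq m + η := by
  obtain ⟨Λ1, hΛ1⟩ := apriori2 hB hm h1 hd hε hl hF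
  obtain ⟨R, hR⟩ := near hB hm h1 hd hε hl hF
  set Λ := max Λ1 (max (l * Λ1 ^ 3) (Λ1 ^ 3 / l)) with hΛ
  obtain ⟨ν0, K, ν00, ν01, K0, hK⟩ := post hm h1 hd hd1 hε.le Λ R
  obtain ⟨K', K0', hK'⟩ := err_le hm d Λ
  have hp : 0 < K' * (K + 1) ^ 2 + 1 := by positivity
  set ν := min ν0 (η / (K' * (K + 1) ^ 2 + 1)) with hν
  have ν1 : 0 < ν := lt_min ν00 (div_pos hη hp)
  have ν2 : ν ≤ ν0 := min_le_left _ _
  have ν3 : ν * (K' * (K + 1) ^ 2 + 1) ≤ η := (le_div_iff₀ hp).1 (min_le_right _ _)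
  have ν4 : ν ≤ 1 := ν2.trans ν01
  obtain ⟨P, t, hP, hFt, n1, n2⟩ := hR ν ν1 ν4 (hs ν ν1 ν4) ν ν1
  have b1 := hΛ1 P hP hFt
  have Λ0 : 0 < Λ1 := lt_of_lt_of_le one_pos b1.one
  have b2 : P.Bx m Λ := b1.mono (le_max_left _ _)
  obtain ⟨c1, c2⟩ := c_bd hl Λ0 b1.Alo b1.Ahi
  have c3 : Λ⁻¹ ≤ l / P.Aq m ^ 3 := by
    refine le_trans ?_ c1
    rw [← inv_div]
    exact inv_anti₀ (by positivity) ((le_max_right _ _).trans (le_max_right _ _))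
  obtain ⟨p1, p2⟩ := hK P _ ν t b2 c3 (c2.trans ((le_max_left _ _).trans (le_max_right _ _)))
    ν1 ν2 n1 n2
  obtain ⟨q1, q2⟩ := hK' P (t.v - P.h m * P.u ^ 4) b2
  have n0 := B.nrm_nonneg 2 (t.v - P.h m * P.u ^ 4)
  have r1 : K' * (K * ν) ≤ η := by
    nlinarith [mul_nonneg (mul_nonneg ν1.le K0') (by positivity : 0 ≤ K ^ 2 + K + 1)]
  have r2 : K' * (K * ν) ^ 2 ≤ η := by
    have : K' * (K * ν) ^ 2 ≤ ν * (K' * K ^ 2) := by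
      nlinarith [mul_nonneg (mul_nonneg (mul_nonneg K0' (sq_nonneg K)) ν1.le) (sub_nonneg.2 ν4)]
    nlinarith [mul_nonneg (mul_nonneg ν1.le K0') (by positivity : 0 ≤ 2 * K + 1)]
  refine ⟨P, _, hP, hFt, p1, t.EL, q1.trans (le_trans (by gcongr) r2), ?_⟩
  rw [t.euler hm]
  have := (abs_le.1 (q2.trans (le_trans (mul_le_mul_of_nonneg_left p2 K0') r1))).1
  linarith

end Cf

open Cf in
theorem conf_step (hB : B.Good) {m0 : B.Me} (h0 : Pos m0) (h1 : Gt0 m0.s1) {k : ℝ} (hk : 0 < k)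
    (hJ : k < J m0) : ∃ L : ℝ, 0 < L ∧ ∀ δ : ℝ, 0 < δ → ∃ (m : B.Me) (c : ℝ), Pos m ∧
      1 / L ≤ c ∧ c ≤ L ∧ (∀ x, c ≤ m.s1.1 x) ∧ k ≤ c * I m m.s1 ^ 2 ∧
      1 / L ≤ I m m.s2 ∧ I m m.s1 ≤ L ∧
      ∫ x, Real.sqrt (m.p2.1 x) ^ 3 ∂vol m ≤ L ∧
      ∫ x, max (c - m.s2.1 x / m.s1.1 x) 0 ^ 2 ∂vol m ≤ δ := by
  obtain ⟨k', ε, d0, hk', hε, d00, d01, hs⟩ := start h0 h1 hJ
  have hA : 0 < I m0 m0.s1 := h0.I_pos h1
  have k0 : 0 < k' := hk.trans hk'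
  set l := k' * I m0 m0.s1 with hl'
  set F0 := k' / (2 * I m0 m0.s1) with hF'
  have hl : 0 < l := by positivity
  have hF : 0 < F0 := by positivity
  have hlF : 2 * l * F0 = k' ^ 2 := by rw [hl', hF']; field_simp
  obtain ⟨Λ, Λ1, hΛ⟩ := apriori1 hB h0 hε hl hF
  have Λ0 : 0 < Λ := lt_of_lt_of_le one_pos Λ1
  have cc0 : 0 ≤ I m0 m0.cc := I_nonneg m0 (h0.ip3_nonneg _)
  set a := l / Λ ^ 3 with ha
  have a0 : 0 < a := by positivity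
  set Γ := Λ ^ 6 * I m0 m0.cc / 2 + 2 * ε * (8 * Λ ^ 8 * Λ) +
    36 * (l * Λ ^ 3 + ε * Λ ^ 8 / a) ^ 2 * Λ + 1 with hΓ
  have Γ0 : 0 < Γ := by positivity
  refine ⟨10 * Γ + l * Λ ^ 3 + a⁻¹ + Λ + F0⁻¹, by positivity, fun δ hδ => ?_⟩
  set d := min d0 (δ * a / (16 * Γ)) with hd'
  have hd : 0 < d := lt_min d00 (by positivity)
  have d1 : d ≤ d0 := min_le_left _ _
  have d2 : d * (16 * Γ) ≤ δ * a := (le_div_iff₀ (by positivity)).1 (min_le_right _ _)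
  have kk : 0 < k' ^ 2 - k ^ 2 := sub_pos.2 (by gcongr)
  set η := min (a / (36 + 1 / d)) (min (δ * a ^ 2 / 4) ((k' ^ 2 - k ^ 2) / (2 * l))) with hη'
  have hη : 0 < η := by positivity
  have η1 : η * (36 + 1 / d) ≤ a := (le_div_iff₀ (by positivity)).1 (min_le_left _ _)
  have η2 : η ≤ δ * a ^ 2 / 4 := (min_le_right _ _).trans (min_le_left _ _)
  have η3 : η * (2 * l) ≤ k' ^ 2 - k ^ 2 :=
    (le_div_iff₀ (by positivity)).1 ((min_le_right _ _).trans (min_le_right _ _))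
  obtain ⟨P, err, hP, hFt, p1, EL, p2, p3⟩ := fixed hB h0 h1 hd (by linarith) hε hl hF
    (fun ν ν0 ν1 => hs d ν hd d1 ν0 ν1) hη
  obtain ⟨b1, b2, b3, b4, -, -, -⟩ := hΛ d P hd.le hP hFt
  obtain ⟨c1, c2⟩ := c_bd hl Λ0 b2 b3
  have A0 : 0 < P.Aq m0 := lt_of_lt_of_le (inv_pos.2 Λ0) b2
  set c := l / P.Aq m0 ^ 3 with hc
  have c0 : 0 < c := by positivity
  have e0 : 0 ≤ I (P.g m0) (err ^ 2) := I_nonneg _ fun x => sq_nonneg (err.1 x)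
  have hu : ∀ x, ε * (P.u ^ 4).1 x ^ 2 ≤ ε * Λ ^ 8 := fun x => by
    have u0 := P.u_pos x
    have u1 : P.u.1 x ≤ Λ := by rw [P.u_val]; exact inv_le_of_inv_le₀ Λ0 (b1 x)
    calc ε * (P.u ^ 4).1 x ^ 2 = ε * P.u.1 x ^ 8 := by
          change ε * (P.u.1 x ^ 4) ^ 2 = _
          ring
      _ ≤ _ := by gcongr
  have hG : I (P.g m0) (P.g m0).cc / 2 + 2 * ε * I (P.g m0) ((P.g m0).gam (P.u ^ 4) (P.u ^ 4)) +
      36 * (c + ε * Λ ^ 8 / c) ^ 2 * I (P.g m0) (P.g m0).s1 +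
      (36 + 1 / d) / c * I (P.g m0) (err ^ 2) ≤ Γ := by
    have g1 := cc_le h0 Λ0 b1
    have g2 := (gam_le h0 h1 Λ0 b1).trans
      (mul_le_mul_of_nonneg_left b3 (by positivity : 0 ≤ 8 * Λ ^ 8))
    have g3 : (36 + 1 / d) / c * I (P.g m0) (err ^ 2) ≤ 1 := by
      rw [div_mul_eq_mul_div, div_le_one c0]
      calc _ ≤ (36 + 1 / d) * η := by gcongr
        _ ≤ c := by linarith
    rw [P.A_eq h0, hΓ]
    gcongr
  obtain ⟨o1, o2⟩ := (P.g_pos h0).CF_cot c0 hd (by linarith) hε.le p1 hu EL hG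
  have i1 : 0 < a⁻¹ := inv_pos.2 a0
  have i2 : 0 < F0⁻¹ := inv_pos.2 hF
  have i3 : 0 < l * Λ ^ 3 := by positivity
  refine ⟨P.g m0, c, P.g_pos h0, ?_, by linarith, p1, ?_, ?_, ?_, by linarith, o2.trans ?_⟩
  · rw [one_div]
    exact (inv_le_of_inv_le₀ a0 (by linarith)).trans c1
  · rw [P.A_eq h0]
    have e1 : c * P.Aq m0 = 2 * (l / (2 * P.Aq m0 ^ 2)) := by rw [hc]; field_simp
    have e2 : (c * P.Aq m0 ^ 2) ^ 2 = 2 * l * (l / (2 * P.Aq m0 ^ 2)) := by rw [hc]; field_simp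
    have e3 : F0 - η ≤ l / (2 * P.Aq m0 ^ 2) := by rw [Ft] at hFt; linarith
    refine abs_le_of_sq_le_sq' ?_ (by positivity) |>.2
    rw [e2]
    linarith only [mul_le_mul_of_nonneg_left e3 (by positivity : 0 ≤ 2 * l), hlF, η3]
  · rw [one_div]
    exact (inv_le_of_inv_le₀ hF (by linarith)).trans b4
  · rw [P.A_eq h0]
    linarith
  · have f1 : 8 * d * Γ / c ≤ δ / 2 := by
      rw [div_le_iff₀ c0]
      linarith only [mul_le_mul_of_nonneg_left c1 hδ.le, d2]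
    have f2 : 2 * I (P.g m0) (err ^ 2) / c ^ 2 ≤ δ / 2 := by
      rw [div_le_iff₀ (by positivity)]
      have : a ^ 2 ≤ c ^ 2 := by gcongr
      linarith only [mul_le_mul_of_nonneg_left this hδ.le, p2, η2]
    linarith

end Base

end Pool.Agent.MP_9bd639_gt.H88

end
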