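import Mathlib

-- part Defs
section

/-!
Tensor calculus in a redundant frame. `A` is a commutative algebra (smooth functions), `f j` are
the coordinates of an immersion, `X j` the gradients of the `f j` for the induced metric and
`π j k = X j (f k)` the orthogonal projection onto the tangent space. Tensors are arrays over `ι`.
-/

open Matrix

namespace Pool.Agent.MP_9bd639_gt.H88

variable {ι : Type} [Fintype ι] [DecidableEq ι] {A : Type} [CommRing A] [Algebra ℝ A]

/-- A frame algebra of rank three. -/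
structure Fr (ι : Type) [Fintype ι] (A : Type) [CommRing A] [Algebra ℝ A] where
  X : ι → Derivation ℝ A A
  f : ι → A
  symm : ∀ i j, X i (f j) = X j (f i)
  tang : ∀ i a, X i a = ∑ j, X i (f j) * X j a
  brk : ∀ i j a, X i (X j a) - X j (X i a) = ∑ l, (X i (X j (f l)) - X j (X i (f l))) * X l a
  tr3 : ∑ i, X i (f i) = 3

/-- One half. -/
noncomputable def hf (A : Type) [CommRing A] [Algebra ℝ A] : A := algebraMap ℝ A (1 / 2)

theorem two_hf : 2 * hf A = 1 := by
  rw [hf, ← map_ofNat (algebraMap ℝ A) 2, ← map_mul]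
  norm_num

/-- The covariant derivative of an array with values in `V`. -/
def covPi {V : Type} [AddCommGroup V] [Module A V] (Γ : ι → Matrix ι ι A) (c : ι → V → V)
    (i : ι) (Θ : ι → V) : ι → V :=
  fun j => c i (Θ j) - ∑ l, Γ i j l • Θ l

namespace Fr

variable (F : Fr ι A)

/-- The projection onto the tangent space. -/
def π : Matrix ι ι A := of fun i j => F.X i (F.f j)

/-- The entrywise derivative of a matrix. -/
def XM (i : ι) (T : Matrix ι ι A) : Matrix ι ι A := T.map (F.X i)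

/-- The connection matrices of the induced metric. -/
def Γ0 (i : ι) : Matrix ι ι A := F.XM i F.π * F.π - F.π * F.XM i F.π

/-- The covariant derivative of a covariant two-tensor. -/
def cM (Γ : ι → Matrix ι ι A) (i : ι) (T : Matrix ι ι A) : Matrix ι ι A :=
  F.XM i T - Γ i * T - T * (Γ i)ᵀ

/-- The differential of a function. -/
def d0 (a : A) : ι → A := fun i => F.X i a

/-- Iterated derivatives; the head of the list acts first. -/
def Xw : List ι → A → A
  | [], a => a
  | i :: w, a => Xw w (F.X i a)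

/-- A symmetric tangent two-tensor. -/
structure ST (T : Matrix ι ι A) : Prop where
  symm : Tᵀ = T
  tan : F.π * T = T

/-- The symmetric tangent part of an array. -/
noncomputable def sym (U : Matrix ι ι A) : Matrix ι ι A := hf A • (F.π * (U + Uᵀ) * F.π)

/-- A connection on the module `V`. -/
structure IsCn {V : Type} [AddCommGroup V] [Module A V] (c : ι → V → V) : Prop where
  add : ∀ i v w, c i (v + w) = c i v + c i w
  smul : ∀ i (a : A) v, c i (a • v) = F.X i a • v + a • c i v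
  tan : ∀ i v, c i v = ∑ j, F.π i j • c j v

end Fr

/-- A metric `G` with its inverse `γ` on the tangent space. -/
structure Met (F : Fr ι A) where
  G : Matrix ι ι A
  γ : Matrix ι ι A
  G_symm : Gᵀ = G
  γ_symm : γᵀ = γ
  γG : γ * G = F.π
  πG : F.π * G = G
  πγ : F.π * γ = γ

namespace Met

variable {F : Fr ι A} (m : Met F)

/-- The Christoffel combination of the derivative `Θ` of a symmetric tensor (lower indices). -/
noncomputable def kos (Θ : ι → Matrix ι ι A) (i : ι) : Matrix ι ι A :=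
  of fun j n => hf A * (Θ i j n + Θ j i n - Θ n i j)

/-- The connection matrices: `∇_(X i) X j = ∑ l, Γ i j l • X l`. -/
noncomputable def Γ (i : ι) : Matrix ι ι A := F.Γ0 i + kos (fun n => F.cM F.Γ0 n m.G) i * m.γ

/-- Covariant derivatives of arrays of rank 1, 2, 3, 4 in the direction `X i`. -/
noncomputable def c1 : ι → (ι → A) → ι → A := covPi m.Γ fun i a => F.X i a
noncomputable def c2 : ι → Matrix ι ι A → Matrix ι ι A := F.cM m.Γ
noncomputable def c3 : ι → (ι → Matrix ι ι A) → ι → Matrix ι ι A := covPi m.Γ m.c2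
noncomputable def c4 : ι → (ι → ι → Matrix ι ι A) → ι → ι → Matrix ι ι A := covPi m.Γ m.c3

/-- Total covariant derivatives; the new index is the first one. -/
noncomputable def d1 (ω : ι → A) : Matrix ι ι A := of fun i j => m.c1 i ω j
noncomputable def d2 (T : Matrix ι ι A) : ι → Matrix ι ι A := fun i => m.c2 i T
noncomputable def d3 (Θ : ι → Matrix ι ι A) : ι → ι → Matrix ι ι A := fun i => m.c3 i Θ

/-- The trace over the first two indices. -/
def trV {V : Type} [AddCommGroup V] [Module A V] (Θ : ι → ι → V) : V :=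
  ∑ i, ∑ j, m.γ i j • Θ i j

/-- The rough Laplacian of the connection `c`. -/
noncomputable def lapV {V : Type} [AddCommGroup V] [Module A V] (c : ι → V → V) (v : V) : V :=
  m.trV fun i => covPi m.Γ c i fun j => c j v

/-- The trace of a two-tensor. -/
def tr (T : Matrix ι ι A) : A := (m.γ * T).trace

noncomputable def hess (a : A) : Matrix ι ι A := m.d1 (F.d0 a)
noncomputable def lap (a : A) : A := m.tr (m.hess a)
noncomputable def lap1 (ω : ι → A) : ι → A := m.lapV m.c1 ω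
noncomputable def lap2 (T : Matrix ι ι A) : Matrix ι ι A := m.lapV m.c2 T
noncomputable def lap3 (Θ : ι → Matrix ι ι A) : ι → Matrix ι ι A := m.lapV m.c3 Θ

/-- The inner product of arrays induced by a pairing of the values. -/
def ipPi {V W : Type} (ip : V → W → A) (Θ : ι → V) (Θ' : ι → W) : A :=
  ∑ i, ∑ j, m.γ i j * ip (Θ i) (Θ' j)

def ip1 (ω η : ι → A) : A := ω ⬝ᵥ (m.γ *ᵥ η)
def ip2 (T U : Matrix ι ι A) : A := (m.γ * T * m.γ * Uᵀ).trace
def ip3 : (ι → Matrix ι ι A) → (ι → Matrix ι ι A) → A := m.ipPi m.ip2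
def ip4 : (ι → ι → Matrix ι ι A) → (ι → ι → Matrix ι ι A) → A := m.ipPi m.ip3

/-- The carre du champ. -/
def gam (a b : A) : A := m.ip1 (F.d0 a) (F.d0 b)

/-- `T (∇ a, ∇ b)`. -/
def quad (T : Matrix ι ι A) (a b : A) : A := (m.γ *ᵥ F.d0 a) ⬝ᵥ (T *ᵥ (m.γ *ᵥ F.d0 b))

noncomputable def div1 (ω : ι → A) : A := m.tr (m.d1 ω)
noncomputable def div2 (T : Matrix ι ι A) : ι → A := m.trV fun i j k => m.c2 i T j k
/-- The divergence in the first index. -/
noncomputable def div3 (Θ : ι → Matrix ι ι A) : Matrix ι ι A := m.trV (m.d3 Θ)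
/-- The Bianchi operator. -/
noncomputable def bia (T : Matrix ι ι A) : ι → A := m.div2 T - F.d0 (m.tr T)
noncomputable def curl (T : Matrix ι ι A) : ι → Matrix ι ι A :=
  fun i => of fun j k => m.c2 i T j k - m.c2 j T i k

/-- The commutator of the connection `c`, corrected by the bracket. -/
noncomputable def curv {V : Type} [AddCommGroup V] [Module A V] (c : ι → V → V) (i j : ι)
    (v : V) : V :=
  c i (c j v) - c j (c i v) - ∑ l, (m.Γ i j l - m.Γ j i l) • c l v

/-- The curvature matrices: `R (X i, X j) X k = ∑ n, R i j k n • X n`. -/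
noncomputable def R (i j : ι) : Matrix ι ι A :=
  F.XM i (m.Γ j) - F.XM j (m.Γ i) + m.Γ j * m.Γ i - m.Γ i * m.Γ j -
    ∑ l, (m.Γ i j l - m.Γ j i l) • m.Γ l

/-- `Riem i j k l = g (R (X i, X j) X k, X l)`. -/
noncomputable def Riem (i j : ι) : Matrix ι ι A := m.R i j * m.G
noncomputable def Ric : Matrix ι ι A := of fun j k => ∑ i, ∑ l, m.γ i l * m.Riem i j k l
noncomputable def s1 : A := hf A * hf A * m.tr m.Ric
/-- The Schouten tensor. -/
noncomputable def S : Matrix ι ι A := m.Ric - m.s1 • m.G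
noncomputable def p2 : A := m.ip2 m.S m.S
noncomputable def p3 : A := (m.γ * m.S * m.γ * m.S * m.γ * m.S).trace
noncomputable def s2 : A := hf A * (m.s1 ^ 2 - m.p2)
noncomputable def s3 : A := (1 / 6 : ℝ) • (m.s1 ^ 3 - 3 * m.s1 * m.p2 + 2 * m.p3)
/-- `|∇ S| ^ 2`. -/
noncomputable def gS : A := m.ip3 (m.d2 m.S) (m.d2 m.S)
/-- The Cotton tensor and its squared norm. -/
noncomputable def Cot : ι → Matrix ι ι A := m.curl m.S
noncomputable def cc : A := m.ip3 m.Cot m.Cot
/-- The traceless part. -/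
noncomputable def tl (T : Matrix ι ι A) : Matrix ι ι A := T - (1 / 3 : ℝ) • m.tr T • m.G

/-- The Weyl tensor vanishes. -/
def KN : Prop := ∀ i j k l, m.Riem i j k l =
  m.S i l * m.G j k + m.S j k * m.G i l - m.S i k * m.G j l - m.S j l * m.G i k

/-- The variation of the connection matrices in the direction `k`. -/
noncomputable def adot (k : Matrix ι ι A) (i : ι) : Matrix ι ι A := kos (m.d2 k) i * m.γ

/-- Twice the zero order part of the variation of the Schouten tensor. -/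
noncomputable def alg (k : Matrix ι ι A) : Matrix ι ι A :=
  (3 : A) • (m.S * m.γ * k + k * m.γ * m.S) - (2 * m.tr k) • m.S +
    (hf A * (m.s1 * m.tr k - 3 * m.ip2 m.S k)) • m.G

/-- The variation of the Schouten tensor in the direction `k`. -/
noncomputable def varS (k : Matrix ι ι A) : Matrix ι ι A :=
  hf A • (m.d1 (m.div2 k) + (m.d1 (m.div2 k))ᵀ - m.lap2 k - m.hess (m.tr k) -
    (hf A * (m.div1 (m.div2 k) - m.lap (m.tr k))) • m.G + m.alg k)

/-- The velocity `-2 (T + (tr T) g)` of the metric. -/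
def kf (T : Matrix ι ι A) : Matrix ι ι A := (-2 : A) • (T + m.tr T • m.G)

/-- The reaction term of the evolution of the Schouten tensor. -/
noncomputable def Qf (T : Matrix ι ι A) : Matrix ι ι A :=
  (-6 : A) • (T * m.γ * T) + (2 * m.tr T) • T + (hf A * (3 * m.ip2 T T - m.tr T ^ 2)) • m.G

/-- The principal part `γ i j X i X j` and the first order part of the Laplacian. -/
def L0 (a : A) : A := ∑ i, ∑ j, m.γ i j * F.X i (F.X j a)
noncomputable def b0 (l : ι) : A := ∑ i, ∑ j, m.γ i j * m.Γ i j l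

/-- The lower order part of the system for the unknown array `U`. -/
noncomputable def low (U : Matrix ι ι A) : Matrix ι ι A :=
  m.lap2 U - U.map m.L0 + m.Qf (F.sym U)

/-- The reaction term of the evolution of `∇ S` under the Ricci flow. -/
noncomputable def evo3 (i : ι) : Matrix ι ι A :=
  m.c2 i (m.lap2 m.S) - m.lap3 (m.d2 m.S) i + m.c2 i (m.Qf m.S) -
    (m.adot (m.kf m.S) i * m.S + m.S * (m.adot (m.kf m.S) i)ᵀ)

/-- The metric extended by the identity on the normal space. -/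
def ext : Matrix ι ι A := m.G + 1 - F.π

/-- The conformal metric `w⁻² g`, where `v` is the inverse of `w`. -/
def conf (w v : A) (h : w * v = 1) : Met F where
  G := (v * v) • m.G
  γ := (w * w) • m.γ
  G_symm := by rw [transpose_smul, m.G_symm]
  γ_symm := by rw [transpose_smul, m.γ_symm]
  γG := by
    rw [smul_mul_assoc, mul_smul_comm, smul_smul, m.γG,
      show w * w * (v * v) = (w * v) * (w * v) by ring, h, one_mul, one_smul]
  πG := by rw [mul_smul_comm, m.πG]
  πγ := by rw [mul_smul_comm, m.πγ]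

end Met

/-- The induced metric. -/
def Fr.ref (F : Fr ι A) (h : F.π * F.π = F.π) : Met F where
  G := F.π
  γ := F.π
  G_symm := by ext i j; exact F.symm j i
  γ_symm := by ext i j; exact F.symm j i
  γG := h
  πG := h
  πγ := h

/-- A time derivative. -/
structure Dt (F : Fr ι A) where
  D : Derivation ℝ A A
  comm : ∀ i a, D (F.X i a) = F.X i (D a)
  Df : ∀ j, D (F.f j) = 0

/-- The entrywise time derivative of a matrix. -/
def Dt.M {F : Fr ι A} (d : Dt F) (T : Matrix ι ι A) : Matrix ι ι A := T.map d.D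

/-- A morphism of frame algebras. -/
structure Hom {B : Type} [CommRing B] [Algebra ℝ B] (F : Fr ι A) (F' : Fr ι B) where
  φ : A →ₐ[ℝ] B
  comm : ∀ i a, φ (F.X i a) = F'.X i (φ a)
  map_f : ∀ j, φ (F.f j) = F'.f j

omit [DecidableEq ι] in
theorem Hom.map_π {B : Type} [CommRing B] [Algebra ℝ B] {F : Fr ι A} {F' : Fr ι B}
    (h : Hom F F') : F.π.map h.φ = F'.π := by
  ext i j
  simp [Fr.π, h.comm, h.map_f]

/-- The image of a metric. -/
def Met.map {B : Type} [CommRing B] [Algebra ℝ B] {F : Fr ι A} {F' : Fr ι B} (m : Met F)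
    (h : Hom F F') : Met F' where
  G := m.G.map h.φ
  γ := m.γ.map h.φ
  G_symm := by rw [← transpose_map, m.G_symm]
  γ_symm := by rw [← transpose_map, m.γ_symm]
  γG := by rw [← Matrix.map_mul, m.γG, h.map_π]
  πG := by rw [← h.map_π, ← Matrix.map_mul, m.πG]
  πγ := by rw [← h.map_π, ← Matrix.map_mul, m.πγ]

/-- A point together with an orthonormal basis of the tangent space. -/
structure Pt {F : Fr ι A} (m : Met F) where
  ev : A →ₐ[ℝ] ℝ
  e : Matrix (Fin 3) ι ℝ
  γ_eq : m.γ.map ev = eᵀ * e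
  on : e * m.G.map ev * eᵀ = 1

namespace Pt

variable {F : Fr ι A} {m : Met F} (p : Pt m)

/-- Components in the orthonormal basis. -/
def h1 (ω : ι → A) : Fin 3 → ℝ := p.e *ᵥ fun i => p.ev (ω i)
def h2 (T : Matrix ι ι A) : Matrix (Fin 3) (Fin 3) ℝ := p.e * T.map p.ev * p.eᵀ
def h3 (Θ : ι → Matrix ι ι A) (a : Fin 3) : Matrix (Fin 3) (Fin 3) ℝ :=
  ∑ i, p.e a i • p.h2 (Θ i)

end Pt

end Pool.Agent.MP_9bd639_gt.H88

end

-- part A1
section

/-! Basic identities for the projection, the metric and the connection matrices. -/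

open Matrix

namespace Pool.Agent.MP_9bd639_gt.H88

set_option linter.unusedSectionVars false

variable {ι : Type} [Fintype ι] [DecidableEq ι] {A : Type} [CommRing A] [Algebra ℝ A]

namespace Fr

variable (F : Fr ι A)

theorem π_apply (i j : ι) : F.π i j = F.X i (F.f j) := rfl
theorem XM_apply (i : ι) (T : Matrix ι ι A) (j k : ι) : F.XM i T j k = F.X i (T j k) := rfl
theorem π_symm : F.πᵀ = F.π := by ext i j; exact F.symm j i
theorem π_idem : F.π * F.π = F.π := by
  ext i k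
  rw [Matrix.mul_apply]
  exact (F.tang i (F.f k)).symm
theorem π_trace : F.π.trace = 3 := F.tr3
theorem X_tan (i : ι) (a : A) : F.X i a = ∑ j, F.π i j * F.X j a := F.tang i a
theorem π_d0 (a : A) : F.π *ᵥ F.d0 a = F.d0 a := by
  funext i
  exact (F.tang i a).symm
theorem X_hf (i : ι) : F.X i (hf A) = 0 := Derivation.map_algebraMap _ _
theorem X_mul (i : ι) (a b : A) : F.X i (a * b) = F.X i a * b + a * F.X i b := by
  rw [Derivation.leibniz, smul_eq_mul, smul_eq_mul]; ring
theorem X_ofNat (i : ι) (n : ℕ) [n.AtLeastTwo] : F.X i (OfNat.ofNat n : A) = 0 := Derivation.map_natCast (F.X i) n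
theorem XM_add (i : ι) (T U : Matrix ι ι A) : F.XM i (T + U) = F.XM i T + F.XM i U := by
  ext j k; simp [XM_apply]
theorem XM_sub (i : ι) (T U : Matrix ι ι A) : F.XM i (T - U) = F.XM i T - F.XM i U := by
  ext j k; simp [XM_apply]
theorem XM_neg (i : ι) (T : Matrix ι ι A) : F.XM i (-T) = -F.XM i T := by
  ext j k; simp [XM_apply]
theorem XM_zero (i : ι) : F.XM i 0 = 0 := by
  ext j k; simp [XM_apply]
theorem XM_one (i : ι) : F.XM i 1 = 0 := by
  ext j k
  by_cases h : j = k <;> simp [XM_apply, one_apply, h]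
theorem XM_mul (i : ι) (T U : Matrix ι ι A) :
    F.XM i (T * U) = F.XM i T * U + T * F.XM i U := by
  ext j k
  simp only [XM_apply, Matrix.mul_apply, Matrix.add_apply, map_sum, X_mul, Finset.sum_add_distrib]
theorem XM_smul (i : ι) (a : A) (T : Matrix ι ι A) :
    F.XM i (a • T) = F.X i a • T + a • F.XM i T := by
  ext j k
  simp only [XM_apply, Matrix.smul_apply, Matrix.add_apply, smul_eq_mul, X_mul]
theorem XM_transpose (i : ι) (T : Matrix ι ι A) : F.XM i Tᵀ = (F.XM i T)ᵀ := rfl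
theorem XM_sum {κ : Type} (s : Finset κ) (i : ι) (T : κ → Matrix ι ι A) :
    F.XM i (∑ k ∈ s, T k) = ∑ k ∈ s, F.XM i (T k) := by
  ext j l
  simp only [XM_apply, Matrix.sum_apply, map_sum]
theorem XM_tan (i : ι) (T : Matrix ι ι A) : F.XM i T = ∑ j, F.π i j • F.XM j T := by
  ext j l
  simp only [XM_apply, Matrix.sum_apply, Matrix.smul_apply, smul_eq_mul]
  exact F.X_tan i _
theorem X_trace (i : ι) (T : Matrix ι ι A) : F.X i T.trace = (F.XM i T).trace := by
  simp only [Matrix.trace, diag_apply, map_sum, XM_apply]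
theorem XM_π (i : ι) : F.XM i F.π = F.XM i F.π * F.π + F.π * F.XM i F.π := by
  rw [← XM_mul, π_idem]
theorem π_XM_π (i : ι) : F.π * F.XM i F.π * F.π = 0 := by
  have h := congrArg (fun T => F.π * T * F.π) (F.XM_π i)
  simp only [mul_add, add_mul] at h
  rw [← mul_assoc, mul_assoc _ F.π F.π, π_idem, ← mul_assoc F.π F.π, π_idem] at h
  exact left_eq_add.mp h
theorem Γ0_transpose (i : ι) : (F.Γ0 i)ᵀ = -F.Γ0 i := by
  rw [Γ0, transpose_sub, transpose_mul, transpose_mul, ← XM_transpose, π_symm, neg_sub]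
theorem Γ0_tan (i : ι) : F.Γ0 i = ∑ j, F.π i j • F.Γ0 j := by
  simp only [Γ0, smul_sub, Finset.sum_sub_distrib]
  rw [F.XM_tan i F.π, Finset.sum_mul, Finset.mul_sum]
  simp only [smul_mul_assoc, mul_smul_comm]
theorem Γ0_π (i : ι) : F.XM i F.π = F.Γ0 i * F.π - F.π * F.Γ0 i := by
  rw [Γ0, sub_mul, mul_sub, mul_assoc _ F.π F.π, π_idem, π_XM_π, ← mul_assoc, π_XM_π,
    ← mul_assoc, π_idem, sub_zero, zero_sub, sub_neg_eq_add]
  exact F.XM_π i
theorem π_Γ0_π (i : ι) : F.π * F.Γ0 i * F.π = 0 := by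
  rw [Γ0, mul_sub, sub_mul, ← mul_assoc, π_XM_π, ← mul_assoc, π_idem, π_XM_π, zero_mul, sub_zero]
/-- Use `brk`, `X_tan` and `π_XM_π`. -/
theorem tors0 (i j : ι) (a : A) :
    F.X i (F.X j a) - F.X j (F.X i a) = ∑ l, (F.Γ0 i j l - F.Γ0 j i l) * F.X l a := by
  have h : ∀ n, F.Γ0 n *ᵥ F.d0 a = F.XM n F.π *ᵥ F.d0 a := fun n => by
    rw [Γ0, sub_mulVec, ← mulVec_mulVec, π_d0]
    conv_lhs => rw [← F.π_d0 a, mulVec_mulVec, mulVec_mulVec, π_XM_π, zero_mulVec, sub_zero]
    rw [← mulVec_mulVec, π_d0]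
  have h1 := congrFun (h i) j
  have h2 := congrFun (h j) i
  simp only [mulVec, dotProduct, d0, XM_apply, π_apply] at h1 h2
  rw [F.brk]
  simp only [sub_mul, Finset.sum_sub_distrib, h1, h2]
theorem ST.tan' {T : Matrix ι ι A} (h : F.ST T) : T * F.π = T := by
  have := congrArg transpose h.tan
  rwa [transpose_mul, h.symm, π_symm] at this
theorem ST.add {T U : Matrix ι ι A} (h : F.ST T) (h' : F.ST U) : F.ST (T + U) :=
  ⟨by rw [transpose_add, h.symm, h'.symm], by rw [mul_add, h.tan, h'.tan]⟩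
theorem ST.sub {T U : Matrix ι ι A} (h : F.ST T) (h' : F.ST U) : F.ST (T - U) :=
  ⟨by rw [transpose_sub, h.symm, h'.symm], by rw [mul_sub, h.tan, h'.tan]⟩
theorem ST.smul {T : Matrix ι ι A} (h : F.ST T) (a : A) : F.ST (a • T) :=
  ⟨by rw [transpose_smul, h.symm], by rw [mul_smul_comm, h.tan]⟩
theorem ST.rsmul {T : Matrix ι ι A} (h : F.ST T) (a : ℝ) : F.ST (a • T) :=
  ⟨by rw [transpose_smul, h.symm], by rw [mul_smul_comm, h.tan]⟩
theorem ST_sym (U : Matrix ι ι A) : F.ST (F.sym U) := by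
  refine ⟨?_, ?_⟩
  · rw [sym, transpose_smul, transpose_mul, transpose_mul, π_symm, transpose_add,
      transpose_transpose, add_comm, mul_assoc]
  · rw [sym, mul_smul_comm, ← mul_assoc, ← mul_assoc, π_idem]
theorem ST.sym_eq {T : Matrix ι ι A} (h : F.ST T) : F.sym T = T := by
  rw [sym, h.symm, mul_add, h.tan, add_mul, h.tan', ← two_smul A T, smul_smul, mul_comm, two_hf,
    one_smul]
theorem ST_dd (a : A) : F.ST (vecMulVec (F.d0 a) (F.d0 a)) :=
  ⟨transpose_vecMulVec _ _, by rw [mul_vecMulVec, π_d0]⟩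
theorem Xw_append (w w' : List ι) (a : A) : F.Xw (w ++ w') a = F.Xw w' (F.Xw w a) := by
  induction w generalizing a with
  | nil => rfl
  | cons i w ih => exact ih _
theorem Xw_add (w : List ι) (a b : A) : F.Xw w (a + b) = F.Xw w a + F.Xw w b := by
  induction w generalizing a b with
  | nil => rfl
  | cons i w ih => simp only [Xw, map_add, ih]
theorem Xw_sub (w : List ι) (a b : A) : F.Xw w (a - b) = F.Xw w a - F.Xw w b := by
  induction w generalizing a b with
  | nil => rfl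
  | cons i w ih => simp only [Xw, map_sub, ih]
theorem Xw_rsmul (w : List ι) (c : ℝ) (a : A) : F.Xw w (c • a) = c • F.Xw w a := by
  induction w generalizing a with
  | nil => rfl
  | cons i w ih => simp only [Xw, Derivation.map_smul, ih]

end Fr

/-- Jacobi: the determinant is multilinear in the rows; `Matrix.det_updateRow_*`, cramer or
adjugate (`adjugate M = det M • N`). -/
theorem der_det (δ : Derivation ℝ A A) {M N : Matrix ι ι A} (h : M * N = 1) :
    δ M.det = M.det * (N * M.map δ).trace := by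
  have hp : ∀ (s : Finset ι) (a : ι → A),
      δ (∏ i ∈ s, a i) = ∑ j ∈ s, ∏ i ∈ s, Function.update a j (δ (a j)) i := by
    intro s a
    induction s using Finset.induction_on with
    | empty => simp
    | insert k s hk ih =>
      rw [Finset.prod_insert hk, Derivation.leibniz, ih, Finset.sum_insert hk,
        Finset.prod_insert hk, Function.update_self, smul_eq_mul, smul_eq_mul, Finset.mul_sum,
        add_comm, mul_comm, Finset.prod_update_of_notMem hk]
      congr 1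
      refine Finset.sum_congr rfl fun j hj => ?_
      rw [Finset.prod_insert hk, Function.update_of_ne (by rintro rfl; exact hk hj)]
  have ha : M.adjugate = M.det • N := by
    rw [← mul_one M.adjugate, ← h, ← mul_assoc, adjugate_mul, smul_mul_assoc, one_mul]
  have h1 : δ M.det = ∑ j, (M.updateCol j fun i => δ (M i j)).det := by
    simp only [det_apply', map_sum]
    rw [Finset.sum_comm]
    refine Finset.sum_congr rfl fun σ _ => ?_
    rw [Derivation.leibniz, Derivation.map_intCast, smul_zero, add_zero, hp, smul_eq_mul,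
      Finset.mul_sum]
    refine Finset.sum_congr rfl fun j _ => ?_
    congr 1
    refine Finset.prod_congr rfl fun i _ => ?_
    by_cases hij : i = j
    · subst hij; simp
    · simp [hij]
  rw [h1, Matrix.trace, Finset.mul_sum]
  refine Finset.sum_congr rfl fun j _ => ?_
  rw [← cramer_apply, cramer_eq_adjugate_mulVec, ha, smul_mulVec]
  simp [mulVec, dotProduct, Matrix.mul_apply]

namespace Met

variable {F : Fr ι A} (m : Met F)

theorem Gγ : m.G * m.γ = F.π := by
  have := congrArg transpose m.γG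
  rwa [transpose_mul, m.G_symm, m.γ_symm, F.π_symm] at this
theorem Gπ : m.G * F.π = m.G := by
  have := congrArg transpose m.πG
  rwa [transpose_mul, m.G_symm, F.π_symm] at this
theorem γπ : m.γ * F.π = m.γ := by
  have := congrArg transpose m.πγ
  rwa [transpose_mul, m.γ_symm, F.π_symm] at this
theorem γ_apply_symm (i j : ι) : m.γ i j = m.γ j i := (congrFun (congrFun m.γ_symm j) i)
theorem G_apply_symm (i j : ι) : m.G i j = m.G j i := (congrFun (congrFun m.G_symm j) i)
theorem ST_G : F.ST m.G := ⟨m.G_symm, m.πG⟩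
theorem tr_G : m.tr m.G = 3 := by rw [tr, m.γG, F.π_trace]
theorem tr_eq (T : Matrix ι ι A) : m.tr T = ∑ i, ∑ j, m.γ i j * T i j := by
  simp only [tr, Matrix.trace, diag_apply, Matrix.mul_apply]
  rw [Finset.sum_comm]
  exact Finset.sum_congr rfl fun i _ => Finset.sum_congr rfl fun j _ => by
    rw [m.γ_apply_symm]
theorem tr_add (T U : Matrix ι ι A) : m.tr (T + U) = m.tr T + m.tr U := by
  rw [tr, mul_add, trace_add]; rfl
theorem tr_sub (T U : Matrix ι ι A) : m.tr (T - U) = m.tr T - m.tr U := by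
  rw [tr, mul_sub, trace_sub]; rfl
theorem tr_smul (a : A) (T : Matrix ι ι A) : m.tr (a • T) = a * m.tr T := by
  rw [tr, mul_smul_comm, trace_smul]; rfl
theorem tr_rsmul (a : ℝ) (T : Matrix ι ι A) : m.tr (a • T) = a • m.tr T := by
  rw [tr, mul_smul_comm, trace_smul]; rfl
theorem tr_transpose (T : Matrix ι ι A) : m.tr Tᵀ = m.tr T := by
  rw [tr, ← trace_transpose, transpose_mul, transpose_transpose, m.γ_symm, trace_mul_comm]; rfl
theorem tr_vec (ω η : ι → A) : m.tr (vecMulVec ω η) = m.ip1 ω η := by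
  rw [tr, mul_vecMulVec, trace_vecMulVec, ip1, dotProduct_mulVec, ← mulVec_transpose, m.γ_symm]
theorem tr_tl (T : Matrix ι ι A) : m.tr (m.tl T) = 0 := by
  rw [tl, tr_sub, tr_rsmul, tr_smul, tr_G, Algebra.smul_def, ← map_ofNat (algebraMap ℝ A) 3,
    mul_comm (m.tr T), ← mul_assoc, ← map_mul]
  norm_num
theorem ip1_eq (ω η : ι → A) : m.ip1 ω η = ∑ i, ∑ j, m.γ i j * (ω i * η j) := by
  simp only [ip1, dotProduct, mulVec, Finset.mul_sum]
  exact Finset.sum_congr rfl fun i _ => Finset.sum_congr rfl fun j _ => by ring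
theorem ip1_comm (ω η : ι → A) : m.ip1 ω η = m.ip1 η ω := by
  rw [ip1, ip1, dotProduct_mulVec, ← mulVec_transpose, m.γ_symm, dotProduct_comm]
theorem ip2_eq (T U : Matrix ι ι A) : m.ip2 T U = m.ipPi m.ip1 (fun i => T i) fun i => U i := by
  have h : m.ip2 T U = m.tr (T * m.γ * Uᵀ) := by simp only [ip2, tr, mul_assoc]
  rw [h, tr_eq, ipPi]
  refine Finset.sum_congr rfl fun i _ => Finset.sum_congr rfl fun j _ => ?_
  congr 1
  rw [ip1, dotProduct_mulVec]
  rfl
theorem ip2_comm (T U : Matrix ι ι A) : m.ip2 T U = m.ip2 U T := by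
  rw [ip2, ip2, ← trace_transpose]
  simp only [transpose_mul, transpose_transpose, m.γ_symm, ← mul_assoc]
  rw [trace_mul_comm]
  simp only [mul_assoc]
theorem ip3_comm (Θ Ξ : ι → Matrix ι ι A) : m.ip3 Θ Ξ = m.ip3 Ξ Θ := by
  simp only [ip3, ipPi]
  rw [Finset.sum_comm]
  exact Finset.sum_congr rfl fun i _ => Finset.sum_congr rfl fun j _ => by
    rw [m.γ_apply_symm, m.ip2_comm]
theorem ip2_G (T : Matrix ι ι A) : m.ip2 T m.G = m.tr T := by
  rw [ip2, m.G_symm, mul_assoc, m.γG, trace_mul_comm, ← mul_assoc, m.πγ, tr]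
theorem ip2_add (T U V : Matrix ι ι A) : m.ip2 (T + U) V = m.ip2 T V + m.ip2 U V := by
  simp only [ip2, mul_add, add_mul, trace_add]
theorem ip2_sub (T U V : Matrix ι ι A) : m.ip2 (T - U) V = m.ip2 T V - m.ip2 U V := by
  simp only [ip2, mul_sub, sub_mul, trace_sub]
theorem ip2_smul (a : A) (T V : Matrix ι ι A) : m.ip2 (a • T) V = a * m.ip2 T V := by
  simp only [ip2, mul_smul_comm, smul_mul_assoc, trace_smul, smul_eq_mul]
theorem ip2_rsmul (a : ℝ) (T V : Matrix ι ι A) : m.ip2 (a • T) V = a • m.ip2 T V := by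
  simp only [ip2, mul_smul_comm, smul_mul_assoc, trace_smul]
theorem ip2_transpose (T U : Matrix ι ι A) : m.ip2 Tᵀ Uᵀ = m.ip2 T U := by
  rw [ip2, ip2, ← trace_transpose]
  simp only [transpose_mul, transpose_transpose, m.γ_symm]
  rw [trace_mul_comm]
  simp only [mul_assoc]
theorem ip2_vec (T : Matrix ι ι A) (a b : A) :
    m.ip2 T (vecMulVec (F.d0 a) (F.d0 b)) = m.quad T a b := by
  rw [ip2, transpose_vecMulVec, mul_vecMulVec, trace_vecMulVec, quad, ← mulVec_mulVec,
    ← mulVec_mulVec, dotProduct_comm, dotProduct_mulVec, ← mulVec_transpose, m.γ_symm]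
theorem quad_G (a b : A) : m.quad m.G a b = m.gam a b := by
  rw [quad, mulVec_mulVec, m.Gγ, F.π_d0, gam, ip1_comm, ip1, dotProduct_comm]
theorem gam_comm (a b : A) : m.gam a b = m.gam b a := m.ip1_comm _ _
theorem gam_add (a b c : A) : m.gam (a + b) c = m.gam a c + m.gam b c := by
  simp only [gam, ip1, Fr.d0, dotProduct, map_add, add_mul, Finset.sum_add_distrib]
theorem gam_sub (a b c : A) : m.gam (a - b) c = m.gam a c - m.gam b c := by
  simp only [gam, ip1, Fr.d0, dotProduct, map_sub, sub_mul, Finset.sum_sub_distrib]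
theorem gam_mul (a b c : A) : m.gam (a * b) c = a * m.gam b c + b * m.gam a c := by
  simp only [gam, ip1, Fr.d0, dotProduct, F.X_mul, Finset.mul_sum, ← Finset.sum_add_distrib]
  exact Finset.sum_congr rfl fun i _ => by ring
theorem gam_rsmul (r : ℝ) (a c : A) : m.gam (r • a) c = r • m.gam a c := by
  simp only [gam, ip1, Fr.d0, dotProduct, Derivation.map_smul, smul_mul_assoc, Finset.smul_sum]
theorem gam_const (r : ℝ) (c : A) : m.gam (algebraMap ℝ A r) c = 0 := by
  simp only [gam, ip1, Fr.d0, dotProduct, Derivation.map_algebraMap, zero_mul,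
    Finset.sum_const_zero]
theorem ext_inv : m.ext * (m.γ + 1 - F.π) = 1 := by
  simp only [ext, mul_add, mul_sub, add_mul, sub_mul, m.Gγ, m.Gπ, m.πγ, F.π_idem, mul_one,
    one_mul]
  abel
theorem XM_γ_eq (i : ι) : F.XM i m.γ =
    F.XM i F.π - (m.γ + 1 - F.π) * (F.XM i m.G - F.XM i F.π) * (m.γ + 1 - F.π) := by
  have h := congrArg (F.XM i) m.ext_inv
  have h' : (m.γ + 1 - F.π) * m.ext = 1 := mul_eq_one_comm.mp m.ext_inv
  rw [F.XM_mul, F.XM_one] at h
  have h2 := congrArg (fun T => (m.γ + 1 - F.π) * T) h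
  simp only [mul_add (m.γ + 1 - F.π), mul_zero] at h2
  rw [← mul_assoc _ m.ext, h', one_mul, ← mul_assoc, ext] at h2
  simp only [F.XM_sub, F.XM_add, F.XM_one, add_zero] at h2
  rw [eq_sub_iff_add_eq, add_comm, ← sub_eq_zero, add_sub_assoc]
  exact h2
theorem X_det (i : ι) : F.X i m.ext.det = m.ext.det * m.tr (F.XM i m.G) := by
  rw [der_det (F.X i) m.ext_inv]
  congr 1
  have e : m.ext.map (F.X i) = F.XM i m.G - F.XM i F.π := by
    change F.XM i m.ext = _
    simp only [ext, F.XM_sub, F.XM_add, F.XM_one, add_zero]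
  have h1 : (m.γ * F.XM i F.π).trace = 0 := by
    rw [← m.πγ, ← m.γπ, mul_assoc, trace_mul_comm, mul_assoc, mul_assoc,
      ← mul_assoc F.π, F.π_XM_π, mul_zero, trace_zero]
  have h2 : ∀ T : Matrix ι ι A, F.π * T = T → T * F.π = T →
      ((1 - F.π) * F.XM i T).trace = 0 := fun T hl hr => by
    have q : (1 - F.π) * (1 - F.π) = 1 - F.π := by
      simp only [mul_sub, sub_mul, mul_one, one_mul, F.π_idem, sub_self, sub_zero]
    have ql : (1 - F.π) * T = 0 := by rw [sub_mul, one_mul, hl, sub_self]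
    have qr : T * (1 - F.π) = 0 := by rw [mul_sub, mul_one, hr, sub_self]
    have qp : (1 - F.π) * F.π = 0 := by rw [sub_mul, one_mul, F.π_idem, sub_self]
    rw [← q, mul_assoc, trace_mul_comm, ← hl, F.XM_mul, mul_add, ← mul_assoc _ F.π, qp,
      zero_mul, add_zero, mul_assoc, mul_assoc, qr, mul_zero, mul_zero, trace_zero]
  have h3 := h2 m.G m.πG m.Gπ
  have h4 := h2 F.π F.π_idem F.π_idem
  rw [e, add_sub_assoc, add_mul, mul_sub, mul_sub, trace_add, trace_sub, trace_sub, h1, h3, h4,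
    tr]
  simp
theorem kos_symm {Θ : ι → Matrix ι ι A} (h : ∀ n, (Θ n)ᵀ = Θ n) (i j n : ι) :
    kos Θ i j n = kos Θ j i n := by
  have := congrFun (congrFun (h n) i) j
  simp only [kos, of_apply, transpose_apply] at this ⊢
  rw [this, add_comm]
theorem kos_add {Θ : ι → Matrix ι ι A} (h : ∀ n, (Θ n)ᵀ = Θ n) (i : ι) :
    kos Θ i + (kos Θ i)ᵀ = Θ i := by
  ext j n
  have h1 := congrFun (congrFun (h i) j) n
  have h2 := congrFun (congrFun (h j) i) n
  have h3 := congrFun (congrFun (h n) i) j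
  simp only [kos, of_apply, transpose_apply, Matrix.add_apply] at h1 h2 h3 ⊢
  rw [h1]
  linear_combination (Θ i j n) * two_hf (A := A)
/-- `kos` of a tensor that is tangent in all three indices is tangent in all three indices. -/
theorem kos_tan {Θ : ι → Matrix ι ι A} (h : ∀ n, F.ST (Θ n))
    (h' : ∀ n, Θ n = ∑ j, F.π n j • Θ j) (i : ι) :
    F.π * kos Θ i = kos Θ i ∧ kos Θ i * F.π = kos Θ i ∧ kos Θ i = ∑ j, F.π i j • kos Θ j := by
  have a1 : ∀ n j k, ∑ l, F.π n l * Θ l j k = Θ n j k := fun n j k => by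
    have := congrFun (congrFun (h' n) j) k
    simp only [Matrix.sum_apply, Matrix.smul_apply, smul_eq_mul] at this
    exact this.symm
  have a2 : ∀ n j k, ∑ l, F.π j l * Θ n l k = Θ n j k := fun n j k =>
    congrFun (congrFun (h n).tan j) k
  have a3 : ∀ n j k, ∑ l, F.π k l * Θ n j l = Θ n j k := fun n j k => by
    have e : ∀ a b, Θ n a b = Θ n b a := fun a b => congrFun (congrFun (h n).symm b) a
    simp only [e j]
    exact a2 n k j
  have key : ∀ (k : ι) (x y z : ι → A), ∑ l, F.π k l * (hf A * (x l + y l - z l)) =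
      hf A * (∑ l, F.π k l * x l + ∑ l, F.π k l * y l - ∑ l, F.π k l * z l) := fun k x y z => by
    rw [← Finset.sum_add_distrib, ← Finset.sum_sub_distrib, Finset.mul_sum]
    exact Finset.sum_congr rfl fun l _ => by ring
  refine ⟨?_, ?_, ?_⟩
  · ext j n
    simp only [Matrix.mul_apply, kos, of_apply]
    rw [key, a1, a2, a3]
  · ext j n
    simp only [Matrix.mul_apply, kos, of_apply]
    have : ∀ l, F.π l n = F.π n l := fun l => F.symm l n
    simp only [this, mul_comm _ (F.π n _)]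
    rw [key, a1, a3, a3]
  · ext j n
    simp only [Matrix.sum_apply, Matrix.smul_apply, smul_eq_mul, kos, of_apply]
    rw [key, a1, a2, a2]
theorem cM_tan {Γ : ι → Matrix ι ι A} {i : ι} (h : F.XM i F.π = Γ i * F.π - F.π * Γ i)
    {T : Matrix ι ι A} (hT : F.π * T = T) : F.π * F.cM Γ i T = F.cM Γ i T := by
  have h1 := F.XM_mul i F.π T
  rw [hT, h, sub_mul, mul_assoc, hT] at h1
  rw [Fr.cM, mul_sub, mul_sub, ← mul_assoc, ← mul_assoc, hT]
  congr 1
  rw [sub_eq_sub_iff_add_eq_add]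
  conv_rhs => rw [h1]
  abel
theorem cM_transpose (Γ : ι → Matrix ι ι A) (i : ι) (T : Matrix ι ι A) :
    (F.cM Γ i T)ᵀ = F.cM Γ i Tᵀ := by
  simp only [Fr.cM, transpose_sub, transpose_mul, transpose_transpose, F.XM_transpose]
  abel
theorem cM_dir {Γ : ι → Matrix ι ι A} (h : ∀ i, Γ i = ∑ j, F.π i j • Γ j) (T : Matrix ι ι A)
    (i : ι) : F.cM Γ i T = ∑ j, F.π i j • F.cM Γ j T := by
  simp only [Fr.cM, smul_sub, Finset.sum_sub_distrib]
  rw [F.XM_tan i T, h i, Finset.sum_mul, transpose_sum, Finset.mul_sum]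
  simp only [smul_mul_assoc, mul_smul_comm, transpose_smul]
theorem ST_cM0 (n : ι) : F.ST (F.cM F.Γ0 n m.G) :=
  ⟨by rw [cM_transpose, m.G_symm], cM_tan (F.Γ0_π n) m.πG⟩
theorem kos0_tan (i : ι) : F.π * kos (fun n => F.cM F.Γ0 n m.G) i =
      kos (fun n => F.cM F.Γ0 n m.G) i ∧
    kos (fun n => F.cM F.Γ0 n m.G) i * F.π = kos (fun n => F.cM F.Γ0 n m.G) i ∧
    kos (fun n => F.cM F.Γ0 n m.G) i = ∑ j, F.π i j • kos (fun n => F.cM F.Γ0 n m.G) j :=
  kos_tan m.ST_cM0 (cM_dir F.Γ0_tan m.G) i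
theorem tors_eq' (i j l : ι) : m.Γ i j l - m.Γ j i l = F.Γ0 i j l - F.Γ0 j i l := by
  have h : ∀ n, kos (fun n => F.cM F.Γ0 n m.G) i j n = kos (fun n => F.cM F.Γ0 n m.G) j i n :=
    kos_symm (fun n => (m.ST_cM0 n).symm) i j
  simp only [Γ, Matrix.add_apply, Matrix.mul_apply, h]
  ring
theorem Γ_tan (i : ι) : m.Γ i = ∑ j, F.π i j • m.Γ j := by
  simp only [Γ, smul_add, Finset.sum_add_distrib]
  rw [← F.Γ0_tan, (m.kos0_tan i).2.2, Finset.sum_mul]
  simp only [smul_mul_assoc]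
theorem Γ_π (i : ι) : F.XM i F.π = m.Γ i * F.π - F.π * m.Γ i := by
  rw [Γ, add_mul, mul_add, mul_assoc, m.γπ, ← mul_assoc, (m.kos0_tan i).1, F.Γ0_π]
  abel
theorem c2_G (i : ι) : m.c2 i m.G = 0 := by
  have h := kos_add (fun n => (m.ST_cM0 n).symm) i
  have h2 := congrArg transpose (m.kos0_tan i).2.1
  rw [transpose_mul, F.π_symm] at h2
  rw [c2, Fr.cM, Γ, add_mul, mul_assoc, m.γG, (m.kos0_tan i).2.1, transpose_add, transpose_mul,
    m.γ_symm, mul_add, ← mul_assoc, m.Gγ, h2, ← sub_eq_zero.mpr h.symm]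
  generalize kos (fun n => F.cM F.Γ0 n m.G) i = K
  rw [Fr.cM]
  abel
theorem XM_γ (i : ι) : F.XM i m.γ = -((m.Γ i)ᵀ * m.γ + m.γ * m.Γ i) := by
  have h0 : F.XM i m.G = m.Γ i * m.G + m.G * (m.Γ i)ᵀ := by
    have := m.c2_G i
    rw [c2, Fr.cM, sub_sub, sub_eq_zero] at this
    exact this
  have h1 := congrArg (fun T => T * m.γ) (F.XM_mul i m.γ m.G)
  have h2 := F.XM_mul i m.γ F.π
  have h3 := m.Γ_π i
  have h4 := congrArg transpose h3
  rw [← F.XM_transpose, transpose_sub, transpose_mul, transpose_mul, F.π_symm] at h4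
  simp only [m.γG, h0, add_mul, mul_add, mul_assoc, m.Gγ] at h1
  rw [h4, sub_mul, mul_assoc, mul_assoc, m.πγ, ← mul_assoc m.γ m.G, m.γG] at h1
  rw [m.γπ, h3, mul_sub, ← mul_assoc m.γ F.π, m.γπ] at h2
  rw [h2, ← sub_eq_zero, ← sub_eq_zero.mpr h1.symm]
  abel
theorem tors (i j : ι) (a : A) :
    F.X i (F.X j a) - F.X j (F.X i a) = ∑ l, (m.Γ i j l - m.Γ j i l) * F.X l a := by
  simp only [m.tors_eq', F.tors0]
theorem tors_eq (i j l : ι) : m.Γ i j l - m.Γ j i l = F.Γ0 i j l - F.Γ0 j i l := m.tors_eq' i j l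
/-- With `v = γ ω`: `∑ i, X i (v i)` is expanded with `XM_γ`; the trace `∑ i, Γ i l i` against a
tangent `v l` is half the trace of `X l G`. -/
theorem div1_eq (ω : ι → A) : m.div1 ω =
    ∑ i, F.X i ((m.γ *ᵥ ω) i) + hf A * ∑ l, (m.γ *ᵥ ω) l * m.tr (F.XM l m.G) := by
  set v := m.γ *ᵥ ω with hv
  have hπ : F.π *ᵥ v = v := by rw [hv, mulVec_mulVec, m.πγ]
  have e1 : ∀ i, F.X i (v i) = (F.XM i m.γ *ᵥ ω) i + ∑ j, m.γ i j * F.X i (ω j) := fun i => by
    simp only [hv, mulVec, dotProduct, map_sum, F.X_mul, F.XM_apply, Finset.sum_add_distrib]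
  have e2 : m.div1 ω = ∑ i, ∑ j, m.γ i j * F.X i (ω j) - ∑ i, ((m.γ * m.Γ i) *ᵥ ω) i := by
    rw [div1, tr_eq, ← Finset.sum_sub_distrib]
    refine Finset.sum_congr rfl fun i _ => ?_
    rw [← mulVec_mulVec]
    simp only [d1, c1, covPi, of_apply, mul_sub, Finset.sum_sub_distrib, smul_eq_mul, mulVec,
      dotProduct]
  have e3 : ∑ i, ((F.Γ0 i)ᵀ *ᵥ v) i = 0 := by
    have : ∀ i, ((F.Γ0 i)ᵀ *ᵥ v) i = -∑ j, F.π j i * (F.Γ0 j *ᵥ v) i := fun i => by
      rw [F.Γ0_transpose, neg_mulVec, F.Γ0_tan i, sum_mulVec]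
      simp only [smul_mulVec, Pi.neg_apply, Finset.sum_apply, Pi.smul_apply, smul_eq_mul,
        F.π_apply, F.symm i]
    simp only [this, Finset.sum_neg_distrib]
    rw [Finset.sum_comm, neg_eq_zero]
    refine Finset.sum_eq_zero fun j _ => ?_
    have h := congrArg (fun T => (T *ᵥ v) j) (F.π_Γ0_π j)
    simp only [← mulVec_mulVec, hπ, zero_mulVec] at h
    exact h
  have e4 : ∀ l, m.tr (F.cM F.Γ0 l m.G) = m.tr (F.XM l m.G) := fun l => by
    have h : m.tr (F.Γ0 l * m.G) = 0 := by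
      rw [tr, trace_mul_comm, mul_assoc, m.Gγ, ← F.π_idem, ← mul_assoc, trace_mul_comm,
        ← mul_assoc, F.π_Γ0_π, trace_zero]
    have h' : m.tr (m.G * (F.Γ0 l)ᵀ) = 0 := by
      rw [← tr_transpose, transpose_mul, transpose_transpose, m.G_symm, h]
    rw [Fr.cM, tr_sub, tr_sub, h, h', sub_zero, sub_zero]
  have e5 : ∀ l, ∑ i, (kos (fun n => F.cM F.Γ0 n m.G) i * m.γ) l i =
      hf A * m.tr (F.XM l m.G) := fun l => by
    have hs : ∀ n a b, F.cM F.Γ0 n m.G a b = F.cM F.Γ0 n m.G b a := fun n a b =>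
      congrFun (congrFun (m.ST_cM0 n).symm b) a
    rw [← e4, tr_eq]
    have hc : ∑ i, ∑ n, m.γ i n * F.cM F.Γ0 i m.G l n =
        ∑ i, ∑ n, m.γ i n * F.cM F.Γ0 n m.G i l := by
      rw [Finset.sum_comm]
      exact Finset.sum_congr rfl fun i _ => Finset.sum_congr rfl fun n _ => by
        rw [m.γ_apply_symm, hs]
    rw [← add_zero (∑ i, ∑ j, m.γ i j * F.cM F.Γ0 l m.G i j), ← sub_eq_zero.mpr hc]
    simp only [Matrix.mul_apply, kos, of_apply, ← Finset.sum_sub_distrib,
      ← Finset.sum_add_distrib, Finset.mul_sum]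
    exact Finset.sum_congr rfl fun i _ => Finset.sum_congr rfl fun n _ => by
      rw [m.γ_apply_symm n i]; ring
  have e6 : ∑ i, ((m.Γ i)ᵀ *ᵥ v) i = hf A * ∑ l, v l * m.tr (F.XM l m.G) := by
    simp only [Γ, transpose_add, add_mulVec, Pi.add_apply, Finset.sum_add_distrib, e3, zero_add]
    simp only [mulVec, dotProduct, transpose_apply]
    rw [Finset.sum_comm, Finset.mul_sum]
    refine Finset.sum_congr rfl fun l _ => ?_
    rw [← Finset.sum_mul, e5]; ring
  rw [e2, ← e6]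
  simp only [e1, m.XM_γ, neg_mulVec, add_mulVec, Pi.neg_apply, Pi.add_apply,
    Finset.sum_add_distrib, Finset.sum_neg_distrib, ← mulVec_mulVec _ (m.Γ _)ᵀ, ← hv]
  ring
/-- Uniqueness of the Levi-Civita connection: if `Γ0 + a γ` with `a` symmetric in the first two
indices and tangent in the last one kills the metric, it is `Γ`. -/
theorem Γ_unique (a : ι → Matrix ι ι A) (h1 : ∀ i j n, a i j n = a j i n)
    (h2 : ∀ i, a i * F.π = a i)
    (h3 : ∀ i, F.cM (fun n => F.Γ0 n + a n * m.γ) i m.G = 0) (i : ι) :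
    m.Γ i = F.Γ0 i + a i * m.γ := by
  have h4 : ∀ i, F.cM F.Γ0 i m.G = a i + (a i)ᵀ := fun i => by
    have h := h3 i
    have h2' := congrArg transpose (h2 i)
    rw [transpose_mul, F.π_symm] at h2'
    rw [Fr.cM, add_mul, mul_assoc, m.γG, h2, transpose_add, transpose_mul, m.γ_symm, mul_add,
      ← mul_assoc, m.Gγ, h2'] at h
    rw [Fr.cM, ← sub_eq_zero, ← h]
    abel
  rw [Γ]
  congr 2
  ext j n
  simp only [kos, of_apply, h4, Matrix.add_apply, transpose_apply]
  rw [h1 j i n, h1 n i j, h1 n j i]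
  linear_combination (a i j n) * two_hf (A := A)

end Met

end Pool.Agent.MP_9bd639_gt.H88

end

-- part A4
section

/-! Naturality of all constructions under morphisms of frame algebras; products of frame
algebras; closure of stable subalgebras. -/

open Matrix

namespace Pool.Agent.MP_9bd639_gt.H88

set_option linter.unusedSectionVars false

variable {ι : Type} [Fintype ι] [DecidableEq ι] {A : Type} [CommRing A] [Algebra ℝ A]
  {B : Type} [CommRing B] [Algebra ℝ B] {F : Fr ι A} {F' : Fr ι B}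

namespace Hom

variable (h : Hom F F') (m : Met F)

theorem A4_add (T U : Matrix ι ι A) : (T + U).map h.φ = T.map h.φ + U.map h.φ := by
  ext i j; simp
theorem A4_sub (T U : Matrix ι ι A) : (T - U).map h.φ = T.map h.φ - U.map h.φ := by
  ext i j; simp
theorem A4_mul (T U : Matrix ι ι A) : (T * U).map h.φ = T.map h.φ * U.map h.φ := Matrix.map_mul
theorem A4_tp (T : Matrix ι ι A) : Tᵀ.map h.φ = (T.map h.φ)ᵀ := rfl
theorem A4_smul (a : A) (T : Matrix ι ι A) : (a • T).map h.φ = h.φ a • T.map h.φ := by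
  ext i j; simp
theorem A4_rsmul (a : ℝ) (T : Matrix ι ι A) : (a • T).map h.φ = a • T.map h.φ := by
  ext i j; simp
theorem A4_sum (T : ι → Matrix ι ι A) : (∑ l, T l).map h.φ = ∑ l, (T l).map h.φ := by
  ext i j; simp [Matrix.sum_apply]
theorem A4_trace (T : Matrix ι ι A) : h.φ T.trace = (T.map h.φ).trace := by
  simp [Matrix.trace]
theorem A4_one : (1 : Matrix ι ι A).map h.φ = 1 := Matrix.map_one _ (map_zero _) (map_one _)
theorem A4_G : m.G.map h.φ = (m.map h).G := rfl
theorem A4_γ : m.γ.map h.φ = (m.map h).γ := rfl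
theorem A4_γe (i j : ι) : h.φ (m.γ i j) = (m.map h).γ i j := rfl
theorem A4_mv (T : Matrix ι ι A) (ω : ι → A) : h.φ ∘ (T *ᵥ ω) = T.map h.φ *ᵥ (h.φ ∘ ω) := by
  ext i; simp [mulVec, dotProduct]
theorem A4_dot (ω η : ι → A) : h.φ (ω ⬝ᵥ η) = (h.φ ∘ ω) ⬝ᵥ (h.φ ∘ η) := by
  simp [dotProduct]

theorem map_hf : h.φ (hf A) = hf B := h.φ.commutes _
theorem map_XM (i : ι) (T : Matrix ι ι A) : (F.XM i T).map h.φ = F'.XM i (T.map h.φ) := by
  ext j k; exact h.comm i _
theorem map_Xw (w : List ι) (a : A) : h.φ (F.Xw w a) = F'.Xw w (h.φ a) := by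
  induction w generalizing a with
  | nil => rfl
  | cons i w ih => rw [Fr.Xw, Fr.Xw, ih, h.comm]
theorem map_d0 (a : A) : h.φ ∘ F.d0 a = F'.d0 (h.φ a) := funext fun i => h.comm i a
theorem map_Γ0 (i : ι) : (F.Γ0 i).map h.φ = F'.Γ0 i := by
  simp only [Fr.Γ0, h.A4_sub, h.A4_mul, h.map_XM, h.map_π]
theorem map_sym (U : Matrix ι ι A) : (F.sym U).map h.φ = F'.sym (U.map h.φ) := by
  simp only [Fr.sym, h.A4_add, h.A4_mul, h.A4_tp, h.A4_smul, h.map_hf, h.map_π]
theorem map_ST {T : Matrix ι ι A} (hT : F.ST T) : F'.ST (T.map h.φ) :=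
  ⟨by rw [← h.A4_tp, hT.symm], by rw [← h.map_π, ← h.A4_mul, hT.tan]⟩
theorem A4_cM (Γ : ι → Matrix ι ι A) (i : ι) (T : Matrix ι ι A) :
    (F.cM Γ i T).map h.φ = F'.cM (fun n => (Γ n).map h.φ) i (T.map h.φ) := by
  simp only [Fr.cM, h.A4_sub, h.A4_mul, h.A4_tp, h.map_XM]
theorem A4_kos (Θ : ι → Matrix ι ι A) (i : ι) :
    (Met.kos Θ i).map h.φ = Met.kos (fun n => (Θ n).map h.φ) i := by
  ext j n
  simp only [Met.kos, map_apply, of_apply, map_mul, map_sub, map_add, h.map_hf]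
theorem map_Γ (i : ι) : (m.Γ i).map h.φ = (m.map h).Γ i := by
  simp only [Met.Γ, h.A4_add, h.A4_mul, h.A4_kos, h.A4_cM, h.map_Γ0, h.A4_G, h.A4_γ]
theorem A4_Γe (i j l : ι) : h.φ (m.Γ i j l) = (m.map h).Γ i j l :=
  congrFun (congrFun (h.map_Γ m i) j) l
theorem map_d1 (ω : ι → A) : (m.d1 ω).map h.φ = (m.map h).d1 (h.φ ∘ ω) := by
  ext i j
  simp [Met.d1, Met.c1, covPi, h.comm, h.A4_Γe]
theorem map_c2 (i : ι) (T : Matrix ι ι A) :
    (m.c2 i T).map h.φ = (m.map h).c2 i (T.map h.φ) := by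
  simp only [Met.c2, h.A4_cM, h.map_Γ]
theorem A4_c2e (i j k : ι) (T : Matrix ι ι A) :
    h.φ (m.c2 i T j k) = (m.map h).c2 i (T.map h.φ) j k :=
  congrFun (congrFun (h.map_c2 m i T) j) k
theorem map_c3 (i j : ι) (Θ : ι → Matrix ι ι A) :
    (m.c3 i Θ j).map h.φ = (m.map h).c3 i (fun k => (Θ k).map h.φ) j := by
  simp only [Met.c3, covPi, h.A4_sub, h.A4_sum, h.A4_smul, h.map_c2, h.A4_Γe]
theorem map_tr (T : Matrix ι ι A) : h.φ (m.tr T) = (m.map h).tr (T.map h.φ) := by
  simp only [Met.tr, h.A4_trace, h.A4_mul, h.A4_γ]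
theorem map_tl (T : Matrix ι ι A) : (m.tl T).map h.φ = (m.map h).tl (T.map h.φ) := by
  simp only [Met.tl, h.A4_sub, h.A4_rsmul, h.A4_smul, h.map_tr, h.A4_G]
theorem map_hess (a : A) : (m.hess a).map h.φ = (m.map h).hess (h.φ a) := by
  simp only [Met.hess, h.map_d1, h.map_d0]
theorem map_lap (a : A) : h.φ (m.lap a) = (m.map h).lap (h.φ a) := by
  simp only [Met.lap, h.map_tr, h.map_hess]
theorem map_lap2 (T : Matrix ι ι A) : (m.lap2 T).map h.φ = (m.map h).lap2 (T.map h.φ) := by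
  simp only [Met.lap2, Met.lapV, Met.trV, covPi, h.A4_sub, h.A4_sum, h.A4_smul, h.map_c2, h.A4_Γe,
    h.A4_γe]
theorem map_lap3 (Θ : ι → Matrix ι ι A) (i : ι) :
    (m.lap3 Θ i).map h.φ = (m.map h).lap3 (fun k => (Θ k).map h.φ) i := by
  simp only [Met.lap3, Met.lapV, Met.trV, covPi, Finset.sum_apply, Pi.smul_apply, Pi.sub_apply,
    h.A4_sub, h.A4_sum, h.A4_smul, h.map_c3, h.A4_Γe, h.A4_γe]
theorem map_ip1 (ω η : ι → A) : h.φ (m.ip1 ω η) = (m.map h).ip1 (h.φ ∘ ω) (h.φ ∘ η) := by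
  simp only [Met.ip1, h.A4_dot, h.A4_mv, h.A4_γ]
theorem map_ip2 (T U : Matrix ι ι A) :
    h.φ (m.ip2 T U) = (m.map h).ip2 (T.map h.φ) (U.map h.φ) := by
  simp only [Met.ip2, h.A4_trace, h.A4_mul, h.A4_tp, h.A4_γ]
theorem map_ip3 (Θ Ξ : ι → Matrix ι ι A) : h.φ (m.ip3 Θ Ξ) =
    (m.map h).ip3 (fun k => (Θ k).map h.φ) fun k => (Ξ k).map h.φ := by
  simp only [Met.ip3, Met.ipPi, map_sum, map_mul, h.map_ip2, h.A4_γe]
theorem map_ip4 (Θ Ξ : ι → ι → Matrix ι ι A) : h.φ (m.ip4 Θ Ξ) =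
    (m.map h).ip4 (fun k l => (Θ k l).map h.φ) fun k l => (Ξ k l).map h.φ := by
  simp only [Met.ip4, Met.ipPi, map_sum, map_mul, h.map_ip3, h.A4_γe]
theorem map_gam (a b : A) : h.φ (m.gam a b) = (m.map h).gam (h.φ a) (h.φ b) := by
  simp only [Met.gam, h.map_ip1, h.map_d0]
theorem map_quad (T : Matrix ι ι A) (a b : A) :
    h.φ (m.quad T a b) = (m.map h).quad (T.map h.φ) (h.φ a) (h.φ b) := by
  simp only [Met.quad, h.A4_dot, h.A4_mv, h.A4_γ, h.map_d0]
theorem map_Riem (i j : ι) : (m.Riem i j).map h.φ = (m.map h).Riem i j := by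
  simp only [Met.Riem, Met.R, h.A4_add, h.A4_sub, h.A4_mul, h.A4_sum, h.A4_smul, map_sub, h.map_XM,
    h.map_Γ, h.A4_Γe, h.A4_G]
theorem A4_Rieme (i j k l : ι) : h.φ (m.Riem i j k l) = (m.map h).Riem i j k l :=
  congrFun (congrFun (h.map_Riem m i j) k) l
theorem map_Ric : m.Ric.map h.φ = (m.map h).Ric := by
  ext j k
  simp only [Met.Ric, map_apply, of_apply, map_sum, map_mul, h.A4_γe, h.A4_Rieme]
theorem map_s1 : h.φ m.s1 = (m.map h).s1 := by
  simp only [Met.s1, map_mul, h.map_hf, h.map_tr, h.map_Ric]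
theorem map_S : m.S.map h.φ = (m.map h).S := by
  simp only [Met.S, h.A4_sub, h.A4_smul, h.map_Ric, h.map_s1, h.A4_G]
theorem map_p2 : h.φ m.p2 = (m.map h).p2 := by
  simp only [Met.p2, h.map_ip2, h.map_S]
theorem map_p3 : h.φ m.p3 = (m.map h).p3 := by
  simp only [Met.p3, h.A4_trace, h.A4_mul, h.map_S, h.A4_γ]
theorem map_s2 : h.φ m.s2 = (m.map h).s2 := by
  simp only [Met.s2, map_mul, map_sub, map_pow, h.map_hf, h.map_s1, h.map_p2]
theorem map_s3 : h.φ m.s3 = (m.map h).s3 := by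
  simp only [Met.s3, map_smul, map_add, map_mul, map_sub, map_pow, map_ofNat, h.map_s1, h.map_p2,
    h.map_p3]
theorem map_gS : h.φ m.gS = (m.map h).gS := by
  simp only [Met.gS, h.map_ip3, Met.d2, h.map_c2, h.map_S]
  rfl
theorem map_Cot (i : ι) : (m.Cot i).map h.φ = (m.map h).Cot i := by
  ext j k
  simp only [Met.Cot, Met.curl, map_apply, of_apply, map_sub, h.A4_c2e, h.map_S]
theorem map_cc : h.φ m.cc = (m.map h).cc := by
  simp only [Met.cc, h.map_ip3, h.map_Cot]
theorem map_kf (T : Matrix ι ι A) : (m.kf T).map h.φ = (m.map h).kf (T.map h.φ) := by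
  simp only [Met.kf, h.A4_add, h.A4_smul, map_neg, map_ofNat, h.map_tr, h.A4_G]
theorem map_Qf (T : Matrix ι ι A) : (m.Qf T).map h.φ = (m.map h).Qf (T.map h.φ) := by
  simp only [Met.Qf, h.A4_add, h.A4_mul, h.A4_smul, map_neg, map_ofNat, map_mul, map_sub, map_pow,
    h.map_hf, h.map_tr, h.map_ip2, h.A4_G, h.A4_γ]
theorem map_L0 (a : A) : h.φ (m.L0 a) = (m.map h).L0 (h.φ a) := by
  simp only [Met.L0, map_sum, map_mul, h.comm, h.A4_γe]
theorem map_b0 (l : ι) : h.φ (m.b0 l) = (m.map h).b0 l := by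
  simp only [Met.b0, map_sum, map_mul, h.A4_Γe, h.A4_γe]
theorem map_low (U : Matrix ι ι A) : (m.low U).map h.φ = (m.map h).low (U.map h.φ) := by
  have e : (U.map m.L0).map h.φ = (U.map h.φ).map (m.map h).L0 := by
    ext i j; exact h.map_L0 m _
  simp only [Met.low, h.A4_add, h.A4_sub, h.map_lap2, e, h.map_Qf, h.map_sym]
theorem map_adot (k : Matrix ι ι A) (i : ι) :
    (m.adot k i).map h.φ = (m.map h).adot (k.map h.φ) i := by
  simp only [Met.adot, h.A4_mul, h.A4_kos, Met.d2, h.map_c2, h.A4_γ]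
  rfl
theorem map_evo3 (i : ι) : (m.evo3 i).map h.φ = (m.map h).evo3 i := by
  simp only [Met.evo3, h.A4_add, h.A4_sub, h.A4_mul, h.A4_tp, h.map_c2, h.map_lap2, h.map_lap3,
    h.map_Qf, h.map_adot, h.map_kf, h.map_S, Met.d2]
  rfl
theorem map_ext : m.ext.map h.φ = (m.map h).ext := by
  simp only [Met.ext, h.A4_add, h.A4_sub, h.A4_one, h.A4_G, h.map_π]
theorem map_det : h.φ m.ext.det = (m.map h).ext.det := by
  rw [← h.map_ext]
  exact RingHom.map_det (h.φ : A →+* B) m.ext

end Hom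

/-- The metric is determined by `G`. -/
theorem Met.eq_of_G {m m' : Met F} (h : m.G = m'.G) : m = m' := by
  have e : m.γ = m'.γ := by
    calc m.γ = m.γ * (m'.G * m'.γ) := by rw [m'.Gγ, m.γπ]
      _ = m'.γ := by rw [← h, ← Matrix.mul_assoc, m.γG, m'.πγ]
  cases m; cases m'
  simp only at h e
  subst h e
  rfl

/-- The Weyl identity can be checked after a jointly injective family of morphisms. -/
theorem Met.KN_of_hom {κ : Type} (m : Met F) (h : κ → Hom F F')
    (inj : ∀ a : A, (∀ n, (h n).φ a = 0) → a = 0) (hk : ∀ n, (m.map (h n)).KN) : m.KN := by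
  intro i j k l
  refine sub_eq_zero.1 (inj _ fun n => ?_)
  have e1 : ∀ a b, (h n).φ (m.S a b) = (m.map (h n)).S a b := fun a b =>
    congrFun (congrFun ((h n).map_S m) a) b
  have e2 : ∀ a b, (h n).φ (m.G a b) = (m.map (h n)).G a b := fun _ _ => rfl
  simp only [map_sub, map_add, map_mul, (h n).A4_Rieme, e1, e2]
  exact sub_eq_zero.2 (hk n i j k l)

/-- Families of functions. -/
def Fr.pi (F : Fr ι A) (κ : Type) : Fr ι (κ → A) where
  X i :=
    { toFun := fun u n => F.X i (u n)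
      map_add' := fun u v => funext fun n => map_add (F.X i) (u n) (v n)
      map_smul' := fun c u => funext fun n => (F.X i).map_smul c (u n)
      map_one_eq_zero' := funext fun _ => (F.X i).map_one_eq_zero
      leibniz' := fun u v => funext fun n => (F.X i).leibniz (u n) (v n) }
  f j := fun _ => F.f j
  symm i j := funext fun _ => F.symm i j
  tang i a := funext fun n => by
    rw [Finset.sum_apply]
    exact F.tang i (a n)
  brk i j a := funext fun n => by
    rw [Finset.sum_apply]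
    exact F.brk i j (a n)
  tr3 := funext fun n => by
    rw [Finset.sum_apply]
    exact F.tr3

/-- The member of a family. -/
def Fr.at (F : Fr ι A) {κ : Type} (n : κ) : Hom (F.pi κ) F where
  φ := Pi.evalAlgHom ℝ (fun _ : κ => A) n
  comm _ _ := rfl
  map_f _ := rfl

/-- A family of matrices as a matrix of families. -/
def piM {κ : Type} (T : κ → Matrix ι ι A) : Matrix ι ι (κ → A) := of fun i j n => T n i j

theorem piM_map (F : Fr ι A) {κ : Type} (T : κ → Matrix ι ι A) (n : κ) :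
    (piM T).map (F.at n).φ = T n := rfl

theorem A4_ext (F : Fr ι A) {κ : Type} {T U : Matrix ι ι (κ → A)}
    (e : ∀ n, T.map (F.at n).φ = U.map (F.at n).φ) : T = U := by
  ext i j n
  exact congrFun (congrFun (e n) i) j

/-- A family of metrics. -/
def Met.pi {κ : Type} (m : κ → Met F) : Met (F.pi κ) where
  G := piM fun n => (m n).G
  γ := piM fun n => (m n).γ
  G_symm := A4_ext F fun n => (m n).G_symm
  γ_symm := A4_ext F fun n => (m n).γ_symm
  γG := A4_ext F fun n => by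
    rw [(F.at n).A4_mul, (F.at n).map_π]; exact (m n).γG
  πG := A4_ext F fun n => by
    rw [(F.at n).A4_mul, (F.at n).map_π]; exact (m n).πG
  πγ := A4_ext F fun n => by
    rw [(F.at n).A4_mul, (F.at n).map_π]; exact (m n).πγ

theorem Met.pi_map {κ : Type} (m : κ → Met F) (n : κ) : (Met.pi m).map (F.at n) = m n := rfl

/-- All entries lie in `W`. -/
def Mem (W : Set A) (T : Matrix ι ι A) : Prop := ∀ i j, T i j ∈ W

/-- A subalgebra that is stable under the frame and contains the metric. -/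
structure Met.Stab (m : Met F) (W : Subalgebra ℝ A) : Prop where
  X : ∀ i, ∀ a ∈ W, F.X i a ∈ W
  f : ∀ j, F.f j ∈ W
  G : Mem W m.G
  γ : Mem W m.γ

namespace Met.Stab

variable {m : Met F} {W : Subalgebra ℝ A} (h : m.Stab W)
include h

/-- The frame restricted to a stable subalgebra. -/
def A4_fr : Fr ι W where
  X i :=
    { toFun := fun a => ⟨F.X i a, h.X i a a.2⟩
      map_add' := fun u v => Subtype.ext (map_add (F.X i) (u : A) v)
      map_smul' := fun c u => Subtype.ext ((F.X i).map_smul c (u : A))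
      map_one_eq_zero' := Subtype.ext (F.X i).map_one_eq_zero
      leibniz' := fun u v => Subtype.ext ((F.X i).leibniz (u : A) v) }
  f j := ⟨F.f j, h.f j⟩
  symm i j := Subtype.ext (F.symm i j)
  tang i a := Subtype.ext (by
    rw [AddSubmonoidClass.coe_finsetSum]
    exact F.tang i a)
  brk i j a := Subtype.ext (by
    rw [AddSubmonoidClass.coe_finsetSum]
    exact F.brk i j a)
  tr3 := Subtype.ext (by
    rw [AddSubmonoidClass.coe_finsetSum]
    exact F.tr3)

/-- The inclusion of a stable subalgebra. -/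
def A4_hom : Hom h.A4_fr F where
  φ := W.val
  comm _ _ := rfl
  map_f _ := rfl

theorem A4_inj {T U : Matrix ι ι W} (e : T.map h.A4_hom.φ = U.map h.A4_hom.φ) : T = U := by
  ext i j
  exact congrFun (congrFun e i) j

/-- The metric restricted to a stable subalgebra. -/
def A4_met : Met h.A4_fr where
  G := of fun i j => ⟨m.G i j, h.G i j⟩
  γ := of fun i j => ⟨m.γ i j, h.γ i j⟩
  G_symm := h.A4_inj m.G_symm
  γ_symm := h.A4_inj m.γ_symm
  γG := h.A4_inj (by rw [h.A4_hom.A4_mul, h.A4_hom.map_π]; exact m.γG)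
  πG := h.A4_inj (by rw [h.A4_hom.A4_mul, h.A4_hom.map_π]; exact m.πG)
  πγ := h.A4_inj (by rw [h.A4_hom.A4_mul, h.A4_hom.map_π]; exact m.πγ)

theorem A4_mem {T : Matrix ι ι A} {U : Matrix ι ι W} (e : U.map h.A4_hom.φ = T) : Mem W T :=
  fun i j => e ▸ (U i j).2

theorem A4_mem0 {a : A} {b : W} (e : h.A4_hom.φ b = a) : a ∈ W := e ▸ b.2

omit h in
/-- A matrix with entries in the subalgebra. -/
def A4_lift {T : Matrix ι ι A} (hT : Mem W T) : Matrix ι ι W := of fun i j => ⟨T i j, hT i j⟩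

theorem π : Mem W F.π := h.A4_mem h.A4_hom.map_π
theorem Γ (i : ι) : Mem W (m.Γ i) := h.A4_mem (h.A4_hom.map_Γ h.A4_met i)
theorem b0 (l : ι) : m.b0 l ∈ W := h.A4_mem0 (h.A4_hom.map_b0 h.A4_met l)
theorem hess {a : A} (ha : a ∈ W) : Mem W (m.hess a) :=
  h.A4_mem (h.A4_hom.map_hess h.A4_met ⟨a, ha⟩)
theorem lap {a : A} (ha : a ∈ W) : m.lap a ∈ W := h.A4_mem0 (h.A4_hom.map_lap h.A4_met ⟨a, ha⟩)
theorem gam {a b : A} (ha : a ∈ W) (hb : b ∈ W) : m.gam a b ∈ W :=
  h.A4_mem0 (h.A4_hom.map_gam h.A4_met ⟨a, ha⟩ ⟨b, hb⟩)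
theorem tr {T : Matrix ι ι A} (hT : Mem W T) : m.tr T ∈ W :=
  h.A4_mem0 (h.A4_hom.map_tr h.A4_met (A4_lift hT))
theorem ip2 {T U : Matrix ι ι A} (hT : Mem W T) (hU : Mem W U) : m.ip2 T U ∈ W :=
  h.A4_mem0 (h.A4_hom.map_ip2 h.A4_met (A4_lift hT) (A4_lift hU))
theorem c2 {T : Matrix ι ι A} (hT : Mem W T) (i : ι) : Mem W (m.c2 i T) :=
  h.A4_mem (h.A4_hom.map_c2 h.A4_met i (A4_lift hT))
theorem lap2 {T : Matrix ι ι A} (hT : Mem W T) : Mem W (m.lap2 T) :=
  h.A4_mem (h.A4_hom.map_lap2 h.A4_met (A4_lift hT))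
theorem sym {T : Matrix ι ι A} (hT : Mem W T) : Mem W (F.sym T) :=
  h.A4_mem (h.A4_hom.map_sym (A4_lift hT))
theorem kf {T : Matrix ι ι A} (hT : Mem W T) : Mem W (m.kf T) :=
  h.A4_mem (h.A4_hom.map_kf h.A4_met (A4_lift hT))
theorem Qf {T : Matrix ι ι A} (hT : Mem W T) : Mem W (m.Qf T) :=
  h.A4_mem (h.A4_hom.map_Qf h.A4_met (A4_lift hT))
theorem low {T : Matrix ι ι A} (hT : Mem W T) : Mem W (m.low T) :=
  h.A4_mem (h.A4_hom.map_low h.A4_met (A4_lift hT))
theorem adot {T : Matrix ι ι A} (hT : Mem W T) (i : ι) : Mem W (m.adot T i) :=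
  h.A4_mem (h.A4_hom.map_adot h.A4_met (A4_lift hT) i)
theorem Ric : Mem W m.Ric := h.A4_mem (h.A4_hom.map_Ric h.A4_met)
theorem s1 : m.s1 ∈ W := h.A4_mem0 (h.A4_hom.map_s1 h.A4_met)
theorem S : Mem W m.S := h.A4_mem (h.A4_hom.map_S h.A4_met)
theorem s2 : m.s2 ∈ W := h.A4_mem0 (h.A4_hom.map_s2 h.A4_met)
theorem det : m.ext.det ∈ W := h.A4_mem0 (h.A4_hom.map_det h.A4_met)

end Met.Stab

end Pool.Agent.MP_9bd639_gt.H88

end

-- part A2
section

/-! Connections on modules of arrays: Leibniz rules, traces, commutators, pairings. -/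

open Matrix

namespace Pool.Agent.MP_9bd639_gt.H88

set_option linter.unusedSectionVars false

variable {ι : Type} [Fintype ι] [DecidableEq ι] {A : Type} [CommRing A] [Algebra ℝ A]
  {F : Fr ι A} {V W : Type} [AddCommGroup V] [Module A V] [AddCommGroup W] [Module A W]

namespace Fr.IsCn

variable {c : ι → V → V} (h : F.IsCn c)
include h

theorem zero (i : ι) : c i 0 = 0 := by
  have := h.add i 0 0
  rw [add_zero] at this
  exact left_eq_add.mp this
theorem neg (i : ι) (v : V) : c i (-v) = -c i v := by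
  rw [eq_neg_iff_add_eq_zero, ← h.add, neg_add_cancel, h.zero]
theorem sub (i : ι) (v w : V) : c i (v - w) = c i v - c i w := by
  rw [sub_eq_add_neg, h.add, h.neg, sub_eq_add_neg]
theorem sum {κ : Type} (s : Finset κ) (i : ι) (v : κ → V) :
    c i (∑ n ∈ s, v n) = ∑ n ∈ s, c i (v n) := by
  classical
  induction s using Finset.induction_on with
  | empty => simpa using h.zero i
  | insert k s hk ih => rw [Finset.sum_insert hk, Finset.sum_insert hk, h.add, ih]

end Fr.IsCn

theorem Fr.isCn0 (F : Fr ι A) : F.IsCn fun i a => F.X i a :=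
  ⟨fun _ v w => map_add _ v w, fun i a v => F.X_mul i a v, fun i v => F.X_tan i v⟩

/-- A bilinear pairing that satisfies the Leibniz rule. -/
structure Fr.IsPair (F : Fr ι A) (ip : V → W → A) (c : ι → V → V) (c' : ι → W → W) : Prop where
  add : ∀ v v' w, ip (v + v') w = ip v w + ip v' w
  add' : ∀ v w w', ip v (w + w') = ip v w + ip v w'
  smul : ∀ (a : A) v w, ip (a • v) w = a * ip v w
  smul' : ∀ (a : A) v w, ip v (a • w) = a * ip v w
  leib : ∀ i v w, F.X i (ip v w) = ip (c i v) w + ip v (c' i w)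

namespace Met

variable (m : Met F) {c : ι → V → V} {c' : ι → W → W}

/-- The action of a matrix on an array. -/
def mv (M : Matrix ι ι A) (Θ : ι → V) (k : ι) : V := ∑ n, M k n • Θ n

theorem mv_mul (M N : Matrix ι ι A) (Θ : ι → V) (k : ι) :
    mv (M * N) Θ k = mv M (mv N Θ) k := by
  simp only [mv, Matrix.mul_apply, Finset.sum_smul, Finset.smul_sum, mul_smul]
  exact Finset.sum_comm
theorem mv_add (M N : Matrix ι ι A) (Θ : ι → V) (k : ι) :
    mv (M + N) Θ k = mv M Θ k + mv N Θ k := by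
  simp only [mv, Matrix.add_apply, add_smul, Finset.sum_add_distrib]
theorem mv_sub (M N : Matrix ι ι A) (Θ : ι → V) (k : ι) :
    mv (M - N) Θ k = mv M Θ k - mv N Θ k := by
  simp only [mv, Matrix.sub_apply, sub_smul, Finset.sum_sub_distrib]
theorem mv_sub' (M : Matrix ι ι A) (Θ Ξ : ι → V) (k : ι) :
    mv M (fun n => Θ n - Ξ n) k = mv M Θ k - mv M Ξ k := by
  simp only [mv, smul_sub, Finset.sum_sub_distrib]
theorem mv_sum (a : ι → A) (M : ι → Matrix ι ι A) (Θ : ι → V) (k : ι) :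
    mv (∑ l, a l • M l) Θ k = ∑ l, a l • mv (M l) Θ k := by
  simp only [mv, Matrix.sum_apply, Matrix.smul_apply, Finset.sum_smul, Finset.smul_sum,
    smul_eq_mul, mul_smul]
  exact Finset.sum_comm
theorem c_mv (h : F.IsCn c) (i : ι) (M : Matrix ι ι A) (Θ : ι → V) (k : ι) :
    c i (mv M Θ k) = mv (F.XM i M) Θ k + mv M (fun n => c i (Θ n)) k := by
  simp only [mv, h.sum, h.smul, F.XM_apply, Finset.sum_add_distrib]
theorem covPi_mv (Γ : ι → Matrix ι ι A) (c : ι → V → V) (i : ι) (Θ : ι → V) :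
    covPi Γ c i Θ = fun j => c i (Θ j) - mv (Γ i) Θ j := rfl
theorem isCn_pi (h : F.IsCn c) : F.IsCn (covPi m.Γ c) := by
  refine ⟨fun i v w => ?_, fun i a v => ?_, fun i v => ?_⟩
  · funext j
    simp only [covPi, Pi.add_apply, h.add, smul_add, Finset.sum_add_distrib]
    abel
  · funext j
    simp only [covPi, Pi.add_apply, Pi.smul_apply, h.smul, smul_sub, Finset.smul_sum,
      smul_comm a]
    abel
  · funext j
    simp only [covPi_mv, Finset.sum_apply, Pi.smul_apply, smul_sub, Finset.sum_sub_distrib]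
    rw [← h.tan, ← mv_sum, ← m.Γ_tan]
theorem isCn1 : F.IsCn m.c1 := m.isCn_pi F.isCn0
theorem c2_eq (i : ι) (T : Matrix ι ι A) (j k : ι) :
    m.c2 i T j k = covPi m.Γ m.c1 i (fun a b => T a b) j k := by
  simp only [c2, Fr.cM, c1, covPi, Matrix.sub_apply, Matrix.mul_apply, transpose_apply,
    F.XM_apply, Pi.sub_apply, Finset.sum_apply, Pi.smul_apply, smul_eq_mul, mul_comm (T j _)]
  ring
theorem isCn2 : F.IsCn m.c2 := by
  refine ⟨fun i v w => ?_, fun i a v => ?_, fun i v => cM_dir m.Γ_tan v i⟩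
  · simp only [c2, Fr.cM, F.XM_add, mul_add, add_mul]
    abel
  · simp only [c2, Fr.cM, F.XM_smul, smul_sub, mul_smul_comm, smul_mul_assoc]
    abel
theorem isCn3 : F.IsCn m.c3 := m.isCn_pi m.isCn2
theorem isCn4 : F.IsCn m.c4 := m.isCn_pi m.isCn3
theorem curv0 (i j : ι) (a : A) : m.curv (fun i a => F.X i a) i j a = 0 := by
  simp only [curv, smul_eq_mul]
  rw [m.tors, sub_self]
theorem curv_pi (h : F.IsCn c) (i j : ι) (Θ : ι → V) (k : ι) :
    m.curv (covPi m.Γ c) i j Θ k = m.curv c i j (Θ k) - ∑ n, m.R i j k n • Θ n := by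
  change _ = _ - mv (m.R i j) Θ k
  simp only [curv, R, covPi_mv, Pi.sub_apply, Finset.sum_apply, Pi.smul_apply, h.sub, c_mv h,
    mv_sub', mv_sub, mv_add, mv_mul, mv_sum, smul_sub, Finset.sum_sub_distrib]
  abel
theorem curv1 (i j : ι) (ω : ι → A) : m.curv m.c1 i j ω = -(m.R i j *ᵥ ω) := by
  funext k
  rw [c1, m.curv_pi F.isCn0, curv0, zero_sub]
  rfl
theorem curv2 (i j : ι) (T : Matrix ι ι A) :
    m.curv m.c2 i j T = -(m.R i j * T + T * (m.R i j)ᵀ) := by
  have h1 : F.XM i (F.XM j T) =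
      F.XM j (F.XM i T) + ∑ l, (m.Γ i j l - m.Γ j i l) • F.XM l T := by
    ext a b
    simp only [Matrix.add_apply, Matrix.sum_apply, Matrix.smul_apply, F.XM_apply, smul_eq_mul]
    rw [← m.tors]; ring
  have h2 : ∑ l, (m.Γ i j l - m.Γ j i l) • m.c2 l T = ∑ l, (m.Γ i j l - m.Γ j i l) • F.XM l T -
      (∑ l, (m.Γ i j l - m.Γ j i l) • m.Γ l) * T -
      T * (∑ l, (m.Γ i j l - m.Γ j i l) • m.Γ l)ᵀ := by
    simp only [c2, Fr.cM, smul_sub, Finset.sum_sub_distrib, Finset.sum_mul, Finset.mul_sum,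
      transpose_sum, transpose_smul, smul_mul_assoc, mul_smul_comm]
  rw [curv, h2, R]
  generalize ∑ l, (m.Γ i j l - m.Γ j i l) • m.Γ l = Q
  simp only [c2, Fr.cM, F.XM_sub, F.XM_mul, F.XM_transpose, h1, transpose_sub, transpose_add,
    transpose_mul]
  noncomm_ring
/-- The Ricci identity. -/
theorem ricci_id (c : ι → V → V) (v : V) (i j : ι) :
    covPi m.Γ c i (fun k => c k v) j - covPi m.Γ c j (fun k => c k v) i = m.curv c i j v := by
  simp only [covPi, curv, sub_smul, Finset.sum_sub_distrib]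
  abel
/-- The trace commutes with the connection (`XM_γ`). -/
theorem cov_trV (h : F.IsCn c) (i : ι) (Θ : ι → ι → V) :
    c i (m.trV Θ) = m.trV (covPi m.Γ (covPi m.Γ c) i Θ) := by
  have h1 : ∑ j, ∑ k, (m.γ * m.Γ i) j k • Θ j k =
      ∑ j, ∑ k, m.γ j k • ∑ l, m.Γ i k l • Θ j l :=
    Finset.sum_congr rfl fun j _ => mv_mul m.γ (m.Γ i) (Θ j) j
  have h2 : ∑ j, ∑ k, ((m.Γ i)ᵀ * m.γ) j k • Θ j k =
      ∑ j, ∑ k, m.γ j k • ∑ l, m.Γ i j l • Θ l k := by
    rw [Finset.sum_comm, Finset.sum_comm (f := fun j k => m.γ j k • _)]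
    refine Finset.sum_congr rfl fun k _ => ?_
    simp only [Matrix.mul_apply, transpose_apply, Finset.sum_smul, Finset.smul_sum, smul_smul,
      mul_comm (m.γ _ _)]
    exact Finset.sum_comm
  simp only [trV, h.sum, h.smul, ← F.XM_apply, m.XM_γ, Matrix.neg_apply, Matrix.add_apply,
    neg_smul, add_smul, Finset.sum_add_distrib, Finset.sum_neg_distrib, h1, h2, covPi,
    Pi.sub_apply, Finset.sum_apply, Pi.smul_apply, smul_sub, Finset.sum_sub_distrib]
  abel
theorem cov_swap (h : F.IsCn c) (i : ι) (Θ : ι → ι → V) (j k : ι) :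
    covPi m.Γ (covPi m.Γ c) i (fun a b => Θ b a) j k = covPi m.Γ (covPi m.Γ c) i Θ k j := by
  simp only [covPi, Pi.sub_apply, Finset.sum_apply, Pi.smul_apply]
  abel
theorem cov_map (φ : V →ₗ[A] W) (hφ : ∀ i v, φ (c i v) = c' i (φ v)) (i : ι) (Θ : ι → V) (j : ι) :
    covPi m.Γ c' i (fun k => φ (Θ k)) j = φ (covPi m.Γ c i Θ j) := by
  simp only [covPi, map_sub, map_sum, map_smul, hφ]
theorem lapV_map (φ : V →ₗ[A] W) (hφ : ∀ i v, φ (c i v) = c' i (φ v)) (v : V) :
    m.lapV c' (φ v) = φ (m.lapV c v) := by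
  simp only [lapV, trV, map_sum, map_smul, ← hφ, m.cov_map φ hφ]
/-- The projection commutes with the connection (`Γ_π`). -/
theorem cov_proj (h : F.IsCn c) (i : ι) (Θ : ι → V) (j : ι) :
    covPi m.Γ c i (fun k => ∑ l, F.π k l • Θ l) j = ∑ l, F.π j l • covPi m.Γ c i Θ l := by
  change c i (mv F.π Θ j) - mv (m.Γ i) (mv F.π Θ) j = mv F.π (covPi m.Γ c i Θ) j
  rw [c_mv h, m.Γ_π, covPi_mv, mv_sub', mv_sub, mv_mul, mv_mul]
  abel
theorem cov_tensor (h : F.IsCn c) (i : ι) (ω : ι → A) (v : V) (j : ι) :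
    covPi m.Γ c i (fun k => ω k • v) j = m.c1 i ω j • v + ω j • c i v := by
  simp only [c1, covPi, h.smul, sub_smul, Finset.sum_smul, smul_eq_mul, mul_smul]
  abel
theorem lapV_add (h : F.IsCn c) (v w : V) : m.lapV c (v + w) = m.lapV c v + m.lapV c w := by
  have e : (fun j => c j (v + w)) = (fun j => c j v) + fun j => c j w := funext fun j => h.add j v w
  simp only [lapV, trV, e, (m.isCn_pi h).add, Pi.add_apply, smul_add, Finset.sum_add_distrib]
theorem lapV_smul (h : F.IsCn c) (a : A) (v : V) : m.lapV c (a • v) =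
    m.lap a • v + (2 : A) • ∑ i, (m.γ *ᵥ F.d0 a) i • c i v + a • m.lapV c v := by
  have e : (fun j => c j (a • v)) = (fun j => F.d0 a j • v) + a • fun j => c j v :=
    funext fun j => h.smul j a v
  have h1 : ∑ i, ∑ j, m.γ i j • F.d0 a j • c i v = ∑ i, (m.γ *ᵥ F.d0 a) i • c i v := by
    simp only [mulVec, dotProduct, Finset.sum_smul, mul_smul]
  have h2 : ∑ i, ∑ j, m.γ i j • F.X i a • c j v = ∑ i, (m.γ *ᵥ F.d0 a) i • c i v := by
    rw [← h1, Finset.sum_comm]
    exact Finset.sum_congr rfl fun i _ => Finset.sum_congr rfl fun j _ => by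
      rw [m.γ_apply_symm]; rfl
  have h3 : m.lap a • v = ∑ i, ∑ j, m.γ i j • m.c1 i (F.d0 a) j • v := by
    simp only [lap, tr_eq, Finset.sum_smul, mul_smul]; rfl
  simp only [lapV, trV, e, (m.isCn_pi h).add, (m.isCn_pi h).smul, Pi.add_apply, Pi.smul_apply,
    m.cov_tensor h, smul_add, Finset.sum_add_distrib, h1, h2, h3, two_smul, Finset.smul_sum,
    smul_comm a]
  abel
theorem lapV_zero (a : A) : m.lapV (fun i a => F.X i a) a = m.lap a := by
  rw [lap, tr_eq]; rfl
/-- A pairing as a bilinear map. -/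
def _root_.Pool.Agent.MP_9bd639_gt.H88.Fr.IsPair.bil {ip : V → W → A} (h : F.IsPair ip c c') :
    V →ₗ[A] W →ₗ[A] A :=
  LinearMap.mk₂ A ip h.add h.smul h.add' h.smul'
theorem _root_.Pool.Agent.MP_9bd639_gt.H88.Fr.IsPair.eq_bil {ip : V → W → A}
    (h : F.IsPair ip c c') (v : V) (w : W) : ip v w = h.bil v w := rfl
theorem _root_.Pool.Agent.MP_9bd639_gt.H88.Fr.IsPair.flip {ip : V → W → A}
    (h : F.IsPair ip c c') : F.IsPair (fun w v => ip v w) c' c :=
  ⟨fun v v' w => h.add' w v v', fun v w w' => h.add w w' v, fun a v w => h.smul' a w v,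
    fun a v w => h.smul a w v, fun i v w => by rw [h.leib, add_comm]⟩
theorem isPair0 : F.IsPair (fun a b : A => a * b) (fun i a => F.X i a) fun i a => F.X i a :=
  ⟨add_mul, mul_add, fun a v w => mul_assoc a v w, fun a v w => mul_left_comm v a w,
    fun i v w => F.X_mul i v w⟩
theorem isPair_pi {ip : V → W → A} (h : F.IsPair ip c c') :
    F.IsPair (m.ipPi ip) (covPi m.Γ c) (covPi m.Γ c') := by
  refine ⟨fun v v' w => ?_, fun v w w' => ?_, fun a v w => ?_, fun a v w => ?_, fun i v w => ?_⟩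
  · simp only [ipPi, Pi.add_apply, h.add, mul_add, Finset.sum_add_distrib]
  · simp only [ipPi, Pi.add_apply, h.add', mul_add, Finset.sum_add_distrib]
  · simp only [ipPi, Pi.smul_apply, h.smul, Finset.mul_sum, mul_left_comm a]
  · simp only [ipPi, Pi.smul_apply, h.smul', Finset.mul_sum, mul_left_comm a]
  · refine (m.cov_trV F.isCn0 i fun j k => ip (v j) (w k)).trans ?_
    simp only [trV, ipPi, ← Finset.sum_add_distrib, ← mul_add, smul_eq_mul]
    refine Finset.sum_congr rfl fun j _ => Finset.sum_congr rfl fun k _ => ?_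
    congr 1
    simp only [covPi, Pi.sub_apply, Finset.sum_apply, Pi.smul_apply, h.leib]
    simp only [h.eq_bil, map_sub, map_sum, map_smul, LinearMap.sub_apply, LinearMap.sum_apply,
      LinearMap.smul_apply]
    ring
theorem isPair1 : F.IsPair m.ip1 m.c1 m.c1 := by
  have e : m.ip1 = m.ipPi fun a b : A => a * b := funext fun ω => funext fun η => m.ip1_eq ω η
  rw [e]
  exact m.isPair_pi isPair0
theorem isPair2 : F.IsPair m.ip2 m.c2 m.c2 := by
  have e1 : m.ip2 = m.ipPi m.ip1 := funext fun T => funext fun U => m.ip2_eq T U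
  have e2 : m.c2 = covPi m.Γ m.c1 :=
    funext fun i => funext fun T => funext fun j => funext fun k => m.c2_eq i T j k
  rw [e1, e2]
  exact m.isPair_pi m.isPair1
theorem isPair3 : F.IsPair m.ip3 m.c3 m.c3 := m.isPair_pi m.isPair2
theorem div_pair' {ip : V → W → A} (h : F.IsPair ip c c') (Θ : ι → V) (w : W) :
    m.div1 (fun j => ip (Θ j) w) =
      ip (m.trV fun i => covPi m.Γ c i Θ) w + m.ipPi ip Θ fun i => c' i w := by
  rw [div1, tr_eq, ipPi, Finset.sum_comm (f := fun i j => m.γ i j * ip _ _)]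
  simp only [d1, c1, of_apply, covPi, trV, h.leib]
  simp only [h.eq_bil, map_sub, map_sum, map_smul, LinearMap.sub_apply, LinearMap.sum_apply,
    LinearMap.smul_apply, smul_eq_mul, ← Finset.sum_add_distrib]
  refine Finset.sum_congr rfl fun i _ => Finset.sum_congr rfl fun j _ => ?_
  rw [m.γ_apply_symm j i]; ring
theorem lap_pair {ip : V → W → A} (h : F.IsPair ip c c') (v : V) (w : W) :
    m.lap (ip v w) = ip (m.lapV c v) w + ip v (m.lapV c' w) +
      2 * m.ipPi ip (fun i => c i v) fun i => c' i w := by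
  have e : F.d0 (ip v w) = (fun j => ip (c j v) w) + fun j => ip v (c' j w) :=
    funext fun j => h.leib j v w
  have e2 : ∀ ω η : ι → A, m.d1 (ω + η) = m.d1 ω + m.d1 η := fun ω η => by
    ext i j
    exact congrFun (m.isCn1.add i ω η) j
  have h1 := m.div_pair' h (fun j => c j v) w
  have h2 := m.div_pair' h.flip (fun j => c' j w) v
  have h3 : m.ipPi (fun w v => ip v w) (fun j => c' j w) (fun i => c i v) =
      m.ipPi ip (fun i => c i v) fun i => c' i w := by
    rw [ipPi, ipPi, Finset.sum_comm]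
    exact Finset.sum_congr rfl fun i _ => Finset.sum_congr rfl fun j _ => by
      rw [m.γ_apply_symm]
  rw [lap, hess, e, e2, tr_add, ← div1, ← div1, h1, h2, h3, lapV, lapV]
  ring
/-- The pointwise form of the integration by parts formula. -/
theorem div_pair {ip : V → W → A} (h : F.IsPair ip c c') (Θ : ι → V) (w : W) :
    m.div1 (fun j => ip (Θ j) w) =
      ip (m.trV fun i => covPi m.Γ c i Θ) w + m.ipPi ip Θ fun i => c' i w :=
  m.div_pair' h Θ w

end Met

end Pool.Agent.MP_9bd639_gt.H88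

end

-- part A2b
section

/-! Calculus of functions, one-forms and two-tensors. -/

open Matrix

namespace Pool.Agent.MP_9bd639_gt.H88

set_option linter.unusedSectionVars false

variable {ι : Type} [Fintype ι] [DecidableEq ι] {A : Type} [CommRing A] [Algebra ℝ A]
  {F : Fr ι A}

theorem A2b_X_mulVec (F : Fr ι A) (i : ι) (M : Matrix ι ι A) (ω : ι → A) :
    (fun j => F.X i ((M *ᵥ ω) j)) = F.XM i M *ᵥ ω + M *ᵥ fun j => F.X i (ω j) := by
  funext j
  simp only [mulVec, dotProduct, map_sum, F.X_mul, Pi.add_apply, Fr.XM_apply,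
    Finset.sum_add_distrib]

theorem A2b_d0_add (F : Fr ι A) (a b : A) : F.d0 (a + b) = F.d0 a + F.d0 b := by
  funext i
  simp only [Fr.d0, map_add, Pi.add_apply]

theorem A2b_d0_mul (F : Fr ι A) (a b : A) : F.d0 (a * b) = a • F.d0 b + b • F.d0 a := by
  funext i
  simp only [Fr.d0, F.X_mul, Pi.add_apply, Pi.smul_apply, smul_eq_mul]
  ring

theorem A2b_d0_const (F : Fr ι A) (r : ℝ) : F.d0 (algebraMap ℝ A r) = 0 := by
  funext i
  simp only [Fr.d0, Derivation.map_algebraMap, Pi.zero_apply]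

/-- The symmetric tangent part as a linear map. -/
noncomputable def A2b_symL (F : Fr ι A) : Matrix ι ι A →ₗ[A] Matrix ι ι A where
  toFun := F.sym
  map_add' U V := by
    simp only [Fr.sym, transpose_add, ← smul_add, ← add_mul, ← mul_add]
    congr 3
    abel
  map_smul' a U := by
    simp only [Fr.sym, transpose_smul, ← smul_add, mul_smul_comm, smul_mul_assoc, RingHom.id_apply]
    rw [smul_comm]

namespace Met

variable (m : Met F)

theorem c1_eq (i : ι) (ω : ι → A) : m.c1 i ω = (fun j => F.X i (ω j)) - m.Γ i *ᵥ ω := by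
  funext j
  simp only [c1, covPi, mulVec, dotProduct, smul_eq_mul, Pi.sub_apply]
theorem c2_transpose (i : ι) (T : Matrix ι ι A) : m.c2 i Tᵀ = (m.c2 i T)ᵀ := by
  simp only [c2, Fr.cM, F.XM_transpose, transpose_sub, transpose_mul, transpose_transpose]
  abel
theorem c2_mul (i : ι) (T U : Matrix ι ι A) :
    m.c2 i (T * m.γ * U) = m.c2 i T * m.γ * U + T * m.γ * m.c2 i U := by
  simp only [c2, Fr.cM, F.XM_mul, m.XM_γ]
  noncomm_ring
theorem c2_π (i : ι) (T : Matrix ι ι A) : m.c2 i (F.π * T) = F.π * m.c2 i T := by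
  simp only [c2, Fr.cM, F.XM_mul, m.Γ_π]
  noncomm_ring
theorem c2_π' (i : ι) (T : Matrix ι ι A) : m.c2 i (T * F.π) = m.c2 i T * F.π := by
  have h := congrArg transpose (m.c2_π i Tᵀ)
  rwa [← m.c2_transpose, transpose_mul, transpose_mul, F.π_symm, transpose_transpose,
    m.c2_transpose, transpose_transpose] at h
theorem c2_rsmul (i : ι) (r : ℝ) (T : Matrix ι ι A) : m.c2 i (r • T) = r • m.c2 i T := by
  rw [← algebraMap_smul A r T, m.isCn2.smul, Derivation.map_algebraMap, zero_smul, zero_add,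
    algebraMap_smul]
theorem c2_smul_G (i : ι) (a : A) : m.c2 i (a • m.G) = F.X i a • m.G := by
  rw [m.isCn2.smul, m.c2_G, smul_zero, add_zero]
theorem c2_vec (i : ι) (ω η : ι → A) :
    m.c2 i (vecMulVec ω η) = vecMulVec (m.c1 i ω) η + vecMulVec ω (m.c1 i η) := by
  ext j k
  simp only [c2, Fr.cM, c1, covPi, Matrix.sub_apply, Matrix.add_apply, Fr.XM_apply,
    vecMulVec_apply, mul_apply, transpose_apply, F.X_mul, smul_eq_mul, sub_mul, mul_sub,
    Finset.sum_mul, Finset.mul_sum]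
  have h1 : ∑ l, m.Γ i j l * (ω l * η k) = ∑ l, m.Γ i j l * ω l * η k :=
    Finset.sum_congr rfl fun l _ => by ring
  have h2 : ∑ l, ω j * η l * m.Γ i k l = ∑ l, ω j * (m.Γ i k l * η l) :=
    Finset.sum_congr rfl fun l _ => by ring
  rw [h1, h2]
  ring
theorem c1_mulVec (i : ι) (T : Matrix ι ι A) (ω : ι → A) :
    m.c1 i (T *ᵥ (m.γ *ᵥ ω)) = m.c2 i T *ᵥ (m.γ *ᵥ ω) + T *ᵥ (m.γ *ᵥ m.c1 i ω) := by
  simp only [c1_eq, A2b_X_mulVec, c2, Fr.cM, m.XM_γ, mulVec_sub, mulVec_add, sub_mulVec,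
    add_mulVec, neg_mulVec, mulVec_neg, ← mulVec_mulVec]
  abel
theorem c1_π (i : ι) (ω : ι → A) : m.c1 i (F.π *ᵥ ω) = F.π *ᵥ m.c1 i ω := by
  simp only [c1_eq, A2b_X_mulVec, m.Γ_π, mulVec_sub, sub_mulVec, ← mulVec_mulVec]
  abel
theorem X_tr (i : ι) (T : Matrix ι ι A) : F.X i (m.tr T) = m.tr (m.c2 i T) := by
  have h : (m.γ * (T * (m.Γ i)ᵀ)).trace = ((m.Γ i)ᵀ * m.γ * T).trace := by
    rw [← mul_assoc, trace_mul_comm, mul_assoc]
  simp only [tr, F.X_trace, F.XM_mul, m.XM_γ, c2, Fr.cM, mul_sub, neg_mul, add_mul, trace_add,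
    trace_sub, trace_neg, h, mul_assoc]
  ring
theorem ST_c2 {T : Matrix ι ι A} (h : F.ST T) (i : ι) : F.ST (m.c2 i T) :=
  ⟨by rw [← m.c2_transpose, h.symm], by rw [← m.c2_π, h.tan]⟩
theorem ST_lap2 {T : Matrix ι ι A} (h : F.ST T) : F.ST (m.lap2 T) := by
  constructor
  · have := m.lapV_map (c := m.c2) (c' := m.c2)
      (transposeLinearEquiv ι ι A A : Matrix ι ι A →ₗ[A] Matrix ι ι A)
      (fun i v => (m.c2_transpose i v).symm) T
    change m.lap2 Tᵀ = (m.lap2 T)ᵀ at this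
    rw [← this, h.symm]
  · have := m.lapV_map (c := m.c2) (c' := m.c2) (LinearMap.mulLeft A F.π)
      (fun i v => (m.c2_π i v).symm) T
    change m.lap2 (F.π * T) = F.π * m.lap2 T at this
    rw [← this, h.tan]
theorem lap2_sym (U : Matrix ι ι A) : m.lap2 (F.sym U) = F.sym (m.lap2 U) := by
  refine m.lapV_map (c := m.c2) (c' := m.c2) (A2b_symL F) (fun i v => ?_) U
  change F.sym (m.c2 i v) = m.c2 i (F.sym v)
  rw [Fr.sym, Fr.sym, m.isCn2.smul, F.X_hf, zero_smul, zero_add, m.c2_π', m.c2_π, m.isCn2.add,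
    m.c2_transpose]

/-- The trace as a linear map. -/
def A2b_trL : Matrix ι ι A →ₗ[A] A where
  toFun := m.tr
  map_add' := m.tr_add
  map_smul' := m.tr_smul

theorem tr_lap2 (T : Matrix ι ι A) : m.tr (m.lap2 T) = m.lap (m.tr T) := by
  rw [← m.lapV_zero]
  exact (m.lapV_map (c := m.c2) (c' := fun i a => F.X i a) m.A2b_trL
    (fun i v => (m.X_tr i v).symm) T).symm
theorem lap2_add (T U : Matrix ι ι A) : m.lap2 (T + U) = m.lap2 T + m.lap2 U :=
  m.lapV_add m.isCn2 T U
theorem lap2_const (n : ℤ) (T : Matrix ι ι A) : m.lap2 ((n : A) • T) = (n : A) • m.lap2 T := by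
  refine m.lapV_map (c := m.c2) (c' := m.c2) (LinearMap.lsmul A (Matrix ι ι A) (n : A))
    (fun i v => ?_) T
  change (n : A) • m.c2 i v = m.c2 i ((n : A) • v)
  rw [m.isCn2.smul, Derivation.map_intCast, zero_smul, zero_add]
theorem lap2_smul_G (a : A) : m.lap2 (a • m.G) = m.lap a • m.G := by
  rw [← m.lapV_zero]
  exact m.lapV_map (c := fun i a => F.X i a) (c' := m.c2)
    (LinearMap.toSpanSingleton A (Matrix ι ι A) m.G) (fun i v => (m.c2_smul_G i v).symm) a
theorem A2b_d1_tan (ω : ι → A) : F.π * m.d1 ω = m.d1 ω := by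
  ext i j
  rw [d1, of_apply, m.isCn1.tan i ω]
  simp only [mul_apply, of_apply, Finset.sum_apply, Pi.smul_apply, smul_eq_mul]
theorem A2b_hess_apply (a : A) (i j : ι) :
    m.hess a i j = F.X i (F.X j a) - ∑ l, m.Γ i j l * F.X l a := rfl
theorem ST_hess (a : A) : F.ST (m.hess a) := by
  refine ⟨?_, m.A2b_d1_tan _⟩
  ext i j
  have h := m.tors i j a
  simp only [sub_mul, Finset.sum_sub_distrib] at h
  rw [transpose_apply, A2b_hess_apply, A2b_hess_apply]
  linear_combination -h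
theorem ST_tl {T : Matrix ι ι A} (h : F.ST T) : F.ST (m.tl T) :=
  h.sub F ((m.ST_G.smul F _).rsmul F _)
theorem ST_kf {T : Matrix ι ι A} (h : F.ST T) : F.ST (m.kf T) :=
  (h.add F (m.ST_G.smul F _)).smul F _
theorem ST_Qf {T : Matrix ι ι A} (h : F.ST T) : F.ST (m.Qf T) := by
  have h1 : F.ST (T * m.γ * T) :=
    ⟨by rw [transpose_mul, transpose_mul, h.symm, m.γ_symm, mul_assoc],
      by rw [← mul_assoc, ← mul_assoc, h.tan]⟩
  exact ((h1.smul F _).add F (h.smul F _)).add F (m.ST_G.smul F _)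
theorem tr_kf (T : Matrix ι ι A) : m.tr (m.kf T) = -8 * m.tr T := by
  rw [kf, tr_smul, tr_add, tr_smul, tr_G]
  ring
theorem d1_add (ω η : ι → A) : m.d1 (ω + η) = m.d1 ω + m.d1 η := by
  ext i j
  simp only [d1, of_apply, m.isCn1.add, Pi.add_apply, Matrix.add_apply]
theorem d1_smul (a : A) (ω : ι → A) : m.d1 (a • ω) = vecMulVec (F.d0 a) ω + a • m.d1 ω := by
  ext i j
  simp only [d1, of_apply, m.isCn1.smul, Pi.add_apply, Matrix.add_apply, Pi.smul_apply,
    Matrix.smul_apply, vecMulVec_apply, Fr.d0, smul_eq_mul]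
theorem d1_tan (ω : ι → A) : F.π * m.d1 ω = m.d1 ω := m.A2b_d1_tan ω
theorem A2b_d1_sub (ω η : ι → A) : m.d1 (ω - η) = m.d1 ω - m.d1 η := by
  rw [eq_sub_iff_add_eq, ← d1_add, sub_add_cancel]
theorem hess_add (a b : A) : m.hess (a + b) = m.hess a + m.hess b := by
  rw [hess, A2b_d0_add, d1_add, hess, hess]
theorem hess_mul (a b : A) : m.hess (a * b) = a • m.hess b + b • m.hess a +
    vecMulVec (F.d0 a) (F.d0 b) + vecMulVec (F.d0 b) (F.d0 a) := by
  rw [hess, A2b_d0_mul, d1_add, d1_smul, d1_smul, hess, hess]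
  abel
theorem A2b_hess_const (r : ℝ) : m.hess (algebraMap ℝ A r) = 0 := by
  ext i j
  rw [hess, A2b_d0_const, d1, of_apply, m.isCn1.zero]
  rfl
theorem hess_rsmul (r : ℝ) (a : A) : m.hess (r • a) = r • m.hess a := by
  rw [Algebra.smul_def, hess_mul, A2b_hess_const, A2b_d0_const, smul_zero, add_zero,
    zero_vecMulVec, vecMulVec_zero, add_zero, add_zero, algebraMap_smul]
theorem hess_apply (a : A) (i j : ι) :
    m.hess a i j = F.X i (F.X j a) - ∑ l, m.Γ i j l * F.X l a := rfl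
theorem lap_add (a b : A) : m.lap (a + b) = m.lap a + m.lap b := by
  rw [lap, hess_add, tr_add, lap, lap]
theorem lap_sub (a b : A) : m.lap (a - b) = m.lap a - m.lap b := by
  rw [eq_sub_iff_add_eq, ← lap_add, sub_add_cancel]
theorem A2b_lap_rsmul (r : ℝ) (a : A) : m.lap (r • a) = r • m.lap a := by
  rw [lap, hess_rsmul, tr_rsmul, lap]
theorem lap_neg (a : A) : m.lap (-a) = -m.lap a := by
  simpa using m.A2b_lap_rsmul (-1) a
theorem lap_mul (a b : A) : m.lap (a * b) = a * m.lap b + b * m.lap a + 2 * m.gam a b := by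
  rw [lap, hess_mul, tr_add, tr_add, tr_add, tr_smul, tr_smul, tr_vec, tr_vec, lap, lap, gam,
    m.ip1_comm (F.d0 b)]
  ring
theorem lap_rsmul (r : ℝ) (a : A) : m.lap (r • a) = r • m.lap a := m.A2b_lap_rsmul r a
theorem lap_const (r : ℝ) : m.lap (algebraMap ℝ A r) = 0 := by
  rw [lap, A2b_hess_const, tr, mul_zero, trace_zero]
theorem lap_eq (a : A) : m.lap a = m.L0 a - ∑ l, m.b0 l * F.X l a := by
  have h : ∑ l, m.b0 l * F.X l a = ∑ i, ∑ j, m.γ i j * ∑ l, m.Γ i j l * F.X l a := by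
    simp only [b0, Finset.sum_mul, Finset.mul_sum, mul_assoc]
    rw [Finset.sum_comm]
    exact Finset.sum_congr rfl fun i _ => Finset.sum_comm
  rw [h, lap, tr_eq, L0]
  simp only [hess_apply, mul_sub, Finset.sum_sub_distrib]
theorem div1_d0 (a : A) : m.div1 (F.d0 a) = m.lap a := rfl
theorem div1_add (ω η : ι → A) : m.div1 (ω + η) = m.div1 ω + m.div1 η := by
  rw [div1, d1_add, tr_add, div1, div1]
theorem div1_sub (ω η : ι → A) : m.div1 (ω - η) = m.div1 ω - m.div1 η := by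
  rw [eq_sub_iff_add_eq, ← div1_add, sub_add_cancel]
theorem div1_smul (a : A) (ω : ι → A) :
    m.div1 (a • ω) = a * m.div1 ω + m.ip1 (F.d0 a) ω := by
  rw [div1, d1_smul, tr_add, tr_smul, tr_vec, div1, add_comm]
theorem A2b_div2_apply (T : Matrix ι ι A) (k : ι) :
    m.div2 T k = ∑ i, ∑ j, m.γ i j * m.c2 i T j k := by
  simp only [div2, trV, Finset.sum_apply, Pi.smul_apply, smul_eq_mul]
theorem div2_add (T U : Matrix ι ι A) : m.div2 (T + U) = m.div2 T + m.div2 U := by
  funext k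
  simp only [A2b_div2_apply, m.isCn2.add, Matrix.add_apply, mul_add, Finset.sum_add_distrib,
    Pi.add_apply]
theorem div2_sub (T U : Matrix ι ι A) : m.div2 (T - U) = m.div2 T - m.div2 U := by
  rw [eq_sub_iff_add_eq, ← div2_add, sub_add_cancel]
theorem div2_smul (a : A) (T : Matrix ι ι A) :
    m.div2 (a • T) = a • m.div2 T + Tᵀ *ᵥ (m.γ *ᵥ F.d0 a) := by
  funext k
  simp only [A2b_div2_apply, m.isCn2.smul, Matrix.add_apply, mul_add, Finset.sum_add_distrib,
    Pi.add_apply, Pi.smul_apply, Matrix.smul_apply, smul_eq_mul, mulVec, dotProduct,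
    transpose_apply, Finset.mul_sum, Fr.d0]
  rw [add_comm, Finset.sum_comm (f := fun i j => m.γ i j * (F.X i a * T j k))]
  congr 1
  · exact Finset.sum_congr rfl fun i _ => Finset.sum_congr rfl fun j _ => by ring
  · exact Finset.sum_congr rfl fun j _ => Finset.sum_congr rfl fun i _ => by
      rw [m.γ_apply_symm i j]; ring
theorem div2_smul_G (a : A) : m.div2 (a • m.G) = F.d0 a := by
  have h : m.div2 m.G = 0 := by
    funext k
    simp only [A2b_div2_apply, m.c2_G, Matrix.zero_apply, mul_zero, Finset.sum_const_zero,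
      Pi.zero_apply]
  rw [div2_smul, h, smul_zero, zero_add, m.G_symm, mulVec_mulVec, m.Gγ, F.π_d0]
theorem div2_d1 (ω : ι → A) : m.div2 (m.d1 ω) = m.lap1 ω := by
  rw [div2, lap1, lapV]
  congr 1
  funext i j k
  exact m.c2_eq i _ j k
theorem div2_tan {T : Matrix ι ι A} (h : F.ST T) : F.π *ᵥ m.div2 T = m.div2 T := by
  funext k
  have h1 : ∀ i j, m.c2 i T j k = ∑ l, F.π k l * m.c2 i T j l := fun i j => by
    conv_lhs => rw [← (m.ST_c2 h i).tan' F, mul_apply]
    refine Finset.sum_congr rfl fun l _ => ?_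
    rw [mul_comm, ← transpose_apply F.π k l, F.π_symm]
  rw [A2b_div2_apply]
  simp only [mulVec, dotProduct, A2b_div2_apply, Finset.mul_sum]
  rw [Finset.sum_comm]
  refine Finset.sum_congr rfl fun i _ => ?_
  rw [Finset.sum_comm]
  refine Finset.sum_congr rfl fun j _ => ?_
  rw [h1 i j, Finset.mul_sum]
  exact Finset.sum_congr rfl fun l _ => by ring
theorem div1_mulVec (T : Matrix ι ι A) (ω : ι → A) :
    m.div1 (T *ᵥ (m.γ *ᵥ ω)) = m.ip1 (m.div2 T) ω + m.ip2 T (m.d1 ω) := by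
  have h1 : m.ip1 (m.div2 T) ω = ∑ i, ∑ j, m.γ i j * (m.c2 i T *ᵥ (m.γ *ᵥ ω)) j := by
    rw [ip1]
    generalize m.γ *ᵥ ω = v
    simp only [mulVec, dotProduct, A2b_div2_apply, Finset.mul_sum, Finset.sum_mul, mul_assoc]
    rw [Finset.sum_comm]
    exact Finset.sum_congr rfl fun i _ => Finset.sum_comm
  have h2 : m.ip2 T (m.d1 ω) = ∑ i, ∑ j, m.γ i j * (T *ᵥ (m.γ *ᵥ m.c1 i ω)) j := by
    rw [ip2, mul_assoc, mul_assoc, trace]
    refine Finset.sum_congr rfl fun i _ => ?_
    rw [diag_apply, mul_apply]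
    rfl
  rw [h1, h2, div1, tr_eq]
  simp only [d1, of_apply, c1_mulVec, Pi.add_apply, mul_add, Finset.sum_add_distrib]
theorem X_gam (i : ι) (a b : A) : F.X i (m.gam a b) =
    (m.hess a *ᵥ (m.γ *ᵥ F.d0 b)) i + (m.hess b *ᵥ (m.γ *ᵥ F.d0 a)) i := by
  rw [gam, m.isPair1.leib, m.ip1_comm (F.d0 a)]
  rfl
theorem gam_gam (a b c : A) :
    m.gam (m.gam a b) c = m.quad (m.hess a) c b + m.quad (m.hess b) c a := by
  have h : F.d0 (m.gam a b) = m.hess a *ᵥ (m.γ *ᵥ F.d0 b) + m.hess b *ᵥ (m.γ *ᵥ F.d0 a) :=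
    funext fun i => m.X_gam i a b
  rw [gam, h, ip1, add_dotProduct, quad, quad, dotProduct_comm (m.γ *ᵥ F.d0 c),
    dotProduct_comm (m.γ *ᵥ F.d0 c)]
theorem ip2_tl (T U : Matrix ι ι A) :
    m.ip2 (m.tl T) (m.tl U) = m.ip2 T U - (1 / 3 : ℝ) • (m.tr T * m.tr U) := by
  have h : m.ip2 m.G (m.tl U) = 0 := by rw [ip2_comm, ip2_G, tr_tl]
  rw [tl, ip2_sub, ip2_rsmul, ip2_smul, h, mul_zero, smul_zero, sub_zero, ip2_comm, tl, ip2_sub,
    ip2_rsmul, ip2_smul, m.ip2_comm m.G, ip2_G, m.ip2_comm U, mul_comm]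

end Met

end Pool.Agent.MP_9bd639_gt.H88

end
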