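import Pool.Agent.MP_9bd639_gt.Mg.H87_Main
import Pool.Agent.MP_9bd639_gt.G.Tens1

-- part L0a
section

/-! A new Riemannian metric `∑ G i j df i df j` on the manifold of a compact `PointedRiem 3`. -/

open MeasureTheory Filter Topology Set Matrix Bundle
open scoped ContDiff Manifold

namespace Pool.Agent.MP_9bd639_gt.H88

open Pool.Agent.MP_3fc7f4_gt PointedRiem

set_option linter.unusedSectionVars false
set_option backward.isDefEq.respectTransparency false
set_option maxSynthPendingDepth 3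

variable {N : PointedRiem 3} {ι : Type} [Fintype ι] [DecidableEq ι]

instance connected (N : PointedRiem 3) : ConnectedSpace N.M := by
  have : PathConnectedSpace N.M := by
    refine ⟨⟨N.pt⟩, fun x y => ?_⟩
    obtain ⟨c, h0, h1, hc⟩ := exists_curve x y 1 one_pos
    have hcc : Continuous c :=
      (LipschitzWith.of_dist_le_mul (K := ⟨_, hc.nonneg⟩) fun a b => hc.lip a b).continuous
    exact ⟨⟨⟨fun t => c t, hcc.comp continuous_subtype_val⟩, h0, h1⟩⟩
  infer_instance

theorem coef_eq_inner {M : Type} [TopologicalSpace M] [ChartedSpace (Euc 3) M]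
    [IsManifold (𝓡 3) ∞ M] [Inn (Euc 3) M] {x z : M} (hz : z ∈ (chartAt (Euc 3) x).source)
    (a b : Fin 3) : coef (n := 3) x (chartAt (Euc 3) x z) a b =
      inner ℝ (E := Tan (Euc 3) M z)
        (fderiv ℝ (chartAt (Euc 3) z ∘ (chartAt (Euc 3) x).symm) (chartAt (Euc 3) x z) (bas a))
        (fderiv ℝ (chartAt (Euc 3) z ∘ (chartAt (Euc 3) x).symm) (chartAt (Euc 3) x z) (bas b)) := by
  obtain ⟨y, hy, rfl⟩ : ∃ y ∈ (chartAt (Euc 3) x).target, (chartAt (Euc 3) x).symm y = z :=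
    ⟨_, (chartAt (Euc 3) x).map_source hz, (chartAt (Euc 3) x).left_inv hz⟩
  rw [(chartAt (Euc 3) x).right_inv hy]
  have h2 : MDifferentiableAt (𝓡 3) (𝓡 3) (chartAt (Euc 3) x).symm y :=
    ((contMDiffOn_chart_symm (I := 𝓡 3) (n := ∞) (x := x) y hy).contMDiffAt
      ((chartAt (Euc 3) x).open_target.mem_nhds hy)).mdifferentiableAt (by simp)
  have h3 : (mfderiv (𝓡 3) (𝓡 3) (chartAt (Euc 3) x).symm y : Euc 3 →L[ℝ] Euc 3) =
      fderiv ℝ (chartAt (Euc 3) ((chartAt (Euc 3) x).symm y) ∘ (chartAt (Euc 3) x).symm) y := by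
    rw [h2.mfderiv]
    simp only [writtenInExtChartAt, extChartAt, OpenPartialHomeomorph.extend, mfld_simps,
      fderivWithin_univ]
  rw [← h3]
  rfl

/-- The Jacobian matrix of a family of functions in the chart at `x`. -/
noncomputable def jac (f : ι → N.M → ℝ) (x : N.M) (y : Euc 3) : Matrix ι (Fin 3) ℝ :=
  of fun i a => pd a (N.loc x (f i)) y

/-- The differential at `z` in the chart at `z`. -/
noncomputable def dd (f : N.M → ℝ) (z : N.M) : Euc 3 →L[ℝ] ℝ := fderiv ℝ (N.loc z f) (N.ch z z)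

/-- The Jacobian matrix of the change of charts. -/
noncomputable def chg (x z : N.M) : Matrix (Fin 3) (Fin 3) ℝ :=
  of fun a b => fderiv ℝ (N.ch z ∘ (N.ch x).symm) (N.ch x z) (bas b) a

theorem change_cd {x z : N.M} (hz : z ∈ (N.ch x).source) :
    ContDiffAt ℝ ∞ (N.ch z ∘ (N.ch x).symm) (N.ch x z) := by
  have hy := (N.ch x).map_source hz
  have a1 : ContMDiffAt (𝓡 3) (𝓡 3) ∞ (N.ch z) ((N.ch x).symm (N.ch x z)) := by
    rw [(N.ch x).left_inv hz]
    exact mfd_cm_chart (mem_chart_source _ z)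
  exact contMDiffAt_iff_contDiffAt.1 (a1.comp _ (mfd_cm_symm hy))

theorem dd_change {f : N.M → ℝ} (hf : N.Sm f) {x z : N.M} (hz : z ∈ (N.ch x).source) (u : Euc 3) :
    dd f z (fderiv ℝ (N.ch z ∘ (N.ch x).symm) (N.ch x z) u) =
      fderiv ℝ (N.loc x f) (N.ch x z) u := by
  have e : (N.ch x).symm (N.ch x z) = z := (N.ch x).left_inv hz
  have h1 := ((change_cd hz).differentiableAt (by simp)).hasFDerivAt
  have h2 : HasFDerivAt (N.loc z f) (dd f z) ((N.ch z ∘ (N.ch x).symm) (N.ch x z)) := by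
    rw [Function.comp_apply, e]
    exact (hf.df z).hasFDerivAt
  have h3 : N.loc x f =ᶠ[𝓝 (N.ch x z)] N.loc z f ∘ (N.ch z ∘ (N.ch x).symm) := by
    have : ∀ᶠ y in 𝓝 (N.ch x z), (N.ch x).symm y ∈ (N.ch z).source :=
      ((N.ch x).tendsto_symm hz).eventually (chart_source_mem_nhds _ z)
    filter_upwards [this] with y hy
    simp only [loc, Function.comp_apply, (N.ch z).left_inv hy]
  rw [h3.fderiv_eq, (h2.comp _ h1).fderiv]
  rfl

theorem jac_change {f : ι → N.M → ℝ} (hf : ∀ i, N.Sm (f i)) {x z : N.M}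
    (hz : z ∈ (N.ch x).source) : jac f x (N.ch x z) = jac f z (N.ch z z) * chg x z := by
  ext i b
  have := dd_change (hf i) hz (bas b)
  rw [dd, fderiv_eq_sum_pd] at this
  simp only [jac, chg, of_apply, mul_apply, pd] at this ⊢
  rw [← this]
  exact Finset.sum_congr rfl fun a _ => mul_comm _ _

theorem coef_change {x z : N.M} (hz : z ∈ (N.ch x).source) :
    coef x (N.ch x z) = (chg x z)ᵀ * coef z (N.ch z z) * chg x z := by
  have h0 : fderiv ℝ (N.ch z ∘ (N.ch z).symm) (N.ch z z) = ContinuousLinearMap.id ℝ _ := by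
    have : N.ch z ∘ (N.ch z).symm =ᶠ[𝓝 (N.ch z z)] id := by
      filter_upwards [(N.ch z).open_target.mem_nhds (mem_target z)] with y hy
      exact (N.ch z).right_inv hy
    rw [this.fderiv_eq, fderiv_id]
  have h1 : ∀ a b, coef z (N.ch z z) a b = inner ℝ (E := Tan (Euc 3) N.M z) (bas a) (bas b) :=
    fun a b => by
      rw [coef_eq_inner (mem_chart_source _ z), h0]
      rfl
  have h2 : ∀ v w : Euc 3, inner ℝ (E := Tan (Euc 3) N.M z) v w =
      ∑ a, ∑ b, v a * coef z (N.ch z z) a b * w b := fun v w => by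
    let e : Fin 3 → Tan (Euc 3) N.M z := fun a => bas a
    have hv : ∀ v : Euc 3, (v : Tan (Euc 3) N.M z) = ∑ a, v a • e a := fun v => mfd_sum_bas v
    refine (congrArg₂ (inner ℝ (E := Tan (Euc 3) N.M z)) (hv v) (hv w)).trans ?_
    rw [sum_inner]
    refine Finset.sum_congr rfl fun a _ => ?_
    rw [inner_sum]
    refine Finset.sum_congr rfl fun b _ => ?_
    rw [real_inner_smul_left, real_inner_smul_right, h1]
    ring
  ext a b
  rw [coef_eq_inner hz, h2]
  simp only [mul_apply, transpose_apply, chg, of_apply, Finset.sum_mul]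
  exact Finset.sum_comm

/-- The data of the metric `∑ G i j df i df j`. -/
structure MD (N : PointedRiem 3) (ι : Type) [Fintype ι] where
  f : ι → N.M → ℝ
  G : N.M → Matrix ι ι ℝ
  sm_f : ∀ i, N.Sm (f i)
  sm_G : ∀ i j, N.Sm fun z => G z i j
  pos : ∀ z, ((jac f z (N.ch z z))ᵀ * G z * jac f z (N.ch z z)).PosDef

namespace MD

variable (d : MD N ι)

/-- The coefficient matrix in the chart at `x`. -/
noncomputable def cm (x : N.M) (y : Euc 3) : Matrix (Fin 3) (Fin 3) ℝ :=
  (jac d.f x y)ᵀ * d.G ((N.ch x).symm y) * jac d.f x y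

/-- The bilinear form in the chart at `x`. -/
noncomputable def B (x : N.M) (y : Euc 3) : Euc 3 →L[ℝ] Euc 3 →L[ℝ] ℝ :=
  ∑ i, ∑ j, d.G ((N.ch x).symm y) i j •
    (fderiv ℝ (N.loc x (d.f i)) y).smulRight (fderiv ℝ (N.loc x (d.f j)) y)

theorem B_apply (x : N.M) (y v w : Euc 3) : d.B x y v w = ∑ i, ∑ j, d.G ((N.ch x).symm y) i j *
    (fderiv ℝ (N.loc x (d.f i)) y v * fderiv ℝ (N.loc x (d.f j)) y w) := by
  simp [B]

theorem B_eq (x : N.M) (y v w : Euc 3) : d.B x y v w = v.ofLp ⬝ᵥ (d.cm x y *ᵥ w.ofLp) := by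
  have h : ∀ (u : Euc 3) i, fderiv ℝ (N.loc x (d.f i)) y u = (jac d.f x y *ᵥ u.ofLp) i :=
    fun u i => by
      rw [fderiv_eq_sum_pd]
      exact Finset.sum_congr rfl fun a _ => mul_comm _ _
  rw [B_apply, cm, ← mulVec_mulVec, ← mulVec_mulVec, dotProduct_mulVec, vecMul_transpose]
  simp only [h]
  generalize jac d.f x y *ᵥ v.ofLp = p, jac d.f x y *ᵥ w.ofLp = q
  simp only [dotProduct, mulVec, Finset.mul_sum]
  exact Finset.sum_congr rfl fun i _ => Finset.sum_congr rfl fun j _ => by ring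

theorem cm_self (z : N.M) : (d.cm z (N.ch z z)).PosDef := by
  rw [cm, ch_symm_self]
  exact d.pos z

theorem B_change {x z : N.M} (hz : z ∈ (N.ch x).source) (v w : Euc 3) :
    d.B z (N.ch z z) (fderiv ℝ (N.ch z ∘ (N.ch x).symm) (N.ch x z) v)
      (fderiv ℝ (N.ch z ∘ (N.ch x).symm) (N.ch x z) w) = d.B x (N.ch x z) v w := by
  simp only [B_apply, ← dd_change (d.sm_f _) hz, ch_symm_self, (N.ch x).left_inv hz, dd]

theorem cd_B (x : N.M) : ContDiffAt ℝ ∞ (d.B x) (N.ch x x) := by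
  have h := fun i => ((d.sm_f i).cd x).fderiv_right (m := ∞) (by simp)
  refine ContDiffAt.sum fun i _ => ContDiffAt.sum fun j _ => ((d.sm_G i j).cd x).smul ?_
  exact (h i).smulRight (h j)

/-- A copy of the manifold. -/
def E (_ : MD N ι) : Type := N.M

instance : TopologicalSpace d.E := inferInstanceAs (TopologicalSpace N.M)
instance : T3Space d.E := inferInstanceAs (T3Space N.M)
instance : ConnectedSpace d.E := inferInstanceAs (ConnectedSpace N.M)
instance [CompactSpace N.M] : CompactSpace d.E := inferInstanceAs (CompactSpace N.M)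
noncomputable instance charted : ChartedSpace (Euc 3) d.E :=
  inferInstanceAs (ChartedSpace (Euc 3) N.M)
instance manifold : IsManifold (𝓡 3) ∞ d.E := inferInstanceAs (IsManifold (𝓡 3) ∞ N.M)
instance meas : MeasurableSpace d.E := inferInstanceAs (MeasurableSpace N.M)
instance borel : BorelSpace d.E := inferInstanceAs (BorelSpace N.M)

/-- The metric. -/
noncomputable def metric : ContMDiffRiemannianMetric (𝓡 3) ∞ (Euc 3) (Tan (Euc 3) d.E) where
  inner x := d.B x (N.ch x x)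
  symm x v w := by
    have h := (d.cm_self x).isHermitian
    rw [IsHermitian, conjTranspose_eq_transpose_of_trivial] at h
    exact (d.B_eq x _ v w).trans ((H87.symm_dot h _ _).trans (d.B_eq x _ w v).symm)
  pos x v hv := by
    have h := (d.cm_self x).dotProduct_mulVec_pos (x := WithLp.ofLp (p := 2) v)
      fun h => hv ((WithLp.ofLp_eq_zero 2).1 h)
    exact h.trans_eq (d.B_eq x _ v v).symm
  isVonNBounded x := by
    obtain ⟨c, hc, h⟩ := regb_coercive (d.cm_self x)
    change Bornology.IsVonNBounded ℝ {v : Euc 3 | d.B x (N.ch x x) v v < 1}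
    refine (NormedSpace.isVonNBounded_ball ℝ (Euc 3) (1 + c⁻¹)).subset fun v hv => ?_
    have h1 : c * ‖v‖ ^ 2 < 1 := by
      refine (h v).trans_lt (Eq.trans_lt ?_ hv)
      rw [d.B_eq]
      simp only [dotProduct, mulVec, Finset.mul_sum]
      exact Finset.sum_congr rfl fun i _ => Finset.sum_congr rfl fun j _ => by ring
    rw [← lt_div_iff₀' hc, one_div] at h1
    rw [mem_ball_zero_iff]
    nlinarith [norm_nonneg v, inv_pos.2 hc]
  contMDiff x := by
    rw [Bundle.contMDiffAt_section]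
    have h1 : ContMDiffAt (𝓡 3) 𝓘(ℝ, Euc 3 →L[ℝ] Euc 3 →L[ℝ] ℝ) ∞
        (fun y : N.M => d.B x (N.ch x y)) x :=
      ContMDiffAt.comp (g := d.B x) x (d.cd_B x).contMDiffAt
        (mfd_cm_chart (N := N) (mem_chart_source _ x))
    refine ContMDiffAt.congr_of_eventuallyEq h1 ?_
    filter_upwards [(N.ch x).open_source.mem_nhds (mem_chart_source _ x)] with y hy
    ext v w
    have h1 := TangentBundle.symmL_trivializationAt_eq_core (I := 𝓡 3) (M := d.E) (b₀ := x) hy
    rw [tangentBundleCore_coordChange_achart, modelWithCornersSelf_coe, range_id,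
      fderivWithin_univ] at h1
    have h2 : ∀ u : Euc 3, (trivializationAt (Euc 3) (Tan (Euc 3) d.E) x).symm y u
        = fderiv ℝ (N.ch y ∘ (N.ch x).symm) (N.ch x y) u := fun u =>
      (Trivialization.symmL_apply (R := ℝ) _ hy u).symm.trans
        (congrArg (fun L : Euc 3 →L[ℝ] Euc 3 => L u) h1)
    refine (inCoordinates_apply_eq₂ hy hy (mem_univ _)).trans ?_
    rw [h2, h2]
    simp only [Trivial.fiberBundle_trivializationAt', Trivial.linearMapAt_trivialization,
      LinearMap.id_coe, id_eq]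
    exact d.B_change hy _ _

noncomputable instance inn : Inn (Euc 3) d.E := ⟨d.metric.toRiemannianMetric⟩

instance smoothInn : SmoothInn (Euc 3) d.E :=
  ⟨d.metric.inner, d.metric.contMDiff, fun _ _ _ => rfl⟩

theorem coef_eq {x : N.M} {y : Euc 3} (hy : y ∈ (N.ch x).target) :
    coef (n := 3) (M := d.E) x y = d.cm x y := by
  ext a b
  have h := coef_eq_inner (M := d.E) (x := x) ((N.ch x).map_target hy) a b
  have h2 := d.B_change ((N.ch x).map_target hy) (bas a) (bas b)
  have h3 := h.trans h2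
  rw [(N.ch x).right_inv hy, d.B_eq] at h3
  refine h3.trans ?_
  simp [bas]

/-- The Riemannian extended distance. -/
@[reducible] noncomputable def emetric : EMetricSpace d.E :=
  haveI : IsContinuousRiemannianBundle (Euc 3) (Tan (Euc 3) d.E) :=
    ⟨d.metric.inner, d.metric.contMDiff.continuous, fun _ _ _ => rfl⟩
  EMetricSpace.ofRiemannianMetric (𝓡 3) d.E

theorem edist_ne (x y : d.E) : @edist _ d.emetric.toEDist x y ≠ ⊤ := by
  let := d.emetric
  have h : IsClopen (Metric.eball y ⊤) := ⟨Metric.isClosed_eball_top, Metric.isOpen_eball⟩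
  have h2 := h.eq_univ ⟨y, Metric.mem_eball_self ENNReal.zero_lt_top⟩
  exact (Metric.mem_eball.1 (h2 ▸ mem_univ x)).ne

/-- The Riemannian distance. -/
@[reducible] noncomputable def metricSpace : MetricSpace d.E :=
  letI := d.emetric
  EMetricSpace.toMetricSpace d.edist_ne

/-- The density of the volume with respect to the volume of `N`. -/
noncomputable def ρ (z : N.M) : ℝ := √((d.cm z (N.ch z z)).det / (coef z (N.ch z z)).det)

theorem cm_change {x z : N.M} (hz : z ∈ (N.ch x).source) :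
    d.cm x (N.ch x z) = (chg x z)ᵀ * d.cm z (N.ch z z) * chg x z := by
  rw [cm, cm, jac_change d.sm_f hz, ch_symm_self, (N.ch x).left_inv hz, transpose_mul]
  simp only [Matrix.mul_assoc]

theorem ρ_chart {x z : N.M} (hz : z ∈ (N.ch x).source) :
    d.ρ z = √((d.cm x (N.ch x z)).det / (coef x (N.ch x z)).det) := by
  have h1 := ((met x).pos _ ((N.ch x).map_source hz)).det_pos
  rw [coef_change hz, det_mul, det_mul, det_transpose] at h1
  have h2 : (chg x z).det ≠ 0 := fun h => by simp [h] at h1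
  rw [ρ, d.cm_change hz, coef_change hz, det_mul, det_mul, det_mul, det_mul, det_transpose]
  congr 1
  field_simp

theorem ρ_pos (z : N.M) : 0 < d.ρ z :=
  Real.sqrt_pos.2 (div_pos (d.cm_self z).det_pos ((met z).pos _ (mem_target z)).det_pos)

theorem cd_cm {x : N.M} {y : Euc 3} (hy : y ∈ (N.ch x).target) (a b : Fin 3) :
    ContDiffAt ℝ ∞ (fun w => d.cm x w a b) y := by
  simp only [cm, mul_apply, transpose_apply, jac, of_apply]
  exact ContDiffAt.sum fun j _ => (ContDiffAt.sum fun i _ =>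
    (cd_pd a ((d.sm_f i).cd_loc x hy)).mul ((d.sm_G i j).cd_loc x hy)).mul
      (cd_pd b ((d.sm_f j).cd_loc x hy))

theorem sm_ρ : N.Sm d.ρ := by
  refine H87.sm_of_chart (fun x y => √((d.cm x y).det / (coef x y).det)) (fun x => ?_)
    fun x z hz => d.ρ_chart hz
  have h1 := ((met x).pos _ (mem_target x)).det_pos
  exact ((coord_cd_det (d.cd_cm (mem_target x))).div (coord_cd_det ((met x).cd_G (mem_target x)))
    h1.ne').sqrt (div_pos (d.cm_self x).det_pos h1).ne'

/-- The volume of the new metric. -/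
noncomputable def vol : Measure N.M := N.vol.withDensity fun z => ENNReal.ofReal (d.ρ z)

theorem isVolume : IsVolume 3 d.E d.vol := by
  intro (x : N.M) (A : Set N.M) (hA : MeasurableSet A) (hAx : A ⊆ (N.ch x).source)
  have hm : Measurable fun z => ENNReal.ofReal (d.ρ z) :=
    d.sm_ρ.continuous.measurable.ennreal_ofReal
  have hA' : MeasurableSet (N.ch x '' A) := hA.image_of_continuousOn_injOn
    ((N.ch x).continuousOn.mono hAx) ((N.ch x).injOn.mono hAx)
  have hsub : N.ch x '' A ⊆ (N.ch x).target := by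
    rintro _ ⟨z, hz, rfl⟩
    exact (N.ch x).map_source (hAx hz)
  have e1 : N.vol.restrict A = (N.vol.restrict (N.ch x).source).restrict A := by
    rw [Measure.restrict_restrict hA, inter_eq_left.2 hAx]
  have e2 : AEMeasurable (fun y => A.indicator (fun z => ENNReal.ofReal (d.ρ z)) ((N.ch x).symm y))
      (volume.restrict (N.ch x).target) := (hm.indicator hA).comp_aemeasurable
    ((N.ch x).continuousOn_symm.aemeasurable (N.ch x).open_target.measurableSet)
  change (N.vol.withDensity fun z => ENNReal.ofReal (d.ρ z)) A =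
    ∫⁻ y in N.ch x '' A, ENNReal.ofReal √(coef (n := 3) (M := d.E) x y).det
  rw [withDensity_apply _ hA, e1, ← lintegral_indicator hA, PointedRiem.restrict_eq,
    lintegral_map' (hm.indicator hA).aemeasurable (int_symm_aemeas x),
    lintegral_withDensity_eq_lintegral_mul₀ (int_dens_aemeas x) e2,
    ← inter_eq_left.2 hsub, ← Measure.restrict_restrict hA', ← lintegral_indicator hA']
  refine setLIntegral_congr_fun (N.ch x).open_target.measurableSet fun y hy => ?_
  by_cases h : y ∈ N.ch x '' A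
  · obtain ⟨z, hz, rfl⟩ := h
    have h1 := ((met x).pos _ hy).det_pos
    simp only [Pi.mul_apply, (N.ch x).left_inv (hAx hz)]
    rw [indicator_of_mem hz, indicator_of_mem (mem_image_of_mem _ hz), d.coef_eq hy,
      d.ρ_chart (hAx hz), dens, ← ENNReal.ofReal_mul (Real.sqrt_nonneg _),
      ← Real.sqrt_mul h1.le, mul_div_cancel₀ _ h1.ne']
  · have h' : (N.ch x).symm y ∉ A := fun h' => h ⟨_, h', (N.ch x).right_inv hy⟩
    simp only [Pi.mul_apply]
    rw [indicator_of_notMem h, indicator_of_notMem h', mul_zero]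

/-- The manifold with the new metric. -/
noncomputable def R [CompactSpace N.M] : PointedRiem 3 :=
  letI := d.metricSpace
  { M := d.E
    charted := d.charted
    manifold := d.manifold
    inn := d.inn
    smooth := d.smoothInn
    riemannian := ⟨fun _ _ => rfl⟩
    complete := complete_of_compact
    meas := d.meas
    borel := d.borel
    vol := d.vol
    isVolume := d.isVolume
    pt := N.pt }

variable [CompactSpace N.M]

instance : CompactSpace d.R.M := inferInstanceAs (CompactSpace N.M)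

theorem sm_iff {a : N.M → ℝ} : d.R.Sm a ↔ N.Sm a := Iff.rfl

theorem Γ_eq {a b : N.M → ℝ} (ha : N.Sm a) (hb : N.Sm b) {x z : N.M} (hz : z ∈ (N.ch x).source) :
    d.R.Γ a b z = ∑ i, ∑ j, (d.cm x (N.ch x z))⁻¹ i j *
      pd i (N.loc x a) (N.ch x z) * pd j (N.loc x b) (N.ch x z) := by
  rw [Γ_chart (N := d.R) ha hb (x := x) hz, ← d.coef_eq ((N.ch x).map_source hz)]
  rfl

theorem integral_eq (F : N.M → ℝ) : ∫ z, F z ∂d.R.vol = ∫ z, d.ρ z * F z ∂N.vol := by
  have := integral_withDensity_eq_integral_toReal_smul (μ := N.vol)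
    (f := fun z => ENNReal.ofReal (d.ρ z)) d.sm_ρ.continuous.measurable.ennreal_ofReal
    (Eventually.of_forall fun _ => ENNReal.ofReal_lt_top) F
  simp only [ENNReal.toReal_ofReal (d.ρ_pos _).le, smul_eq_mul] at this
  exact this

end MD

end Pool.Agent.MP_9bd639_gt.H88

end

-- part L0b
section

/-! An immersion of a compact manifold and its frame. -/

open MeasureTheory Filter Topology Set Matrix Bundle
open scoped ContDiff Manifold

namespace Pool.Agent.MP_9bd639_gt.H88

open Pool.Agent.MP_3fc7f4_gt PointedRiem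

set_option linter.unusedSectionVars false
set_option backward.isDefEq.respectTransparency false

variable {N : PointedRiem 3} {ι : Type} [Fintype ι] [DecidableEq ι]

/-- The algebra of smooth functions. -/
def SmA (N : PointedRiem 3) : Subalgebra ℝ (N.M → ℝ) where
  carrier := {f | N.Sm f}
  mul_mem' ha hb := ContMDiff.mul ha hb
  add_mem' ha hb := ContMDiff.add ha hb
  algebraMap_mem' _ := contMDiff_const

/-- The partial derivatives in the chart at `x`. -/
noncomputable def pv (x : N.M) (a : N.M → ℝ) (y : Euc 3) : Fin 3 → ℝ := fun c => pd c (N.loc x a) y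

/-- An immersion. -/
structure Im (N : PointedRiem 3) (ι : Type) [Fintype ι] where
  f : ι → N.M → ℝ
  sm : ∀ i, N.Sm (f i)
  inj : ∀ z, Function.Injective (jac f z (N.ch z z)).mulVec

theorem exists_im (N : PointedRiem 3) [CompactSpace N.M] : ∃ n : ℕ, Nonempty (Im N (Fin n)) := by
  classical
  choose g hg hg' using fun (x : N.M) (a : Fin 3) =>
    H87.exists_grad (mem_chart_source _ x) (Pi.single a 1)
  have hU : ∀ x, {z | z ∈ (N.ch x).source ∧ (jac (g x) x (N.ch x z)).det ≠ 0} ∈ 𝓝 x := fun x => by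
    have h1 : ContinuousAt (fun z => (jac (g x) x (N.ch x z)).det) x :=
      (coord_cd_det (A := jac (g x) x) fun i j => cd_pd j ((hg x i).cd x)).continuousAt.comp
        ((N.ch x).continuousAt (mem_chart_source _ x))
    have h2 : jac (g x) x (N.ch x x) = 1 := by
      ext i j
      rw [jac, of_apply, hg', one_apply, Pi.single_apply]
      simp only [eq_comm]
    exact inter_mem (chart_source_mem_nhds _ x) (h1.eventually_ne (by rw [h2, det_one]; simp))
  obtain ⟨S, hS⟩ := CompactSpace.elim_nhds_subcover _ hU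
  let e := (Fintype.equivFin (S × Fin 3)).symm
  refine ⟨_, ⟨⟨fun i => g (e i).1 (e i).2, fun i => hg _ _, fun z v w h => ?_⟩⟩⟩
  obtain ⟨x, hx, hz, hz'⟩ := mem_iUnion₂.1 (hS.ge (mem_univ z))
  rw [jac_change (hg x) hz, det_mul] at hz'
  refine (mulVec_injective_iff_isUnit.2 ((isUnit_iff_isUnit_det _).2
    (left_ne_zero_of_mul hz').isUnit)) (funext fun a => ?_)
  have := congrFun h (e.symm (⟨x, hx⟩, a))
  simpa only [mulVec, jac, of_apply, Equiv.apply_symm_apply] using this

namespace Im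

variable (e : Im N ι)

/-- The induced metric. -/
noncomputable def md : MD N ι where
  f := e.f
  G _ := 1
  sm_f := e.sm
  sm_G _ _ := contMDiff_const
  pos z := by
    have := PosDef.conjTranspose_mul_self _ (e.inj z)
    rwa [conjTranspose_eq_transpose_of_trivial, ← Matrix.mul_one (jac e.f z (N.ch z z))ᵀ] at this

/-- The components of the frame in the chart at `x`. -/
noncomputable def W (x : N.M) (y : Euc 3) : Matrix ι (Fin 3) ℝ := jac e.f x y * (e.md.cm x y)⁻¹

theorem cm_eq (x : N.M) (y : Euc 3) : e.md.cm x y = (jac e.f x y)ᵀ * jac e.f x y := by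
  rw [MD.cm]
  exact congrArg (· * _) (Matrix.mul_one _)

variable [CompactSpace N.M] {x : N.M} {y : Euc 3}

theorem met (x : N.M) : MP_3fc7f4_gt.Met (N.ch x).target (e.md.cm x) :=
  ⟨(N.ch x).open_target, fun i j _ hy => (e.md.cd_cm hy i j).contDiffWithinAt, fun y hy => by
    rw [← e.md.coef_eq hy]
    exact (PointedRiem.met (N := e.md.R) x).pos y hy⟩

theorem DW (hy : y ∈ (N.ch x).target) : (jac e.f x y)ᵀ * e.W x y = 1 := by
  rw [W, ← Matrix.mul_assoc, ← cm_eq, mul_nonsing_inv _ ((e.met x).coord_unit hy)]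

theorem WD (hy : y ∈ (N.ch x).target) : (e.W x y)ᵀ * jac e.f x y = 1 := by
  rw [← transpose_transpose (jac e.f x y), ← transpose_mul, e.DW hy, transpose_one]

theorem WD_symm (hy : y ∈ (N.ch x).target) :
    (e.W x y * (jac e.f x y)ᵀ)ᵀ = e.W x y * (jac e.f x y)ᵀ := by
  have h : (e.md.cm x y)⁻¹ᵀ = (e.md.cm x y)⁻¹ := by
    ext i j
    exact (e.met x).inv_symm hy j i
  rw [W, transpose_mul, transpose_mul, transpose_transpose, h, Matrix.mul_assoc]

theorem cd_W (hy : y ∈ (N.ch x).target) (i : ι) (c : Fin 3) :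
    ContDiffAt ℝ ∞ (fun w => e.W x w i c) y := by
  simp only [W, mul_apply]
  exact ContDiffAt.sum fun b _ => (cd_pd b ((e.sm i).cd_loc x hy)).mul ((e.met x).cd_inv hy b c)

/-- The gradient of `f i` applied to a function. -/
noncomputable def X0 (i : ι) (a : N.M → ℝ) : N.M → ℝ := e.md.R.Γ (e.f i) a

theorem sm_X0 (i : ι) {a : N.M → ℝ} (ha : N.Sm a) : N.Sm (e.X0 i a) :=
  sm_Γ (N := e.md.R) (e.sm i) ha

theorem X0_chart (i : ι) {a : N.M → ℝ} (ha : N.Sm a) {z : N.M} (hz : z ∈ (N.ch x).source) :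
    e.X0 i a z = (e.W x (N.ch x z) *ᵥ pv x a (N.ch x z)) i := by
  rw [X0, e.md.Γ_eq (e.sm i) ha hz, Finset.sum_comm]
  simp only [W, mulVec, dotProduct, mul_apply, jac, of_apply, pv, Finset.sum_mul]
  exact Finset.sum_congr rfl fun _ _ => Finset.sum_congr rfl fun _ _ => by ring

theorem loc_X0 (i : ι) {a : N.M → ℝ} (ha : N.Sm a) (hy : y ∈ (N.ch x).target) :
    N.loc x (e.X0 i a) =ᶠ[𝓝 y] fun w => ∑ c, e.W x w i c * pd c (N.loc x a) w := by
  filter_upwards [(N.ch x).open_target.mem_nhds hy] with w hw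
  rw [loc, e.X0_chart i ha ((N.ch x).map_target hw), (N.ch x).right_inv hw]
  rfl

theorem pv_eq {a : N.M → ℝ} (ha : N.Sm a) {z : N.M} (hz : z ∈ (N.ch x).source) :
    pv x a (N.ch x z) = (jac e.f x (N.ch x z))ᵀ *ᵥ fun i => e.X0 i a z := by
  simp only [e.X0_chart _ ha hz]
  rw [mulVec_mulVec, e.DW ((N.ch x).map_source hz), one_mulVec]

theorem X0_f (i j : ι) {z : N.M} (hz : z ∈ (N.ch x).source) :
    e.X0 i (e.f j) z = (e.W x (N.ch x z) * (jac e.f x (N.ch x z))ᵀ) i j :=
  e.X0_chart i (e.sm j) hz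

theorem X0_X0 (i j : ι) {a : N.M → ℝ} (ha : N.Sm a) (z : N.M) : e.X0 i (e.X0 j a) z =
    ∑ c, ∑ b, e.W z (N.ch z z) i c * (e.W z (N.ch z z) j b * pd c (pd b (N.loc z a)) (N.ch z z) +
      pd b (N.loc z a) (N.ch z z) * pd c (fun w => e.W z w j b) (N.ch z z)) := by
  have hy := mem_target z
  rw [e.X0_chart i (e.sm_X0 j ha) (mem_chart_source _ z), mulVec, dotProduct]
  refine Finset.sum_congr rfl fun c _ => ?_
  rw [pv, (pd_congr c (e.loc_X0 j ha hy)).eq_of_nhds, pd_sum c fun b =>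
    coord_diff ((e.cd_W hy j b).mul (cd_pd b (ha.cd z))), Finset.mul_sum]
  refine Finset.sum_congr rfl fun b _ => ?_
  rw [pd_mul c (coord_diff (e.cd_W hy j b)) (coord_diff (cd_pd b (ha.cd z)))]

/-- The frame derivations. -/
noncomputable def X (i : ι) : Derivation ℝ (SmA N) (SmA N) :=
  Derivation.mk'
    { toFun := fun a => ⟨e.X0 i a.1, e.sm_X0 i a.2⟩
      map_add' := fun a b => Subtype.ext (funext fun z => by
        obtain ⟨lam, h0, hR⟩ := H87.exists_ricciGe (N := e.md.R)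
        exact (e.md.R.geo (by norm_num) h0 hR).Γ_add_right a.2 b.2 (e.sm i) z)
      map_smul' := fun c a => Subtype.ext (funext fun z => by
        obtain ⟨lam, h0, hR⟩ := H87.exists_ricciGe (N := e.md.R)
        exact (e.md.R.geo (by norm_num) h0 hR).Γ_smul_right c a.2 (e.sm i) z) }
    fun a b => Subtype.ext (funext fun z => by
      obtain ⟨lam, h0, hR⟩ := H87.exists_ricciGe (N := e.md.R)
      exact (e.md.R.geo (by norm_num) h0 hR).Γ_mul_right a.2 b.2 (e.sm i) z)

theorem X_val (i : ι) (a : SmA N) : (e.X i a).1 = e.X0 i a.1 := rfl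

theorem sum_val {κ : Type} (s : Finset κ) (a : κ → SmA N) (z : N.M) :
    (∑ k ∈ s, a k).1 z = ∑ k ∈ s, (a k).1 z := by
  rw [AddSubmonoidClass.coe_finsetSum, Finset.sum_apply]

theorem X0_tang (i : ι) {a : N.M → ℝ} (ha : N.Sm a) (z : N.M) :
    e.X0 i a z = ∑ j, e.X0 i (e.f j) z * e.X0 j a z := by
  have hz := mem_chart_source (Euc 3) z
  rw [e.X0_chart i ha hz, e.pv_eq ha hz, mulVec_mulVec]
  simp only [e.X0_f i _ hz]
  rfl

/-- The frame. -/
noncomputable def fr : Fr ι (SmA N) where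
  X := e.X
  f i := ⟨e.f i, e.sm i⟩
  symm i j := Subtype.ext (funext fun z => by
    have hz := mem_chart_source (Euc 3) z
    change e.X0 i (e.f j) z = e.X0 j (e.f i) z
    rw [e.X0_f i j hz, e.X0_f j i hz, ← e.WD_symm (mem_target z), transpose_apply,
      e.WD_symm (mem_target z)])
  tang i a := Subtype.ext (funext fun z => by
    rw [sum_val]
    exact e.X0_tang i a.2 z)
  brk i j a := Subtype.ext (funext fun z => by
    have key : ∃ V : Fin 3 → ℝ, ∀ a, N.Sm a →
        e.X0 i (e.X0 j a) z - e.X0 j (e.X0 i a) z = V ⬝ᵥ pv z a (N.ch z z) := by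
      refine ⟨fun b => ∑ c, (e.W z (N.ch z z) i c * pd c (fun w => e.W z w j b) (N.ch z z) -
        e.W z (N.ch z z) j c * pd c (fun w => e.W z w i b) (N.ch z z)), fun a ha => ?_⟩
      rw [e.X0_X0 i j ha, e.X0_X0 j i ha]
      simp only [Fin.sum_univ_three, dotProduct, pv, pd_comm 1 0 (ha.cd z), pd_comm 2 0 (ha.cd z),
        pd_comm 2 1 (ha.cd z)]
      ring
    obtain ⟨V, hV⟩ := key
    rw [sum_val]
    change e.X0 i (e.X0 j a.1) z - e.X0 j (e.X0 i a.1) z =
      ∑ l, (e.X0 i (e.X0 j (e.f l)) z - e.X0 j (e.X0 i (e.f l)) z) * e.X0 l a.1 z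
    simp only [hV _ (e.sm _)]
    rw [hV _ a.2, e.pv_eq a.2 (mem_chart_source _ z), dotProduct_mulVec, vecMul_transpose]
    exact Finset.sum_congr rfl fun l _ => congrArg (· * _) (dotProduct_comm _ _))
  tr3 := Subtype.ext (funext fun z => by
    rw [sum_val]
    have h := trace_mul_comm (e.W z (N.ch z z)) (jac e.f z (N.ch z z))ᵀ
    rw [e.DW (mem_target z), trace_one, Fintype.card_fin] at h
    refine (Finset.sum_congr rfl fun i _ => e.X0_f i i (mem_chart_source _ z)).trans (h.trans ?_)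
    exact (map_ofNat ((Pi.evalAlgHom ℝ (fun _ : N.M => ℝ) z).comp (SmA N).val) 3).symm)

theorem π_val (i j : ι) : (e.fr.π i j).1 = e.X0 i (e.f j) := rfl

theorem rank (z : N.M) : ∃ q : Matrix (Fin 3) ι ℝ, q * qᵀ = 1 ∧
    ∀ i j, (e.fr.π i j).1 z = (qᵀ * q) i j := by
  have hy := mem_target z
  obtain ⟨B, hB⟩ := bochner_factor ((e.met z).pos _ hy).inv
  refine ⟨B * (jac e.f z (N.ch z z))ᵀ, ?_, fun i j => ?_⟩
  · have h := e.DW hy
    rw [W, hB, ← Matrix.mul_assoc, ← Matrix.mul_assoc] at h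
    rw [transpose_mul, transpose_transpose, Matrix.mul_assoc, ← Matrix.mul_assoc _ (jac _ _ _)]
    exact mul_eq_one_comm.1 h
  · rw [π_val, e.X0_f i j (mem_chart_source _ z), W, hB, transpose_mul, transpose_transpose]
    simp only [Matrix.mul_assoc]

theorem X_comp (a b : SmA N) (Φ : ℝ → ℝ) (hΦ : ∀ x, ContDiffAt ℝ ∞ Φ (a.1 x))
    (hb : ∀ x, b.1 x = Φ (a.1 x)) (i : ι) (x : N.M) :
    (e.fr.X i b).1 x = deriv Φ (a.1 x) * (e.fr.X i a).1 x := by
  obtain ⟨lam, h0, hR⟩ := H87.exists_ricciGe (N := e.md.R)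
  change e.X0 i b.1 x = _
  rw [funext hb]
  exact (e.md.R.geo (by norm_num) h0 hR).Γ_comp_right a.2 (e.sm i) hΦ x

theorem Γ_frame {a b : N.M → ℝ} (ha : N.Sm a) (hb : N.Sm b) (z : N.M) :
    e.md.R.Γ a b z = ∑ l, e.X0 l a z * e.X0 l b z := by
  have hz := mem_chart_source (Euc 3) z
  have h1 : (e.W z (N.ch z z))ᵀ * e.W z (N.ch z z) = (e.md.cm z (N.ch z z))⁻¹ := by
    nth_rewrite 2 [W]
    rw [← Matrix.mul_assoc, e.WD (mem_target z), Matrix.one_mul]
  rw [e.md.Γ_eq ha hb hz, ← h1]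
  simp only [e.X0_chart _ ha hz, e.X0_chart _ hb hz, mulVec, dotProduct, mul_apply,
    transpose_apply, pv, Finset.sum_mul, Finset.mul_sum]
  rw [Finset.sum_comm]
  refine (Finset.sum_congr rfl fun _ _ => Finset.sum_comm).trans (Finset.sum_comm.trans ?_)
  exact Finset.sum_congr rfl fun _ _ => Finset.sum_congr rfl fun _ _ =>
    Finset.sum_congr rfl fun _ _ => by ring

theorem const (a : SmA N) (h : ∀ i, e.fr.X i a = 0) (x y : N.M) : a.1 x = a.1 y := by
  obtain ⟨c, h0, h1, hc⟩ := exists_curve (N := e.md.R) x y 1 one_pos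
  have := regm_curve (N := e.md.R) hc a.2 le_rfl fun τ _ => by
    rw [e.Γ_frame a.2 a.2]
    refine (Finset.sum_eq_zero fun i _ => ?_).trans_le (sq_nonneg _)
    rw [show e.X0 i a.1 (c τ) = 0 from congrFun (congrArg Subtype.val (h i)) _, mul_zero]
  rw [h0, h1, mul_zero, abs_nonpos_iff, sub_eq_zero] at this
  exact this.symm

/-- The mean curvature vector is normal. -/
theorem normal (j : ι) (z : N.M) : ∑ l, e.X0 l (e.f j) z * e.md.R.Δ (e.f l) z = 0 := by
  obtain ⟨lam, h0, hR⟩ := H87.exists_ricciGe (N := e.md.R)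
  let g := e.md.R.geo (by norm_num) h0 hR
  obtain ⟨m, -⟩ := H87.model_self (N := e.md.R) z
  have hX : ∀ l a, N.Sm a → e.X0 l a z = m.ξ (e.f l) ⬝ᵥ m.ξ a := fun l a ha =>
    m.Γ_eq _ _ (e.sm l) ha
  have h1 : ∀ u v : Fin 3 → ℝ, ∑ l, (m.ξ (e.f l) ⬝ᵥ u) * (m.ξ (e.f l) ⬝ᵥ v) = u ⬝ᵥ v := by
    intro u v
    obtain ⟨a, ha, rfl⟩ := m.surj u
    obtain ⟨b, hb, rfl⟩ := m.surj v
    rw [← m.Γ_eq _ _ ha hb, e.Γ_frame ha hb]
    simp only [hX _ _ ha, hX _ _ hb]
  have h2 : ∀ u v w : Fin 3 → ℝ, ∑ l, (m.ξ (e.f l) ⬝ᵥ u * (w ⬝ᵥ (m.h (e.f l) *ᵥ v)) +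
      m.ξ (e.f l) ⬝ᵥ v * (w ⬝ᵥ (m.h (e.f l) *ᵥ u))) = 0 := by
    intro u v w
    obtain ⟨a, ha, rfl⟩ := m.surj u
    obtain ⟨b, hb, rfl⟩ := m.surj v
    obtain ⟨c, hc, rfl⟩ := m.surj w
    have e1 := m.ΓΓ a b c ha hb hc
    rw [funext (e.Γ_frame ha hb)] at e1
    replace e1 := (int_Γ_sum (N := e.md.R) Finset.univ (ψ := fun l w => e.X0 l a w * e.X0 l b w)
      (fun l => ContMDiff.mul (e.sm_X0 l ha) (e.sm_X0 l hb)) c z).symm.trans e1
    have e2 : ∀ l, e.md.R.Γ (fun w => e.X0 l a w * e.X0 l b w) c z =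
        (m.ξ (e.f l) ⬝ᵥ m.ξ a * (m.ξ c ⬝ᵥ (m.h (e.f l) *ᵥ m.ξ b)) +
          m.ξ (e.f l) ⬝ᵥ m.ξ b * (m.ξ c ⬝ᵥ (m.h (e.f l) *ᵥ m.ξ a))) +
        (m.ξ (e.f l) ⬝ᵥ m.ξ a * (m.ξ (e.f l) ⬝ᵥ (m.h b *ᵥ m.ξ c)) +
          m.ξ (e.f l) ⬝ᵥ m.ξ b * (m.ξ (e.f l) ⬝ᵥ (m.h a *ᵥ m.ξ c))) := fun l => by
      refine (g.Γ_mul (e.sm_X0 l ha) (e.sm_X0 l hb) hc z).trans ?_
      change _ * e.md.R.Γ (e.md.R.Γ _ _) _ _ + _ * e.md.R.Γ (e.md.R.Γ _ _) _ _ = _
      rw [m.ΓΓ _ _ _ (e.sm l) ha hc, m.ΓΓ _ _ _ (e.sm l) hb hc, hX _ _ ha, hX _ _ hb,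
        H87.symm_dot (m.h_symm a ha) (m.ξ c), H87.symm_dot (m.h_symm b hb) (m.ξ c)]
      ring
    simp only [e2] at e1
    rw [Finset.sum_add_distrib, Finset.sum_add_distrib (f := fun l => _ * (m.ξ (e.f l) ⬝ᵥ _)),
      h1, h1, H87.symm_dot (m.h_symm a ha) (m.ξ b), H87.symm_dot (m.h_symm b hb) (m.ξ a)] at e1
    linarith
  have h3 : ∀ u (c : Fin 3), ∑ l, m.ξ (e.f l) ⬝ᵥ u * m.h (e.f l) c c = 0 := fun u c => by
    have a1 := h2 u (Pi.single c 1) (Pi.single c 1)
    have a2 := h2 (Pi.single c 1) (Pi.single c 1) u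
    simp only [fun l => H87.symm_dot (m.h_symm _ (e.sm l)) u, ← two_mul, ← Finset.mul_sum] at a2
    rw [Finset.sum_add_distrib, (mul_eq_zero.1 a2).resolve_left two_ne_zero, add_zero] at a1
    simpa using a1
  simp only [hX _ _ (e.sm j), fun l => m.Δ_eq _ (e.sm l), trace, diag, Finset.mul_sum]
  rw [Finset.sum_comm]
  exact Finset.sum_eq_zero fun c _ => h3 _ c

theorem ibp (v : ι → SmA N) (hv : e.fr.π *ᵥ v = v) :
    ∫ x, (∑ l, e.fr.X l (v l)).1 x ∂e.md.vol = 0 := by
  obtain ⟨lam, h0, hR⟩ := H87.exists_ricciGe (N := e.md.R)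
  let g := e.md.R.geo (by norm_num) h0 hR
  have h1 : ∀ l, ∫ x, (e.fr.X l (v l)).1 x ∂e.md.R.vol =
      -∫ x, (v l).1 x * e.md.R.Δ (e.f l) x ∂e.md.R.vol := fun l => by
    refine neg_eq_iff_eq_neg.1 (Eq.trans ?_ (H87.ibp' (g := g) (v l).2 (e.sm l)).symm)
    exact congrArg Neg.neg (integral_congr_ae (Eventually.of_forall fun x =>
      g.Γ_symm (e.sm l) (v l).2 x))
  have h2 : ∀ x, ∑ l, (v l).1 x * e.md.R.Δ (e.f l) x = 0 := fun x => by
    have h3 : ∀ l, (v l).1 x = ∑ j, e.X0 l (e.f j) x * (v j).1 x := fun l => by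
      conv_lhs => rw [← hv, mulVec, dotProduct, sum_val]
      rfl
    rw [Finset.sum_congr rfl fun l _ => by rw [h3 l, Finset.sum_mul], Finset.sum_comm]
    refine Finset.sum_eq_zero fun j _ => ?_
    simp only [mul_right_comm _ ((v j).1 x), ← Finset.sum_mul, e.normal j x, zero_mul]
  simp only [sum_val]
  change ∫ x, ∑ l, (e.fr.X l (v l)).1 x ∂e.md.R.vol = 0
  rw [integral_finsetSum _ fun l _ => H87.intg (g.cont (e.fr.X l (v l)).2)]
  simp only [h1]
  rw [Finset.sum_neg_distrib, neg_eq_zero]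
  refine (integral_finsetSum (μ := e.md.R.vol) _
    (f := fun l x => (v l).1 x * e.md.R.Δ (e.f l) x) fun l _ =>
    H87.intg ((g.cont (v l).2).mul (g.cont (g.sm_Δ (e.sm l))))).symm.trans ?_
  simp only [h2, integral_zero]

end Im

end Pool.Agent.MP_9bd639_gt.H88

end

-- part L0c
section

/-! Maximum points, smooth limits and the Sobolev inequality in terms of the frame. -/

open MeasureTheory Filter Topology Set Matrix Bundle
open scoped ContDiff Manifold

namespace Pool.Agent.MP_9bd639_gt.H88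

open Pool.Agent.MP_3fc7f4_gt PointedRiem

set_option linter.unusedSectionVars false
set_option backward.isDefEq.respectTransparency false

variable {N : PointedRiem 3} {ι : Type} [Fintype ι] [DecidableEq ι]

theorem L0_max {F : Euc 3 → ℝ} {y : Euc 3} (hF : ContDiffAt ℝ ∞ F y) (h : ∀ z, F z ≤ F y) :
    (∀ c, pd c F y = 0) ∧ ∀ η : Fin 3 → ℝ, ∑ c, ∑ b, η c * η b * pd c (pd b F) y ≤ 0 := by
  have h0 : fderiv ℝ F y = 0 := IsLocalMax.fderiv_eq_zero (Eventually.of_forall h)
  refine ⟨fun c => by simp [pd, h0], fun η => ?_⟩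
  set v : Euc 3 := WithLp.toLp 2 η with hv
  have hl : ∀ t : ℝ, HasDerivAt (fun s : ℝ => y + s • v) v t := fun t => by
    simpa using ((hasDerivAt_id t).smul_const v).const_add y
  have hd : ∀ {G : Euc 3 → ℝ} {t : ℝ}, DifferentiableAt ℝ G (y + t • v) →
      HasDerivAt (fun s : ℝ => G (y + s • v)) (∑ b, η b * pd b G (y + t • v)) t := fun hG => by
    have := hG.hasFDerivAt.comp_hasDerivAt _ (hl _)
    rwa [fderiv_eq_sum_pd] at this
  have e0 : y + (0 : ℝ) • v = y := by simp
  have h1 : deriv (fun s : ℝ => F (y + s • v)) =ᶠ[𝓝 0]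
      fun s => ∑ b, η b * pd b F (y + s • v) := by
    have : ∀ᶠ s : ℝ in 𝓝 0, DifferentiableAt ℝ F (y + s • v) :=
      (hl 0).continuousAt.eventually (by simpa only [e0] using coord_ev hF)
    exact this.mono fun s hs => (hd hs).deriv
  have h2 : HasDerivAt (fun s : ℝ => ∑ b, η b * pd b F (y + s • v))
      (∑ b, η b * ∑ c, η c * pd c (pd b F) (y + (0 : ℝ) • v)) 0 :=
    HasDerivAt.fun_sum fun b _ => (hd (by rw [e0]; exact coord_diff (cd_pd b hF))).const_mul _
  have h3 : deriv (deriv fun s : ℝ => F (y + s • v)) 0 =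
      ∑ c, ∑ b, η c * η b * pd c (pd b F) y := by
    rw [h1.deriv_eq, h2.deriv, e0, Finset.sum_comm]
    simp only [Finset.mul_sum]
    exact Finset.sum_congr rfl fun _ _ => Finset.sum_congr rfl fun _ _ => by ring
  rw [← h3]
  by_contra hp
  have hm : IsLocalMax (fun s : ℝ => F (y + s • v)) 0 :=
    Eventually.of_forall fun s => by simpa only [e0] using h _
  have h4 := isLocalMin_of_deriv_deriv_pos (not_le.1 hp) hm.deriv_eq_zero
    (hd (by rw [e0]; exact coord_diff hF)).continuousAt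
  have h5 : (fun s : ℝ => F (y + s • v)) =ᶠ[𝓝 0] fun _ => F (y + (0 : ℝ) • v) := by
    filter_upwards [hm, h4] with s a b using le_antisymm a b
  rw [h5.deriv.deriv_eq] at hp
  simp at hp

theorem L0_gns : ∃ C : ℝ, 0 ≤ C ∧ ∀ φ : Euc 3 → ℝ, ContDiff ℝ 1 φ → HasCompactSupport φ →
    ∫ y, φ y ^ 6 ≤ (C * ∫ y, ‖fderiv ℝ φ y‖ ^ 2) ^ 3 := by
  refine ⟨(SNormLESNormFDerivOfEqConst ℝ (volume : Measure (Euc 3)) (2 : NNReal) : ℝ) ^ 2,
    sq_nonneg _, fun φ hφ hc => ?_⟩
  have h := eLpNorm_le_eLpNorm_fderiv_of_eq (volume : Measure (Euc 3)) hφ hc (p := 2) (p' := 6)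
    one_le_two (by simp) (by rw [finrank_euclideanSpace_fin]; norm_num)
  rw [(hφ.continuous.memLp_of_hasCompactSupport hc).eLpNorm_eq_integral_rpow_norm (by simp)
    (by simp), ((hφ.continuous_fderiv one_ne_zero).memLp_of_hasCompactSupport
      (hc.fderiv ℝ)).eLpNorm_eq_integral_rpow_norm (by simp) (by simp),
    ← ENNReal.ofReal_coe_nnreal (p := SNormLESNormFDerivOfEqConst _ _ _),
    ← ENNReal.ofReal_mul (NNReal.coe_nonneg _),
    ENNReal.ofReal_le_ofReal_iff (by positivity)] at h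
  have e6 : ((6 : NNReal) : ENNReal).toReal = (6 : ℕ) := by simp
  have e2 : ((2 : NNReal) : ENNReal).toReal = (2 : ℕ) := by simp
  simp only [e6, e2, Real.rpow_natCast, Real.norm_eq_abs, (by decide : Even 6).pow_abs] at h
  have h6 := pow_le_pow_left₀ (by positivity) h 6
  rw [Real.rpow_inv_natCast_pow (integral_nonneg fun y => by positivity) (by norm_num),
    show 6 = 2 * 3 from rfl, pow_mul _ 2 3, mul_pow,
    Real.rpow_inv_natCast_pow (integral_nonneg fun y => by positivity) (by norm_num)] at h6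
  exact h6

theorem L0_sob_loc (x : N.M) {K : Set N.M} (hK : IsCompact K) (hKx : K ⊆ (N.ch x).source) :
    ∃ C : ℝ, 0 ≤ C ∧ ∀ b, N.Sm b → tsupport b ⊆ K →
      ∫ z, b z ^ 6 ∂N.vol ≤ (C * ∫ z, N.Γ b b z ∂N.vol) ^ 3 := by
  obtain ⟨C, hC, hG⟩ := L0_gns
  have hm := met (N := N) x
  have hK' : IsCompact (N.ch x '' K) := hK.image_of_continuousOn ((N.ch x).continuousOn.mono hKx)
  have hT : N.ch x '' K ⊆ (N.ch x).target := by
    rintro _ ⟨z, hz, rfl⟩
    exact (N.ch x).map_source (hKx hz)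
  obtain ⟨K1, hK1⟩ := hK'.exists_bound_of_continuousOn ((int_dens_cont x).mono hT)
  obtain ⟨K2, hK2⟩ := hK'.exists_bound_of_continuousOn
    (f := fun y => (∑ i, coef x y i i) / dens (coef x) y) fun y hy =>
      ((ContDiffAt.sum fun i _ => hm.cd_G (hT hy) i i).continuousAt.div
        (hm.cd_dens (hT hy)).continuousAt (hm.dens_pos (hT hy)).ne').continuousWithinAt
  refine ⟨(|K1| + 1) * C * (3 * |K2|), by positivity, fun b hb hs => ?_⟩
  have hc : HasCompactSupport b := hK.of_isClosed_subset (isClosed_tsupport b) hs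
  set φ := (N.ch x).target.indicator (N.loc x b) with hφ
  have hφ1 : ∀ y ∈ (N.ch x).target, φ =ᶠ[𝓝 y] N.loc x b := fun y hy => by
    filter_upwards [hm.opn.mem_nhds hy] with w hw using indicator_of_mem hw _
  have hφ0 : ∀ y, y ∉ N.ch x '' K → φ =ᶠ[𝓝 y] fun _ => 0 := fun y hy => by
    filter_upwards [hK'.isClosed.isOpen_compl.mem_nhds hy] with w hw
    by_cases h : w ∈ (N.ch x).target
    · rw [hφ, indicator_of_mem h, loc, image_eq_zero_of_notMem_tsupport fun h' =>
        hw ⟨_, hs h', (N.ch x).right_inv h⟩]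
    · exact indicator_of_notMem h _
  have hd : ContDiff ℝ ∞ φ := contDiff_iff_contDiffAt.2 fun y => by
    by_cases h : y ∈ N.ch x '' K
    · exact (hb.cd_loc x (hT h)).congr_of_eventuallyEq (hφ1 y (hT h))
    · exact contDiffAt_const.congr_of_eventuallyEq (hφ0 y h)
  have hφc : HasCompactSupport φ := HasCompactSupport.intro hK' fun y hy => (hφ0 y hy).self_of_nhds
  have i1 : Integrable fun y => φ y ^ 6 := (hd.continuous.pow 6).integrable_of_hasCompactSupport
    (HasCompactSupport.intro hK' fun y hy => by simp [(hφ0 y hy).self_of_nhds])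
  have h1 : ∫ z, b z ^ 6 ∂N.vol ≤ (|K1| + 1) * ∫ y, φ y ^ 6 := by
    rw [regm_int x (F := fun z => b z ^ 6) (hb.continuous.pow 6).aestronglyMeasurable
      (fun z hz => by simp [image_eq_zero_of_notMem_tsupport fun h => hz (hKx (hs h))])
      (g := fun y => dens (coef x) y * φ y ^ 6) (fun y hy => by rw [(hφ1 y hy).self_of_nhds]; rfl)
      (fun y hy => by simp [(hφ0 y fun h => hy (hT h)).self_of_nhds]), ← integral_const_mul]
    refine integral_mono_of_nonneg (Eventually.of_forall fun y =>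
      mul_nonneg (int_dens_nonneg x y) (by positivity)) (i1.const_mul _)
      (Eventually.of_forall fun y => ?_)
    by_cases h : y ∈ N.ch x '' K
    · exact mul_le_mul_of_nonneg_right (by
        linarith [le_abs_self K1, (le_abs_self _).trans (hK1 y h)]) (by positivity)
    · simp [(hφ0 y h).self_of_nhds]
  have h2 : ∫ y, ‖fderiv ℝ φ y‖ ^ 2 ≤ 3 * |K2| * ∫ z, N.Γ b b z ∂N.vol := by
    have a0 : ∀ y, y ∉ N.ch x '' K → dens (coef x) y * gam (coef x) φ φ y = 0 := fun y hy => by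
      rw [int_gam_zero (hφ0 y hy), mul_zero]
    rw [regm_int x (F := N.Γ b b) (sm_Γ hb hb).continuous.aestronglyMeasurable
      (fun z hz => int_Γ_zero _ fun h => hz (hKx (hs h)))
      (g := fun y => dens (coef x) y * gam (coef x) φ φ y) (fun y hy => by
        rw [loc, Γ_chart hb hb ((N.ch x).map_target hy), (N.ch x).right_inv hy,
          gam_congr (hφ1 y hy) (hφ1 y hy)])
      (fun y hy => a0 y fun h => hy (hT h)), ← integral_const_mul]
    refine integral_mono_of_nonneg (Eventually.of_forall fun y => by positivity)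
      (Integrable.const_mul ?_ _) (Eventually.of_forall fun y => ?_)
    · refine (integrableOn_iff_integrable_of_support_subset (s := N.ch x '' K)
        fun y hy => by_contra fun h => hy (a0 y h)).1 (ContinuousOn.integrableOn_compact hK' ?_)
      exact fun y hy => ((hm.cd_dens (hT hy)).mul
        (hm.cd_gam (hT hy) hd.contDiffAt hd.contDiffAt)).continuousAt.continuousWithinAt
    · by_cases h : y ∈ N.ch x '' K
      · have hy := hT h
        have a1 := hm.gam_nonneg hy (f := φ)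
        have a2 := hm.dens_pos hy
        have a3 : ∀ i, pd i φ y ^ 2 ≤ coef x y i i * gam (coef x) φ φ y := fun i => by
          simpa [pd, bas, Pi.single_apply] using hm.fderiv_sq_le hy (f := φ) (bas i)
        have a4 : ‖fderiv ℝ φ y‖ ≤ ∑ i, |pd i φ y| := by
          refine ContinuousLinearMap.opNorm_le_bound _ (by positivity) fun v => ?_
          rw [fderiv_eq_sum_pd, Finset.sum_mul]
          refine (norm_sum_le _ _).trans (Finset.sum_le_sum fun i _ => ?_)
          rw [norm_mul, mul_comm]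
          exact mul_le_mul_of_nonneg_left (PiLp.norm_apply_le v i) (abs_nonneg _)
        have a5 := (le_abs_self _).trans ((hK2 y h).trans (le_abs_self K2))
        rw [div_le_iff₀ a2] at a5
        have a6 := pow_le_pow_left₀ (norm_nonneg _) a4 2
        have a7 := sq_sum_le_card_mul_sum_sq (s := Finset.univ) (f := fun i => |pd i φ y|)
        have a8 := Finset.sum_le_sum fun i (_ : i ∈ Finset.univ) => a3 i
        rw [← Finset.sum_mul] at a8
        simp only [sq_abs, Finset.card_univ, Fintype.card_fin, Nat.cast_ofNat] at a7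
        have a9 := mul_le_mul_of_nonneg_right a5 a1
        simp only
        linarith
      · simp [a0 y h, (hφ0 y h).fderiv_eq]
  have h3 := hG φ (hd.of_le (by simp)) hφc
  have h4 : 0 ≤ ∫ y, ‖fderiv ℝ φ y‖ ^ 2 := integral_nonneg fun y => by positivity
  have h5 := pow_le_pow_left₀ (by positivity) (mul_le_mul_of_nonneg_left h2 hC) 3
  have h6 : |K1| + 1 ≤ (|K1| + 1) ^ 3 := le_self_pow₀ (by linarith [abs_nonneg K1]) (by norm_num)
  calc _ ≤ (|K1| + 1) * (C * (3 * |K2| * ∫ z, N.Γ b b z ∂N.vol)) ^ 3 :=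
        h1.trans (mul_le_mul_of_nonneg_left (h3.trans h5) (by positivity))
    _ ≤ (|K1| + 1) ^ 3 * (C * (3 * |K2| * ∫ z, N.Γ b b z ∂N.vol)) ^ 3 :=
        mul_le_mul_of_nonneg_right h6 ((by positivity : (0 : ℝ) ≤ _).trans h5)
    _ = _ := by ring

theorem L0_sob (N : PointedRiem 3) [CompactSpace N.M] : ∃ C : ℝ, ∀ a, N.Sm a →
    (∫ z, a z ^ 6 ∂N.vol) ^ (1 / 3 : ℝ) ≤ C * ∫ z, (N.Γ a a z + a z ^ 2) ∂N.vol := by
  obtain ⟨lam, h0, hR⟩ := H87.exists_ricciGe (N := N)
  let g := N.geo (by norm_num) h0 hR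
  obtain ⟨S, ψ, hψ, -, h1⟩ := exists_partition (N := N) isCompact_univ
    fun x => chart_source_mem_nhds (Euc 3) x
  choose C hC hC' using fun x => L0_sob_loc x (hψ x).2.1.isCompact (hψ x).2.2.1
  choose D hD hD' using fun x => H87.exists_bd
    ((g.cont (g.sm_sq (hψ x).1)).add (g.cont (g.sm_Γ (hψ x).1 (hψ x).1)))
  refine ⟨S.card ^ 2 * ∑ x ∈ S, C x * (2 * D x), fun a ha => ?_⟩
  have c1 : Continuous a := g.cont ha
  have c2 : Continuous (N.Γ a a) := g.cont (g.sm_Γ ha ha)
  have hE : 0 ≤ ∫ z, (N.Γ a a z + a z ^ 2) ∂N.vol :=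
    integral_nonneg fun z => add_nonneg (g.Γ_nonneg ha z) (sq_nonneg _)
  have hM : ∀ x ∈ S, 0 ≤ C x * (2 * D x) := fun x _ => mul_nonneg (hC x) (by linarith [hD x])
  have h2 : ∀ x ∈ S, ∫ z, (ψ x z * a z) ^ 6 ∂N.vol ≤
      ((∑ x ∈ S, C x * (2 * D x)) * ∫ z, (N.Γ a a z + a z ^ 2) ∂N.vol) ^ 3 := fun x hx => by
    have sb := g.sm_mul (hψ x).1 ha
    have a1 : ∫ z, N.Γ (fun z => ψ x z * a z) (fun z => ψ x z * a z) z ∂N.vol ≤
        2 * D x * ∫ z, (N.Γ a a z + a z ^ 2) ∂N.vol := by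
      rw [← integral_const_mul]
      refine integral_mono (H87.intg (g.cont (g.sm_Γ sb sb))) (H87.intg (by fun_prop)) fun z => ?_
      have b1 := g.Γ_mul (hψ x).1 ha sb z
      rw [g.Γ_mul_right (hψ x).1 ha ha, g.Γ_mul_right (hψ x).1 ha (hψ x).1,
        g.Γ_symm ha (hψ x).1] at b1
      have b2 := g.Γ_nonneg (g.sm_add (g.sm_smul (a z) (hψ x).1) (g.sm_smul (-ψ x z) ha)) z
      rw [g.Γ_comb _ _ (hψ x).1 ha] at b2
      have b3 := (le_abs_self _).trans (hD' x z)
      have b4 := g.Γ_nonneg ha z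
      have b5 := g.Γ_nonneg (hψ x).1 z
      change g.Γ _ _ z ≤ 2 * D x * (g.Γ a a z + a z ^ 2)
      simp only [Pi.add_apply] at b3
      rw [b1]
      nlinarith [mul_le_mul_of_nonneg_right b3 b4, mul_le_mul_of_nonneg_right b3 (sq_nonneg (a z)),
        mul_nonneg b4 b5, sq_nonneg (ψ x z * a z)]
    have a2 : 0 ≤ ∫ z, N.Γ (fun z => ψ x z * a z) (fun z => ψ x z * a z) z ∂N.vol :=
      integral_nonneg (g.Γ_nonneg sb)
    refine (hC' x _ sb tsupport_mul_subset_left).trans (pow_le_pow_left₀ (mul_nonneg (hC x) a2)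
      ((mul_le_mul_of_nonneg_left a1 (hC x)).trans ?_) 3)
    rw [← mul_assoc]
    exact mul_le_mul_of_nonneg_right (Finset.single_le_sum hM hx) hE
  have h3 : ∫ z, a z ^ 6 ∂N.vol ≤ S.card ^ 5 * ∑ x ∈ S, ∫ z, (ψ x z * a z) ^ 6 ∂N.vol := by
    have c3 : ∀ x, Continuous fun z => (ψ x z * a z) ^ 6 := fun x =>
      ((g.cont (hψ x).1).mul c1).pow 6
    rw [← integral_finsetSum _ fun x _ => H87.intg (c3 x), ← integral_const_mul]
    refine integral_mono (H87.intg (by fun_prop)) (H87.intg (continuous_const.mul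
      (continuous_finsetSum _ fun x _ => c3 x))) fun z => ?_
    have := pow_sum_le_card_mul_sum_pow (s := S) (fun x _ => (hψ x).2.2.2 z) 5
    rw [h1 z (mem_univ z), one_pow] at this
    simp only [mul_pow, ← Finset.sum_mul]
    nlinarith [mul_le_mul_of_nonneg_right this (show 0 ≤ a z ^ 6 by positivity)]
  have h4 := Finset.sum_le_card_nsmul _ _ _ h2
  rw [nsmul_eq_mul] at h4
  have h5 := Finset.sum_nonneg hM
  refine (Real.rpow_le_rpow (integral_nonneg fun z => by positivity)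
    (h3.trans (mul_le_mul_of_nonneg_left h4 (by positivity))) (by norm_num)).trans_eq ?_
  rw [← mul_assoc, ← pow_succ, show 5 + 1 = 2 * 3 from rfl, pow_mul, ← mul_pow, one_div,
    mul_assoc]
  exact Real.pow_rpow_inv_natCast (by positivity) (n := 3) (by norm_num)

namespace Im

variable (e : Im N ι) [CompactSpace N.M]

theorem maxpt (a : SmA N) (x : N.M) (h : ∀ y, a.1 y ≤ a.1 x) : (∀ i, (e.fr.X i a).1 x = 0) ∧
    ∀ ξ : ι → ℝ, ∑ i, ∑ j, ξ i * ξ j * (e.fr.X i (e.fr.X j a)).1 x ≤ 0 := by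
  obtain ⟨h1, h2⟩ := L0_max (Sm.cd a.2 x) fun z => by rw [loc_self]; exact h _
  refine ⟨fun i => (e.X0_chart i a.2 (mem_chart_source _ x)).trans ?_, fun ξ => ?_⟩
  · simp [mulVec, dotProduct, pv, h1]
  · refine le_of_eq_of_le ?_ (h2 (ξ ᵥ* e.W x (N.ch x x)))
    have h3 : ∀ i j, (e.fr.X i (e.fr.X j a)).1 x = _ := fun i j => e.X0_X0 i j a.2 x
    simp only [h3, h1, zero_mul, add_zero, vecMul, dotProduct, Finset.mul_sum, Finset.sum_mul]
    rw [Finset.sum_comm]
    refine (Finset.sum_congr rfl fun _ _ => Finset.sum_comm).trans (Finset.sum_comm.trans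
      (Finset.sum_congr rfl fun c _ => ?_))
    refine (Finset.sum_congr rfl fun _ _ => Finset.sum_comm).trans (Finset.sum_comm.trans
      (Finset.sum_congr rfl fun b _ => ?_))
    exact Finset.sum_congr rfl fun _ _ => Finset.sum_congr rfl fun _ _ => by ring

theorem sob : ∃ C : ℝ, ∀ a : SmA N, (∫ x, a.1 x ^ 6 ∂e.md.vol) ^ (1 / 3 : ℝ) ≤
    C * ∫ x, (∑ i, (e.fr.X i a).1 x ^ 2 + a.1 x ^ 2) ∂e.md.vol := by
  obtain ⟨C, hC⟩ := L0_sob e.md.R
  refine ⟨C, fun a => (hC a.1 a.2).trans_eq ?_⟩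
  simp only [e.Γ_frame a.2 a.2, sq]
  rfl

theorem fderiv_eq {a : N.M → ℝ} (ha : N.Sm a) {x : N.M} {y : Euc 3} (hy : y ∈ (N.ch x).target) :
    fderiv ℝ (N.loc x a) y = ∑ i, N.loc x (e.X0 i a) y • fderiv ℝ (N.loc x (e.f i)) y := by
  have h := e.pv_eq ha ((N.ch x).map_target hy)
  rw [(N.ch x).right_inv hy] at h
  ext v
  simp only [_root_.sum_apply, _root_.smul_apply, fderiv_eq_sum_pd,
    smul_eq_mul, Finset.mul_sum]
  rw [Finset.sum_comm]
  refine Finset.sum_congr rfl fun c _ => ?_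
  rw [show pd c (N.loc x a) y = _ from congrFun h c, mulVec, dotProduct, Finset.mul_sum]
  exact Finset.sum_congr rfl fun i _ => by
    simp only [jac, transpose_apply, of_apply, loc]
    ring

theorem lip {a : N.M → ℝ} (ha : N.Sm a) {L : ℝ} (hL : 0 ≤ L) (h : ∀ z, ∑ i, e.X0 i a z ^ 2 ≤ L ^ 2)
    (x y : e.md.R.M) : |a y - a x| ≤ L * dist x y := by
  refine le_of_forall_pos_le_add fun ε hε => ?_
  obtain ⟨c, h0, h1, hc⟩ := exists_curve (N := e.md.R) x y (ε / (L + 1)) (by positivity)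
  have := regm_curve (N := e.md.R) hc ha hL fun τ _ => by
    rw [e.Γ_frame ha ha]
    simpa only [sq] using h (c τ)
  rw [h0, h1] at this
  have h2 : ε / (L + 1) * L ≤ ε := by
    rw [div_mul_eq_mul_div, div_le_iff₀ (by positivity)]
    linarith
  linarith

theorem lim (κ : Type) (𝒰 : Ultrafilter κ) (u : κ → SmA N)
    (h : ∀ w, ∃ C : ℝ, ∀ᶠ n in (𝒰 : Filter κ), ∀ x, |(e.fr.Xw w (u n)).1 x| ≤ C) :
    ∃ v : SmA N, ∀ w,
      TendstoUniformly (fun n => (e.fr.Xw w (u n)).1) (e.fr.Xw w v).1 (𝒰 : Filter κ) := by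
  choose C hC using h
  have hb : ∀ w x, ∃ b, Tendsto (fun n => (e.fr.Xw w (u n)).1 x) 𝒰 (𝓝 b) := fun w x => by
    obtain ⟨b, -, hb⟩ := (isCompact_Icc (a := -C w) (b := C w)).ultrafilter_le_nhds
      (𝒰.map fun n => (e.fr.Xw w (u n)).1 x)
      (le_principal_iff.2 ((hC w).mono fun n hn => abs_le.1 (hn x)))
    exact ⟨b, hb⟩
  choose b hb using hb
  have hX : ∀ w i n, (e.fr.Xw (w ++ [i]) (u n)).1 = e.X0 i (e.fr.Xw w (u n)).1 := fun w i n => by
    rw [Fr.Xw_append]
    rfl
  have hU : ∀ w, TendstoUniformly (fun n => (e.fr.Xw w (u n)).1) (b w) (𝒰 : Filter κ) := by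
    intro w
    obtain ⟨L, hL, h1⟩ : ∃ L, 0 < L ∧ ∀ᶠ n in (𝒰 : Filter κ), ∀ x y : e.md.R.M,
        |(e.fr.Xw w (u n)).1 y - (e.fr.Xw w (u n)).1 x| ≤ L * dist x y := by
      have a0 : 0 ≤ ∑ i, C (w ++ [i]) ^ 2 := by positivity
      refine ⟨∑ i, C (w ++ [i]) ^ 2 + 1, by positivity, ?_⟩
      filter_upwards [eventually_all.2 fun i => hC (w ++ [i])] with n hn
      refine e.lip (e.fr.Xw w (u n)).2 (by positivity) fun z => ?_
      refine (Finset.sum_le_sum (g := fun i => C (w ++ [i]) ^ 2) fun i _ => ?_).trans (by nlinarith)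
      rw [← hX, ← sq_abs]
      exact pow_le_pow_left₀ (abs_nonneg _) (hn i z) 2
    have h2 : ∀ x y : e.md.R.M, |b w y - b w x| ≤ L * dist x y := fun x y =>
      le_of_tendsto ((hb w y).sub (hb w x)).abs (h1.mono fun n hn => hn x y)
    refine Metric.tendstoUniformly_iff.2 fun ε hε => ?_
    obtain ⟨t, -, ht, hc⟩ := finite_cover_balls_of_compact (isCompact_univ (X := e.md.R.M))
      (e := ε / 3 / L) (by positivity)
    filter_upwards [h1, (eventually_all_finite ht).2 fun x _ =>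
      Metric.tendsto_nhds.1 (hb w x) (ε / 3) (by positivity)] with n hn hn' y
    obtain ⟨x, hx, hy⟩ := mem_iUnion₂.1 (hc (mem_univ y))
    rw [Metric.mem_ball', lt_div_iff₀' hL] at hy
    have a1 := abs_le.1 (hn x y)
    have a2 := abs_le.1 (h2 x y)
    have a3 := abs_lt.1 (hn' x hx)
    rw [Real.dist_eq, abs_lt]
    constructor <;> linarith
  have hD : ∀ w x, ∀ y ∈ (N.ch x).target, HasFDerivAt (N.loc x (b w))
      (∑ i, N.loc x (b (w ++ [i])) y • fderiv ℝ (N.loc x (e.f i)) y) y := by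
    intro w x y hy
    refine hasFDerivAt_of_tendstoUniformlyOnFilter (l := 𝒰)
      (f := fun n => N.loc x (e.fr.Xw w (u n)).1)
      (f' := fun n y => ∑ i, N.loc x (e.fr.Xw (w ++ [i]) (u n)).1 y • fderiv ℝ (N.loc x (e.f i)) y)
      (g' := fun y => ∑ i, N.loc x (b (w ++ [i])) y • fderiv ℝ (N.loc x (e.f i)) y) ?_ ?_
      (Eventually.of_forall fun y => hb w _)
    · refine Metric.tendstoUniformlyOnFilter_iff.2 fun ε hε => ?_
      have a1 : ContinuousAt (fun z => ∑ i, ‖fderiv ℝ (N.loc x (e.f i)) z‖) y :=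
        tendsto_finsetSum _ fun i _ =>
          (((e.sm i).cd_loc x hy).continuousAt_fderiv (by simp)).norm
      set K := ∑ i, ‖fderiv ℝ (N.loc x (e.f i)) y‖ + 1 with hK
      have a2 : 0 < K := by positivity
      filter_upwards [(eventually_all.2 fun i => Metric.tendstoUniformly_iff.1 (hU (w ++ [i]))
        (ε / K / 2) (by positivity)).prod_mk (a1.eventually (gt_mem_nhds (lt_add_one _)))] with p hp
      rw [dist_eq_norm, ← Finset.sum_sub_distrib]
      refine (norm_sum_le_of_le _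
        (n := fun i => ε / K / 2 * ‖fderiv ℝ (N.loc x (e.f i)) p.2‖) fun i _ => ?_).trans_lt ?_
      · rw [← sub_smul, norm_smul]
        exact mul_le_mul_of_nonneg_right (hp.1 i _).le (norm_nonneg _)
      · rw [← Finset.mul_sum]
        refine (mul_le_mul_of_nonneg_left hp.2.le (by positivity)).trans_lt ?_
        rw [← hK, div_mul_eq_mul_div, div_mul_cancel₀ _ a2.ne']
        linarith
    · filter_upwards [(Eventually.of_forall fun _ => trivial).prod_mk
        ((N.ch x).open_target.mem_nhds hy)] with p hp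
      simp only [hX, ← e.fderiv_eq (e.fr.Xw w (u p.1)).2 hp.2]
      exact (coord_diff (Sm.cd_loc (e.fr.Xw w (u p.1)).2 x hp.2)).hasFDerivAt
  have hS : ∀ (k : ℕ) w x, ContDiffOn ℝ k (N.loc x (b w)) (N.ch x).target := by
    intro k
    induction k with
    | zero => exact fun w x => contDiffOn_zero.2 fun y hy =>
        (hD w x y hy).continuousAt.continuousWithinAt
    | succ k ih =>
      intro w x
      push_cast
      refine (contDiffOn_succ_iff_fderiv_of_isOpen (N.ch x).open_target).2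
        ⟨fun y hy => (hD w x y hy).differentiableAt.differentiableWithinAt, by simp,
          ContDiffOn.congr (ContDiffOn.sum fun i _ => (ih _ x).smul fun y hy => ?_)
            fun y hy => (hD w x y hy).fderiv⟩
      exact (((e.sm i).cd_loc x hy).fderiv_right (by exact_mod_cast le_top)).contDiffWithinAt
  have hs : ∀ w, N.Sm (b w) := fun w => sm_of_local fun z k => ⟨z, mem_chart_source _ z, _,
    (hS k w z).contDiffAt ((N.ch z).open_target.mem_nhds (mem_target z)), by
      filter_upwards [chart_source_mem_nhds (Euc 3) z] with y hy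
      rw [loc, (N.ch z).left_inv hy]⟩
  have hb' : ∀ w i, e.fr.X i ⟨b w, hs w⟩ = ⟨b (w ++ [i]), hs _⟩ := fun w i => by
    refine Subtype.ext (funext fun z => ?_)
    have a1 : e.X0 i (b w) z = ∑ j, e.X0 i (e.f j) z * b (w ++ [j]) z := by
      have hz := mem_chart_source (Euc 3) z
      simp only [e.X0_chart i (hs w) hz, e.X0_f i _ hz, mulVec, dotProduct, pv, pd, mul_apply,
        (hD w z _ (mem_target z)).fderiv, _root_.sum_apply, transpose_apply, jac,
        _root_.smul_apply, smul_eq_mul, loc_self, of_apply, Finset.mul_sum,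
        Finset.sum_mul]
      rw [Finset.sum_comm]
      exact Finset.sum_congr rfl fun _ _ => Finset.sum_congr rfl fun _ _ => by ring
    refine a1.trans (tendsto_nhds_unique (tendsto_finsetSum _ fun j _ =>
      (hb (w ++ [j]) z).const_mul _) ((hb (w ++ [i]) z).congr fun n => ?_))
    simp only [hX]
    exact e.X0_tang i (e.fr.Xw w (u n)).2 z
  have hw : ∀ w' w, e.fr.Xw w' ⟨b w, hs w⟩ = ⟨b (w ++ w'), hs _⟩ := fun w' => by
    induction w' with
    | nil => simp [Fr.Xw]
    | cons i w' ih => intro w; rw [Fr.Xw, hb', ih]; simp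
  exact ⟨⟨b [], hs []⟩, fun w => by rw [hw]; exact hU w⟩

end Im

end Pool.Agent.MP_9bd639_gt.H88

end
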