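import Pool.Agent.MP_9bd639_gt.Mg.H87_Main
import Pool.Agent.MP_9bd639_gt.G.An2
import Pool.Agent.MP_9bd639_gt.G.Frame
import Pool.Agent.MP_9bd639_gt.G.Bishop

-- part Ident
section

/-! The curvature of a metric in the frame is determined by its carre du champ and its volume. -/

open Matrix MeasureTheory Filter Topology Set
open scoped ContDiff

namespace Pool.Agent.MP_9bd639_gt.H88

open Pool.Agent.MP_9bd639_gt.H87

namespace Base

variable {B : Base} {m : B.Me} {Sm : (B.M → ℝ) → Prop}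
  {Γ : (B.M → ℝ) → (B.M → ℝ) → B.M → ℝ} {Δ : (B.M → ℝ) → B.M → ℝ}

/-- The operators `Γ` and `Δ` are those of the metric `m`. -/
structure Rep (m : B.Me) (Sm : (B.M → ℝ) → Prop) (Γ : (B.M → ℝ) → (B.M → ℝ) → B.M → ℝ)
    (Δ : (B.M → ℝ) → B.M → ℝ) : Prop where
  sm : ∀ a, Sm a ↔ a ∈ B.A
  gam : ∀ a b : B.A, Γ a.1 b.1 = (m.gam a b).1
  lap : ∀ a : B.A, Δ a.1 = (m.lap a).1

theorem Rep.of_ibp (h : Pos m) (sm : ∀ a, Sm a ↔ a ∈ B.A)
    (gam : ∀ a b : B.A, Γ a.1 b.1 = (m.gam a b).1) (smΔ : ∀ a, Sm a → Sm (Δ a))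
    (ibp : ∀ a b, Sm a → Sm b → ∫ x, a x * Δ b x ∂vol m = -∫ x, Γ a b x ∂vol m) :
    Rep m Sm Γ Δ := by
  refine ⟨sm, gam, fun b => ?_⟩
  set c : B.A := ⟨Δ b.1, (sm _).1 (smΔ _ ((sm _).2 b.2))⟩ with hc
  have h1 : I m ((c - m.lap b) * c) = -I m (m.gam (c - m.lap b) b) := by
    have := ibp (c - m.lap b).1 b.1 ((sm _).2 (c - m.lap b).2) ((sm _).2 b.2)
    rw [gam] at this
    exact this
  have h2 : (c - m.lap b) * (c - m.lap b) = 0 := h.eq_zero (fun x => mul_self_nonneg _) (by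
    rw [mul_sub, I_sub, h1, h.ibp, sub_self])
  funext x
  have h3 : ((c - m.lap b).1 x) * ((c - m.lap b).1 x) = 0 := congrArg (fun a : B.A => a.1 x) h2
  exact sub_eq_zero.1 (mul_self_eq_zero.1 h3)

open Classical in
/-- A function as an element of the algebra. -/
noncomputable def toA (B : Base) (a : B.M → ℝ) : B.A := if h : a ∈ B.A then ⟨a, h⟩ else 0

theorem toA_val (a : B.A) : B.toA a.1 = a := dif_pos a.2

theorem Ident_trace {S : Matrix (Fin 3) (Fin 3) ℝ} (h : Sᵀ = S) :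
    ∑ a, ∑ b, S a b * S a b = (S * S).trace := by
  simp only [Matrix.trace, diag_apply, Matrix.mul_apply]
  exact Finset.sum_congr rfl fun a _ => Finset.sum_congr rfl fun b _ => by
    rw [← transpose_apply S a b, h]

theorem ip2_Ric (m : B.Me) : m.ip2 m.Ric m.Ric = 6 * m.s1 ^ 2 - 2 * m.s2 := by
  rw [m.Ric_eq, m.ip2_add, m.ip2_smul, m.ip2_comm m.S, m.ip2_comm m.G, m.ip2_add, m.ip2_add,
    m.ip2_smul, m.ip2_smul, m.ip2_comm m.G m.S, m.ip2_G, m.ip2_G, m.tr_S, m.tr_G, Met.s2, Met.p2]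
  linear_combination (m.s1 ^ 2 - m.ip2 m.S m.S) * two_hf (A := B.A)

theorem Rep.model (h : Pos m) (hr : Rep m Sm Γ Δ) (z : B.M) : ∃ M : Model Sm Γ Δ z,
    M.r.trace = 4 * m.s1.1 z ∧ (M.r * M.r).trace = 6 * m.s1.1 z ^ 2 - 2 * m.s2.1 z := by
  obtain ⟨p, hp⟩ := h.pt z
  have ev : ∀ a : B.A, a.1 z = p.ev a := fun a => by rw [hp]; rfl
  have lift : ∀ {f}, Sm f → ∃ a : B.A, a.1 = f := fun {f} hf => ⟨⟨f, (hr.sm f).1 hf⟩, rfl⟩
  have sy : ∀ {T : B.Mat}, B.F.ST T → (p.h2 T)ᵀ = p.h2 T := fun hT => by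
    rw [← p.h2_transpose, hT.symm]
  refine ⟨⟨p.h2 m.Ric, fun f => p.h1 (B.F.d0 (B.toA f)), fun f => p.h2 (m.hess (B.toA f)),
    sy m.ST_Ric, fun f _ => sy (m.ST_hess _), fun f k hf hk => ?_, fun f k hf hk => ?_,
    fun f hf => ?_, fun f k l hf hk hl => ?_, fun f hf => ?_, fun v => ?_⟩, ?_, ?_⟩
  · obtain ⟨a, rfl⟩ := lift hf
    obtain ⟨b, rfl⟩ := lift hk
    refine ⟨(hr.sm _).2 (a + b).2, ?_⟩
    have e : B.toA (fun y => a.1 y + b.1 y) = a + b := toA_val (a + b)
    rw [e, toA_val, toA_val, ← p.h1_add]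
    congr 1
    funext i
    exact map_add (B.F.X i) a b
  · obtain ⟨a, rfl⟩ := lift hf
    obtain ⟨b, rfl⟩ := lift hk
    rw [hr.gam, toA_val, toA_val, ev, Met.gam, p.ev_ip1]
  · obtain ⟨a, rfl⟩ := lift hf
    rw [hr.lap, toA_val, ev, Met.lap, p.ev_tr]
  · obtain ⟨a, rfl⟩ := lift hf
    obtain ⟨b, rfl⟩ := lift hk
    obtain ⟨c, rfl⟩ := lift hl
    rw [hr.gam, hr.gam, toA_val, toA_val, toA_val, ev, m.gam_gam, map_add, p.ev_quad, p.ev_quad]
  · obtain ⟨a, rfl⟩ := lift hf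
    have e := congrArg p.ev (m.bochner a)
    rw [map_mul, p.ev_hf, map_add, map_add, p.ev_ip2, p.ev_quad, Ident_trace (sy (m.ST_hess a))]
      at e
    rw [hr.gam, hr.lap, hr.lap, hr.gam, toA_val, ev, ev]
    linarith
  · obtain ⟨a, -, ha⟩ := p.exists_fun v
    exact ⟨a.1, (hr.sm _).2 a.2, by rw [toA_val, ha]⟩
  · change (p.h2 m.Ric).trace = _
    rw [← p.ev_tr, m.tr_Ric, map_mul, map_ofNat, ev]
  · change (p.h2 m.Ric * p.h2 m.Ric).trace = _
    rw [← Ident_trace (sy m.ST_Ric), ← p.ev_ip2, ip2_Ric, map_sub, map_mul, map_mul, map_pow,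
      map_ofNat, map_ofNat, ev, ev]

theorem Rep.inv (h : Pos m) (hr : Rep m Sm Γ Δ) {z : B.M} (M : Model Sm Γ Δ z) :
    M.r.trace = 4 * m.s1.1 z ∧ (M.r * M.r).trace = 6 * m.s1.1 z ^ 2 - 2 * m.s2.1 z := by
  obtain ⟨M', h1, h2⟩ := hr.model h z
  obtain ⟨e1, e2, -⟩ := M.inv M'
  exact ⟨e1.trans h1, e2.trans h2⟩

theorem Rep.cd (h : Pos m) (hr : Rep m Sm Γ Δ) {κ : ℝ}
    (hκ : ∀ (a : B.A) x, 2 * κ * (m.gam a a).1 x ≤ (m.quad m.Ric a a).1 x) (f : B.M → ℝ)
    (hf : Sm f) (x : B.M) : Δ f x ^ 2 / 3 + 2 * κ * Γ f f x ≤ Δ (Γ f f) x / 2 - Γ f (Δ f) x := by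
  obtain ⟨a, rfl⟩ : ∃ a : B.A, a.1 = f := ⟨⟨f, (hr.sm f).1 hf⟩, rfl⟩
  have e := congrArg (B.ev x) (m.bochner a)
  have e2 := congrArg (B.ev x) (m.ip2_tl (m.hess a) (m.hess a))
  have h0 := h.ip2_nonneg (m.tl (m.hess a)) x
  have h1 := hκ a x
  rw [map_mul, map_add, map_add] at e
  rw [map_sub, map_smul, map_mul, ← Met.lap, smul_eq_mul] at e2
  simp only [ev_apply, hf_val] at e e2
  rw [hr.gam, hr.lap, hr.lap, hr.gam]
  nlinarith

end Base

end Pool.Agent.MP_9bd639_gt.H88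

end

-- part L0
section

/-! The frame and the abstract manifold of a closed Riemannian three-manifold. -/

open MeasureTheory Pool.Agent.MP_3fc7f4_gt Pool.Agent.MP_9bd639_gt.H87

namespace Pool.Agent.MP_9bd639_gt.H88

section L0

set_option backward.isDefEq.respectTransparency false

open Filter Topology Set Matrix PointedRiem

variable {N : PointedRiem 3} [CompactSpace N.M] {n : ℕ}

namespace Im

variable (e : Im N (Fin n))

/-- The abstract manifold. -/
@[reducible] noncomputable def base : Base where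
  M := N.M
  nonempty := ⟨N.pt⟩
  μ := e.md.vol
  fin := (inferInstance : IsFiniteMeasure e.md.R.vol)
  pos := (inferInstance : e.md.R.vol.IsOpenPosMeasure)
  A := SmA N
  N := n
  F := e.fr
  cont a := ContMDiff.continuous a.2
  comp a _ h := fun x => (h x).contMDiffAt.comp x (a.2 x)
  X_comp := e.X_comp
  rank := e.rank
  ibp := e.ibp
  sob := e.sob
  maxpt := e.maxpt
  const := e.const
  lim := e.lim

/-- The value of a matrix of functions at a point. -/
noncomputable def val (T : e.base.Mat) (z : N.M) : Matrix (Fin n) (Fin n) ℝ := T.map (e.base.ev z)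

theorem val_mul (T U : e.base.Mat) (z : N.M) : e.val (T * U) z = e.val T z * e.val U z :=
  Matrix.map_mul

theorem val_π (z : N.M) : e.val e.base.F.π z = e.W z (N.ch z z) * (jac e.f z (N.ch z z))ᵀ := by
  ext i j
  exact e.X0_f i j (mem_chart_source _ z)

theorem val_π' (z : N.M) : e.val e.base.F.π z = jac e.f z (N.ch z z) * (e.W z (N.ch z z))ᵀ := by
  rw [val_π, ← e.WD_symm (mem_target z), transpose_mul, transpose_transpose]

/-- The coefficients of the metric `m` in the chart at `z`. -/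
noncomputable def cf (m : e.base.Me) (z : N.M) : Matrix (Fin 3) (Fin 3) ℝ :=
  (jac e.f z (N.ch z z))ᵀ * e.val m.G z * jac e.f z (N.ch z z)

theorem cf_mul (m : e.base.Me) (z : N.M) :
    e.cf m z * ((e.W z (N.ch z z))ᵀ * e.val m.γ z * e.W z (N.ch z z)) = 1 := by
  have h : e.val m.G z * (e.val e.base.F.π z * e.val m.γ z) = e.val e.base.F.π z := by
    rw [← val_mul, ← val_mul, m.πγ, m.Gγ]
  nth_rewrite 1 [val_π'] at h
  have h2 := congrArg (fun T => (jac e.f z (N.ch z z))ᵀ * T * e.W z (N.ch z z)) h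
  rw [val_π, ← Matrix.mul_assoc _ (e.W z _), e.DW (mem_target z), Matrix.one_mul,
    e.DW (mem_target z)] at h2
  rw [← h2, cf]
  simp only [Matrix.mul_assoc]

theorem gam_val (m : e.base.Me) (a b : e.base.A) (z : N.M) : (m.gam a b).1 z =
    ∑ i, ∑ j, (e.cf m z)⁻¹ i j * pd i (N.loc z a.1) (N.ch z z) * pd j (N.loc z b.1) (N.ch z z) := by
  have h1 : ∀ c : e.base.A, (fun i => e.base.ev z (e.base.F.d0 c i)) =
      e.W z (N.ch z z) *ᵥ pv z c.1 (N.ch z z) := fun c =>
    funext fun i => e.X0_chart i c.2 (mem_chart_source _ z)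
  have h2 : (m.gam a b).1 z = (fun i => e.base.ev z (e.base.F.d0 a i)) ⬝ᵥ
      (e.val m.γ z *ᵥ fun i => e.base.ev z (e.base.F.d0 b i)) := by
    rw [← e.base.ev_apply, Met.gam, Met.ip1]
    simp only [dotProduct, mulVec, map_sum, map_mul]
    rfl
  rw [h2, h1, h1, inv_eq_right_inv (e.cf_mul m z), ← vecMul_transpose, ← dotProduct_mulVec,
    mulVec_mulVec, mulVec_mulVec]
  simp only [dotProduct, mulVec, pv, Finset.mul_sum]
  exact Finset.sum_congr rfl fun i _ => Finset.sum_congr rfl fun j _ => by ring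

theorem det_val (m : e.base.Me) (z : N.M) :
    m.ext.det.1 z = (e.cf m z).det / (e.md.cm z (N.ch z z)).det := by
  have hu := (e.met z).coord_unit (mem_target z)
  have h0 : (e.W z (N.ch z z))ᵀ * e.W z (N.ch z z) = (e.md.cm z (N.ch z z))⁻¹ := by
    nth_rewrite 2 [W]
    rw [← Matrix.mul_assoc, e.WD (mem_target z), Matrix.one_mul]
  have h1 : e.val m.G z = e.W z (N.ch z z) * e.cf m z * (e.W z (N.ch z z))ᵀ := by
    have h : e.val e.base.F.π z * e.val m.G z * e.val e.base.F.π z = e.val m.G z := by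
      rw [← val_mul, ← val_mul, m.πG, m.Gπ]
    nth_rewrite 1 [val_π] at h
    rw [val_π'] at h
    rw [← h, cf]
    simp only [Matrix.mul_assoc]
  have h2 : e.val e.base.F.π z =
      e.W z (N.ch z z) * e.md.cm z (N.ch z z) * (e.W z (N.ch z z))ᵀ := by
    rw [cm_eq, ← Matrix.mul_assoc, ← val_π, Matrix.mul_assoc, ← val_π', ← val_mul,
      e.base.F.π_idem]
  have h3 : e.val m.ext z = 1 + e.W z (N.ch z z) *
      ((e.cf m z - e.md.cm z (N.ch z z)) * (e.W z (N.ch z z))ᵀ) := by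
    have : e.val m.ext z = e.val m.G z + 1 - e.val e.base.F.π z := by
      simp only [val, Met.ext, ← AlgHom.mapMatrix_apply, map_sub, map_add, map_one]
    rw [this, h1, h2, Matrix.sub_mul, Matrix.mul_sub]
    simp only [Matrix.mul_assoc]
    abel
  have h4 : m.ext.det.1 z = (e.val m.ext z).det := (e.base.ev z).map_det m.ext
  rw [h4, h3, det_one_add_mul_comm, Matrix.mul_assoc, h0, Matrix.sub_mul, mul_nonsing_inv _ hu,
    add_sub_cancel, det_mul, det_nonsing_inv, Ring.inverse_eq_inv', div_eq_mul_inv]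

theorem vol_eq (m : e.base.Me) : Base.vol m = N.vol.withDensity fun z =>
    ENNReal.ofReal √((e.cf m z).det / (coef z (N.ch z z)).det) := by
  have h1 : Measurable fun z => ENNReal.ofReal (e.md.ρ z) :=
    e.md.sm_ρ.continuous.measurable.ennreal_ofReal
  have h2 : Measurable fun z => ENNReal.ofReal (Base.rho m z) :=
    (Base.cont_rho m).measurable.ennreal_ofReal
  refine (withDensity_mul N.vol h1 h2).symm.trans ?_
  congr 1
  funext z
  have h3 := (e.md.cm_self z).det_pos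
  have h4 := ((PointedRiem.met z).pos _ (mem_target z)).det_pos
  rw [Pi.mul_apply, ← ENNReal.ofReal_mul (e.md.ρ_pos z).le, MD.ρ, Base.rho, det_val,
    ← Real.sqrt_mul (div_pos h3 h4).le]
  congr 2
  field_simp

theorem qf_π (z : N.M) (v : Fin 3 → ℝ) (hv : v ≠ 0) :
    0 < Base.qf e.base.F.π z (jac e.f z (N.ch z z) *ᵥ v) := by
  have h := (e.md.cm_self z).dotProduct_mulVec_pos hv
  change 0 < _ ⬝ᵥ (e.val e.base.F.π z *ᵥ _)
  rw [val_π', mulVec_mulVec, Matrix.mul_assoc, e.WD (mem_target z), Matrix.mul_one,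
    ← vecMul_transpose _ v, ← dotProduct_mulVec, vecMul_transpose, mulVec_mulVec, ← cm_eq]
  exact h

/-- The data of a positive metric. -/
noncomputable def dat {m : e.base.Me} (h : Base.Pos m) : MD N (Fin n) where
  f := e.f
  G := e.val m.G
  sm_f := e.sm
  sm_G i j := (m.G i j).2
  pos z := by
    obtain ⟨c, hc, h⟩ := h
    refine PosDef.of_dotProduct_mulVec_pos ?_ fun v hv => ?_
    · have : (e.val m.G z)ᵀ = e.val m.G z := by rw [val, ← transpose_map, m.G_symm]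
      rw [IsHermitian, conjTranspose_eq_transpose_of_trivial, transpose_mul, transpose_mul,
        transpose_transpose, this, Matrix.mul_assoc]
    · refine ((mul_pos hc (e.qf_π z v hv)).trans_le (h z _).1).trans_eq ?_
      change _ ⬝ᵥ (e.val m.G z *ᵥ _) = _
      rw [← vecMul_transpose _ v, ← dotProduct_mulVec, vecMul_transpose, mulVec_mulVec,
        mulVec_mulVec, star_trivial]

theorem dat_cm {m : e.base.Me} (h : Base.Pos m) (z : N.M) :
    (e.dat h).cm z (N.ch z z) = e.cf m z := by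
  rw [MD.cm, ch_symm_self]
  rfl

theorem dat_vol {m : e.base.Me} (h : Base.Pos m) : Base.vol m = (e.dat h).R.vol := by
  rw [vol_eq]
  simp only [← e.dat_cm h]
  rfl

theorem dat_rep {m : e.base.Me} (h : Base.Pos m) :
    Base.Rep m (e.dat h).R.Sm (e.dat h).R.Γ (e.dat h).R.Δ :=
  Base.Rep.of_ibp h (fun _ => Iff.rfl)
    (fun a b => funext fun z => by
      rw [gam_val, ← e.dat_cm h]
      exact (e.dat h).Γ_eq a.2 b.2 (mem_chart_source _ z))
    (fun _ ha => sm_Δ (N := (e.dat h).R) ha) fun a b ha hb => by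
      rw [e.dat_vol h]
      exact PointedRiem.ibp (N := (e.dat h).R) ha (HasCompactSupport.of_compactSpace _) hb

theorem dat_sigma {m : e.base.Me} (h : Base.Pos m) :
    sigma1 (e.dat h).R = m.s1.1 ∧ sigma2 (e.dat h).R = m.s2.1 := by
  have key := fun z => (model_self (N := (e.dat h).R) z).elim fun M hM =>
    And.intro (hM.1.symm.trans ((e.dat_rep h).inv h M).1)
      (hM.2.1.symm.trans ((e.dat_rep h).inv h M).2)
  refine ⟨funext fun z => ?_, funext fun z => ?_⟩
  · rw [sigma1, (key z).1]; ring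
  · rw [sigma2, (key z).1, (key z).2]; ring

theorem good : e.base.Good := by
  obtain ⟨C, hC, hu⟩ := universal
  refine ⟨fun m h C hC a => ?_, fun m h C hC => ?_, ⟨C, hC, fun m h h1 => ?_⟩,
    fun m h κ hκ hR => ?_⟩
  · obtain ⟨v, hv, hv'⟩ := riem_res (e.dat h).R hC a.2
    refine ⟨⟨v, hv⟩, Subtype.ext (funext fun x => ?_)⟩
    rw [← hv' x, (e.dat_rep h).lap ⟨v, hv⟩]
    exact congrArg (fun t => C * v x - t * _) (Base.ofNat_val (B := e.base) 2 x)
  · obtain ⟨α, hα, hα'⟩ := riem_harn (e.dat h).R (C := C)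
    refine ⟨α, hα, fun u u0 hu x => ?_⟩
    rw [Base.I, e.dat_vol h]
    refine hα' u.1 u.2 u0 (fun y => (hu y).trans_eq ?_) x
    rw [(e.dat_rep h).lap]
    exact congrArg (fun t => C * u.1 y - t * _) (Base.ofNat_val (B := e.base) 2 y)
  · obtain ⟨e1, e2⟩ := e.dat_sigma h
    have h0 : ∀ x, 0 ≤ scal (e.dat h).R x := fun x => by
      have := h1 x
      rw [← e1, sigma1] at this
      linarith
    refine ⟨?_, fun hB φ => ?_⟩
    · have := (hu (e.dat h).R inferInstance h0).2.2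
      rw [e1, e2, ← e.dat_vol h] at this
      exact this
    · have := riem_sob4 (e.dat h).R h0 (by rw [e2, ← e.dat_vol h]; exact hB) φ.2
      rw [e1, e2, (e.dat_rep h).gam, ← e.dat_vol h] at this
      refine this.trans_eq (integral_congr_ae (Eventually.of_forall fun x => ?_))
      exact congrArg (fun t => t * _ + _) (Base.ofNat_val (B := e.base) 2 x).symm
  · rw [e.dat_vol h]
    exact bishop_cd (e.dat h).R hκ ((e.dat_rep h).cd h hR)

theorem exists_met : ∃ m : e.base.Me, Base.Pos m ∧ ∀ z, e.cf m z = coef z (N.ch z z) := by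
  let T : e.base.Mat := of fun i j => ⟨N.Γ (e.f i) (e.f j), sm_Γ (e.sm i) (e.sm j)⟩
  have hT : ∀ z, e.val T z =
      jac e.f z (N.ch z z) * (coef z (N.ch z z))⁻¹ * (jac e.f z (N.ch z z))ᵀ := fun z => by
    ext i j
    change gam _ _ _ _ = _
    simp only [gam, mul_apply, jac, of_apply, transpose_apply, Finset.sum_mul]
    rw [Finset.sum_comm]
    exact Finset.sum_congr rfl fun _ _ => Finset.sum_congr rfl fun _ _ => by ring
  have ext : ∀ U V : e.base.Mat, (∀ z, e.val U z = e.val V z) → U = V := fun U V h => by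
    ext i j z
    exact congrFun (congrFun (h z) i) j
  have hp := fun z : N.M => ((PointedRiem.met z).pos _ (mem_target z)).inv
  obtain ⟨m', hm', c, hc, hE⟩ := Base.exists_met (B := e.base) (G := T) ⟨ext _ _ fun z => by
      ext i j
      exact (PointedRiem.met z).gam_symm (mem_target z), ext _ _ fun z => by
      rw [val_mul, hT, val_π', Matrix.mul_assoc, ← Matrix.mul_assoc (e.W z _)ᵀ,
        ← Matrix.mul_assoc (e.W z _)ᵀ, e.WD (mem_target z), Matrix.one_mul, Matrix.mul_assoc]⟩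
    fun z ξ hξ => by
      change 0 < ξ ⬝ᵥ (e.val e.base.F.π z *ᵥ ξ) at hξ
      change 0 < ξ ⬝ᵥ (e.val T z *ᵥ ξ)
      have h0 : (jac e.f z (N.ch z z))ᵀ *ᵥ ξ ≠ 0 := fun h => by
        rw [val_π, ← mulVec_mulVec, h, mulVec_zero, dotProduct_zero] at hξ
        exact lt_irrefl _ hξ
      have h1 := (hp z).dotProduct_mulVec_pos h0
      rwa [hT, ← mulVec_mulVec, ← mulVec_mulVec, dotProduct_mulVec, ← mulVec_transpose]
  refine ⟨⟨m'.γ, m'.G, m'.γ_symm, m'.G_symm, m'.Gγ, m'.πγ, m'.πG⟩, ⟨c, hc, hE.inv hc⟩,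
    fun z => ?_⟩
  have h := e.cf_mul ⟨m'.γ, m'.G, m'.γ_symm, m'.G_symm, m'.Gγ, m'.πγ, m'.πG⟩ z
  dsimp only at h
  rw [congrArg (e.val · z) hm', hT, ← Matrix.mul_assoc (e.W z _)ᵀ,
    ← Matrix.mul_assoc (e.W z _)ᵀ, e.WD (mem_target z),
    Matrix.one_mul, Matrix.mul_assoc _ _ (e.W z _), e.DW (mem_target z), Matrix.mul_one] at h
  rw [← inv_eq_left_inv h,
    nonsing_inv_nonsing_inv _ ((PointedRiem.met z).coord_unit (mem_target z))]

end Im

end L0

/-- Block L0 (helper74). -/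
theorem exists_base (N : PointedRiem 3) [CompactSpace N.M] (h : ∀ x, 0 < scal N x) :
    ∃ (B : Base) (m : B.Me), B.Good ∧ Base.Pos m ∧ Base.Gt0 m.s1 ∧
      Base.I m m.s1 = ∫ x, sigma1 N x ∂N.vol ∧ Base.I m m.s2 = ∫ x, sigma2 N x ∂N.vol := by
  obtain ⟨n, ⟨e⟩⟩ := exists_im N
  obtain ⟨m, hm, hc⟩ := e.exists_met
  have hv : Base.vol m = N.vol := by
    rw [e.vol_eq]
    simp only [hc, fun z : N.M => div_self
      ((PointedRiem.met z).pos _ (PointedRiem.mem_target z)).det_pos.ne', Real.sqrt_one,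
      ENNReal.ofReal_one]
    exact withDensity_one
  have hr : Base.Rep m N.Sm N.Γ N.Δ := Base.Rep.of_ibp hm (fun _ => Iff.rfl)
    (fun a b => funext fun z => by rw [e.gam_val, hc]; rfl) (fun _ ha => PointedRiem.sm_Δ ha)
    fun a b ha hb => by
      rw [hv]
      exact PointedRiem.ibp ha (HasCompactSupport.of_compactSpace _) hb
  have key : ∀ z, scal N z = 4 * m.s1.1 z ∧ ricSq N z = 6 * m.s1.1 z ^ 2 - 2 * m.s2.1 z :=
    fun z => by
      obtain ⟨M, a1, a2, -⟩ := model_self (N := N) z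
      exact ⟨a1.symm.trans (hr.inv hm M).1, a2.symm.trans (hr.inv hm M).2⟩
  have e1 : sigma1 N = m.s1.1 := funext fun z => by rw [sigma1, (key z).1]; ring
  have e2 : sigma2 N = m.s2.1 := funext fun z => by rw [sigma2, (key z).1, (key z).2]; ring
  refine ⟨e.base, m, e.good, hm, fun z => ?_, ?_, ?_⟩
  · linarith [h z, (key z).1]
  · rw [Base.I, hv, e1]
  · rw [Base.I, hv, e2]

end Pool.Agent.MP_9bd639_gt.H88

end
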