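import Pool.Agent.MP_9bd639_gt.G.Real

-- part Sc
section

/-!
The scalar shadow of a Ricci flow on the time interval `[0, T]`.  `A` is an algebra of functions
of space and time, `P = ∂ₜ - Δ`, `Γ` is the gradient form, `I t` the integral for the volume at
time `t`, `τ` the time function and `G = |∇ S| ^ 2`.
-/

open Set

namespace Pool.Agent.MP_9bd639_gt.H88

structure SF (M A : Type) [CommRing A] [Algebra ℝ A] (T : ℝ) where
  ev : ℝ → M → A →ₐ[ℝ] ℝ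
  I : ℝ → A →ₗ[ℝ] ℝ
  P : A →ₗ[ℝ] A
  Γ : A → A → A
  τ : A
  s1 : A
  s2 : A
  s3 : A
  G : A
  Γ_comm : ∀ a b, Γ a b = Γ b a
  Γ_add : ∀ a b c, Γ (a + b) c = Γ a c + Γ b c
  Γ_smul : ∀ (r : ℝ) a c, Γ (r • a) c = r • Γ a c
  Γ_mul : ∀ a b c, Γ (a * b) c = a * Γ b c + b * Γ a c
  Γ_τ : ∀ a, Γ τ a = 0
  P_mul : ∀ a b, P (a * b) = a * P b + b * P a - 2 * Γ a b
  P_τ : P τ = 1
  P_s1 : P s1 = 3 * s1 ^ 2 - s2
  P_s2 : P s2 = G - Γ s1 s1 + 2 * s1 ^ 3 - 2 * s1 * s2 + 12 * s3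
  ev_τ : ∀ t ∈ Icc 0 T, ∀ x, ev t x τ = t
  Γ_nonneg : ∀ a, ∀ t ∈ Icc 0 T, ∀ x, 0 ≤ ev t x (Γ a a)
  G_nonneg : ∀ t ∈ Icc 0 T, ∀ x, 0 ≤ ev t x G
  H_nonneg : ∀ t ∈ Icc 0 T, ∀ x,
    0 ≤ ev t x (s1 ^ 2 * (G - Γ s1 s1) + 2 * (s1 * Γ s2 s1 - s2 * Γ s1 s1))
  inv3 : ∀ t ∈ Icc 0 T, ∀ x, Inv3 (ev t x s1) (ev t x s2) (ev t x s3)
  inv : ∀ a, (∀ t ∈ Icc 0 T, ∀ x, 0 < ev t x a) → ∃ b, a * b = 1
  sqrt : ∀ a, (∀ t ∈ Icc 0 T, ∀ x, 0 < ev t x a) →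
    ∃ b, b * b = a ∧ ∀ t ∈ Icc 0 T, ∀ x, 0 < ev t x b
  bdd : ∀ a, ∃ C, ∀ t ∈ Icc 0 T, ∀ x, |ev t x a| ≤ C
  I_nonneg : ∀ a, ∀ t ∈ Icc 0 T, (∀ x, 0 ≤ ev t x a) → 0 ≤ I t a
  I_cont : ∀ a, ContinuousOn (fun t => I t a) (Icc 0 T)
  I_der : ∀ a, ∀ t ∈ Ioo 0 T, HasDerivAt (fun t => I t a) (I t (P a - 4 * s1 * a)) t
  sup : ∀ a, ∀ t ∈ Icc 0 T, ∀ C, 0 ≤ C → (∀ k : ℕ, I t (a ^ 2 ^ k) ≤ C ^ 2 ^ k) →
    ∀ x, ev t x a ≤ C
  mp : ∀ a L, ∀ t₁ ∈ Icc 0 T, (∀ x, 0 ≤ ev 0 x a) →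
    (∀ t ∈ Icc 0 t₁, ∀ x, ev t x a < 0 → L * ev t x a ≤ ev t x (P a)) →
    ∀ t ∈ Icc 0 t₁, ∀ x, 0 ≤ ev t x a
  cot : ∀ t ∈ Icc 0 T, 0 ≤ I t (G - Γ s1 s1 + (2 * s1 ^ 3 - 7 * s1 * s2 + 9 * s3))
  sob : ∀ t ∈ Icc 0 T, (∀ x, 0 < ev t x s1) → 0 < I t s2 → ∀ a,
    √(I t s2) / 6 * √(I t (a ^ 4)) ≤ I t (2 * Γ a a + s1 * a ^ 2)
  bishop : ∀ t ∈ Icc 0 T, ∀ k, 0 < k → (∀ x, 2 * k ≤ 4 / 3 * ev t x s1 ∧
    2 / 3 * ev t x s1 ^ 2 - 2 * ev t x s2 ≤ (4 / 3 * ev t x s1 - 2 * k) ^ 2) →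
    I t 1 ^ 2 * k ^ 3 ≤ 4 * Real.pi ^ 4

namespace SF

variable {M A : Type} [CommRing A] [Algebra ℝ A] {T : ℝ} (F : SF M A T)

/-- The Sobolev inequality at time `t`. -/
def Sob (t K : ℝ) : Prop := ∀ a, K * √(F.I t (a ^ 4)) ≤ F.I t (2 * F.Γ a a + F.s1 * a ^ 2)

/-- `|S| ^ 2 + 1`. -/
def f : A := F.s1 ^ 2 - 2 * F.s2 + 1

theorem I_le {a b : A} {t : ℝ} (ht : t ∈ Icc 0 T) (h : ∀ x, F.ev t x a ≤ F.ev t x b) :
    F.I t a ≤ F.I t b := by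
  have := F.I_nonneg (b - a) t ht fun x => by rw [map_sub]; exact sub_nonneg.2 (h x)
  rwa [map_sub, sub_nonneg] at this

theorem I_sub_le {a b c : A} {t r s : ℝ} (ht : t ∈ Icc 0 T)
    (h : ∀ x, F.ev t x a ≤ r * F.ev t x b + s * F.ev t x c) :
    F.I t a ≤ r * F.I t b + s * F.I t c := by
  simpa using F.I_le (b := r • b + s • c) ht fun x => by simpa using h x

theorem I_le_mul {a b : A} {t r : ℝ} (ht : t ∈ Icc 0 T)
    (h : ∀ x, F.ev t x a ≤ r * F.ev t x b) : F.I t a ≤ r * F.I t b := by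
  simpa using F.I_le (b := r • b) ht fun x => by simpa using h x

theorem Γ_one (a : A) : F.Γ 1 a = 0 := by
  have := F.Γ_mul 1 1 a
  rw [mul_one, one_mul] at this
  linear_combination -this

theorem Γ_const (r : ℝ) (a : A) : F.Γ (algebraMap ℝ A r) a = 0 := by
  rw [Algebra.algebraMap_eq_smul_one, F.Γ_smul, F.Γ_one, smul_zero]

theorem Γ_sub (a b c : A) : F.Γ (a - b) c = F.Γ a c - F.Γ b c := by
  have := F.Γ_add (a - b) b c
  rw [sub_add_cancel] at this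
  linear_combination -this

theorem P_one : F.P 1 = 0 := by
  have := F.P_mul 1 1
  rw [mul_one, one_mul, F.Γ_one] at this
  linear_combination -this

theorem P_const (r : ℝ) : F.P (algebraMap ℝ A r) = 0 := by
  rw [Algebra.algebraMap_eq_smul_one, map_smul, F.P_one, smul_zero]

theorem P_two_mul (a : A) : F.P (2 * a) = 2 * F.P a := by rw [two_mul, map_add, two_mul]

theorem Γ_inv {a b : A} (h : a * b = 1) (c : A) : F.Γ b c = -(b ^ 2 * F.Γ a c) := by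
  have := F.Γ_mul a b c
  rw [h, F.Γ_one] at this
  linear_combination (-b) * this - F.Γ b c * h

theorem P_inv {a b : A} (h : a * b = 1) :
    F.P b = -(b ^ 2 * F.P a) - 2 * b ^ 3 * F.Γ a a := by
  have := F.P_mul a b
  rw [h, F.P_one, F.Γ_comm a b, F.Γ_inv h] at this
  linear_combination (-b) * this - F.P b * h

theorem ev_inv {a b : A} (h : a * b = 1) (t : ℝ) (x : M) : F.ev t x b = (F.ev t x a)⁻¹ :=
  eq_inv_of_mul_eq_one_right (by rw [← map_mul, h, map_one])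

theorem P_τ_mul (a : A) : F.P (F.τ * a) = F.τ * F.P a + a := by
  rw [F.P_mul, F.P_τ, F.Γ_τ]
  ring

theorem Γ_pow (a c : A) (n : ℕ) : F.Γ (a ^ (n + 1)) c = (n + 1) * a ^ n * F.Γ a c := by
  induction n with
  | zero => simp
  | succ n ih => rw [pow_succ, F.Γ_mul, ih]; push_cast; ring

theorem P_pow (a : A) (n : ℕ) : F.P (a ^ (n + 2)) =
    (n + 2) * a ^ (n + 1) * F.P a - (n + 2) * (n + 1) * a ^ n * F.Γ a a := by
  induction n with
  | zero => rw [zero_add, sq, F.P_mul]; push_cast; ring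
  | succ n ih =>
    rw [show n + 1 + 2 = n + 2 + 1 from rfl, pow_succ, F.P_mul, ih, F.Γ_pow a a (n + 1)]
    push_cast
    ring

/-- The evolution of `q = s2 / s1`. -/
theorem P_q {i : A} (h : F.s1 * i = 1) {t : ℝ} (ht : t ∈ Icc 0 T) (x : M)
    (h1 : 0 < F.ev t x F.s1) :
    QQ (F.ev t x F.s1) (F.ev t x F.s2) (F.ev t x F.s3) ≤ F.ev t x (F.P (F.s2 * i)) := by
  have h2 := mul_nonneg (pow_nonneg (inv_pos.2 h1).le 3) (F.H_nonneg t ht x)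
  rw [F.P_mul, F.P_inv h, F.Γ_comm F.s2 i, F.Γ_inv h, F.P_s1, F.P_s2, F.Γ_comm F.s1 F.s2]
  simp only [map_add, map_sub, map_mul, map_neg, map_pow, map_ofNat, F.ev_inv h] at h2 ⊢
  refine sub_nonneg.1 (h2.trans_eq ?_)
  rw [QQ]
  field_simp
  ring

theorem P_f : F.P F.f = 2 * F.s1 ^ 3 + 2 * F.s1 * F.s2 - 24 * F.s3 - 2 * F.G := by
  rw [f, map_add, map_sub, F.P_one, F.P_two_mul, sq, F.P_mul, F.P_s1, F.P_s2]
  ring

theorem one_le_f {t : ℝ} (ht : t ∈ Icc 0 T) (x : M) : 1 ≤ F.ev t x F.f := by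
  have := (F.inv3 t ht x).three_le
  simp only [f, map_add, map_sub, map_mul, map_pow, map_ofNat, map_one]
  nlinarith [sq_nonneg (F.ev t x F.s1)]

theorem s1_ge {m : ℝ} (h : ∀ x, m ≤ F.ev 0 x F.s1) {t : ℝ} (ht : t ∈ Icc 0 T) (x : M) :
    m ≤ F.ev t x F.s1 := by
  have hT : T ∈ Icc 0 T := ⟨ht.1.trans ht.2, le_rfl⟩
  have := F.mp (F.s1 - algebraMap ℝ A m) 0 T hT (fun x => by simpa using h x)
    (fun t ht x _ => by
      have := (F.inv3 t ht x).three_le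
      rw [map_sub F.P, F.P_const, F.P_s1]
      simp only [map_sub, map_mul, map_pow, map_ofNat, map_zero]
      nlinarith [sq_nonneg (F.ev t x F.s1)]) t ht x
  simpa using this

theorem Sob.mono {t K K' : ℝ} (h : F.Sob t K) (hK : K' ≤ K) : F.Sob t K' := fun a =>
  (mul_le_mul_of_nonneg_right hK (Real.sqrt_nonneg _)).trans (h a)

theorem sob_of {t b : ℝ} (ht : t ∈ Icc 0 T) (h1 : ∀ x, 0 < F.ev t x F.s1) (hb : 0 < b)
    (h : b ≤ F.I t F.s2) : F.Sob t (√b / 6) :=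
  Sob.mono F (F.sob t ht h1 (hb.trans_le h)) (by gcongr)

theorem der_A {t : ℝ} (ht : t ∈ Ioo 0 T) :
    HasDerivAt (fun t => F.I t F.s1) (-(F.I t (F.s1 ^ 2) + F.I t F.s2)) t := by
  convert F.I_der F.s1 t ht using 1
  rw [← map_add, ← map_neg, F.P_s1]
  congr 1
  ring

end SF

end Pool.Agent.MP_9bd639_gt.H88

end

-- part ScEn
section

/-! Comparison lemmas on an interval, the energy inequalities and the Nash iteration. -/

open Set Filter Topology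

namespace Pool.Agent.MP_9bd639_gt.H88

theorem sc_anti {f : ℝ → ℝ} {a b : ℝ} (hab : a ≤ b) (hc : ContinuousOn f (Icc a b))
    (h : ∀ t ∈ Ioo a b, ∃ d ≤ 0, HasDerivAt f d t) : f b ≤ f a := by
  choose! d hd hd' using h
  refine antitoneOn_of_hasDerivWithinAt_nonpos (convex_Icc a b) hc (f' := d) (fun x hx => ?_)
    (fun x hx => ?_) (left_mem_Icc.2 hab) (right_mem_Icc.2 hab) hab
  · rw [interior_Icc] at hx ⊢
    exact (hd' x hx).hasDerivWithinAt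
  · rw [interior_Icc] at hx
    exact hd x hx

theorem sc_lin {f : ℝ → ℝ} {a b C : ℝ} (hab : a ≤ b) (hc : ContinuousOn f (Icc a b))
    (h : ∀ t ∈ Ioo a b, ∃ d ≤ C, HasDerivAt f d t) : f b ≤ f a + C * (b - a) := by
  have := sc_anti (f := fun t => f t - C * t) hab (hc.sub (by fun_prop)) fun t ht => by
    obtain ⟨d, hd, hd'⟩ := h t ht
    exact ⟨d - C * 1, by linarith, hd'.sub ((hasDerivAt_id t).const_mul C)⟩
  linarith

theorem sc_gron {u Φ : ℝ → ℝ} {a b : ℝ} (hab : a ≤ b) (hu : ContinuousOn u (Icc a b))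
    (hΦ : ContinuousOn Φ (Icc a b))
    (h : ∀ t ∈ Ioo a b, ∃ d e, HasDerivAt u d t ∧ HasDerivAt Φ e t ∧ d ≤ e * u t) :
    u b ≤ Real.exp (Φ b - Φ a) * u a := by
  have := sc_anti (f := fun t => Real.exp (-Φ t) * u t) hab (hΦ.neg.rexp.mul hu) fun t ht => by
    obtain ⟨d, e, hd, he, hh⟩ := h t ht
    refine ⟨_, ?_, he.neg.exp.mul hd⟩
    have := mul_le_mul_of_nonneg_left hh (Real.exp_pos (-Φ t)).le
    simp only [Pi.neg_apply]
    linarith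
  have h2 := mul_le_mul_of_nonneg_left this (Real.exp_pos (Φ b)).le
  rwa [← mul_assoc, ← mul_assoc, ← Real.exp_add, ← Real.exp_add, add_neg_cancel, Real.exp_zero,
    one_mul, ← sub_eq_add_neg] at h2

theorem sc_barrier {f : ℝ → ℝ} {a b C : ℝ} (hc : ContinuousOn f (Icc a b)) (ha : f a < C)
    (h : ∀ t ∈ Ioo a b, (∀ s ∈ Icc a t, f s ≤ C) → f t = C → ∃ d < 0, HasDerivAt f d t) :
    ∀ t ∈ Icc a b, f t ≤ C := by
  refine IsClosed.Icc_subset_of_forall_mem_nhdsGT_of_Icc_subset (s := {t | f t ≤ C}) ?_ ha.le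
    fun t ht hs => ?_
  · rw [inter_comm]
    exact hc.preimage_isClosed_of_isClosed isClosed_Icc isClosed_Iic
  · have h0 : f t ≤ C := hs (right_mem_Icc.2 ht.1)
    rcases h0.eq_or_lt with e | e
    · have hat : a < t := ht.1.lt_of_ne fun e' => ha.ne (e' ▸ e)
      obtain ⟨d, hd, hd'⟩ := h t ⟨hat, ht.2⟩ hs e
      filter_upwards [hd'.hasDerivWithinAt.limsup_slope_le' (s := Ioi t) (lt_irrefl t) hd,
        self_mem_nhdsWithin] with z hz hz'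
      rw [slope_def_field, div_lt_iff₀ (sub_pos.2 hz'), zero_mul, e] at hz
      exact (sub_neg.1 hz).le
    · have := (hc t (Ico_subset_Icc_self ht)).eventually (Iio_mem_nhds e)
      exact mem_of_superset (nhdsWithin_le_of_mem (Icc_mem_nhdsGT_of_mem ht) this)
        fun z (hz : f z < C) => hz.le

theorem sc_young {Z Λ y X a : ℝ} (hΛ : 0 ≤ Λ) (hy : 0 ≤ y) (hX : 0 ≤ X) (ha : 0 < a)
    (h : ∀ s γ : ℝ, 0 < s → 0 < γ → 3 * Z ≤ s ^ 2 * Λ + (γ * y + X ^ 2 / γ) / s) :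
    3 * Z ≤ 2 * a * X + Λ * y / a ^ 2 := by
  refine le_of_forall_pos_le_add fun ε hε => ?_
  obtain ⟨e, he, he'⟩ : ∃ e : ℝ, 0 < e ∧ e * (2 * a + y / a ^ 2) ≤ ε :=
    ⟨ε / (2 * a + y / a ^ 2), by positivity, (div_mul_cancel₀ _ (by positivity)).le⟩
  obtain ⟨s, hs, hs2⟩ : ∃ s : ℝ, 0 < s ∧ s ^ 2 = a * (X + e) / (Λ + e) :=
    ⟨√_, Real.sqrt_pos.2 (by positivity), Real.sq_sqrt (by positivity)⟩
  have h1 := h s ((X + e) / (a * s)) hs (by positivity)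
  have e1 : s ^ 2 * Λ ≤ a * (X + e) := by
    rw [hs2, div_mul_eq_mul_div, div_le_iff₀ (by positivity)]
    gcongr
    linarith
  have e2 : ((X + e) / (a * s) * y + X ^ 2 / ((X + e) / (a * s))) / s =
      (X + e) / (a * s ^ 2) * y + a * (X ^ 2 / (X + e)) := by field_simp
  have e3 : (X + e) / (a * s ^ 2) * y = Λ * y / a ^ 2 + e * (y / a ^ 2) := by
    rw [hs2]
    field_simp
  have e4 : X ^ 2 / (X + e) ≤ X + e := by
    rw [div_le_iff₀ (by positivity)]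
    nlinarith
  rw [e2, e3] at h1
  nlinarith [mul_le_mul_of_nonneg_left e4 ha.le]

namespace SF

variable {M A : Type} [CommRing A] [Algebra ℝ A] {T : ℝ} (F : SF M A T) {t : ℝ}

theorem I_even (ht : t ∈ Icc 0 T) (a : A) {n : ℕ} (hn : Even n) : 0 ≤ F.I t (a ^ n) :=
  F.I_nonneg _ t ht fun x => by rw [map_pow]; exact hn.pow_nonneg _

theorem I_pow (ht : t ∈ Icc 0 T) {a : A} (ha : ∀ x, 0 ≤ F.ev t x a) (n : ℕ) :
    0 ≤ F.I t (a ^ n) :=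
  F.I_nonneg _ t ht fun x => by rw [map_pow]; exact pow_nonneg (ha x) _

theorem absorb (ht : t ∈ Icc 0 T) {W v : A} (hW : ∀ x, 0 ≤ F.ev t x W) (hv : ∀ x, 0 ≤ F.ev t x v)
    {Λ a : ℝ} (hΛ : F.I t (W ^ 3) ≤ Λ) (ha : 0 < a) :
    3 * F.I t (W * v ^ 2) ≤ 2 * a * √(F.I t (v ^ 4)) + Λ * F.I t (v ^ 2) / a ^ 2 := by
  refine sc_young ((F.I_pow ht hW 3).trans hΛ) (F.I_pow ht hv 2) (Real.sqrt_nonneg _) ha
    fun s γ hs hγ => ?_
  rw [Real.sq_sqrt (F.I_pow ht hv 4)]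
  have h1 := F.I_sub_le (a := W * v ^ 2) (b := W ^ 3) (c := v ^ 3) (r := s ^ 2 / 3)
    (s := 2 / (3 * s)) ht fun x => by
      simp only [map_mul, map_pow]
      have := mul_nonneg (sq_nonneg (s * F.ev t x W - F.ev t x v))
        (add_nonneg (mul_nonneg hs.le (hW x)) (mul_nonneg zero_le_two (hv x)))
      refine le_of_mul_le_mul_left ?_ (by positivity : 0 < 3 * s)
      field_simp
      nlinarith
  have h2 := F.I_sub_le (a := v ^ 3) (b := v ^ 2) (c := v ^ 4) (r := γ / 2)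
    (s := 1 / (2 * γ)) ht fun x => by
      simp only [map_pow]
      refine le_of_mul_le_mul_left ?_ (by positivity : 0 < 2 * γ)
      field_simp
      nlinarith [sq_nonneg (γ * F.ev t x v - F.ev t x v ^ 2)]
  have h3 := mul_le_mul_of_nonneg_left h2 (by positivity : 0 ≤ 2 / s)
  have h4 := mul_le_mul_of_nonneg_left hΛ (sq_nonneg s)
  have e1 : 2 / s * (γ / 2 * F.I t (v ^ 2) + 1 / (2 * γ) * F.I t (v ^ 4)) =
    (γ * F.I t (v ^ 2) + F.I t (v ^ 4) / γ) / s := by field_simp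
  have e2 : 2 / (3 * s) * F.I t (v ^ 3) = 2 / s * F.I t (v ^ 3) / 3 := by field_simp
  linarith

theorem en2 (ht : t ∈ Icc 0 T) {W v : A} {K Λ : ℝ} (hK : 0 < K) (hS : F.Sob t K)
    (hΛ : F.I t (W ^ 3) ≤ Λ) (h : ∀ x, 0 ≤ F.ev t x F.s1 ∧ 0 ≤ F.ev t x v ∧ 0 ≤ F.ev t x W ∧
      F.ev t x (F.P v) ≤ F.ev t x W * F.ev t x v) :
    F.I t (F.P (v ^ 2) - 4 * F.s1 * v ^ 2) ≤
      -(K / 2) * √(F.I t (v ^ 4)) + 5 * Λ / K ^ 2 * F.I t (v ^ 2) := by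
  have h1 := F.absorb ht (fun x => (h x).2.2.1) (fun x => (h x).2.1) hΛ
    (by positivity : 0 < 3 * K / 8)
  have h2 := F.I_sub_le (a := F.P (v ^ 2) - 4 * F.s1 * v ^ 2) (b := W * v ^ 2)
    (c := 2 * F.Γ v v + F.s1 * v ^ 2) (r := 2) (s := -1) ht fun x => by
      obtain ⟨a1, a2, a3, a4⟩ := h x
      rw [sq, F.P_mul]
      simp only [map_mul, map_add, map_sub, map_ofNat]
      nlinarith [mul_le_mul_of_nonneg_left a4 a2, mul_nonneg a1 (mul_nonneg a2 a2)]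
  have h3 := mul_nonneg ((F.I_pow ht (fun x => (h x).2.2.1) 3).trans hΛ)
    (F.I_pow ht (fun x => (h x).2.1) 2)
  have e : Λ * F.I t (v ^ 2) / (3 * K / 8) ^ 2 = 64 / 9 * (Λ * F.I t (v ^ 2) / K ^ 2) := by
    field_simp
    ring
  have e' : 5 * Λ / K ^ 2 * F.I t (v ^ 2) = 5 * (Λ * F.I t (v ^ 2) / K ^ 2) := by field_simp
  have h4 : 0 ≤ Λ * F.I t (v ^ 2) / K ^ 2 := by positivity
  linarith [hS v]

theorem en3 (ht : t ∈ Icc 0 T) {w : A} (hw : ∀ t ∈ Icc 0 T, ∀ x, 0 < F.ev t x w) {K C : ℝ}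
    (hK : 0 < K) (hC : 0 < C) (hS : F.Sob t K)
    (h : ∀ x, 0 ≤ F.ev t x F.s1 ∧ F.ev t x (F.P (w * w)) ≤ C * F.ev t x w ^ 3) :
    F.I t (F.P (w ^ 3) - 4 * F.s1 * w ^ 3) ≤
      -(K / 3) * √(F.I t (w ^ 6)) + 9 * C ^ 3 / (2 * K ^ 2) * F.I t (w ^ 3) ^ 2 := by
  obtain ⟨r, hr, hr0⟩ := F.sqrt w hw
  have e2 : (w * r) ^ 2 = w ^ 3 := by rw [mul_pow, sq r, hr]; ring
  have e4 : (w * r) ^ 4 = w ^ 6 := by rw [show 4 = 2 * 2 from rfl, pow_mul, e2]; ring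
  have g1 : ∀ c, 2 * F.Γ (w * r) c = 3 * r * F.Γ w c := fun c => by
    have := F.Γ_mul r r c
    rw [hr] at this
    rw [F.Γ_mul, this]
    linear_combination (-2 * F.Γ r c) * hr
  have g2 : 4 * F.Γ (w * r) (w * r) = 9 * w * F.Γ w w := by
    have := g1 w
    rw [F.Γ_comm] at this
    linear_combination 2 * g1 (w * r) + 3 * r * this + 9 * F.Γ w w * hr
  have h1 := F.absorb ht (v := w * r) (fun x => (hw t ht x).le)
    (fun x => by rw [map_mul]; exact (mul_pos (hw t ht x) (hr0 t ht x)).le) le_rfl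
    (by positivity : 0 < K / (3 * C))
  have h3 := hS (w * r)
  have h2 := F.I_sub_le (a := F.P (w ^ 3) - 4 * F.s1 * w ^ 3) (b := w * w ^ 3)
    (c := 2 * F.Γ (w * r) (w * r) + F.s1 * w ^ 3) (r := 3 * C / 2) (s := -(2 / 3)) ht fun x => by
      obtain ⟨a1, a2⟩ := h x
      have a3 := congrArg (F.ev t x) g2
      have a4 := hw t ht x
      rw [F.P_mul] at a2
      rw [F.P_pow w 1]
      simp only [map_mul, map_add, map_sub, map_ofNat, map_pow, map_one,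
        Nat.cast_one] at a2 a3 ⊢
      nlinarith [mul_le_mul_of_nonneg_left a2 a4.le, mul_nonneg a1 (pow_pos a4 3).le]
  rw [e2, e4] at h1 h3
  have h5 := mul_le_mul_of_nonneg_left h1 (by positivity : 0 ≤ C / 2)
  have e : C / 2 * (2 * (K / (3 * C)) * √(F.I t (w ^ 6)) +
      F.I t (w ^ 3) * F.I t (w ^ 3) / (K / (3 * C)) ^ 2) =
      K / 3 * √(F.I t (w ^ 6)) + 9 * C ^ 3 / (2 * K ^ 2) * F.I t (w ^ 3) ^ 2 := by
    field_simp
    ring
  linarith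

/-- The hypotheses of the parabolic estimates at time `t`. -/
def Sub (t K Λ : ℝ) (u V : A) : Prop := F.Sob t K ∧ F.I t (V ^ 3) ≤ Λ ∧ ∀ x,
  0 ≤ F.ev t x F.s1 ∧ 0 ≤ F.ev t x u ∧ 0 ≤ F.ev t x V ∧ F.ev t x (F.P u) ≤ F.ev t x V * F.ev t x u

theorem Sub.sq {K Λ : ℝ} {u V : A} (h : F.Sub t K Λ u V) (ht : t ∈ Icc 0 T) :
    F.Sub t K (8 * Λ) (u ^ 2) (2 * V) := by
  refine ⟨h.1, ?_, fun x => ?_⟩
  · refine (F.I_le_mul (b := V ^ 3) (r := 8) ht fun x => ?_).trans (by linarith [h.2.1])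
    simp only [map_mul, map_ofNat, map_pow]
    linarith
  · obtain ⟨a1, a2, a3, a4⟩ := h.2.2 x
    rw [_root_.sq, F.P_mul]
    simp only [map_mul, map_add, map_sub, map_ofNat]
    refine ⟨a1, by positivity, by positivity, ?_⟩
    nlinarith [mul_le_mul_of_nonneg_left a4 a2, F.Γ_nonneg u t ht x]

theorem gron2 {K Λ b : ℝ} {u V : A} (hK : 0 < K) (hb : b ∈ Icc 0 T)
    (h : ∀ t ∈ Icc 0 b, F.Sub t K Λ u V) :
    F.I b (u ^ 2) ≤ Real.exp (5 * Λ / K ^ 2 * b) * F.I 0 (u ^ 2) := by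
  have := sc_gron (u := fun t => F.I t (u ^ 2)) (Φ := fun t => 5 * Λ / K ^ 2 * t) hb.1
    ((F.I_cont _).mono (Icc_subset_Icc_right hb.2)) (by fun_prop) fun t ht => by
      have h1 := h t (Ioo_subset_Icc_self ht)
      refine ⟨_, _, F.I_der _ t ⟨ht.1, ht.2.trans_le hb.2⟩, (hasDerivAt_id t).const_mul _, ?_⟩
      have := F.en2 ⟨ht.1.le, ht.2.le.trans hb.2⟩ hK h1.1 h1.2.1 h1.2.2
      nlinarith [Real.sqrt_nonneg (F.I t (u ^ 4))]
  simpa using this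

theorem nash_step {K Λ a b h Y : ℝ} {u V : A} (hK : 0 < K) (hΛ : 0 ≤ Λ) (hY : 0 < Y) (ha : 0 ≤ a)
    (hb : b ≤ T) (hh : b - a ≤ h) (hs : ∀ t ∈ Icc a b, F.Sub t K Λ u V ∧ F.I t u ≤ Y) :
    ∀ t ∈ Icc a b, (t - a) ^ 2 * F.I t (u ^ 2) ≤ 32 * (3 + 5 * Λ / K ^ 2 * h) ^ 2 / K ^ 2 * Y ^ 2 := by
  intro t₀ ht₀
  have h0 : 0 ≤ h := by linarith [ht₀.1, ht₀.2]
  obtain ⟨N, hN⟩ : ∃ N, N = 5 * Λ / K ^ 2 := ⟨_, rfl⟩
  have N0 : 0 ≤ N := by rw [hN]; positivity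
  obtain ⟨E, hE⟩ : ∃ E, E = 2 * (3 + N * h) / K := ⟨_, rfl⟩
  have E0 : 0 < E := by rw [hE]; positivity
  rw [← hN, show 32 * (3 + N * h) ^ 2 / K ^ 2 * Y ^ 2 = 8 * E ^ 2 * Y ^ 2 by
    rw [hE]; field_simp; norm_num]
  refine sc_barrier (f := fun t => (t - a) ^ 2 * F.I t (u ^ 2)) (a := a) (b := b)
    (ContinuousOn.mul (by fun_prop) ((F.I_cont _).mono (Icc_subset_Icc ha hb)))
    (by simp only [sub_self]; norm_num; positivity) (fun t ht _ hc => ?_) t₀ ht₀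
  have ht' : t ∈ Icc 0 T := ⟨ha.trans ht.1.le, ht.2.le.trans hb⟩
  obtain ⟨h1, h2⟩ := hs t (Ioo_subset_Icc_self ht)
  refine ⟨_, ?_, (((hasDerivAt_id t).sub_const a).pow 2).mul
    (F.I_der (u ^ 2) t ⟨ha.trans_lt ht.1, ht.2.trans_le hb⟩)⟩
  have h3 := F.en2 ht' hK h1.1 h1.2.1 h1.2.2
  rw [← hN] at h3
  obtain ⟨θ, hθ⟩ : ∃ θ, θ = t - a := ⟨_, rfl⟩
  have θ0 : 0 < θ := by rw [hθ]; exact sub_pos.2 ht.1
  have θ1 : θ ≤ h := by linarith [ht.2]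
  simp only [id, Pi.pow_apply, ← hθ] at hc ⊢
  obtain ⟨y, hy⟩ : ∃ y, y = F.I t (u ^ 2) := ⟨_, rfl⟩
  rw [← hy] at hc h3 ⊢
  have y0 : 0 < y := (pos_iff_pos_of_mul_pos (a := θ ^ 2) (by rw [hc]; positivity)).1 (by positivity)
  have h4 := F.I_sub_le (a := u ^ 2) (b := u) (c := u ^ 4) (r := y / (2 * Y))
    (s := (2 * Y / y) ^ 2) ht' fun x => by
      have a1 := (h1.2.2 x).2.1
      simp only [map_pow]
      rcases le_total (F.ev t x u) (y / (2 * Y)) with a2 | a2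
      · nlinarith [mul_le_mul_of_nonneg_right a2 a1,
          (by positivity : 0 ≤ (2 * Y / y) ^ 2 * F.ev t x u ^ 4)]
      · have a3 : 1 ≤ 2 * Y / y * F.ev t x u := by
          rw [div_le_iff₀ (by positivity)] at a2
          rw [div_mul_eq_mul_div, le_div_iff₀ y0]
          linarith
        nlinarith [mul_le_mul_of_nonneg_right (one_le_pow₀ a3 (n := 2)) (sq_nonneg (F.ev t x u)),
          (by positivity : 0 ≤ y / (2 * Y) * F.ev t x u)]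
  have h5 : y * E / θ ≤ √(F.I t (u ^ 4)) := by
    refine Real.le_sqrt_of_sq_le ?_
    have a1 := mul_le_mul_of_nonneg_left h2 (by positivity : 0 ≤ y / (2 * Y))
    have a2 : y / (2 * Y) * Y = y / 2 := by field_simp
    have a3 : y / 2 ≤ (2 * Y / y) ^ 2 * F.I t (u ^ 4) := by linarith
    rw [div_pow, div_mul_eq_mul_div, le_div_iff₀ (by positivity)] at a3
    rw [div_pow, div_le_iff₀ (by positivity)]
    refine le_of_mul_le_mul_left ?_ (by positivity : 0 < 4 * Y ^ 2)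
    nlinarith [mul_le_mul_of_nonneg_right a3 (sq_nonneg θ)]
  have h6 := mul_le_mul_of_nonneg_left h5 (by positivity : 0 ≤ K / 2)
  have e : K / 2 * (y * E / θ) = y * (3 + N * h) / θ := by rw [hE]; field_simp
  have h7 : F.I t (F.P (u ^ 2) - 4 * F.s1 * u ^ 2) ≤ -(3 * y / θ) := by
    have : N * y ≤ y * (N * h) / θ := by
      rw [le_div_iff₀ θ0]
      nlinarith [mul_le_mul_of_nonneg_left θ1 (mul_nonneg N0 y0.le)]
    have e' : y * (3 + N * h) / θ = 3 * y / θ + y * (N * h) / θ := by field_simp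
    linarith
  have h8 := mul_le_mul_of_nonneg_left h7 (sq_nonneg θ)
  have e' : θ ^ 2 * -(3 * y / θ) = -(3 * (θ * y)) := by field_simp
  norm_num [-map_sub]
  nlinarith [mul_pos θ0 y0]

end SF

/-- Nash iteration: the supremum of a subsolution is bounded by its mass. -/
theorem nash {K Λ h : ℝ} (hK : 0 < K) (hΛ : 0 ≤ Λ) (hh : 0 < h) : ∃ C > 0,
    ∀ {M A : Type} [CommRing A] [Algebra ℝ A] {T : ℝ} (F : SF M A T) (u V : A) (b Y : ℝ),
      h ≤ b → b ≤ T → 0 < Y → (∀ t ∈ Icc (b - h) b, F.Sub t K Λ u V ∧ F.I t u ≤ Y) →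
      ∀ x, F.ev b x u ≤ C * Y := by
  obtain ⟨R, hR⟩ : ∃ R, R = 4 * (32 * (3 + 5 * Λ / K ^ 2 * h) ^ 2 / K ^ 2) / h ^ 2 + 1 := ⟨_, rfl⟩
  have R1 : 1 ≤ R := by rw [hR]; exact le_add_of_nonneg_left (by positivity)
  refine ⟨256 * R, by positivity, fun F u V b Y hb hT hY hs => ?_⟩
  have sub : ∀ t ∈ Icc (b - h) b, t ∈ Icc 0 _ := fun t ht =>
    ⟨(sub_nonneg.2 hb).trans ht.1, ht.2.trans hT⟩
  have h1 : ∀ k : ℕ, ∀ t ∈ Icc (b - h) b, F.Sub t K (8 ^ k * Λ) (u ^ 2 ^ k) (2 ^ k * V) := by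
    intro k t ht
    induction k with
    | zero => simpa using (hs t ht).1
    | succ k ih =>
      have := SF.Sub.sq F ih (sub t ht)
      rwa [← pow_mul, ← pow_succ, ← mul_assoc, ← mul_assoc, ← pow_succ', ← pow_succ'] at this
  have le : ∀ k : ℕ, b - h ≤ b - h / 2 ^ k := fun k =>
    sub_le_sub_left (div_le_self hh.le (one_le_pow₀ one_le_two)) b
  have h2 : ∀ k : ℕ, ∀ t ∈ Icc (b - h / 2 ^ k) b,
      F.I t (u ^ 2 ^ k) ≤ (256 * R * Y) ^ 2 ^ k / (R * 256 ^ (k + 1)) := by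
    intro k
    induction k with
    | zero =>
      intro t ht
      simp only [pow_zero, div_one, pow_one, zero_add] at ht ⊢
      refine (hs t ht).2.trans (le_of_eq ?_)
      field_simp
    | succ k ih =>
      intro t ht
      have a0 : h / 2 ^ (k + 1) ≤ t - (b - h / 2 ^ k) := by
        have : h / 2 ^ k = 2 * (h / 2 ^ (k + 1)) := by rw [pow_succ]; field_simp
        linarith [ht.1]
      have p0 : 0 < h / 2 ^ (k + 1) := by positivity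
      have a1 := F.nash_step (a := b - h / 2 ^ k) (h := h) hK (by positivity) (by positivity)
        ((sub_nonneg.2 hb).trans (le k)) hT (by linarith [le k])
        (fun s hs' => ⟨h1 k s ⟨(le k).trans hs'.1, hs'.2⟩, ih s hs'⟩) t ⟨by linarith, ht.2⟩
      rw [← pow_mul, ← pow_succ] at a1
      have a2 : 0 ≤ F.I t (u ^ 2 ^ (k + 1)) :=
        F.I_even (sub t ⟨(le _).trans ht.1, ht.2⟩) u (Nat.even_pow.2 ⟨even_two, k.succ_ne_zero⟩)
      have a3 := (mul_le_mul_of_nonneg_right (pow_le_pow_left₀ p0.le a0 2) a2).trans a1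
      have a4 : 32 * (3 + 5 * (8 ^ k * Λ) / K ^ 2 * h) ^ 2 / K ^ 2 ≤ 64 ^ k * (R * h ^ 2 / 4) := by
        have b1 : 3 + 5 * (8 ^ k * Λ) / K ^ 2 * h ≤ 8 ^ k * (3 + 5 * Λ / K ^ 2 * h) := by
          have : (1 : ℝ) ≤ 8 ^ k := one_le_pow₀ (by norm_num)
          have e : 5 * (8 ^ k * Λ) / K ^ 2 * h = 8 ^ k * (5 * Λ / K ^ 2 * h) := by ring
          linarith
        have b2 : 32 * (3 + 5 * Λ / K ^ 2 * h) ^ 2 / K ^ 2 ≤ R * h ^ 2 / 4 := by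
          rw [hR, add_mul, div_mul_cancel₀ _ (by positivity)]
          nlinarith [sq_nonneg h]
        calc _ ≤ 32 * (8 ^ k * (3 + 5 * Λ / K ^ 2 * h)) ^ 2 / K ^ 2 := by gcongr
          _ = 64 ^ k * (32 * (3 + 5 * Λ / K ^ 2 * h) ^ 2 / K ^ 2) := by
            rw [mul_pow, ← pow_mul, mul_comm k 2, pow_mul]
            ring
          _ ≤ _ := by gcongr
      have a5 := a3.trans (mul_le_mul_of_nonneg_right a4 (sq_nonneg _))
      refine le_of_mul_le_mul_left (a5.trans (le_of_eq ?_)) (pow_pos p0 2)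
      have e1 : (64 : ℝ) ^ k = (2 ^ k) ^ 6 := by rw [← pow_mul, mul_comm, pow_mul]; norm_num
      have e2 : (256 : ℝ) ^ k = (2 ^ k) ^ 8 := by rw [← pow_mul, mul_comm, pow_mul]; norm_num
      rw [pow_succ (2 : ℕ) k, pow_mul, pow_succ (2 : ℝ) k, pow_succ (256 : ℝ) (k + 1),
        pow_succ (256 : ℝ) k, e1, e2]
      field_simp
      norm_num
  refine F.sup u b (sub b ⟨by linarith, le_rfl⟩) _ (by positivity) fun k => ?_
  refine (h2 k b ⟨sub_le_self _ (by positivity), le_rfl⟩).trans (div_le_self (by positivity) ?_)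
  exact one_le_mul_of_one_le_of_one_le R1 (one_le_pow₀ (by norm_num))

end Pool.Agent.MP_9bd639_gt.H88

end

-- part Sg1
section

/-! The first flow: control of `∫ |S| ^ 3` for a short time, the supremum bound and the smoothing
of the negative part of `s2 / s1 - c`. -/

open Set

namespace Pool.Agent.MP_9bd639_gt.H88

theorem Inv3.bd {s1 s2 s3 w : ℝ} (h : Inv3 s1 s2 s3) (hw : 0 < w)
    (e : w * w = s1 ^ 2 - 2 * s2 + 1) : |s1| ≤ 3 * w ∧ |s2| ≤ 3 * w ^ 2 ∧ |s3| ≤ w ^ 3 := by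
  obtain ⟨a, b, c, rfl, rfl, rfl⟩ := h
  have ha : |a| ≤ w := abs_le_of_sq_le_sq (by nlinarith [sq_nonneg b, sq_nonneg c]) hw.le
  have hb : |b| ≤ w := abs_le_of_sq_le_sq (by nlinarith [sq_nonneg a, sq_nonneg c]) hw.le
  have hc : |c| ≤ w := abs_le_of_sq_le_sq (by nlinarith [sq_nonneg a, sq_nonneg b]) hw.le
  refine ⟨(abs_add_three a b c).trans (by linarith), abs_le.2 ⟨?_, ?_⟩, ?_⟩
  · nlinarith [sq_nonneg (a + b + c), sq_nonneg a, sq_nonneg b, sq_nonneg c]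
  · nlinarith [sq_nonneg (a - b), sq_nonneg (b - c), sq_nonneg (a - c), sq_nonneg w]
  · rw [abs_mul, abs_mul, pow_succ, sq]
    gcongr

theorem Inv3.bd' {s1 s2 s3 w : ℝ} (h : Inv3 s1 s2 s3) (hw : 0 < w)
    (e : w * w = s1 ^ 2 - 2 * s2 + 1) : 2 * s1 ^ 3 + 2 * s1 * s2 - 24 * s3 ≤ 100 * w ^ 3 ∧
      -(s1 * s2 + 3 * s3) ≤ 12 * w ^ 3 ∧ s1 ^ 2 + s2 ≤ 12 * w ^ 2 ∧ s1 ≤ 3 * w := by
  obtain ⟨h1, h2, h3⟩ := h.bd hw e
  have a1 : |s1 ^ 3| ≤ (3 * w) ^ 3 := by rw [abs_pow]; gcongr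
  have a2 : |s1 * s2| ≤ 3 * w * (3 * w ^ 2) := by rw [abs_mul]; gcongr
  have a3 : |s1 ^ 2| ≤ (3 * w) ^ 2 := by rw [abs_pow]; gcongr
  have a4 := pow_pos hw 3
  rw [abs_le] at *
  refine ⟨?_, ?_, ?_, h1.2⟩ <;> nlinarith

namespace SF

variable {M A : Type} [CommRing A] [Algebra ℝ A] {T : ℝ} (F : SF M A T) {t : ℝ}

theorem exists_w : ∃ b, b * b = F.f ∧ ∀ t ∈ Icc 0 T, ∀ x, 0 < F.ev t x b :=
  F.sqrt F.f fun _ ht x => one_pos.trans_le (F.one_le_f ht x)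

/-- The square root of `|S| ^ 2 + 1`. -/
noncomputable def w : A := F.exists_w.choose

theorem w_sq : F.w * F.w = F.f := F.exists_w.choose_spec.1

theorem w_pos : ∀ t ∈ Icc 0 T, ∀ x, 0 < F.ev t x F.w := F.exists_w.choose_spec.2

theorem ev_w (t : ℝ) (x : M) : F.ev t x F.w * F.ev t x F.w = F.ev t x F.f := by
  rw [← map_mul, w_sq]

theorem one_le_w (ht : t ∈ Icc 0 T) (x : M) : 1 ≤ F.ev t x F.w := by
  nlinarith [F.ev_w t x, F.one_le_f ht x, F.w_pos t ht x]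

theorem w_bd (ht : t ∈ Icc 0 T) (x : M) : F.ev t x (F.P F.f) ≤ 100 * F.ev t x F.w ^ 3 ∧
    -(F.ev t x F.s1 * F.ev t x F.s2 + 3 * F.ev t x F.s3) ≤ 12 * F.ev t x F.w ^ 3 ∧
    F.ev t x F.s1 ^ 2 + F.ev t x F.s2 ≤ 12 * F.ev t x F.w ^ 3 ∧
    F.ev t x F.s1 ≤ 3 * F.ev t x F.w := by
  obtain ⟨h1, h2, h3, h4⟩ := (F.inv3 t ht x).bd' (F.w_pos t ht x) (by simp [F.ev_w, f, map_ofNat])
  refine ⟨?_, h2, h3.trans ?_, h4⟩
  · rw [P_f]
    simp only [map_add, map_sub, map_mul, map_pow, map_ofNat]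
    linarith [F.G_nonneg t ht x]
  · have := pow_le_pow_right₀ (F.one_le_w ht x) (by norm_num : 2 ≤ 3)
    linarith

theorem B_low (ht : t ∈ Icc 0 T) {Y : ℝ} (h : ∀ s ∈ Icc 0 t, F.I s (F.w ^ 3) ≤ Y) :
    F.I 0 F.s2 - 12 * Y * t ≤ F.I t F.s2 := by
  have := sc_lin (f := fun t => -F.I t F.s2) (C := 12 * Y) ht.1
    ((F.I_cont _).mono (Icc_subset_Icc_right ht.2)).neg fun s hs => by
      have hs' : s ∈ Icc 0 T := ⟨hs.1.le, hs.2.le.trans ht.2⟩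
      refine ⟨_, ?_, (F.I_der _ s ⟨hs.1, hs.2.trans_le ht.2⟩).neg⟩
      have h1 := F.I_sub_le (a := F.G - F.Γ F.s1 F.s1 + (2 * F.s1 ^ 3 - 7 * F.s1 * F.s2 + 9 * F.s3))
        (b := F.P F.s2 - 4 * F.s1 * F.s2) (c := F.w ^ 3) (r := 1) (s := 12) hs' fun x => by
          rw [F.P_s2]
          simp only [map_add, map_sub, map_mul, map_pow, map_ofNat]
          linarith [(F.w_bd hs' x).2.1]
      linarith [F.cot s hs', h s (Ioo_subset_Icc_self hs)]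
  linarith

theorem A_low (ht : t ∈ Icc 0 T) {Y : ℝ} (h : ∀ s ∈ Icc 0 t, F.I s (F.w ^ 3) ≤ Y) :
    F.I 0 F.s1 - 12 * Y * t ≤ F.I t F.s1 := by
  have := sc_lin (f := fun t => -F.I t F.s1) (C := 12 * Y) ht.1
    ((F.I_cont _).mono (Icc_subset_Icc_right ht.2)).neg fun s hs => by
      have hs' : s ∈ Icc 0 T := ⟨hs.1.le, hs.2.le.trans ht.2⟩
      refine ⟨_, ?_, (F.der_A ⟨hs.1, hs.2.trans_le ht.2⟩).neg⟩
      have h1 := F.I_le_mul (a := F.s1 ^ 2 + F.s2) (b := F.w ^ 3) (r := 12) hs' fun x => by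
        simpa using (F.w_bd hs' x).2.2.1
      rw [map_add] at h1
      linarith [h s (Ioo_subset_Icc_self hs)]
  linarith

/-- A smooth approximation of the positive part. -/
theorem exists_Th (y : A) {η : ℝ} (hη : 0 < η) : ∃ u : A, ∀ t ∈ Icc 0 T, ∀ x,
    max (F.ev t x y) 0 ≤ F.ev t x u ∧ F.ev t x u ≤ max (F.ev t x y) 0 + η ∧ ∀ v, 0 ≤ v →
      F.ev t x (F.P y) ≤ v * max (F.ev t x y) 0 → F.ev t x (F.P u) ≤ v * F.ev t x u := by
  obtain ⟨r, hr, r0⟩ := F.sqrt (y * y + algebraMap ℝ A (η ^ 2)) fun t _ x => by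
    simp only [map_add, map_mul, AlgHom.commutes, Algebra.algebraMap_self, RingHom.id_apply]
    nlinarith [mul_self_nonneg (F.ev t x y), pow_pos hη 2]
  have g1 : ∀ c, 2 * (r * F.Γ r c) = 2 * (y * F.Γ y c) := fun c => by
    have := F.Γ_mul r r c
    rw [hr, F.Γ_add, F.Γ_const, F.Γ_mul] at this
    linear_combination -this
  have g2 : 4 * (r * r * F.Γ r r) = 4 * (y * y * F.Γ y y) := by
    have := g1 y
    rw [F.Γ_comm] at this
    linear_combination 2 * r * g1 r + 2 * y * this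
  have g3 := F.P_mul r r
  rw [hr, map_add, F.P_const, F.P_mul] at g3
  refine ⟨(1 / 2 : ℝ) • (y + r), fun t ht x => ?_⟩
  have e1 := congrArg (F.ev t x) hr
  have e2 := congrArg (F.ev t x) g2
  have e3 := congrArg (F.ev t x) g3
  have p1 := r0 t ht x
  have p2 := F.Γ_nonneg y t ht x
  simp only [map_add, map_sub, map_mul, map_smul, map_ofNat, map_zero, smul_eq_mul, AlgHom.commutes,
    Algebra.algebraMap_self, RingHom.id_apply] at e1 e2 e3 ⊢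
  generalize F.ev t x y = Y, F.ev t x r = R, F.ev t x (F.P y) = a, F.ev t x (F.P r) = b,
    F.ev t x (F.Γ y y) = g, F.ev t x (F.Γ r r) = k at *
  have q1 : |Y| ≤ R := abs_le_of_sq_le_sq (by nlinarith [sq_nonneg η]) p1.le
  have q2 : R ≤ |Y| + η := abs_le_of_sq_le_sq' (by
    nlinarith [sq_abs Y, mul_nonneg (abs_nonneg Y) hη.le]) (by positivity) |>.2
  have q3 : k ≤ g := le_of_mul_le_mul_left (a := R * R)
    (by nlinarith [mul_nonneg p2 (sq_nonneg η)]) (by positivity)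
  have q4 : max Y 0 = (Y + |Y|) / 2 := by
    rcases le_total Y 0 with h | h
    · rw [max_eq_right h, abs_of_nonpos h]; ring
    · rw [max_eq_left h, abs_of_nonneg h]; ring
  refine ⟨by linarith, by linarith, fun v hv h => le_of_mul_le_mul_left ?_ p1⟩
  have q5 : 0 ≤ Y + R := by linarith [neg_abs_le Y]
  have q6 : a ≤ v * R := h.trans (mul_le_mul_of_nonneg_left (by linarith [le_abs_self Y]) hv)
  nlinarith [mul_le_mul_of_nonneg_left q6 q5]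

/-- The initial conditions of the first flow. -/
def Ini1 (b Λ : ℝ) : Prop := (∃ m > 0, ∀ x, m ≤ F.ev 0 x F.s1) ∧ b ≤ F.I 0 F.s2 ∧
  ∀ a, (∀ x, F.ev 0 x a ≤ √(F.ev 0 x F.f) ^ 3) → F.I 0 a ≤ Λ

theorem Ini1.pos {b Λ : ℝ} (h : F.Ini1 b Λ) (ht : t ∈ Icc 0 T) (x : M) : 0 < F.ev t x F.s1 := by
  obtain ⟨m, hm, h⟩ := h.1
  exact hm.trans_le (F.s1_ge h ht x)

theorem f_short {Λ : ℝ} (hΛ : 0 ≤ Λ) (h : ∀ x, F.ev 0 x F.f ≤ Λ) (ht : t ∈ Icc 0 T)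
    (h1 : 100 * (Λ + 1) ^ 2 * t ≤ 1) (x : M) : F.ev t x F.f ≤ Λ + 1 := by
  obtain ⟨C, hC⟩ := F.bdd F.f
  obtain ⟨N, hN⟩ : ∃ N, N = 100 * (Λ + 1) ^ 2 := ⟨_, rfl⟩
  have N0 : 0 ≤ N := by rw [hN]; positivity
  rw [← hN] at h1
  have h0 : (0 : ℝ) ∈ Icc 0 T := ⟨le_rfl, ht.1.trans ht.2⟩
  have := F.mp (algebraMap ℝ A Λ + N • F.τ - F.f) (200 * C) t ht
    (fun x => by simpa [F.ev_τ 0 h0] using h x) (fun s hs x => by
      have hs' : s ∈ Icc 0 T := ⟨hs.1, hs.2.trans ht.2⟩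
      have a1 := (F.w_bd hs' x).1
      have a2 := pow_le_pow_right₀ (F.one_le_w hs' x) (by norm_num : 3 ≤ 4)
      have a3 : F.ev s x F.w ^ 4 = F.ev s x F.f ^ 2 := by rw [← F.ev_w]; ring
      have a4 := (abs_le.1 (hC s hs' x)).2
      have a5 := mul_le_mul_of_nonneg_left hs.2 N0
      have a6 := mul_nonneg N0 hs.1
      rw [map_sub F.P, map_add F.P, F.P_const, map_smul, F.P_τ]
      simp only [map_add, map_sub, map_smul, map_zero, map_one, smul_eq_mul, AlgHom.commutes,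
        Algebra.algebraMap_self, RingHom.id_apply, F.ev_τ s hs']
      intro a7
      have a8 : (Λ + N * s) ^ 2 ≤ (Λ + 1) ^ 2 := pow_le_pow_left₀ (by positivity) (by linarith) 2
      nlinarith [mul_nonneg (neg_nonneg.2 a7.le)
        (by linarith : 0 ≤ 2 * C - (F.ev s x F.f + (Λ + N * s)))]) t ⟨ht.1, le_rfl⟩ x
  simp only [map_add, map_sub, map_smul, smul_eq_mul, AlgHom.commutes, Algebra.algebraMap_self,
    RingHom.id_apply, F.ev_τ t ht] at this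
  linarith

end SF

theorem sup_of_L3 {K C1 : ℝ} (hK : 0 < K) (hC : 0 < C1) (Λ : ℝ) : ∃ Λ',
    ∀ {M A : Type} [CommRing A] [Algebra ℝ A] {T : ℝ} (F : SF M A T),
      (∀ t ∈ Icc 0 T, F.Sob t K ∧ (∀ x, 0 ≤ F.ev t x F.s1) ∧ t * F.I t (F.w ^ 3) ≤ C1) →
      (∀ x, F.ev 0 x F.f ≤ Λ) → ∀ t ∈ Icc 0 T, ∀ x, F.ev t x F.f ≤ Λ' := by
  obtain ⟨h, hh⟩ : ∃ h, h = 1 / (200 * (|Λ| + 1) ^ 2) := ⟨_, rfl⟩
  have h0 : 0 < h := by rw [hh]; positivity
  obtain ⟨C, -, H⟩ := nash (Λ := 100 ^ 3 * (C1 / h)) hK (by positivity) h0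
  refine ⟨max (|Λ| + 1) (C * (C1 / h)), fun F h1 h2 t ht x => ?_⟩
  rcases le_total t (2 * h) with h3 | h3
  · refine le_max_of_le_left (F.f_short (abs_nonneg Λ) (fun x => (h2 x).trans (le_abs_self Λ)) ht
      ((mul_le_mul_of_nonneg_left h3 (by positivity)).trans (le_of_eq ?_)) x)
    rw [hh]
    field_simp
    norm_num
  · refine le_max_of_le_right (H F F.f ((100 : ℝ) • F.w) t _ (by linarith) ht.2 (by positivity)
      (fun s hs => ?_) x)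
    have hs' : s ∈ Icc 0 _ := ⟨by linarith [hs.1], hs.2.trans ht.2⟩
    obtain ⟨a1, a2, a3⟩ := h1 s hs'
    have a4 : F.I s (F.w ^ 3) ≤ C1 / h := by
      rw [le_div_iff₀ h0]
      nlinarith [F.I_pow hs' (fun x => (F.w_pos s hs' x).le) 3, hs.1]
    refine ⟨⟨a1, ?_, fun x => ⟨a2 x, zero_le_one.trans (F.one_le_f hs' x), ?_, ?_⟩⟩,
      (F.I_le hs' fun x => ?_).trans a4⟩
    · rw [smul_pow, map_smul, smul_eq_mul]
      gcongr
    · simpa using (F.w_pos s hs' x).le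
    · refine (F.w_bd hs' x).1.trans (le_of_eq ?_)
      rw [← F.ev_w, map_smul, smul_eq_mul]
      ring
    · rw [← F.ev_w, map_pow, ← sq]
      exact pow_le_pow_right₀ (F.one_le_w hs' x) (by norm_num)

theorem L3 {b Λ : ℝ} (hb : 0 < b) (hΛ : 0 ≤ Λ) : ∃ τ > 0, τ ≤ 1 ∧
    ∀ {M A : Type} [CommRing A] [Algebra ℝ A] {T : ℝ} (F : SF M A T), T ≤ τ → F.Ini1 b Λ →
      ∀ t ∈ Icc 0 T, F.I t (F.w ^ 3) ≤ Λ + 2 ∧ F.Sob t (√(b / 2) / 6) := by
  obtain ⟨K, hK⟩ : ∃ K, K = √(b / 2) / 6 := ⟨_, rfl⟩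
  have K0 : 0 < K := by rw [hK]; positivity
  obtain ⟨R, hR⟩ : ∃ R, R = 9 * 100 ^ 3 / (2 * K ^ 2) * (Λ + 2) ^ 2 + 1 := ⟨_, rfl⟩
  have R1 : 1 ≤ R := by rw [hR]; exact le_add_of_nonneg_left (by positivity)
  refine ⟨min (1 / R) (b / (24 * (Λ + 2))), by positivity,
    (min_le_left _ _).trans ((div_le_one (by positivity)).2 R1), fun {M A} _ _ {T} F hT h t ht => ?_⟩
  have T1 := (le_div_iff₀ (by positivity)).1 (hT.trans (min_le_left _ _))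
  have T2 := (le_div_iff₀ (by positivity)).1 (hT.trans (min_le_right _ _))
  have key : ∀ t ∈ Icc 0 T, (∀ s ∈ Icc 0 t, F.I s (F.w ^ 3) - R * s ≤ Λ + 1) →
      F.I t (F.w ^ 3) ≤ Λ + 2 ∧ F.Sob t K := fun t ht hs => by
    have a1 : ∀ s ∈ Icc 0 t, F.I s (F.w ^ 3) ≤ Λ + 2 := fun s hs' => by
      nlinarith [hs s hs', hs'.2.trans ht.2]
    refine ⟨a1 t ⟨ht.1, le_rfl⟩, hK ▸ F.sob_of ht (h.pos F ht) (half_pos hb) ?_⟩
    nlinarith [F.B_low ht a1, h.2.1, ht.2]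
  have main := sc_barrier (f := fun t => F.I t (F.w ^ 3) - R * t) (a := 0) (b := T) (C := Λ + 1)
    ((F.I_cont _).sub (by fun_prop)) ?_ fun t ht hs _ => ?_
  · exact hK ▸ key t ht fun s hs => main s ⟨hs.1, hs.2.trans ht.2⟩
  · have := h.2.2 (F.w ^ 3) fun x => by
      rw [← F.ev_w, Real.sqrt_mul_self (F.w_pos 0 ⟨le_rfl, ht.1.trans ht.2⟩ x).le, map_pow]
    linarith
  · have ht' := Ioo_subset_Icc_self ht
    obtain ⟨a1, a2⟩ := key t ht' hs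
    refine ⟨_, ?_, (F.I_der _ t ht).sub ((hasDerivAt_id t).const_mul R)⟩
    have a3 := F.en3 ht' F.w_pos K0 (by norm_num : (0 : ℝ) < 100) a2 fun x =>
      ⟨(h.pos F ht' x).le, F.w_sq ▸ (F.w_bd ht' x).1⟩
    have a4 : 9 * 100 ^ 3 / (2 * K ^ 2) * F.I t (F.w ^ 3) ^ 2 ≤
        9 * 100 ^ 3 / (2 * K ^ 2) * (Λ + 2) ^ 2 := by
      have := F.I_pow ht' (fun x => (F.w_pos t ht' x).le) 3
      gcongr
    nlinarith [mul_nonneg K0.le (Real.sqrt_nonneg (F.I t (F.w ^ 6)))]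

/-- The first flow. -/
theorem stage1 {b Λ : ℝ} (hb : 0 < b) (hΛ : 0 ≤ Λ) : ∃ τ > 0,
    (∀ Λ₀, ∃ Λ₁, ∀ {M A : Type} [CommRing A] [Algebra ℝ A] {T : ℝ} (F : SF M A T), T ≤ τ →
      F.Ini1 b Λ → (∀ x, F.ev 0 x F.f ≤ Λ₀) → ∀ t ∈ Icc 0 T, ∀ x, F.ev t x F.f ≤ Λ₁) ∧
    ∀ T > 0, T ≤ τ → ∀ ε > 0, ∃ δ > 0, ∀ {M A : Type} [CommRing A] [Algebra ℝ A] (F : SF M A T)
      (c : ℝ), F.Ini1 b Λ → 0 ≤ c →
      (∀ a, (∀ x, F.ev 0 x a ≤ max (c - F.ev 0 x F.s2 / F.ev 0 x F.s1) 0 ^ 2) → F.I 0 a ≤ δ) →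
      F.I 0 F.s1 - 12 * (Λ + 2) * T ≤ F.I T F.s1 ∧
        ∀ x, 0 < F.ev T x F.s1 ∧ (c - ε) * F.ev T x F.s1 ≤ F.ev T x F.s2 := by
  obtain ⟨τ, τ0, τ1, H⟩ := L3 hb hΛ
  have K0 : 0 < √(b / 2) / 6 := by positivity
  generalize √(b / 2) / 6 = K at *
  refine ⟨τ, τ0, fun Λ₀ => ?_, fun T T0 hT ε hε => ?_⟩
  · obtain ⟨Λ₁, h1⟩ := sup_of_L3 (C1 := Λ + 2) K0 (by positivity) Λ₀
    refine ⟨Λ₁, fun F hT h => h1 F fun t ht => ?_⟩
    obtain ⟨a1, a2⟩ := H F hT h t ht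
    refine ⟨a2, fun x => (h.pos F ht x).le, ?_⟩
    nlinarith [F.I_pow ht (fun x => (F.w_pos t ht x).le) 3, ht.1, ht.2]
  obtain ⟨L, hL⟩ : ∃ L, L = 18 ^ 3 * (Λ + 2) := ⟨_, rfl⟩
  have L0 : 0 < L := by rw [hL]; positivity
  obtain ⟨C, C0, hC⟩ := nash (Λ := 8 * L) K0 (by positivity) T0
  obtain ⟨E, hE⟩ : ∃ E, E = Real.exp (5 * L / K ^ 2 * T) * (2 * Λ + 6) := ⟨_, rfl⟩
  have E0 : 0 < E := by rw [hE]; positivity
  refine ⟨ε ^ 2 / (C * E), by positivity, fun F c h hc hd => ?_⟩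
  obtain ⟨δ, hδ⟩ : ∃ δ, δ = ε ^ 2 / (C * E) := ⟨_, rfl⟩
  rw [← hδ] at hd
  have δ0 : 0 < δ := by rw [hδ]; positivity
  have hT' : T ∈ Icc 0 T := ⟨T0.le, le_rfl⟩
  have h0 : (0 : ℝ) ∈ Icc 0 T := ⟨le_rfl, T0.le⟩
  refine ⟨F.A_low hT' fun s hs => (H F hT h s hs).1, fun x => ⟨h.pos F hT' x, ?_⟩⟩
  obtain ⟨i, hi⟩ := F.inv F.s1 fun t ht => h.pos F ht
  obtain ⟨u, hu⟩ := F.exists_Th (algebraMap ℝ _ c - F.s2 * i) (Real.sqrt_pos.2 δ0)
  simp only [map_sub, map_mul, AlgHom.commutes, Algebra.algebraMap_self, RingHom.id_apply,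
    F.ev_inv hi, ← div_eq_mul_inv, F.P_const, map_neg, zero_sub] at hu
  have sub : ∀ t ∈ Icc 0 T, F.Sub t K L u ((18 : ℝ) • F.w) := fun t ht => by
    obtain ⟨a1, a2⟩ := H F hT h t ht
    refine ⟨a2, ?_, fun x => ?_⟩
    · rw [smul_pow, map_smul, smul_eq_mul, hL]
      gcongr
    · obtain ⟨b1, -, b3⟩ := hu t ht x
      have b0 := h.pos F ht x
      have b4 := (le_max_right _ _).trans b1
      rw [map_smul, smul_eq_mul]
      refine ⟨b0.le, b4, by linarith [F.w_pos t ht x], (b3 (6 * F.ev t x F.s1) (by linarith)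
        (by linarith [F.P_q hi ht x b0, (F.inv3 t ht x).neg_QQ_le b0 hc])).trans ?_⟩
      exact mul_le_mul_of_nonneg_right (by linarith [(F.w_bd ht x).2.2.2]) b4
  have i0 : F.I 0 (u ^ 2) ≤ (2 * Λ + 6) * δ := by
    have a1 := hd ((1 / 2 : ℝ) • u ^ 2 - δ • F.w ^ 3) fun x => by
      obtain ⟨b1, b2, -⟩ := hu 0 h0 x
      have b3 := pow_le_pow_left₀ ((le_max_right _ _).trans b1) b2 2
      have b4 := mul_le_mul_of_nonneg_left (one_le_pow₀ (F.one_le_w h0 x) (n := 3)) δ0.le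
      simp only [map_sub, map_smul, map_pow, smul_eq_mul]
      nlinarith [sq_nonneg (max (c - F.ev 0 x F.s2 / F.ev 0 x F.s1) 0 - √δ), Real.sq_sqrt δ0.le]
    simp only [map_sub, map_smul, smul_eq_mul] at a1
    nlinarith [mul_le_mul_of_nonneg_left (H F hT h 0 h0).1 δ0.le]
  have fin := hC F (u ^ 2) _ T (E * δ) le_rfl le_rfl (by positivity) (fun t ht => by
    rw [sub_self] at ht
    refine ⟨(sub t ht).sq F ht, (F.gron2 K0 ht fun s hs => sub s ⟨hs.1, hs.2.trans ht.2⟩).trans ?_⟩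
    rw [hE, mul_assoc]
    have := F.I_even h0 u even_two
    gcongr
    exact ht.2) x
  rw [hδ, map_pow, show C * (E * (ε ^ 2 / (C * E))) = ε ^ 2 by field_simp] at fin
  have := ((le_max_left _ _).trans (hu T hT' x).1).trans (abs_le_of_sq_le_sq' fin hε.le).2
  rw [← le_div_iff₀ (h.pos F hT' x)]
  linarith

end Pool.Agent.MP_9bd639_gt.H88

end

-- part Sg2
section

/-! The second flow: from an almost maximiser with `s2 ≥ s1 > 0` to an almost Einstein metric. -/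

open Set Filter Topology

namespace Pool.Agent.MP_9bd639_gt.H88

/-- The lower bound for `s2 / s1` along the second flow. -/
noncomputable def cc (t : ℝ) : ℝ := (1 - 8 * t)⁻¹

theorem cc_bd {t : ℝ} (h0 : 0 ≤ t) (h1 : t ≤ 1 / 240) : 1 ≤ cc t ∧ cc t ≤ 30 / 29 :=
  ⟨(one_le_inv₀ (by linarith)).2 (by linarith), inv_le_of_inv_le₀ (by norm_num) (by linarith)⟩

theorem cc_der {t : ℝ} (h1 : t ≤ 1 / 240) : HasDerivAt cc (8 * cc t ^ 2) t := by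
  have := (((hasDerivAt_id t).const_mul 8).const_sub 1).inv (by simp only [id]; linarith)
  refine this.congr_deriv ?_
  simp only [id, cc, inv_pow]
  ring

theorem Inv3.QQ_ge' {s1 s2 s3 c : ℝ} (h : Inv3 s1 s2 s3) (h1 : 0 < s1) (hc : 0 ≤ c)
    (h2 : c * s1 ≤ s2) : 8 * c ^ 2 + 8 / 3 * c * (s1 - 3 * c) + 2 / 9 * (s1 - 3 * c) ^ 2 ≤
      QQ s1 s2 s3 := by
  have a1 := h.PP_ge h1 ((mul_nonneg hc h1.le).trans h2)
  have a2 := mul_QQ (s2 := s2) (s3 := s3) h1.ne'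
  have a3 := (le_div_iff₀ h1).2 h2
  generalize s2 / s1 = q at *
  have a4 : 2 / 9 * s1 ^ 2 + 4 / 3 * q * s1 + 2 * q ^ 2 ≤ QQ s1 s2 s3 :=
    le_of_mul_le_mul_left (by nlinarith) h1
  nlinarith [mul_le_mul_of_nonneg_right a3 h1.le, pow_le_pow_left₀ hc a3 2]

theorem sg_interp {t y p κ : ℝ} (ht : 0 < t) (hy : 0 ≤ y) (hp : 0 ≤ p) (hκ : 0 < κ)
    (h : ∀ l, 0 ≤ l → l * t ≤ 1 / 102 → t * ((7 / 3 + l) * y - 7 * l ^ 2 / 4) ≤ p) :
    y ^ 2 ≤ (7 / t + 204 * κ) * p + y ^ 5 / κ ^ 3 := by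
  have a0 := mul_nonneg ht.le hy
  have a5 : 0 ≤ y ^ 5 / κ ^ 3 := by positivity
  rcases le_total (2 * y / 7 * t) (1 / 102) with h1 | h1
  · have a1 := h _ (by positivity) h1
    have a2 : y ^ 2 ≤ 7 / t * p := by
      rw [div_mul_eq_mul_div, le_div_iff₀ ht]
      nlinarith
    nlinarith [mul_nonneg hκ.le hp]
  · obtain ⟨l, hl⟩ : ∃ l, l * t = 1 / 102 := ⟨1 / 102 / t, by field_simp⟩
    have l0 : 0 < l := (pos_iff_pos_of_mul_pos (by rw [hl]; norm_num)).2 ht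
    have a1 := h l l0.le hl.le
    have a2 : l ≤ 2 * y / 7 := le_of_mul_le_mul_right (by linarith) ht
    have a3 : t * ((7 / 3 + l) * y - 7 * l ^ 2 / 4) =
      7 / 3 * (t * y) + l * t * (y - 7 * l / 4) := by ring
    rw [a3, hl] at a1
    have a4 : y ^ 2 ≤ κ * y + y ^ 5 / κ ^ 3 := by
      rcases le_total y κ with h2 | h2
      · nlinarith [mul_le_mul_of_nonneg_right h2 hy]
      · have : y ^ 2 ≤ y ^ 5 / κ ^ 3 := by
          rw [le_div_iff₀ (by positivity), show y ^ 5 = y ^ 2 * y ^ 3 by ring]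
          gcongr
        nlinarith [mul_nonneg hκ.le hy]
    nlinarith [mul_le_mul_of_nonneg_left (by linarith : y ≤ 204 * p) hκ.le,
      (by positivity : 0 ≤ 7 / t * p)]

namespace SF

variable {M A : Type} [CommRing A] [Algebra ℝ A] {T : ℝ} (F : SF M A T) {t J e : ℝ}

/-- The initial conditions of the second flow. -/
def Ini2 (J e : ℝ) : Prop := (∀ x, 0 < F.ev 0 x F.s1 ∧ F.ev 0 x F.s1 ≤ F.ev 0 x F.s2) ∧
  J - e ≤ F.I 0 F.s1 ^ 2 ∧
  ∀ t ∈ Icc 0 T, (∀ x, 0 < F.ev t x F.s1) → F.I t F.s1 * F.I t F.s2 ≤ J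

theorem exists_c (hT : T ≤ 1 / 240) :
    ∃ c : A, (∀ t ∈ Icc 0 T, ∀ x, F.ev t x c = cc t) ∧ F.P c = 8 * c ^ 2 := by
  obtain ⟨c, hc⟩ := F.inv (1 - (8 : ℝ) • F.τ) fun t ht x => by
    simp only [map_sub, map_one, map_smul, smul_eq_mul, F.ev_τ t ht]
    linarith [ht.2]
  refine ⟨c, fun t ht x => by simp [F.ev_inv hc, F.ev_τ t ht, cc], ?_⟩
  rw [F.P_inv hc, F.Γ_sub, F.Γ_one, F.Γ_smul, F.Γ_τ, map_sub, F.P_one, map_smul, F.P_τ,
    Algebra.smul_def, Algebra.smul_def, map_ofNat]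
  ring

variable {F}

theorem Ini2.three (h : F.Ini2 J e) (ht : t ∈ Icc 0 T) (x : M) : 3 ≤ F.ev t x F.s1 :=
  F.s1_ge (fun x => by
    obtain ⟨a1, a2⟩ := h.1 x
    nlinarith [(F.inv3 0 ⟨le_rfl, ht.1.trans ht.2⟩ x).three_le]) ht x

theorem Ini2.pos (h : F.Ini2 J e) (ht : t ∈ Icc 0 T) (x : M) : 0 < F.ev t x F.s1 :=
  three_pos.trans_le (h.three ht x)

theorem Ini2.q_ge (h : F.Ini2 J e) (hT : T ≤ 1 / 240) (ht : t ∈ Icc 0 T) (x : M) :
    cc t * F.ev t x F.s1 ≤ F.ev t x F.s2 := by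
  obtain ⟨c, hc, Pc⟩ := F.exists_c hT
  obtain ⟨i, hi⟩ := F.inv F.s1 fun t ht => h.pos ht
  obtain ⟨C, hC⟩ := F.bdd F.s1
  have h0 : (0 : ℝ) ∈ Icc 0 T := ⟨le_rfl, ht.1.trans ht.2⟩
  have := F.mp (F.s2 * i - c) (6 * C + 17) T ⟨h0.2, le_rfl⟩ (fun x => by
    simp only [map_sub, map_mul, F.ev_inv hi, hc 0 h0, cc, ← div_eq_mul_inv]
    linarith [(one_le_div₀ (h.1 x).1).2 (h.1 x).2]) (fun s hs x => by
      have a1 := h.pos hs x
      have a2 := F.P_q hi hs x a1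
      have a3 := (abs_le.1 (hC s hs x)).2
      obtain ⟨a4, a5⟩ := cc_bd hs.1 (hs.2.trans hT)
      rw [map_sub F.P, Pc]
      simp only [map_sub, map_mul (F.ev s x), map_pow, map_ofNat, F.ev_inv hi, hc s hs,
        ← div_eq_mul_inv]
      intro a6
      rcases le_total 0 (F.ev s x F.s2) with a7 | a7
      · have a8 := (F.inv3 s hs x).QQ_ge_sq a1 a7
        generalize F.ev s x F.s2 / F.ev s x F.s1 = q at *
        nlinarith [mul_nonneg (neg_nonneg.2 a6.le) (by linarith : 0 ≤ 6 * C + 17 - 8 * (q + cc s))]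
      · have a8 := (F.inv3 s hs x).QQ_ge_neg a1 a7
        have a9 := div_nonpos_of_nonpos_of_nonneg a7 a1.le
        generalize F.ev s x F.s2 / F.ev s x F.s1 = q at *
        nlinarith [mul_nonneg (neg_nonneg.2 a9) (by linarith : 0 ≤ 6 * C + 17 - 6 * F.ev s x F.s1),
          mul_nonneg (zero_le_one.trans a4) (by linarith : 0 ≤ 6 * C + 17 - 8 * cc s)]) t ht x
  simp only [map_sub, map_mul, F.ev_inv hi, hc t ht, ← div_eq_mul_inv, sub_nonneg] at this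
  exact (le_div_iff₀ (h.pos ht x)).1 this

theorem Ini2.y_nonneg (h : F.Ini2 J e) (hT : T ≤ 1 / 240) (ht : t ∈ Icc 0 T) (x : M) :
    0 ≤ F.ev t x F.s1 - 3 * cc t :=
  le_of_mul_le_mul_left (by nlinarith [h.q_ge hT ht x, (F.inv3 t ht x).three_le]) (h.pos ht x)

theorem Ini2.pinch (h : F.Ini2 J e) (hT : T ≤ 1 / 240) (ht : t ∈ Icc 0 T) (x : M) (l : ℝ)
    (l0 : 0 ≤ l) (l1 : l * t ≤ 1 / 102) :
    t * ((7 / 3 + l) * (F.ev t x F.s1 - 3 * cc t) - 7 * l ^ 2 / 4) ≤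
      F.ev t x F.s2 / F.ev t x F.s1 - cc t := by
  obtain ⟨c, hc, Pc⟩ := F.exists_c hT
  obtain ⟨i, hi⟩ := F.inv F.s1 fun t ht => h.pos ht
  have h0 : (0 : ℝ) ∈ Icc 0 T := ⟨le_rfl, ht.1.trans ht.2⟩
  have := F.mp (F.s2 * i - c - F.τ * ((7 / 3 + l) • (F.s1 - (3 : ℝ) • c) -
    algebraMap ℝ A (7 * l ^ 2 / 4))) 0 t ht (fun x => by
      simp only [map_sub, map_mul, F.ev_inv hi, hc 0 h0, F.ev_τ 0 h0, ← div_eq_mul_inv]
      linarith [(le_div_iff₀ (h.pos h0 x)).2 (h.q_ge hT h0 x)]) (fun s hs x _ => by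
      have hs' : s ∈ Icc 0 T := ⟨hs.1, hs.2.trans ht.2⟩
      have a1 := h.pos hs' x
      have a2 := F.P_q hi hs' x a1
      obtain ⟨a4, a5⟩ := cc_bd hs.1 (hs'.2.trans hT)
      have a6 := h.q_ge hT hs' x
      have a7 := (F.inv3 s hs' x).QQ_ge' a1 (by linarith) a6
      have a8 := h.y_nonneg hT hs' x
      have a9 : s * (7 / 3 + l) ≤ 1 / 51 := by
        nlinarith [mul_le_mul_of_nonneg_left hs.2 l0, hs'.2.trans hT]
      have a10 : 0 ≤ s * (7 / 3 + l) := mul_nonneg hs.1 (by linarith)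
      rw [map_sub F.P, map_sub F.P, F.P_τ_mul, map_sub F.P, F.P_const, map_smul, map_sub F.P,
        map_smul, Pc, F.P_s1]
      simp only [map_add, map_sub, map_mul (F.ev s x), map_pow, map_ofNat, map_smul, map_zero,
        smul_eq_mul, hc s hs', F.ev_τ s hs', AlgHom.commutes, Algebra.algebraMap_self,
        RingHom.id_apply]
      obtain ⟨y, hy⟩ : ∃ y, F.ev s x F.s1 = y + 3 * cc s := ⟨_, (sub_add_cancel _ _).symm⟩
      rw [hy] at a6 a7 a8 ⊢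
      rw [add_sub_cancel_right] at a7 a8
      have b0 := mul_nonneg (sub_nonneg.2 a4) a8
      have b1 : 3 * (y + 3 * cc s) ^ 2 - F.ev s x F.s2 - 3 * (8 * cc s ^ 2) ≤
        3 * y ^ 2 + 17 * (cc s * y) := by nlinarith
      have b2 := (mul_le_mul_of_nonneg_left b1 a10).trans
        (mul_le_mul_of_nonneg_right a9 (by nlinarith [sq_nonneg y]))
      rw [← hy] at a7
      nlinarith [sq_nonneg (y - 7 * l / 2), sq_nonneg y]) t ⟨ht.1, le_rfl⟩ x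
  simp only [map_sub, map_mul, map_smul, smul_eq_mul, F.ev_inv hi, hc t ht, F.ev_τ t ht,
    ← div_eq_mul_inv, AlgHom.commutes, Algebra.algebraMap_self, RingHom.id_apply] at this
  linarith

theorem Ini2.int (h : F.Ini2 J e) (hT : T ≤ 1 / 240) (ht : t ∈ Icc 0 T) :
    0 ≤ F.I t F.s1 ∧ cc t * F.I t F.s1 ≤ F.I t F.s2 ∧ F.I t F.s1 ^ 2 ≤ J ∧
    F.I t F.s1 * (F.I t F.s2 - cc t * F.I t F.s1) ≤ J - cc t * F.I t F.s1 ^ 2 ∧
    ∀ l, 0 ≤ l → l * t ≤ 1 / 102 → t * (7 / 3 + l) * (F.I t (F.s1 ^ 2) - 3 * cc t * F.I t F.s1) ≤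
      F.I t F.s2 - cc t * F.I t F.s1 + t * (7 * l ^ 2 / 4) * F.I t F.s1 := by
  have a1 := F.I_nonneg _ t ht fun x => (h.pos ht x).le
  have a2 : cc t * F.I t F.s1 ≤ F.I t F.s2 := by
    simpa using F.I_le (a := cc t • F.s1) ht fun x => by simpa using h.q_ge hT ht x
  have a3 := h.2.2 t ht (h.pos ht)
  refine ⟨a1, a2, ?_, by linarith, fun l l0 l1 => ?_⟩
  · nlinarith [mul_le_mul_of_nonneg_left a2 a1,
      mul_nonneg (sub_nonneg.2 (cc_bd ht.1 (ht.2.trans hT)).1) (sq_nonneg (F.I t F.s1))]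
  have := F.I_sub_le (a := (t * (7 / 3 + l)) • F.s1 ^ 2) (b := F.s2) (c := F.s1) (r := 1)
    (s := t * (7 / 3 + l) * (3 * cc t) + t * (7 * l ^ 2 / 4) - cc t) ht fun x => by
      have b1 := (le_div_iff₀ (h.pos ht x)).1 (le_sub_iff_add_le.1 (h.pinch hT ht x l l0 l1))
      rw [map_smul, map_pow, smul_eq_mul]
      linarith
  rw [map_smul, smul_eq_mul] at this
  linarith

theorem Ini2.delta {η : ℝ} (h : F.Ini2 J (η ^ 10)) (η0 : 0 < η) (η1 : η ≤ 1 / 2) (hJ : 0 ≤ J)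
    (hT : T ≤ 1 / 240) (ht : t ∈ Icc 0 T) : J - cc t * F.I t F.s1 ^ 2 ≤ 3 * (1 + 2 * J) * η := by
  obtain ⟨a, ha⟩ : ∃ a, a = η ^ 5 := ⟨_, rfl⟩
  have a0 : 0 < a := by rw [ha]; positivity
  have a1 : a ≤ 1 / 32 := by rw [ha]; exact (pow_le_pow_left₀ η0.le η1 5).trans (by norm_num)
  have sq : ∀ s ≤ T, √s ≤ 1 / 15 := fun s hs => Real.sqrt_le_iff.2 ⟨by norm_num, by linarith⟩
  have := sc_gron (u := fun t => J + 7 * a ^ 2 * J / 4 - cc t * F.I t F.s1 ^ 2)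
    (Φ := fun t => 9 / 5 * Real.log (a + 7 / 3 * √t) + 3 * t) ht.1
    (continuousOn_const.sub (ContinuousOn.mul
      (fun s hs => (cc_der ((hs.2.trans ht.2).trans hT)).continuousAt.continuousWithinAt)
      (((F.I_cont _).mono (Icc_subset_Icc_right ht.2)).pow 2)))
    (Continuous.continuousOn (by
      refine (continuous_const.mul (Continuous.log (by fun_prop) fun s => ?_)).add (by fun_prop)
      positivity)) fun s hs => by
      have hs' : s ∈ Icc 0 T := ⟨hs.1.le, hs.2.le.trans ht.2⟩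
      obtain ⟨r, hr⟩ : ∃ r, r = √s := ⟨_, rfl⟩
      have r0 : 0 < r := hr ▸ Real.sqrt_pos.2 hs.1
      have r1 : r ≤ 1 / 15 := hr ▸ sq s hs'.2
      have r2 : s = r ^ 2 := by rw [hr, Real.sq_sqrt hs.1.le]
      refine ⟨_, _, ((cc_der (hs'.2.trans hT)).mul
        ((F.der_A ⟨hs.1, hs.2.trans_le ht.2⟩).pow 2)).const_sub _,
        ((((Real.hasDerivAt_sqrt hs.1.ne').const_mul (7 / 3)).const_add a).log
          (by positivity)).const_mul (9 / 5) |>.add ((hasDerivAt_id s).const_mul 3), ?_⟩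
      obtain ⟨b1, b2, b3, b4, b5⟩ := h.int hT hs'
      have b6 := b5 (a / r) (by positivity) (by
        rw [r2, show a / r * r ^ 2 = a * r by field_simp]
        nlinarith)
      obtain ⟨c1, c2⟩ := cc_bd hs'.1 (hs'.2.trans hT)
      simp only [Pi.pow_apply, ← hr]
      generalize cc s = c, F.I s F.s1 = X, F.I s F.s2 = Y, F.I s (F.s1 ^ 2) = Z at *
      obtain ⟨k, hk⟩ : ∃ k, k = r * (a + 7 / 3 * r) := ⟨_, rfl⟩
      have k0 : 0 < k := by rw [hk]; positivity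
      rw [show s * (7 / 3 + a / r) = k by rw [hk, r2]; field_simp; ring,
        show s * (7 * (a / r) ^ 2 / 4) = 7 * a ^ 2 / 4 by rw [r2]; field_simp] at b6
      rw [show 9 / 5 * (7 / 3 * (1 / (2 * r)) / (a + 7 / 3 * r)) = 21 / 10 / k by
        rw [hk]; field_simp; ring]
      obtain ⟨u, hu⟩ : ∃ u, u = J + 7 * a ^ 2 * J / 4 - c * X ^ 2 := ⟨_, rfl⟩
      have d0 := mul_nonneg b1 (sub_nonneg.2 b2)
      have d1 : X * (Y - c * X) + 7 * a ^ 2 / 4 * X ^ 2 ≤ u := by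
        nlinarith [mul_le_mul_of_nonneg_left b3 (sq_nonneg a)]
      have d2 := mul_nonneg (sq_nonneg a) (sq_nonneg X)
      have d3 : X * (Z - 3 * c * X) ≤ u / k := by
        rw [le_div_iff₀ k0]
        nlinarith [mul_le_mul_of_nonneg_left b6 b1]
      have d4 : 0 ≤ u / k := div_nonneg (by linarith) k0.le
      rw [← hu, add_mul, show 21 / 10 / k * u = 21 / 10 * (u / k) by ring]
      norm_num
      nlinarith [mul_le_mul_of_nonneg_left d3 (zero_le_one.trans c1),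
        mul_le_mul_of_nonneg_right c2 d4, mul_le_mul_of_nonneg_right c2 d0]
  have b1 : Real.log (a + 7 / 3 * √t) ≤ 0 :=
    Real.log_nonpos (by positivity) (by linarith [sq t ht.2])
  have b2 : Real.exp (9 / 5 * Real.log (a + 7 / 3 * √t) + 3 * t -
      (9 / 5 * Real.log (a + 7 / 3 * √0) + 3 * 0)) ≤ 3 / η ^ 9 := by
    rw [Real.sqrt_zero, mul_zero, mul_zero, add_zero, add_zero, ha, Real.log_pow]
    refine (Real.exp_le_exp.2 (?_ : _ ≤ 1 - (9 : ℕ) * Real.log η)).trans ?_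
    · rw [← ha]
      push_cast
      linarith [ht.2]
    · rw [Real.exp_sub, ← Real.log_pow, Real.exp_log (by positivity)]
      gcongr
      linarith [Real.exp_one_lt_d9]
  have b3 : J + 7 * a ^ 2 * J / 4 - cc 0 * F.I 0 F.s1 ^ 2 ≤ η ^ 10 * (1 + 2 * J) := by
    have := h.2.1
    rw [show η ^ 10 = a ^ 2 by rw [ha]; ring] at this ⊢
    rw [cc]
    nlinarith [mul_nonneg (sq_nonneg a) hJ]
  have b4 := (mul_le_mul_of_nonneg_left b3 (Real.exp_pos _).le).trans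
    (mul_le_mul_of_nonneg_right b2 (by positivity))
  have b5 : 3 / η ^ 9 * (η ^ 10 * (1 + 2 * J)) = 3 * (1 + 2 * J) * η := by field_simp
  nlinarith [mul_nonneg (sq_nonneg a) hJ]

/-- The smallness conditions along the second flow. -/
def Small (F : SF M A T) (J σ : ℝ) : Prop := ∀ t ∈ Icc 0 T, J - cc t * F.I t F.s1 ^ 2 ≤ σ ∧
  F.I t F.s2 - cc t * F.I t F.s1 ≤ σ ∧ F.I t F.s1 ≤ √J ∧ F.Sob t (√(√J / 2) / 6)

theorem Ini2.I3_le (h : F.Ini2 J e) (hT : T ≤ 1 / 240) (ht : t ∈ Icc 0 T) (t0 : 0 < t) {κ : ℝ}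
    (hκ : 0 < κ) : F.I t (F.s1 ^ 3) ≤ 20 * F.I t F.s1 + 2 / κ ^ 3 * F.I t (F.s1 ^ 6) +
      (14 / t + 408 * κ) * (F.I t F.s2 - cc t * F.I t F.s1) := by
  have := F.I_sub_le (a := F.s1 ^ 3 - (20 : ℝ) • F.s1) (b := F.s1 ^ 6) (c := F.s2 - cc t • F.s1)
    (r := 2 / κ ^ 3) (s := 14 / t + 408 * κ) ht fun x => by
      have a1 := h.pos ht x
      have a2 := h.y_nonneg hT ht x
      have a3 := sg_interp t0 a2 (sub_nonneg.2 ((le_div_iff₀ a1).2 (h.q_ge hT ht x))) hκ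
        (h.pinch hT ht x)
      obtain ⟨c1, c2⟩ := cc_bd ht.1 (ht.2.trans hT)
      simp only [map_sub, map_smul, map_pow, smul_eq_mul]
      generalize F.ev t x F.s1 = X, F.ev t x F.s2 = Y, cc t = c at *
      have a4 : (X - 3 * c) ^ 5 / κ ^ 3 ≤ X ^ 5 / κ ^ 3 := by
        gcongr
        linarith
      have a5 := mul_le_mul_of_nonneg_left (a3.trans (add_le_add_right a4 _)) a1.le
      have a6 : X * ((7 / t + 204 * κ) * (Y / X - c) + X ^ 5 / κ ^ 3) =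
        ((14 / t + 408 * κ) * (Y - c * X) + 2 / κ ^ 3 * X ^ 6) / 2 := by field_simp; ring
      have a7 : X ^ 2 ≤ 2 * (X - 3 * c) ^ 2 + 20 := by nlinarith [sq_nonneg (X - 6 * c)]
      nlinarith [mul_le_mul_of_nonneg_left a7 a1.le]
  simp only [map_sub, map_smul, smul_eq_mul] at this
  linarith

end SF

theorem sg_small {J σ : ℝ} (hJ : 0 < J) (hσ : 0 < σ) : ∃ e > 0,
    ∀ {M A : Type} [CommRing A] [Algebra ℝ A] {T : ℝ} (F : SF M A T), T ≤ 1 / 240 →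
      F.Ini2 J e → F.Small J σ := by
  have j0 := Real.sqrt_pos.2 hJ
  have j2 := Real.sq_sqrt hJ.le
  obtain ⟨d, d0, d1, d2, d3⟩ : ∃ d > 0, d ≤ σ ∧ d ≤ J / 2 ∧ d ≤ σ * (√J / 2) :=
    ⟨min σ (min (J / 2) (σ * (√J / 2))), by positivity, min_le_left _ _,
      (min_le_right _ _).trans (min_le_left _ _), (min_le_right _ _).trans (min_le_right _ _)⟩
  refine ⟨min (1 / 2) (d / (3 * (1 + 2 * J))) ^ 10, by positivity, fun F hT h t ht => ?_⟩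
  have a1 := (h.delta (by positivity) (min_le_left _ _) hJ.le hT ht).trans
    ((le_div_iff₀' (by positivity)).1 (min_le_right _ _))
  obtain ⟨b1, b2, b3, b4, -⟩ := h.int hT ht
  obtain ⟨c1, c2⟩ := cc_bd ht.1 (ht.2.trans hT)
  have a2 : √J / 2 ≤ F.I t F.s1 := abs_le_of_sq_le_sq' (by
    nlinarith [mul_le_mul_of_nonneg_right c2 (sq_nonneg (F.I t F.s1))]) b1 |>.2
  refine ⟨a1.trans d1, le_of_mul_le_mul_right ?_ (half_pos j0), Real.le_sqrt_of_sq_le b3,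
    F.sob_of ht (h.pos ht) (half_pos j0) ?_⟩
  · nlinarith [mul_le_mul_of_nonneg_right a2 (sub_nonneg.2 b2)]
  · nlinarith [mul_le_mul_of_nonneg_right c1 b1]

theorem sg_I3 {J : ℝ} (hJ : 0 < J) : ∃ σ > 0,
    ∀ {M A : Type} [CommRing A] [Algebra ℝ A] {T e : ℝ} (F : SF M A T), T ≤ 1 / 240 →
      F.Ini2 J e → F.Small J σ → ∀ t ∈ Icc 0 T, t * F.I t (F.s1 ^ 3) ≤ √J + 1 := by
  have j0 := Real.sqrt_pos.2 hJ
  obtain ⟨K, hK⟩ : ∃ K, K = √(√J / 2) / 6 := ⟨_, rfl⟩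
  have K0 : 0 < K := by rw [hK]; positivity
  obtain ⟨N, hN⟩ : ∃ N, N = 9 * 6 ^ 3 / (2 * K ^ 2) := ⟨_, rfl⟩
  have N0 : 0 < N := by rw [hN]; positivity
  obtain ⟨R, hR⟩ : ∃ R, R = 3 * (1 + N * (√J + 1)) / K + 1 := ⟨_, rfl⟩
  have R1 : 1 ≤ R := by rw [hR]; exact le_add_of_nonneg_left (by positivity)
  refine ⟨1 / (3264 * R), by positivity, fun {M A} _ _ {T e} F hT h hs => ?_⟩
  refine sc_barrier (f := fun t => t * F.I t (F.s1 ^ 3)) (continuousOn_id.mul (F.I_cont _))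
    (by simp only [zero_mul]; positivity) fun t ht _ hc => ?_
  have ht' := Ioo_subset_Icc_self ht
  refine ⟨_, ?_, (hasDerivAt_id t).mul (F.I_der _ t ht)⟩
  obtain ⟨-, a1, a2, a3⟩ := hs t ht'
  have a4 := F.en3 ht' (fun t ht => h.pos ht) K0 (by norm_num : (0 : ℝ) < 6) (hK ▸ a3) fun x => by
    have b1 := h.pos ht' x
    have b2 := (mul_nonneg (zero_le_one.trans (cc_bd ht'.1 (ht'.2.trans hT)).1) b1.le).trans
      (h.q_ge hT ht' x)
    rw [F.P_mul, F.P_s1]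
    simp only [map_add, map_sub, map_mul, map_pow, map_ofNat]
    exact ⟨b1.le, by nlinarith [mul_nonneg b1.le b2, F.Γ_nonneg F.s1 t ht' x]⟩
  rw [← hN] at a4
  have t0 := ht.1
  have t1 := ht'.2.trans hT
  have y0 : 0 < F.I t (F.s1 ^ 3) := (pos_iff_pos_of_mul_pos (by rw [hc]; positivity)).1 t0
  have a5 := h.I3_le hT ht' t0 (κ := 2 * R * F.I t (F.s1 ^ 3)) (by positivity)
  have a6 := Real.sq_sqrt (F.I_even ht' F.s1 (by norm_num : Even 6))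
  have a7 := Real.sqrt_nonneg (F.I t (F.s1 ^ 6))
  rw [← a6] at a5
  simp only [id, one_mul]
  generalize √(F.I t (F.s1 ^ 6)) = X, F.I t (F.s1 ^ 3) = y, F.I t F.s1 = a,
    F.I t (F.P (F.s1 ^ 3) - 4 * F.s1 * F.s1 ^ 3) = d at *
  have b1 : R * y ^ 2 ≤ X := by
    by_contra! hX
    have c1 : 2 / (2 * R * y) ^ 3 * X ^ 2 ≤ y / 4 := by
      rw [div_mul_eq_mul_div, div_le_iff₀ (by positivity)]
      nlinarith [pow_le_pow_left₀ a7 hX.le 2, mul_le_mul_of_nonneg_right R1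
        (by positivity : 0 ≤ R ^ 2 * y ^ 4)]
    have c2 := mul_le_mul_of_nonneg_left a1 (by positivity : 0 ≤ 14 / t + 408 * (2 * R * y))
    have c3 : (14 / t + 408 * (2 * R * y)) * (1 / (3264 * R)) = 14 / (3264 * R * t) + y / 4 := by
      field_simp
      ring
    have c4 : 14 / (3264 * R * t) ≤ y / 100 := by
      rw [div_le_iff₀ (by positivity)]
      nlinarith [mul_le_mul_of_nonneg_right R1 (mul_pos t0 y0).le]
    nlinarith [mul_le_mul_of_nonneg_right t1 y0.le]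
  have b2 : K / 3 * R = 1 + N * (√J + 1) + K / 3 := by rw [hR]; field_simp
  have b3 : d ≤ -(K / 3 * R * y ^ 2) + N * y ^ 2 := by
    nlinarith [mul_le_mul_of_nonneg_left b1 K0.le]
  have b4 := mul_le_mul_of_nonneg_left b3 t0.le
  have b5 : t * (-(K / 3 * R * y ^ 2) + N * y ^ 2) = (N - K / 3 * R) * (t * y) * y := by ring
  rw [b5, hc, b2] at b4
  nlinarith [mul_pos (mul_pos N0 j0) (mul_pos j0 y0), mul_pos (mul_pos N0 j0) y0, mul_pos j0 y0,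
    mul_pos K0 y0, mul_pos K0 (mul_pos j0 y0)]

theorem sg_pinch {J : ℝ} (hJ : 0 < J) : ∃ C > 0,
    ∀ {M A : Type} [CommRing A] [Algebra ℝ A] {e σ : ℝ} (F : SF M A (1 / 240)), 0 < σ →
      F.Ini2 J e → F.Small J σ → (∀ t ∈ Icc (0 : ℝ) (1 / 240), t * F.I t (F.s1 ^ 3) ≤ √J + 1) →
      ∀ x, F.ev (1 / 240) x F.s1 - 3 * cc (1 / 240) ≤ C * σ := by
  have j0 := Real.sqrt_pos.2 hJ
  obtain ⟨C, C0, H⟩ := nash (K := √(√J / 2) / 6) (Λ := 6 ^ 3 * (480 * (√J + 1))) (h := 1 / 480)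
    (by positivity) (by positivity) (by norm_num)
  refine ⟨C * 70, by positivity, fun {M A} _ _ {e σ} F hσ h hs h3 x => ?_⟩
  obtain ⟨c, hc, Pc⟩ := F.exists_c le_rfl
  have := H F (F.s1 - (3 : ℝ) • c) ((6 : ℝ) • F.s1) _ (70 * σ) (by norm_num) le_rfl (by positivity)
    (fun t ht => ?_) x
  · rwa [map_sub, map_smul, smul_eq_mul, hc _ ⟨by norm_num, le_rfl⟩, ← mul_assoc] at this
  have t1 : 1 / 480 ≤ t := by linarith [ht.1]
  have ht' : t ∈ Icc (0 : ℝ) (1 / 240) := ⟨by linarith, ht.2⟩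
  obtain ⟨-, a1, -, a3⟩ := hs t ht'
  obtain ⟨c1, c2⟩ := cc_bd ht'.1 ht.2
  refine ⟨⟨a3, ?_, fun x => ?_⟩, ?_⟩
  · rw [smul_pow, map_smul, smul_eq_mul]
    nlinarith [h3 t ht', mul_le_mul_of_nonneg_right t1 (F.I_pow ht' (fun x => (h.pos ht' x).le) 3)]
  · have b1 := h.pos ht' x
    have b2 := h.y_nonneg le_rfl ht' x
    rw [map_sub F.P, map_smul F.P, Pc, F.P_s1]
    simp only [map_sub, map_mul, map_pow, map_ofNat, map_smul, smul_eq_mul, hc t ht']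
    refine ⟨b1.le, b2, by linarith, ?_⟩
    nlinarith [h.q_ge le_rfl ht' x, mul_nonneg b2 (zero_le_one.trans c1), sq_nonneg
      (F.ev t x F.s1 - 3 * cc t)]
  · have b1 := F.I_sub_le (a := F.s1 - (3 : ℝ) • c) (b := F.s1 ^ 2) (c := F.s1) (r := 1 / 3)
      (s := -cc t) ht' fun x => by
        simp only [map_sub, map_pow, map_smul, smul_eq_mul, hc t ht']
        nlinarith [mul_nonneg (sub_nonneg.2 (h.three ht' x)) (h.y_nonneg le_rfl ht' x)]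
    have b2 := (h.int le_rfl ht').2.2.2.2 0 le_rfl (by norm_num)
    rcases le_total (F.I t (F.s1 ^ 2) - 3 * cc t * F.I t F.s1) 0 with b3 | b3
    · linarith
    · nlinarith [mul_le_mul_of_nonneg_right t1 b3]

/-- The second flow. -/
theorem stage2 {J : ℝ} (hJ : 9 * Real.pi ^ 4 / 2 < J) : ∃ e > 0,
    (∀ Λ₀, ∃ Λ₁, ∀ {M A : Type} [CommRing A] [Algebra ℝ A] {T : ℝ} (F : SF M A T), T ≤ 1 / 240 →
      F.Ini2 J e → (∀ x, F.ev 0 x F.f ≤ Λ₀) → ∀ t ∈ Icc 0 T, ∀ x, F.ev t x F.f ≤ Λ₁) ∧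
    ∀ {M A : Type} [CommRing A] [Algebra ℝ A] (F : SF M A (1 / 240)), ¬F.Ini2 J e := by
  have J0 : 0 < J := lt_trans (by positivity) hJ
  have j0 := Real.sqrt_pos.2 J0
  obtain ⟨σ₀, σ0, H0⟩ := sg_I3 J0
  obtain ⟨C, C0, H1⟩ := sg_pinch J0
  have hc : cc (1 / 240) = 30 / 29 := by norm_num [cc]
  obtain ⟨o, o1, o2, o0⟩ : ∃ o : ℝ, 30 / 29 * ((90 / 29 + o ^ 2) ^ 2 *
      (4 * Real.pi ^ 4 / (30 / 29 * 2 - o) ^ 3)) + o < J ∧ o < 1 ∧ 0 < o := by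
    have h1 : ContinuousAt (fun o : ℝ => 30 / 29 * ((90 / 29 + o ^ 2) ^ 2 *
        (4 * Real.pi ^ 4 / (30 / 29 * 2 - o) ^ 3)) + o) 0 := by
      fun_prop (disch := norm_num)
    have h2 := h1.eventually (Iio_mem_nhds (a := J) (lt_of_eq_of_lt (by ring) hJ))
    exact (((h2.and (Iio_mem_nhds one_pos)).filter_mono nhdsWithin_le_nhds).and
      (self_mem_nhdsWithin (s := Ioi 0))).exists.imp fun o h => ⟨h.1.1, h.1.2, h.2⟩
  obtain ⟨σ, σp, σ1, σ2, σ3⟩ : ∃ σ > 0, σ ≤ σ₀ ∧ σ ≤ o ∧ σ ≤ o ^ 2 / C :=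
    ⟨min σ₀ (min o (o ^ 2 / C)), by positivity, min_le_left _ _,
      (min_le_right _ _).trans (min_le_left _ _), (min_le_right _ _).trans (min_le_right _ _)⟩
  obtain ⟨e, e0, H2⟩ := sg_small J0 σp
  have H3 : ∀ {M A : Type} [CommRing A] [Algebra ℝ A] {T : ℝ} (F : SF M A T), T ≤ 1 / 240 →
      F.Ini2 J e → ∀ t ∈ Icc 0 T, t * F.I t (F.s1 ^ 3) ≤ √J + 1 := fun F hT h =>
    H0 F hT h fun t ht => (H2 F hT h t ht).imp (·.trans σ1) (And.imp_left (·.trans σ1))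
  refine ⟨e, e0, fun Λ₀ => ?_, fun F h => ?_⟩
  · obtain ⟨Λ₁, H⟩ := sup_of_L3 (K := √(√J / 2) / 6) (C1 := 8 * (√J + 1)) (by positivity)
      (by positivity) Λ₀
    refine ⟨Λ₁, fun F hT h => H F fun t ht => ⟨(H2 F hT h t ht).2.2.2, fun x => (h.pos ht x).le, ?_⟩⟩
    have := F.I_le_mul (a := F.w ^ 3) (b := F.s1 ^ 3) (r := 8) ht fun x => by
      have b1 := h.three ht x
      have b2 := (mul_nonneg (zero_le_one.trans (cc_bd ht.1 (ht.2.trans hT)).1)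
        (h.pos ht x).le).trans (h.q_ge hT ht x)
      have b3 := F.ev_w t x
      simp only [SF.f, map_add, map_sub, map_mul, map_pow, map_ofNat, map_one] at b3 ⊢
      have b4 : F.ev t x F.w ≤ 2 * F.ev t x F.s1 :=
        (abs_le_of_sq_le_sq' (by nlinarith) (by linarith)).2
      linarith [pow_le_pow_left₀ (F.w_pos t ht x).le b4 3]
    nlinarith [mul_le_mul_of_nonneg_left this ht.1, H3 F hT h t ht]
  have ht : (1 / 240 : ℝ) ∈ Icc (0 : ℝ) (1 / 240) := ⟨by norm_num, le_rfl⟩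
  have a1 : ∀ x, F.ev (1 / 240) x F.s1 - 3 * (30 / 29) ≤ o ^ 2 := fun x =>
    hc ▸ (H1 F σp h (H2 F le_rfl h) (H3 F le_rfl h) x).trans ((le_div_iff₀' C0).1 σ3)
  have k0 : 0 < 30 / 29 * 2 - o := by linarith
  have a2 := F.bishop _ ht _ k0 fun x => by
    have b1 := h.y_nonneg le_rfl ht x
    have b2 := h.q_ge le_rfl ht x
    have b3 := a1 x
    rw [hc] at b1 b2
    refine ⟨by linarith, le_trans ?_ (pow_le_pow_left₀ (a := 2 * o) (by linarith) (by linarith) 2)⟩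
    nlinarith [mul_le_mul_of_nonneg_right (by nlinarith : F.ev (1 / 240) x F.s1 ≤ 6) b1]
  have a3 := F.I_le_mul (a := F.s1) (b := 1) (r := 90 / 29 + o ^ 2) ht fun x => by
    rw [map_one]
    linarith [a1 x]
  have a4 := pow_le_pow_left₀ (h.int le_rfl ht).1 a3 2
  have a5 := (H2 F le_rfl h _ ht).1
  rw [hc] at a5
  rw [← le_div_iff₀ (pow_pos k0 3)] at a2
  rw [mul_pow] at a4
  linarith [mul_le_mul_of_nonneg_left a2 (sq_nonneg (90 / 29 + o ^ 2))]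

end Pool.Agent.MP_9bd639_gt.H88

end
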