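import Pool.Agent.MP_9bd639_gt.G.An1
import Pool.Agent.MP_9bd639_gt.G.An2
import Pool.Agent.MP_9bd639_gt.G.Tens2
import Pool.Agent.MP_9bd639_gt.G.Scal
import Pool.Agent.MP_9bd639_gt.G.Tens1
import Pool.Agent.MP_9bd639_gt.G.Real

-- part Tm3
section

/-! Families of metrics and flows: construction, restriction, gluing, differentiation of
integrals and the maximum principle. -/

open Matrix MeasureTheory Filter Topology Set
open scoped ContDiff

namespace Pool.Agent.MP_9bd639_gt.H88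

namespace Base

variable {B : Base} {T : ℝ} [hT : Fact (0 < T)]

theorem evT_φ (t : Icc (0 : ℝ) T) (u : B.AT T) : (B.evT T t).φ u = u.1 t := rfl

theorem matT_ext {U V : Matrix (Fin B.N) (Fin B.N) (B.AT T)}
    (h : ∀ t, U.map (B.evT T t).φ = V.map (B.evT T t).φ) : U = V := by
  ext i j : 1
  exact Subtype.ext (funext fun t => congrFun (congrFun (h t) i) j)

/-- A smooth family of matrices. -/
def matT (U : Icc (0 : ℝ) T → B.Mat) (hU : ∀ k i j, Ck k fun t => U t i j) :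
    Matrix (Fin B.N) (Fin B.N) (B.AT T) := of fun i j => ⟨fun t => U t i j, fun k => hU k i j⟩

theorem matT_map (U : Icc (0 : ℝ) T → B.Mat) (hU : ∀ k i j, Ck k fun t => U t i j)
    (t : Icc (0 : ℝ) T) : (matT U hU).map (B.evT T t).φ = U t := rfl

theorem M_eq {U V : Matrix (Fin B.N) (Fin B.N) (B.AT T)} (h : ∀ i j, TD (U i j).1 (V i j).1) :
    (B.DT T).M U = V := by
  ext i j : 1
  exact D_eq (h i j)

/-- A smooth family of metrics as a metric on the time dependent algebra. -/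
def famMet (mm : Icc (0 : ℝ) T → B.Me) (hG : ∀ k i j, Ck k fun t => (mm t).G i j) :
    Met (B.FT T) where
  G := matT (fun t => (mm t).G) hG
  γ := matT (fun t => (mm t).γ) fun k => (stab_CkS mm (hG k)).γ
  G_symm := matT_ext fun t => (mm t).G_symm
  γ_symm := matT_ext fun t => (mm t).γ_symm
  γG := matT_ext fun t => by rw [Matrix.map_mul, Hom.map_π]; exact (mm t).γG
  πG := matT_ext fun t => by rw [Matrix.map_mul, Hom.map_π]; exact (mm t).πG
  πγ := matT_ext fun t => by rw [Matrix.map_mul, Hom.map_π]; exact (mm t).πγ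

theorem famMet_map (mm : Icc (0 : ℝ) T → B.Me) (hG : ∀ k i j, Ck k fun t => (mm t).G i j)
    (t : Icc (0 : ℝ) T) : (famMet mm hG).map (B.evT T t) = mm t := rfl

/-- A smooth family of positive metrics. -/
def Fam.of (mm : Icc (0 : ℝ) T → B.Me) (hG : ∀ k i j, Ck k fun t => (mm t).G i j)
    (hp : ∀ t, Pos (mm t)) : Fam B T := ⟨famMet mm hG, hp⟩

theorem Fam.of_at (mm : Icc (0 : ℝ) T → B.Me) (hG : ∀ k i j, Ck k fun t => (mm t).G i j)
    (hp : ∀ t, Pos (mm t)) (s : ℝ) : (Fam.of mm hG hp).at s = mm (pj T s) := rfl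

theorem Fam.at_coe (Φ : Fam B T) (t : Icc (0 : ℝ) T) : Φ.at t = Φ.m.map (B.evT T t) := by
  rw [Fam.at, pj_coe]

theorem Fam.at_pos (Φ : Fam B T) (s : ℝ) : Pos (Φ.at s) := Φ.pos _

theorem Fam.at_pj (Φ : Fam B T) (s : ℝ) : Φ.at (pj T s) = Φ.at s := Φ.at_coe _

theorem Fam.KN (Φ : Fam B T) : Φ.m.KN :=
  Φ.m.KN_of_hom (fun t => B.evT T t) (fun _ h => Subtype.ext (funext h)) fun t => (Φ.pos t).KN

/-- A path of positive metrics that solves the equation is a flow. -/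
theorem Flow.ofFam (mm : Icc (0 : ℝ) T → B.Me) (hp : ∀ t, Pos (mm t))
    (hd : ∀ i j, TD (fun t => (mm t).G i j) fun t => (mm t).kf (mm t).S i j) :
    ∃ Φ : Flow B T, ∀ s, Φ.at s = mm (pj T s) := by
  have hG : ∀ k i j, Ck k fun t => (mm t).G i j := fun k i j =>
    boot (κ := Fin B.N × Fin B.N) (u := fun p t => (mm t).G p.1 p.2)
      (Φ := fun p t => (mm t).kf (mm t).S p.1 p.2) (fun p => hd p.1 p.2) (fun k hk p => by
        have h := stab_CkS mm fun i j => hk (i, j)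
        have e : (Met.pi mm).kf (Met.pi mm).S p.1 p.2 = fun t => (mm t).kf (mm t).S p.1 p.2 :=
          funext fun t => by
            have := (B.F.at t).map_kf (Met.pi mm) (Met.pi mm).S
            rw [Hom.map_S] at this
            exact congrFun (congrFun this p.1) p.2
        exact e ▸ h.kf h.S p.1 p.2) k (i, j)
  refine ⟨⟨Fam.of mm hG hp, M_eq fun i j => ?_⟩, fun s => rfl⟩
  have e : ((famMet mm hG).kf (famMet mm hG).S i j).1 = fun t => (mm t).kf (mm t).S i j :=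
    funext fun t => by
      have := (B.evT T t).map_kf (famMet mm hG) (famMet mm hG).S
      rw [Hom.map_S] at this
      exact congrFun (congrFun this i) j
  exact e ▸ hd i j

theorem Flow.TD_G (Φ : Flow B T) (i j : Fin B.N) : TD (fun t : Icc (0 : ℝ) T => (Φ.at t).G i j)
    fun t => (Φ.at t).kf (Φ.at t).S i j := by
  have h := TD_D (Φ.m.G i j)
  rw [show D (Φ.m.G i j) = Φ.m.kf Φ.m.S i j from congrFun (congrFun Φ.eq i) j] at h
  simp only [Fam.at_coe]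
  have e : (Φ.m.kf Φ.m.S i j).1 =
      fun t => (Φ.m.map (B.evT T t)).kf (Φ.m.map (B.evT T t)).S i j := funext fun t => by
    have := (B.evT T t).map_kf Φ.m Φ.m.S
    rw [Hom.map_S] at this
    exact congrFun (congrFun this i) j
  exact e ▸ h

theorem Flow.restrict (Φ : Flow B T) {T' : ℝ} [Fact (0 < T')] (h : T' ≤ T) :
    ∃ Ψ : Flow B T', ∀ s ∈ Icc 0 T', Ψ.at s = Φ.at s := by
  obtain ⟨Ψ, hΨ⟩ := Flow.ofFam (T := T') (fun t => Φ.at t) (fun t => Φ.at_pos t)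
    fun i j => (Φ.TD_G i j).restrict h
  exact ⟨Ψ, fun s hs => by rw [hΨ, pj_of_mem hs]⟩

theorem Flow.glue {T₁ T₂ : ℝ} [Fact (0 < T₁)] [Fact (0 < T₂)] (Φ₁ : Flow B T₁) (Φ₂ : Flow B T₂)
    (h : Φ₁.at T₁ = Φ₂.at 0) (hle : T ≤ T₁ + T₂) : ∃ Ψ : Flow B T, ∀ s ∈ Icc 0 T,
      (s ≤ T₁ → Ψ.at s = Φ₁.at s) ∧ (T₁ ≤ s → Ψ.at s = Φ₂.at (s - T₁)) := by
  have h' : (fun t : Icc (0 : ℝ) T₁ => Φ₁.at t) (pj T₁ T₁) =
      (fun t : Icc (0 : ℝ) T₂ => Φ₂.at t) (pj T₂ 0) := by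
    simpa only [Fam.at_pj] using h
  obtain ⟨Ψ, hΨ⟩ := Flow.ofFam (T := T)
    (fun t => Base.glue (fun t : Icc (0 : ℝ) T₁ => Φ₁.at t) (fun t : Icc (0 : ℝ) T₂ => Φ₂.at t) t)
    (fun t => by
      rw [Base.glue]
      split_ifs
      exacts [Φ₁.at_pos _, Φ₂.at_pos _]) fun i j => by
      simp only [glue_comp (fun m : B.Me => m.G i j), glue_comp (fun m : B.Me => m.kf m.S i j)]
      exact (Φ₁.TD_G i j).glue (Φ₂.TD_G i j) (congrArg (fun m : B.Me => m.G i j) h')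
        (congrArg (fun m : B.Me => m.kf m.S i j) h') hle
  refine ⟨Ψ, fun s hs => ⟨fun h1 => ?_, fun h1 => ?_⟩⟩
  · rw [hΨ, pj_of_mem hs, glue_left _ _ h1, Fam.at_pj]
  · rw [hΨ, pj_of_mem hs, glue_right h' h1, Fam.at_pj]

namespace Fam

variable (Φ : Fam B T)

theorem vl_lap (u : B.AT T) (s : ℝ) (x : B.M) :
    vl (Φ.m.lap u) s x = ((Φ.at s).lap (u.1 (pj T s))).1 x :=
  congrFun (congrArg Subtype.val ((B.evT T _).map_lap Φ.m u)) x

theorem vl_gam (u v : B.AT T) (s : ℝ) (x : B.M) :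
    vl (Φ.m.gam u v) s x = ((Φ.at s).gam (u.1 (pj T s)) (v.1 (pj T s))).1 x :=
  congrFun (congrArg Subtype.val ((B.evT T _).map_gam Φ.m u v)) x

/-- The volume density is smooth in time. -/
theorem exists_rho : ∃ r : B.AT T, (∀ s x, vl r s x = rho (Φ.at s) x) ∧
    D r = hf (B.AT T) * Φ.m.tr ((B.DT T).M Φ.m.G) * r := by
  have e : ∀ t x, (Φ.m.ext.det.1 t).1 x = (Φ.m.map (B.evT T t)).ext.det.1 x := fun t x =>
    congrFun (congrArg Subtype.val ((B.evT T t).map_det Φ.m)) x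
  have h0 : ∀ t x, 0 < (Φ.m.ext.det.1 t).1 x := fun t x => by
    rw [e]
    exact Real.sqrt_pos.1 ((Φ.pos t).rho_pos x)
  obtain ⟨r, hr, hr'⟩ := AT_sqrt h0
  obtain ⟨v, hv⟩ := AT_inv (u := r) fun t x => by
    rw [hr']
    exact (Real.sqrt_pos.2 (h0 t x)).ne'
  refine ⟨r, fun s x => by rw [vl, hr', e]; rfl, ?_⟩
  have h1 := (B.DT T).D_det Φ.m
  rw [← hr, Dt.D_mul, D_def] at h1
  linear_combination (hf (B.AT T) * v) * h1 -
    (2 * hf (B.AT T) * D r - hf (B.AT T) * Φ.m.tr ((B.DT T).M Φ.m.G) * r) * hv -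
    D r * two_hf (A := B.AT T)

/-- Differentiation of the integral for the moving volume. -/
theorem hd_I (u : B.AT T) : ∀ t ∈ Icc 0 T, HasDerivWithinAt (Φ.I u)
    (Φ.I (D u + hf (B.AT T) * Φ.m.tr ((B.DT T).M Φ.m.G) * u) t) (Icc 0 T) t := by
  obtain ⟨r, hr, hD⟩ := Φ.exists_rho
  have e : ∀ (v : B.AT T) s, Φ.I v s = ∫ x, vl (v * r) s x ∂B.μ := fun v s => by
    rw [Fam.I, Base.I, integral_vol _ (B.cont _)]
    simp only [← hr]
    rfl
  intro t ht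
  rw [funext (e u), e]
  convert hd_int (u * r) t ht using 4
  rw [← D_def (u * r), Dt.D_mul, D_def, D_def, hD]
  ring

theorem cont_I (u : B.AT T) : ContinuousOn (Φ.I u) (Icc 0 T) := hdw_cont (Φ.hd_I u)

/-- The parabolic minimum principle. -/
theorem mp (u : B.AT T) {L δ t₁ : ℝ} (hδ : 0 < δ) (h₁ : t₁ ≤ T) (h0 : ∀ x, 0 ≤ vl u 0 x)
    (h : ∀ t ∈ Icc 0 t₁, ∀ x, -δ ≤ vl u t x → vl u t x < 0 →
      L * vl u t x ≤ vl (D u - Φ.m.lap u) t x) : ∀ t ∈ Icc 0 t₁, ∀ x, 0 ≤ vl u t x :=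
  maxp_abs (C := L) (u' := vl (D u)) hδ
    ((cont_vl u).comp (((continuous_inclusion (Icc_subset_Icc_right h₁)).comp
      continuous_fst).prodMk continuous_snd))
    (fun x => hdw_sub (hd_vl u x) le_rfl h₁) h0 fun t ht x hx h1 h2 => by
      have h3 := ((Φ.at_pos t).maxpt (a := -u.1 (pj T t)) (x := x)
        fun y => neg_le_neg (hx y)).1
      rw [Met.lap_neg] at h3
      have h4 : vl (D u - Φ.m.lap u) t x = vl (D u) t x - vl (Φ.m.lap u) t x := rfl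
      have h5 : 0 ≤ vl (Φ.m.lap u) t x := by
        rw [vl_lap]
        exact neg_nonpos.1 h3
      linarith [h t ht x h1 h2]

end Fam

end Base

end Pool.Agent.MP_9bd639_gt.H88

end

-- part ToSF
section

/-! The scalar shadow of a Ricci flow. -/

open Matrix MeasureTheory Filter Topology Set
open scoped ContDiff

namespace Pool.Agent.MP_9bd639_gt.H88

section

variable {ι : Type} [Fintype ι] [DecidableEq ι] {A : Type} [CommRing A] [Algebra ℝ A]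
  {F : Fr ι A}

/-- The heat operator. -/
noncomputable def Dt.heat (d : Dt F) (m : Met F) : A →ₗ[ℝ] A where
  toFun a := d.D a - m.lap a
  map_add' a b := by
    rw [m.lap_add, map_add]
    ring
  map_smul' r a := by rw [m.lap_rsmul, Derivation.map_smul, smul_sub, RingHom.id_apply]

theorem Dt.heat_mul (d : Dt F) (m : Met F) (a b : A) :
    d.heat m (a * b) = a * d.heat m b + b * d.heat m a - 2 * m.gam a b := by
  change d.D (a * b) - _ = a * (d.D b - _) + b * (d.D a - _) - _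
  rw [m.lap_mul, d.D_mul]
  ring

theorem Dt.heat_eq (d : Dt F) (m : Met F) {a b : A} (h : d.D a = m.lap a + b) :
    d.heat m a = b := sub_eq_of_eq_add' h

theorem Met.ToSF_zero (m : Met F) {a : A} (h : ∀ i, F.X i a = 0) :
    m.lap a = 0 ∧ ∀ b, m.gam a b = 0 := by
  have e : F.d0 a = 0 := funext h
  refine ⟨?_, fun b => by rw [Met.gam, e, Met.ip1, zero_dotProduct]⟩
  rw [← m.div1_d0, e, ← sub_self (0 : ι → A), m.div1_sub, sub_self]

end

namespace Base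

variable {B : Base}

theorem ToSF_sup {m : B.Me} (hm : Pos m) {a : B.A} {C : ℝ} (hC : 0 ≤ C)
    (h : ∀ k : ℕ, I m (a ^ 2 ^ k) ≤ C ^ 2 ^ k) (x : B.M) : a.1 x ≤ C := by
  refine le_of_forall_pos_le_add fun ε hε => ?_
  have := le_of_pow_integral B.μ (u := fun x => a.1 x ^ 2) (N := (C + ε) ^ 2) (C := 1)
    ((B.cont a).pow 2) (cont_rho m) (fun _ => sq_nonneg _) hm.rho_pos (by positivity)
    (fun k => by
      have h1 := h (k + 1)
      rw [I, integral_vol _ (B.cont _), pow_succ' 2 k, pow_mul, pow_mul] at h1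
      refine h1.trans ?_
      rw [mul_one]
      gcongr
      linarith) x
  exact (abs_le_of_sq_le_sq' this (by positivity)).2

theorem ToSF_gS {m : B.Me} (hm : Pos m) : Ge0 m.gS := hm.ip3_nonneg (m.d2 m.S)

theorem ToSF_H {m : B.Me} (hm : Pos m) : Ge0 (m.s1 ^ 2 * (m.gS - m.gam m.s1 m.s1) +
    2 * (m.s1 * m.gam m.s2 m.s1 - m.s2 * m.gam m.s1 m.s1)) := m.H_eq ▸ hm.ip3_nonneg _

theorem ToSF_cot {m : B.Me} (hm : Pos m) :
    0 ≤ I m (m.gS - m.gam m.s1 m.s1 + (2 * m.s1 ^ 3 - 7 * m.s1 * m.s2 + 9 * m.s3)) := by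
  obtain ⟨η, hη⟩ := m.cot_id hm.KN
  have h1 := congrArg (I m) hη
  rw [I_add, hm.I_div1, I_hf_mul] at h1
  have h2 : 0 ≤ I m m.cc := I_nonneg m (hm.ip3_nonneg _)
  linarith

theorem ToSF_bishop (hB : B.Good) {m : B.Me} (hm : Pos m) {k : ℝ} (hk : 0 < k)
    (h : ∀ x, 2 * k ≤ 4 / 3 * m.s1.1 x ∧
      2 / 3 * m.s1.1 x ^ 2 - 2 * m.s2.1 x ≤ (4 / 3 * m.s1.1 x - 2 * k) ^ 2) :
    I m 1 ^ 2 * k ^ 3 ≤ 4 * Real.pi ^ 4 := by
  have h1 := hB.bishop m hm k hk fun a x => by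
    obtain ⟨p, hp⟩ := hm.pt x
    obtain ⟨u, v, w, e1, e2, -, -, -, e6⟩ := p.eig
    have e : m.quad m.Ric a a = m.quad m.S a a + m.s1 * m.gam a a := by
      rw [m.Ric_eq, ← m.ip2_vec, m.ip2_add, m.ip2_smul, m.ip2_vec, m.ip2_vec, m.quad_G]
    obtain ⟨h2, h3⟩ := h x
    simp only [hp, ev_apply] at e1 e2 e6
    have key : ∀ y : ℝ, (y - m.s1.1 x / 3) ^ 2 ≤ 2 / 3 * m.s1.1 x ^ 2 - 2 * m.s2.1 x →
        2 * k - m.s1.1 x ≤ y := fun y hy => by
      have := (abs_le_of_sq_le_sq' (hy.trans h3) (by linarith)).1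
      linarith
    have h4 := e6 (2 * k - m.s1.1 x) 
      (key u (by rw [e1, e2]; nlinarith [sq_nonneg (v - w), sq_nonneg (2 * u - v - w)]))
      (key v (by rw [e1, e2]; nlinarith [sq_nonneg (u - w), sq_nonneg (2 * v - u - w)]))
      (key w (by rw [e1, e2]; nlinarith [sq_nonneg (u - v), sq_nonneg (2 * w - u - v)])) a
    rw [e]
    change _ ≤ (m.quad m.S a a).1 x + m.s1.1 x * (m.gam a a).1 x
    linarith
  have h2 : 0 < k ^ (3 / 2 : ℝ) := Real.rpow_pos_of_pos hk _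
  have h3 : (k ^ (3 / 2 : ℝ)) ^ 2 = k ^ 3 := by
    rw [← Real.rpow_natCast, ← Real.rpow_mul hk.le, ← Real.rpow_natCast]
    norm_num
  rw [le_div_iff₀ h2] at h1
  rw [I_one, ← h3, ← mul_pow, show 4 * Real.pi ^ 4 = (2 * Real.pi ^ 2) ^ 2 by ring]
  gcongr

variable {T : ℝ} [hT : Fact (0 < T)]

theorem ToSF_vl {u : B.AT T} {s : ℝ} {a : B.A} (h : (B.evT T (pj T s)).φ u = a) (x : B.M) :
    vl u s x = a.1 x := congrFun (congrArg Subtype.val h) x

theorem ToSF_forall {P : ℝ → Prop} {u : B.AT T} (h : ∀ t ∈ Icc 0 T, ∀ x, P (vl u t x))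
    (t : Icc (0 : ℝ) T) (x : B.M) : P ((u.1 t).1 x) := vl_coe u t x ▸ h t t.2 x

theorem ToSF_der (Φ : Flow B T) (u : B.AT T) : ∀ t ∈ Icc 0 T, HasDerivWithinAt (Φ.I u)
    (Φ.I (D u - Φ.m.lap u - 4 * Φ.m.s1 * u) t) (Icc 0 T) t := fun t ht => by
  refine (Φ.hd_I u t ht).congr_deriv ?_
  have e : D u + hf (B.AT T) * Φ.m.tr ((B.DT T).M Φ.m.G) * u =
      D u - Φ.m.lap u - 4 * Φ.m.s1 * u + Φ.m.lap u := by
    rw [(B.DT T).flow_tr Φ.eq]
    linear_combination (-4 * Φ.m.s1 * u) * two_hf (A := B.AT T)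
  have h0 : I (Φ.at t) ((Φ.m.lap u).1 (pj T t)) = 0 := by
    rw [← evT_φ, Hom.map_lap]
    exact (Φ.at_pos t).I_lap _
  rw [e]
  exact (I_add _ _ _).trans (by rw [h0, add_zero]; rfl)

/-- The scalar shadow of a flow. -/
noncomputable def Flow.toSF (hB : B.Good) (Φ : Flow B T) : SF B.M (B.AT T) T where
  ev t x := (B.ev x).comp (B.evT T (pj T t)).φ
  I t := ⟨⟨fun a => Φ.I a t, fun _ _ => I_add _ _ _⟩, fun _ _ => I_smul _ _ _⟩
  P := (B.DT T).heat Φ.m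
  Γ := Φ.m.gam
  τ := B.τ T
  s1 := Φ.m.s1
  s2 := Φ.m.s2
  s3 := Φ.m.s3
  G := Φ.m.gS
  Γ_comm := Φ.m.gam_comm
  Γ_add := Φ.m.gam_add
  Γ_smul := Φ.m.gam_rsmul
  Γ_mul := Φ.m.gam_mul
  Γ_τ := (Φ.m.ToSF_zero X_τ).2
  P_mul := (B.DT T).heat_mul Φ.m
  P_τ := Dt.heat_eq _ _ (by rw [(Φ.m.ToSF_zero X_τ).1, zero_add]; exact D_τ)
  P_s1 := Dt.heat_eq _ _ ((B.DT T).flow_s1 Φ.KN Φ.eq)
  P_s2 := Dt.heat_eq _ _ ((B.DT T).flow_s2 Φ.KN Φ.eq)
  ev_τ _ ht x := vl_τ ht x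
  Γ_nonneg a t _ x := ((Φ.at_pos t).gam_nonneg _ x).trans_eq (Φ.vl_gam a a t x).symm
  G_nonneg t _ x := (ToSF_gS (Φ.at_pos t) x).trans_eq (ToSF_vl (Hom.map_gS _ Φ.m) x).symm
  H_nonneg t _ x := by
    rw [AlgHom.comp_apply]
    simp only [map_add (B.evT T _).φ, map_sub (B.evT T _).φ, map_mul (B.evT T _).φ,
      map_pow (B.evT T _).φ, map_ofNat, Hom.map_gam, Hom.map_gS, Hom.map_s1, Hom.map_s2]
    exact ToSF_H (Φ.at_pos t) x
  inv3 t _ x := by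
    obtain ⟨p, hp⟩ := (Φ.at_pos t).pt x
    obtain ⟨u, v, w, e1, e2, e3, -⟩ := p.eig
    rw [hp] at e1 e2 e3
    simp only [AlgHom.comp_apply, Hom.map_s1, Hom.map_s2, Hom.map_s3]
    exact ⟨u, v, w, e1, e2, e3⟩
  inv _ h := AT_inv fun t x => (ToSF_forall (P := fun y => 0 < y) h t x).ne'
  sqrt _ h := by
    obtain ⟨b, hb, hb'⟩ := AT_sqrt (ToSF_forall (P := fun y => 0 < y) h)
    exact ⟨b, hb, fun t ht x => (Real.sqrt_pos.2 (h t ht x)).trans_eq (hb' _ x).symm⟩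
  bdd a := (AT_bdd a).imp fun _ h _ _ x => h.2 _ x
  I_nonneg _ _ _ h := I_nonneg _ h
  I_cont a := Φ.cont_I a
  I_der a t ht := (ToSF_der Φ a t (Ioo_subset_Icc_self ht)).hasDerivAt (Icc_mem_nhds ht.1 ht.2)
  sup _ t _ _ hC h := ToSF_sup (Φ.at_pos t) hC h
  mp a _ _ h₁ h0 h := Φ.mp a one_pos h₁.2 h0 fun t ht x _ => h t ht x
  cot t _ := by
    refine (ToSF_cot (Φ.at_pos t)).trans_eq (congrArg (I _) ?_)
    rw [← evT_φ]
    simp only [map_add, map_sub, map_mul, map_pow, map_ofNat, Hom.map_gam, Hom.map_gS, Hom.map_s1,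
      Hom.map_s2, Hom.map_s3, Fam.at]
  sob t _ h1 h2 a := by
    obtain ⟨C, -, hC⟩ := hB.univ
    have e2 : Φ.I Φ.m.s2 t = I (Φ.at t) (Φ.at t).s2 := congrArg (I _) (Hom.map_s2 (B.evT T _) Φ.m)
    change √(Φ.I Φ.m.s2 t) / 6 * _ ≤ _
    change 0 < Φ.I Φ.m.s2 t at h2
    rw [e2] at h2 ⊢
    refine ((hC _ (Φ.at_pos t) fun x => (h1 x).trans_eq (ToSF_vl (Hom.map_s1 (B.evT T _) Φ.m) x)).2 h2
      (a.1 (pj T t))).trans_eq (congrArg (I _) ?_)
    simp only [← evT_φ, map_add, map_mul, map_pow, map_ofNat, Hom.map_gam, Hom.map_s1, Fam.at]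
  bishop t _ k hk h := ToSF_bishop hB (Φ.at_pos t) hk fun x => by
    have := h x
    simp only [AlgHom.comp_apply, Hom.map_s1, Hom.map_s2] at this
    exact this

/-- The scalar shadow of a flow. -/
theorem Flow.exists_SF (hB : B.Good) {T : ℝ} [Fact (0 < T)] (Φ : Flow B T) :
    ∃ F : SF B.M (B.AT T) T, (∀ t x a, F.ev t x a = vl a t x) ∧ (∀ t a, F.I t a = Φ.I a t) ∧
      F.s1 = Φ.m.s1 ∧ F.s2 = Φ.m.s2 ∧ F.s3 = Φ.m.s3 ∧
      (∀ t x, vl Φ.m.s1 t x = (Φ.at t).s1.1 x) ∧ (∀ t x, vl Φ.m.s2 t x = (Φ.at t).s2.1 x) ∧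
      ∀ t x, vl Φ.m.p2 t x = (Φ.at t).p2.1 x :=
  ⟨Φ.toSF hB, fun _ _ _ => rfl, fun _ _ => rfl, rfl, rfl, rfl,
    fun _ => ToSF_vl (Hom.map_s1 (B.evT T _) Φ.m), fun _ => ToSF_vl (Hom.map_s2 (B.evT T _) Φ.m),
    fun _ => ToSF_vl (Hom.map_p2 (B.evT T _) Φ.m)⟩

end Base

end Pool.Agent.MP_9bd639_gt.H88

end

-- part Cons
section

/-! Propagation of the constraint: a solution of the parabolic system is a Ricci flow. -/

open Matrix MeasureTheory Filter Topology Set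
open scoped ContDiff

namespace Pool.Agent.MP_9bd639_gt.H88

set_option linter.unusedSectionVars false

section ConsAlg

variable {ι : Type} [Fintype ι] [DecidableEq ι] {A : Type} [CommRing A] [Algebra ℝ A]
  {F : Fr ι A} {W : Ideal A}

/-- The elements that lie in `W` together with their first derivatives. -/
def Cons_id (F : Fr ι A) (W : Ideal A) : Ideal A where
  carrier := {a | a ∈ W ∧ ∀ i, F.X i a ∈ W}
  add_mem' ha hb := ⟨W.add_mem ha.1 hb.1, fun i => by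
    rw [map_add]; exact W.add_mem (ha.2 i) (hb.2 i)⟩
  zero_mem' := ⟨W.zero_mem, fun i => by rw [map_zero]; exact W.zero_mem⟩
  smul_mem' c a ha := ⟨W.mul_mem_left c ha.1, fun i => by
    rw [smul_eq_mul, F.X_mul]
    exact W.add_mem (W.mul_mem_left _ ha.1) (W.mul_mem_left _ (ha.2 i))⟩

theorem Cons_mulL (U : Matrix ι ι A) {T : Matrix ι ι A} (h : ∀ i j, T i j ∈ W) (i j : ι) :
    (U * T) i j ∈ W := W.sum_mem fun l _ => W.mul_mem_left _ (h l j)

theorem Cons_mulR (U : Matrix ι ι A) {T : Matrix ι ι A} (h : ∀ i j, T i j ∈ W) (i j : ι) :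
    (T * U) i j ∈ W := W.sum_mem fun l _ => W.mul_mem_right _ (h i l)

variable (m : Met F)

theorem Cons_tr {T : Matrix ι ι A} (h : ∀ i j, T i j ∈ W) : m.tr T ∈ W :=
  W.sum_mem fun i _ => Cons_mulL m.γ h i i

theorem Cons_ip2 {T : Matrix ι ι A} (h : ∀ i j, T i j ∈ W) (U : Matrix ι ι A) : m.ip2 T U ∈ W :=
  W.sum_mem fun i _ => Cons_mulR _ (Cons_mulR _ (Cons_mulL _ h)) i i

theorem Cons_c1 {η : ι → A} (h : ∀ i, η i ∈ Cons_id F W) (i j : ι) : m.c1 i η j ∈ W :=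
  W.sub_mem ((h j).2 i) (W.sum_mem fun l _ => W.mul_mem_left _ (h l).1)

theorem Cons_c2 {T : Matrix ι ι A} (h : ∀ i j, T i j ∈ Cons_id F W) (i j k : ι) :
    m.c2 i T j k ∈ W :=
  W.sub_mem (W.sub_mem ((h j k).2 i) (Cons_mulL _ (fun a b => (h a b).1) j k))
    (Cons_mulR _ (fun a b => (h a b).1) j k)

theorem Cons_div2 (T : Matrix ι ι A) (k : ι) :
    m.div2 T k = ∑ i, ∑ j, m.γ i j * m.c2 i T j k := by
  simp only [Met.div2, Met.trV, Finset.sum_apply, Pi.smul_apply, smul_eq_mul]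

theorem Cons_bia {T : Matrix ι ι A} (h : ∀ i j, T i j ∈ Cons_id F W) (k : ι) : m.bia T k ∈ W := by
  rw [Met.bia, Pi.sub_apply, Cons_div2]
  exact W.sub_mem (W.sum_mem fun i _ => W.sum_mem fun j _ => W.mul_mem_left _ (Cons_c2 m h i j k))
    ((Cons_tr m h).2 k)

theorem Cons_lap1 {η : ι → A} (h : ∀ i, η i ∈ Cons_id F W) (k : ι) :
    m.lap1 η k - m.lap (η k) ∈ W := by
  rw [Met.lap, m.tr_eq, Met.lap1, Met.lapV, Met.trV]
  simp only [Finset.sum_apply, Pi.smul_apply, smul_eq_mul, ← Finset.sum_sub_distrib, ← mul_sub]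
  refine W.sum_mem fun i _ => W.sum_mem fun j _ => W.mul_mem_left _ ?_
  have e : covPi m.Γ m.c1 i (fun j => m.c1 j η) j k - m.hess (η k) i j =
      ∑ l, m.Γ i j l * F.X l (η k) - F.X i (∑ n, m.Γ j k n * η n) -
        ∑ n, m.Γ i k n * m.c1 j η n - ∑ l, m.Γ i j l * m.c1 l η k := by
    rw [m.hess_apply, covPi, Pi.sub_apply, Finset.sum_apply]
    change F.X i (F.X j (η k) - ∑ n, m.Γ j k n * η n) - ∑ n, m.Γ i k n * m.c1 j η n -
      ∑ l, m.Γ i j l * m.c1 l η k - _ = _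
    rw [map_sub]
    ring
  rw [e]
  exact W.sub_mem (W.sub_mem (W.sub_mem (W.sum_mem fun l _ => W.mul_mem_left _ ((h k).2 l))
    (((Cons_id F W).sum_mem fun n _ => (Cons_id F W).mul_mem_left _ (h n)).2 i))
    (W.sum_mem fun n _ => W.mul_mem_left _ (Cons_c1 m h j n)))
    (W.sum_mem fun l _ => W.mul_mem_left _ (Cons_c1 m h l k))

theorem Cons_bia_add (T U : Matrix ι ι A) : m.bia (T + U) = m.bia T + m.bia U := by
  ext k
  simp only [Met.bia, m.div2_add, m.tr_add, Pi.add_apply, Pi.sub_apply, Fr.d0, map_add]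
  ring

theorem Cons_bia_sub (T U : Matrix ι ι A) : m.bia (T - U) = m.bia T - m.bia U := by
  rw [eq_sub_iff_add_eq, ← Cons_bia_add, sub_add_cancel]

theorem Cons_bia_d1 {η : ι → A} (h : F.π *ᵥ η = η) :
    m.bia (m.d1 η + (m.d1 η)ᵀ - (hf A * m.div1 η) • m.G) = m.lap1 η + m.Ric *ᵥ (m.γ *ᵥ η) := by
  rw [Met.bia, m.div2_sub, m.div2_add, m.div2_d1, m.div2_d1T h, m.div2_smul_G, m.tr_sub, m.tr_add,
    m.tr_transpose, m.tr_smul, m.tr_G, ← Met.div1]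
  ext k
  simp only [Pi.add_apply, Pi.sub_apply, Fr.d0, map_add, map_sub, F.X_mul, F.X_hf, F.X_ofNat]
  linear_combination F.X k (m.div1 η) * two_hf (A := A)

/-- The zero order part of the evolution of the constraint. -/
noncomputable def Cons_N (U Z : Matrix ι ι A) : Matrix ι ι A :=
  (-3 : A) • (Z * m.γ * U + U * m.γ * Z) + (2 * m.tr U) • Z +
    (hf A * (3 * m.ip2 Z U - m.tr Z * m.tr U)) • m.G

theorem Cons_N_mem (U : Matrix ι ι A) {Z : Matrix ι ι A} (h : ∀ i j, Z i j ∈ W) (j k : ι) :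
    Cons_N m U Z j k ∈ W :=
  W.add_mem (W.add_mem (W.mul_mem_left _ (W.add_mem (Cons_mulR _ (Cons_mulR _ h) j k)
    (Cons_mulL _ h j k))) (W.mul_mem_left _ (h j k)))
    (W.mul_mem_right _ (W.mul_mem_left _ (W.sub_mem (W.mul_mem_left _ (Cons_ip2 m h U))
      (W.mul_mem_right _ (Cons_tr m h)))))

theorem Cons_D_bia (d : Dt F) {Z : Matrix ι ι A} (h : ∀ i j, Z i j ∈ Cons_id F W) (k : ι) :
    d.D (m.bia Z k) - m.bia (d.M Z) k ∈ W := by
  have e : d.D (m.bia Z k) - m.bia (d.M Z) k = ∑ i, ∑ j, (d.D (m.γ i j) * m.c2 i Z j k -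
      m.γ i j * (m.adot (d.M m.G) i * Z + Z * (m.adot (d.M m.G) i)ᵀ) j k) +
      F.X k (m.ip2 Z (d.M m.G)) := by
    simp only [Met.bia, Pi.sub_apply, Cons_div2, Fr.d0, map_sub, map_sum, d.D_mul, d.comm, d.D_tr,
      ← d.M_apply (m.c2 _ Z), d.M_c2, Matrix.sub_apply, mul_sub, Finset.sum_add_distrib,
      Finset.sum_sub_distrib]
    ring
  have h0 : ∀ i j, Z i j ∈ W := fun i j => (h i j).1
  rw [e]
  exact W.add_mem (W.sum_mem fun i _ => W.sum_mem fun j _ => W.sub_mem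
    (W.mul_mem_left _ (Cons_c2 m h i j k))
    (W.mul_mem_left _ (W.add_mem (Cons_mulL _ h0 j k) (Cons_mulR _ h0 j k)))) ((Cons_ip2 m h _).2 k)

theorem Cons_De (d : Dt F) {κ κ' : Type} [Fintype κ] [Fintype κ'] (Z : κ → A) (b l : κ' → A)
    (r : A) : d.D (∑ a, Z a * Z a + ∑ k, b k * b k) + r = 1 * (2 * (∑ a, Z a * d.D (Z a) +
      ∑ k, b k * (d.D (b k) - l k)) + r) + (2 : ℝ) • ∑ k, b k * l k := by
  simp only [map_add, map_sum, d.D_mul, two_smul, mul_comm (d.D _), Finset.sum_add_distrib,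
    mul_sub, Finset.sum_sub_distrib]
  ring

variable {m} (d : Dt F) (hK : m.KN) {U : Matrix ι ι A} (hU : F.ST U) (hG : d.M m.G = m.kf U)
  (hD : d.M U = m.lap2 U + m.Qf U)
include hK hU hG hD

theorem Cons_DZ : d.M (U - m.S) = m.d1 (m.bia (U - m.S)) + (m.d1 (m.bia (U - m.S)))ᵀ -
    (hf A * m.div1 (m.bia (U - m.S))) • m.G + Cons_N m U (U - m.S) := by
  rw [Cons_bia_sub, m.bia_S, sub_zero, d.M_sub, d.M_S m hK, hG, hD, m.varS_kf hU, m.alg_kf hU,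
    Cons_N, Met.Qf, m.ip2_sub, m.tr_sub, m.tr_S]
  simp only [Matrix.sub_mul, Matrix.mul_sub]
  ext j k
  simp only [Matrix.sub_apply, Matrix.add_apply, Matrix.smul_apply, smul_eq_mul]
  ring

theorem Cons_DZ_mem (h0 : ∀ i j, (U - m.S) i j ∈ W) (h1 : ∀ i, m.bia (U - m.S) i ∈ Cons_id F W)
    (j k : ι) : d.D ((U - m.S) j k) ∈ W := by
  have h2 : ∀ i j, m.d1 (m.bia (U - m.S)) i j ∈ W := Cons_c1 m h1
  rw [← d.M_apply, Cons_DZ d hK hU hG hD]
  exact W.add_mem (W.sub_mem (W.add_mem (h2 j k) (h2 k j))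
    (W.mul_mem_right _ (W.mul_mem_left _ (Cons_tr m h2)))) (Cons_N_mem m U h0 j k)

theorem Cons_Db_mem (h0 : ∀ i j, (U - m.S) i j ∈ Cons_id F W)
    (h1 : ∀ i, m.bia (U - m.S) i ∈ Cons_id F W) (k : ι) :
    d.D (m.bia (U - m.S) k) - m.lap (m.bia (U - m.S) k) ∈ W := by
  have ht : F.π *ᵥ m.bia (U - m.S) = m.bia (U - m.S) := by
    rw [Met.bia, mulVec_sub, m.div2_tan (Fr.ST.sub F hU m.ST_S), F.π_d0]
  have h2 := Cons_D_bia m d h0 k
  rw [Cons_DZ d hK hU hG hD, Cons_bia_add, Cons_bia_d1 m ht] at h2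
  have h3 := Cons_lap1 m h1 k
  have h4 := Cons_bia m (Cons_N_mem m U h0) k
  have h5 : (m.Ric *ᵥ (m.γ *ᵥ m.bia (U - m.S))) k ∈ W := W.sum_mem fun i _ =>
    W.mul_mem_left _ (W.sum_mem fun j _ => W.mul_mem_left _ (h1 j).1)
  convert W.add_mem (W.add_mem h2 h3) (W.add_mem h4 h5) using 1
  simp only [Pi.add_apply]
  ring

end ConsAlg

namespace Base

variable {B : Base} {T : ℝ} [hT : Fact (0 < T)]

/-- The value at a time and a point. -/
noncomputable def Cons_ev (t : ℝ) (x : B.M) : B.AT T →ₐ[ℝ] ℝ :=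
  (B.ev x).comp (B.evT T (pj T t)).φ

/-- The integral at a time. -/
noncomputable def Cons_L (Φ : Fam B T) (t : ℝ) : B.AT T →ₗ[ℝ] ℝ where
  toFun u := Φ.I u t
  map_add' _ _ := I_add _ _ _
  map_smul' r _ := I_smul _ r _

theorem Cons_mono (Φ : Fam B T) (t : ℝ) {u v : B.AT T}
    (h : ∀ x, Cons_ev t x u ≤ Cons_ev t x v) : Cons_L Φ t u ≤ Cons_L Φ t v := I_mono _ h

theorem Cons_bdd (u : B.AT T) : ∃ C, 0 < C ∧ ∀ t x, |Cons_ev t x u| ≤ C := by
  obtain ⟨C, hC⟩ := isCompact_univ.exists_bound_of_continuousOn (u.2 0).c0.cont.continuousOn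
  exact ⟨|C| + 1, by positivity, fun t x =>
    (hC (pj T t, x) (mem_univ _)).trans ((le_abs_self C).trans (le_add_of_nonneg_right zero_le_one))⟩

theorem Cons_der (Φ : Fam B T) : ∃ θ : B.AT T, ∀ u : B.AT T, ∀ t ∈ Icc 0 T,
    HasDerivWithinAt (fun s => Cons_L Φ s u) (Cons_L Φ t (D u + θ * u)) (Icc 0 T) t := by
  have hd : ∀ t x, (Φ.m.ext.det.1 t).1 x = (Φ.m.map (B.evT T t)).ext.det.1 x := fun t x =>
    congrArg (fun a : B.A => a.1 x) ((B.evT T t).map_det Φ.m)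
  have hp : ∀ t x, 0 < (Φ.m.ext.det.1 t).1 x := fun t x => by
    rw [hd]; exact Real.sqrt_pos.1 ((Φ.pos t).rho_pos x)
  obtain ⟨r, hr⟩ := IsC.ex (Φ := Real.sqrt) (u := Φ.m.ext.det.1)
    fun t x => Real.contDiffAt_sqrt (hp t x).ne'
  have hr0 : ∀ t x, (r t).1 x ≠ 0 := fun t x => by
    rw [(hr t x).2]; exact (Real.sqrt_pos.2 (hp t x)).ne'
  obtain ⟨r', hr'⟩ := IsC.ex (Φ := fun y : ℝ => y⁻¹) (u := r) fun t x => contDiffAt_inv ℝ (hr0 t x)
  let ρ : B.AT T := ⟨r, fun k => (Φ.m.ext.det.2 k).comp hr⟩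
  let ρ' : B.AT T := ⟨r', fun k => (ρ.2 k).comp hr'⟩
  have h1 : ρ' * ρ = 1 := by
    ext t x
    change (r' t).1 x * (r t).1 x = 1
    rw [(hr' t x).2, inv_mul_cancel₀ (hr0 t x)]
  have h2 : ∀ (u : B.AT T) s, Cons_L Φ s u = ∫ x, ((u * ρ).1 (pj T s)).1 x ∂B.μ := fun u s => by
    change I _ _ = _
    rw [I, integral_vol _ (B.cont _)]
    refine integral_congr_ae (Eventually.of_forall fun x => ?_)
    change _ * Real.sqrt _ = _ * (r (pj T s)).1 x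
    rw [(hr _ x).2, hd]
    rfl
  refine ⟨D ρ * ρ', fun u t ht => ?_⟩
  have h3 : (D u + D ρ * ρ' * u) * ρ = D (u * ρ) := by
    rw [D, D, D, (B.DT T).D_mul]
    linear_combination (B.DT T).D ρ * u * h1
  have h4 : TD (u * ρ).1 (D (u * ρ)).1 := (AT_deriv (u * ρ)).choose_spec
  simp only [h2, h3]
  refine hdw_integral B.μ (u' := fun s x => ((D (u * ρ)).1 (pj T s)).1 x) (fun s _ => B.cont _)
    ?_ (fun x s hs => ?_) t ht
  · simp only [pj_coe]
    exact h4.2.1.cont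
  · rw [pj_of_mem hs]
    exact h4.2.2 [] ⟨s, hs⟩ x

theorem Cons_X (Φ : Fam B T) (i : Fin B.N) (t : ℝ) (u : B.AT T) :
    Cons_L Φ t ((B.FT T).X i u) = -Cons_L Φ t (Φ.m.div1 (Φ.m.G i) * u) := by
  have e : ∀ {A : Type} [CommRing A] [Algebra ℝ A] {F : Fr (Fin B.N) A} (m : Met F) (a : A),
      m.div1 (a • m.G i) = F.X i a + m.div1 (m.G i) * a := fun {A} _ _ F m a => by
    rw [m.div1_smul, m.ip1_comm, Met.ip1, dotProduct_mulVec, F.X_tan i, add_comm, mul_comm a]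
    congr 1
    change ∑ j, (m.G * m.γ) i j * F.X j a = _
    rw [m.Gγ]
  rw [eq_neg_iff_add_eq_zero, ← map_add, ← e]
  change I _ ((B.evT T (pj T t)).φ (Φ.m.tr _)) = 0
  rw [Hom.map_tr, Hom.map_d1]
  exact (Φ.pos _).I_div1 _

theorem Cons_ibp (Φ : Fam B T) (t : ℝ) (u : B.AT T) :
    Cons_L Φ t (u * Φ.m.lap u) = -Cons_L Φ t (Φ.m.gam u u) := by
  change I _ ((B.evT T (pj T t)).φ (u * Φ.m.lap u)) = -I _ ((B.evT T (pj T t)).φ (Φ.m.gam u u))
  rw [map_mul, Hom.map_lap, Hom.map_gam]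
  exact (Φ.pos _).ibp _ _

theorem Cons_gam (Φ : Fam B T) (t : ℝ) (x : B.M) (u : B.AT T) (i : Fin B.N) :
    0 ≤ Cons_ev t x (Φ.m.gam u u) ∧ Cons_ev t x ((B.FT T).X i u) ^ 2 ≤
      Cons_ev t x (Φ.m.G i i) * Cons_ev t x (Φ.m.gam u u) := by
  obtain ⟨p, hp⟩ := (Φ.pos (pj T t)).pt x
  have h1 := p.ip1_nonneg (B.F.d0 (u.1 (pj T t)))
  have h2 := p.entry1_sq_le (B.F.π_d0 (u.1 (pj T t))) i
  have e : Cons_ev t x (Φ.m.gam u u) = B.ev x ((Φ.m.map (B.evT T (pj T t))).gam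
      (u.1 (pj T t)) (u.1 (pj T t))) := congrArg (B.ev x) ((B.evT T _).map_gam Φ.m u u)
  rw [hp] at h1 h2
  rw [e]
  exact ⟨h1, h2⟩

/-- Terms that are small compared with `g` up to a multiple of `e`. -/
def Cons_Q (Φ : Fam B T) {g : B.AT T} (hg : ∀ t, 0 ≤ Cons_L Φ t g) (e : B.AT T) :
    Ideal (B.AT T) where
  carrier := {q | ∀ c : B.AT T, ∀ ε : ℝ, 0 < ε → ∃ C : ℝ, ∀ t,
    Cons_L Φ t (c * q) ≤ ε * Cons_L Φ t g + C * Cons_L Φ t e}
  add_mem' ha hb c ε hε := by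
    obtain ⟨C, h⟩ := ha c _ (half_pos hε)
    obtain ⟨C', h'⟩ := hb c _ (half_pos hε)
    refine ⟨C + C', fun t => ?_⟩
    rw [mul_add, map_add]
    linarith [h t, h' t]
  zero_mem' c ε hε := ⟨0, fun t => by
    rw [mul_zero, map_zero, zero_mul, add_zero]; exact mul_nonneg hε.le (hg t)⟩
  smul_mem' a q h c ε hε := by
    rw [smul_eq_mul, ← mul_assoc]; exact h _ ε hε

theorem Cons_energy (Φ : Fam B T) {κ κ' : Type} [Fintype κ] [Fintype κ'] (Z : κ → B.AT T)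
    (b : κ' → B.AT T)
    (hZ : ∀ W : Ideal (B.AT T), (∀ a, Z a ∈ W) → (∀ k, b k ∈ Cons_id (B.FT T) W) →
      ∀ a, D (Z a) ∈ W)
    (hb : ∀ W : Ideal (B.AT T), (∀ a, Z a ∈ Cons_id (B.FT T) W) →
      (∀ k, b k ∈ Cons_id (B.FT T) W) → ∀ k, D (b k) - Φ.m.lap (b k) ∈ W)
    (Z0 : ∀ a x, Cons_ev 0 x (Z a) = 0) (b0 : ∀ k x, Cons_ev 0 x (b k) = 0) (a : κ) :
    Z a = 0 := by
  rcases isEmpty_or_nonempty (Fin B.N) with hN | ⟨⟨i0⟩⟩
  · obtain ⟨x⟩ := B.nonempty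
    have := congrArg (B.ev x) B.F.tr3
    rw [Fintype.sum_empty, map_zero, map_ofNat] at this
    norm_num at this
  set e := ∑ a, Z a * Z a + ∑ k, b k * b k with he
  set g := ∑ k, Φ.m.gam (b k) (b k) with hg
  have e1 : ∀ t x, Cons_ev t x e = ∑ a, Cons_ev t x (Z a) ^ 2 + ∑ k, Cons_ev t x (b k) ^ 2 :=
    fun t x => by simp only [he, map_add, map_sum, map_mul, sq]
  have e0 : ∀ t x, 0 ≤ Cons_ev t x e := fun t x => by rw [e1]; positivity
  have eZ : ∀ a t x, Cons_ev t x (Z a) ^ 2 ≤ Cons_ev t x e := fun a t x => by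
    rw [e1]
    exact (Finset.single_le_sum (f := fun a => Cons_ev t x (Z a) ^ 2) (fun _ _ => sq_nonneg _)
      (Finset.mem_univ a)).trans (le_add_of_nonneg_right (by positivity))
  have eb : ∀ k t x, Cons_ev t x (b k) ^ 2 ≤ Cons_ev t x e := fun k t x => by
    rw [e1]
    exact (Finset.single_le_sum (f := fun k => Cons_ev t x (b k) ^ 2) (fun _ _ => sq_nonneg _)
      (Finset.mem_univ k)).trans (le_add_of_nonneg_left (by positivity))
  have gk : ∀ k t x, Cons_ev t x (Φ.m.gam (b k) (b k)) ≤ Cons_ev t x g := fun k t x => by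
    rw [hg, map_sum]
    exact Finset.single_le_sum (f := fun k => Cons_ev t x (Φ.m.gam (b k) (b k)))
      (fun k _ => (Cons_gam Φ t x _ i0).1) (Finset.mem_univ k)
  have g0 : ∀ t x, 0 ≤ Cons_ev t x g := fun t x => by
    rw [hg, map_sum]
    exact Finset.sum_nonneg fun k _ => (Cons_gam Φ t x _ i0).1
  have g1 : ∀ t, 0 ≤ Cons_L Φ t g := fun t => I_nonneg _ (g0 t)
  set Q := Cons_Q Φ g1 e with hQ
  have k1 : ∀ {v w : B.AT T} {K : ℝ}, 0 < K → (∀ t x, Cons_ev t x v ^ 2 ≤ Cons_ev t x e) →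
      (∀ t x, Cons_ev t x w ^ 2 ≤ K * (Cons_ev t x g + Cons_ev t x e)) → v * w ∈ Q := by
    intro v w K hK hv hw c ε hε
    obtain ⟨C, -, hC⟩ := Cons_bdd c
    refine ⟨ε + K / ε * C ^ 2, fun t => ?_⟩
    rw [← smul_eq_mul ε, ← smul_eq_mul (ε + _), ← map_smul, ← map_smul, ← map_add]
    refine Cons_mono Φ t fun x => ?_
    simp only [map_add, map_mul, map_smul, smul_eq_mul]
    have h1 : Cons_ev t x c ^ 2 ≤ C ^ 2 := sq_le_sq' (abs_le.1 (hC t x)).1 (abs_le.1 (hC t x)).2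
    have h2 : (Cons_ev t x c * Cons_ev t x v) ^ 2 ≤ C ^ 2 * Cons_ev t x e := by
      rw [mul_pow]; exact mul_le_mul h1 (hv t x) (sq_nonneg _) (sq_nonneg _)
    have h3 := mul_le_mul_of_nonneg_left h2 (div_pos hK hε).le
    have h4 := mul_le_mul_of_nonneg_left (hw t x) (div_pos hε hK).le
    have h5 : ε / K * (K * (Cons_ev t x g + Cons_ev t x e)) =
        ε * Cons_ev t x g + ε * Cons_ev t x e := by field_simp
    have h6 : Cons_ev t x c * (Cons_ev t x v * Cons_ev t x w) ≤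
        K / ε * (Cons_ev t x c * Cons_ev t x v) ^ 2 + ε / K * Cons_ev t x w ^ 2 := by
      have h7 : K / ε * (ε / K) = 1 := by field_simp
      have h8 := div_pos hK hε
      have h9 := div_pos hε hK
      generalize K / ε = α at *
      generalize ε / K = β at *
      rw [← mul_assoc]
      generalize Cons_ev t x c * Cons_ev t x v = y
      generalize Cons_ev t x w = z
      have := mul_nonneg h9.le (sq_nonneg (α * y - z))
      have h10 := mul_nonneg h8.le (sq_nonneg y)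
      have h11 := mul_nonneg h9.le (sq_nonneg z)
      have h12 : β * (α * y - z) ^ 2 = α * y ^ 2 - 2 * (y * z) + β * z ^ 2 := by
        linear_combination (α * y ^ 2 - 2 * y * z) * h7
      linarith
    linarith
  have k0 : ∀ {v w : B.AT T}, (∀ t x, Cons_ev t x v ^ 2 ≤ Cons_ev t x e) →
      (∀ t x, Cons_ev t x w ^ 2 ≤ Cons_ev t x e) → v * w ∈ Q := fun hv hw =>
    k1 one_pos hv fun t x => by linarith [hw t x, g0 t x]
  have k2 : ∀ {v : B.AT T}, (∀ t x, Cons_ev t x v ^ 2 ≤ Cons_ev t x e) → ∀ k i,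
      v * (B.FT T).X i (b k) ∈ Q := fun hv k i => by
    obtain ⟨K, hK, h⟩ := Cons_bdd (Φ.m.G i i)
    refine k1 hK hv fun t x => (Cons_gam Φ t x _ i).2.trans ?_
    exact mul_le_mul (abs_le.1 (h t x)).2 ((gk k t x).trans (le_add_of_nonneg_right (e0 t x)))
      (Cons_gam Φ t x _ i).1 hK.le
  have k3 : ∀ k a i, b k * (B.FT T).X i (Z a) ∈ Q := fun k a i c ε hε => by
    obtain ⟨C, h⟩ := Q.add_mem
      (Q.mul_mem_left (-(Φ.m.div1 (Φ.m.G i) * c + (B.FT T).X i c)) (k0 (eZ a) (eb k)))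
      (Q.mul_mem_left (-c) (k2 (eZ a) k i)) 1 ε hε
    refine ⟨C, fun t => le_of_eq_of_le ?_ (h t)⟩
    have := Cons_X Φ i t (c * (b k * Z a))
    rw [eq_neg_iff_add_eq_zero, ← map_add] at this
    rw [← sub_eq_zero, ← map_sub]
    refine Eq.trans (congrArg _ ?_) this
    simp only [Fr.X_mul]
    ring
  obtain ⟨θ, hθ⟩ := Cons_der Φ
  have hq : 2 * (∑ a, Z a * D (Z a) + ∑ k, b k * (D (b k) - Φ.m.lap (b k))) + θ * e ∈ Q := by
    refine Q.add_mem (Q.mul_mem_left _ (Q.add_mem (Q.sum_mem fun a _ => ?_)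
      (Q.sum_mem fun k _ => ?_))) (Q.mul_mem_left _ (Q.add_mem
        (Q.sum_mem fun a _ => k0 (eZ a) (eZ a)) (Q.sum_mem fun k _ => k0 (eb k) (eb k))))
    · exact hZ (Submodule.comap (LinearMap.mulLeft (B.AT T) (Z a)) Q) (fun a' => k0 (eZ a) (eZ a'))
        (fun k => ⟨k0 (eZ a) (eb k), k2 (eZ a) k⟩) a
    · exact hb (Submodule.comap (LinearMap.mulLeft (B.AT T) (b k)) Q) (fun a => ⟨k0 (eb k) (eZ a), k3 k a⟩)
        (fun k' => ⟨k0 (eb k) (eb k'), k2 (eb k) k'⟩) k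
  obtain ⟨C, hC⟩ := hq 1 2 two_pos
  have hy : ∀ t ∈ Icc 0 T, Cons_L Φ t e ≤ 0 := by
    refine gronwall_zero (C := C) (hθ e) (fun t _ => ?_) ?_
    · have h1 : D e + θ * e = 1 * (2 * (∑ a, Z a * D (Z a) +
          ∑ k, b k * (D (b k) - Φ.m.lap (b k))) + θ * e) + (2 : ℝ) • ∑ k, b k * Φ.m.lap (b k) :=
        Cons_De (B.DT T) Z b _ _
      have h2 : Cons_L Φ t (∑ k, b k * Φ.m.lap (b k)) = -Cons_L Φ t g := by
        simp only [hg, map_sum, Cons_ibp, Finset.sum_neg_distrib]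
      rw [h1, map_add, map_smul, h2, smul_eq_mul]
      linarith [hC t]
    · refine (Cons_mono Φ 0 fun x => ?_).trans_eq (map_zero _)
      simp [e1, Z0, b0]
  ext t x
  have h1 := (Φ.pos (pj T t)).eq_zero (a := e.1 (pj T t)) (e0 t) (hy t t.2)
  have h2 := eZ a t x
  rw [show Cons_ev t x e = 0 from congrArg (B.ev x) h1 |>.trans (map_zero _)] at h2
  have h3 : Cons_ev t x (Z a) = 0 := pow_eq_zero_iff two_ne_zero |>.1 (h2.antisymm (sq_nonneg _))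
  rw [← pj_coe t]
  exact h3

/-- A solution of the parabolic system that starts at the Schouten tensor is the Schouten
tensor. -/
theorem Fam.constraint (Φ : Fam B T) (U : Matrix (Fin B.N) (Fin B.N) (B.AT T))
    (hU : (B.FT T).ST U) (hG : (B.DT T).M Φ.m.G = Φ.m.kf U)
    (hD : (B.DT T).M U = Φ.m.lap2 U + Φ.m.Qf U)
    (h0 : U.map (B.evT T (pj T 0)).φ = (Φ.at 0).S) : U = Φ.m.S := by
  have hK : Φ.m.KN := Φ.m.KN_of_hom (B.evT T) (fun a h => Subtype.ext (funext h))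
    fun t => (Φ.pos t).KN
  have h1 : ∀ i j, (B.evT T (pj T 0)).φ ((U - Φ.m.S) i j) = 0 := fun i j => by
    have := (B.evT T (pj T 0)).A4_sub U Φ.m.S
    rw [h0, Hom.map_S, Fam.at, sub_self] at this
    exact congrFun (congrFun this i) j
  have h2 : ∀ k, (B.evT T (pj T 0)).φ (Φ.m.bia (U - Φ.m.S) k) = 0 :=
    Cons_bia (W := RingHom.ker (B.evT T (pj T 0)).φ) Φ.m fun i j => ⟨h1 i j, fun l => by
      rw [RingHom.mem_ker, Hom.comm, h1, map_zero]⟩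
  rw [← sub_eq_zero]
  ext i j : 1
  exact Cons_energy Φ (fun p : Fin B.N × Fin B.N => (U - Φ.m.S) p.1 p.2) (Φ.m.bia (U - Φ.m.S))
    (fun W hZ hb p => Cons_DZ_mem (B.DT T) hK hU hG hD (fun i j => hZ (i, j)) hb p.1 p.2)
    (fun W hZ hb => Cons_Db_mem (B.DT T) hK hU hG hD (fun i j => hZ (i, j)) hb)
    (fun p x => (congrArg (B.ev x) (h1 p.1 p.2)).trans (map_zero _))
    (fun k x => (congrArg (B.ev x) (h2 k)).trans (map_zero _)) (i, j)

end Base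

end Pool.Agent.MP_9bd639_gt.H88

end
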