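import Pool.Agent.MP_9bd639_gt.G.Rf2
import Pool.Agent.MP_9bd639_gt.G.Cf2
import Pool.Agent.MP_9bd639_gt.G.Tim
import Pool.Agent.MP_9bd639_gt.G.Scal
import Pool.Agent.MP_9bd639_gt.G.Good

-- part Main
section

/-! The two flows put together. -/

open Matrix MeasureTheory Filter Topology Set

namespace Pool.Agent.MP_9bd639_gt.H88

namespace Base

variable {B : Base}

section

variable {T : ℝ} [Fact (0 < T)]

/-- `F` is the scalar shadow of the flow `Φ`. -/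
structure Main_Sh (Φ : Flow B T) (F : SF B.M (B.AT T) T) : Prop where
  s1 : ∀ t x, F.ev t x F.s1 = (Φ.at t).s1.1 x
  s2 : ∀ t x, F.ev t x F.s2 = (Φ.at t).s2.1 x
  f : ∀ t x, F.ev t x F.f = (Φ.at t).p2.1 x + 1
  I : ∀ t a, F.I t a = ∫ x, F.ev t x a ∂vol (Φ.at t)
  cont : ∀ t a, Continuous fun x => F.ev t x a

theorem Main_sh (hB : B.Good) (Φ : Flow B T) : ∃ F, Main_Sh Φ F := by
  obtain ⟨F, h1, h2, h3, h4, -, h6, h7, -⟩ := Φ.exists_SF hB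
  have e1 : ∀ t x, F.ev t x F.s1 = (Φ.at t).s1.1 x := fun t x => by rw [h1, h3, h6]
  have e2 : ∀ t x, F.ev t x F.s2 = (Φ.at t).s2.1 x := fun t x => by rw [h1, h4, h7]
  refine ⟨F, e1, e2, fun t x => ?_, fun t a => ?_, fun t a => ?_⟩
  · have := congrArg (B.ev x) (Φ.at t).p2_eq
    simp only [map_sub, map_mul, map_pow, map_ofNat, ev_apply] at this
    simp only [SF.f, map_add, map_sub, map_mul, map_pow, map_ofNat, map_one, e1, e2, this]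
  · simp only [h1, h2]
    rfl
  · simp only [h1]
    exact B.cont _

variable {Φ : Flow B T} {F : SF B.M (B.AT T) T}

theorem Main_Sh.I1 (h : Main_Sh Φ F) (t : ℝ) : F.I t F.s1 = Base.I (Φ.at t) (Φ.at t).s1 := by
  simp only [h.I, h.s1]
  rfl

theorem Main_Sh.I2 (h : Main_Sh Φ F) (t : ℝ) : F.I t F.s2 = Base.I (Φ.at t) (Φ.at t).s2 := by
  simp only [h.I, h.s2]
  rfl

theorem Main_Sh.I_le (h : Main_Sh Φ F) {t : ℝ} {a : B.AT T} {g : B.M → ℝ} (hg : Continuous g)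
    (ha : ∀ x, F.ev t x a ≤ g x) : F.I t a ≤ ∫ x, g x ∂vol (Φ.at t) := by
  rw [h.I]
  exact integral_mono (B.intg (h.cont t a) _) (B.intg hg _) ha

theorem Main_cube (p : ℝ) : √(p + 1) ^ 3 ≤ 4 * √p ^ 3 + 4 := by
  have h0 := Real.sqrt_nonneg p
  have h1 : √(p + 1) ≤ √p + 1 := by
    refine Real.sqrt_le_iff.2 ⟨by positivity, ?_⟩
    have : p ≤ √p ^ 2 := by
      rcases le_total 0 p with h | h
      · exact (Real.sq_sqrt h).ge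
      · exact h.trans (sq_nonneg _)
    nlinarith
  refine (pow_le_pow_left₀ (Real.sqrt_nonneg _) h1 3).trans ?_
  nlinarith [mul_nonneg (add_nonneg h0 zero_le_one) (sq_nonneg (√p - 1))]

theorem Main_Sh.ini1 (h : Main_Sh Φ F) {m : B.Me} (e : Φ.at 0 = m) {L c : ℝ} (hL : 0 < L)
    (h1 : 1 / L ≤ c) (h2 : ∀ x, c ≤ m.s1.1 x) (h4 : 1 / L ≤ Base.I m m.s2)
    (h5 : Base.I m m.s1 ≤ L) (h6 : ∫ x, √(m.p2.1 x) ^ 3 ∂vol m ≤ L) :
    F.Ini1 (1 / L) (4 * (L + L ^ 2)) := by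
  have c0 : 0 < c := (one_div_pos.2 hL).trans_le h1
  refine ⟨⟨c, c0, fun x => by rw [h.s1, e]; exact h2 x⟩, by rwa [h.I2, e], fun a ha => ?_⟩
  · have hc : Continuous fun x => √(m.p2.1 x) ^ 3 := (B.cont _).sqrt.pow 3
    have h7 := h.I_le (t := 0) (a := a) (g := fun x => 4 * √(m.p2.1 x) ^ 3 + 4)
      ((hc.const_mul 4).add continuous_const) fun x =>
        (ha x).trans (by rw [h.f, e]; exact Main_cube _)
    rw [e, integral_add (B.intg (hc.const_mul 4) _) (integrable_const _), integral_const_mul,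
      integral_const, smul_eq_mul] at h7
    have h8 : c * (vol m).real univ ≤ L := by
      rw [← I_one, ← I_cst_mul, mul_one]
      exact (I_mono m h2).trans h5
    have h9 : 0 ≤ (vol m).real univ := measureReal_nonneg
    rw [div_le_iff₀ hL] at h1
    nlinarith [mul_le_mul_of_nonneg_right h8 hL.le, mul_le_mul_of_nonneg_right h1 h9]

end

theorem Main_flow (hB : B.Good) {m0 : B.Me} (h0 : Pos m0) (T : ℝ) [Fact (0 < T)]
    (H : ∀ Λ₀, ∃ Λ₁, ∀ (T' : ℝ) [Fact (0 < T')], T' ≤ T → ∀ (Φ : Flow B T') F, Φ.at 0 = m0 →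
      Main_Sh Φ F → (∀ x, F.ev 0 x F.f ≤ Λ₀) → ∀ t ∈ Icc 0 T', ∀ x, F.ev t x F.f ≤ Λ₁) :
    ∃ (Φ : Flow B T) (F : SF B.M (B.AT T) T), Φ.at 0 = m0 ∧ Main_Sh Φ F := by
  obtain ⟨y, -, hy⟩ := isCompact_univ.exists_isMaxOn univ_nonempty (B.cont m0.p2).continuousOn
  obtain ⟨Λ, hΛ⟩ := H (m0.p2.1 y + 1)
  obtain ⟨Φ, hΦ⟩ := flow_exists hB h0 T Λ fun T' _ hT Φ e s hs x => by
    obtain ⟨F, hF⟩ := Main_sh hB Φ
    have := hΛ T' hT Φ F e hF (fun x => by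
      rw [hF.f, e]
      exact add_le_add_left (hy (mem_univ x)) 1) s hs x
    rw [hF.f] at this
    linarith
  obtain ⟨F, hF⟩ := Main_sh hB Φ
  exact ⟨Φ, F, hΦ, hF⟩

theorem Main_rescale {m : B.Me} (h : Pos m) {d : ℝ} (hd : 0 < d)
    (h1 : ∀ x, 0 < m.s1.1 x ∧ d * m.s1.1 x ≤ m.s2.1 x) : ∃ m' : B.Me, Pos m' ∧
      (∀ x, 0 < m'.s1.1 x ∧ m'.s1.1 x ≤ m'.s2.1 x) ∧ I m' m'.s1 ^ 2 = d * I m m.s1 ^ 2 := by
  obtain ⟨q, q0, rfl⟩ : ∃ q, 0 < q ∧ d = q ^ 2 := ⟨√d, Real.sqrt_pos.2 hd, (Real.sq_sqrt hd.le).symm⟩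
  have e : algebraMap ℝ B.A q⁻¹ * algebraMap ℝ B.A q = 1 := by
    rw [← map_mul, inv_mul_cancel₀ q0.ne', map_one]
  obtain ⟨-, e1, e2, -⟩ := m.conf_const e
  refine ⟨m.conf _ _ e, h.conf e, fun x => ?_, ?_⟩
  · rw [e1, e2]
    change 0 < q⁻¹ ^ 2 * m.s1.1 x ∧ q⁻¹ ^ 2 * m.s1.1 x ≤ q⁻¹ ^ 4 * m.s2.1 x
    refine ⟨mul_pos (by positivity) (h1 x).1, ?_⟩
    refine le_of_eq_of_le ?_ (mul_le_mul_of_nonneg_left (h1 x).2 (by positivity))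
    field_simp
  · rw [I_conf h e fun _ => q0, e1, smul_mul_assoc, I_smul, ← map_pow, mul_comm m.s1]
    rw [show I m (algebraMap ℝ B.A (q ^ 3) * m.s1) = q ^ 3 * I m m.s1 from I_cst_mul m _ _]
    field_simp

theorem Main_num {a a1 c ε L s k e : ℝ} (a0 : 0 ≤ a) (_h0 : 0 ≤ a1) (hL : a ≤ L) (cL : c ≤ L)
    (ε0 : 0 ≤ ε) (hε : ε ≤ c) (s0 : 0 ≤ s) (h1 : a - s ≤ a1) (h2 : k ≤ c * a ^ 2)
    (h3 : ε * L ^ 2 ≤ e / 3) (h4 : 2 * L ^ 2 * s ≤ e / 3) : k - 2 * e / 3 ≤ (c - ε) * a1 ^ 2 := by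
  have h5 : a ^ 2 - 2 * a * s ≤ a1 ^ 2 := by
    rcases le_total 0 (a - s) with h | h
    · nlinarith [pow_le_pow_left₀ h h1 2]
    · nlinarith [mul_nonneg a0 s0]
  have h6 := mul_le_mul_of_nonneg_left h5 (sub_nonneg.2 hε)
  have h7 := mul_le_mul_of_nonneg_left (pow_le_pow_left₀ a0 hL 2) ε0
  have h8 : (c - ε) * a ≤ L * L := mul_le_mul (by linarith) hL a0 (a0.trans hL)
  nlinarith [mul_le_mul_of_nonneg_right h8 s0]

/-- The first flow and the rescaling. -/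
theorem Main_first (hB : B.Good) {m0 : B.Me} (h0 : Pos m0) (h1 : Gt0 m0.s1) {k e : ℝ}
    (hk : 0 < k) (he : 0 < e) (hJ : k < J m0) : ∃ m : B.Me, Pos m ∧
      (∀ x, 0 < m.s1.1 x ∧ m.s1.1 x ≤ m.s2.1 x) ∧ k - 2 * e / 3 ≤ I m m.s1 ^ 2 := by
  obtain ⟨L, L0, hL⟩ := conf_step hB h0 h1 hk hJ
  obtain ⟨τ, τ0, H1, H2⟩ := stage1 (b := 1 / L) (Λ := 4 * (L + L ^ 2)) (by positivity)
    (by positivity)
  obtain ⟨C, hC⟩ : ∃ C, C = 12 * (4 * (L + L ^ 2) + 2) := ⟨_, rfl⟩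
  have C0 : 0 < C := by rw [hC]; positivity
  obtain ⟨T, T0, T1, T2⟩ : ∃ T, 0 < T ∧ T ≤ τ ∧ T ≤ e / 3 / (2 * L ^ 2 * C) :=
    ⟨min _ _, lt_min τ0 (by positivity), min_le_left _ _, min_le_right _ _⟩
  obtain ⟨ε, ε0, ε1, ε2⟩ : ∃ ε, 0 < ε ∧ ε ≤ 1 / L / 2 ∧ ε ≤ e / 3 / L ^ 2 :=
    ⟨min _ _, lt_min (by positivity) (by positivity), min_le_left _ _, min_le_right _ _⟩
  obtain ⟨δ, δ0, H3⟩ := H2 T T0 T1 ε ε0
  obtain ⟨m, c, hm, a1, a2, a3, a4, a5, a6, a7, a8⟩ := hL δ δ0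
  have : Fact (0 < T) := ⟨T0⟩
  have L1 := one_div_pos.2 L0
  have s0 : Gt0 m.s1 := fun x => lt_of_lt_of_le (by linarith) (a3 x)
  obtain ⟨Φ, F, e0, hF⟩ := Main_flow hB hm T fun Λ₀ => by
    obtain ⟨Λ₁, h⟩ := H1 Λ₀
    exact ⟨Λ₁, fun T' _ hT Φ F e hF =>
      h F (hT.trans T1) (hF.ini1 e L0 a1 a3 a5 a6 a7)⟩
  obtain ⟨b1, b2⟩ := H3 F c (hF.ini1 e0 L0 a1 a3 a5 a6 a7) (by linarith) fun a ha => by
    refine le_trans ?_ a8
    rw [← e0] at s0 ⊢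
    simp only [hF.s1, hF.s2] at ha
    exact hF.I_le (((continuous_const.sub ((B.cont _).div (B.cont _) fun x => (s0 x).ne')).max
      continuous_const).pow 2) ha
  simp only [hF.s1, hF.s2] at b2
  rw [hF.I1, hF.I1, e0, ← hC] at b1
  have hp : Pos (Φ.at T) := Φ.pos _
  obtain ⟨m', c1, c2, c3⟩ := Main_rescale hp (d := c - ε) (by linarith) b2
  refine ⟨m', c1, c2, ?_⟩
  rw [c3]
  refine Main_num (I_nonneg m fun x => (s0 x).le) (I_nonneg _ fun x => (b2 x).1.le) a6 a2 ε0.le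
    (by linarith) (mul_pos C0 T0).le b1 a4 ((le_div_iff₀ (by positivity)).1 ε2) ?_
  have := (le_div_iff₀ (by positivity)).1 T2
  linarith

theorem main_thm (hB : B.Good) {m : B.Me} (h : Pos m) (h1 : Gt0 m.s1) :
    J m ≤ 9 * Real.pi ^ 4 / 2 := by
  by_contra hc
  obtain ⟨C, -, hC⟩ := hB.univ
  have bdd : BddAbove {j | ∃ m : B.Me, Pos m ∧ Gt0 m.s1 ∧ J m = j} :=
    ⟨C, by rintro _ ⟨m, a, b, rfl⟩; exact (hC m a b).1⟩
  have le : ∀ m : B.Me, Pos m → Gt0 m.s1 →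
      J m ≤ sSup {j | ∃ m : B.Me, Pos m ∧ Gt0 m.s1 ∧ J m = j} :=
    fun m a b => le_csSup bdd ⟨m, a, b, rfl⟩
  have lt : ∀ k < sSup {j | ∃ m : B.Me, Pos m ∧ Gt0 m.s1 ∧ J m = j},
      ∃ m : B.Me, Pos m ∧ Gt0 m.s1 ∧ k < J m := fun k hk => by
    obtain ⟨_, ⟨m', a, b, rfl⟩, c⟩ := exists_lt_of_lt_csSup
      (⟨J m, m, h, h1, rfl⟩ : Set.Nonempty {j | ∃ m : B.Me, Pos m ∧ Gt0 m.s1 ∧ J m = j}) hk
    exact ⟨m', a, b, c⟩
  generalize sSup {j | ∃ m : B.Me, Pos m ∧ Gt0 m.s1 ∧ J m = j} = S at le lt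
  have hS : 9 * Real.pi ^ 4 / 2 < S := (not_le.1 hc).trans_le (le m h h1)
  have S0 : 0 < S := lt_trans (by positivity) hS
  obtain ⟨e, e0, H1, H2⟩ := stage2 hS
  obtain ⟨m0, a1, a2, a3⟩ := lt (max (S - e / 3) (S / 2)) (max_lt (by linarith) (by linarith))
  obtain ⟨m2, b1, b2, b3⟩ := Main_first hB a1 a2 (lt_max_of_lt_right (half_pos S0)) e0 a3
  have ini : ∀ (T : ℝ) [Fact (0 < T)] (Φ : Flow B T) F, Φ.at 0 = m2 → Main_Sh Φ F →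
      F.Ini2 S e := fun T _ Φ F e1 hF => by
    refine ⟨fun x => by rw [hF.s1, hF.s2, e1]; exact b2 x, ?_, fun t _ ht => ?_⟩
    · rw [hF.I1, e1]
      linarith [le_max_left (S - e / 3) (S / 2), b3]
    · rw [hF.I1, hF.I2]
      exact le _ (Φ.pos _) fun x => hF.s1 t x ▸ ht x
  have : Fact ((0 : ℝ) < 1 / 240) := ⟨by norm_num⟩
  obtain ⟨Φ, F, c1, c2⟩ := Main_flow hB b1 (1 / 240) fun Λ₀ => by
    obtain ⟨Λ₁, h⟩ := H1 Λ₀
    exact ⟨Λ₁, fun T' _ hT Φ F e hF => h F hT (ini T' Φ F e hF)⟩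
  exact H2 F (ini _ Φ F c1 c2)

end Base

end Pool.Agent.MP_9bd639_gt.H88

end

-- part Final
section

/-! The inequality for closed Riemannian three-manifolds. -/

open MeasureTheory Pool.Agent.MP_3fc7f4_gt Pool.Agent.MP_9bd639_gt.H87

namespace Pool.Agent.MP_9bd639_gt.H88

theorem sharp (N : PointedRiem 3) (hc : CompactSpace N.M) (h : ∀ x, 0 < scal N x) :
    Integrable (sigma1 N) N.vol ∧ Integrable (sigma2 N) N.vol ∧
      (∫ x, sigma1 N x ∂N.vol) * ∫ x, sigma2 N x ∂N.vol ≤ 9 * Real.pi ^ 4 / 2 := by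
  obtain ⟨C, -, hC⟩ := universal
  obtain ⟨i1, i2, -⟩ := hC N hc fun x => (h x).le
  obtain ⟨B, m, hB, hm, h1, e1, e2⟩ := exists_base N h
  refine ⟨i1, i2, ?_⟩
  rw [← e1, ← e2]
  exact Base.main_thm hB hm h1

end Pool.Agent.MP_9bd639_gt.H88

end
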