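import Pool.Agent.MP_9bd639_gt.G.Tens1

-- part RFa
section

/-! Sobolev norms in the frame: products, interpolation and integration by parts. -/

open Matrix

namespace Pool.Agent.MP_9bd639_gt.H88

set_option linter.unusedSectionVars false

variable {ι : Type} [Fintype ι] [DecidableEq ι] {A : Type} [CommRing A] [Algebra ℝ A]

/-- The Sobolev pairing of order `k`. -/
def hip (F : Fr ι A) (I : A →ₗ[ℝ] ℝ) : ℕ → A → A → ℝ
  | 0, a, b => I (a * b)
  | k + 1, a, b => I (a * b) + ∑ i, hip F I k (F.X i a) (F.X i b)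

/-- The analytic data used for the existence of the flow. -/
structure An (F : Fr ι A) (M : Type) where
  ev : M → A →ₐ[ℝ] ℝ
  I : A →ₗ[ℝ] ℝ
  I_nonneg : ∀ a, (∀ x, 0 ≤ ev x a) → 0 ≤ I a
  dv : ι → A
  ibp : ∀ i a, I (F.X i a) = -I (dv i * a)
  bdd : ∀ a, ∃ C, ∀ x, |ev x a| ≤ C
  sob2 : ∃ C, 0 ≤ C ∧ ∀ a x, ev x a ^ 2 ≤ C * hip F I 2 a a
  sob4 : ∃ C, 0 ≤ C ∧ ∀ a, I (a ^ 4) ≤ C * hip F I 1 a a ^ 2

namespace An

variable {F : Fr ι A} {M : Type} (N : An F M)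

/-- The Sobolev pairing and the squared Sobolev norm. -/
def ip (k : ℕ) (a b : A) : ℝ := hip F N.I k a b
def hs (k : ℕ) (a : A) : ℝ := N.ip k a a

theorem ip_zero (a b : A) : N.ip 0 a b = N.I (a * b) := rfl
theorem ip_succ (k : ℕ) (a b : A) :
    N.ip (k + 1) a b = N.I (a * b) + ∑ i, N.ip k (F.X i a) (F.X i b) := rfl
theorem hs_zero (a : A) : N.hs 0 a = N.I (a ^ 2) := by rw [hs, ip_zero, sq]
theorem hs_succ (k : ℕ) (a : A) : N.hs (k + 1) a = N.hs 0 a + ∑ i, N.hs k (F.X i a) := rfl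

theorem I_mono {a b : A} (h : ∀ x, N.ev x a ≤ N.ev x b) : N.I a ≤ N.I b := by
  have := N.I_nonneg (b - a) fun x => by rw [map_sub]; linarith [h x]
  rw [map_sub] at this
  linarith

theorem I_sq (a : A) : 0 ≤ N.I (a ^ 2) := N.I_nonneg _ fun x => by rw [map_pow]; positivity

theorem ip_comm (k : ℕ) (a b : A) : N.ip k a b = N.ip k b a := by
  induction k generalizing a b with
  | zero => rw [ip_zero, ip_zero, mul_comm]
  | succ k ih => rw [ip_succ, ip_succ, mul_comm]; simp only [ih (F.X _ a)]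

theorem ip_add (k : ℕ) (a b c : A) : N.ip k a (b + c) = N.ip k a b + N.ip k a c := by
  induction k generalizing a b c with
  | zero => simp only [ip_zero, mul_add, map_add]
  | succ k ih => simp only [ip_succ, mul_add, map_add, ih, Finset.sum_add_distrib]; ring

theorem ip_smul (k : ℕ) (r : ℝ) (a b : A) : N.ip k a (r • b) = r * N.ip k a b := by
  induction k generalizing a b with
  | zero => simp only [ip_zero, mul_smul_comm, map_smul, smul_eq_mul]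
  | succ k ih =>
    simp only [ip_succ, mul_smul_comm, map_smul, smul_eq_mul, Derivation.map_smul, ih,
      ← Finset.mul_sum]
    ring

theorem ip_neg (k : ℕ) (a b : A) : N.ip k a (-b) = -N.ip k a b := by
  rw [← neg_one_smul ℝ b, ip_smul]; ring

theorem ip_sub (k : ℕ) (a b c : A) : N.ip k a (b - c) = N.ip k a b - N.ip k a c := by
  rw [sub_eq_add_neg, ip_add, ip_neg]; ring

theorem ip_zero' (k : ℕ) (a : A) : N.ip k a 0 = 0 := by
  rw [← zero_smul ℝ (0 : A), ip_smul]; ring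

theorem ip_sum {κ : Type} (s : Finset κ) (k : ℕ) (a : A) (b : κ → A) :
    N.ip k a (∑ j ∈ s, b j) = ∑ j ∈ s, N.ip k a (b j) := by
  classical
  induction s using Finset.induction_on with
  | empty => simp [ip_zero']
  | insert j s hj ih => rw [Finset.sum_insert hj, Finset.sum_insert hj, ip_add, ih]

theorem hs_nonneg (k : ℕ) (a : A) : 0 ≤ N.hs k a := by
  induction k generalizing a with
  | zero => rw [hs_zero]; exact N.I_sq a
  | succ k ih =>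
    rw [hs_succ, hs_zero]
    exact add_nonneg (N.I_sq a) (Finset.sum_nonneg fun i _ => ih _)

theorem hs_add (k : ℕ) (a b : A) : N.hs k (a + b) = N.hs k a + 2 * N.ip k a b + N.hs k b := by
  rw [hs, ip_add, ip_comm N k (a + b) a, ip_comm N k (a + b) b, ip_add, ip_add, ip_comm N k b a,
    hs, hs]
  ring

theorem hs_smul (k : ℕ) (r : ℝ) (a : A) : N.hs k (r • a) = r ^ 2 * N.hs k a := by
  rw [hs, ip_smul, ip_comm, ip_smul, hs]; ring

theorem hs_neg (k : ℕ) (a : A) : N.hs k (-a) = N.hs k a := by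
  rw [← neg_one_smul ℝ a, hs_smul]; ring

theorem hs_zero' (k : ℕ) : N.hs k 0 = 0 := N.ip_zero' k 0

theorem two_ip_le (k : ℕ) (a b : A) {ε : ℝ} (hε : 0 < ε) :
    2 * N.ip k a b ≤ ε * N.hs k a + ε⁻¹ * N.hs k b := by
  have h := N.hs_nonneg k (ε • a + -b)
  rw [hs_add, hs_smul, hs_neg, ip_neg, ip_comm, ip_smul, ip_comm] at h
  have e : ε * N.hs k a + ε⁻¹ * N.hs k b - 2 * N.ip k a b =
      ε⁻¹ * (ε ^ 2 * N.hs k a + 2 * -(ε * N.ip k a b) + N.hs k b) := by field_simp; ring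
  have := mul_nonneg (inv_pos.2 hε).le h
  linarith

theorem hs_add_le (k : ℕ) (a b : A) : N.hs k (a + b) ≤ 2 * N.hs k a + 2 * N.hs k b := by
  have := N.two_ip_le k a b one_pos
  rw [hs_add]
  simp only [inv_one, one_mul] at this
  linarith

theorem hs_sub_le (k : ℕ) (a b : A) : N.hs k (a - b) ≤ 2 * N.hs k a + 2 * N.hs k b := by
  rw [sub_eq_add_neg, ← N.hs_neg k b]; exact N.hs_add_le k a _

theorem hs_le_succ (k : ℕ) (a : A) : N.hs k a ≤ N.hs (k + 1) a := by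
  induction k generalizing a with
  | zero => rw [hs_succ]; exact le_add_of_nonneg_right (Finset.sum_nonneg fun i _ => N.hs_nonneg _ _)
  | succ k ih =>
    rw [hs_succ, hs_succ N (k + 1)]
    exact add_le_add le_rfl (Finset.sum_le_sum fun i _ => ih _)

theorem hs_mono {k l : ℕ} (h : k ≤ l) (a : A) : N.hs k a ≤ N.hs l a :=
  monotone_nat_of_le_succ (f := fun k => N.hs k a) (fun k => N.hs_le_succ k a) h

theorem sum_hs_X (k : ℕ) (a : A) : ∑ i, N.hs k (F.X i a) ≤ N.hs (k + 1) a := by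
  rw [hs_succ]; exact le_add_of_nonneg_left (N.hs_nonneg _ _)

theorem hs_X (k : ℕ) (i : ι) (a : A) : N.hs k (F.X i a) ≤ N.hs (k + 1) a :=
  (Finset.single_le_sum (f := fun i => N.hs k (F.X i a)) (fun _ _ => N.hs_nonneg _ _)
    (Finset.mem_univ i)).trans (N.sum_hs_X k a)

theorem hs_Xw (k : ℕ) (w : List ι) (a : A) : N.hs k (F.Xw w a) ≤ N.hs (k + w.length) a := by
  induction w generalizing a with
  | nil => exact le_rfl
  | cons i w ih => exact (ih _).trans (N.hs_X _ i a)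

theorem hs_Xw' {k r : ℕ} {w : List ι} (h : k + w.length ≤ r) (a : A) :
    N.hs k (F.Xw w a) ≤ N.hs r a := (N.hs_Xw k w a).trans (N.hs_mono h a)

/-- The Leibniz rule. -/
theorem leib (k : ℕ) : ∃ C : ℝ, 0 ≤ C ∧ ∀ (a b : A) (B : ℝ),
    (∀ w w' : List ι, w.length + w'.length ≤ k → N.hs 0 (F.Xw w a * F.Xw w' b) ≤ B) →
      N.hs k (a * b) ≤ C * B := by
  induction k with
  | zero => exact ⟨1, zero_le_one, fun a b B h => by simpa [Fr.Xw] using h [] [] le_rfl⟩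
  | succ k ih =>
    obtain ⟨C, hC, ih⟩ := ih
    refine ⟨1 + Fintype.card ι * (4 * C), by positivity, fun a b B h => ?_⟩
    have h0 : N.hs 0 (a * b) ≤ B := h [] [] (Nat.zero_le _)
    have h1 : ∀ i, N.hs k (F.X i (a * b)) ≤ 4 * C * B := fun i => by
      have e1 := ih (F.X i a) b B fun w w' hw => h (i :: w) w' (by simp; omega)
      have e2 := ih a (F.X i b) B fun w w' hw => h w (i :: w') (by simp; omega)
      rw [F.X_mul]
      linarith [N.hs_add_le k (F.X i a * b) (a * F.X i b)]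
    have h2 := Finset.sum_le_card_nsmul Finset.univ _ _ fun i _ => h1 i
    rw [Finset.card_univ, nsmul_eq_mul] at h2
    rw [hs_succ]
    linarith

theorem hs0_mul_le {a : A} {K : ℝ} (h : ∀ x, N.ev x a ^ 2 ≤ K) (b : A) :
    N.hs 0 (a * b) ≤ K * N.hs 0 b := by
  rw [hs_zero, hs_zero, ← smul_eq_mul K, ← map_smul]
  refine N.I_mono fun x => ?_
  rw [map_smul, mul_pow, map_mul, map_pow, map_pow, smul_eq_mul]
  exact mul_le_mul_of_nonneg_right (h x) (sq_nonneg _)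

theorem hs0_mul_four (a b : A) {ε : ℝ} (hε : 0 < ε) :
    2 * N.hs 0 (a * b) ≤ ε * N.I (a ^ 4) + ε⁻¹ * N.I (b ^ 4) := by
  have := N.two_ip_le 0 (a ^ 2) (b ^ 2) hε
  rw [hs_zero, hs_zero, ip_zero, ← pow_mul, ← pow_mul, ← mul_pow] at this
  rwa [hs_zero]

theorem le_mul_of_forall {x p q : ℝ} (hp : 0 ≤ p) (hq : 0 ≤ q)
    (h : ∀ ε > 0, 2 * x ≤ ε * p ^ 2 + ε⁻¹ * q ^ 2) : x ≤ p * q := by
  refine le_of_forall_pos_le_add fun δ hδ => ?_
  have hd : 0 < δ / (p + q + 1) := by positivity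
  set η := min 1 (δ / (p + q + 1))
  have h0 : 0 < η := lt_min one_pos hd
  have h1 : η ≤ 1 := min_le_left _ _
  have h2 : η * (p + q + 1) ≤ δ := (le_div_iff₀ (by positivity)).1 (min_le_right _ _)
  have h3 := h ((q + η) / (p + η)) (by positivity)
  have h4 : (q + η) / (p + η) * p ^ 2 ≤ (q + η) * (p + η) := by
    rw [div_mul_eq_mul_div, div_le_iff₀ (by positivity), mul_assoc]
    exact mul_le_mul_of_nonneg_left (by nlinarith) (by positivity)
  have h5 : ((q + η) / (p + η))⁻¹ * q ^ 2 ≤ (p + η) * (q + η) := by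
    rw [inv_div, div_mul_eq_mul_div, div_le_iff₀ (by positivity), mul_assoc]
    exact mul_le_mul_of_nonneg_left (by nlinarith) (by positivity)
  nlinarith

theorem prod0 : ∃ C : ℝ, 0 ≤ C ∧ ∀ (a b : A) (r s : ℕ), 2 ≤ r + s →
    N.hs 0 (a * b) ≤ C * (N.hs r a * N.hs s b) := by
  obtain ⟨C, hC, h2⟩ := N.sob2
  obtain ⟨D, hD, h4⟩ := N.sob4
  have key : ∀ (a b : A) (r s : ℕ), 2 ≤ r → N.hs 0 (a * b) ≤ C * (N.hs r a * N.hs s b) :=
    fun a b r s hr => by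
      refine (N.hs0_mul_le (h2 a) b).trans ?_
      rw [mul_assoc]
      exact mul_le_mul_of_nonneg_left (mul_le_mul (N.hs_mono hr a) (N.hs_mono (Nat.zero_le _) b)
        (N.hs_nonneg _ _) (N.hs_nonneg _ _)) hC
  refine ⟨C + D, by positivity, fun a b r s h => ?_⟩
  have hp := mul_nonneg (N.hs_nonneg r a) (N.hs_nonneg s b)
  rcases le_or_gt 2 r with hr | hr
  · nlinarith [key a b r s hr]
  rcases le_or_gt 2 s with hs | hs
  · have := key b a s r hs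
    rw [mul_comm b, mul_comm (N.hs s b)] at this
    nlinarith
  obtain ⟨rfl, rfl⟩ : r = 1 ∧ s = 1 := by omega
  have hsq := Real.sq_sqrt hD
  have := le_mul_of_forall (x := N.hs 0 (a * b))
    (mul_nonneg (Real.sqrt_nonneg D) (N.hs_nonneg 1 a))
    (mul_nonneg (Real.sqrt_nonneg D) (N.hs_nonneg 1 b)) fun ε hε => by
      refine (N.hs0_mul_four a b hε).trans ?_
      rw [mul_pow, mul_pow, hsq]
      exact add_le_add (mul_le_mul_of_nonneg_left (h4 a) hε.le)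
        (mul_le_mul_of_nonneg_left (h4 b) (inv_pos.2 hε).le)
  have e : √D * N.hs 1 a * (√D * N.hs 1 b) = √D ^ 2 * (N.hs 1 a * N.hs 1 b) := by ring
  rw [e, hsq] at this
  nlinarith

theorem prodw : ∃ C : ℝ, 0 ≤ C ∧ ∀ (a b : A) (r s : ℕ) (w w' : List ι), w.length ≤ r →
    w'.length ≤ s → w.length + w'.length + 2 ≤ r + s →
      N.hs 0 (F.Xw w a * F.Xw w' b) ≤ C * (N.hs r a * N.hs s b) := by
  obtain ⟨C, hC, h⟩ := N.prod0
  refine ⟨C, hC, fun a b r s w w' h1 h2 h3 => ?_⟩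
  refine (h _ _ (r - w.length) (s - w'.length) (by omega)).trans ?_
  exact mul_le_mul_of_nonneg_left (mul_le_mul (N.hs_Xw' (by omega) a) (N.hs_Xw' (by omega) b)
    (N.hs_nonneg _ _) (N.hs_nonneg _ _)) hC

theorem prod {k r s : ℕ} (h1 : k ≤ r) (h2 : k ≤ s) (h3 : k + 2 ≤ r + s) :
    ∃ C : ℝ, 0 ≤ C ∧ ∀ a b : A, N.hs k (a * b) ≤ C * (N.hs r a * N.hs s b) := by
  obtain ⟨C, hC, h⟩ := N.prodw
  obtain ⟨D, hD, hl⟩ := N.leib k
  refine ⟨D * C, by positivity, fun a b => ?_⟩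
  rw [mul_assoc]
  exact hl a b _ fun w w' hw => h a b r s w w' (by omega) (by omega) (by omega)

theorem tame (k : ℕ) : ∃ C : ℝ, 0 ≤ C ∧ ∀ a b : A, N.hs (k + 3) (a * b) ≤
    C * (N.hs (k + 2) a * N.hs (k + 3) b + N.hs (k + 3) a * N.hs 2 b) := by
  obtain ⟨C, hC, h⟩ := N.prodw
  obtain ⟨D, hD, hl⟩ := N.leib (k + 3)
  refine ⟨D * C, by positivity, fun a b => ?_⟩
  rw [mul_assoc]
  refine hl a b _ fun w w' hw => ?_
  have p1 := mul_nonneg (N.hs_nonneg (k + 2) a) (N.hs_nonneg (k + 3) b)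
  have p2 := mul_nonneg (N.hs_nonneg (k + 3) a) (N.hs_nonneg 2 b)
  rcases le_or_gt w.length (k + 2) with h1 | h1
  · have := h a b (k + 2) (k + 3) w w' h1 (by omega) (by omega)
    nlinarith
  · have := h a b (k + 3) 2 w w' (by omega) (by omega) (by omega)
    nlinarith

theorem bdd_sq (a : A) : ∃ C : ℝ, 0 ≤ C ∧ ∀ x, N.ev x a ^ 2 ≤ C := by
  obtain ⟨C, h⟩ := N.bdd a
  exact ⟨C ^ 2, sq_nonneg _, fun x => sq_le_sq' (abs_le.1 (h x)).1 (abs_le.1 (h x)).2 |>.trans_eq' rfl⟩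

theorem words_finite (k : ℕ) : {w : List ι | w.length ≤ k}.Finite := List.finite_length_le ι k

/-- Multiplication by a fixed element. -/
theorem mult (k : ℕ) (c : A) : ∃ C : ℝ, 0 ≤ C ∧ ∀ a : A, N.hs k (c * a) ≤ C * N.hs k a := by
  obtain ⟨D, hD, hl⟩ := N.leib k
  choose K hK0 hK using fun w : List ι => N.bdd_sq (F.Xw w c)
  obtain ⟨C, hC⟩ := ((words_finite (ι := ι) k).image K).bddAbove
  have hC0 : 0 ≤ C := (hK0 []).trans (hC ⟨[], Nat.zero_le k, rfl⟩)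
  refine ⟨D * C, by positivity, fun a => ?_⟩
  rw [mul_assoc]
  refine hl c a _ fun w w' hw => (N.hs0_mul_le (hK w) _).trans ?_
  exact mul_le_mul (hC ⟨w, show w.length ≤ k by omega, rfl⟩) (N.hs_Xw' (by omega) a)
    (N.hs_nonneg _ _) hC0

theorem sup_Xw (w : List ι) : ∃ C : ℝ, 0 ≤ C ∧ ∀ a x,
    N.ev x (F.Xw w a) ^ 2 ≤ C * N.hs (2 + w.length) a := by
  obtain ⟨C, hC, h⟩ := N.sob2
  exact ⟨C, hC, fun a x => (h _ x).trans (mul_le_mul_of_nonneg_left (N.hs_Xw 2 w a) hC)⟩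

theorem hs0_le_sup {a : A} {K : ℝ} (h : ∀ x, N.ev x a ^ 2 ≤ K) : N.hs 0 a ≤ K * N.hs 0 1 := by
  simpa using N.hs0_mul_le h 1

/-- Gagliardo-Nirenberg. -/
theorem gn : ∃ C : ℝ, 0 ≤ C ∧ ∀ (a : A) (K : ℝ), (∀ x, N.ev x a ^ 2 ≤ K) → 0 ≤ K → ∀ i,
    N.I (F.X i a ^ 4) ≤ C * (K * N.hs 2 a) := by
  choose D hD0 hD using fun i => N.bdd_sq (N.dv i)
  refine ⟨2 * (9 + ∑ i, D i), by have := Finset.sum_nonneg fun i (_ : i ∈ Finset.univ) => hD0 i; positivity,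
    fun a K hK hK0 i => ?_⟩
  have hDi : D i ≤ ∑ i, D i := Finset.single_le_sum (fun i _ => hD0 i) (Finset.mem_univ i)
  have h1 := N.ibp i (a * F.X i a ^ 3)
  have e : F.X i (a * F.X i a ^ 3) = F.X i a ^ 4 + 3 * (a * F.X i a ^ 2 * F.X i (F.X i a)) := by
    rw [F.X_mul, Derivation.leibniz_pow]
    simp only [smul_eq_mul, nsmul_eq_mul]
    push_cast
    ring
  have h2 : N.I (-(N.dv i * (a * F.X i a ^ 3)) - 3 * (a * F.X i a ^ 2 * F.X i (F.X i a))) ≤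
      N.I ((1 / 2 : ℝ) • F.X i a ^ 4 + (9 * K) • F.X i (F.X i a) ^ 2 + (D i * K) • F.X i a ^ 2) := by
    refine N.I_mono fun x => ?_
    simp only [map_sub, map_neg, map_mul, map_pow, map_add, map_smul, smul_eq_mul, map_ofNat]
    set y := N.ev x (F.X i a)
    set z := N.ev x (F.X i (F.X i a))
    set u := N.ev x a
    set d := N.ev x (N.dv i)
    have a1 : u ^ 2 * z ^ 2 ≤ K * z ^ 2 := mul_le_mul_of_nonneg_right (hK x) (sq_nonneg _)
    have a2 : d ^ 2 * u ^ 2 * y ^ 2 ≤ D i * K * y ^ 2 :=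
      mul_le_mul_of_nonneg_right (mul_le_mul (hD i x) (hK x) (sq_nonneg _) (hD0 i)) (sq_nonneg _)
    nlinarith [sq_nonneg (y ^ 2 / 2 + 3 * u * z), sq_nonneg (y ^ 2 / 2 + d * u * y)]
  rw [e, map_add] at h1
  rw [map_sub, map_neg, map_add, map_add, map_smul, map_smul, map_smul, ← hs_zero, ← hs_zero] at h2
  simp only [smul_eq_mul] at h2
  have h3 : N.hs 0 (F.X i (F.X i a)) ≤ N.hs 2 a := (N.hs_X _ _ _).trans (N.hs_X _ _ _)
  have h4 : N.hs 0 (F.X i a) ≤ N.hs 2 a := (N.hs_X _ _ _).trans (N.hs_le_succ _ _)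
  have h5 := mul_le_mul_of_nonneg_left h3 hK0
  have h6 := mul_le_mul hDi (mul_le_mul_of_nonneg_left h4 hK0)
    (mul_nonneg hK0 (N.hs_nonneg _ _)) ((hD0 i).trans hDi)
  nlinarith

theorem ibp_mul (i : ι) (a b : A) :
    N.I (a * F.X i b) = -N.I ((F.X i a + N.dv i * a) * b) := by
  have := N.ibp i (a * b)
  rw [F.X_mul, map_add] at this
  rw [add_mul, map_add, mul_assoc]
  linarith

/-- One derivative is moved from the second to the first factor. -/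
theorem ip_shift (k : ℕ) : ∃ C : ℝ, 0 ≤ C ∧ ∀ (v r : A) (ε : ℝ), 0 < ε →
    N.ip (k + 1) v r ≤ ε * N.hs (k + 2) v + C / ε * N.hs k r := by
  have base : ∀ (v r : A) (ε : ℝ), 0 < ε → ∀ k l, N.I (v * r) ≤ ε * N.hs k v + 1 / ε * N.hs l r :=
    fun v r ε hε k l => by
      have h := N.two_ip_le 0 v r hε
      have h1 := mul_le_mul_of_nonneg_left (N.hs_mono (Nat.zero_le k) v) hε.le
      have h2 := mul_le_mul_of_nonneg_left (N.hs_mono (Nat.zero_le l) r) (inv_pos.2 hε).le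
      have h3 := mul_nonneg hε.le (N.hs_nonneg k v)
      have h4 := mul_nonneg (inv_pos.2 hε).le (N.hs_nonneg l r)
      rw [ip_zero] at h
      rw [one_div]
      linarith
  induction k with
  | zero =>
    choose D hD0 hD using fun i => N.mult 0 (N.dv i)
    set E : ℝ := 1 + ∑ i, (2 + 2 * D i)
    have hE : 0 < E := add_pos_of_pos_of_nonneg one_pos
      (Finset.sum_nonneg fun i _ => by have := hD0 i; positivity)
    refine ⟨(1 + Fintype.card ι) * E, by positivity, fun v r ε hε => ?_⟩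
    have h1 : ∀ i, N.ip 0 (F.X i v) (F.X i r) ≤
        ε / E * ((2 + 2 * D i) * N.hs 2 v) + E / ε * N.hs 0 r := fun i => by
      have h2 := base (-(F.X i (F.X i v) + N.dv i * F.X i v)) r (ε / E) (by positivity) 0 0
      rw [neg_mul, map_neg, hs_neg, one_div_div] at h2
      rw [ip_zero, ibp_mul]
      refine h2.trans (add_le_add (mul_le_mul_of_nonneg_left ?_ (by positivity)) le_rfl)
      have h3 : N.hs 0 (F.X i (F.X i v)) ≤ N.hs 2 v := (N.hs_X _ _ _).trans (N.hs_X _ _ _)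
      have h4 : N.hs 0 (F.X i v) ≤ N.hs 2 v := (N.hs_X _ _ _).trans (N.hs_le_succ _ _)
      have h5 := mul_le_mul_of_nonneg_left h4 (hD0 i)
      linarith [N.hs_add_le 0 (F.X i (F.X i v)) (N.dv i * F.X i v), hD i (F.X i v)]
    have h2 := Finset.sum_le_sum fun i (_ : i ∈ Finset.univ) => h1 i
    have h3 := base v r (ε / E) (by positivity) 2 0
    rw [Finset.sum_add_distrib, ← Finset.mul_sum, ← Finset.sum_mul, Finset.sum_const,
      Finset.card_univ, nsmul_eq_mul] at h2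
    rw [one_div_div] at h3
    have e : ε * N.hs 2 v = ε / E * (E * N.hs 2 v) := by field_simp
    rw [ip_succ, zero_add, e]
    simp only [E] at *
    ring_nf at *
    linarith
  | succ k ih =>
    obtain ⟨C, hC, ih⟩ := ih
    refine ⟨2 + 2 * C, by positivity, fun v r ε hε => ?_⟩
    have h1 := Finset.sum_le_sum fun i (_ : i ∈ Finset.univ) =>
      ih (F.X i v) (F.X i r) (ε / 2) (by positivity)
    rw [Finset.sum_add_distrib, ← Finset.mul_sum, ← Finset.mul_sum] at h1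
    have h2 := mul_le_mul_of_nonneg_left (N.sum_hs_X (k + 2) v) (show 0 ≤ ε / 2 by positivity)
    have h3 := mul_le_mul_of_nonneg_left (N.sum_hs_X k r) (show 0 ≤ C / (ε / 2) by positivity)
    have h4 := base v r (ε / 2) (by positivity) (k + 3) (k + 1)
    have e : (2 + 2 * C) / ε = 1 / (ε / 2) + C / (ε / 2) := by field_simp
    rw [ip_succ, e]
    linarith

end An

end Pool.Agent.MP_9bd639_gt.H88

end

-- part RFb
section

/-! The Garding inequality in all Sobolev spaces. -/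

open Matrix

namespace Pool.Agent.MP_9bd639_gt.H88

set_option linter.unusedSectionVars false

variable {ι : Type} [Fintype ι] [DecidableEq ι] {A : Type} [CommRing A] [Algebra ℝ A]

namespace An

variable {F : Fr ι A} {M : Type} (N : An F M)

/-- Coercivity of the inverse metric. -/
def Co (c : ℝ) (m : Met F) : Prop :=
  ∀ u x, c * ∑ i, N.ev x (F.X i u) ^ 2 ≤ N.ev x (m.gam u u)

/-- A bound for the products that appear in the error terms of the Garding inequality. -/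
def TB (k : ℕ) (γ : Matrix ι ι A) (u : A) (B : ℝ) : Prop :=
  ∀ i j (w w' : List ι), w.length + w'.length ≤ k + 1 → w'.length ≤ k → w.length ≤ max k 1 →
    N.hs 0 (F.Xw w (γ i j) * F.Xw w' u) ≤ B

/-- `f` is at most `ε h + C b` for every `ε`. -/
def RFb_S {P : Type} (ok : P → Prop) (h b f : P → ℝ) : Prop :=
  ∀ ε : ℝ, 0 < ε → ∃ C : ℝ, 0 ≤ C ∧ ∀ p, ok p → f p ≤ ε * h p + C * b p

theorem RFb_S.add {P : Type} {ok : P → Prop} {h b f g : P → ℝ} (hf : RFb_S ok h b f)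
    (hg : RFb_S ok h b g) : RFb_S ok h b fun p => f p + g p := fun ε hε => by
  obtain ⟨C, hC, h1⟩ := hf _ (half_pos hε)
  obtain ⟨D, hD, h2⟩ := hg _ (half_pos hε)
  exact ⟨C + D, add_nonneg hC hD, fun p hp => by linarith [h1 p hp, h2 p hp]⟩

theorem RFb_S.mono {P : Type} {ok : P → Prop} {h b f g : P → ℝ} (hf : RFb_S ok h b f)
    (hg : ∀ p, ok p → g p ≤ f p) : RFb_S ok h b g := fun ε hε => by
  obtain ⟨C, hC, h1⟩ := hf _ hε
  exact ⟨C, hC, fun p hp => (hg p hp).trans (h1 p hp)⟩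

theorem RFb_S.sum {P κ : Type} {ok : P → Prop} {h b : P → ℝ} (h0 : ∀ p, 0 ≤ h p) (s : Finset κ)
    {f : κ → P → ℝ} (hf : ∀ j, RFb_S ok h b (f j)) : RFb_S ok h b fun p => ∑ j ∈ s, f j p := by
  classical
  induction s using Finset.induction_on with
  | empty =>
    exact fun ε hε => ⟨0, le_rfl, fun p _ => by
      have := mul_nonneg hε.le (h0 p)
      simpa using this⟩
  | insert j s hj ih => exact ((hf j).add ih).mono fun p _ => (Finset.sum_insert hj).le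

theorem RFb_two (a v : A) {ε : ℝ} (hε : 0 < ε) :
    N.I (a * v) ≤ ε * N.hs 0 v + ε⁻¹ * N.hs 0 a ∧ -N.I (a * v) ≤ ε * N.hs 0 v + ε⁻¹ * N.hs 0 a := by
  have h1 := N.two_ip_le 0 v a hε
  have h2 := N.two_ip_le 0 v (-a) hε
  rw [ip_neg, hs_neg] at h2
  rw [ip_zero, mul_comm v] at h1 h2
  have h3 := mul_nonneg hε.le (N.hs_nonneg 0 v)
  have h4 := mul_nonneg (inv_pos.2 hε).le (N.hs_nonneg 0 a)
  constructor <;> linarith

/-- `I (u * γ i j * X i (X j u)) = -I ((X i (u * γ i j) + dv i * (u * γ i j)) * X j u)`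
(`ibp_mul`); the term `X i u * γ i j * X j u` sums to `gam u u` (`ip1_eq`); the others are
`I ((u * X i (γ i j)) * X j u)` and `I ((dv i * (u * γ i j)) * X j u)`: `two_ip_le 0`, `mult 0`. -/
theorem garding0 {ε : ℝ} (hε : 0 < ε) : ∃ C : ℝ, 0 ≤ C ∧ ∀ (c : ℝ) (m : Met F) (u : A) (B : ℝ),
    N.Co c m → N.TB 0 m.γ u B →
      N.I (u * m.L0 u) ≤ -c * ∑ i, N.hs 0 (F.X i u) + ε * N.hs 1 u + C * B := by
  have key : RFb_S (P := Met F × A × ℝ) (fun p => N.TB 0 p.1.γ p.2.1 p.2.2)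
      (fun p => N.hs 1 p.2.1) (fun p => p.2.2) fun p => ∑ i, ∑ j,
        (-N.I ((F.X i (p.1.γ i j) * p.2.1) * F.X j p.2.1) +
          -N.I ((N.dv i * (p.1.γ i j * p.2.1)) * F.X j p.2.1)) := by
    refine RFb_S.sum (fun p => N.hs_nonneg _ _) _ fun i =>
      RFb_S.sum (fun p => N.hs_nonneg _ _) _ fun j => RFb_S.add ?_ ?_
    · refine fun η hη => ⟨η⁻¹, (inv_pos.2 hη).le, fun p hp => (N.RFb_two _ _ hη).2.trans ?_⟩
      exact add_le_add (mul_le_mul_of_nonneg_left (N.hs_X 0 j _) hη.le)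
        (mul_le_mul_of_nonneg_left (hp i j [i] [] le_rfl le_rfl le_rfl) (inv_pos.2 hη).le)
    · obtain ⟨D, hD, h⟩ := N.mult 0 (N.dv i)
      refine fun η hη => ⟨η⁻¹ * D, by positivity, fun p hp => (N.RFb_two _ _ hη).2.trans ?_⟩
      rw [mul_assoc]
      exact add_le_add (mul_le_mul_of_nonneg_left (N.hs_X 0 j _) hη.le)
        (mul_le_mul_of_nonneg_left ((h _).trans (mul_le_mul_of_nonneg_left
          (hp i j [] [] (Nat.zero_le _) le_rfl (Nat.zero_le _)) hD)) (inv_pos.2 hη).le)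
  obtain ⟨C, hC, h⟩ := key ε hε
  refine ⟨C, hC, fun c m u B h1 h2 => ?_⟩
  have h3 := h (m, u, B) h2
  have h4 : c * ∑ i, N.hs 0 (F.X i u) ≤ N.I (m.gam u u) := by
    simp only [hs_zero]
    rw [← map_sum, ← smul_eq_mul c, ← map_smul]
    refine N.I_mono fun x => ?_
    rw [map_smul, map_sum, smul_eq_mul]
    simp only [map_pow]
    exact h1 u x
  have h5 : N.I (u * m.L0 u) = -N.I (m.gam u u) + ∑ i, ∑ j,
      (-N.I ((F.X i (m.γ i j) * u) * F.X j u) + -N.I ((N.dv i * (m.γ i j * u)) * F.X j u)) := by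
    rw [Met.gam, Met.ip1_eq, Met.L0, Finset.mul_sum, map_sum, map_sum, ← Finset.sum_neg_distrib,
      ← Finset.sum_add_distrib]
    refine Finset.sum_congr rfl fun i _ => ?_
    rw [Finset.mul_sum, map_sum, map_sum, ← Finset.sum_neg_distrib, ← Finset.sum_add_distrib]
    refine Finset.sum_congr rfl fun j _ => ?_
    rw [← mul_assoc, ibp_mul, ← neg_add, ← neg_add, ← map_add, ← map_add, F.X_mul]
    congr 2
    simp only [Fr.d0]
    ring
  simp only at h3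
  linarith

/-- One error term. For `k = 0` write the integrand as `(c * (Xw w g * X i u)) * Xw w' u` and use
`two_ip_le 0`, `mult 0`. For `k = j + 1` use `ip_shift j`, `mult j`, `leib j`, `Xw_append`. -/
theorem term_bd (k : ℕ) (c : A) {ε : ℝ} (hε : 0 < ε) : ∃ C : ℝ, 0 ≤ C ∧
    ∀ (g u : A) (B : ℝ) (i : ι) (w w' : List ι), w.length ≤ 1 → w'.length ≤ 2 →
      (∀ v v' : List ι, v.length + v'.length ≤ k + 2 → v'.length ≤ k + 1 → v.length ≤ k + 1 →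
        N.hs 0 (F.Xw v g * F.Xw v' u) ≤ B) →
      N.ip k (F.X i u) (c * (F.Xw w g * F.Xw w' u)) ≤ ε * N.hs (k + 2) u + C * B := by
  cases k with
  | zero =>
    obtain ⟨D, hD, h⟩ := N.mult 0 c
    refine ⟨ε⁻¹ * D, by positivity, fun g u B i w w' hw hw' H => ?_⟩
    have e : F.X i u * (c * (F.Xw w g * F.Xw w' u)) = c * (F.Xw w g * F.Xw [i] u) * F.Xw w' u := by
      simp only [Fr.Xw]
      ring
    rw [ip_zero, e, mul_assoc ε⁻¹]
    refine (N.RFb_two _ _ hε).1.trans (add_le_add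
      (mul_le_mul_of_nonneg_left (N.hs_Xw' (by omega) u) hε.le)
      (mul_le_mul_of_nonneg_left ((h _).trans (mul_le_mul_of_nonneg_left ?_ hD))
        (inv_pos.2 hε).le))
    exact H w [i] (by simp; omega) (by simp) (by omega)
  | succ j =>
    obtain ⟨D, hD, h⟩ := N.mult j c
    obtain ⟨E, hE, hl⟩ := N.leib j
    obtain ⟨C, hC, hs⟩ := N.ip_shift j
    refine ⟨C / ε * (D * E), by positivity, fun g u B i w w' hw hw' H => ?_⟩
    rw [mul_assoc (C / ε), mul_assoc D]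
    refine (hs _ _ ε hε).trans (add_le_add (mul_le_mul_of_nonneg_left (N.hs_X _ i u) hε.le)
      (mul_le_mul_of_nonneg_left ((h _).trans (mul_le_mul_of_nonneg_left
        (hl _ _ B fun v v' hv => ?_) hD)) (by positivity)))
    rw [← F.Xw_append, ← F.Xw_append]
    exact H _ _ (by simp; omega) (by simp; omega) (by simp; omega)

/-- The commutator of `X i` and `L0`; `β i j l = X i (X j (f l)) - X j (X i (f l))` (`F.brk`). -/
theorem X_L0 (m : Met F) (i : ι) (u : A) : F.X i (m.L0 u) = m.L0 (F.X i u) +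
    ∑ j, ∑ k, (F.X i (m.γ j k) * F.X j (F.X k u) + ∑ l,
      ((F.X i (F.X j (F.f l)) - F.X j (F.X i (F.f l))) * (m.γ j k * F.X l (F.X k u)) +
        F.X j (F.X i (F.X k (F.f l)) - F.X k (F.X i (F.f l))) * (m.γ j k * F.X l u) +
        (F.X i (F.X k (F.f l)) - F.X k (F.X i (F.f l))) * (m.γ j k * F.X j (F.X l u)))) := by
  rw [Met.L0, Met.L0, map_sum, ← Finset.sum_add_distrib]
  refine Finset.sum_congr rfl fun j _ => ?_
  rw [map_sum, ← Finset.sum_add_distrib]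
  refine Finset.sum_congr rfl fun k _ => ?_
  have h1 := F.brk i j (F.X k u)
  have h2 := congrArg (F.X j) (F.brk i k u)
  rw [map_sub, map_sum] at h2
  simp only [F.X_mul] at h2
  rw [Finset.sum_add_distrib] at h2
  simp only [mul_left_comm _ (m.γ j k)]
  rw [F.X_mul, Finset.sum_add_distrib, Finset.sum_add_distrib, ← Finset.mul_sum, ← Finset.mul_sum,
    ← Finset.mul_sum]
  linear_combination m.γ j k * h1 + m.γ j k * h2

/-- Induction on `k` (for all `ε` at once): `ip_succ`, `X_L0`, the induction hypothesis for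
`X i u` (`TB k γ (X i u) B` follows from `TB (k + 1) γ u B`), `garding0`, `term_bd`, and
`hs (k + 1) (X i u) = hs 0 (X i u) + ∑ l, hs k (X l (X i u))`. -/
theorem garding' (k : ℕ) {ε : ℝ} (hε : 0 < ε) : ∃ C : ℝ, 0 ≤ C ∧
    ∀ (c : ℝ) (m : Met F) (u : A) (B : ℝ), 0 ≤ B → N.Co c m → N.TB k m.γ u B →
      N.ip k u (m.L0 u) ≤ -c * ∑ i, N.hs k (F.X i u) + ε * N.hs (k + 1) u + C * B := by
  induction k generalizing ε with
  | zero =>
    obtain ⟨C, hC, h⟩ := N.garding0 hε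
    exact ⟨C, hC, fun c m u B _ h1 h2 => h c m u B h1 h2⟩
  | succ k ih =>
    have h0 : ∀ p : ℝ × Met F × A × ℝ, 0 ≤ N.hs (k + 2) p.2.2.1 := fun p => N.hs_nonneg _ _
    have t : ∀ (i j l : ι) (c : A) (w w' : List ι), w.length ≤ 1 → w'.length ≤ 2 →
        RFb_S (P := ℝ × Met F × A × ℝ)
          (fun p => 0 ≤ p.2.2.2 ∧ N.Co p.1 p.2.1 ∧ N.TB (k + 1) p.2.1.γ p.2.2.1 p.2.2.2)
          (fun p => N.hs (k + 2) p.2.2.1) (fun p => p.2.2.2) fun p =>
            N.ip k (F.X i p.2.2.1) (c * (F.Xw w (p.2.1.γ j l) * F.Xw w' p.2.2.1)) :=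
      fun i j l c w w' hw hw' η hη => by
        obtain ⟨C, hC, h⟩ := N.term_bd k c hη
        exact ⟨C, hC, fun p hp => h _ _ _ i w w' hw hw' fun v v' h1 h2 h3 =>
          hp.2.2 j l v v' h1 h2 (h3.trans (le_max_left _ _))⟩
    have a : RFb_S (P := ℝ × Met F × A × ℝ)
        (fun p => 0 ≤ p.2.2.2 ∧ N.Co p.1 p.2.1 ∧ N.TB (k + 1) p.2.1.γ p.2.2.1 p.2.2.2)
        (fun p => N.hs (k + 2) p.2.2.1) (fun p => p.2.2.2) fun p =>
          N.I (p.2.2.1 * p.2.1.L0 p.2.2.1) + p.1 * ∑ i, N.hs 0 (F.X i p.2.2.1) := fun η hη => by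
      obtain ⟨C, hC, h⟩ := N.garding0 hη
      refine ⟨C, hC, fun p hp => ?_⟩
      have h1 := h p.1 p.2.1 p.2.2.1 p.2.2.2 hp.2.1 fun i j w w' h1 h2 h3 =>
        hp.2.2 i j w w' (by omega) (by omega) (h3.trans (by simp))
      have h2 := mul_le_mul_of_nonneg_left (N.hs_mono (show 1 ≤ k + 2 by omega) p.2.2.1) hη.le
      linarith
    have b : ∀ i, RFb_S (P := ℝ × Met F × A × ℝ)
        (fun p => 0 ≤ p.2.2.2 ∧ N.Co p.1 p.2.1 ∧ N.TB (k + 1) p.2.1.γ p.2.2.1 p.2.2.2)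
        (fun p => N.hs (k + 2) p.2.2.1) (fun p => p.2.2.2) fun p =>
          N.ip k (F.X i p.2.2.1) (p.2.1.L0 (F.X i p.2.2.1)) +
            p.1 * ∑ l, N.hs k (F.X l (F.X i p.2.2.1)) := fun i η hη => by
      obtain ⟨C, hC, h⟩ := ih hη
      refine ⟨C, hC, fun p hp => ?_⟩
      have h1 := h p.1 p.2.1 (F.X i p.2.2.1) p.2.2.2 hp.1 hp.2.1 fun j l w w' h1 h2 h3 =>
        hp.2.2 j l w (i :: w') (by simp; omega) (by simp; omega) (h3.trans (by omega))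
      have h2 := mul_le_mul_of_nonneg_left (N.hs_X (k + 1) i p.2.2.1) hη.le
      linarith
    obtain ⟨C, hC, h⟩ := (a.add (RFb_S.sum h0 Finset.univ fun i => (b i).add
      (RFb_S.sum h0 Finset.univ fun j => RFb_S.sum h0 Finset.univ fun n =>
        (t i j n 1 [i] [n, j] le_rfl le_rfl).add (RFb_S.sum h0 Finset.univ fun l =>
          ((t i j n (F.X i (F.X j (F.f l)) - F.X j (F.X i (F.f l))) [] [n, l] (Nat.zero_le _)
            le_rfl).add
          (t i j n (F.X j (F.X i (F.X n (F.f l)) - F.X n (F.X i (F.f l)))) [] [l] (Nat.zero_le _)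
            (by simp))).add
          (t i j n (F.X i (F.X n (F.f l)) - F.X n (F.X i (F.f l))) [] [l, j] (Nat.zero_le _)
            le_rfl))))) ε hε
    refine ⟨C, hC, fun c m u B h1 h2 h3 => ?_⟩
    have h4 := h (c, m, u, B) ⟨h1, h2, h3⟩
    simp only [Fr.Xw, one_mul] at h4
    simp only [ip_succ, X_L0, hs_succ N k, ip_add, ip_sum]
    rw [Finset.sum_add_distrib, Finset.sum_add_distrib, ← Finset.mul_sum] at h4
    rw [Finset.sum_add_distrib, Finset.sum_add_distrib (f := fun i => N.hs 0 (F.X i u))]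
    linarith

theorem garding (k : ℕ) {c : ℝ} (hc : 0 < c) : ∃ C : ℝ, 0 ≤ C ∧
    ∀ (m : Met F) (u : A) (B : ℝ), 0 ≤ B → N.Co c m → N.TB k m.γ u B →
      N.ip k u (m.L0 u) ≤ -(c / 2) * N.hs (k + 1) u + C * (B + N.hs k u) := by
  obtain ⟨C, hC, h⟩ := N.garding' k (half_pos hc)
  refine ⟨C + c, by positivity, fun m u B hB h1 h2 => ?_⟩
  have h3 := h c m u B hB h1 h2
  have h4 := N.hs_succ k u
  have h5 := mul_le_mul_of_nonneg_left (N.hs_mono (Nat.zero_le k) u) hc.le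
  have h6 := mul_nonneg hC (N.hs_nonneg k u)
  have h7 := mul_nonneg hc.le hB
  rw [show ∑ i, N.hs k (F.X i u) = N.hs (k + 1) u - N.hs 0 u by linarith] at h3
  linarith

end An

end Pool.Agent.MP_9bd639_gt.H88

end

-- part RFc
section

/-! Graded classes of coefficients and the structure of the lower order terms; the algebra of the
constraint equations. -/

open Matrix

namespace Pool.Agent.MP_9bd639_gt.H88

set_option linter.unusedSectionVars false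

variable {ι : Type} [Fintype ι] [DecidableEq ι] {A : Type} [CommRing A] [Algebra ℝ A]
  {F : Fr ι A}

/-- Classes of coefficients of weight zero, one and two. -/
structure Cls (m : Met F) where
  M : Subalgebra ℝ A
  P : Submodule ℝ A
  R : Submodule ℝ A
  MP : ∀ a ∈ M, a ∈ P
  PR : ∀ a ∈ P, a ∈ R
  mulP : ∀ a ∈ M, ∀ b ∈ P, a * b ∈ P
  mulR : ∀ a ∈ M, ∀ b ∈ R, a * b ∈ R
  PP : ∀ a ∈ P, ∀ b ∈ P, a * b ∈ R
  π : ∀ w i j, F.Xw w (F.π i j) ∈ M
  G : ∀ i j, m.G i j ∈ M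
  γ : ∀ i j, m.γ i j ∈ M
  XG : ∀ l i j, F.X l (m.G i j) ∈ P
  XXG : ∀ k l i j, F.X k (F.X l (m.G i j)) ∈ R

/-- The trivial classes. -/
def Cls.top (m : Met F) : Cls m where
  M := ⊤
  P := ⊤
  R := ⊤
  MP _ _ := trivial
  PR _ _ := trivial
  mulP _ _ _ _ := trivial
  mulR _ _ _ _ := trivial
  PP _ _ _ _ := trivial
  π _ _ _ := trivial
  G _ _ := trivial
  γ _ _ := trivial
  XG _ _ _ := trivial
  XXG _ _ _ _ := trivial

/-- The remainder of the implicit step from `U` to `V`. -/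
noncomputable def Met.rem (m : Met F) (U V : Matrix ι ι A) : Matrix ι ι A :=
  m.low U + of fun a b => ∑ l, m.b0 l * F.X l (U a b - V a b)

theorem Met.rem_self (m : Met F) (U : Matrix ι ι A) : m.rem U U = m.low U := by
  ext a b; simp [Met.rem]

/-- `lap_eq`, `L0` is additive. -/
theorem Met.L0_rem (m : Met F) (U V : Matrix ι ι A) : V.map m.L0 + m.rem U V =
    m.lap2 U + m.Qf (F.sym U) + (V - U).map m.lap := by
  ext a b
  simp only [Met.rem, Met.low, Matrix.add_apply, Matrix.sub_apply, map_apply, of_apply, m.lap_eq,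
    Met.L0, map_sub, mul_sub, Finset.sum_sub_distrib]
  ring

theorem Hom.map_rem {B : Type} [CommRing B] [Algebra ℝ B] {F' : Fr ι B} (h : Hom F F') (m : Met F)
    (U V : Matrix ι ι A) : (m.rem U V).map h.φ = (m.map h).rem (U.map h.φ) (V.map h.φ) := by
  rw [Met.rem, Met.rem, h.A4_add, h.map_low]
  congr 1
  ext a b
  simp only [map_apply, of_apply, map_sum, map_mul, h.map_b0, h.comm, map_sub]

theorem RFc_mul {L : Submodule ℝ A} {p q : A → Prop} (h : ∀ a, p a → ∀ b, q b → a * b ∈ L)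
    {T U : Matrix ι ι A} (hT : ∀ i j, p (T i j)) (hU : ∀ i j, q (U i j)) (i j : ι) :
    (T * U) i j ∈ L := L.sum_mem fun l _ => h _ (hT i l) _ (hU l j)

theorem RFc_mul' {L : Submodule ℝ A} {p q : A → Prop} (h : ∀ a, p a → ∀ b, q b → a * b ∈ L)
    {T U : Matrix ι ι A} (hT : ∀ i j, q (T i j)) (hU : ∀ i j, p (U i j)) (i j : ι) :
    (T * U) i j ∈ L := L.sum_mem fun l _ => mul_comm (U l j) (T i l) ▸ h _ (hU l j) _ (hT i l)

/-- The elements of `P` whose first derivatives lie in `R`. -/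
def RFc_jet (F : Fr ι A) (P R : Submodule ℝ A) : Submodule ℝ A where
  carrier := {a | a ∈ P ∧ ∀ l, F.X l a ∈ R}
  add_mem' ha hb := ⟨P.add_mem ha.1 hb.1, fun l => by
    rw [map_add]; exact R.add_mem (ha.2 l) (hb.2 l)⟩
  zero_mem' := ⟨P.zero_mem, fun l => by rw [map_zero]; exact R.zero_mem⟩
  smul_mem' r a ha := ⟨P.smul_mem r ha.1, fun l => by
    rw [Derivation.map_smul]; exact R.smul_mem r (ha.2 l)⟩

/-- The elements that are mapped into `L` by all multiplications with elements of `S`. -/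
def RFc_col (S : Set A) (L : Submodule ℝ A) : Submodule ℝ A where
  carrier := {y | ∀ r ∈ S, r * y ∈ L}
  add_mem' ha hb r hr := by rw [mul_add]; exact L.add_mem (ha r hr) (hb r hr)
  zero_mem' r _ := by rw [mul_zero]; exact L.zero_mem
  smul_mem' t a ha r hr := by rw [mul_smul_comm]; exact L.smul_mem t (ha r hr)

namespace Cls

variable {m : Met F} (c : Cls m)

theorem RFc_E (i j : ι) : (m.γ + 1 - F.π) i j ∈ c.M := by
  refine c.M.sub_mem (c.M.add_mem (c.γ i j) ?_) (c.π [] i j)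
  rw [Matrix.one_apply]
  split_ifs
  exacts [c.M.one_mem, c.M.zero_mem]

/-- `XM_γ_eq`. -/
theorem Xγ (l i j : ι) : F.X l (m.γ i j) ∈ c.P := by
  have h : ∀ i j, F.XM l F.π i j ∈ c.P := fun i j => c.MP _ (c.π [l] i j)
  rw [← F.XM_apply, m.XM_γ_eq]
  exact c.P.sub_mem (h i j) (RFc_mul' c.mulP (RFc_mul c.mulP c.RFc_E
    fun i j => c.P.sub_mem (c.XG l i j) (h i j)) c.RFc_E i j)

theorem RFc_00 : ∀ a ∈ RFc_jet F c.M.toSubmodule c.P, ∀ b ∈ RFc_jet F c.M.toSubmodule c.P,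
    a * b ∈ RFc_jet F c.M.toSubmodule c.P := fun a ha b hb => ⟨c.M.mul_mem ha.1 hb.1, fun l => by
  rw [F.X_mul, mul_comm]
  exact c.P.add_mem (c.mulP _ hb.1 _ (ha.2 l)) (c.mulP _ ha.1 _ (hb.2 l))⟩

theorem RFc_01 : ∀ a ∈ RFc_jet F c.M.toSubmodule c.P, ∀ b ∈ RFc_jet F c.P c.R,
    a * b ∈ RFc_jet F c.P c.R := fun a ha b hb => ⟨c.mulP _ ha.1 _ hb.1, fun l => by
  rw [F.X_mul]
  exact c.R.add_mem (c.PP _ (ha.2 l) _ hb.1) (c.mulR _ ha.1 _ (hb.2 l))⟩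

theorem RFc_le {a : A} (ha : a ∈ RFc_jet F c.M.toSubmodule c.P) : a ∈ RFc_jet F c.P c.R :=
  ⟨c.MP _ ha.1, fun l => c.PR _ (ha.2 l)⟩

theorem RFc_π (i j : ι) : F.π i j ∈ RFc_jet F c.M.toSubmodule c.P :=
  ⟨c.π [] i j, fun l => c.MP _ (c.π [l] i j)⟩

theorem RFc_Xπ (k i j : ι) : F.XM k F.π i j ∈ RFc_jet F c.M.toSubmodule c.P :=
  ⟨c.π [k] i j, fun l => c.MP _ (c.π [k, l] i j)⟩

theorem RFc_G (i j : ι) : m.G i j ∈ RFc_jet F c.M.toSubmodule c.P := ⟨c.G i j, fun l => c.XG l i j⟩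

theorem RFc_γ (i j : ι) : m.γ i j ∈ RFc_jet F c.M.toSubmodule c.P := ⟨c.γ i j, fun l => c.Xγ l i j⟩

theorem RFc_XG (k i j : ι) : F.XM k m.G i j ∈ RFc_jet F c.P c.R :=
  ⟨c.XG k i j, fun l => c.XXG l k i j⟩

theorem XXγ (k l i j : ι) : F.X k (F.X l (m.γ i j)) ∈ c.R := by
  have hE : ∀ i j, (m.γ + 1 - F.π) i j ∈ RFc_jet F c.M.toSubmodule c.P := fun i j =>
    ⟨c.RFc_E i j, fun l => by
      rw [← F.XM_apply, F.XM_sub, F.XM_add, F.XM_one, add_zero]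
      exact c.P.sub_mem (c.Xγ l i j) ((c.RFc_π i j).2 l)⟩
  rw [← F.XM_apply l, m.XM_γ_eq]
  exact ((RFc_jet F c.P c.R).sub_mem (c.RFc_le (c.RFc_Xπ l i j)) (RFc_mul' c.RFc_01
    (RFc_mul c.RFc_01 hE fun i j => (RFc_jet F c.P c.R).sub_mem (c.RFc_XG l i j)
      (c.RFc_le (c.RFc_Xπ l i j))) hE i j)).2 k

theorem RFc_Γ (i j k : ι) : m.Γ i j k ∈ RFc_jet F c.P c.R := by
  have h0 : ∀ i j k, F.Γ0 i j k ∈ RFc_jet F c.M.toSubmodule c.P := fun i j k =>
    Submodule.sub_mem _ (RFc_mul c.RFc_00 (c.RFc_Xπ i) c.RFc_π j k)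
      (RFc_mul c.RFc_00 c.RFc_π (c.RFc_Xπ i) j k)
  have h1 : ∀ i j k, F.cM F.Γ0 i m.G j k ∈ RFc_jet F c.P c.R := fun i j k =>
    Submodule.sub_mem _ (Submodule.sub_mem _ (c.RFc_XG i j k)
      (c.RFc_le (RFc_mul c.RFc_00 (h0 i) c.RFc_G j k)))
      (c.RFc_le (RFc_mul (U := (F.Γ0 i)ᵀ) c.RFc_00 c.RFc_G (fun a b => h0 i b a) j k))
  have h2 : hf A ∈ RFc_jet F c.M.toSubmodule c.P :=
    ⟨c.M.algebraMap_mem _, fun l => by rw [F.X_hf]; exact c.P.zero_mem⟩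
  exact Submodule.add_mem _ (c.RFc_le (h0 i j k)) (RFc_mul' c.RFc_01 (fun j n => c.RFc_01 _ h2 _
    (Submodule.sub_mem _ (Submodule.add_mem _ (h1 i j n) (h1 j i n)) (h1 n i j))) c.RFc_γ j k)

theorem Γ (i j k : ι) : m.Γ i j k ∈ c.P := (c.RFc_Γ i j k).1
theorem XΓ (l i j k : ι) : F.X l (m.Γ i j k) ∈ c.R := (c.RFc_Γ i j k).2 l
theorem b0 (l : ι) : m.b0 l ∈ c.P :=
  c.P.sum_mem fun i _ => c.P.sum_mem fun j _ => c.mulP _ (c.γ i j) _ (c.Γ i j l)

theorem RFc_P0 (L : Submodule ℝ A) : ∀ p ∈ c.P, ∀ y ∈ RFc_col c.R L, p * y ∈ RFc_col c.P L :=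
  fun p hp y hy r hr => by rw [← mul_assoc]; exact hy _ (c.PP _ hr _ hp)

theorem RFc_P1 (L : Submodule ℝ A) : ∀ p ∈ c.P, ∀ y ∈ RFc_col c.P L, p * y ∈ RFc_col c.M L :=
  fun p hp y hy r hr => by rw [← mul_assoc]; exact hy _ (c.mulP _ hr _ hp)

theorem RFc_R0 (L : Submodule ℝ A) : ∀ p ∈ c.R, ∀ y ∈ RFc_col c.R L, p * y ∈ RFc_col c.M L :=
  fun p hp y hy r hr => by rw [← mul_assoc]; exact hy _ (c.mulR _ hr _ hp)

/-- Use the submodules `U0 = {y | ∀ r ∈ R, r * y ∈ L}`, `U1 = {y | ∀ p ∈ P, p * y ∈ L}`,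
`U2 = {y | ∀ a ∈ M, a * y ∈ L}`: `P U0 ⊆ U1`, `P U1 ⊆ U2`, `R U0 ⊆ U2`, `M U2 ⊆ U2 ⊆ L`. -/
theorem lap2 (L : Submodule ℝ A) {U : Matrix ι ι A} (h0 : ∀ r ∈ c.R, ∀ a b, r * U a b ∈ L)
    (h1 : ∀ p ∈ c.P, ∀ l a b, p * F.X l (U a b) ∈ L) (a b : ι) :
    m.lap2 U a b - m.L0 (U a b) ∈ L := by
  have u0 : ∀ a b, U a b ∈ RFc_col c.R L := fun a b r hr => h0 r hr a b
  have u1 : ∀ l a b, F.XM l U a b ∈ RFc_col c.P L := fun l a b r hr => h1 r hr l a b
  have u2 : ∀ l a b, m.c2 l U a b ∈ RFc_col c.P L := fun l a b =>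
    Submodule.sub_mem _ (Submodule.sub_mem _ (u1 l a b) (RFc_mul (c.RFc_P0 L) (c.Γ l) u0 a b))
      (RFc_mul' (U := (m.Γ l)ᵀ) (c.RFc_P0 L) u0 (fun a b => c.Γ l b a) a b)
  simp only [Met.lap2, Met.lapV, Met.trV, Met.L0, Matrix.sum_apply, Matrix.smul_apply,
    smul_eq_mul, ← Finset.sum_sub_distrib, ← mul_sub]
  refine L.sum_mem fun i _ => L.sum_mem fun j _ => ?_
  have e : covPi m.Γ m.c2 i (fun j => m.c2 j U) j a b - F.X i (F.X j (U a b)) =
      -(F.XM i (m.Γ j) * U) a b - (m.Γ j * F.XM i U) a b - (F.XM i U * (m.Γ j)ᵀ) a b -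
        (U * (F.XM i (m.Γ j))ᵀ) a b - (m.Γ i * m.c2 j U) a b - (m.c2 j U * (m.Γ i)ᵀ) a b -
        ∑ l, m.Γ i j l * m.c2 l U a b := by
    have e1 : F.XM i (m.c2 j U) = F.XM i (F.XM j U) - (F.XM i (m.Γ j) * U + m.Γ j * F.XM i U) -
        (F.XM i U * (m.Γ j)ᵀ + U * (F.XM i (m.Γ j))ᵀ) := by
      rw [Met.c2, Fr.cM, F.XM_sub, F.XM_sub, F.XM_mul, F.XM_mul, F.XM_transpose]
    rw [covPi, Met.c2, Fr.cM, ← Met.c2, e1]
    simp only [Matrix.sub_apply, Matrix.add_apply, Matrix.sum_apply, Matrix.smul_apply,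
      smul_eq_mul, F.XM_apply]
    ring
  rw [e]
  refine (?_ : _ ∈ RFc_col c.M L) _ (c.γ i j)
  refine Submodule.sub_mem _ (Submodule.sub_mem _ (Submodule.sub_mem _ (Submodule.sub_mem _
    (Submodule.sub_mem _ (Submodule.sub_mem _ (Submodule.neg_mem _ ?_) ?_) ?_) ?_) ?_) ?_) ?_
  · exact RFc_mul (T := F.XM i (m.Γ j)) (c.RFc_R0 L) (c.XΓ i j) u0 a b
  · exact RFc_mul (c.RFc_P1 L) (c.Γ j) (u1 i) a b
  · exact RFc_mul' (U := (m.Γ j)ᵀ) (c.RFc_P1 L) (u1 i) (fun a b => c.Γ j b a) a b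
  · exact RFc_mul' (U := (F.XM i (m.Γ j))ᵀ) (c.RFc_R0 L) u0 (fun a b => c.XΓ i j b a) a b
  · exact RFc_mul (c.RFc_P1 L) (c.Γ i) (u2 j) a b
  · exact RFc_mul' (U := (m.Γ i)ᵀ) (c.RFc_P1 L) (u2 j) (fun a b => c.Γ i b a) a b
  · exact Submodule.sum_mem _ fun l _ => c.RFc_P1 L _ (c.Γ i j l) _ (u2 l a b)

theorem lap1 (L : Submodule ℝ A) {η : ι → A} (h0 : ∀ r ∈ c.R, ∀ a, r * η a ∈ L)
    (h1 : ∀ p ∈ c.P, ∀ l a, p * F.X l (η a) ∈ L) (a : ι) :
    m.lap1 η a - m.L0 (η a) ∈ L := by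
  have u0 : ∀ a, η a ∈ RFc_col c.R L := fun a r hr => h0 r hr a
  have u1 : ∀ l a, F.X l (η a) ∈ RFc_col c.P L := fun l a r hr => h1 r hr l a
  have u2 : ∀ l a, m.c1 l η a ∈ RFc_col c.P L := fun l a =>
    Submodule.sub_mem _ (u1 l a) (Submodule.sum_mem _ fun n _ => c.RFc_P0 L _ (c.Γ l a n) _ (u0 n))
  simp only [Met.lap1, Met.lapV, Met.trV, Met.L0, Finset.sum_apply, Pi.smul_apply,
    smul_eq_mul, ← Finset.sum_sub_distrib, ← mul_sub]
  refine L.sum_mem fun i _ => L.sum_mem fun j _ => ?_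
  have e : covPi m.Γ m.c1 i (fun j => m.c1 j η) j a - F.X i (F.X j (η a)) =
      -∑ n, (F.X i (m.Γ j a n) * η n + m.Γ j a n * F.X i (η n)) -
        ∑ n, m.Γ i a n * m.c1 j η n - ∑ l, m.Γ i j l * m.c1 l η a := by
    rw [covPi, Pi.sub_apply, Finset.sum_apply]
    change F.X i (F.X j (η a) - ∑ n, m.Γ j a n * η n) - ∑ n, m.Γ i a n * m.c1 j η n -
      ∑ l, m.Γ i j l * m.c1 l η a - _ = _
    simp only [map_sub, map_sum, F.X_mul]
    ring
  rw [e]
  refine (?_ : _ ∈ RFc_col c.M L) _ (c.γ i j)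
  exact Submodule.sub_mem _ (Submodule.sub_mem _ (Submodule.neg_mem _ (Submodule.sum_mem _
    fun n _ => Submodule.add_mem _ (c.RFc_R0 L _ (c.XΓ i j a n) _ (u0 n))
      (c.RFc_P1 L _ (c.Γ j a n) _ (u1 i n))))
    (Submodule.sum_mem _ fun n _ => c.RFc_P1 L _ (c.Γ i a n) _ (u2 j n)))
    (Submodule.sum_mem _ fun l _ => c.RFc_P1 L _ (c.Γ i j l) _ (u2 l a))

end Cls

theorem RFc_W {W : Subalgebra ℝ A} (L : Submodule ℝ A) :
    ∀ p ∈ W, ∀ y ∈ RFc_col W L, p * y ∈ RFc_col W L :=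
  fun p hp y hy r hr => by rw [← mul_assoc]; exact hy _ (W.mul_mem hr hp)

theorem RFc_sym {W : Subalgebra ℝ A} (hπ : Mem W F.π) {V : Submodule ℝ A}
    (hV : ∀ p ∈ W, ∀ y ∈ V, p * y ∈ V) {U : Matrix ι ι A} (h : ∀ a b, U a b ∈ V) (a b : ι) :
    F.sym U a b ∈ V :=
  hV _ (W.algebraMap_mem _) _ (RFc_mul' hV (RFc_mul (U := U + Uᵀ) hV hπ
    fun a b => V.add_mem (h a b) (h b a)) hπ a b)

theorem RFc_tr {m : Met F} {W : Subalgebra ℝ A} (hγ : Mem W m.γ) {V : Submodule ℝ A}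
    (hV : ∀ p ∈ W, ∀ y ∈ V, p * y ∈ V) {U : Matrix ι ι A} (h : ∀ a b, U a b ∈ V) : m.tr U ∈ V :=
  V.sum_mem fun a _ => RFc_mul hV hγ h a a

theorem RFc_cm {W : Subalgebra ℝ A} {V : Submodule ℝ A} (hV : ∀ p ∈ W, ∀ y ∈ V, p * y ∈ V)
    (x : A) : ∀ p ∈ W, ∀ y ∈ V.comap (LinearMap.mulLeft ℝ x),
      p * y ∈ V.comap (LinearMap.mulLeft ℝ x) := fun p hp y hy => by
  change x * (p * y) ∈ V
  rw [mul_left_comm]
  exact hV p hp _ hy

section

variable {m : Met F} {W : Subalgebra ℝ A} (hπ : Mem W F.π) (hG : Mem W m.G) (hγ : Mem W m.γ)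
  (L : Submodule ℝ A) {U : Matrix ι ι A}
include hπ hG hγ

theorem kf_mem (h : ∀ y ∈ W, ∀ a b, y * U a b ∈ L) (a b : ι) : m.kf (F.sym U) a b ∈ L := by
  have h1 := RFc_sym hπ (RFc_W L) (U := U) fun a b y hy => h y hy a b
  have h2 : F.sym U a b + m.tr (F.sym U) * m.G a b ∈ RFc_col W L := by
    rw [mul_comm]
    exact Submodule.add_mem _ (h1 a b) (RFc_W L _ (hG a b) _ (RFc_tr hγ (RFc_W L) h1))
  exact h2 _ (W.neg_mem (ofNat_mem W 2))

theorem Qf_mem (h : ∀ y ∈ W, ∀ a b c d, y * (U a b * U c d) ∈ L) (a b : ι) :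
    m.Qf (F.sym U) a b ∈ L := by
  have hV := RFc_W (W := W) L
  set V := RFc_col W L
  have h1 : ∀ c d a b, U c d * F.sym U a b ∈ V := fun c d =>
    RFc_sym hπ (RFc_cm hV (U c d)) fun a b y hy => h y hy c d a b
  have h2 : ∀ a b c d, F.sym U a b * F.sym U c d ∈ V := fun a b =>
    RFc_sym hπ (RFc_cm hV (F.sym U a b)) fun c d => by
      change F.sym U a b * U c d ∈ V
      rw [mul_comm]
      exact h1 c d a b
  generalize F.sym U = T at h2
  have h3 : ∀ a b, (T * (m.γ * T)) a b ∈ V := fun a b =>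
    V.sum_mem fun l _ => RFc_mul (RFc_cm hV (T a l)) hγ (h2 a l) l b
  have h4 : ∀ a b, (T * (m.γ * Tᵀ)) a b ∈ V := fun a b =>
    V.sum_mem fun l _ => RFc_mul (U := Tᵀ) (RFc_cm hV (T a l)) hγ (fun c d => h2 a l d c) l b
  have h5 : ∀ a b, m.tr T * T a b ∈ V := fun a b => by
    rw [mul_comm]
    exact RFc_tr hγ (RFc_cm hV (T a b)) (h2 a b)
  have h6 : m.tr T * m.tr T ∈ V := RFc_tr hγ (RFc_cm hV (m.tr T)) h5
  have h7 : m.ip2 T T ∈ V := by
    rw [Met.ip2, Matrix.mul_assoc, Matrix.mul_assoc]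
    exact RFc_tr hγ hV h4
  have e : m.Qf T a b = 1 * (-6 * (T * (m.γ * T)) a b + 2 * (m.tr T * T a b) +
      hf A * (m.G a b * (3 * m.ip2 T T - m.tr T * m.tr T))) := by
    simp only [Met.Qf, Matrix.add_apply, Matrix.smul_apply, smul_eq_mul, Matrix.mul_assoc]
    ring
  rw [e]
  exact V.add_mem (V.add_mem (hV _ (W.neg_mem (ofNat_mem W 6)) _ (h3 a b))
    (hV _ (ofNat_mem W 2) _ (h5 a b))) (hV _ (W.algebraMap_mem _) _ (hV _ (hG a b) _
      (V.sub_mem (hV _ (ofNat_mem W 3) _ h7) h6))) 1 W.one_mem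

end

theorem Cls.rem {m : Met F} (c : Cls m) (L : Submodule ℝ A) {U V : Matrix ι ι A}
    (h0 : ∀ r ∈ c.R, ∀ a b, r * U a b ∈ L) (h1 : ∀ p ∈ c.P, ∀ l a b, p * F.X l (U a b) ∈ L)
    (h2 : ∀ p ∈ c.P, ∀ l a b, p * F.X l (V a b) ∈ L)
    (h3 : ∀ y ∈ c.M, ∀ a b c d, y * (U a b * U c d) ∈ L) (a b : ι) : m.rem U V a b ∈ L := by
  have e : m.rem U V a b = m.lap2 U a b - m.L0 (U a b) + m.Qf (F.sym U) a b +
      ∑ l, (m.b0 l * F.X l (U a b) - m.b0 l * F.X l (V a b)) := by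
    simp [Met.rem, Met.low, mul_sub]
  rw [e]
  exact L.add_mem (L.add_mem (c.lap2 L h0 h1 a b)
    (Qf_mem (fun i j => c.π [] i j) c.G c.γ L h3 a b))
    (L.sum_mem fun l _ => L.sub_mem (h1 _ (c.b0 l) l a b) (h2 _ (c.b0 l) l a b))

end Pool.Agent.MP_9bd639_gt.H88

end

-- part RFd
section

/-! Classes of families of functions; bounds for the inverse metric. -/

open Matrix

namespace Pool.Agent.MP_9bd639_gt.H88

set_option linter.unusedSectionVars false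

variable {ι : Type} [Fintype ι] [DecidableEq ι] {A : Type} [CommRing A] [Algebra ℝ A]

namespace An

variable {F : Fr ι A} {M : Type} (N : An F M)

/-- The Sobolev pairing and the squared norm of matrices. -/
def ipM (k : ℕ) (T U : Matrix ι ι A) : ℝ := ∑ a, ∑ b, N.ip k (T a b) (U a b)
def hM (k : ℕ) (T : Matrix ι ι A) : ℝ := ∑ a, ∑ b, N.hs k (T a b)

theorem hM_nonneg (k : ℕ) (T : Matrix ι ι A) : 0 ≤ N.hM k T :=
  Finset.sum_nonneg fun _ _ => Finset.sum_nonneg fun _ _ => N.hs_nonneg _ _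

theorem hs_le_hM (k : ℕ) (T : Matrix ι ι A) (a b : ι) : N.hs k (T a b) ≤ N.hM k T :=
  (Finset.single_le_sum (f := fun b => N.hs k (T a b)) (fun _ _ => N.hs_nonneg _ _)
    (Finset.mem_univ b)).trans (Finset.single_le_sum (f := fun a => ∑ b, N.hs k (T a b))
      (fun _ _ => Finset.sum_nonneg fun _ _ => N.hs_nonneg _ _) (Finset.mem_univ a))

theorem hM_mono {k l : ℕ} (h : k ≤ l) (T : Matrix ι ι A) : N.hM k T ≤ N.hM l T :=
  Finset.sum_le_sum fun _ _ => Finset.sum_le_sum fun _ _ => N.hs_mono h _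

theorem hM_le {k : ℕ} {T : Matrix ι ι A} {B : ℝ} (h : ∀ a b, N.hs k (T a b) ≤ B) :
    N.hM k T ≤ (Fintype.card ι : ℝ) ^ 2 * B := by
  refine (Finset.sum_le_sum fun a _ => Finset.sum_le_sum fun b _ => h a b).trans_eq ?_
  simp only [Finset.sum_const, Finset.card_univ, nsmul_eq_mul]
  ring

theorem ipM_self (k : ℕ) (T : Matrix ι ι A) : N.ipM k T T = N.hM k T := rfl

theorem ipM_comm (k : ℕ) (T U : Matrix ι ι A) : N.ipM k T U = N.ipM k U T := by
  simp only [ipM, N.ip_comm k (T _ _)]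

theorem ipM_add (k : ℕ) (T U V : Matrix ι ι A) :
    N.ipM k T (U + V) = N.ipM k T U + N.ipM k T V := by
  simp only [ipM, Matrix.add_apply, ip_add, Finset.sum_add_distrib]

theorem ipM_sub (k : ℕ) (T U V : Matrix ι ι A) :
    N.ipM k T (U - V) = N.ipM k T U - N.ipM k T V := by
  simp only [ipM, Matrix.sub_apply, ip_sub, Finset.sum_sub_distrib]

theorem ipM_smul (k : ℕ) (r : ℝ) (T U : Matrix ι ι A) : N.ipM k T (r • U) = r * N.ipM k T U := by
  simp only [ipM, Matrix.smul_apply, ip_smul, Finset.mul_sum]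

theorem hM_add (k : ℕ) (T U : Matrix ι ι A) :
    N.hM k (T + U) = N.hM k T + 2 * N.ipM k T U + N.hM k U := by
  simp only [ipM, hM, Matrix.add_apply, hs_add, Finset.sum_add_distrib, Finset.mul_sum]

theorem hM_smul (k : ℕ) (r : ℝ) (T : Matrix ι ι A) : N.hM k (r • T) = r ^ 2 * N.hM k T := by
  simp only [hM, Matrix.smul_apply, hs_smul, Finset.mul_sum]

theorem two_ipM_le (k : ℕ) (T U : Matrix ι ι A) {ε : ℝ} (hε : 0 < ε) :
    2 * N.ipM k T U ≤ ε * N.hM k T + ε⁻¹ * N.hM k U := by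
  simp only [ipM, hM, Finset.mul_sum, ← Finset.sum_add_distrib]
  exact Finset.sum_le_sum fun _ _ => Finset.sum_le_sum fun _ _ => N.two_ip_le k _ _ hε

theorem ipM_shift (k : ℕ) : ∃ C : ℝ, 0 ≤ C ∧ ∀ (V R : Matrix ι ι A) (ε : ℝ), 0 < ε →
    N.ipM (k + 1) V R ≤ ε * N.hM (k + 2) V + C / ε * N.hM k R := by
  obtain ⟨C, hC, h⟩ := N.ip_shift k
  refine ⟨C, hC, fun V R ε hε => ?_⟩
  simp only [ipM, hM, Finset.mul_sum, ← Finset.sum_add_distrib]
  exact Finset.sum_le_sum fun _ _ => Finset.sum_le_sum fun _ _ => h _ _ ε hε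

/-- Quantitative ellipticity. -/
structure El (c : ℝ) (m : Met F) : Prop where
  co : N.Co c m
  G : ∀ i j x, N.ev x (m.G i j) ^ 2 ≤ c⁻¹ ^ 2
  γ : ∀ i j x, N.ev x (m.γ i j) ^ 2 ≤ c⁻¹ ^ 2

variable {J : Type}

/-- Families whose squared `H ^ k` norm is bounded by a multiple of the weight. -/
def Bk (k : ℕ) (n : J → ℝ) : Submodule ℝ (J → A) where
  carrier := {y | ∃ C : ℝ, 0 ≤ C ∧ ∀ j, N.hs k (y j) ≤ C * n j}
  add_mem' := by
    rintro y z ⟨C, hC, hy⟩ ⟨D, hD, hz⟩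
    refine ⟨2 * C + 2 * D, by positivity, fun j => (N.hs_add_le k (y j) (z j)).trans ?_⟩
    linarith [hy j, hz j]
  zero_mem' := ⟨0, le_rfl, fun j => by rw [Pi.zero_apply, hs_zero', zero_mul]⟩
  smul_mem' := by
    rintro r y ⟨C, hC, hy⟩
    refine ⟨r ^ 2 * C, by positivity, fun j => ?_⟩
    rw [Pi.smul_apply, hs_smul, mul_assoc]
    exact mul_le_mul_of_nonneg_left (hy j) (sq_nonneg r)

/-- Families whose fourth power has an integral bounded by a multiple of the weight. -/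
def L4 (n : J → ℝ) : Submodule ℝ (J → A) where
  carrier := {y | ∃ C : ℝ, 0 ≤ C ∧ ∀ j, N.I (y j ^ 4) ≤ C * n j}
  add_mem' := by
    rintro y z ⟨C, hC, hy⟩ ⟨D, hD, hz⟩
    refine ⟨8 * C + 8 * D, by positivity, fun j => ?_⟩
    have h : N.I ((y j + z j) ^ 4) ≤ N.I ((8 : ℝ) • (y j ^ 4 + z j ^ 4)) := N.I_mono fun x => by
      simp only [map_smul, map_add, map_pow, smul_eq_mul]
      nlinarith [sq_nonneg ((N.ev x (y j)) ^ 2 - (N.ev x (z j)) ^ 2),
        sq_nonneg ((N.ev x (y j) - N.ev x (z j)) ^ 2),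
        mul_nonneg (sq_nonneg (N.ev x (y j) - N.ev x (z j))) (sq_nonneg (N.ev x (y j) + N.ev x (z j)))]
    rw [map_smul, map_add, smul_eq_mul] at h
    rw [Pi.add_apply]
    linarith [hy j, hz j]
  zero_mem' := ⟨0, le_rfl, fun j => by simp⟩
  smul_mem' := by
    rintro r y ⟨C, hC, hy⟩
    refine ⟨r ^ 4 * C, by positivity, fun j => ?_⟩
    rw [Pi.smul_apply, smul_pow, map_smul, smul_eq_mul, mul_assoc]
    exact mul_le_mul_of_nonneg_left (hy j) (by positivity)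

variable (J) in
/-- Bounded families. -/
def Sp : Subalgebra ℝ (J → A) where
  carrier := {y | ∃ C : ℝ, 0 ≤ C ∧ ∀ j x, N.ev x (y j) ^ 2 ≤ C}
  mul_mem' := by
    rintro y z ⟨C, hC, hy⟩ ⟨D, hD, hz⟩
    refine ⟨C * D, by positivity, fun j x => ?_⟩
    rw [Pi.mul_apply, map_mul, mul_pow]
    exact mul_le_mul (hy j x) (hz j x) (sq_nonneg _) hC
  add_mem' := by
    rintro y z ⟨C, hC, hy⟩ ⟨D, hD, hz⟩
    refine ⟨2 * C + 2 * D, by positivity, fun j x => ?_⟩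
    rw [Pi.add_apply, map_add]
    nlinarith [hy j x, hz j x, sq_nonneg (N.ev x (y j) - N.ev x (z j))]
  algebraMap_mem' r := ⟨r ^ 2, sq_nonneg r, fun j x => by simp⟩

theorem RFd_const (k : ℕ) {n : J → ℝ} (hn : ∀ j, 1 ≤ n j) (a : A) :
    (fun _ => a) ∈ N.Bk k n :=
  ⟨N.hs k a, N.hs_nonneg _ _, fun j => le_mul_of_one_le_right (N.hs_nonneg _ _) (hn j)⟩

theorem RFd_mul {k r s : ℕ} (h1 : k ≤ r) (h2 : k ≤ s) (h3 : k + 2 ≤ r + s) {n n' n'' : J → ℝ}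
    {y z : J → A} (hy : y ∈ N.Bk r n) (hz : z ∈ N.Bk s n') (e : ∀ j, n j * n' j = n'' j) :
    y * z ∈ N.Bk k n'' := by
  obtain ⟨C, hC, hy⟩ := hy
  obtain ⟨D, hD, hz⟩ := hz
  obtain ⟨E, hE, h⟩ := N.prod h1 h2 h3
  refine ⟨E * (C * D), by positivity, fun j => (h (y j) (z j)).trans ?_⟩
  rw [← e, mul_assoc, mul_mul_mul_comm]
  exact mul_le_mul_of_nonneg_left (mul_le_mul (hy j) (hz j) (N.hs_nonneg _ _)
    ((N.hs_nonneg _ _).trans (hy j))) hE

variable (J) in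
/-- Families bounded in `H ^ (k + 2)` (`prod`). -/
def Hb (k : ℕ) : Subalgebra ℝ (J → A) where
  carrier := {y | y ∈ N.Bk (k + 2) fun _ => 1}
  mul_mem' hy hz := N.RFd_mul le_rfl le_rfl (by omega) hy hz fun _ => mul_one _
  add_mem' hy hz := (N.Bk (k + 2) fun _ => 1).add_mem hy hz
  algebraMap_mem' r := N.RFd_const _ (fun _ => le_rfl) (algebraMap ℝ A r)

/-- Families bounded in `H ^ (k + 2)` with a weighted bound in `H ^ (k + 3)` (`prod`, `tame`). -/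
def Ht (k : ℕ) (n : J → ℝ) (hn : ∀ j, 1 ≤ n j) : Subalgebra ℝ (J → A) where
  carrier := {y | y ∈ N.Bk (k + 2) (fun _ => 1) ∧ y ∈ N.Bk (k + 3) n}
  mul_mem' := by
    rintro y z ⟨hy, C', hC', hy'⟩ ⟨hz, D', hD', hz'⟩
    refine ⟨N.RFd_mul le_rfl le_rfl (by omega) hy hz fun _ => mul_one _, ?_⟩
    obtain ⟨C, hC, hy⟩ := hy
    obtain ⟨D, hD, hz⟩ := hz
    obtain ⟨E, hE, h⟩ := N.tame k
    refine ⟨E * (C * D' + C' * D), by positivity, fun j => (h (y j) (z j)).trans ?_⟩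
    rw [mul_assoc]
    refine mul_le_mul_of_nonneg_left ?_ hE
    have h1 := mul_le_mul (hy j) (hz' j) (N.hs_nonneg _ _) (by positivity)
    have h2 := mul_le_mul (hy' j) ((N.hs_mono (Nat.le_add_left 2 k) _).trans (hz j))
      (N.hs_nonneg _ _) ((N.hs_nonneg _ _).trans (hy' j))
    linarith
  add_mem' hy hz := ⟨Submodule.add_mem _ hy.1 hz.1, Submodule.add_mem _ hy.2 hz.2⟩
  algebraMap_mem' r := ⟨N.RFd_const _ (fun _ => le_rfl) (algebraMap ℝ A r),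
    N.RFd_const _ hn (algebraMap ℝ A r)⟩

/-- Bounded families with a weighted bound in `H ^ 2` (`leib 2`, `hs0_mul_le`, and
`hs0_mul_four` with `gn` for the product of two first derivatives). -/
def S2 (n : J → ℝ) (hn : ∀ j, 1 ≤ n j) : Subalgebra ℝ (J → A) where
  carrier := {y | y ∈ N.Sp J ∧ y ∈ N.Bk 2 n}
  mul_mem' := by
    rintro y z ⟨hy, C', hC', hy'⟩ ⟨hz, D', hD', hz'⟩
    refine ⟨Subalgebra.mul_mem _ hy hz, ?_⟩
    obtain ⟨C, hC, hy⟩ := hy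
    obtain ⟨D, hD, hz⟩ := hz
    obtain ⟨E, hE, h⟩ := N.leib 2
    obtain ⟨G, hG, hg⟩ := N.gn
    refine ⟨E * (C * D' + D * C' + G * (C * C') + G * (D * D')), by positivity, fun j => ?_⟩
    rw [mul_assoc]
    refine h (y j) (z j) _ fun w w' hw => ?_
    have n0 : 0 ≤ n j := zero_le_one.trans (hn j)
    have p1 : 0 ≤ C * D' * n j := by positivity
    have p2 : 0 ≤ D * C' * n j := by positivity
    have p3 : 0 ≤ G * (C * C') * n j := by positivity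
    have p4 : 0 ≤ G * (D * D') * n j := by positivity
    rcases w with _ | ⟨i, w⟩
    · have h1 := (N.hs0_mul_le (hy j) (F.Xw w' (z j))).trans (mul_le_mul_of_nonneg_left
        ((N.hs_Xw' (k := 0) (r := 2) (by simpa using hw) _).trans (hz' j)) hC)
      rw [Fr.Xw]
      linarith
    rcases w' with _ | ⟨i', w'⟩
    · have h1 := (N.hs0_mul_le (hz j) (F.Xw (i :: w) (y j))).trans (mul_le_mul_of_nonneg_left
        ((N.hs_Xw' (k := 0) (r := 2) (by simpa using hw) _).trans (hy' j)) hD)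
      rw [mul_comm] at h1
      change N.hs 0 (F.Xw (i :: w) (y j) * z j) ≤ _
      linarith
    obtain rfl : w = [] := List.length_eq_zero_iff.1 (by simp only [List.length_cons] at hw; omega)
    obtain rfl : w' = [] := List.length_eq_zero_iff.1 (by simp only [List.length_cons] at hw; omega)
    have h1 := N.hs0_mul_four (F.X i (y j)) (F.X i' (z j)) one_pos
    have h2 := (hg (y j) C (hy j) hC i).trans (mul_le_mul_of_nonneg_left
      (mul_le_mul_of_nonneg_left (hy' j) hC) hG)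
    have h3 := (hg (z j) D (hz j) hD i').trans (mul_le_mul_of_nonneg_left
      (mul_le_mul_of_nonneg_left (hz' j) hD) hG)
    rw [inv_one] at h1
    change N.hs 0 (F.X i (y j) * F.X i' (z j)) ≤ _
    linarith
  add_mem' hy hz := ⟨Subalgebra.add_mem _ hy.1 hz.1, Submodule.add_mem _ hy.2 hz.2⟩
  algebraMap_mem' r := ⟨Subalgebra.algebraMap_mem _ r, N.RFd_const _ hn (algebraMap ℝ A r)⟩

theorem mem_Bk {k : ℕ} {n : J → ℝ} {y : J → A} :
    y ∈ N.Bk k n ↔ ∃ C : ℝ, 0 ≤ C ∧ ∀ j, N.hs k (y j) ≤ C * n j := Iff.rfl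
theorem mem_L4 {n : J → ℝ} {y : J → A} :
    y ∈ N.L4 n ↔ ∃ C : ℝ, 0 ≤ C ∧ ∀ j, N.I (y j ^ 4) ≤ C * n j := Iff.rfl
theorem mem_Sp {y : J → A} : y ∈ N.Sp J ↔ ∃ C : ℝ, 0 ≤ C ∧ ∀ j x, N.ev x (y j) ^ 2 ≤ C := Iff.rfl
theorem mem_Hb {k : ℕ} {y : J → A} : y ∈ N.Hb J k ↔ y ∈ N.Bk (k + 2) fun _ => 1 := Iff.rfl
theorem mem_Ht {k : ℕ} {n : J → ℝ} {hn : ∀ j, 1 ≤ n j} {y : J → A} :
    y ∈ N.Ht k n hn ↔ y ∈ N.Bk (k + 2) (fun _ => 1) ∧ y ∈ N.Bk (k + 3) n := Iff.rfl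
theorem mem_S2 {n : J → ℝ} {hn : ∀ j, 1 ≤ n j} {y : J → A} :
    y ∈ N.S2 n hn ↔ y ∈ N.Sp J ∧ y ∈ N.Bk 2 n := Iff.rfl

theorem pi_Xw (w : List ι) (y : J → A) (j : J) : (F.pi J).Xw w y j = F.Xw w (y j) := by
  induction w generalizing y with
  | nil => rfl
  | cons i w ih => exact ih _
theorem pi_π (a b : ι) (j : J) : (F.pi J).π a b j = F.π a b := rfl
theorem Bk_mono {k l : ℕ} {n n' : J → ℝ} {y : J → A} (h : y ∈ N.Bk k n) (hl : l ≤ k) {D : ℝ}
    (hD : 0 ≤ D) (hn : ∀ j, n j ≤ D * n' j) : y ∈ N.Bk l n' := by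
  obtain ⟨C, hC, h⟩ := h
  refine ⟨C * D, mul_nonneg hC hD, fun j => ((N.hs_mono hl _).trans (h j)).trans ?_⟩
  rw [mul_assoc]
  exact mul_le_mul_of_nonneg_left (hn j) hC
theorem Bk_const (k : ℕ) {n : J → ℝ} (hn : ∀ j, 1 ≤ n j) (a : A) :
    (fun _ => a) ∈ N.Bk k n := N.RFd_const k hn a
theorem Bk_X {k : ℕ} {n : J → ℝ} {y : J → A} (h : y ∈ N.Bk (k + 1) n) (i : ι) :
    (F.pi J).X i y ∈ N.Bk k n :=
  let ⟨C, hC, h⟩ := h
  ⟨C, hC, fun j => (N.hs_X k i (y j)).trans (h j)⟩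
theorem Bk_succ {k : ℕ} {n : J → ℝ} {y : J → A} (h0 : y ∈ N.Bk 0 n)
    (h : ∀ i, (F.pi J).X i y ∈ N.Bk k n) : y ∈ N.Bk (k + 1) n := by
  obtain ⟨C, hC, h0⟩ := h0
  choose D hD h using h
  refine ⟨C + ∑ i, D i, add_nonneg hC (Finset.sum_nonneg fun i _ => hD i), fun j => ?_⟩
  rw [hs_succ, add_mul, Finset.sum_mul]
  exact add_le_add (h0 j) (Finset.sum_le_sum fun i _ => h i j)
theorem Bk_mul {k r s : ℕ} (h1 : k ≤ r) (h2 : k ≤ s) (h3 : k + 2 ≤ r + s) {n n' : J → ℝ}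
    {y z : J → A} (hy : y ∈ N.Bk r n) (hz : z ∈ N.Bk s n') :
    y * z ∈ N.Bk k fun j => n j * n' j := N.RFd_mul h1 h2 h3 hy hz fun _ => rfl
theorem Sp_mul {n : J → ℝ} {y z : J → A} (hy : y ∈ N.Sp J) (hz : z ∈ N.Bk 0 n) :
    y * z ∈ N.Bk 0 n := by
  obtain ⟨C, hC, hy⟩ := hy
  obtain ⟨D, hD, hz⟩ := hz
  refine ⟨C * D, mul_nonneg hC hD, fun j => (N.hs0_mul_le (hy j) (z j)).trans ?_⟩
  rw [mul_assoc]
  exact mul_le_mul_of_nonneg_left (hz j) hC
theorem Sp_Bk {n : J → ℝ} (hn : ∀ j, 1 ≤ n j) {y : J → A} (hy : y ∈ N.Sp J) :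
    y ∈ N.Bk 0 n := by
  have h := N.Sp_mul hy (N.Bk_const 0 hn 1)
  rwa [show (fun _ : J => (1 : A)) = 1 from rfl, mul_one] at h
/-- `hs0_mul_four` and `le_mul_of_forall`. -/
theorem L4_mul {n n' : J → ℝ} (hn : ∀ j, 0 ≤ n j) (hn' : ∀ j, 0 ≤ n' j) {y z : J → A}
    (hy : y ∈ N.L4 n) (hz : z ∈ N.L4 n') : y * z ∈ N.Bk 0 fun j => √(n j * n' j) := by
  obtain ⟨C, hC, hy⟩ := hy
  obtain ⟨D, hD, hz⟩ := hz
  refine ⟨√(C * D), Real.sqrt_nonneg _, fun j => ?_⟩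
  have p1 := mul_nonneg hC (hn j)
  have p2 := mul_nonneg hD (hn' j)
  rw [← Real.sqrt_mul (mul_nonneg hC hD), mul_mul_mul_comm, Real.sqrt_mul p1]
  refine le_mul_of_forall (Real.sqrt_nonneg _) (Real.sqrt_nonneg _) fun ε hε => ?_
  rw [Real.sq_sqrt p1, Real.sq_sqrt p2]
  exact (N.hs0_mul_four (y j) (z j) hε).trans (add_le_add (mul_le_mul_of_nonneg_left (hy j) hε.le)
    (mul_le_mul_of_nonneg_left (hz j) (inv_pos.2 hε).le))
/-- `gn`. -/
theorem L4_X {n : J → ℝ} {y : J → A} (h0 : y ∈ N.Sp J) (h : y ∈ N.Bk 2 n) (i : ι) :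
    (F.pi J).X i y ∈ N.L4 n := by
  obtain ⟨C, hC, h0⟩ := h0
  obtain ⟨D, hD, h⟩ := h
  obtain ⟨G, hG, hg⟩ := N.gn
  refine ⟨G * (C * D), by positivity, fun j => (hg (y j) C (h0 j) hC i).trans ?_⟩
  rw [mul_assoc, mul_assoc]
  exact mul_le_mul_of_nonneg_left (mul_le_mul_of_nonneg_left (h j) hC) hG
theorem mem_of_hM {k : ℕ} {n : J → ℝ} {T : J → Matrix ι ι A} {C : ℝ} (hC : 0 ≤ C)
    (h : ∀ j, N.hM k (T j) ≤ C * n j) (a b : ι) : piM T a b ∈ N.Bk k n :=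
  ⟨C, hC, fun j => (N.hs_le_hM k (T j) a b).trans (h j)⟩
theorem hM_of_mem {k : ℕ} {n : J → ℝ} {T : J → Matrix ι ι A} (h : ∀ a b, piM T a b ∈ N.Bk k n) :
    ∃ C : ℝ, 0 ≤ C ∧ ∀ j, N.hM k (T j) ≤ C * n j := by
  choose C hC h using h
  refine ⟨∑ a, ∑ b, C a b, Finset.sum_nonneg fun a _ => Finset.sum_nonneg fun b _ => hC a b,
    fun j => ?_⟩
  simp only [hM, Finset.sum_mul]
  exact Finset.sum_le_sum fun a _ => Finset.sum_le_sum fun b _ => h a b j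

theorem RFd_L4 {n : J → ℝ} {y : J → A} : y ∈ N.L4 n ↔ y * y ∈ N.Bk 0 n := by
  have e : ∀ j, N.hs 0 ((y * y) j) = N.I (y j ^ 4) := fun j => by
    rw [hs_zero, Pi.mul_apply]; congr 1; ring
  simp only [mem_L4, mem_Bk, e]

theorem RFd_one (k : ℕ) (m : J → Met F) (j : J) : 1 ≤ 1 + N.hM k (m j).G :=
  le_add_of_nonneg_right (N.hM_nonneg _ _)

theorem RFd_G (k : ℕ) (m : J → Met F) (a b : ι) :
    (Met.pi m).G a b ∈ N.Bk k fun j => 1 + N.hM k (m j).G :=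
  N.mem_of_hM zero_le_one (fun j => by linarith) a b

theorem RFd_π (w : List ι) (a b : ι) :
    (F.pi J).Xw w ((F.pi J).π a b) = fun _ => F.Xw w (F.π a b) := funext fun j => pi_Xw w _ j

theorem clsLo {c : ℝ} {m : J → Met F} (hm : ∀ j, N.El c (m j)) : ∃ C : Cls (Met.pi m),
    C.M = N.Sp J ∧ C.P = N.L4 (fun j => 1 + N.hM 2 (m j).G) ∧
      C.R = N.Bk 0 fun j => 1 + N.hM 2 (m j).G := by
  have h1 := N.RFd_one 2 m
  have h0 : ∀ j, 0 ≤ 1 + N.hM 2 (m j).G := fun j => zero_le_one.trans (h1 j)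
  have MP : ∀ y ∈ N.Sp J, y ∈ N.L4 fun j => 1 + N.hM 2 (m j).G := fun y hy =>
    N.RFd_L4.2 (N.Sp_Bk h1 (mul_mem hy hy))
  have PP : ∀ y ∈ N.L4 fun j => 1 + N.hM 2 (m j).G, ∀ z ∈ N.L4 fun j => 1 + N.hM 2 (m j).G,
      y * z ∈ N.Bk 0 fun j => 1 + N.hM 2 (m j).G := fun y hy z hz =>
    N.Bk_mono (N.L4_mul h0 h0 hy hz) le_rfl zero_le_one fun j => by
      rw [Real.sqrt_mul_self (h0 j), one_mul]
  have hG : ∀ a b, (Met.pi m).G a b ∈ N.Sp J := fun a b =>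
    ⟨_, sq_nonneg _, fun j x => (hm j).G a b x⟩
  exact ⟨{  M := N.Sp J
            P := N.L4 fun j => 1 + N.hM 2 (m j).G
            R := N.Bk 0 fun j => 1 + N.hM 2 (m j).G
            MP := MP
            PR := fun y hy => by simpa using PP y hy 1 (MP 1 (one_mem _))
            mulP := fun y hy z hz => N.RFd_L4.2 (by
              rw [mul_mul_mul_comm]; exact N.Sp_mul (mul_mem hy hy) (N.RFd_L4.1 hz))
            mulR := fun y hy z hz => N.Sp_mul hy hz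
            PP := PP
            π := fun w a b => by
              rw [RFd_π]
              obtain ⟨C, hC, h⟩ := N.bdd_sq (F.Xw w (F.π a b))
              exact ⟨C, hC, fun _ => h⟩
            G := hG
            γ := fun a b => ⟨_, sq_nonneg _, fun j x => (hm j).γ a b x⟩
            XG := fun l a b => N.L4_X (hG a b) (N.RFd_G 2 m a b) l
            XXG := fun k l a b => N.Bk_X (N.Bk_X (N.RFd_G 2 m a b) l) k }, rfl, rfl, rfl⟩

theorem clsHi (k : ℕ) {m : J → Met F} (hG : ∀ a b, (Met.pi m).G a b ∈ N.Hb J k)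
    (hγ : ∀ a b, (Met.pi m).γ a b ∈ N.Hb J k) : ∃ C : Cls (Met.pi m), C.M = N.Hb J k ∧
    C.P = N.Bk (k + 1) (fun _ => 1) ⊓ N.Bk (k + 2) (fun j => 1 + N.hM (k + 3) (m j).G) ∧
      C.R = N.Bk (k + 1) fun j => 1 + N.hM (k + 3) (m j).G := by
  have h1 := N.RFd_one (k + 3) m
  exact ⟨{  M := N.Hb J k
            P := N.Bk (k + 1) (fun _ => 1) ⊓ N.Bk (k + 2) (fun j => 1 + N.hM (k + 3) (m j).G)
            R := N.Bk (k + 1) fun j => 1 + N.hM (k + 3) (m j).G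
            MP := fun y hy => ⟨N.Bk_mono hy (Nat.le_succ _) zero_le_one fun _ => by simp,
              N.Bk_mono hy le_rfl zero_le_one fun j => by simpa only [one_mul] using h1 j⟩
            PR := fun y hy => N.Bk_mono hy.2 (Nat.le_succ _) zero_le_one fun _ => by simp
            mulP := fun y hy z hz =>
              ⟨N.RFd_mul (Nat.le_succ _) le_rfl (by omega) hy hz.1 fun _ => one_mul _,
                N.RFd_mul le_rfl le_rfl (by omega) hy hz.2 fun _ => one_mul _⟩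
            mulR := fun y hy z hz =>
              N.RFd_mul (Nat.le_succ _) le_rfl (by omega) hy hz fun _ => one_mul _
            PP := fun y hy z hz =>
              N.RFd_mul le_rfl (Nat.le_succ _) (by omega) hy.1 hz.2 fun _ => one_mul _
            π := fun w a b => by
              rw [RFd_π]
              exact N.Bk_const _ (fun _ => le_rfl) _
            G := hG
            γ := hγ
            XG := fun l a b => ⟨N.Bk_X (hG a b) l, N.Bk_X (N.RFd_G (k + 3) m a b) l⟩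
            XXG := fun l' l a b => N.Bk_X (N.Bk_X (N.RFd_G (k + 3) m a b) l) l' }, rfl, rfl, rfl⟩

/-- `clsLo`, `Cls.Xγ`, `Cls.XXγ`, `Bk_succ`. -/
theorem γ_lo {c : ℝ} {m : J → Met F} (hm : ∀ j, N.El c (m j)) (a b : ι) :
    (Met.pi m).γ a b ∈ N.Bk 2 fun j => 1 + N.hM 2 (m j).G := by
  obtain ⟨C, hM, hP, hR⟩ := N.clsLo hm
  refine N.Bk_succ (N.Sp_Bk (N.RFd_one 2 m) (hM ▸ C.γ a b)) fun i => N.Bk_succ ?_ fun l => ?_
  · exact hR ▸ C.PR _ (C.Xγ i a b)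
  · exact hR ▸ C.XXγ l i a b

/-- Induction on `k`: `γ_lo` starts, `clsHi` with `Cls.Xγ` and `Bk_succ` gives the second part,
and the second part gives the first part for `k + 1`. -/
theorem γ_hi (k : ℕ) {c K : ℝ} {m : J → Met F} (hm : ∀ j, N.El c (m j))
    (hK : ∀ j, N.hM (k + 2) (m j).G ≤ K) (a b : ι) : (Met.pi m).γ a b ∈ N.Hb J k ∧
      (Met.pi m).γ a b ∈ N.Bk (k + 3) fun j => 1 + N.hM (k + 3) (m j).G := by
  have hw : ∀ {k : ℕ} {y : J → A}, (∀ j, N.hM (k + 2) (m j).G ≤ K) →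
      (y ∈ N.Bk (k + 2) fun j => 1 + N.hM (k + 2) (m j).G) → y ∈ N.Hb J k := fun hK hy =>
    N.Bk_mono hy le_rfl (D := 1 + |K|) (by positivity) fun j => by
      linarith [hK j, le_abs_self K]
  have step : ∀ {k : ℕ}, (∀ j, N.hM (k + 2) (m j).G ≤ K) →
      (∀ a b, (Met.pi m).γ a b ∈ N.Hb J k) → ∀ a b,
      (Met.pi m).γ a b ∈ N.Bk (k + 3) fun j => 1 + N.hM (k + 3) (m j).G := by
    intro k hK hγ a b
    obtain ⟨C, -, hP, -⟩ := N.clsHi k (fun a b => hw hK (N.RFd_G (k + 2) m a b)) hγ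
    refine N.Bk_succ (N.Bk_mono (hγ a b) (Nat.zero_le _) zero_le_one fun j => by
      simpa only [one_mul] using N.RFd_one (k + 3) m j) fun i => ?_
    have h := C.Xγ i a b
    rw [hP] at h
    exact h.2
  have first : ∀ a b, (Met.pi m).γ a b ∈ N.Hb J k := by
    induction k with
    | zero => exact fun a b => hw hK (N.γ_lo hm a b)
    | succ k ih =>
      have hK' : ∀ j, N.hM (k + 2) (m j).G ≤ K := fun j =>
        (N.hM_mono (Nat.le_succ _) _).trans (hK j)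
      exact fun a b => hw hK (step hK' (ih hK') a b)
  exact ⟨first a b, step hK first a b⟩

end An

end Pool.Agent.MP_9bd639_gt.H88

end

-- part RFe
section

/-! The energy estimate of level one, from pointwise bounds only. -/

open Matrix

namespace Pool.Agent.MP_9bd639_gt.H88

set_option linter.unusedSectionVars false

variable {ι : Type} [Fintype ι] [DecidableEq ι] {A : Type} [CommRing A] [Algebra ℝ A]

namespace An

variable {F : Fr ι A} {M : Type} (N : An F M)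

theorem RFe_amgm {n n' ε : ℝ} (C : ℝ) (hn : 0 ≤ n) (hn' : 0 ≤ n') (hε : 0 < ε) :
    C * √(n * n') ≤ ε * n' + C ^ 2 / ε * n := by
  obtain ⟨a, ha, rfl⟩ : ∃ a, 0 ≤ a ∧ n = a ^ 2 := ⟨√n, Real.sqrt_nonneg _, (Real.sq_sqrt hn).symm⟩
  obtain ⟨b, hb, rfl⟩ : ∃ a, 0 ≤ a ∧ n' = a ^ 2 :=
    ⟨√n', Real.sqrt_nonneg _, (Real.sq_sqrt hn').symm⟩
  rw [← mul_pow, Real.sqrt_sq (mul_nonneg ha hb)]
  have e : ε * b ^ 2 + C ^ 2 / ε * a ^ 2 - C * (a * b) =
      ε⁻¹ * ((ε * b - C * a / 2) ^ 2 + 3 / 4 * (C * a) ^ 2) := by field_simp; ring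
  have : 0 ≤ ε⁻¹ * ((ε * b - C * a / 2) ^ 2 + 3 / 4 * (C * a) ^ 2) := by positivity
  linarith

theorem RFe_unif {J κ : Type} [Fintype κ] {k : ℕ} {n : J → ℝ} (hn : ∀ j, 0 ≤ n j)
    {y : κ → J → A} (h : ∀ t, y t ∈ N.Bk k n) :
    ∃ C : ℝ, 0 ≤ C ∧ ∀ t j, N.hs k (y t j) ≤ C * n j := by
  choose C h0 h1 using fun t => N.mem_Bk.1 (h t)
  exact ⟨∑ t, C t, Finset.sum_nonneg fun t _ => h0 t, fun t j => (h1 t j).trans
    (mul_le_mul_of_nonneg_right (Finset.single_le_sum (fun t _ => h0 t) (Finset.mem_univ t))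
      (hn j))⟩

theorem RFe_congr {J : Type} {k : ℕ} {n : J → ℝ} {y z : J → A} (h : y ∈ N.Bk k n)
    (e : ∀ j, y j = z j) : z ∈ N.Bk k n := (funext e : y = z) ▸ h

/-- The index set of all admissible pairs. -/
def RFe_J (c K : ℝ) : Type :=
  {p : Met F × Matrix ι ι A // N.El c p.1 ∧ ∀ a b x, N.ev x (p.2 a b) ^ 2 ≤ K}

section

variable {N} {c K : ℝ}

/-- The two weights and their geometric mean. -/
def RFe_n (j : N.RFe_J c K) : ℝ := 1 + N.hM 2 j.1.1.G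
def RFe_p (j : N.RFe_J c K) : ℝ := 1 + N.hM 2 j.1.1.G + N.hM 2 j.1.2
noncomputable def RFe_W (j : N.RFe_J c K) : ℝ := √(RFe_n j * RFe_p j)

theorem RFe_n1 (j : N.RFe_J c K) : 1 ≤ RFe_n j := le_add_of_nonneg_right (N.hM_nonneg _ _)
theorem RFe_np (j : N.RFe_J c K) : RFe_n j ≤ RFe_p j := le_add_of_nonneg_right (N.hM_nonneg _ _)
theorem RFe_n0 (j : N.RFe_J c K) : 0 ≤ RFe_n j := zero_le_one.trans (RFe_n1 j)
theorem RFe_p1 (j : N.RFe_J c K) : 1 ≤ RFe_p j := (RFe_n1 j).trans (RFe_np j)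
theorem RFe_p0 (j : N.RFe_J c K) : 0 ≤ RFe_p j := zero_le_one.trans (RFe_p1 j)
theorem RFe_nW (j : N.RFe_J c K) : RFe_n j ≤ RFe_W j :=
  Real.le_sqrt_of_sq_le (by rw [sq]; exact mul_le_mul_of_nonneg_left (RFe_np j) (RFe_n0 j))

theorem RFe_Sp (a b : ι) : piM (fun j : N.RFe_J c K => j.1.2) a b ∈ N.Sp (N.RFe_J c K) :=
  N.mem_Sp.2 ⟨max K 0, le_max_right _ _, fun j x => (j.2.2 a b x).trans (le_max_left _ _)⟩

theorem RFe_B2 (a b : ι) : piM (fun j : N.RFe_J c K => j.1.2) a b ∈ N.Bk 2 RFe_p :=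
  N.mem_of_hM zero_le_one (fun j => by
    rw [one_mul]; exact le_add_of_nonneg_left (RFe_n0 j)) a b

theorem RFe_R {r : N.RFe_J c K → A} (hr : r ∈ N.Bk 0 RFe_n) (a b : ι) :
    r * piM (fun j : N.RFe_J c K => j.1.2) a b ∈ N.Bk 0 RFe_W := by
  rw [mul_comm]
  exact N.Bk_mono (N.Sp_mul (RFe_Sp a b) hr) le_rfl zero_le_one fun j => by
    rw [one_mul]; exact RFe_nW j

theorem RFe_P {p : N.RFe_J c K → A} (hp : p ∈ N.L4 RFe_n) (l a b : ι) :
    p * (F.pi _).X l (piM (fun j : N.RFe_J c K => j.1.2) a b) ∈ N.Bk 0 RFe_W :=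
  N.L4_mul RFe_n0 RFe_p0 hp (N.L4_X (RFe_Sp a b) (RFe_B2 a b) l)

end

theorem low_lo (c K : ℝ) {ε : ℝ} (hε : 0 < ε) : ∃ C : ℝ, 0 ≤ C ∧
    ∀ (m : Met F) (U : Matrix ι ι A), N.El c m → (∀ a b x, N.ev x (U a b) ^ 2 ≤ K) →
      N.hM 0 (m.low U) ≤ ε * N.hM 2 U + C * (1 + N.hM 2 m.G) := by
  obtain ⟨D, hM, hP, hR⟩ := N.clsLo (c := c) (m := fun j : N.RFe_J c K => j.1.1) fun j => j.2.1
  obtain ⟨C, hC, h⟩ := N.hM_of_mem (k := 0) (n := RFe_W)
    (T := fun j : N.RFe_J c K => j.1.1.low j.1.2) fun a b => by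
      have h1 := D.rem (N.Bk 0 RFe_W) (U := piM fun j : N.RFe_J c K => j.1.2)
        (V := piM fun j : N.RFe_J c K => j.1.2) (fun r hr => RFe_R (hR ▸ hr))
        (fun p hp => RFe_P (hP ▸ hp)) (fun p hp => RFe_P (hP ▸ hp))
        (fun y hy a b c d => N.Sp_Bk (fun j => (RFe_n1 j).trans (RFe_nW j))
          (mul_mem (hM ▸ hy) (mul_mem (RFe_Sp a b) (RFe_Sp c d)))) a b
      rw [Met.rem_self] at h1
      refine N.RFe_congr h1 fun j => ?_
      exact congrFun (congrFun ((F.at j).map_low (Met.pi fun j : N.RFe_J c K => j.1.1)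
        (piM fun j : N.RFe_J c K => j.1.2)) a) b
  refine ⟨ε + C ^ 2 / ε, by positivity, fun m U h1 h2 => (h ⟨(m, U), h1, h2⟩).trans ?_⟩
  refine (RFe_amgm C (RFe_n0 _) (RFe_p0 _) hε).trans_eq ?_
  simp only [RFe_n, RFe_p]
  ring

theorem gard_lo {c : ℝ} (hc : 0 < c) (K : ℝ) : ∃ C : ℝ, 0 ≤ C ∧
    ∀ (m : Met F) (U : Matrix ι ι A), N.El c m → (∀ a b x, N.ev x (U a b) ^ 2 ≤ K) →
      N.ipM 1 U (U.map m.L0) ≤ -(c / 4) * N.hM 2 U + C * (1 + N.hM 1 U + N.hM 2 m.G) := by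
  obtain ⟨D, hM, hP, hR⟩ := N.clsLo (c := c) (m := fun j : N.RFe_J c K => j.1.1) fun j => j.2.1
  obtain ⟨C, hC, h⟩ := N.garding 1 hc
  obtain ⟨E, hE, hb⟩ := N.RFe_unif (κ := (ι × ι) × (ι × ι) × Option ι × Option ι) (k := 0)
    (n := RFe_W) (fun j => Real.sqrt_nonneg _)
    (y := fun t (j : N.RFe_J c K) => F.Xw t.2.2.1.toList (j.1.1.γ t.1.1 t.1.2) *
      F.Xw t.2.2.2.toList (j.1.2 t.2.1.1 t.2.1.2)) (by
      rintro ⟨⟨i, l⟩, ⟨a, b⟩, o, o'⟩
      have h1 : (fun j : N.RFe_J c K => F.Xw o.toList (j.1.1.γ i l)) ∈ D.P := by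
        rcases o with _ | s
        · exact D.MP _ (D.γ i l)
        · exact D.Xγ s i l
      rcases o' with _ | s
      · exact RFe_R (hR ▸ D.PR _ h1) a b
      · exact RFe_P (hP ▸ h1) s a b)
  have ho : ∀ w : List ι, w.length ≤ 1 → ∃ o : Option ι, w = o.toList := by
    rintro (_ | ⟨s, _ | ⟨_, _⟩⟩) hw
    · exact ⟨none, rfl⟩
    · exact ⟨some s, rfl⟩
    · simp at hw
  refine ⟨C + c / 4 + ((Fintype.card ι : ℝ) ^ 2 * C * E) ^ 2 / (c / 4), by positivity,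
    fun m U h1 h2 => ?_⟩
  set j : N.RFe_J c K := ⟨(m, U), h1, h2⟩ with hj
  have h3 : ∀ a b, N.ip 1 (U a b) (m.L0 (U a b)) ≤
      -(c / 2) * N.hs 2 (U a b) + C * (E * RFe_W j + N.hs 1 (U a b)) := fun a b =>
    h m _ _ (mul_nonneg hE (Real.sqrt_nonneg _)) h1.co fun i l w w' _ h5 h6 => by
      obtain ⟨o, rfl⟩ := ho w h6
      obtain ⟨o', rfl⟩ := ho w' h5
      exact hb ((i, l), (a, b), o, o') j
  have h4 : N.ipM 1 U (U.map m.L0) ≤ -(c / 2) * N.hM 2 U +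
      ((Fintype.card ι : ℝ) ^ 2 * C * E * RFe_W j + C * N.hM 1 U) := by
    refine (Finset.sum_le_sum fun a _ => Finset.sum_le_sum fun b _ => h3 a b).trans_eq ?_
    simp only [An.hM, mul_add, Finset.sum_add_distrib, ← Finset.mul_sum, Finset.sum_const,
      Finset.card_univ, nsmul_eq_mul]
    ring
  have h5 := RFe_amgm ((Fintype.card ι : ℝ) ^ 2 * C * E) (RFe_n0 j) (RFe_p0 j)
    (show 0 < c / 4 by positivity)
  have h6 : 0 ≤ ((Fintype.card ι : ℝ) ^ 2 * C * E) ^ 2 / (c / 4) := by positivity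
  change _ * RFe_W j ≤ c / 4 * (1 + N.hM 2 m.G + N.hM 2 U) + _ * (1 + N.hM 2 m.G) at h5
  generalize ((Fintype.card ι : ℝ) ^ 2 * C * E) ^ 2 / (c / 4) = Q at h5 h6 ⊢
  have p1 := N.hM_nonneg 1 U
  have p2 := N.hM_nonneg 2 m.G
  nlinarith [mul_nonneg hC p2, mul_nonneg hc.le p1, mul_nonneg h6 p1]

theorem kf_lo (c K : ℝ) : ∃ C : ℝ, 0 ≤ C ∧
    ∀ (m : Met F) (U : Matrix ι ι A), N.El c m → (∀ a b x, N.ev x (U a b) ^ 2 ≤ K) →
      N.hM 2 (m.kf (F.sym U)) ≤ C * (1 + N.hM 2 m.G + N.hM 2 U) := by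
  obtain ⟨C, hC, h⟩ := N.hM_of_mem (k := 2) (n := RFe_p)
    (T := fun j : N.RFe_J c K => j.1.1.kf (F.sym j.1.2)) fun a b => by
      have h1 := kf_mem (m := Met.pi fun j : N.RFe_J c K => j.1.1) (W := N.S2 RFe_p RFe_p1)
        (fun i l => N.mem_S2.2 ⟨by
          obtain ⟨C, hC, h⟩ := N.bdd_sq (F.π i l)
          exact N.mem_Sp.2 ⟨C, hC, fun _ => h⟩, N.Bk_const 2 RFe_p1 (F.π i l)⟩)
        (fun i l => N.mem_S2.2 ⟨N.mem_Sp.2 ⟨_, sq_nonneg _, fun j => j.2.1.G i l⟩,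
          N.mem_of_hM zero_le_one (fun j => by
            rw [one_mul]
            exact (le_add_of_nonneg_left zero_le_one).trans (RFe_np j)) i l⟩)
        (fun i l => N.mem_S2.2 ⟨N.mem_Sp.2 ⟨_, sq_nonneg _, fun j => j.2.1.γ i l⟩,
          N.Bk_mono (N.γ_lo (fun j : N.RFe_J c K => j.2.1) i l) le_rfl zero_le_one fun j => by
            rw [one_mul]; exact RFe_np j⟩)
        (N.Bk 2 RFe_p) (U := piM fun j : N.RFe_J c K => j.1.2)
        (fun y hy a b => (N.mem_S2.1 (mul_mem hy (N.mem_S2.2 ⟨RFe_Sp a b, RFe_B2 a b⟩))).2) a b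
      refine N.RFe_congr h1 fun j => ?_
      have e := (F.at j).map_kf (Met.pi fun j : N.RFe_J c K => j.1.1)
        ((F.pi _).sym (piM fun j : N.RFe_J c K => j.1.2))
      rw [Hom.map_sym] at e
      exact congrFun (congrFun e a) b
  exact ⟨C, hC, fun m U h1 h2 => h ⟨(m, U), h1, h2⟩⟩

theorem est_lo {c : ℝ} (hc : 0 < c) (K : ℝ) : ∃ C : ℝ, 0 ≤ C ∧
    ∀ (m : Met F) (U : Matrix ι ι A), N.El c m → (∀ a b x, N.ev x (U a b) ^ 2 ≤ K) →
      2 * N.ipM 1 U (U.map m.L0 + m.low U) + 2 * N.ipM 2 m.G (m.kf (F.sym U)) ≤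
        -(c / 4) * N.hM 2 U + C * (1 + N.hM 1 U + N.hM 2 m.G) := by
  obtain ⟨C₁, p1, h1⟩ := N.gard_lo hc K
  obtain ⟨C₂, p2, h2⟩ := N.ipM_shift 0
  obtain ⟨C₄, p4, h4⟩ := N.kf_lo c K
  obtain ⟨Q, hQ, eQ⟩ : ∃ Q, 0 ≤ Q ∧ Q = C₂ / (c / 32) := ⟨_, by positivity, rfl⟩
  obtain ⟨η, hη, eη⟩ : ∃ η, 0 < η ∧ Q * η ≤ c / 32 := ⟨c / 32 / (Q + 1), by positivity, by
    rw [← mul_div_assoc, div_le_iff₀ (by positivity)]; nlinarith⟩
  obtain ⟨δ, hδ, eδ⟩ : ∃ δ, 0 < δ ∧ δ * C₄ ≤ c / 8 := ⟨c / 8 / (C₄ + 1), by positivity, by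
    rw [div_mul_eq_mul_div, div_le_iff₀ (by positivity)]; nlinarith⟩
  obtain ⟨C₃, p3, h3⟩ := N.low_lo c K hη
  refine ⟨2 * C₁ + 2 * (Q * C₃) + c / 8 + δ⁻¹, by positivity, fun m U hm hU => ?_⟩
  have a1 := h1 m U hm hU
  have a2 := h2 U (m.low U) (c / 32) (by positivity)
  rw [← eQ, zero_add, zero_add] at a2
  have a3 := mul_le_mul_of_nonneg_left (h3 m U hm hU) hQ
  have a4 := mul_le_mul_of_nonneg_left (h4 m U hm hU) hδ.le
  have a5 := N.two_ipM_le 2 (m.kf (F.sym U)) m.G hδ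
  have q1 := N.hM_nonneg 1 U
  have q2 := N.hM_nonneg 2 m.G
  have q3 := N.hM_nonneg 2 U
  have a6 := mul_le_mul_of_nonneg_right eη q3
  have a7 := mul_le_mul_of_nonneg_right eδ (show 0 ≤ 1 + N.hM 2 m.G + N.hM 2 U by positivity)
  have a8 : 0 < δ⁻¹ := inv_pos.2 hδ
  rw [ipM_add, N.ipM_comm 2 m.G]
  nlinarith [mul_nonneg (mul_nonneg hQ p3) q1, mul_nonneg hc.le q1, mul_nonneg a8.le q1]

end An

end Pool.Agent.MP_9bd639_gt.H88

end

-- part RFf
section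

/-! The energy estimates of level at least two. -/

open Matrix

namespace Pool.Agent.MP_9bd639_gt.H88

set_option linter.unusedSectionVars false

variable {ι : Type} [Fintype ι] [DecidableEq ι] {A : Type} [CommRing A] [Algebra ℝ A]

namespace An

variable {F : Fr ι A} {M : Type} (N : An F M)

theorem RFf_self (k : ℕ) {J : Type} (T : J → Matrix ι ι A) (a b : ι) :
    piM T a b ∈ N.Bk k fun j => N.hM k (T j) :=
  N.mem_of_hM zero_le_one (fun _ => (one_mul _).ge) a b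

theorem RFf_bd {k : ℕ} {K : ℝ} {J : Type} {T : J → Matrix ι ι A} (h : ∀ j, N.hM k (T j) ≤ K)
    (a b : ι) : piM T a b ∈ N.Bk k fun _ => 1 :=
  N.mem_of_hM (le_max_right K 0) (fun j => (h j).trans ((le_max_left K 0).trans_eq
    (mul_one _).symm)) a b

theorem RFf_le {k : ℕ} {J : Type} {n n' : J → ℝ} {y : J → A} (h : y ∈ N.Bk k n)
    (hn : ∀ j, n j ≤ n' j) : y ∈ N.Bk k n' :=
  N.Bk_mono h le_rfl zero_le_one fun j => (hn j).trans_eq (one_mul _).symm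

theorem RFf_max {k r : ℕ} {J : Type} {T : J → Matrix ι ι A} {y : J → A}
    (h1 : y ∈ N.Bk (k + r) fun _ => 1) (h2 : y ∈ N.Bk (k + r + 1) fun j => 1 + N.hM (k + 3) (T j)) :
    y ∈ N.Bk (max (k + r) (r + 1)) fun j => 1 + N.hM (max (k + 2) 3) (T j) := by
  rcases Nat.eq_zero_or_pos k with rfl | hk
  · rwa [max_eq_right (by omega), max_eq_right (by omega), ← zero_add r]
  · rw [max_eq_left (by omega)]
    exact N.RFf_le h1 fun j => le_add_of_nonneg_right (N.hM_nonneg _ _)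

theorem RFf_kf {J : Type} {k : ℕ} {n : J → ℝ} {m : J → Met F} {V : J → Matrix ι ι A}
    (h : ∀ a b, (Met.pi m).kf ((F.pi J).sym (piM V)) a b ∈ N.Bk k n) :
    ∃ C : ℝ, 0 ≤ C ∧ ∀ j, N.hM k ((m j).kf (F.sym (V j))) ≤ C * n j :=
  N.hM_of_mem fun a b => by
    have e : piM (fun j => (m j).kf (F.sym (V j))) a b =
        (Met.pi m).kf ((F.pi J).sym (piM V)) a b := funext fun j => by
      have := (F.at j).map_kf (Met.pi m) ((F.pi J).sym (piM V))
      rw [(F.at j).map_sym] at this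
      exact (congrFun (congrFun this a) b).symm
    exact e ▸ h a b

/-- Index set: all triples that satisfy the hypotheses. `γ_hi`, `clsHi`, `Cls.rem` with
`L = Bk (k + 1) (right side)`, `Bk_mul`; `p ∈ P` lies in `Bk (max (k + 1) 2)` with the weight
`1 + hM (max (k + 2) 3) G` (cases `k = 0` and `1 ≤ k`); naturality `Hom.map_rem`. -/
theorem rem_hi (k : ℕ) (c K : ℝ) : ∃ C : ℝ, 0 ≤ C ∧ ∀ (m : Met F) (U V : Matrix ι ι A),
    N.El c m → N.hM (k + 2) m.G ≤ K → N.hM (k + 1) U ≤ K → N.hM (k + 1) (m.rem U V) ≤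
      C * ((1 + N.hM (k + 2) U + N.hM (k + 3) m.G) * (1 + N.hM (max (k + 1) 2) U) +
        (1 + N.hM (max (k + 2) 3) m.G) * N.hM (k + 2) V) := by
  let J := {p : Met F × Matrix ι ι A × Matrix ι ι A //
    N.El c p.1 ∧ N.hM (k + 2) p.1.G ≤ K ∧ N.hM (k + 1) p.2.1 ≤ K}
  let m : J → Met F := fun j => j.1.1
  let U : J → Matrix ι ι A := fun j => j.1.2.1
  let V : J → Matrix ι ι A := fun j => j.1.2.2
  obtain ⟨C, c1, c2, c3⟩ := N.clsHi k (m := m) (N.RFf_bd fun j => j.2.2.1)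
    fun a b => (N.γ_hi k (m := m) (fun j => j.2.1) (fun j => j.2.2.1) a b).1
  have hP : ∀ p ∈ C.P, ∀ (T : J → Matrix ι ι A) l a b, p * (F.pi J).X l (piM T a b) ∈
      N.Bk (k + 1) fun j => (1 + N.hM (max (k + 2) 3) (m j).G) * N.hM (k + 2) (T j) :=
    fun p hp T l a b => by
      rw [c2] at hp
      exact N.Bk_mul (le_max_left _ _) le_rfl (by omega)
        (N.RFf_max (r := 1) (T := fun j => (m j).G) hp.1 hp.2) (N.Bk_X (N.RFf_self _ T a b) l)
  have p1 := fun j => N.hM_nonneg (k + 2) (U j)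
  have p2 := fun j => N.hM_nonneg (k + 3) (m j).G
  have p3 := fun j => N.hM_nonneg (max (k + 1) 2) (U j)
  have p4 := fun j => mul_nonneg (add_nonneg zero_le_one (N.hM_nonneg (max (k + 2) 3) (m j).G))
    (N.hM_nonneg (k + 2) (V j))
  have key := C.rem (N.Bk (k + 1) fun j =>
      (1 + N.hM (k + 2) (U j) + N.hM (k + 3) (m j).G) * (1 + N.hM (max (k + 1) 2) (U j)) +
        (1 + N.hM (max (k + 2) 3) (m j).G) * N.hM (k + 2) (V j)) (U := piM U) (V := piM V)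
    (fun r hr a b => by
      rw [c3] at hr
      refine N.RFf_le (N.Bk_mul le_rfl (le_max_left _ 2) (by omega) hr (N.RFf_self _ U a b))
        fun j => ?_
      nlinarith [p1 j, p2 j, p3 j, p4 j, mul_nonneg (p1 j) (p3 j)])
    (fun p hp l a b => by
      refine N.Bk_mono (hP p hp U l a b) le_rfl (D := 1 + max K 0) (by positivity) fun j => ?_
      have q1 := mul_nonneg (p1 j) (p3 j)
      have q2 := mul_nonneg (p2 j) (p3 j)
      have q3 := le_max_right K 0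
      rcases Nat.eq_zero_or_pos k with rfl | hk
      · refine le_trans ?_ (le_mul_of_one_le_left (by nlinarith [p1 j, p2 j, p3 j, p4 j])
          (by linarith))
        have e1 : N.hM (max (0 + 1) 2) (U j) = N.hM (0 + 2) (U j) := rfl
        have e2 : N.hM (max (0 + 2) 3) (m j).G = N.hM (0 + 3) (m j).G := rfl
        have := p4 j
        rw [e1] at q1 q2 ⊢
        rw [e2] at this ⊢
        nlinarith [p1 j, p2 j]
      · refine mul_le_mul ?_ (by nlinarith [p1 j, p2 j, p3 j, p4 j]) (p1 j) (by linarith)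
        rw [max_eq_left (by omega)]
        exact add_le_add le_rfl (j.2.2.1.trans (le_max_left _ _)))
    (fun p hp l a b => N.RFf_le (hP p hp V l a b) fun j => le_add_of_nonneg_left
      (mul_nonneg (by linarith [p1 j, p2 j]) (by linarith [p3 j])))
    fun y hy a b a' b' => by
      rw [c1] at hy
      refine N.RFf_le (N.Bk_mul (by omega) le_rfl (by omega) (N.mem_Hb.1 hy)
        (N.Bk_mul le_rfl (le_max_left _ 2) (by omega) (N.RFf_bd (fun j => j.2.2.2) a b)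
          (N.RFf_self _ U a' b'))) fun j => ?_
      nlinarith [p1 j, p2 j, p3 j, p4 j, mul_nonneg (p1 j) (p3 j), mul_nonneg (p2 j) (p3 j)]
  obtain ⟨D, hD, h⟩ := N.hM_of_mem (T := fun j => (m j).rem (U j) (V j)) fun a b => by
    have e : piM (fun j => (m j).rem (U j) (V j)) a b = (Met.pi m).rem (piM U) (piM V) a b :=
      funext fun j => (congrFun (congrFun ((F.at j).map_rem (Met.pi m) (piM U) (piM V)) a) b).symm
    exact e ▸ key a b
  exact ⟨D, hD, fun m U V h1 h2 h3 => h ⟨(m, U, V), h1, h2, h3⟩⟩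

/-- `garding (k + 2)`, `prodw` with `r = max (k + 2) 3`, `s = k + 2`, `γ_hi`. -/
theorem gard_hi (k : ℕ) {c : ℝ} (hc : 0 < c) (K : ℝ) : ∃ C : ℝ, 0 ≤ C ∧
    ∀ (m : Met F) (V : Matrix ι ι A), N.El c m → N.hM (k + 2) m.G ≤ K →
      N.ipM (k + 2) V (V.map m.L0) ≤ -(c / 2) * N.hM (k + 3) V +
        C * ((1 + N.hM (max (k + 2) 3) m.G) * N.hM (k + 2) V) := by
  let J := {m : Met F // N.El c m ∧ N.hM (k + 2) m.G ≤ K}
  obtain ⟨E, hE, h1⟩ := N.hM_of_mem (T := fun j : J => j.1.γ) fun a b =>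
    have := N.γ_hi k (m := fun j : J => j.1) (fun j => j.2.1) (fun j => j.2.2) a b
    N.RFf_max (r := 2) (T := fun j : J => j.1.G) this.1 this.2
  obtain ⟨D, hD, h2⟩ := N.prodw
  obtain ⟨C, hC, h3⟩ := N.garding (k + 2) hc
  refine ⟨C * (D * E + 1), by positivity, fun m V a1 a2 => ?_⟩
  have q0 := N.hM_nonneg (max (k + 2) 3) m.G
  simp only [ipM, hM.eq_1 N (k + 3) V, hM.eq_1 N (k + 2) V, Finset.mul_sum,
    ← Finset.sum_add_distrib]
  refine Finset.sum_le_sum fun a _ => Finset.sum_le_sum fun b _ => ?_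
  have q1 := N.hs_nonneg (k + 2) (V a b)
  refine (h3 m (V a b) (D * (E * (1 + N.hM (max (k + 2) 3) m.G) * N.hs (k + 2) (V a b)))
    (by positivity) a1.co fun i j w w' b1 b2 b3 => ?_).trans (add_le_add le_rfl ?_)
  · exact (h2 _ _ (max (k + 2) 3) (k + 2) w w' (by omega) b2 (by omega)).trans
      (mul_le_mul_of_nonneg_left (mul_le_mul_of_nonneg_right
        ((N.hs_le_hM _ _ i j).trans (h1 ⟨m, a1, a2⟩)) q1) hD)
  · rw [mul_assoc C]
    refine mul_le_mul_of_nonneg_left ?_ hC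
    nlinarith [mul_nonneg q0 q1]

/-- `kf_mem` with `W = Ht k n`, `n = 1 + hM (k + 3) G`; `tame`, `γ_hi`. -/
theorem kf_hi (k : ℕ) (c K : ℝ) : ∃ C : ℝ, 0 ≤ C ∧ ∀ (m : Met F) (V : Matrix ι ι A),
    N.El c m → N.hM (k + 2) m.G ≤ K → N.hM (k + 3) (m.kf (F.sym V)) ≤
      C * (N.hM (k + 3) V + (1 + N.hM (k + 3) m.G) * N.hM 2 V) := by
  let J := {p : Met F × Matrix ι ι A // N.El c p.1 ∧ N.hM (k + 2) p.1.G ≤ K}
  let m : J → Met F := fun j => j.1.1
  let V : J → Matrix ι ι A := fun j => j.1.2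
  have hn : ∀ j, 1 ≤ 1 + N.hM (k + 3) (m j).G := fun j => le_add_of_nonneg_right (N.hM_nonneg _ _)
  obtain ⟨E, hE, h0⟩ := N.tame k
  obtain ⟨D, hD, h⟩ := N.RFf_kf (kf_mem (m := Met.pi m) (W := N.Ht k _ hn)
    (fun a b => ⟨N.Bk_const _ (fun _ => le_rfl) (F.π a b), N.Bk_const _ hn (F.π a b)⟩)
    (fun a b => ⟨N.RFf_bd (fun j => j.2.2) a b, N.RFf_le (N.RFf_self _ (fun j => (m j).G) a b)
      fun j => le_add_of_nonneg_left zero_le_one⟩)
    (N.γ_hi k (m := m) (fun j => j.2.1) fun j => j.2.2)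
    (N.Bk (k + 3) fun j => N.hM (k + 3) (V j) + (1 + N.hM (k + 3) (m j).G) * N.hM 2 (V j))
    (U := piM V) fun y hy a b => by
      obtain ⟨⟨C1, a1, b1⟩, C2, a2, b2⟩ := hy
      refine ⟨E * (C1 + C2), by positivity, fun j => (h0 (y j) (V j a b)).trans ?_⟩
      rw [mul_assoc]
      refine mul_le_mul_of_nonneg_left ?_ hE
      have q1 := mul_le_mul (b1 j) (N.hs_le_hM (k + 3) (V j) a b) (N.hs_nonneg _ _)
        (by positivity)
      have q2 := mul_le_mul (b2 j) (N.hs_le_hM 2 (V j) a b) (N.hs_nonneg _ _)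
        (mul_nonneg a2 (zero_le_one.trans (hn j)))
      have q3 := mul_nonneg a2 (N.hM_nonneg (k + 3) (V j))
      have q4 := mul_nonneg a1 (mul_nonneg (zero_le_one.trans (hn j)) (N.hM_nonneg 2 (V j)))
      linarith)
  exact ⟨D, hD, fun m V h1 h2 => h ⟨(m, V), h1, h2⟩⟩

/-- `kf_mem` with `W = Hb 0`, `L = Bk 2 (hM 2 V)`, then `sob2`. -/
theorem kf_sup (c K : ℝ) : ∃ C : ℝ, 0 ≤ C ∧ ∀ (m : Met F) (V : Matrix ι ι A),
    N.El c m → N.hM 2 m.G ≤ K → ∀ a b x, N.ev x (m.kf (F.sym V) a b) ^ 2 ≤ C * N.hM 2 V := by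
  let J := {p : Met F × Matrix ι ι A // N.El c p.1 ∧ N.hM 2 p.1.G ≤ K}
  let m : J → Met F := fun j => j.1.1
  let V : J → Matrix ι ι A := fun j => j.1.2
  obtain ⟨E, hE, h0⟩ := N.sob2
  obtain ⟨D, hD, h⟩ := N.RFf_kf (kf_mem (m := Met.pi m) (W := N.Hb J 0)
    (fun a b => N.mem_Hb.2 (N.Bk_const _ (fun _ => le_rfl) (F.π a b)))
    (N.RFf_bd fun j => j.2.2)
    (fun a b => (N.γ_hi 0 (m := m) (fun j => j.2.1) (fun j => j.2.2) a b).1)
    (N.Bk 2 fun j => N.hM 2 (V j)) (U := piM V) fun y hy a b =>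
      N.RFf_le (N.Bk_mul le_rfl le_rfl le_rfl (N.mem_Hb.1 hy) (N.RFf_self 2 V a b))
        fun j => (one_mul _).le)
  refine ⟨E * D, by positivity, fun m V h1 h2 a b x => (h0 _ x).trans ?_⟩
  rw [mul_assoc]
  exact mul_le_mul_of_nonneg_left ((N.hs_le_hM 2 _ a b).trans (h ⟨(m, V), h1, h2⟩)) hE

/-- `gard_hi`, `rem_hi`, `ipM_shift (k + 1)`. -/
theorem est_par (k : ℕ) {c : ℝ} (hc : 0 < c) (K : ℝ) : ∃ C : ℝ, 0 ≤ C ∧
    ∀ (m : Met F) (U V : Matrix ι ι A), N.El c m → N.hM (k + 2) m.G ≤ K → N.hM (k + 1) U ≤ K →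
      N.ipM (k + 2) V (V.map m.L0 + m.rem U V) ≤ -(c / 4) * N.hM (k + 3) V +
        C * ((1 + N.hM (k + 2) U + N.hM (k + 3) m.G) * (1 + N.hM (max (k + 1) 2) U) +
          (1 + N.hM (max (k + 2) 3) m.G) * N.hM (k + 2) V) := by
  obtain ⟨C1, hC1, h1⟩ := N.gard_hi k hc K
  obtain ⟨C2, hC2, h2⟩ := N.ipM_shift (k + 1)
  obtain ⟨C3, hC3, h3⟩ := N.rem_hi k c K
  refine ⟨C1 + C2 / (c / 4) * C3, by positivity, fun m U V he hG hU => ?_⟩
  have a1 := h1 m V he hG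
  have a2 : N.ipM (k + 2) V (m.rem U V) ≤
      c / 4 * N.hM (k + 3) V + C2 / (c / 4) * N.hM (k + 1) (m.rem U V) :=
    h2 V (m.rem U V) (c / 4) (by positivity)
  have a3 := mul_le_mul_of_nonneg_left (h3 m U V he hG hU) (show 0 ≤ C2 / (c / 4) by positivity)
  have a4 : 0 ≤ C1 * ((1 + N.hM (k + 2) U + N.hM (k + 3) m.G) * (1 + N.hM (max (k + 1) 2) U)) := by
    have := N.hM_nonneg (k + 2) U
    have := N.hM_nonneg (k + 3) m.G
    have := N.hM_nonneg (max (k + 1) 2) U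
    positivity
  rw [ipM_add]
  linarith

/-- `est_par 0` with `V = U`, `kf_hi 0`, `two_ipM_le`. -/
theorem est_two {c : ℝ} (hc : 0 < c) (K : ℝ) : ∃ C : ℝ, 0 ≤ C ∧
    ∀ (m : Met F) (U : Matrix ι ι A), N.El c m → N.hM 2 m.G ≤ K → N.hM 1 U ≤ K →
      2 * N.ipM 2 U (U.map m.L0 + m.low U) + 2 * N.ipM 3 m.G (m.kf (F.sym U)) ≤
        C * ((1 + N.hM 2 U) * (1 + N.hM 2 U + N.hM 3 m.G)) := by
  obtain ⟨C1, hC1, h1⟩ := N.est_par 0 hc K
  obtain ⟨C2, hC2, h2⟩ := N.kf_hi 0 c K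
  obtain ⟨ε, hε, e⟩ : ∃ ε : ℝ, 0 < ε ∧ ε⁻¹ * C2 ≤ c / 2 := ⟨2 * (C2 + 1) / c, by positivity, by
    rw [inv_div, div_mul_eq_mul_div, div_le_div_iff₀ (by positivity) (by positivity)]
    linarith⟩
  refine ⟨4 * C1 + ε + c / 2, by positivity, fun m U he hG hU => ?_⟩
  have a1 : N.ipM 2 U (U.map m.L0 + m.rem U U) ≤ -(c / 4) * N.hM 3 U +
      C1 * ((1 + N.hM 2 U + N.hM 3 m.G) * (1 + N.hM 2 U) + (1 + N.hM 3 m.G) * N.hM 2 U) :=
    h1 m U U he hG hU
  have a2 : N.hM 3 (m.kf (F.sym U)) ≤ C2 * (N.hM 3 U + (1 + N.hM 3 m.G) * N.hM 2 U) := h2 m U he hG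
  have a3 := N.two_ipM_le 3 m.G (m.kf (F.sym U)) hε
  rw [m.rem_self] at a1
  have n1 := N.hM_nonneg 2 U
  have n2 := N.hM_nonneg 3 m.G
  have n3 := N.hM_nonneg 3 U
  generalize N.hM 2 U = a at *
  generalize N.hM 3 m.G = g at *
  generalize N.hM 3 U = t at *
  have b1 := mul_le_mul_of_nonneg_left a2 (inv_pos.2 hε).le
  have b2 := mul_le_mul_of_nonneg_right e (show 0 ≤ t + (1 + g) * a by positivity)
  have b3 : (1 + g) * a ≤ (1 + a) * (1 + a + g) := by linarith [mul_nonneg n1 n1]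
  have b4 : g ≤ (1 + a) * (1 + a + g) := by linarith [mul_nonneg n1 n1, mul_nonneg n1 n2]
  linarith [mul_le_mul_of_nonneg_left b3 hC1, mul_le_mul_of_nonneg_left b3 hc.le,
    mul_le_mul_of_nonneg_left b4 hε.le]

/-- Pair the equation with `V`: `2 * ipM V (V - U) ≥ hM V - hM U`; absorb `C * h * hM V`. -/
theorem stepV (k : ℕ) {c : ℝ} (hc : 0 < c) (K : ℝ) : ∃ C h0 : ℝ, 0 ≤ C ∧ 0 < h0 ∧
    ∀ (m : Met F) (U V : Matrix ι ι A) (h : ℝ), 0 < h → h ≤ h0 → N.El c m →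
      N.hM (max (k + 2) 3) m.G ≤ K → N.hM (max (k + 1) 2) U ≤ K →
      V - U = h • (V.map m.L0 + m.rem U V) →
      N.hM (k + 2) V + h * (c / 2) * N.hM (k + 3) V ≤
        N.hM (k + 2) U + C * h * (1 + N.hM (k + 2) U + N.hM (k + 3) m.G) := by
  obtain ⟨C1, hC1, h1⟩ := N.est_par k hc K
  obtain ⟨D, hD⟩ : ∃ D, D = 2 * C1 * (1 + |K|) := ⟨_, rfl⟩
  have D0 : 0 ≤ D := by rw [hD]; positivity
  refine ⟨4 * D, 1 / (2 * (D + 1)), by positivity, by positivity,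
    fun m U V h h0 hh he hG hU hV => ?_⟩
  have a1 := h1 m U V he ((N.hM_mono (le_max_left _ _) _).trans hG)
    ((N.hM_mono (le_max_left _ _) _).trans hU)
  have a2 := congrArg (N.ipM (k + 2) V) hV
  rw [ipM_sub, ipM_smul, ipM_self] at a2
  have a3 := N.two_ipM_le (k + 2) V U one_pos
  rw [inv_one, one_mul, one_mul] at a3
  have n1 := N.hM_nonneg (k + 2) U
  have n2 := N.hM_nonneg (k + 3) m.G
  have n3 := N.hM_nonneg (k + 3) V
  have n4 := N.hM_nonneg (k + 2) V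
  have k1 := hG.trans (le_abs_self K)
  have k2 := hU.trans (le_abs_self K)
  generalize N.hM (max (k + 2) 3) m.G = g' at *
  generalize N.hM (max (k + 1) 2) U = u' at *
  generalize N.hM (k + 2) U = u at *
  generalize N.hM (k + 3) m.G = g at *
  generalize N.hM (k + 3) V = t at *
  generalize N.hM (k + 2) V = v at *
  have b1 : 2 * C1 * ((1 + u + g) * (1 + u') + (1 + g') * v) ≤ D * (1 + u + g + v) := by
    rw [hD, mul_assoc (2 * C1)]
    refine mul_le_mul_of_nonneg_left ?_ (by positivity)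
    linarith [mul_le_mul_of_nonneg_left k2 (show 0 ≤ 1 + u + g by positivity),
      mul_le_mul_of_nonneg_left k1 n4]
  have b2 : v + h * (c / 2) * t ≤ u + h * (D * (1 + u + g + v)) := by
    linarith [mul_le_mul_of_nonneg_left a1 h0.le, mul_le_mul_of_nonneg_left b1 h0.le]
  have b3 : h * D ≤ 1 / 2 := by
    rw [le_div_iff₀ (by positivity)] at hh
    linarith
  have b4 : v ≤ 3 * (1 + u + g) := by
    have := mul_le_mul_of_nonneg_right b3 (show 0 ≤ 1 + u + g + v by positivity)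
    have : 0 ≤ h * (c / 2) * t := by positivity
    linarith
  linarith [mul_le_mul_of_nonneg_left b4 (mul_nonneg h0.le D0)]

/-- `hM_add`, `hM_smul`, `two_ipM_le`, `kf_hi`. -/
theorem stepG (k : ℕ) {c : ℝ} (hc : 0 < c) (K : ℝ) : ∃ C h0 : ℝ, 0 ≤ C ∧ 0 < h0 ∧
    ∀ (m : Met F) (V : Matrix ι ι A) (h : ℝ), 0 < h → h ≤ h0 → N.El c m →
      N.hM (k + 2) m.G ≤ K → N.hM 2 V ≤ K →
      N.hM (k + 3) (m.G + h • m.kf (F.sym V)) ≤
        N.hM (k + 3) m.G + h * (c / 2) * N.hM (k + 3) V + C * h * (1 + N.hM (k + 3) m.G) := by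
  obtain ⟨C1, hC1, h1⟩ := N.kf_hi k c K
  obtain ⟨δ, hδ, e⟩ : ∃ δ : ℝ, 0 < δ ∧ 2 * δ * C1 ≤ c / 2 := ⟨c / (4 * (C1 + 1)), by positivity, by
    rw [← mul_div_assoc, div_mul_eq_mul_div, div_le_div_iff₀ (by positivity) (by positivity)]
    linarith⟩
  refine ⟨δ⁻¹ + c / 2 * |K|, δ, by positivity, hδ, fun m V h h0 hh he hG hV => ?_⟩
  have a1 := h1 m V he hG
  have a2 := N.two_ipM_le (k + 3) m.G (m.kf (F.sym V)) (inv_pos.2 hδ)
  rw [inv_inv] at a2
  rw [hM_add, hM_smul, ipM_smul]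
  have n1 := N.hM_nonneg (k + 3) (m.kf (F.sym V))
  have n2 := N.hM_nonneg (k + 3) m.G
  have n3 := N.hM_nonneg (k + 3) V
  have k1 := hV.trans (le_abs_self K)
  generalize N.hM (k + 3) (m.kf (F.sym V)) = κ at *
  generalize N.hM (k + 3) m.G = g at *
  generalize N.hM (k + 3) V = t at *
  generalize N.hM 2 V = v at *
  have b1 : κ ≤ C1 * (t + (1 + g) * |K|) := a1.trans (by gcongr)
  have b2 : 2 * δ * κ ≤ c / 2 * (t + (1 + g) * |K|) := by
    have := mul_le_mul_of_nonneg_right e (show 0 ≤ t + (1 + g) * |K| by positivity)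
    linarith [mul_le_mul_of_nonneg_left b1 hδ.le]
  have b3 : 2 * N.ipM (k + 3) m.G (m.kf (F.sym V)) + h * κ ≤
      c / 2 * t + (δ⁻¹ + c / 2 * |K|) * (1 + g) := by
    linarith [mul_le_mul_of_nonneg_right hh n1, inv_pos.2 hδ]
  linarith [mul_le_mul_of_nonneg_left b3 h0.le]

end An

end Pool.Agent.MP_9bd639_gt.H88

end
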