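import Pool.Agent.MP_9bd639_gt.G.Rf1
import Pool.Agent.MP_9bd639_gt.G.An2
import Pool.Agent.MP_9bd639_gt.G.An1
import Pool.Agent.MP_9bd639_gt.G.Tim
import Pool.Agent.MP_9bd639_gt.G.Tens2

-- part RFg
section

/-! The implicit time discretisation of the system for the metric and the Schouten tensor. -/

open Matrix MeasureTheory Filter Topology Set
open scoped ContDiff

namespace Pool.Agent.MP_9bd639_gt.H88

namespace Base

variable (B : Base)

/-- The integral for the reference measure. -/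
noncomputable def Iμ : B.A →ₗ[ℝ] ℝ where
  toFun a := ∫ x, a.1 x ∂B.μ
  map_add' a b := integral_add (B.intg (B.cont a) _) (B.intg (B.cont b) _)
  map_smul' r a := integral_const_mul r a.1

theorem hip_eq (k : ℕ) (a b : B.A) : hip B.F B.Iμ k a b = B.ipk k a b := by
  induction k generalizing a b with
  | zero => rfl
  | succ k ih =>
    rw [hip, ipk]
    simp only [ih]
    rfl

/-- The analytic data of the manifold (`ibpX`, `exists_bd`, `sup_le`, `l4`, `nrm_sq`). -/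
noncomputable def an : An B.F B.M where
  ev := B.ev
  I := B.Iμ
  I_nonneg _ h := integral_nonneg h
  dv j := ∑ l, B.F.X l (B.F.π l j)
  ibp i a := B.ibpX i a
  bdd a := let ⟨C, _, h⟩ := B.exists_bd (B.cont a); ⟨C, h⟩
  sob2 := by
    obtain ⟨C, hC, h⟩ := B.sup_le
    refine ⟨C ^ 2, sq_nonneg C, fun a x => ?_⟩
    rw [hip_eq, ← nrm_sq, ← mul_pow, ← sq_abs]
    exact pow_le_pow_left₀ (abs_nonneg _) (h a x) 2
  sob4 := by
    obtain ⟨C, hC, h⟩ := B.l4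
    refine ⟨C ^ 2, sq_nonneg C, fun a => ?_⟩
    rw [hip_eq, ← nrm_sq, ← mul_pow]
    exact (Real.sqrt_le_iff.1 (h a)).2

theorem an_ev (x : B.M) (a : B.A) : B.an.ev x a = a.1 x := rfl
theorem an_I (a : B.A) : B.an.I a = ∫ x, a.1 x ∂B.μ := rfl

variable {B}

theorem Ell.el {c : ℝ} {m : B.Me} (h : Ell c m) (hc : 0 < c) : B.an.El c m where
  co u x := (h.gam hc u x).1
  G i j x := by
    rw [← sq_abs]
    exact pow_le_pow_left₀ (abs_nonneg _) (h.G_le hc i j x) 2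
  γ i j x := by
    rw [← sq_abs]
    exact pow_le_pow_left₀ (abs_nonneg _) (h.γ_le hc i j x) 2

/-- One step of the scheme. -/
def Rel (h : ℝ) (s s' : B.Me × B.Mat) : Prop :=
  s'.2 - s.2 = h • (s'.2.map s.1.L0 + s.1.rem s.2 s'.2) ∧
    s'.1.G = s.1.G + h • s.1.kf (B.F.sym s'.2)

/-- `res` with `C = 2 / h` for each entry of `V - U`, and `L0_rem`. -/
theorem exists_V (hB : B.Good) {m : B.Me} (hm : Pos m) {h : ℝ} (hh : 0 < h) (U : B.Mat) :
    ∃ V : B.Mat, V - U = h • (V.map m.L0 + m.rem U V) := by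
  choose v hv using fun a b => hB.res m hm (2 / h) (by positivity)
    (2 * (m.lap2 U + m.Qf (B.F.sym U)) a b)
  refine ⟨U + of v, ?_⟩
  rw [Met.L0_rem, add_sub_cancel_left]
  ext a b : 2
  have h1 : (h / 2) • ((2 / h) • v a b - 2 * m.lap (v a b)) =
      (h / 2) • (2 * (m.lap2 U + m.Qf (B.F.sym U)) a b) := by rw [hv]
  have h2 : ∀ y : B.A, (h / 2) • (2 * y) = h • y := fun y => by
    rw [two_mul, smul_add, ← add_smul, add_halves]
  rw [smul_sub, smul_smul, show h / 2 * (2 / h) = 1 by field_simp, one_smul, h2, h2] at h1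
  rw [Matrix.smul_apply, Matrix.add_apply, smul_add, ← h1, Matrix.map_apply, of_apply,
    sub_add_cancel]

/-- `exists_met` (the form of `G` is at least `c / 2` times the form of `π`, as in the proof of
`Ell.perturb`), then `Ell.perturb`. -/
theorem exists_near {c : ℝ} {m : B.Me} (h : Ell c m) (hc : 0 < c) {G : B.Mat} (hG : B.F.ST G)
    (hd : ∀ i j x, |(G i j).1 x - (m.G i j).1 x| ≤ c / (2 * (B.N + 1))) :
    ∃ m' : B.Me, m'.G = G ∧ Ell (c / 2) m' := by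
  obtain ⟨m', rfl, -⟩ := exists_met hG fun x ξ h0 => by
    have h1 := St_small (T := G.map (B.ev x) - m.G.map (B.ev x)) (fun i j => hd i j x)
      (by positivity) (B.F.π.map (B.ev x) *ᵥ ξ)
    have e : qf G x ξ = qf G x (B.F.π.map (B.ev x) *ᵥ ξ) :=
      St_tan (St_t B.F.π_symm x) (St_mul_eq hG.tan x) (St_mul_eq (Fr.ST.tan' _ hG) x) ξ
    rw [sub_mulVec, dotProduct_sub, ← St_qπ_eq, ← qf, ← qf, ← e, ← St_qtan,
      Fintype.card_fin] at h1
    have h2 : c / (2 * (B.N + 1)) * B.N ≤ c / 2 := by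
      rw [div_mul_eq_mul_div, div_le_div_iff₀ (by positivity) (by positivity)]
      nlinarith
    have h3 := abs_le.1 (h1.trans (mul_le_mul_of_nonneg_right h2 h0.le))
    have h4 := mul_pos hc h0
    linarith [h3.1, (h x ξ).1]
  exact ⟨m', rfl, h.perturb hc hd⟩

variable (B)

/-- The discrete solutions with `n + 1` steps of length `T / (n + 1)`. -/
structure Sch (T c K : ℝ) (m0 : B.Me) (U0 : B.Mat) where
  s : ℕ × ℕ → B.Me × B.Mat
  s0 : ∀ n, s (n, 0) = (m0, U0)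
  rel : ∀ n k : ℕ, k ≤ n → Rel (T / (n + 1)) (s (n, k)) (s (n, k + 1))
  ell : ∀ n k, k ≤ n + 1 → Ell c (s (n, k)).1
  bd : ∀ n k, k ≤ n + 1 → B.an.hM 2 (s (n, k)).2 + B.an.hM 3 (s (n, k)).1.G ≤ K

variable {B}

theorem RFg_seq {α : Type} (P : ℕ → α → Prop) (R : α → α → Prop) (n : ℕ) (s0 : α) (h0 : P 0 s0)
    (step : ∀ k < n, ∀ s, P k s → ∃ s', R s s' ∧ P (k + 1) s') :
    ∃ f : ℕ → α, f 0 = s0 ∧ (∀ k < n, R (f k) (f (k + 1))) ∧ ∀ k ≤ n, P k (f k) := by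
  have ex : ∀ k s, ∃ s', k < n → P k s → R s s' ∧ P (k + 1) s' := fun k s => by
    by_cases h : k < n ∧ P k s
    · obtain ⟨s', hs⟩ := step k h.1 s h.2
      exact ⟨s', fun _ _ => hs⟩
    · exact ⟨s, fun h1 h2 => absurd ⟨h1, h2⟩ h⟩
  choose g hg using ex
  have hP : ∀ k ≤ n, P k (Nat.rec s0 g k) := fun k hk => by
    induction k with
    | zero => exact h0
    | succ k ih => exact (hg k _ hk (ih (Nat.le_of_succ_le hk))).2
  exact ⟨fun k => Nat.rec s0 g k, rfl, fun k hk => (hg k _ hk (hP k hk.le)).1, hP⟩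

/-- Invariant after `k` steps of length `h`: `Ell (c / 2)`, energy at most `K + k h D`, entries of
`G - m0.G` at most `k h D`. One step: `exists_V`, `stepV 0` (this bounds `hM 2 V`), `kf_sup`,
`exists_near` (around `m0`), `stepG 0`; all with the constants for `c / 2` and a bound that
depends only on `K`. Choose `τ` with `τ D ≤ 1`, `τ D ≤ c / (2 (N + 1))`, `τ ≤ h0`. The sequence is
built by recursion (choose a next state whenever one exists). -/
theorem exists_sch (hB : B.Good) {c : ℝ} (hc : 0 < c) (K : ℝ) : ∃ τ : ℝ, 0 < τ ∧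
    ∀ (T : ℝ) (m0 : B.Me) (U0 : B.Mat), 0 < T → T ≤ τ → Ell c m0 →
      B.an.hM 2 U0 + B.an.hM 3 m0.G ≤ K → Nonempty (Sch B T (c / 2) (K + 1) m0 U0) := by
  have hc2 : 0 < c / 2 := half_pos hc
  obtain ⟨C1, h1, hC1, hh1, H1⟩ := B.an.stepV 0 hc2 (K + 2)
  obtain ⟨C2, hC2, H2⟩ := B.an.kf_sup (c / 2) (K + 2)
  obtain ⟨C3, h3, hC3, hh3, H3⟩ := B.an.stepG 0 hc2 (K + 2)
  obtain ⟨D, hD⟩ : ∃ D, D = (C1 + C2 + C3) * (|K| + 2) + 1 := ⟨_, rfl⟩
  have D0 : 0 < D := by rw [hD]; positivity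
  refine ⟨min (min h1 h3) (min 1 (c / (2 * (B.N + 1))) / D), by positivity,
    fun T m0 U0 hT hτ e0 b0 => ?_⟩
  have K0 : 0 ≤ K := (add_nonneg (B.an.hM_nonneg _ _) (B.an.hM_nonneg _ _)).trans b0
  rw [abs_of_nonneg K0] at hD
  have t1 : T ≤ h1 := hτ.trans ((min_le_left _ _).trans (min_le_left _ _))
  have t3 : T ≤ h3 := hτ.trans ((min_le_left _ _).trans (min_le_right _ _))
  have t4 := (le_div_iff₀ D0).1 (hτ.trans (min_le_right _ _))
  have t5 := t4.trans (min_le_left _ _)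
  have t6 := t4.trans (min_le_right _ _)
  have key : ∀ n : ℕ, ∃ f : ℕ → B.Me × B.Mat, f 0 = (m0, U0) ∧
      (∀ k < n + 1, Rel (T / (n + 1)) (f k) (f (k + 1))) ∧ ∀ k ≤ n + 1, Ell (c / 2) (f k).1 ∧
        B.an.hM 2 (f k).2 + B.an.hM 3 (f k).1.G ≤ K + k * (T / (n + 1) * D) ∧
        ∀ i j x, |((f k).1.G i j).1 x - (m0.G i j).1 x| ≤ k * (T / (n + 1) * D) := by
    intro n
    obtain ⟨h, hh⟩ : ∃ h : ℝ, h = T / (n + 1) := ⟨_, rfl⟩
    have h0 : 0 < h := by rw [hh]; positivity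
    have hn : (n + 1) * h = T := by rw [hh]; field_simp
    have n0 : (0 : ℝ) ≤ n := Nat.cast_nonneg n
    have hhT : h ≤ T := by nlinarith
    rw [← hh]
    refine RFg_seq (fun k (s : B.Me × B.Mat) => Ell (c / 2) s.1 ∧
        B.an.hM 2 s.2 + B.an.hM 3 s.1.G ≤ K + k * (h * D) ∧
        ∀ i j x, |(s.1.G i j).1 x - (m0.G i j).1 x| ≤ k * (h * D)) (Rel h) (n + 1) (m0, U0)
      ⟨e0.mono hc2 (half_le_self hc.le), by simpa using b0, fun i j x => by simp⟩ ?_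
    rintro k hk ⟨m, U⟩ ⟨e, b, d⟩
    simp only at e b d
    have hk' : (k : ℝ) ≤ n := Nat.cast_le.2 (Nat.lt_succ_iff.1 hk)
    have hD0 : 0 < h * D := mul_pos h0 D0
    have k1 : (k + 1) * (h * D) ≤ T * D := by
      rw [← hn, mul_assoc]
      exact mul_le_mul_of_nonneg_right (by linarith) hD0.le
    have k0 : 0 ≤ k * (h * D) := by positivity
    have nU := B.an.hM_nonneg 2 U
    have nG := B.an.hM_nonneg 3 m.G
    have el := e.el hc2
    have g2 : B.an.hM 2 m.G ≤ K + 2 := by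
      have := B.an.hM_mono (show 2 ≤ 3 by norm_num) m.G
      linarith
    obtain ⟨V, hV⟩ := exists_V hB ⟨_, hc2, e⟩ h0 U
    have s1 : B.an.hM 2 V + h * (c / 2 / 2) * B.an.hM 3 V ≤
        B.an.hM 2 U + C1 * h * (1 + B.an.hM 2 U + B.an.hM 3 m.G) :=
      H1 m U V h h0 (hhT.trans t1) el (show B.an.hM 3 m.G ≤ _ by linarith)
        (show B.an.hM 2 U ≤ _ by linarith) hV
    have a1 : C1 * h * (1 + B.an.hM 2 U + B.an.hM 3 m.G) ≤ C1 * h * (K + 2) :=
      mul_le_mul_of_nonneg_left (by linarith) (by positivity)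
    have a3 : C3 * h * (1 + B.an.hM 3 m.G) ≤ C3 * h * (K + 2) :=
      mul_le_mul_of_nonneg_left (by linarith) (by positivity)
    have eD : h * D = C1 * h * (K + 2) + C2 * h * (K + 2) + C3 * h * (K + 2) + h := by
      rw [hD]; ring
    have p1 : 0 ≤ C1 * h * (K + 2) := by positivity
    have p2 : 0 ≤ C2 * h * (K + 2) := by positivity
    have p3 : 0 ≤ C3 * h * (K + 2) := by positivity
    have p4 : 0 ≤ h * (c / 2 / 2) * B.an.hM 3 V :=
      mul_nonneg (by positivity) (B.an.hM_nonneg _ _)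
    have v2 : B.an.hM 2 V ≤ K + 2 := by linarith
    have s3 : B.an.hM 3 (m.G + h • m.kf (B.F.sym V)) ≤
        B.an.hM 3 m.G + h * (c / 2 / 2) * B.an.hM 3 V + C3 * h * (1 + B.an.hM 3 m.G) :=
      H3 m V h h0 (hhT.trans t3) el g2 v2
    have d' : ∀ i j x, |((m.G + h • m.kf (B.F.sym V)) i j).1 x - (m0.G i j).1 x| ≤
        (k + 1) * (h * D) := by
      intro i j x
      have q1 : (m.kf (B.F.sym V) i j).1 x ^ 2 ≤ C2 * (K + 2) :=
        (H2 m V el g2 i j x).trans (mul_le_mul_of_nonneg_left v2 hC2)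
      have q2 : |(m.kf (B.F.sym V) i j).1 x| ≤ C2 * (K + 2) + 1 := by
        rw [← sq_abs] at q1
        nlinarith [sq_nonneg (|(m.kf (B.F.sym V) i j).1 x| - 1)]
      have q3 : ((m.G + h • m.kf (B.F.sym V)) i j).1 x - (m0.G i j).1 x =
          ((m.G i j).1 x - (m0.G i j).1 x) + h * (m.kf (B.F.sym V) i j).1 x := by
        change (m.G i j).1 x + h * (m.kf (B.F.sym V) i j).1 x - _ = _
        ring
      have q4 := mul_le_mul_of_nonneg_left q2 h0.le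
      rw [q3]
      refine (abs_add_le _ _).trans ?_
      rw [abs_mul, abs_of_pos h0]
      linarith [d i j x]
    obtain ⟨m', hm', e'⟩ := exists_near e0 hc
      (m.ST_G.add B.F ((m.ST_kf (B.F.ST_sym V)).rsmul B.F h))
      fun i j x => (d' i j x).trans (k1.trans t6)
    refine ⟨(m', V), ⟨hV, hm'⟩, e', ?_, ?_⟩
    · simp only [hm']
      push_cast
      linarith
    · simp only [hm']
      push_cast
      exact d'
  choose f f0 fr fi using key
  refine ⟨⟨fun p => f p.1 p.2, f0, fun n k hk => fr n k (Nat.lt_succ_of_le hk),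
    fun n k hk => (fi n k hk).1, fun n k hk => (fi n k hk).2.1.trans ?_⟩⟩
  have hk' : (k : ℝ) ≤ n + 1 := by exact_mod_cast hk
  have := mul_le_mul_of_nonneg_right hk' (show 0 ≤ T / (n + 1) * D by positivity)
  rw [show ((n : ℝ) + 1) * (T / (n + 1) * D) = T * D by field_simp] at this
  linarith

/-- Induction on `j` with `stepV (j + 1)`, `stepG (j + 1)`:
`1 + E (k + 1) ≤ (1 + C h) (1 + E k) ≤ exp (C h) (1 + E k)` for `h = T / (n + 1) ≤ h0`; the
finitely many pairs `(n, k)` with small `n` are bounded trivially. -/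
theorem Sch.bd_hi {T c K : ℝ} {m0 : B.Me} {U0 : B.Mat} (S : Sch B T c K m0 U0) (hT : 0 < T)
    (hc : 0 < c) (j : ℕ) : ∃ C : ℝ, ∀ n k, k ≤ n + 1 →
      B.an.hM (j + 2) (S.s (n, k)).2 + B.an.hM (j + 3) (S.s (n, k)).1.G ≤ C := by
  induction j with
  | zero => exact ⟨K, S.bd⟩
  | succ j ih =>
    obtain ⟨L, hL⟩ := ih
    obtain ⟨C1, h1, hC1, hh1, H1⟩ := B.an.stepV (j + 1) hc L
    obtain ⟨C3, h3, hC3, hh3, H3⟩ := B.an.stepG (j + 1) hc L
    obtain ⟨E, hE⟩ : ∃ E : ℕ → ℕ → ℝ, ∀ n k, E n k =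
        B.an.hM (j + 1 + 2) (S.s (n, k)).2 + B.an.hM (j + 1 + 3) (S.s (n, k)).1.G :=
      ⟨_, fun _ _ => rfl⟩
    have E0 : ∀ n k, 0 ≤ E n k := fun n k => by
      rw [hE]
      exact add_nonneg (B.an.hM_nonneg _ _) (B.an.hM_nonneg _ _)
    have lU : ∀ n k, k ≤ n + 1 → B.an.hM (j + 2) (S.s (n, k)).2 ≤ L := fun n k hk =>
      (le_add_of_nonneg_right (B.an.hM_nonneg _ _)).trans (hL n k hk)
    have lG : ∀ n k, k ≤ n + 1 → B.an.hM (j + 3) (S.s (n, k)).1.G ≤ L := fun n k hk =>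
      (le_add_of_nonneg_left (B.an.hM_nonneg _ _)).trans (hL n k hk)
    obtain ⟨n0, hn0⟩ := exists_nat_ge (T / min h1 h3)
    have big : ∀ n : ℕ, n0 ≤ n → ∀ k, k ≤ n + 1 →
        1 + E n k ≤ Real.exp (k * ((C1 + C3) * (T / (n + 1)))) * (1 + E 0 0) := by
      intro n hn k hk
      obtain ⟨h, hh⟩ : ∃ h : ℝ, h = T / (n + 1) := ⟨_, rfl⟩
      have h0 : 0 < h := by rw [hh]; positivity
      have hm : h ≤ min h1 h3 := by
        have hn' : (n0 : ℝ) ≤ n := Nat.cast_le.2 hn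
        rw [div_le_iff₀ (lt_min hh1 hh3)] at hn0
        rw [hh, div_le_iff₀ (by positivity)]
        nlinarith [lt_min hh1 hh3]
      induction k with
      | zero => simp [hE, S.s0]
      | succ k ihk =>
        have hk' : k ≤ n + 1 := Nat.le_of_succ_le hk
        have r := S.rel n k (Nat.le_of_succ_le_succ hk)
        rw [← hh] at r ihk ⊢
        have el := (S.ell n k hk').el hc
        have s1 := H1 _ _ _ h h0 (hm.trans (min_le_left _ _)) el
          (by rw [max_eq_left (by omega)]; exact lG n k hk')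
          (by rw [max_eq_left (by omega)]; exact lU n k hk') r.1
        have s3 := H3 _ (S.s (n, k + 1)).2 h h0 (hm.trans (min_le_right _ _)) el (lG n k hk')
          ((B.an.hM_mono (by omega) _).trans (lU n (k + 1) hk))
        rw [← r.2] at s3
        have a3 := mul_nonneg (mul_nonneg hC3 h0.le) (B.an.hM_nonneg (j + 1 + 2) (S.s (n, k)).2)
        have a4 : 1 + E n (k + 1) ≤ ((C1 + C3) * h + 1) * (1 + E n k) := by
          rw [hE, hE]
          linarith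
        have a5 := mul_le_mul_of_nonneg_right (Real.add_one_le_exp ((C1 + C3) * h))
          (add_nonneg zero_le_one (E0 n k))
        have a6 := mul_le_mul_of_nonneg_left (ihk hk') (Real.exp_pos ((C1 + C3) * h)).le
        rw [← mul_assoc, ← Real.exp_add] at a6
        rw [show ((k + 1 : ℕ) : ℝ) * ((C1 + C3) * h) = (C1 + C3) * h + k * ((C1 + C3) * h) by
          push_cast; ring]
        linarith
    refine ⟨Real.exp ((C1 + C3) * T) * (1 + E 0 0) +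
      ∑ p ∈ Finset.range n0 ×ˢ Finset.range (n0 + 1), E p.1 p.2, fun n k hk => ?_⟩
    rw [← hE]
    have b0 : 0 ≤ 1 + E 0 0 := add_nonneg zero_le_one (E0 0 0)
    by_cases hn : n0 ≤ n
    · have hk' : (k : ℝ) ≤ n + 1 := by exact_mod_cast hk
      have b1 := mul_le_mul_of_nonneg_right hk'
        (show 0 ≤ (C1 + C3) * (T / (n + 1)) by positivity)
      rw [show ((n : ℝ) + 1) * ((C1 + C3) * (T / (n + 1))) = (C1 + C3) * T by field_simp] at b1
      have b2 := mul_le_mul_of_nonneg_right (Real.exp_le_exp.2 b1) b0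
      have b3 : 0 ≤ ∑ p ∈ Finset.range n0 ×ˢ Finset.range (n0 + 1), E p.1 p.2 :=
        Finset.sum_nonneg fun p _ => E0 _ _
      linarith [big n hn k hk]
    · have b1 := Finset.single_le_sum (f := fun p : ℕ × ℕ => E p.1 p.2)
        (s := Finset.range n0 ×ˢ Finset.range (n0 + 1)) (fun p _ => E0 _ _) (a := (n, k))
        (by simp only [Finset.mem_product, Finset.mem_range]; omega)
      have b2 := mul_nonneg (Real.exp_pos ((C1 + C3) * T)).le b0
      simp only at b1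
      linarith

end Base

end Pool.Agent.MP_9bd639_gt.H88

end

-- part RFh
section

/-! Limits of discrete paths. -/

open Matrix MeasureTheory Filter Topology Set
open scoped ContDiff

namespace Pool.Agent.MP_9bd639_gt.H88

theorem RFh_tel {f : ℕ → ℝ} {n : ℕ} {c : ℝ} (h : ∀ k ≤ n, |f (k + 1) - f k| ≤ c) {l k : ℕ}
    (hl : l ≤ k) (hk : k ≤ n + 1) : |f k - f l| ≤ c * ((k : ℝ) - l) := by
  induction k, hl using Nat.le_induction with
  | base => simp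
  | succ k hl ih =>
    have := abs_sub_le (f (k + 1)) (f k) (f l)
    push_cast
    linarith [ih (by omega), h k (by omega)]

theorem RFh_tel2 {f g : ℕ → ℝ} {n : ℕ} {c d η : ℝ} (hη : 0 ≤ η) (hd : 0 ≤ d)
    (h : ∀ k ≤ n, |f (k + 1) - f k - η * g k| ≤ c) (h' : ∀ k ≤ n, |g (k + 1) - g k| ≤ d) {l k : ℕ}
    (hl : l ≤ k) (hk : k ≤ n + 1) :
    |f k - f l - ((k : ℝ) - l) * η * g l| ≤ c * ((k : ℝ) - l) + η * d * ((k : ℝ) - l) ^ 2 := by
  induction k, hl using Nat.le_induction with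
  | base => simp
  | succ k hl ih =>
    have h1 := mul_le_mul_of_nonneg_left (RFh_tel h' hl (by omega)) hη
    have h2 : (0 : ℝ) ≤ k - l := sub_nonneg.2 (by exact_mod_cast hl)
    have h3 := mul_nonneg (mul_nonneg hη hd) h2
    have h4 := mul_nonneg hη hd
    have e : f (k + 1) - f l - ((k + 1 : ℕ) - l : ℝ) * η * g l = f (k + 1) - f k - η * g k +
        η * (g k - g l) + (f k - f l - ((k : ℝ) - l) * η * g l) := by push_cast; ring
    rw [e]
    refine (abs_add_three _ _ _).trans ?_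
    rw [abs_mul, abs_of_nonneg hη]
    push_cast
    nlinarith [ih (by omega), h k (by omega)]

namespace Base

variable (B : Base)

/-- Families that are bounded with all derivatives. -/
def UBi (κ : Type) : Subalgebra ℝ (κ → B.A) where
  carrier := {a | ∀ k, B.UB k a}
  mul_mem' ha hb k := (ha k).mul (hb k)
  add_mem' ha hb k := (ha k).add (hb k)
  algebraMap_mem' c k := UB.const k (algebraMap ℝ B.A c)

theorem RFh_comp {κ κ' : Type} {a : κ → B.A} (h : a ∈ B.UBi κ) (f : κ' → κ) :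
    (fun p => a (f p)) ∈ B.UBi κ' := fun k => let ⟨K, hK⟩ := h k; ⟨K, fun p => hK (f p)⟩

/-- Discrete paths that are bounded and Lipschitz with all derivatives. -/
def LipA : Subalgebra ℝ (ℕ × ℕ → B.A) where
  carrier := {y | (fun p : {p : ℕ × ℕ // p.2 ≤ p.1 + 1} => y p.1) ∈ B.UBi _ ∧
    (fun p : {p : ℕ × ℕ // p.2 ≤ p.1} =>
      ((p.1.1 : ℝ) + 1) • (y (p.1.1, p.1.2 + 1) - y p.1)) ∈ B.UBi _}
  mul_mem' := fun {y z} hy hz => ⟨(B.UBi _).mul_mem hy.1 hz.1, by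
    convert (B.UBi _).add_mem ((B.UBi _).mul_mem (B.RFh_comp hy.1
      fun p : {p : ℕ × ℕ // p.2 ≤ p.1} => ⟨(p.1.1, p.1.2 + 1), Nat.succ_le_succ p.2⟩) hz.2)
      ((B.UBi _).mul_mem hy.2 (B.RFh_comp hz.1 fun p => ⟨p.1, Nat.le_succ_of_le p.2⟩)) using 1
    funext p
    simp only [Pi.mul_apply, Pi.add_apply, Algebra.smul_def]
    ring⟩
  add_mem' := fun {y z} hy hz => ⟨(B.UBi _).add_mem hy.1 hz.1, by
    convert (B.UBi _).add_mem hy.2 hz.2 using 1
    funext p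
    simp only [Pi.add_apply, Algebra.smul_def]
    ring⟩
  algebraMap_mem' c := ⟨(B.UBi _).algebraMap_mem c, by
    convert (B.UBi {p : ℕ × ℕ // p.2 ≤ p.1}).zero_mem using 1
    funext p
    simp⟩

variable {B}

theorem UBi_X {κ : Type} {a : κ → B.A} (h : a ∈ B.UBi κ) (i : Fin B.N) :
    (B.F.pi κ).X i a ∈ B.UBi κ := fun k => (h (k + 1)).X i

theorem LipA_X {y : ℕ × ℕ → B.A} (h : y ∈ B.LipA) (i : Fin B.N) :
    (B.F.pi (ℕ × ℕ)).X i y ∈ B.LipA := ⟨UBi_X h.1 i, by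
  convert UBi_X h.2 i using 1
  funext p
  change _ = B.F.X i (_ • (_ - _))
  rw [Derivation.map_smul, map_sub]
  rfl⟩

theorem LipA_const (a : B.A) : (fun _ => a) ∈ B.LipA := ⟨fun k => UB.const k a, by
  convert (B.UBi {p : ℕ × ℕ // p.2 ≤ p.1}).zero_mem using 1
  funext p
  simp⟩

theorem RFh_w {κ : Type} {a : κ → B.A} (h : a ∈ B.UBi κ) (w : List (Fin B.N)) :
    ∃ K : ℝ, 0 ≤ K ∧ ∀ p x, |(B.F.Xw w (a p)).1 x| ≤ K := by
  obtain ⟨K, hK⟩ := h w.length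
  exact ⟨|K|, abs_nonneg K, fun p x =>
    ((B.Bd_iff _ _ _).1 (hK p) w le_rfl x).trans (le_abs_self K)⟩

/-- `z` is the discrete derivative of `y` up to second order. -/
def Der (T : ℝ) (y z : ℕ × ℕ → B.A) : Prop :=
  (fun p : {p : ℕ × ℕ // p.2 ≤ p.1} =>
    ((p.1.1 : ℝ) + 1) ^ 2 • (y (p.1.1, p.1.2 + 1) - y p.1 - (T / (p.1.1 + 1)) • z p.1)) ∈ B.UBi _

theorem RFh_step {y : ℕ × ℕ → B.A} (h : y ∈ B.LipA) (w : List (Fin B.N)) : ∃ K : ℝ, 0 ≤ K ∧
    ∀ (n : ℕ) x, ∀ k ≤ n,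
      |(B.F.Xw w (y (n, k + 1))).1 x - (B.F.Xw w (y (n, k))).1 x| ≤ K / (n + 1) := by
  obtain ⟨K, hK, h⟩ := RFh_w h.2 w
  refine ⟨K, hK, fun n x k hk => ?_⟩
  have := h ⟨(n, k), hk⟩ x
  rw [Fr.Xw_rsmul, Fr.Xw_sub] at this
  rw [le_div_iff₀' (by positivity), ← abs_of_pos (show (0 : ℝ) < n + 1 by positivity), ← abs_mul]
  exact this

variable {T : ℝ} [hT : Fact (0 < T)]

/-- The number of the step at the time `t`. -/
noncomputable def idx (t : Icc (0 : ℝ) T) (n : ℕ) : ℕ × ℕ := (n, ⌊t.1 / T * (n + 1)⌋₊)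

theorem idx_le (t : Icc (0 : ℝ) T) (n : ℕ) : (idx t n).2 ≤ n + 1 :=
  Nat.floor_le_of_le (by
    push_cast
    exact mul_le_of_le_one_left (by positivity) ((div_le_one hT.out).2 t.2.2))

theorem idx_zero (n : ℕ) : idx (pj T 0) n = (n, 0) := by
  rw [pj_of_mem ⟨le_rfl, hT.out.le⟩]
  simp [idx]

theorem RFh_mono {s t : Icc (0 : ℝ) T} (h : s ≤ t) (n : ℕ) : (idx s n).2 ≤ (idx t n).2 :=
  Nat.floor_mono (mul_le_mul_of_nonneg_right (div_le_div_of_nonneg_right h hT.out.le)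
    (by positivity))

theorem RFh_at : (hyperfilter ℕ : Filter ℕ) ≤ atTop :=
  hyperfilter_le_cofinite.trans Nat.cofinite_eq_atTop.le

theorem RFh_tend (s t : Icc (0 : ℝ) T) :
    Tendsto (fun n : ℕ => (((idx t n).2 : ℝ) - (idx s n).2) / (n + 1)) (hyperfilter ℕ : Filter ℕ)
      (𝓝 ((t - s) / T)) := by
  have h : ∀ t : Icc (0 : ℝ) T, Tendsto (fun n : ℕ => ((idx t n).2 : ℝ) / (n + 1)) atTop
      (𝓝 (t / T)) := fun t =>
    (tendsto_nat_floor_mul_div_atTop (div_nonneg t.2.1 hT.out.le)).comp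
      (tendsto_atTop_add_const_right _ 1 tendsto_natCast_atTop_atTop)
  simp only [sub_div]
  exact ((h t).sub (h s)).mono_left RFh_at

/-- `Y` is the limit of the discrete path `y`. -/
def Lim (y : ℕ × ℕ → B.A) (Y : B.Pth T) : Prop :=
  ∀ t, B.SmC (hyperfilter ℕ : Filter ℕ) (fun n => y (idx t n)) (Y t)

theorem exists_lim {y : ℕ × ℕ → B.A} (h : y ∈ B.LipA) : ∃ Y : B.Pth T, Lim y Y := by
  choose Y hY using fun t : Icc (0 : ℝ) T => B.lim ℕ (hyperfilter ℕ) (fun n => y (idx t n))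
    fun w => let ⟨K, _, hK⟩ := RFh_w h.1 w
      ⟨K, Eventually.of_forall fun n => hK ⟨idx t n, idx_le t n⟩⟩
  exact ⟨Y, hY⟩

theorem Lim.lip {y : ℕ × ℕ → B.A} {Y : B.Pth T} (hY : Lim y Y) (h : y ∈ B.LipA)
    (w : List (Fin B.N)) : ∃ C : ℝ, ∀ (s t : Icc (0 : ℝ) T) x, s ≤ t →
      |(B.F.Xw w (Y t - Y s)).1 x| ≤ C * (t - s) := by
  obtain ⟨K, hK, h⟩ := RFh_step h w
  refine ⟨K / T, fun s t x hst => ?_⟩
  rw [Fr.Xw_sub, div_mul_eq_mul_div, mul_div_assoc]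
  refine le_of_tendsto_of_tendsto' (((hY t w).tendsto_at x).sub ((hY s w).tendsto_at x)).abs
    ((RFh_tend s t).const_mul K) fun n => ?_
  refine (RFh_tel (f := fun k => (B.F.Xw w (y (n, k))).1 x) (h n x) (RFh_mono hst n)
    (idx_le t n)).trans_eq ?_
  ring

theorem Lim.td {y z : ℕ × ℕ → B.A} {Y Z : B.Pth T} (hY : Lim y Y) (hZ : Lim z Z)
    (_hy : y ∈ B.LipA) (hz : z ∈ B.LipA) (h : Der T y z) : TD Y Z := by
  refine TD.of_quad (hZ.lip hz) fun w => ?_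
  obtain ⟨K, hK, h1⟩ := RFh_step hz w
  obtain ⟨L, hL, h2⟩ := RFh_w h w
  have hT0 := hT.out
  refine ⟨K / T, fun s t x hst => ?_⟩
  have h3 : ∀ n : ℕ, ∀ k ≤ n, |(B.F.Xw w (y (n, k + 1))).1 x - (B.F.Xw w (y (n, k))).1 x -
      T / (n + 1) * (B.F.Xw w (z (n, k))).1 x| ≤ L / (n + 1) ^ 2 := fun n k hk => by
    have := h2 ⟨(n, k), hk⟩ x
    rw [Fr.Xw_rsmul, Fr.Xw_sub, Fr.Xw_sub, Fr.Xw_rsmul] at this
    rw [le_div_iff₀' (by positivity), ← abs_of_pos (show (0 : ℝ) < (n + 1) ^ 2 by positivity),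
      ← abs_mul]
    exact this
  have t0 : Tendsto (fun n : ℕ => 1 / ((n : ℝ) + 1)) (hyperfilter ℕ : Filter ℕ) (𝓝 0) :=
    tendsto_one_div_add_atTop_nhds_zero_nat.mono_left RFh_at
  have t1 := ((((hY t w).tendsto_at x).sub ((hY s w).tendsto_at x)).sub
    (((RFh_tend s t).mul_const T).mul ((hZ s w).tendsto_at x))).abs
  have t2 := ((t0.const_mul L).mul (RFh_tend s t)).add (((RFh_tend s t).pow 2).const_mul (T * K))
  rw [Fr.Xw_sub, Fr.Xw_sub, Fr.Xw_rsmul]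
  rw [div_mul_cancel₀ _ hT0.ne'] at t1
  refine (le_of_tendsto_of_tendsto' t1 t2 fun n => ?_).trans_eq (by field_simp; ring)
  have := RFh_tel2 (f := fun k => (B.F.Xw w (y (n, k))).1 x)
    (g := fun k => (B.F.Xw w (z (n, k))).1 x) (by positivity) (by positivity) (h3 n) (h1 n x)
    (RFh_mono hst n) (idx_le t n)
  rw [show ∀ a : ℝ, a * (T / (n + 1)) = a / (n + 1) * T from fun a => by ring] at this
  refine this.trans_eq ?_
  field_simp

end Base

end Pool.Agent.MP_9bd639_gt.H88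

end

-- part RFi
section

/-! The discrete solutions are Lipschitz paths with the expected discrete derivatives. -/

open Matrix MeasureTheory Filter Topology Set
open scoped ContDiff

namespace Pool.Agent.MP_9bd639_gt.H88

section

variable {ι : Type} [Fintype ι] [DecidableEq ι] {A : Type} [CommRing A] [Algebra ℝ A]
  {F : Fr ι A}

omit [DecidableEq ι] in
theorem RFi_sym (U W : Matrix ι ι A) (h : ℝ) : F.sym (U + h • W) = F.sym U + h • F.sym W := by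
  simp only [Fr.sym, transpose_add, transpose_smul]
  rw [show U + h • W + (Uᵀ + h • Wᵀ) = U + Uᵀ + h • (W + Wᵀ) by rw [smul_add]; abel,
    Matrix.mul_add F.π (U + Uᵀ), Matrix.add_mul, smul_add, Matrix.mul_smul, Matrix.smul_mul,
    smul_comm (hf A) h]

theorem RFi_kf (m : Met F) (U W : Matrix ι ι A) (h : ℝ) :
    m.kf (U + h • W) = m.kf U + h • m.kf W := by
  simp only [Met.kf, m.tr_add, m.tr_rsmul]
  rw [add_smul, smul_assoc, smul_comm h (-2 : A), ← smul_add, smul_add h]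
  congr 1
  abel

theorem RFi_γ {m m' : Met F} {k : Matrix ι ι A} {h : ℝ} (e : m'.G = m.G + h • k) :
    m'.γ - m.γ = h • -(m'.γ * k * m.γ) := by
  have e1 : m'.γ * m'.G * m.γ = m.γ := by rw [m'.γG, m.πγ]
  have e2 : m'.γ * m.G * m.γ = m'.γ := by rw [Matrix.mul_assoc, m.Gγ, m'.γπ]
  rw [e, Matrix.mul_add, Matrix.add_mul, e2, Matrix.mul_smul, Matrix.smul_mul] at e1
  rw [smul_neg, sub_eq_iff_eq_add, neg_add_eq_sub, eq_sub_iff_add_eq, e1]

theorem RFi_γ2 {m m' : Met F} {k k' l : Matrix ι ι A} {h : ℝ} (e : m'.G = m.G + h • k')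
    (e' : k' = k + h • l) : m'.γ - m.γ - h • -(m.γ * k * m.γ) =
      h ^ 2 • (m'.γ * k' * m.γ * k' * m.γ - m.γ * l * m.γ) := by
  have e1 := RFi_γ e
  have e2 : m'.γ * k' * m.γ = m.γ * k * m.γ + h • (m.γ * l * m.γ) +
      h • -(m'.γ * k' * m.γ * k' * m.γ) := by
    have e3 : m'.γ * k' * m.γ = (m.γ + h • -(m'.γ * k' * m.γ)) * k' * m.γ := by
      rw [← e1, add_sub_cancel]
    have e4 : m.γ * k' * m.γ = m.γ * k * m.γ + h • (m.γ * l * m.γ) := by
      rw [e', Matrix.mul_add, Matrix.add_mul, Matrix.mul_smul, Matrix.smul_mul]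
    rw [Matrix.add_mul, Matrix.add_mul, e4, Matrix.smul_mul, Matrix.smul_mul, Matrix.neg_mul,
      Matrix.neg_mul] at e3
    exact e3
  rw [e1]
  generalize m'.γ * k' * m.γ * k' * m.γ = a at e2 ⊢
  rw [e2]
  module

end

namespace Base

variable {B : Base} {T c K : ℝ} {m0 : B.Me} {U0 : B.Mat}

/-- `sup_Xw` and `Bd_iff`. -/
theorem UBi_of_hM {κ : Type} {U : κ → B.Mat} (h : ∀ j, ∃ C : ℝ, ∀ p, B.an.hM j (U p) ≤ C) :
    Mem (B.UBi κ) (piM U) := by
  intro a b k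
  obtain ⟨C, hC, h1⟩ := B.Bd_of_nrm k
  obtain ⟨D, hD⟩ := h (k + 2)
  refine ⟨C * √D, fun p => (h1 (U p a b)).mono le_rfl (mul_le_mul_of_nonneg_left ?_ hC.le)⟩
  refine Real.sqrt_le_sqrt ?_
  rw [← B.hip_eq]
  exact (B.an.hs_le_hM (k + 2) (U p) a b).trans (hD p)

section

variable {κ : Type} {U V : κ → B.Mat} {m : κ → B.Me}

theorem RFi_add (hU : Mem (B.UBi κ) (piM U)) (hV : Mem (B.UBi κ) (piM V)) :
    Mem (B.UBi κ) (piM fun p => U p + V p) := fun a b => (B.UBi κ).add_mem (hU a b) (hV a b)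

theorem RFi_sub (hU : Mem (B.UBi κ) (piM U)) (hV : Mem (B.UBi κ) (piM V)) :
    Mem (B.UBi κ) (piM fun p => U p - V p) := fun a b => (B.UBi κ).sub_mem (hU a b) (hV a b)

theorem RFi_neg (hU : Mem (B.UBi κ) (piM U)) : Mem (B.UBi κ) (piM fun p => -U p) :=
  fun a b => (B.UBi κ).neg_mem (hU a b)

theorem RFi_mul (hU : Mem (B.UBi κ) (piM U)) (hV : Mem (B.UBi κ) (piM V)) :
    Mem (B.UBi κ) (piM fun p => U p * V p) := fun a b => by
  have e : (piM fun p => U p * V p) a b = ∑ l, piM U a l * piM V l b := by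
    funext p
    exact (Matrix.mul_apply (M := U p) (N := V p)).trans
      (Finset.sum_apply p Finset.univ fun l => piM U a l * piM V l b).symm
  rw [e]
  exact (B.UBi κ).sum_mem fun l _ => (B.UBi κ).mul_mem (hU a l) (hV l b)

theorem RFi_kf_eq (m : κ → B.Me) (U : κ → B.Mat) : (Met.pi m).kf ((B.F.pi κ).sym (piM U)) =
    piM fun p => (m p).kf (B.F.sym (U p)) := A4_ext _ fun n => by
  rw [(B.F.at n).map_kf, (B.F.at n).map_sym]
  rfl

theorem RFi_Qf_eq (m : κ → B.Me) (U : κ → B.Mat) :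
    (Met.pi m).lap2 (piM U) + (Met.pi m).Qf ((B.F.pi κ).sym (piM U)) =
      piM fun p => (m p).lap2 (U p) + (m p).Qf (B.F.sym (U p)) := A4_ext _ fun n => by
  rw [Matrix.map_add _ (map_add _), (B.F.at n).map_lap2, (B.F.at n).map_Qf, (B.F.at n).map_sym]
  rfl

theorem RFi_γ_eq (m : κ → B.Me) (U : κ → B.Mat) :
    -((Met.pi m).γ * (Met.pi m).kf ((B.F.pi κ).sym (piM U)) * (Met.pi m).γ) =
      piM fun p => -((m p).γ * (m p).kf (B.F.sym (U p)) * (m p).γ) := A4_ext _ fun n => by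
  rw [Matrix.map_neg _ (map_neg _), (B.F.at n).A4_mul, (B.F.at n).A4_mul, RFi_kf_eq]
  rfl

variable (hm : (Met.pi m).Stab (B.UBi κ))
include hm

theorem RFi_kf_mem (hU : Mem (B.UBi κ) (piM U)) :
    Mem (B.UBi κ) (piM fun p => (m p).kf (B.F.sym (U p))) := by
  rw [← RFi_kf_eq]
  exact hm.kf (hm.sym hU)

theorem RFi_lap_mem (hU : Mem (B.UBi κ) (piM U)) :
    Mem (B.UBi κ) (piM fun p => (U p).map (m p).lap) := fun a b => by
  have e : (piM fun p => (U p).map (m p).lap) a b = (Met.pi m).lap (piM U a b) :=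
    funext fun p => ((B.F.at p).map_lap (Met.pi m) (piM U a b)).symm
  rw [e]
  exact hm.lap (hU a b)

theorem RFi_W_mem (hU : Mem (B.UBi κ) (piM U)) (hV : Mem (B.UBi κ) (piM V)) :
    Mem (B.UBi κ) (piM fun p => (V p).map (m p).L0 + (m p).rem (U p) (V p)) := by
  simp only [Met.L0_rem]
  refine RFi_add ?_ (RFi_lap_mem hm (RFi_sub hV hU))
  rw [← RFi_Qf_eq]
  exact fun a b => (B.UBi κ).add_mem (hm.lap2 hU a b) (hm.Qf (hm.sym hU) a b)

end

theorem RFi_lip {y : ℕ × ℕ → B.Mat} {Z : {p : ℕ × ℕ // p.2 ≤ p.1} → B.Mat}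
    (h0 : Mem (B.UBi {p : ℕ × ℕ // p.2 ≤ p.1 + 1})
      (piM fun p : {p : ℕ × ℕ // p.2 ≤ p.1 + 1} => y p.1))
    (hZ : Mem (B.UBi {p : ℕ × ℕ // p.2 ≤ p.1}) (piM Z))
    (e : ∀ p, y (p.1.1, p.1.2 + 1) - y p.1 = (T / (p.1.1 + 1)) • Z p) :
    Mem B.LipA (piM y) := fun a b => by
  refine ⟨h0 a b, ?_⟩
  have e1 : (fun p : {p : ℕ × ℕ // p.2 ≤ p.1} =>
      ((p.1.1 : ℝ) + 1) • (piM y a b (p.1.1, p.1.2 + 1) - piM y a b p.1)) = T • piM Z a b := by
    funext p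
    have e2 : piM y a b (p.1.1, p.1.2 + 1) - piM y a b p.1 = (T / (p.1.1 + 1)) • Z p a b :=
      congrFun (congrFun (e p) a) b
    have e3 : ((p.1.1 : ℝ) + 1) * (T / (p.1.1 + 1)) = T := by field_simp
    rw [e2, smul_smul, e3]
    rfl
  rw [e1]
  exact (B.UBi _).smul_mem (hZ a b) T

theorem RFi_der {y z : ℕ × ℕ → B.Mat} {Z : {p : ℕ × ℕ // p.2 ≤ p.1} → B.Mat}
    (hZ : Mem (B.UBi {p : ℕ × ℕ // p.2 ≤ p.1}) (piM Z))
    (e : ∀ p, y (p.1.1, p.1.2 + 1) - y p.1 - (T / (p.1.1 + 1)) • z p.1 =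
      (T / (p.1.1 + 1)) ^ 2 • Z p) (a b : Fin B.N) : Der T (piM y a b) (piM z a b) := by
  have e1 : (fun p : {p : ℕ × ℕ // p.2 ≤ p.1} => ((p.1.1 : ℝ) + 1) ^ 2 •
      (piM y a b (p.1.1, p.1.2 + 1) - piM y a b p.1 - (T / (p.1.1 + 1)) • piM z a b p.1)) =
      T ^ 2 • piM Z a b := by
    funext p
    have e2 : piM y a b (p.1.1, p.1.2 + 1) - piM y a b p.1 - (T / (p.1.1 + 1)) • piM z a b p.1 =
        (T / (p.1.1 + 1)) ^ 2 • Z p a b := congrFun (congrFun (e p) a) b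
    have e3 : ((p.1.1 : ℝ) + 1) ^ 2 * (T / (p.1.1 + 1)) ^ 2 = T ^ 2 := by field_simp
    rw [e2, smul_smul, e3]
    rfl
  rw [Der, e1]
  exact (B.UBi _).smul_mem (hZ a b) _

namespace Sch

variable (S : Sch B T c K m0 U0)

/-- The family of the metrics and the family of the tensors. -/
noncomputable def m : Met (B.F.pi (ℕ × ℕ)) := Met.pi fun p => (S.s p).1
noncomputable def U : Matrix (Fin B.N) (Fin B.N) (ℕ × ℕ → B.A) := piM fun p => (S.s p).2

variable (hT : 0 < T) (hc : 0 < c)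
include hT hc

theorem RFi_bd {κ : Type} (i : κ → ℕ × ℕ) (hi : ∀ p, (i p).2 ≤ (i p).1 + 1) :
    (Met.pi fun p => (S.s (i p)).1).Stab (B.UBi κ) ∧
      Mem (B.UBi κ) (piM fun p => (S.s (i p)).2) := by
  have hG : ∀ j, ∃ C : ℝ, ∀ p, B.an.hM j (S.s (i p)).1.G ≤ C := fun j => by
    obtain ⟨C, hC⟩ := S.bd_hi hT hc j
    refine ⟨C, fun p => ?_⟩
    have h1 := hC (i p).1 (i p).2 (hi p)
    have h2 := B.an.hM_nonneg (j + 2) (S.s (i p)).2
    have h3 := B.an.hM_mono (show j ≤ j + 3 by omega) (S.s (i p)).1.G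
    linarith
  refine ⟨⟨fun l a ha => UBi_X ha l, fun l k => UB.const k _, UBi_of_hM hG,
    UBi_of_hM fun j => ?_⟩, UBi_of_hM fun j => ?_⟩
  · obtain ⟨C, hC⟩ := hG (j + 2)
    obtain ⟨D, _, hD⟩ := B.an.hM_of_mem (T := fun p => (S.s (i p)).1.γ) fun a b =>
      B.an.mem_Hb.1 (B.an.γ_hi j (m := fun p => (S.s (i p)).1)
        (fun p => (S.ell (i p).1 (i p).2 (hi p)).el hc) hC a b).1
    exact ⟨D * 1, fun p => (B.an.hM_mono (by omega) _).trans (hD p)⟩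
  · obtain ⟨C, hC⟩ := S.bd_hi hT hc j
    refine ⟨C, fun p => ?_⟩
    have h1 := hC (i p).1 (i p).2 (hi p)
    have h2 := B.an.hM_nonneg (j + 3) (S.s (i p)).1.G
    have h3 := B.an.hM_mono (show j ≤ j + 2 by omega) (S.s (i p)).2
    linarith

theorem RFi_bd0 : (Met.pi fun p : {p : ℕ × ℕ // p.2 ≤ p.1} => (S.s p.1).1).Stab (B.UBi _) ∧
    Mem (B.UBi {p : ℕ × ℕ // p.2 ≤ p.1})
      (piM fun p : {p : ℕ × ℕ // p.2 ≤ p.1} => (S.s p.1).2) :=
  S.RFi_bd hT hc (fun p : {p : ℕ × ℕ // p.2 ≤ p.1} => p.1) fun p => p.2.trans (Nat.le_succ _)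

theorem RFi_bd1 :
    (Met.pi fun p : {p : ℕ × ℕ // p.2 ≤ p.1} => (S.s (p.1.1, p.1.2 + 1)).1).Stab (B.UBi _) ∧
    Mem (B.UBi {p : ℕ × ℕ // p.2 ≤ p.1})
      (piM fun p : {p : ℕ × ℕ // p.2 ≤ p.1} => (S.s (p.1.1, p.1.2 + 1)).2) :=
  S.RFi_bd hT hc (fun p : {p : ℕ × ℕ // p.2 ≤ p.1} => (p.1.1, p.1.2 + 1))
    fun p => Nat.succ_le_succ p.2

omit hT hc in
theorem RFi_step (p : {p : ℕ × ℕ // p.2 ≤ p.1}) :
    (S.s p.1).1.kf (B.F.sym (S.s (p.1.1, p.1.2 + 1)).2) = (S.s p.1).1.kf (B.F.sym (S.s p.1).2) +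
      (T / (p.1.1 + 1)) • (S.s p.1).1.kf (B.F.sym ((S.s (p.1.1, p.1.2 + 1)).2.map (S.s p.1).1.L0 +
        (S.s p.1).1.rem (S.s p.1).2 (S.s (p.1.1, p.1.2 + 1)).2)) := by
  rw [← RFi_kf, ← RFi_sym, ← (S.rel p.1.1 p.1.2 p.2).1, add_sub_cancel]

/-- Over the index set `{p // p.2 ≤ p.1 + 1}` all entries of `G`, `γ`, `U` are in `UBi`
(`bd_hi`, `γ_hi`, `UBi_of_hM`). Over `{p // p.2 ≤ p.1}` the families of `m`, `U`, and of the
next `m'`, `V` are in `UBi`, hence so are `W = V.map L0 + rem U V` (`L0_rem`, `Met.Stab`) and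
`k = kf (sym V)`; `V - U = h • W`, `G' - G = h • k`, `γ' - γ = -h • (γ' * k * γ)`. -/
theorem stab : S.m.Stab B.LipA ∧ Mem B.LipA S.U := by
  obtain ⟨a0, a1⟩ := S.RFi_bd hT hc (fun p : {p : ℕ × ℕ // p.2 ≤ p.1 + 1} => p.1) fun p => p.2
  obtain ⟨b0, b1⟩ := S.RFi_bd0 hT hc
  obtain ⟨c0, c1⟩ := S.RFi_bd1 hT hc
  have hk := RFi_kf_mem b0 c1
  refine ⟨⟨fun l a ha => LipA_X ha l, fun l => LipA_const _, ?_, ?_⟩, ?_⟩
  · exact RFi_lip (T := T) (y := fun p => (S.s p).1.G) a0.G hk fun p =>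
      sub_eq_iff_eq_add'.2 (S.rel p.1.1 p.1.2 p.2).2
  · exact RFi_lip (T := T) (y := fun p => (S.s p).1.γ) a0.γ
      (RFi_neg (RFi_mul (RFi_mul c0.γ hk) b0.γ)) fun p => RFi_γ (S.rel p.1.1 p.1.2 p.2).2
  · exact RFi_lip (T := T) (y := fun p => (S.s p).2) a1 (RFi_W_mem b0 b1 c1) fun p =>
      (S.rel p.1.1 p.1.2 p.2).1

/-- `G' - G - h • kf (sym U) = h ^ 2 • kf (sym W)` (`kf` and `sym` are linear). -/
theorem derG (a b : Fin B.N) : Der T (S.m.G a b) (S.m.kf ((B.F.pi _).sym S.U) a b) := by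
  obtain ⟨b0, b1⟩ := S.RFi_bd0 hT hc
  obtain ⟨c0, c1⟩ := S.RFi_bd1 hT hc
  rw [m, U, RFi_kf_eq]
  refine RFi_der (y := fun p => (S.s p).1.G) (RFi_kf_mem b0 (RFi_W_mem b0 b1 c1)) (fun p => ?_) a b
  rw [(S.rel p.1.1 p.1.2 p.2).2, S.RFi_step p]
  module

/-- `V - U - h • (lap2 U + Qf (sym U)) = h ^ 2 • W.map lap` by `L0_rem`. -/
theorem derU (a b : Fin B.N) :
    Der T (S.U a b) ((S.m.lap2 S.U + S.m.Qf ((B.F.pi _).sym S.U)) a b) := by
  obtain ⟨b0, b1⟩ := S.RFi_bd0 hT hc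
  obtain ⟨c0, c1⟩ := S.RFi_bd1 hT hc
  rw [m, U, RFi_Qf_eq]
  refine RFi_der (y := fun p => (S.s p).2) (RFi_lap_mem b0 (RFi_W_mem b0 b1 c1)) (fun p => ?_) a b
  have e := (S.rel p.1.1 p.1.2 p.2).1
  have e1 := e
  rw [Met.L0_rem, e] at e1
  have e2 : ∀ (h : ℝ) (W : B.Mat), (h • W).map (S.s p.1).1.lap = h • W.map (S.s p.1).1.lap :=
    fun h W => by
      ext1 i j
      exact (S.s p.1).1.lap_rsmul h (W i j)
  rw [e2] at e1
  rw [e, e1]
  module

/-- With `k' = kf (sym V)`, `k = kf (sym U)`: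
`γ' - γ + h • (γ k γ) = h ^ 2 • (γ' k' γ k' γ - γ * kf (sym W) * γ)`. -/
theorem derγ (a b : Fin B.N) :
    Der T (S.m.γ a b) ((-(S.m.γ * S.m.kf ((B.F.pi _).sym S.U) * S.m.γ)) a b) := by
  obtain ⟨b0, b1⟩ := S.RFi_bd0 hT hc
  obtain ⟨c0, c1⟩ := S.RFi_bd1 hT hc
  have hk := RFi_kf_mem b0 c1
  rw [m, U, RFi_γ_eq]
  exact RFi_der (y := fun p => (S.s p).1.γ)
    (RFi_sub (RFi_mul (RFi_mul (RFi_mul (RFi_mul c0.γ hk) b0.γ) hk) b0.γ)
      (RFi_mul (RFi_mul b0.γ (RFi_kf_mem b0 (RFi_W_mem b0 b1 c1))) b0.γ))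
    (fun p => RFi_γ2 (S.rel p.1.1 p.1.2 p.2).2 (S.RFi_step p)) a b

end Sch

end Base

end Pool.Agent.MP_9bd639_gt.H88

end

-- part RFj
section

/-! Time derivatives of Sobolev norms. -/

open Matrix MeasureTheory Filter Topology Set
open scoped ContDiff

namespace Pool.Agent.MP_9bd639_gt.H88

namespace Base

variable {B : Base} {T : ℝ} [hT : Fact (0 < T)]

/-- The value of a function and of a matrix at the time `s`. -/
noncomputable def tv (u : B.AT T) (s : ℝ) : B.A := u.1 (pj T s)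
noncomputable def tM (U : Matrix (Fin B.N) (Fin B.N) (B.AT T)) (s : ℝ) : B.Mat :=
  U.map (B.evT T (pj T s)).φ

theorem tM_apply (U : Matrix (Fin B.N) (Fin B.N) (B.AT T)) (s : ℝ) (a b : Fin B.N) :
    tM U s a b = tv (U a b) s := rfl

theorem hd_val (u : B.AT T) (x : B.M) : ∀ t ∈ Icc 0 T,
    HasDerivWithinAt (fun s => (tv u s).1 x) ((tv (D u) t).1 x) (Icc 0 T) t := hd_vl u x

theorem hd_hs (k : ℕ) (u : B.AT T) : ∀ t ∈ Icc 0 T, HasDerivWithinAt
    (fun s => B.an.hs k (tv u s)) (2 * B.an.ip k (tv u t) (tv (D u) t)) (Icc 0 T) t := by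
  intro t ht
  have e : ∀ a b, B.an.ip k a b = B.ipk k a b := B.hip_eq k
  simp only [An.hs, e]
  refine (hd_ipk k u u t ht).congr_deriv ?_
  rw [B.ipk_comm k ((D u).1 (pj T t)), two_mul]
  rfl

theorem hd_hM (k : ℕ) (U : Matrix (Fin B.N) (Fin B.N) (B.AT T)) : ∀ t ∈ Icc 0 T, HasDerivWithinAt
    (fun s => B.an.hM k (tM U s)) (2 * B.an.ipM k (tM U t) (tM ((B.DT T).M U) t)) (Icc 0 T) t := by
  intro t ht
  simp only [An.hM, An.ipM, Finset.mul_sum]
  exact HasDerivWithinAt.fun_sum fun a _ => HasDerivWithinAt.fun_sum fun b _ =>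
    hd_hs k (U a b) t ht

end Base

end Pool.Agent.MP_9bd639_gt.H88

end

-- part RFk
section

/-! A solution of the system is a Ricci flow. -/

open Matrix MeasureTheory Filter Topology Set
open scoped ContDiff

namespace Pool.Agent.MP_9bd639_gt.H88

namespace Base

variable {B : Base} {T : ℝ} [hT : Fact (0 < T)]

theorem Fam.KN' (Φ : Fam B T) : Φ.m.KN := Φ.KN

theorem sys_flow (Φ : Fam B T) {U : Matrix (Fin B.N) (Fin B.N) (B.AT T)}
    (h0 : tM U 0 = (Φ.at 0).S) (hG : (B.DT T).M Φ.m.G = Φ.m.kf ((B.FT T).sym U))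
    (hU : (B.DT T).M U = Φ.m.lap2 U + Φ.m.Qf ((B.FT T).sym U)) :
    (B.DT T).M Φ.m.G = Φ.m.kf Φ.m.S := by
  have hS := (B.FT T).ST_sym U
  have e : ∀ P Q : Matrix (Fin B.N) (Fin B.N) (B.AT T),
      (B.FT T).sym (P + Q) = (B.FT T).sym P + (B.FT T).sym Q := fun P Q => by
    simp only [Fr.sym, transpose_add, Matrix.mul_add, Matrix.add_mul, smul_add]
    abel
  rw [hG, Φ.constraint _ hS hG (by rw [Dt.M_sym, hU, e, Met.lap2_sym, (Φ.m.ST_Qf hS).sym_eq])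
    (by rw [Hom.map_sym]; exact (congrArg B.F.sym h0).trans (Φ.at 0).ST_S.sym_eq)]

theorem boot_sys (m : Icc (0 : ℝ) T → B.Me) (hm : ∀ t, Pos (m t)) (U : Icc (0 : ℝ) T → B.Mat)
    (hG : ∀ a b, TD (fun t => (m t).G a b) fun t => (m t).kf (B.F.sym (U t)) a b)
    (hU : ∀ a b, TD (fun t => U t a b)
      fun t => ((m t).lap2 (U t) + (m t).Qf (B.F.sym (U t))) a b)
    (h0 : U (pj T 0) = (m (pj T 0)).S) : ∃ Φ : Flow B T, Φ.at 0 = m (pj T 0) := by
  have nat1 : ∀ a b, (Met.pi m).kf ((B.F.pi _).sym (piM U)) a b =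
      fun t => (m t).kf (B.F.sym (U t)) a b := fun a b => funext fun t => by
    have := (B.F.at t).map_kf (Met.pi m) ((B.F.pi _).sym (piM U))
    rw [Hom.map_sym] at this
    exact congrFun (congrFun this a) b
  have nat2 : ∀ a b, ((Met.pi m).lap2 (piM U) + (Met.pi m).Qf ((B.F.pi _).sym (piM U))) a b =
      fun t => ((m t).lap2 (U t) + (m t).Qf (B.F.sym (U t))) a b := fun a b => funext fun t => by
    have h1 := (B.F.at t).map_Qf (Met.pi m) ((B.F.pi _).sym (piM U))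
    have h2 := (B.F.at t).map_lap2 (Met.pi m) (piM U)
    rw [Hom.map_sym] at h1
    exact congrArg₂ (· + ·) (congrFun (congrFun h2 a) b) (congrFun (congrFun h1 a) b)
  have hk := boot (κ := Bool × Fin B.N × Fin B.N)
    (u := fun p => if p.1 then fun t => (m t).G p.2.1 p.2.2 else fun t => U t p.2.1 p.2.2)
    (Φ := fun p => if p.1 then fun t => (m t).kf (B.F.sym (U t)) p.2.1 p.2.2 else
      fun t => ((m t).lap2 (U t) + (m t).Qf (B.F.sym (U t))) p.2.1 p.2.2)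
    (fun ⟨s, a, b⟩ => by cases s; exacts [hU a b, hG a b]) fun k hk ⟨s, a, b⟩ => by
      have h := stab_CkS m fun i j => hk (true, i, j)
      have h' : Mem (B.CkS T k) (piM U) := fun i j => hk (false, i, j)
      cases s
      · have := (B.CkS T k).add_mem (h.lap2 h' a b) (h.Qf (h.sym h') a b)
        exact (nat2 a b).subst (motive := fun y => Ck k y) this
      · exact (nat1 a b).subst (motive := fun y => Ck k y) (h.kf (h.sym h') a b)
  have kG : ∀ k i j, Ck k fun t => (m t).G i j := fun k i j => hk k (true, i, j)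
  have kU : ∀ k i j, Ck k fun t => U t i j := fun k i j => hk k (false, i, j)
  refine ⟨⟨Fam.of m kG hm, sys_flow _ (U := matT U kU) h0 (M_eq fun a b => ?_)
    (M_eq fun a b => ?_)⟩, rfl⟩
  · refine Eq.subst (motive := fun y => TD (fun t => (m t).G a b) y) (funext fun t => ?_) (hG a b)
    symm
    have := (B.evT T t).map_kf (famMet m kG) ((B.FT T).sym (matT U kU))
    rw [Hom.map_sym] at this
    exact congrFun (congrFun this a) b
  · refine Eq.subst (motive := fun y => TD (fun t => U t a b) y) (funext fun t => ?_) (hU a b)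
    symm
    have h1 := (B.evT T t).map_Qf (famMet m kG) ((B.FT T).sym (matT U kU))
    have h2 := (B.evT T t).map_lap2 (famMet m kG) (matT U kU)
    rw [Hom.map_sym] at h1
    exact congrArg₂ (· + ·) (congrFun (congrFun h2 a) b) (congrFun (congrFun h1 a) b)

end Base

end Pool.Agent.MP_9bd639_gt.H88

end

-- part RFl
section

/-! A priori bounds for Ricci flows with bounded curvature. -/

open Matrix MeasureTheory Filter Topology Set
open scoped ContDiff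

namespace Pool.Agent.MP_9bd639_gt.H88

namespace Base

variable {B : Base}

/-- With `p` from `Pos.pt` and `u = e G ξ`: `qf G = |u| ^ 2`, `qf S = u ⬝ h2 S u`
(`ev_eq_of_h2`), `|h2 S| ^ 2 = p2` (`ev_ip2`), `s1 = trace (h2 S)`. -/
theorem Pos.qf_kf {m : B.Me} (h : Pos m) {Λ : ℝ} {x : B.M} (hΛ : m.p2.1 x ≤ Λ)
    (ξ : Fin B.N → ℝ) : |qf (m.kf m.S) x ξ| ≤ 6 * √Λ * qf m.G x ξ := by
  obtain ⟨p, hp⟩ := h.pt x
  have key : ∀ T : B.Mat, B.F.ST T → qf T x ξ = ((p.e * m.G.map p.ev) *ᵥ ξ) ⬝ᵥ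
      (p.h2 T *ᵥ ((p.e * m.G.map p.ev) *ᵥ ξ)) := fun T hT => by
    rw [qf, ← hp, p.ev_eq_of_h2 hT.tan (Fr.ST.tan' _ hT), ← mulVec_mulVec, ← mulVec_mulVec,
      St_tr, transpose_transpose]
  have h2 : ∑ a, ∑ b, p.h2 m.S a b * p.h2 m.S a b ≤ Λ := by
    rw [← p.ev_ip2, hp]
    exact hΛ
  have hk : p.h2 (m.kf m.S) = (-2 : ℝ) • (p.h2 m.S + (p.h2 m.S).trace • (1 : Matrix _ _ ℝ)) := by
    rw [Met.kf, p.h2_smul, p.h2_add, p.h2_smul, p.h2_G, p.ev_tr, map_neg, map_ofNat]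
  rw [key _ (m.ST_kf m.ST_S), key _ m.ST_G, hk, p.h2_G]
  generalize (p.e * m.G.map p.ev) *ᵥ ξ = u
  generalize p.h2 m.S = H at h2 ⊢
  have h0 : 0 ≤ u ⬝ᵥ u := St_sq_nonneg u
  have hΛ0 : 0 ≤ Λ := le_trans (Finset.sum_nonneg fun a _ =>
    Finset.sum_nonneg fun b _ => mul_self_nonneg _) h2
  have hs := Real.sqrt_nonneg Λ
  have hq := Real.sq_sqrt hΛ0
  have a1 : |u ⬝ᵥ (H *ᵥ u)| ≤ √Λ * (u ⬝ᵥ u) := by
    refine abs_le_of_sq_le_sq' ?_ (mul_nonneg hs h0) |> abs_le.2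
    have e : u ⬝ᵥ (H *ᵥ u) = ∑ a, ∑ b, u a * u b * H a b := by
      simp only [dotProduct, mulVec, Finset.mul_sum]
      exact Finset.sum_congr rfl fun a _ => Finset.sum_congr rfl fun b _ => by ring
    rw [e, mul_pow, hq]
    refine (Pt.P1_bil u u H).trans ?_
    rw [mul_comm Λ, sq]
    exact mul_le_mul_of_nonneg_left h2 (mul_self_nonneg _)
  have a2 : |H.trace| ≤ 2 * √Λ := by
    refine abs_le_of_sq_le_sq' ?_ (by positivity) |> abs_le.2
    rw [mul_pow, hq]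
    simp only [Matrix.trace, diag_apply, Fin.sum_univ_three] at h2 ⊢
    nlinarith [sq_nonneg (H 0 0 - H 1 1), sq_nonneg (H 0 0 - H 2 2), sq_nonneg (H 1 1 - H 2 2),
      mul_self_nonneg (H 0 1), mul_self_nonneg (H 0 2), mul_self_nonneg (H 1 0),
      mul_self_nonneg (H 1 2), mul_self_nonneg (H 2 0), mul_self_nonneg (H 2 1)]
  have a3 : |H.trace * (u ⬝ᵥ u)| ≤ 2 * √Λ * (u ⬝ᵥ u) := by
    rw [abs_mul, abs_of_nonneg h0]
    exact mul_le_mul_of_nonneg_right a2 h0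
  simp only [smul_mulVec, add_mulVec, one_mulVec, dotProduct_smul, dotProduct_add, smul_eq_mul]
  rw [abs_le] at a1 a3 ⊢
  constructor <;> linarith [a1.1, a1.2, a3.1, a3.2]

theorem RFl_hd_qf {T : ℝ} [Fact (0 < T)] (U : Matrix (Fin B.N) (Fin B.N) (B.AT T)) (x : B.M)
    (ξ : Fin B.N → ℝ) : ∀ t ∈ Icc 0 T, HasDerivWithinAt (fun s => qf (tM U s) x ξ)
      (qf (tM ((B.DT T).M U) t) x ξ) (Icc 0 T) t := fun t ht => by
  simp only [qf, dotProduct, mulVec, map_apply, B.ev_apply, tM_apply]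
  exact HasDerivWithinAt.fun_sum fun i _ => (HasDerivWithinAt.fun_sum fun j _ =>
    (hd_val (U i j) x t ht).mul_const (ξ j)).const_mul (ξ i)

/-- `hd_val`, `gronwall` for `s ↦ qf G x ξ` and `le_of_deriv_le` (or `gronwall` for the negative). -/
theorem ell_flow {m0 : B.Me} (h0 : Pos m0) (T0 Λ : ℝ) : ∃ c : ℝ, 0 < c ∧
    ∀ (T : ℝ) [Fact (0 < T)], T ≤ T0 → ∀ Φ : Flow B T, Φ.at 0 = m0 →
      (∀ s ∈ Icc 0 T, ∀ x, (Φ.at s).p2.1 x ≤ Λ) → ∀ s ∈ Icc 0 T, Ell c (Φ.at s) := by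
  obtain ⟨c, hc, h0⟩ := h0
  have hL : 0 ≤ 6 * √Λ := by positivity
  refine ⟨c * Real.exp (-(6 * √Λ * T0)), by positivity, fun T _ hT Φ hΦ hΛ s hs x ξ => ?_⟩
  have hd : ∀ t ∈ Icc 0 T, HasDerivWithinAt (fun s => qf (Φ.at s).G x ξ)
      (qf ((Φ.at t).kf (Φ.at t).S) x ξ) (Icc 0 T) t := fun t ht => by
    have := RFl_hd_qf Φ.m.G x ξ t ht
    rw [Φ.eq, tM, Hom.map_kf, Hom.map_S] at this
    exact this
  have hb : ∀ t ∈ Ico 0 T, |qf ((Φ.at t).kf (Φ.at t).S) x ξ| ≤ 6 * √Λ * qf (Φ.at t).G x ξ :=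
    fun t ht => Pos.qf_kf (Φ.pos _) (hΛ t (Ico_subset_Icc_self ht) x) ξ
  have g1 := gronwall hd (fun t ht => (abs_le.1 (hb t ht)).2) s hs
  have g2 := gronwall (y := fun s => -qf (Φ.at s).G x ξ) (C := -(6 * √Λ))
    (fun t ht => (hd t ht).neg) (fun t ht => by linarith [(abs_le.1 (hb t ht)).1]) s hs
  simp only [hΦ, sub_zero] at g1 g2
  have hπ := qf_π_nonneg x ξ
  have hsT : 6 * √Λ * s ≤ 6 * √Λ * T0 := mul_le_mul_of_nonneg_left (hs.2.trans hT) hL
  obtain ⟨l, r⟩ := h0 x ξ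
  constructor
  · have e1 : Real.exp (-(6 * √Λ * T0)) ≤ Real.exp (-(6 * √Λ) * s) :=
      Real.exp_le_exp.2 (by linarith)
    have e2 := mul_le_mul l e1 (Real.exp_pos _).le ((mul_nonneg hc.le hπ).trans l)
    linarith
  · have e1 : Real.exp (6 * √Λ * s) ≤ Real.exp (6 * √Λ * T0) := Real.exp_le_exp.2 hsT
    have e2 := mul_le_mul r e1 (Real.exp_pos _).le (mul_nonneg (inv_pos.2 hc).le hπ)
    rw [mul_inv, Real.exp_neg, inv_inv]
    linarith

/-- `entry2_sq_le`, `Ell.G_le`. -/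
theorem Ell.S_le {c Λ : ℝ} {m : B.Me} (h : Ell c m) (hc : 0 < c) (hΛ : ∀ x, m.p2.1 x ≤ Λ)
    (a b : Fin B.N) (x : B.M) : (m.S a b).1 x ^ 2 ≤ c⁻¹ ^ 2 * Λ := by
  obtain ⟨p, hp⟩ := Pos.pt ⟨c, hc, h⟩ x
  have h1 := p.entry2_sq_le m.ST_S.tan (Fr.ST.tan' _ m.ST_S) a b
  rw [hp] at h1
  refine h1.trans (mul_le_mul ?_ (hΛ x) (Pos.ip2_nonneg ⟨c, hc, h⟩ m.S x) (by positivity))
  refine (le_abs_self _).trans ?_
  rw [abs_mul, sq]
  exact mul_le_mul (h.G_le hc a a x) (h.G_le hc b b x) (abs_nonneg _) (inv_pos.2 hc).le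

/-- `E1 ≤ K1` by `gronwall_add`; then `log (1 + E2) + (D / c) * E1` has a bounded derivative. -/
theorem two_level {E1 E1' E2 E2' a : ℝ → ℝ} {T T0 c C D : ℝ} (hc : 0 < c) (hC : 0 ≤ C)
    (hD : 0 ≤ D) (hT : T ≤ T0)
    (h1 : ∀ t ∈ Icc 0 T, HasDerivWithinAt E1 (E1' t) (Icc 0 T) t)
    (h2 : ∀ t ∈ Icc 0 T, HasDerivWithinAt E2 (E2' t) (Icc 0 T) t)
    (p1 : ∀ t, 0 ≤ E1 t) (p2 : ∀ t, 0 ≤ E2 t) (pa : ∀ t, 0 ≤ a t)
    (e1 : ∀ t ∈ Icc 0 T, E1' t ≤ -c * a t + C * (1 + E1 t))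
    (e2 : ∀ t ∈ Icc 0 T, E2' t ≤ D * ((1 + a t) * (1 + E2 t))) :
    ∀ t ∈ Icc 0 T, E2 t ≤ (1 + E2 0) *
      Real.exp (D / c * E1 0 + (D + D / c * C * ((1 + E1 0) * Real.exp (C * T0))) * T0) := by
  have hDc : 0 ≤ D / c := div_nonneg hD hc.le
  have g1 : ∀ t ∈ Icc 0 T, 1 + E1 t ≤ (1 + E1 0) * Real.exp (C * T0) := fun t ht => by
    have := gronwall_add (C := C) h1 (fun s hs => by
      have := e1 s (Ico_subset_Icc_self hs)
      have := mul_nonneg hc.le (pa s)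
      linarith) t ht
    rw [sub_zero, add_comm (E1 t), add_comm (E1 0)] at this
    exact this.trans (mul_le_mul_of_nonneg_left (Real.exp_le_exp.2
      (mul_le_mul_of_nonneg_left (ht.2.trans hT) hC)) (by linarith [p1 0]))
  have hp : ∀ t, 0 < 1 + E2 t := fun t => by linarith [p2 t]
  have hK : 0 ≤ D + D / c * C * ((1 + E1 0) * Real.exp (C * T0)) := by
    have := p1 0
    positivity
  generalize (1 + E1 0) * Real.exp (C * T0) = K at g1 hK ⊢
  intro t ht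
  have hd : ∀ s ∈ Icc 0 T, HasDerivWithinAt (fun s => Real.log (1 + E2 s) + D / c * E1 s)
      (E2' s / (1 + E2 s) + D / c * E1' s) (Icc 0 T) s := fun s hs =>
    (((h2 s hs).const_add 1).log (hp s).ne').add ((h1 s hs).const_mul _)
  have g2 := le_add_of_deriv_le (C := D + D / c * C * K) hd (fun s hs => by
    have hs' := Ico_subset_Icc_self hs
    have a1 : E2' s / (1 + E2 s) ≤ D * (1 + a s) := by
      rw [div_le_iff₀ (hp s), mul_assoc]
      exact e2 s hs'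
    have a2 := mul_le_mul_of_nonneg_left (e1 s hs') hDc
    have a3 := mul_le_mul_of_nonneg_left (g1 s hs') (mul_nonneg hDc hC)
    have a4 : D / c * (-c * a s + C * (1 + E1 s)) = -(D * a s) + D / c * C * (1 + E1 s) := by
      field_simp
    linarith) t ht
  rw [sub_zero] at g2
  have a1 := mul_le_mul_of_nonneg_left (ht.2.trans hT) hK
  have a2 := mul_nonneg hDc (p1 t)
  have a3 : Real.log (1 + E2 t) ≤
      Real.log (1 + E2 0) + (D / c * E1 0 + (D + D / c * C * K) * T0) := by linarith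
  have a4 := Real.exp_le_exp.2 a3
  rw [Real.exp_log (hp t), Real.exp_add, Real.exp_log (hp 0)] at a4
  linarith

theorem RFl_hd {T : ℝ} [Fact (0 < T)] (Φ : Flow B T) (k l : ℕ) : ∀ t ∈ Icc 0 T, HasDerivWithinAt
    (fun s => B.an.hM k (Φ.at s).S + B.an.hM l (Φ.at s).G)
    (2 * B.an.ipM k (Φ.at t).S ((Φ.at t).S.map (Φ.at t).L0 + (Φ.at t).low (Φ.at t).S) +
      2 * B.an.ipM l (Φ.at t).G ((Φ.at t).kf (B.F.sym (Φ.at t).S))) (Icc 0 T) t := fun t ht => by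
  have e1 : ∀ s, tM Φ.m.S s = (Φ.at s).S := fun s => (B.evT T (pj T s)).map_S Φ.m
  have e2 : tM ((B.DT T).M Φ.m.S) t =
      (Φ.at t).S.map (Φ.at t).L0 + (Φ.at t).low (Φ.at t).S := by
    rw [(B.DT T).flow_S Φ.toFam.KN' Φ.eq, tM, Matrix.map_add _ (map_add _), Hom.map_lap2,
      Hom.map_Qf, Hom.map_S, Met.low, (Met.ST_S _).sym_eq]
    exact (add_add_sub_cancel _ _ _).symm.trans (by abel)
  have e3 : tM ((B.DT T).M Φ.m.G) t = (Φ.at t).kf (B.F.sym (Φ.at t).S) := by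
    rw [Φ.eq, tM, Hom.map_kf, Hom.map_S, (Met.ST_S _).sym_eq]
    rfl
  have h := (hd_hM k Φ.m.S t ht).add (hd_hM l Φ.m.G t ht)
  simp only [e1, e2, e3] at h
  exact h

theorem apriori {m0 : B.Me} (h0 : Pos m0) (T0 Λ : ℝ) : ∃ c K : ℝ, 0 < c ∧
    ∀ (T : ℝ) [Fact (0 < T)], T ≤ T0 → ∀ Φ : Flow B T, Φ.at 0 = m0 →
      (∀ s ∈ Icc 0 T, ∀ x, (Φ.at s).p2.1 x ≤ Λ) →
      Ell c (Φ.at T) ∧ B.an.hM 2 (Φ.at T).S + B.an.hM 3 (Φ.at T).G ≤ K := by
  obtain ⟨c, hc, H⟩ := ell_flow h0 T0 Λ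
  obtain ⟨C, hC, H1⟩ := B.an.est_lo hc (c⁻¹ ^ 2 * Λ)
  obtain ⟨D, hD, H2⟩ := B.an.est_two hc
    ((B.an.hM 1 m0.S + B.an.hM 2 m0.G + 1) * Real.exp (C * T0))
  refine ⟨c, (1 + (B.an.hM 2 m0.S + B.an.hM 3 m0.G)) *
    Real.exp (D / (c / 4) * (B.an.hM 1 m0.S + B.an.hM 2 m0.G) + (D + D / (c / 4) * C *
      ((1 + (B.an.hM 1 m0.S + B.an.hM 2 m0.G)) * Real.exp (C * T0))) * T0), hc,
    fun T hT hle Φ e hΛ => ?_⟩
  have hT' : T ∈ Icc 0 T := ⟨hT.out.le, le_rfl⟩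
  have el := H T hle Φ e hΛ
  have e1 := fun t (ht : t ∈ Icc 0 T) =>
    H1 _ (Φ.at t).S ((el t ht).el hc) ((el t ht).S_le hc (hΛ t ht))
  have nn := B.an.hM_nonneg
  have b1 := gronwall_add (C := C) (RFl_hd Φ 1 2) fun t ht => by
    have := e1 t (Ico_subset_Icc_self ht)
    nlinarith [mul_nonneg hc.le (nn 2 (Φ.at t).S)]
  have b2 := two_level (a := fun t => B.an.hM 2 (Φ.at t).S) (by positivity : 0 < c / 4) hC hD hle
    (RFl_hd Φ 1 2) (RFl_hd Φ 2 3) (fun _ => add_nonneg (nn _ _) (nn _ _))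
    (fun _ => add_nonneg (nn _ _) (nn _ _)) (fun _ => nn _ _)
    (fun t ht => (e1 t ht).trans_eq (by ring)) (fun t ht => by
      have a1 := b1 t ht
      have a2 : Real.exp (C * (t - 0)) ≤ Real.exp (C * T0) := by
        gcongr
        linarith [ht.2]
      rw [e] at a1
      have a3 := a1.trans (mul_le_mul_of_nonneg_left a2
        (add_nonneg (add_nonneg (nn _ _) (nn _ _)) zero_le_one))
      exact (H2 _ _ ((el t ht).el hc) (by linarith [nn 1 (Φ.at t).S])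
        (by linarith [nn 2 (Φ.at t).G])).trans_eq (by ring)) T hT'
  rw [e] at b2
  exact ⟨el T hT', b2⟩

end Base

end Pool.Agent.MP_9bd639_gt.H88

end

-- part RF
section

/-! Short time existence and continuation of the Ricci flow. -/

open Matrix MeasureTheory Filter Topology Set
open scoped ContDiff

namespace Pool.Agent.MP_9bd639_gt.H88

namespace Base

variable {B : Base}

theorem RF_eq {l : Filter ℕ} [l.NeBot] {y z : Option ℕ → B.A} (hy : y ∈ B.SmCa l)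
    (hz : z ∈ B.SmCa l) (h : ∀ n, y (some n) = z (some n)) : y none = z none :=
  SmC.unique (a := fun n => y (some n)) hy (by rw [funext h]; exact hz)

theorem RF_mul {κ : Type} {W : Subalgebra ℝ (κ → B.A)} {P Q : κ → B.Mat} (hP : Mem W (piM P))
    (hQ : Mem W (piM Q)) : Mem W (piM fun n => P n * Q n) := fun a b => by
  have e : piM (fun n => P n * Q n) a b = ∑ l, piM P a l * piM Q l b := funext fun n => by
    simp [piM, Matrix.mul_apply]
  rw [e]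
  exact W.sum_mem fun l _ => W.mul_mem (hP a l) (hQ l b)

/-- The smooth limit of metrics is a metric. -/
theorem RF_met {l : Filter ℕ} [l.NeBot] {c : ℝ} {m : ℕ → B.Me} (hm : ∀ n, Ell c (m n))
    {G γ : B.Mat} (hG : ∀ a b, B.SmC l (fun n => (m n).G a b) (G a b))
    (hγ : ∀ a b, B.SmC l (fun n => (m n).γ a b) (γ a b)) :
    ∃ m' : B.Me, m'.G = G ∧ m'.γ = γ ∧ Ell c m' := by
  have h1 : Mem (B.SmCa l) (piM fun o : Option ℕ => o.elim G fun n => (m n).G) := hG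
  have h2 : Mem (B.SmCa l) (piM fun o : Option ℕ => o.elim γ fun n => (m n).γ) := hγ
  have h3 : Mem (B.SmCa l) (piM fun _ : Option ℕ => B.F.π) := fun a b => SmC.const l _
  refine ⟨⟨G, γ, ?_, ?_, ?_, ?_, ?_⟩, rfl, rfl, fun x ξ => ?_⟩
  · ext a b : 1
    exact RF_eq (h1 b a) (h1 a b) fun n => (m n).G_apply_symm b a
  · ext a b : 1
    exact RF_eq (h2 b a) (h2 a b) fun n => (m n).γ_apply_symm b a
  · ext a b : 1
    exact RF_eq (RF_mul h2 h1 a b) (h3 a b) fun n => congrFun (congrFun (m n).γG a) b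
  · ext a b : 1
    exact RF_eq (RF_mul h3 h1 a b) (h1 a b) fun n => congrFun (congrFun (m n).πG a) b
  · ext a b : 1
    exact RF_eq (RF_mul h3 h2 a b) (h2 a b) fun n => congrFun (congrFun (m n).πγ a) b
  · have ht : Tendsto (fun n => qf (m n).G x ξ) l (𝓝 (qf G x ξ)) := by
      simp only [qf, dotProduct, mulVec, map_apply]
      exact tendsto_finset_sum _ fun a _ => Tendsto.const_mul _ (tendsto_finset_sum _ fun b _ =>
        Tendsto.mul_const _ ((hG a b []).tendsto_at x))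
    exact ⟨ge_of_tendsto' ht fun n => (hm n x ξ).1, le_of_tendsto' ht fun n => (hm n x ξ).2⟩

theorem Sch.limit {T c K : ℝ} [hT : Fact (0 < T)] {m0 : B.Me} (S : Sch B T c K m0 m0.S)
    (hc : 0 < c) : ∃ Φ : Flow B T, Φ.at 0 = m0 := by
  obtain ⟨h1, h2⟩ := S.stab hT.out hc
  choose G hG using fun a b => exists_lim (T := T) (h1.G a b)
  choose γ hγ using fun a b => exists_lim (T := T) (h1.γ a b)
  choose U hU using fun a b => exists_lim (T := T) (h2 a b)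
  choose m e1 e2 e3 using fun t : Icc (0 : ℝ) T =>
    RF_met (l := (hyperfilter ℕ : Filter ℕ)) (m := fun n => (S.s (idx t n)).1)
      (fun n => S.ell n _ (idx_le t n)) (G := of fun a b => G a b t) (γ := of fun a b => γ a b t)
      (fun a b => hG a b t) fun a b => hγ a b t
  set V : Icc (0 : ℝ) T → B.Mat := fun t => of fun a b => U a b t
  let mo : Icc (0 : ℝ) T → Option ℕ → B.Me := fun t o => o.elim (m t) fun n => (S.s (idx t n)).1
  let Vo : Icc (0 : ℝ) T → Option ℕ → B.Mat := fun t o => o.elim (V t) fun n => (S.s (idx t n)).2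
  have st : ∀ t, (Met.pi (mo t)).Stab (B.SmCa (hyperfilter ℕ : Filter ℕ)) := fun t =>
    ⟨fun i _ ha => SmC.X ha i, fun j => SmC.const _ _,
      fun a b => by have := hG a b t; rwa [show G a b t = (m t).G a b by rw [e1]; rfl] at this,
      fun a b => by have := hγ a b t; rwa [show γ a b t = (m t).γ a b by rw [e2]; rfl] at this⟩
  have sV : ∀ t, Mem (B.SmCa (hyperfilter ℕ : Filter ℕ)) (piM (Vo t)) := fun t a b => hU a b t
  have nat1 : ∀ {κ : Type} (p : κ → B.Me) (W : κ → B.Mat) a b j,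
      (Met.pi p).kf ((B.F.pi _).sym (piM W)) a b j = (p j).kf (B.F.sym (W j)) a b :=
    fun p W a b j => by
      have := (B.F.at j).map_kf (Met.pi p) ((B.F.pi _).sym (piM W))
      rw [Hom.map_sym] at this
      exact congrFun (congrFun this a) b
  have nat2 : ∀ {κ : Type} (p : κ → B.Me) (W : κ → B.Mat) a b j,
      ((Met.pi p).lap2 (piM W) + (Met.pi p).Qf ((B.F.pi _).sym (piM W))) a b j =
        ((p j).lap2 (W j) + (p j).Qf (B.F.sym (W j))) a b := fun p W a b j => by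
    have h1 := (B.F.at j).map_Qf (Met.pi p) ((B.F.pi _).sym (piM W))
    have h2 := (B.F.at j).map_lap2 (Met.pi p) (piM W)
    rw [Hom.map_sym] at h1
    exact congrArg₂ (· + ·) (congrFun (congrFun h2 a) b) (congrFun (congrFun h1 a) b)
  have l1 : ∀ a b, Lim (S.m.kf ((B.F.pi _).sym S.U) a b)
      fun t => (m t).kf (B.F.sym (V t)) a b := fun a b t => by
    have : B.SmC _ _ _ := (st t).kf ((st t).sym (sV t)) a b
    simp only [nat1] at this
    simp only [Sch.m, Sch.U, nat1]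
    exact this
  have l2 : ∀ a b, Lim ((S.m.lap2 S.U + S.m.Qf ((B.F.pi _).sym S.U)) a b)
      fun t => ((m t).lap2 (V t) + (m t).Qf (B.F.sym (V t))) a b := fun a b t => by
    have : B.SmC _ (fun n => ((Met.pi (mo t)).lap2 (piM (Vo t)) +
        (Met.pi (mo t)).Qf ((B.F.pi _).sym (piM (Vo t)))) a b (some n))
        (((Met.pi (mo t)).lap2 (piM (Vo t)) +
          (Met.pi (mo t)).Qf ((B.F.pi _).sym (piM (Vo t)))) a b none) :=
      (B.SmCa _).add_mem ((st t).lap2 (sV t) a b) ((st t).Qf ((st t).sym (sV t)) a b)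
    simp only [nat2] at this
    simp only [Sch.m, Sch.U, nat2]
    exact this
  have i1 : m (pj T 0) = m0 := Met.eq_of_G <| by
    rw [e1]
    ext a b : 1
    refine SmC.unique (hG a b (pj T 0)) ?_
    simp only [idx_zero, Sch.m, Met.pi, piM, of_apply, S.s0]
    exact SmC.const _ _
  have i2 : V (pj T 0) = m0.S := by
    ext a b : 1
    refine SmC.unique (hU a b (pj T 0)) ?_
    simp only [idx_zero, Sch.U, piM, of_apply, S.s0]
    exact SmC.const _ _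
  rw [← i1]
  refine boot_sys m (fun t => ⟨c, hc, e3 t⟩) V (fun a b => ?_) (fun a b => ?_) (by rw [i1, i2])
  · simp only [e1]
    exact (hG a b).td (l1 a b) (h1.G a b) (h1.kf (h1.sym h2) a b) (S.derG hT.out hc a b)
  · exact (hU a b).td (l2 a b) (h2 a b)
      (B.LipA.add_mem (h1.lap2 h2 a b) (h1.Qf (h1.sym h2) a b)) (S.derU hT.out hc a b)

theorem short (hB : B.Good) {c : ℝ} (hc : 0 < c) (K : ℝ) : ∃ τ : ℝ, 0 < τ ∧
    ∀ (T : ℝ) [Fact (0 < T)] (m0 : B.Me), T ≤ τ → Ell c m0 →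
      B.an.hM 2 m0.S + B.an.hM 3 m0.G ≤ K → ∃ Φ : Flow B T, Φ.at 0 = m0 := by
  obtain ⟨τ, hτ, h⟩ := exists_sch hB hc K
  refine ⟨τ, hτ, fun T hT m0 h1 h2 h3 => ?_⟩
  obtain ⟨S⟩ := h T m0 m0.S hT.out h1 h2 h3
  exact S.limit (half_pos hc)

theorem flow_exists (hB : B.Good) {m0 : B.Me} (h0 : Pos m0) (T : ℝ) [hT : Fact (0 < T)] (Λ : ℝ)
    (hΛ : ∀ (T' : ℝ) [Fact (0 < T')], T' ≤ T → ∀ Φ : Flow B T', Φ.at 0 = m0 →
      ∀ s ∈ Icc 0 T', ∀ x, (Φ.at s).p2.1 x ≤ Λ) :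
    ∃ Φ : Flow B T, Φ.at 0 = m0 := by
  obtain ⟨c, K, hc, hK⟩ := apriori h0 T Λ
  obtain ⟨c0, hc0, h0⟩ := h0
  obtain ⟨τ0, hτ0, s0⟩ := short hB hc0 (B.an.hM 2 m0.S + B.an.hM 3 m0.G)
  obtain ⟨τ, hτ, s1⟩ := short hB hc K
  haveI : Fact (0 < τ) := ⟨hτ⟩
  have key : ∀ n : ℕ, ∀ (T' : ℝ) [Fact (0 < T')], T' ≤ T → T' ≤ τ0 + n * τ →
      ∃ Φ : Flow B T', Φ.at 0 = m0 := fun n => by
    induction n with
    | zero => exact fun T' _ _ h => s0 T' m0 (by simpa using h) h0 le_rfl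
    | succ n ih =>
      intro T' hT' h1 h2
      rcases le_total T' (τ0 + n * τ) with h3 | h3
      · exact ih T' h1 h3
      haveI : Fact (0 < τ0 + n * τ) := ⟨by positivity⟩
      obtain ⟨Φ, e⟩ := ih (τ0 + n * τ) (h3.trans h1) le_rfl
      obtain ⟨a1, a2⟩ := hK _ (h3.trans h1) Φ e (hΛ _ (h3.trans h1) Φ e)
      obtain ⟨Ψ, e'⟩ := s1 τ _ le_rfl a1 a2
      obtain ⟨Θ, hΘ⟩ := Flow.glue (T := T') Φ Ψ e'.symm (by push_cast at h2; linarith)
      exact ⟨Θ, ((hΘ 0 ⟨le_rfl, hT'.out.le⟩).1 (by positivity)).trans e⟩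
  obtain ⟨n, hn⟩ := exists_nat_ge (T / τ)
  exact key n T le_rfl (by rw [div_le_iff₀ hτ] at hn; linarith)

end Base

end Pool.Agent.MP_9bd639_gt.H88

end
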